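import Mathlib

namespace Pool.Agent.H32.Amp

open Finset

section general

variable {V : Type} [Fintype V] [DecidableEq V] (G : SimpleGraph V) [DecidableRel G.Adj]

/-- admissible local maps at a vertex -/
def Loc (v : V) (g : V → V) : Prop :=
  (∀ j, G.Adj v j → G.Adj v (g j)) ∧ (∀ j, ¬ G.Adj v j → g j = j) ∧
    (∀ j k, G.Adj v j → G.Adj v k → g j = g k → j = k)

def toFun (σ : Equiv.Perm G.Dart) (i j : V) : V :=
  if h : G.Adj i j then (σ ⟨(i, j), h⟩).snd else j

theorem toFun_dart (σ : Equiv.Perm G.Dart) (d : G.Dart) :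
    toFun G σ d.fst d.snd = (σ d).snd := by
  unfold toFun
  rw [dif_pos d.adj]

theorem sum_perm_eq {M : Type} [AddCommMonoid M] (P : Finset (Equiv.Perm G.Dart))
    (hP : ∀ σ, σ ∈ P ↔ ∀ d, (σ d).fst = d.fst) (L : V → Finset (V → V))
    (hL : ∀ v g, g ∈ L v ↔ Loc G v g) (h : (V → V → V) → M) :
    ∑ σ ∈ P, h (toFun G σ) = ∑ f ∈ Fintype.piFinset L, h f := by
  refine Finset.sum_bij (fun σ _ => toFun G σ) ?_ ?_ ?_ ?_
  · intro σ hσ
    have h1 := (hP σ).1 hσ
    rw [Fintype.mem_piFinset]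
    intro v
    rw [hL]
    refine ⟨?_, ?_, ?_⟩
    · intro j hj
      have := (σ ⟨(v, j), hj⟩).adj
      rw [h1] at this
      unfold toFun
      rw [dif_pos hj]
      exact this
    · intro j hj
      unfold toFun
      rw [dif_neg hj]
    · intro j k hj hk hjk
      unfold toFun at hjk
      rw [dif_pos hj, dif_pos hk] at hjk
      have : σ ⟨(v, j), hj⟩ = σ ⟨(v, k), hk⟩ := by
        apply SimpleGraph.Dart.ext
        apply Prod.ext
        · rw [h1, h1]
        · exact hjk
      have h2 := σ.injective this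
      have h3 := congrArg (fun d : G.Dart => d.snd) h2
      exact h3
  · intro σ hσ τ hτ hst
    have h1 := (hP σ).1 hσ
    have h2 := (hP τ).1 hτ
    ext1 d
    apply SimpleGraph.Dart.ext
    apply Prod.ext
    · rw [h1, h2]
    · rw [← toFun_dart, ← toFun_dart, hst]
  · intro f hf
    rw [Fintype.mem_piFinset] at hf
    have hf' : ∀ v, Loc G v (f v) := fun v => (hL v _).1 (hf v)
    let φ : G.Dart → G.Dart := fun d => ⟨(d.fst, f d.fst d.snd), (hf' d.fst).1 _ d.adj⟩
    have hinj : Function.Injective φ := by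
      intro d e hde
      have h1 : d.fst = e.fst := (congrArg (fun d : G.Dart => d.fst) hde :)
      have h2 : f d.fst d.snd = f e.fst e.snd := (congrArg (fun d : G.Dart => d.snd) hde :)
      apply SimpleGraph.Dart.ext
      apply Prod.ext h1
      have h3 : G.Adj d.fst e.snd := by rw [h1]; exact e.adj
      rw [← h1] at h2
      exact (hf' d.fst).2.2 _ _ d.adj h3 h2
    refine ⟨Equiv.ofBijective φ (Finite.injective_iff_bijective.1 hinj), ?_, ?_⟩
    · rw [hP]; intro d; rfl
    · funext i j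
      unfold toFun
      split_ifs with hij
      · rfl
      · exact ((hf' i).2.1 j hij).symm
  · intro σ _; rfl

def mk3 (a b c a' b' c' : V) : V → V := fun x =>
  if x = a then a' else if x = b then b' else if x = c then c' else x

def mk2 (a b a' b' : V) : V → V := fun x =>
  if x = a then a' else if x = b then b' else x

def l2 (a b : V) : List (V → V) := [mk2 a b a b, mk2 a b b a]

def l3 (a b c : V) : List (V → V) :=
  [mk3 a b c a b c, mk3 a b c a c b, mk3 a b c b a c, mk3 a b c b c a, mk3 a b c c a b,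
    mk3 a b c c b a]

theorem loc2 (v a b : V) (hab : a ≠ b) (hN : ∀ j, G.Adj v j ↔ j = a ∨ j = b) (g : V → V) :
    g ∈ (l2 a b).toFinset ↔ Loc G v g := by
  have hba := hab.symm
  unfold Loc l2
  simp only [hN, List.mem_toFinset, List.mem_cons, List.not_mem_nil, or_false]
  constructor
  · rintro (rfl | rfl)
    all_goals
      refine ⟨?_, ?_, ?_⟩
      · rintro j (rfl | rfl) <;> simp [mk2, hab, hba]
      · intro j hj
        push Not at hj
        simp [mk2, hj.1, hj.2]
      · rintro j k (rfl | rfl) (rfl | rfl) <;> simp [mk2, hab, hba]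
  · rintro ⟨h1, h2, h3⟩
    have e : g = mk2 a b (g a) (g b) := by
      funext x
      unfold mk2
      split_ifs with hx hy
      · rw [hx]
      · rw [hy]
      · exact h2 x (by push Not; exact ⟨hx, hy⟩)
    have hne : g a ≠ g b := fun h => hab (h3 a b (Or.inl rfl) (Or.inr rfl) h)
    rcases h1 a (Or.inl rfl) with ha | ha <;> rcases h1 b (Or.inr rfl) with hb | hb
    · exact absurd (ha.trans hb.symm) hne
    · left; rw [e, ha, hb]
    · right; rw [e, ha, hb]
    · exact absurd (ha.trans hb.symm) hne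

theorem loc3 (v a b c : V) (hab : a ≠ b) (hac : a ≠ c) (hbc : b ≠ c)
    (hN : ∀ j, G.Adj v j ↔ j = a ∨ j = b ∨ j = c) (g : V → V) :
    g ∈ (l3 a b c).toFinset ↔ Loc G v g := by
  have hba := hab.symm
  have hca := hac.symm
  have hcb := hbc.symm
  unfold Loc l3
  simp only [hN, List.mem_toFinset, List.mem_cons, List.not_mem_nil, or_false]
  constructor
  · rintro (rfl | rfl | rfl | rfl | rfl | rfl)
    all_goals
      refine ⟨?_, ?_, ?_⟩
      · rintro j (rfl | rfl | rfl) <;> simp [mk3, hab, hba, hac, hca, hbc, hcb]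
      · intro j hj
        push Not at hj
        simp [mk3, hj.1, hj.2.1, hj.2.2]
      · rintro j k (rfl | rfl | rfl) (rfl | rfl | rfl) <;>
          simp [mk3, hab, hba, hac, hca, hbc, hcb]
  · rintro ⟨h1, h2, h3⟩
    have e : g = mk3 a b c (g a) (g b) (g c) := by
      funext x
      unfold mk3
      split_ifs with hx hy hz
      · rw [hx]
      · rw [hy]
      · rw [hz]
      · exact h2 x (by push Not; exact ⟨hx, hy, hz⟩)
    have n1 : g a ≠ g b := fun h => hab (h3 a b (by simp) (by simp) h)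
    have n2 : g a ≠ g c := fun h => hac (h3 a c (by simp) (by simp) h)
    have n3 : g b ≠ g c := fun h => hbc (h3 b c (by simp) (by simp) h)
    rcases h1 a (by simp) with ha | ha | ha <;> rcases h1 b (by simp) with hb | hb | hb <;>
      rcases h1 c (by simp) with hc | hc | hc <;>
      first
        | exact absurd (ha.trans hb.symm) n1
        | exact absurd (ha.trans hc.symm) n2
        | exact absurd (hb.trans hc.symm) n3
        | (rw [e, ha, hb, hc]; simp)

end general

theorem sum_piFinset_cons {α M : Type} [DecidableEq α] [AddCommMonoid M] {n : ℕ}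
    (S : Fin (n + 1) → Finset α) (F : (Fin (n + 1) → α) → M) :
    ∑ f ∈ Fintype.piFinset S, F f
      = ∑ a ∈ S 0, ∑ f ∈ Fintype.piFinset (fun i : Fin n => S i.succ), F (Fin.cons a f) := by
  rw [← Finset.sum_product']
  refine Finset.sum_nbij' (fun f => (f 0, Fin.tail f)) (fun p => Fin.cons p.1 p.2) ?_ ?_ ?_ ?_ ?_
  · intro f hf
    rw [Fintype.mem_piFinset] at hf
    simp only [Finset.mem_product, Fintype.mem_piFinset]
    exact ⟨hf 0, fun i => hf i.succ⟩
  · intro p hp
    simp only [Finset.mem_product, Fintype.mem_piFinset] at hp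
    rw [Fintype.mem_piFinset]
    intro i
    refine Fin.cases ?_ (fun i => ?_) i
    · simpa using hp.1
    · simpa using hp.2 i
  · intro f _; simp
  · intro p _; simp
  · intro f _; simp

theorem sum_piFinset_zero {α M : Type} [DecidableEq α] [AddCommMonoid M]
    (S : Fin 0 → Finset α) (F : (Fin 0 → α) → M) :
    ∑ f ∈ Fintype.piFinset S, F f = F (fun i => i.elim0) := by
  have : Fintype.piFinset S = {fun i => i.elim0} := by
    ext f
    simp only [Fintype.mem_piFinset, Finset.mem_singleton]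
    constructor
    · intro _; funext i; exact i.elim0
    · intro _ i; exact i.elim0
  rw [this, Finset.sum_singleton]

abbrev R : Type := Zsqrtd 4443

def adjB : ℕ → ℕ → Bool
  | 0, 1 => true | 0, 2 => true | 2, 3 => true | 3, 4 => true | 4, 5 => true | 1, 5 => true
  | 0, 6 => true | 6, 7 => true | 7, 8 => true | 8, 9 => true | 1, 9 => true
  | _, _ => false

def theta : SimpleGraph (Fin 10) where
  Adj i j := adjB i.val j.val = true ∨ adjB j.val i.val = true
  symm := ⟨fun _ _ h => h.symm⟩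
  loopless := ⟨by decide⟩

instance : DecidableRel theta.Adj := fun i j =>
  inferInstanceAs (Decidable (adjB i.val j.val = true ∨ adjB j.val i.val = true))

/-- spinor on the dart (i,j) with i<j -/
def W0 : ℕ → ℕ → R × R
  | 0, 1 => (1, 0) | 0, 2 => (1, -1) | 2, 3 => (1, -2) | 3, 4 => (⟨282, 1⟩, -174)
  | 4, 5 => (0, 1) | 1, 5 => (-1, 1)
  | 0, 6 => (1, 2) | 6, 7 => (2, 1) | 7, 8 => (1, 2) | 8, 9 => (1, -1) | 1, 9 => (1, 0)
  | _, _ => (0, 0)

def W (i j : Fin 10) : R × R :=
  if i.val < j.val then W0 i.val j.val else (-(W0 j.val i.val).2, (W0 j.val i.val).1)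

def om (a b : R × R) : R := a.1 * b.2 - a.2 * b.1

def LL : Fin 10 → List (Fin 10 → Fin 10) :=
  ![l3 1 2 6, l3 0 5 9, l2 0 3, l2 2 4, l2 3 5, l2 1 4, l2 0 7, l2 6 8, l2 7 9, l2 1 8]

def T (g0 g1 g2 g3 g4 g5 g6 g7 g8 g9 : Fin 10 → Fin 10) : R :=
  om (W 0 (g0 1)) (W 1 (g1 0)) * (om (W 0 (g0 2)) (W 2 (g2 0)) * (om (W 0 (g0 6)) (W 6 (g6 0)) *
  (om (W 1 (g1 5)) (W 5 (g5 1)) * (om (W 1 (g1 9)) (W 9 (g9 1)) * (om (W 2 (g2 3)) (W 3 (g3 2)) *
  (om (W 3 (g3 4)) (W 4 (g4 3)) * (om (W 4 (g4 5)) (W 5 (g5 4)) * (om (W 6 (g6 7)) (W 7 (g7 6)) *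
  (om (W 7 (g7 8)) (W 8 (g8 7)) * (om (W 8 (g8 9)) (W 9 (g9 8))))))))))))

theorem total_zero : ((l3 (1 : Fin 10) 2 6).map fun g0 => ((l3 (0 : Fin 10) 5 9).map fun g1 =>
    ((l2 (0 : Fin 10) 3).map fun g2 => ((l2 (2 : Fin 10) 4).map fun g3 =>
    ((l2 (3 : Fin 10) 5).map fun g4 => ((l2 (1 : Fin 10) 4).map fun g5 =>
    ((l2 (0 : Fin 10) 7).map fun g6 => ((l2 (6 : Fin 10) 8).map fun g7 =>
    ((l2 (7 : Fin 10) 9).map fun g8 => ((l2 (1 : Fin 10) 8).map fun g9 =>
      T g0 g1 g2 g3 g4 g5 g6 g7 g8 g9).sum).sum).sum).sum).sum).sum).sum).sum).sum).sum = 0 := by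
  decide +kernel

theorem LL_nodup : ∀ v, (LL v).Nodup := by decide +kernel

theorem LL_loc (v : Fin 10) (g : Fin 10 → Fin 10) : g ∈ (LL v).toFinset ↔ Loc theta v g := by
  fin_cases v
  · exact loc3 theta _ 1 2 6 (by decide) (by decide) (by decide) (by decide) g
  · exact loc3 theta _ 0 5 9 (by decide) (by decide) (by decide) (by decide) g
  · exact loc2 theta _ 0 3 (by decide) (by decide) g
  · exact loc2 theta _ 2 4 (by decide) (by decide) g
  · exact loc2 theta _ 3 5 (by decide) (by decide) g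
  · exact loc2 theta _ 1 4 (by decide) (by decide) g
  · exact loc2 theta _ 0 7 (by decide) (by decide) g
  · exact loc2 theta _ 6 8 (by decide) (by decide) g
  · exact loc2 theta _ 7 9 (by decide) (by decide) g
  · exact loc2 theta _ 1 8 (by decide) (by decide) g

def F (f : Fin 10 → Fin 10 → Fin 10) : R :=
  T (f 0) (f 1) (f 2) (f 3) (f 4) (f 5) (f 6) (f 7) (f 8) (f 9)

theorem sum_F : ∑ f ∈ Fintype.piFinset (fun v => (LL v).toFinset), F f = 0 := by
  simp only [sum_piFinset_cons, sum_piFinset_zero]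
  simp only [List.sum_toFinset _ (LL_nodup _)]
  exact total_zero

def E0 : Finset (Fin 10 × Fin 10) :=
  {(0, 1), (0, 2), (0, 6), (1, 5), (1, 9), (2, 3), (3, 4), (4, 5), (6, 7), (7, 8), (8, 9)}

theorem mem_E0 : ∀ i j : Fin 10, (i, j) ∈ E0 ↔ theta.Adj i j ∧ i < j := by decide +kernel

theorem prod_darts {M : Type} [CommMonoid M] (Δ : Finset theta.Dart)
    (hΔ : ∀ d, d ∈ Δ ↔ d.fst < d.snd) (h : Fin 10 → Fin 10 → M) :
    ∏ d ∈ Δ, h d.fst d.snd = ∏ p ∈ E0, h p.1 p.2 := by
  refine Finset.prod_bij (fun d _ => d.toProd) ?_ ?_ ?_ ?_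
  · intro d hd
    exact (mem_E0 d.fst d.snd).2 ⟨d.adj, (hΔ d).1 hd⟩
  · intro d _ e _ hde
    exact SimpleGraph.Dart.ext _ _ hde
  · rintro ⟨i, j⟩ hp
    have := (mem_E0 i j).1 hp
    exact ⟨⟨(i, j), this.1⟩, (hΔ _).2 this.2, rfl⟩
  · intro d _; rfl

theorem prod_E0 (f : Fin 10 → Fin 10 → Fin 10) :
    ∏ p ∈ E0, om (W p.1 (f p.1 p.2)) (W p.2 (f p.2 p.1)) = F f := by
  unfold E0
  rw [Finset.prod_insert (by decide), Finset.prod_insert (by decide),
    Finset.prod_insert (by decide), Finset.prod_insert (by decide),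
    Finset.prod_insert (by decide), Finset.prod_insert (by decide),
    Finset.prod_insert (by decide), Finset.prod_insert (by decide),
    Finset.prod_insert (by decide), Finset.prod_insert (by decide), Finset.prod_singleton]
  rfl

theorem num_zero (P : Finset (Equiv.Perm theta.Dart))
    (hP : ∀ σ, σ ∈ P ↔ ∀ d, (σ d).fst = d.fst) (Δ : Finset theta.Dart)
    (hΔ : ∀ d, d ∈ Δ ↔ d.fst < d.snd) :
    ∑ σ ∈ P, ∏ d ∈ Δ, om (W (σ d).fst (σ d).snd) (W (σ d.symm).fst (σ d.symm).snd) = 0 := by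
  rw [← sum_F, ← sum_perm_eq theta P hP _ LL_loc F]
  refine Finset.sum_congr rfl fun σ hσ => ?_
  have h1 := (hP σ).1 hσ
  rw [← prod_E0, ← prod_darts Δ hΔ
    (fun i j => om (W i (toFun theta σ i j)) (W j (toFun theta σ j i)))]
  refine Finset.prod_congr rfl fun d _ => ?_
  rw [h1, h1, toFun_dart]
  have := toFun_dart theta σ d.symm
  rw [← this]
  rfl

/-- z and x coordinates of the points -/
def X : Fin 10 → R × R :=
  ![(0, 0), (2, 0), (0, -2), (-3, -6), (⟨53688, 564⟩, ⟨-98142, -348⟩), (2, ⟨-98142, -348⟩),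
    (-3, 4), (6, 16), (3, 20), (3, 0)]

def len0 : ℕ → ℕ → R
  | 0, 1 => 2 | 0, 2 => 1 | 2, 3 => 1 | 3, 4 => 1
  | 4, 5 => ⟨53686, 564⟩ | 1, 5 => ⟨49071, 174⟩
  | 0, 6 => 1 | 6, 7 => 3 | 7, 8 => 1 | 8, 9 => 10 | 1, 9 => 1
  | _, _ => 0

def len (i j : Fin 10) : R := if i.val < j.val then len0 i.val j.val else len0 j.val i.val

def pos (a : R) : Prop := 0 < a.re ∧ 0 ≤ a.im

instance : DecidablePred pos := fun a => inferInstanceAs (Decidable (0 < a.re ∧ 0 ≤ a.im))

theorem data_ok : ∀ i j : Fin 10, theta.Adj i j →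
    (X j).1 - (X i).1 = len i j * ((W i j).1 ^ 2 - (W i j).2 ^ 2) ∧
    (X j).2 - (X i).2 = len i j * (2 * (W i j).1 * (W i j).2) ∧
    pos (len i j) ∧ pos ((W i j).1 ^ 2 + (W i j).2 ^ 2) ∧
    (pos (om (W i j) (W j i)) ∨ pos (-om (W i j) (W j i))) := by decide +kernel

noncomputable def φ : R →+* ℝ := Zsqrtd.toReal (by norm_num)

theorem φ_pos {a : R} (h : pos a) : 0 < φ a := by
  have h1 : (0 : ℝ) < a.re := by exact_mod_cast h.1
  have h2 : (0 : ℝ) ≤ a.im := by exact_mod_cast h.2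
  have : φ a = a.re + a.im * √((4443 : ℤ) : ℝ) := by
    simp [φ, Zsqrtd.toReal]
  rw [this]
  positivity

end Pool.Agent.H32.Amp
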