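import Mathlib

namespace Pool.Agent.H32.Arbor

open Finset

def ch (x j : ℤ) : ℕ := if 0 ≤ x ∧ 0 ≤ j then x.toNat.choose j.toNat else 0

theorem ch_neg_l {x j : ℤ} (h : x < 0) : ch x j = 0 := by
  unfold ch; rw [if_neg (by omega)]

theorem ch_neg_r {x j : ℤ} (h : j < 0) : ch x j = 0 := by
  unfold ch; rw [if_neg (by omega)]

theorem ch_nat (x j : ℕ) : ch x j = x.choose j := by
  unfold ch; simp

theorem ch_zero (j : ℤ) : ch 0 j = if j = 0 then 1 else 0 := by
  rcases lt_or_ge j 0 with h | h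
  · rw [ch_neg_r h, if_neg (by omega)]
  · obtain ⟨j, rfl⟩ := Int.eq_ofNat_of_zero_le h
    have := ch_nat 0 j
    rw [Nat.cast_zero] at this
    rw [this]
    cases j <;> simp
    omega

theorem ch_pascal {x : ℤ} (h : 0 ≤ x) (t : ℤ) : ch (x + 1) t = ch x t + ch x (t - 1) := by
  obtain ⟨x, rfl⟩ := Int.eq_ofNat_of_zero_le h
  rcases lt_trichotomy t 0 with h | h | h
  · rw [ch_neg_r h, ch_neg_r h, ch_neg_r (by omega)]
  · subst h
    rw [ch_neg_r (j := 0 - 1) (by omega)]
    have a := ch_nat (x + 1) 0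
    have b := ch_nat x 0
    push_cast at a b
    simp [a, b]
  · obtain ⟨s, rfl⟩ : ∃ s : ℕ, t = s + 1 := ⟨(t - 1).toNat, by omega⟩
    have a := ch_nat (x + 1) (s + 1)
    have b := ch_nat x (s + 1)
    push_cast at a b
    rw [a, b, add_sub_cancel_right, ch_nat, Nat.choose_succ_succ', add_comm]

theorem hockey (B : ℕ) : ∀ (R j : ℤ), 0 ≤ j → R ≤ B →
    ∑ s ∈ range (B + 1), ch (R - s) j = ch (R + 1) (j + 1) := by
  induction B with
  | zero =>
    intro R j hj hR
    simp only [zero_add, range_one, sum_singleton, Nat.cast_zero, sub_zero] at hR ⊢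
    rcases lt_or_eq_of_le hR with h | h
    · rw [ch_neg_l h]
      rcases lt_or_eq_of_le (show R + 1 ≤ 0 by omega) with h | h
      · rw [ch_neg_l h]
      · rw [h, ch_zero, if_neg (by omega)]
    · subst h
      rw [ch_pascal le_rfl, ch_zero (j + 1), if_neg (by omega)]
      simp
  | succ B ih =>
    intro R j hj hR
    rw [sum_range_succ']
    have := ih (R - 1) j hj (by push_cast at hR; omega)
    have e : ∀ s : ℕ, R - ((s + 1 : ℕ) : ℤ) = R - 1 - s := fun s => by push_cast; ring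
    simp only [e, this, Nat.cast_zero, sub_zero, sub_add_cancel]
    rcases lt_or_ge R 0 with h | h
    · rw [ch_neg_l h, ch_neg_l h]
      rcases lt_or_eq_of_le (show R + 1 ≤ 0 by omega) with h | h
      · rw [ch_neg_l h]
      · rw [h, ch_zero, if_neg (by omega)]
    · rw [ch_pascal h, add_sub_cancel_right]

theorem vand_set {α : Type} [DecidableEq α] (K : Finset α) {e : ℤ} (he : 0 ≤ e) : ∀ t : ℤ,
    ∑ s ∈ K.powerset, ch e (t - s.card) = ch (e + K.card) t := by
  induction K using Finset.induction_on with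
  | empty => intro t; simp
  | insert a K ha ih =>
    intro t
    rw [sum_powerset_insert ha, ih, card_insert_of_notMem ha]
    have : ∑ s ∈ K.powerset, ch e (t - (insert a s).card) = ∑ s ∈ K.powerset, ch e (t - 1 - s.card) := by
      refine sum_congr rfl fun s hs => ?_
      rw [card_insert_of_notMem (fun h => ha (mem_powerset.1 hs h))]
      push_cast
      congr 1
      ring
    rw [this, ih]
    push_cast
    rw [← add_assoc, ch_pascal (by omega)]

theorem vand {e s : ℤ} (he : 0 ≤ e) (hs : 0 ≤ s) (j : ℤ) :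
    ch (e + s) j = ∑ k ∈ range (j + 1).toNat, ch e (j - k) * ch s k := by
  rcases lt_or_ge j 0 with h | h
  · rw [ch_neg_r h, show (j + 1).toNat = 0 by omega]; simp
  · obtain ⟨j, rfl⟩ := Int.eq_ofNat_of_zero_le h
    obtain ⟨e, rfl⟩ := Int.eq_ofNat_of_zero_le he
    obtain ⟨s, rfl⟩ := Int.eq_ofNat_of_zero_le hs
    rw [show ((j : ℤ) + 1).toNat = j + 1 by omega, ← Nat.cast_add, ch_nat, add_comm, Nat.add_choose_eq,
      Nat.sum_antidiagonal_eq_sum_range_succ_mk]
    refine sum_congr rfl fun k hk => ?_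
    rw [mem_range] at hk
    rw [← Nat.cast_sub (by omega), ch_nat, ch_nat, mul_comm]

section
variable {ι β : Type} [Fintype ι] [DecidableEq ι] [DecidableEq β] (S : Finset β) (z : β) (sz : β → ℕ)

def Phi (I : Finset ι) : Finset (ι → β) := Fintype.piFinset fun i => if i ∈ I then S else {z}

theorem mem_Phi {I : Finset ι} {x : ι → β} :
    x ∈ Phi S z I ↔ ∀ i, (i ∈ I → x i ∈ S) ∧ (i ∉ I → x i = z) := by
  unfold Phi
  rw [Fintype.mem_piFinset]
  refine forall_congr' fun i => ?_
  by_cases h : i ∈ I <;> simp [h]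

def Sm (I : Finset ι) (g : (ι → ℕ) → ℕ) : ℕ := ∑ x ∈ Phi S z I, g fun i => sz (x i)

theorem Sm_congr (hz : sz z = 0) {I : Finset ι} {g g' : (ι → ℕ) → ℕ}
    (h : ∀ a, (∀ i, i ∉ I → a i = 0) → g a = g' a) : Sm S z sz I g = Sm S z sz I g' :=
  sum_congr rfl fun x hx => h _ fun i hi => by rw [(((mem_Phi S z).1 hx) i).2 hi, hz]

theorem Sm_split (hz : sz z = 0) {I D : Finset ι} (hD : D ⊆ I) (g : (ι → ℕ) → ℕ) :
    Sm S z sz I g = Sm S z sz D fun a => Sm S z sz (I \ D) fun b => g (a + b) := by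
  unfold Sm
  rw [← sum_product']
  symm
  refine sum_nbij' (fun p => D.piecewise p.1 p.2)
    (fun x => (fun i => if i ∈ D then x i else z, fun i => if i ∈ D then z else x i)) ?_ ?_ ?_ ?_ ?_
  · intro p hp
    rw [mem_product, mem_Phi, mem_Phi] at hp
    rw [mem_Phi]
    intro i
    by_cases h : i ∈ D
    · rw [piecewise_eq_of_mem _ _ _ h]
      exact ⟨fun _ => (hp.1 i).1 h, fun h' => absurd (hD h) h'⟩
    · rw [piecewise_eq_of_notMem _ _ _ h]
      exact ⟨fun h' => (hp.2 i).1 (mem_sdiff.2 ⟨h', h⟩), fun h' => (hp.2 i).2 (by simp [h'])⟩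
  · intro x hx
    rw [mem_Phi] at hx
    rw [mem_product, mem_Phi, mem_Phi]
    refine ⟨fun i => ⟨fun h => by simpa [h] using (hx i).1 (hD h), fun h => by simp [h]⟩,
      fun i => ⟨fun h => ?_, fun h => ?_⟩⟩
    · rw [mem_sdiff] at h
      simpa [h.2] using (hx i).1 h.1
    · by_cases h' : i ∈ D
      · simp [h']
      · simpa [h'] using (hx i).2 (fun h'' => h (mem_sdiff.2 ⟨h'', h'⟩))
  · intro p hp
    rw [mem_product, mem_Phi, mem_Phi] at hp
    ext i
    · by_cases h : i ∈ D
      · simp [h]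
      · simp [h, (hp.1 i).2 h]
    · by_cases h : i ∈ D
      · simp [h, (hp.2 i).2 (by simp [h])]
      · simp [h]
  · intro x _
    ext i
    by_cases h : i ∈ D <;> simp [h]
  · intro p hp
    rw [mem_product, mem_Phi, mem_Phi] at hp
    refine congrArg g (funext fun i => ?_)
    by_cases h : i ∈ D
    · simp [h, (hp.2 i).2 (by simp [h]), hz]
    · simp [h, (hp.1 i).2 h, hz]

theorem Sm_single (hz : sz z = 0) (i : ι) (g : (ι → ℕ) → ℕ) :
    Sm S z sz {i} g = ∑ s ∈ S, g (Pi.single i (sz s)) := by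
  unfold Sm
  refine sum_nbij' (fun x => x i) (fun s => Function.update (fun _ => z) i s) ?_ ?_ ?_ ?_ ?_
  · intro x hx
    exact (((mem_Phi S z).1 hx) i).1 (by simp)
  · intro s hs
    rw [mem_Phi]
    intro j
    by_cases h : j = i
    · subst h; simpa using hs
    · simp [h]
  · intro x hx
    ext j
    by_cases h : j = i
    · subst h; simp
    · simp [h, (((mem_Phi S z).1 hx) j).2 (by simpa using h)]
  · intro s _
    simp
  · intro x hx
    congr 1
    ext j
    by_cases h : j = i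
    · subst h; simp
    · simp [h, (((mem_Phi S z).1 hx) j).2 (by simpa using h), hz]

theorem Sm_empty (hz : sz z = 0) (g : (ι → ℕ) → ℕ) : Sm S z sz (∅ : Finset ι) g = g 0 := by
  unfold Sm
  have : Phi S z (∅ : Finset ι) = {fun _ => z} := by
    ext x
    simp [mem_Phi, funext_iff]
  rw [this, sum_singleton]
  simp [hz, Pi.zero_def]

theorem Sm_sum {κ : Type} (I : Finset ι) (K : Finset κ) (c : κ → ℕ) (g : κ → (ι → ℕ) → ℕ) :
    Sm S z sz I (fun a => ∑ k ∈ K, c k * g k a) = ∑ k ∈ K, c k * Sm S z sz I (g k) := by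
  unfold Sm
  rw [sum_comm]
  simp [mul_sum]

theorem Sm_mul (I : Finset ι) (c : ℕ) (g : (ι → ℕ) → ℕ) :
    Sm S z sz I (fun a => c * g a) = c * Sm S z sz I g := by
  unfold Sm
  simp [mul_sum]

theorem Sm_comm {γ : Type} [DecidableEq γ] (S' : Finset γ) (z' : γ) (sz' : γ → ℕ) (I J : Finset ι)
    (g : (ι → ℕ) → (ι → ℕ) → ℕ) :
    Sm S z sz I (fun a => Sm S' z' sz' J fun b => g a b) =
      Sm S' z' sz' J fun b => Sm S z sz I fun a => g a b := by
  unfold Sm
  rw [sum_comm]

end

variable {ι : Type} [Fintype ι] [DecidableEq ι]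

def cX (m : ℕ) (𝒟 : Finset (Finset ι)) (a : ι → ℕ) : ℕ :=
  if ∀ D ∈ 𝒟, ∑ i ∈ D, a i ≤ m * D.card then 1 else 0

def cT (𝒟 : Finset (Finset ι)) (a : ι → ℕ) : ℕ :=
  if ∀ D ∈ 𝒟, D.card ≤ ∑ i ∈ D, a i then 1 else 0

def SX (m B : ℕ) (I : Finset ι) (𝒟 : Finset (Finset ι)) (e j : ℤ) : ℕ :=
  Sm (range (B + 1)) 0 id I fun a => cX m 𝒟 a * ch (m * I.card + e - (∑ i ∈ I, a i : ℕ)) j

def ST (m : ℕ) (I : Finset ι) (𝒟 : Finset (Finset ι)) (e j : ℤ) : ℕ :=
  Sm (univ : Finset (Finset (Fin (m + 1)))) ∅ card I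
    fun a => cT 𝒟 a * ch e (I.card + j - (∑ i ∈ I, a i : ℕ))

theorem sum_l {D E : Finset ι} {a b : ι → ℕ} (hb : ∀ i, i ∈ D → b i = 0) (h : E ⊆ D) :
    ∑ i ∈ E, (a + b) i = ∑ i ∈ E, a i :=
  sum_congr rfl fun i hi => by simp [hb i (h hi)]

theorem sum_r {D E : Finset ι} {a b : ι → ℕ} (ha : ∀ i, i ∉ D → a i = 0) (h : Disjoint E D) :
    ∑ i ∈ E, (a + b) i = ∑ i ∈ E, b i :=
  sum_congr rfl fun i hi => by simp [ha i (disjoint_left.1 h hi)]

theorem sum_lr {I D : Finset ι} (hD : D ⊆ I) {a b : ι → ℕ} (ha : ∀ i, i ∉ D → a i = 0)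
    (hb : ∀ i, i ∈ D → b i = 0) :
    ∑ i ∈ I, (a + b) i = ∑ i ∈ D, a i + ∑ i ∈ I \ D, b i := by
  rw [← sum_sdiff hD, sum_l hb subset_rfl, sum_r ha sdiff_disjoint, add_comm]

theorem ind_split {P : Finset ι → (ι → ℕ) → Prop} [∀ D a, Decidable (P D a)]
    (hP : ∀ E a b, ∑ i ∈ E, a i = ∑ i ∈ E, b i → (P E a ↔ P E b)) {𝒟 : Finset (Finset ι)}
    {D : Finset ι} (h : ∀ E ∈ 𝒟, ¬ E ⊆ D → Disjoint E D) {a b : ι → ℕ}
    (ha : ∀ i, i ∉ D → a i = 0) (hb : ∀ i, i ∈ D → b i = 0) :
    (if ∀ E ∈ 𝒟, P E (a + b) then 1 else 0 : ℕ) =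
      (if ∀ E ∈ 𝒟.filter (· ⊆ D), P E a then 1 else 0) *
      (if ∀ E ∈ 𝒟.filter (fun E => ¬ E ⊆ D), P E b then 1 else 0) := by
  rw [ite_zero_mul_ite_zero, mul_one]
  congr 1
  apply propext
  simp only [mem_filter]
  constructor
  · intro H
    exact ⟨fun E hE => (hP _ _ _ (sum_l hb hE.2)).1 (H E hE.1),
      fun E hE => (hP _ _ _ (sum_r ha (h E hE.1 hE.2))).1 (H E hE.1)⟩
  · intro H E hE
    by_cases h' : E ⊆ D
    · exact (hP _ _ _ (sum_l hb h')).2 (H.1 E ⟨hE, h'⟩)
    · exact (hP _ _ _ (sum_r ha (h E hE h'))).2 (H.2 E ⟨hE, h'⟩)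

theorem main (m B N : ℕ) : ∀ (I : Finset ι) (𝒟 : Finset (Finset ι)) (e j : ℤ),
    I.card + 𝒟.card = N → (∀ D ∈ 𝒟, D.Nonempty ∧ D ⊆ I) →
    (∀ D ∈ 𝒟, ∀ E ∈ 𝒟, D ⊆ E ∨ E ⊆ D ∨ Disjoint D E) → 0 ≤ e → (0 ≤ j ∨ I ∈ 𝒟) →
    (m * I.card + e + I.card : ℤ) ≤ B → SX m B I 𝒟 e j = ST m I 𝒟 e j := by
  induction N using Nat.strong_induction_on with
  | _ N ih =>
  intro I 𝒟 e j hN h1 h2 he hj hB
  by_cases hI : I ∈ 𝒟
  · have hc := card_erase_add_one hI
    have e1 : SX m B I 𝒟 e j = ∑ k ∈ range (j + 1).toNat, ch e (j - k) * SX m B I (𝒟.erase I) 0 k := by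
      unfold SX
      rw [← Sm_sum]
      refine Sm_congr _ _ _ (by rfl) fun a _ => ?_
      by_cases h : ∑ i ∈ I, a i ≤ m * I.card
      · have : cX m 𝒟 a = cX m (𝒟.erase I) a := by
          unfold cX
          congr 1
          apply propext
          refine ⟨fun H D hD => H D (mem_of_mem_erase hD), fun H D hD => ?_⟩
          by_cases e : D = I
          · rw [e]; exact h
          · exact H D (mem_erase.2 ⟨e, hD⟩)
        have h' : ((∑ i ∈ I, a i : ℕ) : ℤ) ≤ m * I.card := by exact_mod_cast h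
        rw [this, show (m * I.card + e - (∑ i ∈ I, a i : ℕ) : ℤ) =
          e + (m * I.card + 0 - (∑ i ∈ I, a i : ℕ)) by ring, vand he (by omega), mul_sum]
        exact sum_congr rfl fun k _ => by ring
      · have h' : (m * I.card : ℤ) < ((∑ i ∈ I, a i : ℕ) : ℤ) := by exact_mod_cast not_le.1 h
        have : cX m 𝒟 a = 0 := by
          unfold cX
          rw [if_neg fun H => h (H I hI)]
        rw [this, zero_mul]
        exact (sum_eq_zero fun k _ => by rw [ch_neg_l (x := m * I.card + 0 - _) (by omega)]; simp).symm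
    have e2 : ST m I 𝒟 e j = ∑ k ∈ range (j + 1).toNat, ch e (j - k) * ST m I (𝒟.erase I) 0 k := by
      unfold ST
      rw [← Sm_sum]
      refine Sm_congr _ _ _ (by rfl) fun a _ => ?_
      by_cases h : I.card ≤ ∑ i ∈ I, a i
      · have : cT 𝒟 a = cT (𝒟.erase I) a := by
          unfold cT
          congr 1
          apply propext
          refine ⟨fun H D hD => H D (mem_of_mem_erase hD), fun H D hD => ?_⟩
          by_cases e : D = I
          · rw [e]; exact h
          · exact H D (mem_erase.2 ⟨e, hD⟩)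
        rw [this]
        obtain ⟨t, ht⟩ := Nat.exists_eq_add_of_le h
        rw [ht]
        by_cases htj : (t : ℤ) ≤ j
        · rw [sum_eq_single t]
          · rw [ch_zero, if_pos (by push_cast; ring), mul_one, mul_comm]
            congr 2
            push_cast; ring
          · intro k _ hk
            rw [ch_zero, if_neg (by push_cast; omega)]
            simp
          · intro h
            exact absurd (mem_range.2 (by omega)) h
        · rw [ch_neg_r (by push_cast; omega), mul_zero]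
          refine (sum_eq_zero fun k hk => ?_).symm
          rw [mem_range] at hk
          rw [ch_zero, if_neg (by push_cast; omega)]
          simp
      · have : cT 𝒟 a = 0 := by
          unfold cT
          rw [if_neg fun H => h (H I hI)]
        rw [this, zero_mul]
        refine (sum_eq_zero fun k _ => ?_).symm
        rw [ch_zero, if_neg (by omega)]
        simp
    rw [e1, e2]
    refine sum_congr rfl fun k _ => ?_
    rw [ih _ (by omega) I (𝒟.erase I) 0 k rfl (fun D hD => h1 D (mem_of_mem_erase hD))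
      (fun D hD E hE => h2 D (mem_of_mem_erase hD) E (mem_of_mem_erase hE)) le_rfl
      (Or.inl (by omega)) (by omega)]
  have hj' : 0 ≤ j := hj.resolve_right hI
  rcases 𝒟.eq_empty_or_nonempty with h0 | h0
  · subst h0
    rcases I.eq_empty_or_nonempty with h0 | ⟨i, hi⟩
    · subst h0
      unfold SX ST
      rw [Sm_empty _ 0 id rfl, Sm_empty _ ∅ card rfl]
      simp [cX, cT]
    · have hc := card_erase_add_one hi
      have hc' : (I.card : ℤ) = (I.erase i).card + 1 := by omega
      have hs : I \ I.erase i = {i} := by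
        ext x; simp only [mem_sdiff, mem_erase, mem_singleton]; constructor
        · intro h; by_contra h'; exact h.2 ⟨h', h.1⟩
        · rintro rfl; simp [hi]
      have key := ih _ (by simp at hN ⊢; omega) (I.erase i) ∅ (e + m + 1) (j + 1) rfl (by simp) (by simp)
        (by omega) (Or.inl (by omega)) (by rw [hc'] at hB; linarith)
      have sm : ∀ (a : ι → ℕ) (s : ℕ), (∀ k, k ∉ I.erase i → a k = 0) →
          ∑ k ∈ I, (a + Pi.single i s : ι → ℕ) k = ∑ k ∈ I.erase i, a k + s := by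
        intro a s ha
        rw [sum_lr (erase_subset i I) ha (fun k hk => by simp [(mem_erase.1 hk).1]), hs]
        simp
      unfold SX ST at key ⊢
      rw [Sm_split _ 0 id rfl (erase_subset i I), Sm_split _ ∅ card rfl (erase_subset i I), hs]
      refine Eq.trans (Sm_congr _ _ _ (by rfl) fun a ha => ?_) (key.trans (Sm_congr _ _ _ (by rfl) fun a ha => ?_))
      · rw [Sm_single _ 0 id rfl]
        simp only [sm a _ ha, cX, notMem_empty, false_imp_iff, implies_true, if_true, one_mul, id]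
        have := hockey B (m * I.card + e - (∑ k ∈ I.erase i, a k : ℕ)) j hj' (by omega)
        rw [show (m * (I.erase i).card + (e + m + 1) - (∑ k ∈ I.erase i, a k : ℕ) : ℤ) =
          m * I.card + e - (∑ k ∈ I.erase i, a k : ℕ) + 1 by rw [hc']; ring, ← this]
        exact sum_congr rfl fun s _ => by congr 1; push_cast; ring
      · rw [Sm_single _ ∅ card rfl]
        simp only [sm a _ ha, cT, notMem_empty, false_imp_iff, implies_true, if_true, one_mul]
        have := vand_set (univ : Finset (Fin (m + 1))) he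
          ((I.erase i).card + (j + 1) - (∑ k ∈ I.erase i, a k : ℕ))
        rw [powerset_univ, card_univ, Fintype.card_fin] at this
        push_cast at this ⊢
        rw [add_assoc e, ← this]
        exact sum_congr rfl fun s _ => by congr 1; rw [hc']; ring
  · obtain ⟨D, hD, hmax⟩ := exists_max_image 𝒟 card h0
    have hDI := (h1 D hD).2
    have hlt : D.card < I.card := card_lt_card ⟨hDI, fun h => hI (subset_antisymm hDI h ▸ hD)⟩
    have hpos := (h1 D hD).1.card_pos
    have hdis : ∀ E ∈ 𝒟, ¬ E ⊆ D → Disjoint E D := by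
      intro E hE h
      rcases h2 E hE D hD with h' | h' | h'
      · exact absurd h' h
      · exact absurd (eq_of_subset_of_card_le h' (hmax E hE) ▸ subset_rfl) h
      · exact h'
    have hc : (I \ D).card + D.card = I.card := card_sdiff_add_card_eq_card hDI
    have hc' : (I.card : ℤ) = (I \ D).card + D.card := by omega
    have f1 := card_filter_le 𝒟 (· ⊆ D)
    have f2 := card_filter_le 𝒟 (fun E => ¬ E ⊆ D)
    have mD : D ∈ 𝒟.filter (· ⊆ D) := mem_filter.2 ⟨hD, subset_rfl⟩
    have nz : ∀ b : ι → ℕ, (∀ i, i ∉ I \ D → b i = 0) → ∀ i, i ∈ D → b i = 0 :=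
      fun b hb i hi => hb i (by simp [hi])
    have s1 : SX m B I 𝒟 e j = Sm (range (B + 1)) 0 id D fun a => cX m (𝒟.filter (· ⊆ D)) a *
        ST m (I \ D) (𝒟.filter fun E => ¬ E ⊆ D) (m * D.card + e - (∑ i ∈ D, a i : ℕ)) j := by
      unfold SX
      rw [Sm_split _ 0 id rfl hDI]
      refine Sm_congr _ _ _ (by rfl) fun a ha => ?_
      by_cases h : ∑ i ∈ D, a i ≤ m * D.card
      · have h' : ((∑ i ∈ D, a i : ℕ) : ℤ) ≤ m * D.card := by exact_mod_cast h
        rw [← ih _ (by omega) (I \ D) _ _ j rfl (fun E hE => ⟨(h1 E (mem_filter.1 hE).1).1,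
          subset_sdiff.2 ⟨(h1 E (mem_filter.1 hE).1).2, hdis E (mem_filter.1 hE).1 (mem_filter.1 hE).2⟩⟩)
          (fun E hE F hF => h2 E (mem_filter.1 hE).1 F (mem_filter.1 hF).1) (by omega) (Or.inl hj')
          (by rw [hc'] at hB; linarith)]
        unfold SX
        rw [← Sm_mul]
        refine Sm_congr _ _ _ (by rfl) fun b hb => ?_
        rw [sum_lr hDI ha (nz b hb), ← mul_assoc]
        unfold cX
        rw [ind_split (P := fun E a => ∑ i ∈ E, a i ≤ m * E.card) (fun E a b h => by rw [h]) hdis ha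
          (nz b hb)]
        congr 2
        rw [hc']; push_cast; ring
      · have : cX m (𝒟.filter (· ⊆ D)) a = 0 := by
          unfold cX
          rw [if_neg fun H => h (H D mD)]
        rw [this, zero_mul]
        refine (Sm_congr _ 0 id rfl (g' := fun _ => 0) fun b hb => ?_).trans (by simp [Sm])
        unfold cX at this ⊢
        rw [ind_split (P := fun E a => ∑ i ∈ E, a i ≤ m * E.card) (fun E a b h => by rw [h]) hdis ha
          (nz b hb), this]
        simp
    rw [s1]
    unfold ST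
    rw [Sm_split _ ∅ card rfl hDI, Sm_comm _ _ _ _ _ _ D (I \ D)]
    simp only [← Sm_mul]
    rw [Sm_comm]
    refine Sm_congr _ _ _ (by rfl) fun b hb => ?_
    have key := ih _ (by omega) D (𝒟.filter (· ⊆ D)) e
      ((I \ D).card + j - (∑ i ∈ I \ D, b i : ℕ)) rfl
      (fun E hE => ⟨(h1 E (mem_filter.1 hE).1).1, (mem_filter.1 hE).2⟩)
      (fun E hE F hF => h2 E (mem_filter.1 hE).1 F (mem_filter.1 hF).1) he (Or.inr mD)
      (by rw [hc'] at hB; nlinarith)
    unfold SX ST at key
    have := congrArg (cT (𝒟.filter fun E => ¬ E ⊆ D) b * ·) key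
    simp only [← Sm_mul] at this
    refine Eq.trans (Sm_congr _ _ _ (by rfl) fun a _ => by ring) (this.trans (Sm_congr _ _ _ (by rfl) fun a ha => ?_))
    rw [sum_lr hDI ha (nz b hb), ← mul_assoc]
    unfold cT
    rw [ind_split (P := fun E a => E.card ≤ ∑ i ∈ E, a i) (fun E a b h => by rw [h]) hdis ha (nz b hb),
      mul_comm (ite _ _ _)]
    congr 2
    rw [hc']; push_cast; ring

end Pool.Agent.H32.Arbor
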