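import Mathlib
import Pool.Agent.H32.Arbor

namespace Pool.Agent.H32.Arbor

open Finset

theorem hock (d r M : ℕ) : ∑ t ∈ range M, (d + t).choose r + d.choose (r + 1) = (d + M).choose (r + 1) := by
  induction M with
  | zero => simp
  | succ M ih => rw [sum_range_succ, ← add_assoc d M 1, Nat.choose_succ_succ', ← ih]; ring

variable {A : Type} [LinearOrder A]

def desG {r : ℕ} (w : Fin r → A) : ℕ :=
  (univ.filter fun i : Fin r => ∃ j : Fin r, j.val = i.val + 1 ∧ w j < w i).card

def Chn {r K : ℕ} (w : Fin r → A) (c : Fin r → Fin K) : Prop :=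
  ∀ i j : Fin r, j.val = i.val + 1 → (c i < c j ∨ (c i = c j ∧ w j < w i))

instance {r K : ℕ} (w : Fin r → A) (c : Fin r → Fin K) : Decidable (Chn w c) := by
  unfold Chn; infer_instance

theorem desG_le {r : ℕ} (w : Fin (r + 1) → A) : desG w ≤ r := by
  unfold desG
  have : (univ.filter fun i : Fin (r + 1) => ∃ j : Fin (r + 1), j.val = i.val + 1 ∧ w j < w i) ⊆
      univ.erase (Fin.last r) := by
    intro i hi
    obtain ⟨j, h, _⟩ := (mem_filter.1 hi).2
    refine mem_erase.2 ⟨fun e => ?_, mem_univ _⟩
    have := j.isLt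
    rw [e, Fin.val_last] at h
    omega
  have := card_le_card this
  simpa using this

theorem desG_cons {r : ℕ} (a : A) (w : Fin r → A) :
    desG (Fin.cons a w : Fin (r + 1) → A) = (if ∃ j : Fin r, j.val = 0 ∧ w j < a then 1 else 0) + desG w := by
  unfold desG
  rw [Fin.card_filter_univ_succ']
  congr 1
  · congr 1
    apply propext
    rw [Fin.exists_fin_succ]
    simp
  · congr 1
    ext i
    simp only [mem_filter, mem_univ, true_and]
    rw [Fin.exists_fin_succ]
    simp

theorem count {K : ℕ} (r : ℕ) : ∀ (w : Fin r → A) (lo : ℕ), lo ≤ K →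
    (univ.filter fun c : Fin r → Fin K => Chn w c ∧ ∀ j : Fin r, j.val = 0 → lo ≤ (c j).val).card =
      (K - lo + desG w).choose r := by
  induction r with
  | zero => intro w lo _; simp [Chn]
  | succ r ih =>
    intro w lo hlo
    obtain ⟨a, w, rfl⟩ : ∃ (a : A) (w' : Fin r → A), w = Fin.cons a w' :=
      ⟨w 0, Fin.tail w, (Fin.cons_self_tail w).symm⟩
    have hd := desG_le (Fin.cons a w : Fin (r + 1) → A)
    rw [desG_cons] at hd ⊢
    rw [card_filter, ← (Fin.consEquiv fun _ : Fin (r + 1) => Fin K).sum_comp, Fintype.sum_prod_type]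
    have key : ∀ v : Fin K, ∑ c : Fin r → Fin K,
        (if Chn (Fin.cons a w : Fin (r + 1) → A) ((Fin.consEquiv fun _ : Fin (r + 1) => Fin K) (v, c)) ∧
          ∀ j : Fin (r + 1), j.val = 0 → lo ≤ (((Fin.consEquiv fun _ : Fin (r + 1) => Fin K) (v, c)) j).val
          then 1 else 0) = if lo ≤ v.val then (K - (v.val + 1) +
            ((if ∃ j : Fin r, j.val = 0 ∧ w j < a then 1 else 0) + desG w)).choose r else 0 := by
      intro v
      have hv := v.isLt
      have e : ∀ c : Fin r → Fin K, (Chn (Fin.cons a w : Fin (r + 1) → A)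
          ((Fin.consEquiv fun _ : Fin (r + 1) => Fin K) (v, c)) ∧ ∀ j : Fin (r + 1), j.val = 0 →
          lo ≤ (((Fin.consEquiv fun _ : Fin (r + 1) => Fin K) (v, c)) j).val) ↔
          (lo ≤ v.val ∧ (Chn w c ∧ ∀ j : Fin r, j.val = 0 →
            v.val + (if ∃ j : Fin r, j.val = 0 ∧ w j < a then 0 else 1) ≤ (c j).val)) := by
        intro c
        unfold Chn
        simp only [Fin.forall_fin_succ, Fin.consEquiv_apply, Fin.cons_zero, Fin.cons_succ, Fin.val_zero,
          Fin.val_succ]
        constructor
        · rintro ⟨⟨⟨_, h1⟩, h2⟩, h3, _⟩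
          refine ⟨h3 trivial, fun i j h => (h2 i).2 j (by omega), fun j hj => ?_⟩
          rcases h1 j (by omega) with h | h
          · have : v.val < (c j).val := h
            split_ifs <;> omega
          · rw [if_pos ⟨j, hj, h.2⟩, h.1]
            omega
        · rintro ⟨h1, h2, h3⟩
          refine ⟨⟨⟨fun h => by omega, fun j hj => ?_⟩, fun i => ⟨fun h => by omega,
            fun j h => h2 i j (by omega)⟩⟩, fun _ => h1, fun j h => by omega⟩
          have := h3 j (by omega)
          split_ifs at this with h
          · obtain ⟨j', e1, e2⟩ := h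
            have : j' = j := Fin.ext (by omega)
            subst this
            rcases lt_or_eq_of_le (show v ≤ c j' from by simpa using this) with h | h
            · exact Or.inl h
            · exact Or.inr ⟨h, e2⟩
          · exact Or.inl (show v.val < (c j).val by omega)
      simp only [e]
      by_cases h : lo ≤ v.val
      · simp only [h, true_and, if_true]
        rw [← card_filter, ih w _ (by split_ifs <;> omega)]
        congr 1
        split_ifs <;> omega
      · simp [h]
    simp only [key]
    generalize ((if ∃ j : Fin r, j.val = 0 ∧ w j < a then 1 else 0) + desG w) = d at hd ⊢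
    rw [Fin.sum_univ_eq_sum_range (fun v => if lo ≤ v then (K - (v + 1) + d).choose r else 0) K,
      add_comm (K - lo), ← hock, Nat.choose_eq_zero_of_lt (by omega : d < r + 1), add_zero,
      ← sum_range_reflect, ← sum_filter]
    have : (range K).filter (fun j => lo ≤ K - 1 - j) = range (K - lo) := by
      ext j; simp only [mem_filter, mem_range]; omega
    rw [this]
    refine sum_congr rfl fun t ht => ?_
    rw [mem_range] at ht
    congr 1
    omega

theorem chn_iff {r K : ℕ} (w : Fin r → A) (c : Fin r → Fin K) :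
    Chn w c ↔ StrictMono fun j => toLex (c j, OrderDual.toDual (w j)) := by
  cases r with
  | zero => simp [Chn, StrictMono]
  | succ r =>
    rw [Fin.strictMono_iff_lt_succ]
    simp only [Prod.Lex.toLex_lt_toLex, OrderDual.toDual_lt_toDual]
    constructor
    · intro h i
      exact h _ _ (by simp)
    · intro h i j e
      have hj := j.isLt
      have := h ⟨i.val, by omega⟩
      have e1 : (⟨i.val, by omega⟩ : Fin r).castSucc = i := rfl
      have e2 : (⟨i.val, by omega⟩ : Fin r).succ = j := Fin.ext (by simp [e])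
      rwa [e1, e2] at this

theorem words (n K : ℕ) (P : (Fin n → ℕ) → Prop) [DecidablePred P] :
    (univ.filter fun U : Fin n → Finset (Fin K) => P (fun i => (U i).card) ∧ ∑ i, (U i).card = n).card =
    ∑ w ∈ univ.filter (fun w : Fin n → Fin n => P fun i => (univ.filter fun j => w j = i).card),
      (K + desG w).choose n := by
  have e1 : ∀ w : Fin n → Fin n, (K + desG w).choose n =
      (univ.filter fun c : Fin n → Fin K => Chn w c).card := by
    intro w
    have := count (K := K) n w 0 (Nat.zero_le _)
    simpa using this.symm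
  simp only [e1]
  rw [← card_sigma]
  symm
  have hcard : ∀ (w : Fin n → Fin n) (c : Fin n → Fin K), Chn w c → ∀ i,
      ((univ.filter fun j => w j = i).image c).card = (univ.filter fun j => w j = i).card := by
    intro w c h i
    refine card_image_of_injOn fun a ha b hb e => ((chn_iff w c).1 h).injective ?_
    simp only [coe_filter, mem_univ, true_and, Set.mem_ofPred_eq] at ha hb
    simp only [e, ha, hb]
  refine card_bij (fun p _ => fun i => (univ.filter fun j => p.1 j = i).image p.2) ?_ ?_ ?_
  · rintro ⟨w, c⟩ hp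
    simp only [mem_sigma, mem_filter, mem_univ, true_and] at hp ⊢
    simp only [hcard w c hp.2]
    refine ⟨hp.1, ?_⟩
    rw [← card_eq_sum_card_fiberwise (f := w) (s := univ) (t := univ) (fun _ _ => by simp)]
    simp
  · rintro ⟨w, c⟩ hp ⟨w', c'⟩ hp' e
    simp only [mem_sigma, mem_filter, mem_univ, true_and] at hp hp'
    have r : ∀ (w : Fin n → Fin n) (c : Fin n → Fin K),
        Set.range (fun j => toLex (c j, OrderDual.toDual (w j))) =
        {p | (ofLex p).1 ∈ (univ.filter fun j => w j = OrderDual.ofDual (ofLex p).2).image c} := by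
      intro w c
      ext p
      simp only [Set.mem_range, Set.mem_ofPred_eq, mem_image, mem_filter, mem_univ, true_and]
      constructor
      · rintro ⟨j, rfl⟩
        exact ⟨j, rfl, rfl⟩
      · rintro ⟨j, h1, h2⟩
        exact ⟨j, by rw [h1, h2]; rfl⟩
    have := (((chn_iff w c).1 hp.2).range_inj ((chn_iff w' c').1 hp'.2)).1 (by
      rw [r, r]
      ext p
      have := congrFun e (OrderDual.ofDual (ofLex p).2)
      simp only at this
      simp only [Set.mem_ofPred_eq, this])
    have a1 : w = w' := funext fun j => congrArg (fun p => OrderDual.ofDual (ofLex p).2) (congrFun this j)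
    have a2 : c = c' := funext fun j => congrArg (fun p => (ofLex p).1) (congrFun this j)
    rw [a1, a2]
  · intro U hU
    simp only [mem_filter, mem_univ, true_and] at hU
    let S : Finset (Fin K ×ₗ (Fin n)ᵒᵈ) :=
      univ.filter fun p => (ofLex p).1 ∈ U (OrderDual.ofDual (ofLex p).2)
    have hS : S.card = n := by
      refine Eq.trans ?_ hU.2
      rw [← card_sigma]
      refine card_bij (fun p _ => ⟨OrderDual.ofDual (ofLex p).2, (ofLex p).1⟩) ?_ ?_ ?_
      · intro p hp
        simpa [S] using hp
      · intro p _ q _ e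
        simp only [Sigma.mk.injEq, heq_eq_eq] at e
        exact ofLex.injective (Prod.ext e.2 (OrderDual.ofDual.injective e.1))
      · rintro ⟨i, y⟩ h
        exact ⟨toLex (y, OrderDual.toDual i), by simpa [S] using h, rfl⟩
    let f := S.orderEmbOfFin hS
    have hU' : (fun i => (univ.filter fun j => OrderDual.ofDual (ofLex (f j)).2 = i).image
        fun j => (ofLex (f j)).1) = U := by
      funext i
      ext y
      simp only [mem_image, mem_filter, mem_univ, true_and]
      constructor
      · rintro ⟨j, rfl, rfl⟩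
        exact (mem_filter.1 (S.orderEmbOfFin_mem hS j)).2
      · intro h
        have : toLex (y, OrderDual.toDual i) ∈ Set.range f := by
          rw [range_orderEmbOfFin]
          simpa [S] using h
        obtain ⟨j, hj⟩ := this
        exact ⟨j, by rw [hj]; rfl, by rw [hj]; rfl⟩
    have hc : Chn (fun j => OrderDual.ofDual (ofLex (f j)).2) fun j => (ofLex (f j)).1 :=
      (chn_iff _ _).2 f.strictMono
    refine ⟨⟨fun j => OrderDual.ofDual (ofLex (f j)).2, fun j => (ofLex (f j)).1⟩, ?_, hU'⟩
    simp only [mem_sigma, mem_filter, mem_univ, true_and]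
    refine ⟨?_, hc⟩
    have := hU.1
    rw [← hU'] at this
    simpa only [hcard _ _ hc] using this

theorem final (n m : ℕ) (𝒟 : Finset (Finset (Fin n))) (h1 : ∀ D ∈ 𝒟, D.Nonempty)
    (h2 : ∀ D ∈ 𝒟, ∀ E ∈ 𝒟, D ⊆ E ∨ E ⊆ D ∨ Disjoint D E) (h3 : univ ∈ 𝒟) :
    {x : Fin n → ℕ | ∀ D ∈ 𝒟, ∑ i ∈ D, x i ≤ m * D.card}.ncard =
    ∑ w ∈ univ.filter (fun w : Fin n → Fin n => ∀ D ∈ 𝒟, D.card ≤ (univ.filter fun j => w j ∈ D).card),
      (m + 1 + desG w).choose n := by
  have key := main m (m * n + n) _ univ 𝒟 0 0 rfl (fun D hD => ⟨h1 D hD, subset_univ _⟩) h2 le_rfl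
    (Or.inl le_rfl) (by simp)
  have w1 := words n (m + 1) fun a => ∀ D ∈ 𝒟, D.card ≤ ∑ i ∈ D, a i
  have e : ∀ (w : Fin n → Fin n) (D : Finset (Fin n)),
      ∑ i ∈ D, (univ.filter fun j => w j = i).card = (univ.filter fun j => w j ∈ D).card := by
    intro w D
    rw [sum_card_fiberwise_eq_card_filter]
  simp only [e] at w1
  rw [← w1]
  have l : {x : Fin n → ℕ | ∀ D ∈ 𝒟, ∑ i ∈ D, x i ≤ m * D.card} =
      ((Phi (range (m * n + n + 1)) 0 univ).filter fun x => ∀ D ∈ 𝒟, ∑ i ∈ D, x i ≤ m * D.card) := by
    ext x
    simp only [Set.mem_ofPred_eq, coe_filter, mem_Phi, mem_univ, mem_range, not_true, false_imp_iff,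
      and_true, true_imp_iff, iff_and_self]
    intro h i
    have := h _ h3
    have t := single_le_sum (f := x) (fun _ _ => Nat.zero_le _) (mem_univ i)
    simp only [card_univ, Fintype.card_fin] at this
    omega
  rw [l, Set.ncard_coe_finset, card_filter, card_filter]
  unfold SX ST Sm at key
  have hP : Phi (univ : Finset (Finset (Fin (m + 1)))) ∅ (univ : Finset (Fin n)) = univ := by
    ext x; simp [mem_Phi]
  rw [hP] at key
  refine Eq.trans (sum_congr rfl fun x _ => ?_) (key.trans (sum_congr rfl fun U _ => ?_))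
  · unfold cX
    simp only [id]
    split_ifs with h
    · have := h _ h3
      obtain ⟨t, ht⟩ := Nat.exists_eq_add_of_le this
      have a := ch_nat t 0
      rw [show ((m : ℤ) * (univ : Finset (Fin n)).card + 0 - (∑ i, x i : ℕ)) = t by
        have : ((m * (univ : Finset (Fin n)).card : ℕ) : ℤ) = (∑ i, x i + t : ℕ) := by rw [ht]
        push_cast at this ⊢
        linarith]
      simpa using a.symm
    · simp
  · unfold cT
    dsimp only
    rw [ch_zero, ite_zero_mul_ite_zero, mul_one]
    congr 1
    apply propext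
    refine and_congr_right fun _ => ?_
    simp only [card_univ, Fintype.card_fin]
    omega

end Pool.Agent.H32.Arbor
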