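import Mathlib

set_option autoImplicit false

namespace Pool.Agent.H32.AtomL1

open MeasureTheory Filter Topology Set

variable {Ω : Type} [MeasurableSpace Ω] {μ : Measure Ω}

/-- multiplication by an indicator, linear part -/
noncomputable def Pl (A : Set Ω) (hA : MeasurableSet A) : Lp ℝ 1 μ →ₗ[ℝ] Lp ℝ 1 μ where
  toFun g := (MemLp.indicator hA (Lp.memLp g)).toLp (A.indicator g)
  map_add' g h := by
    rw [← MemLp.toLp_add]
    refine MemLp.toLp_congr _ _ ?_
    filter_upwards [Lp.coeFn_add g h] with x hx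
    by_cases a : x ∈ A
    · simp only [Pi.add_apply, indicator_of_mem a, hx]
    · simp only [Pi.add_apply, indicator_of_notMem a, add_zero]
  map_smul' c g := by
    rw [RingHom.id_apply, ← MemLp.toLp_const_smul]
    refine MemLp.toLp_congr _ _ ?_
    filter_upwards [Lp.coeFn_smul c g] with x hx
    by_cases h : x ∈ A <;> simp [h, hx]

theorem Pl_coe {A : Set Ω} (hA : MeasurableSet A) (g : Lp ℝ 1 μ) : Pl A hA g =ᵐ[μ] A.indicator g := by
  have h : Pl A hA g = (MemLp.indicator hA (Lp.memLp g)).toLp (A.indicator g) := rfl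
  rw [h]
  exact MemLp.coeFn_toLp _

theorem Pl_norm {A : Set Ω} (hA : MeasurableSet A) (g : Lp ℝ 1 μ) :
    ‖Pl A hA g‖ = ∫ x in A, ‖g x‖ ∂μ := by
  rw [L1.norm_eq_integral_norm, ← integral_indicator hA]
  refine integral_congr_ae ?_
  filter_upwards [Pl_coe hA g] with x hx
  by_cases h : x ∈ A <;> simp [h, hx]

theorem Pl_add {A : Set Ω} (hA : MeasurableSet A) (g : Lp ℝ 1 μ) :
    ‖Pl A hA g‖ + ‖Pl Aᶜ hA.compl g‖ = ‖g‖ := by
  rw [Pl_norm, Pl_norm, integral_add_compl hA (L1.integrable_coeFn g).norm, L1.norm_eq_integral_norm]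

/-- multiplication by an indicator -/
noncomputable def P (A : Set Ω) (hA : MeasurableSet A) : Lp ℝ 1 μ →L[ℝ] Lp ℝ 1 μ :=
  (Pl A hA).mkContinuous 1 fun g => by linarith [Pl_add hA g, norm_nonneg (Pl Aᶜ hA.compl g)]

theorem P_coe {A : Set Ω} (hA : MeasurableSet A) (g : Lp ℝ 1 μ) : P A hA g =ᵐ[μ] A.indicator g :=
  Pl_coe hA g

theorem P_norm {A : Set Ω} (hA : MeasurableSet A) (g : Lp ℝ 1 μ) :
    ‖P A hA g‖ = ∫ x in A, ‖g x‖ ∂μ := Pl_norm hA g

theorem P_add {A : Set Ω} (hA : MeasurableSet A) (g : Lp ℝ 1 μ) :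
    ‖P A hA g‖ + ‖P Aᶜ hA.compl g‖ = ‖g‖ := Pl_add hA g

theorem P_le {A : Set Ω} (hA : MeasurableSet A) (g : Lp ℝ 1 μ) : ‖P A hA g‖ ≤ ‖g‖ := by
  linarith [P_add hA g, norm_nonneg (P Aᶜ hA.compl g)]

theorem P_P {A B : Set Ω} (hA : MeasurableSet A) (hB : MeasurableSet B) (g : Lp ℝ 1 μ) :
    P A hA (P B hB g) = P (A ∩ B) (hA.inter hB) g := by
  refine Lp.ext ?_
  filter_upwards [P_coe hA (P B hB g), P_coe hB g, P_coe (hA.inter hB) g] with x h1 h2 h3
  by_cases a : x ∈ A <;> by_cases b : x ∈ B <;> simp [h1, h2, h3, a, b]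

theorem P_dis {A B : Set Ω} (hA : MeasurableSet A) (hB : MeasurableSet B) (h : Disjoint A B)
    (g : Lp ℝ 1 μ) : P A hA (P B hB g) = 0 := by
  refine Lp.ext ?_
  filter_upwards [P_coe hA (P B hB g), P_coe hB g, Lp.coeFn_zero ℝ 1 μ] with x h1 h2 h3
  rw [h1, h3]
  by_cases a : x ∈ A <;> simp [h2, a, disjoint_left.mp h]

theorem P_union {A B : Set Ω} (hA : MeasurableSet A) (hB : MeasurableSet B) (h : Disjoint A B)
    (g : Lp ℝ 1 μ) : P (A ∪ B) (hA.union hB) g = P A hA g + P B hB g := by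
  refine Lp.ext ?_
  filter_upwards [P_coe hA g, P_coe hB g, P_coe (hA.union hB) g, Lp.coeFn_add (P A hA g) (P B hB g)]
    with x h1 h2 h3 h4
  rw [h4, Pi.add_apply, h1, h2, h3, indicator_union_of_disjoint h]

theorem P_compl {A : Set Ω} (hA : MeasurableSet A) (g : Lp ℝ 1 μ) :
    P Aᶜ hA.compl g = g - P A hA g := by
  refine Lp.ext ?_
  filter_upwards [P_coe hA g, P_coe hA.compl g, Lp.coeFn_sub g (P A hA g)] with x h1 h2 h3
  rw [h3, Pi.sub_apply, h1, h2]
  by_cases a : x ∈ A <;> simp [a]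

/-- the integral -/
noncomputable def u : Lp ℝ 1 μ →L[ℝ] ℝ := L1.integralCLM

theorem u_apply (g : Lp ℝ 1 μ) : u g = ∫ x, g x ∂μ := by
  rw [u, ← L1.integral_eq, L1.integral_eq_integral]

theorem u_le (g : Lp ℝ 1 μ) : |u g| ≤ ‖g‖ := by
  rw [u_apply, L1.norm_eq_integral_norm]; exact norm_integral_le_integral_norm (fun x => g x)

variable [IsFiniteMeasure μ]

/-- indicator functions -/
noncomputable def E (B : Set Ω) (hB : MeasurableSet B) : Lp ℝ 1 μ :=
  indicatorConstLp 1 hB (measure_ne_top μ B) (1 : ℝ)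

theorem E_norm {B : Set Ω} (hB : MeasurableSet B) : ‖(E B hB : Lp ℝ 1 μ)‖ = μ.real B := by
  rw [E, norm_indicatorConstLp one_ne_zero ENNReal.one_ne_top]; simp

theorem u_E {B : Set Ω} (hB : MeasurableSet B) : u (E B hB : Lp ℝ 1 μ) = μ.real B := by
  rw [u_apply, E, integral_indicatorConstLp]; simp

theorem P_E {A B : Set Ω} (hA : MeasurableSet A) (hB : MeasurableSet B) (c : ℝ) :
    P A hA (indicatorConstLp 1 hB (measure_ne_top μ B) c) = c • E (B ∩ A) (hB.inter hA) := by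
  refine Lp.ext ?_
  filter_upwards [P_coe hA (indicatorConstLp 1 hB (measure_ne_top μ B) c),
    indicatorConstLp_coeFn (p := 1) (hs := hB) (hμs := measure_ne_top μ B) (c := c),
    indicatorConstLp_coeFn (p := 1) (hs := hB.inter hA) (hμs := measure_ne_top μ _) (c := (1 : ℝ)),
    Lp.coeFn_smul c (E (B ∩ A) (hB.inter hA) : Lp ℝ 1 μ)] with x h1 h2 h3 h4
  rw [h4, Pi.smul_apply, E, h3, h1]
  by_cases a : x ∈ A <;> by_cases b : x ∈ B <;> simp [h2, a, b]

theorem osc (ψ : Lp ℝ 1 μ →L[ℝ] ℝ) {A : Set Ω} (hA : MeasurableSet A) {ε : ℝ} (hε : 0 ≤ ε)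
    (h : ∀ B (hB : MeasurableSet B), B ⊆ A → |ψ (E B hB)| ≤ ε * μ.real B) (g : Lp ℝ 1 μ) :
    |ψ (P A hA g)| ≤ ε * ‖g‖ := by
  induction g using Lp.induction ENNReal.one_ne_top with
  | indicatorConst c hs hμs =>
    rw [Lp.simpleFunc.coe_indicatorConst, P_E, map_smul, smul_eq_mul, abs_mul,
      norm_indicatorConstLp one_ne_zero ENNReal.one_ne_top]
    have h1 := h _ (hs.inter hA) inter_subset_right
    have h2 := mul_le_mul_of_nonneg_left
      (measureReal_mono (μ := μ) (inter_subset_left (s := _) (t := A)) hμs.ne) hε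
    simp only [ENNReal.toReal_one, ne_eq, one_ne_zero, not_false_eq_true, div_self, Real.rpow_one,
      Real.norm_eq_abs]
    nlinarith [abs_nonneg c]
  | add hf hg hd h1 h2 =>
    rename_i f g
    have e : ‖hf.toLp f + hg.toLp g‖ = ‖hf.toLp f‖ + ‖hg.toLp g‖ := by
      simp only [L1.norm_eq_integral_norm]
      rw [← integral_add (L1.integrable_coeFn _).norm (L1.integrable_coeFn _).norm]
      refine integral_congr_ae ?_
      filter_upwards [Lp.coeFn_add (hf.toLp f) (hg.toLp g), hf.coeFn_toLp, hg.coeFn_toLp] with x a b c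
      rw [a, Pi.add_apply, b, c]
      by_cases h0 : f x = 0
      · simp [h0]
      · have : g x = 0 := by simpa using disjoint_left.mp hd h0
        simp [this]
    rw [map_add, map_add, e]
    linarith [abs_add_le (ψ (P A hA (hf.toLp f))) (ψ (P A hA (hg.toLp g)))]
  | isClosed => exact isClosed_le (by fun_prop) (by fun_prop)

theorem hahn (ψ : Lp ℝ 1 μ →L[ℝ] ℝ) : ∃ A, MeasurableSet A ∧
    (∀ B (hB : MeasurableSet B), B ⊆ A → 0 ≤ ψ (E B hB)) ∧
    ∀ B (hB : MeasurableSet B), B ⊆ Aᶜ → ψ (E B hB) ≤ 0 := by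
  classical
  let s : SignedMeasure Ω := VectorMeasure.of_additive_of_le_measure (μ := ‖ψ‖₊ • μ)
    (fun B => if hB : MeasurableSet B then ψ (E B hB) else 0) (fun B => by
      split_ifs with hB
      · have := ψ.le_opNorm (E B hB)
        rw [E_norm] at this
        rw [← ofReal_norm, Measure.smul_apply, ENNReal.smul_def, smul_eq_mul,
          ← ENNReal.ofReal_toReal (measure_ne_top μ B), ← ENNReal.ofReal_coe_nnreal,
          ← ENNReal.ofReal_mul (by positivity)]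
        exact ENNReal.ofReal_le_ofReal this
      · simp)
    (fun a b ha hb h => by
      rw [dif_pos ha, dif_pos hb, dif_pos (ha.union hb), ← map_add, E, E, E,
        indicatorConstLp_disjoint_union ha hb _ _ h])
    fun B hB => dif_neg hB
  have hs : ∀ B (hB : MeasurableSet B), s B = ψ (E B hB) := fun B hB => dif_pos hB
  obtain ⟨A, hA, h1, h2⟩ := s.exists_compl_positive_negative
  refine ⟨A, hA, fun B hB h => ?_, fun B hB h => ?_⟩
  · simpa [hs B hB] using (VectorMeasure.restrict_le_restrict_iff _ _ hA).mp h1 hB h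
  · simpa [hs B hB] using (VectorMeasure.restrict_le_restrict_iff _ _ hA.compl).mp h2 hB h

/-- small along the ultrafilter -/
def Small (U : Ultrafilter Ω) (f : Lp ℝ 1 μ →L[ℝ] ℝ) : Prop :=
  ∀ ε > 0, ∃ A, ∃ hA : MeasurableSet A, A ∈ U ∧ ∀ g, |f (P A hA g)| ≤ ε * ‖g‖

omit [IsFiniteMeasure μ] in
theorem shrink {f : Lp ℝ 1 μ →L[ℝ] ℝ} {A B : Set Ω} (hA : MeasurableSet A) (hB : MeasurableSet B)
    {ε : ℝ} (hε : 0 ≤ ε) (h : ∀ g, |f (P A hA g)| ≤ ε * ‖g‖) (g : Lp ℝ 1 μ) :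
    |f (P (A ∩ B) (hA.inter hB) g)| ≤ ε * ‖g‖ := by
  rw [← P_P hA hB]
  exact (h _).trans (mul_le_mul_of_nonneg_left (P_le _ _) hε)

omit [IsFiniteMeasure μ] in
theorem Small.comb {U : Ultrafilter Ω} {f g : Lp ℝ 1 μ →L[ℝ] ℝ} (hf : Small U f) (hg : Small U g)
    (c : ℝ) : Small U (f + c • g) := by
  intro ε hε
  obtain ⟨A, hA, hAU, h1⟩ := hf (ε / 2) (by positivity)
  obtain ⟨B, hB, hBU, h2⟩ := hg (ε / 2 / (|c| + 1)) (by positivity)
  refine ⟨A ∩ B, hA.inter hB, inter_mem hAU hBU, fun v => ?_⟩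
  have h3 := shrink hA hB (by positivity) h1 v
  have h4 := shrink hB hA (by positivity) h2 v
  simp only [inter_comm B A] at h4
  rw [add_apply, smul_apply, smul_eq_mul]
  refine (abs_add_le _ _).trans ?_
  rw [abs_mul]
  have h5 : |c| * (ε / 2 / (|c| + 1)) ≤ ε / 2 := by
    rw [← mul_div_assoc, div_le_iff₀ (by positivity)]; nlinarith [abs_nonneg c]
  have h6 := mul_le_mul_of_nonneg_left h4 (abs_nonneg c)
  nlinarith [norm_nonneg v]

theorem pos_of {U : Ultrafilter Ω} (hU : (U : Filter Ω) ≤ ae μ) {A : Set Ω} (h : A ∈ U) :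
    0 < μ.real A := by
  refine ENNReal.toReal_pos (fun h0 => ?_) (measure_ne_top _ _)
  exact Ultrafilter.compl_mem_iff_notMem.mp (hU (compl_mem_ae_iff.mpr h0)) h

theorem small_le {U : Ultrafilter Ω} (hU : (U : Filter Ω) ≤ ae μ) {f : Lp ℝ 1 μ →L[ℝ] ℝ} {c : ℝ}
    (h : Small U (f - c • u)) : |c| ≤ ‖f‖ := by
  refine le_of_forall_pos_le_add fun ε hε => ?_
  obtain ⟨A, hA, hAU, h1⟩ := h ε hε
  have h2 := h1 (E A hA)
  have h3 : P A hA (E A hA : Lp ℝ 1 μ) = E A hA := by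
    have := P_E (μ := μ) hA hA 1
    simp only [inter_self, one_smul] at this
    exact this
  have h4 := f.le_opNorm (E A hA)
  rw [h3, sub_apply, smul_apply, u_E, E_norm, smul_eq_mul] at h2
  rw [E_norm, Real.norm_eq_abs] at h4
  have h5 := pos_of hU hAU
  have h6 : |c * μ.real A| ≤ (‖f‖ + ε) * μ.real A := by
    have := abs_sub_abs_le_abs_sub (c * μ.real A) (f (E A hA))
    rw [abs_sub_comm] at this
    linarith
  rw [abs_mul, abs_of_pos h5] at h6
  exact le_of_mul_le_mul_right h6 h5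

theorem ex_small {U : Ultrafilter Ω} (hU : (U : Filter Ω) ≤ ae μ) (f : Lp ℝ 1 μ →L[ℝ] ℝ) :
    ∃ c : ℝ, Small U (f - c • u) := by
  choose A hA h1 h2 using fun t : ℝ => hahn (f - t • u)
  simp only [sub_apply, smul_apply, u_E, smul_eq_mul] at h1 h2
  have hb : ∀ B (hB : MeasurableSet B), |f (E B hB)| ≤ ‖f‖ * μ.real B := fun B hB => by
    simpa [E_norm] using f.le_opNorm (E B hB)
  have hne : (-‖f‖ - 1) ∈ {t | A t ∈ U} := by
    by_contra h
    have h3 := pos_of hU (Ultrafilter.compl_mem_iff_notMem.mpr h)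
    have h4 := h2 _ _ (hA (-‖f‖ - 1)).compl subset_rfl
    have h5 := (abs_le.mp (hb _ (hA (-‖f‖ - 1)).compl)).1
    linarith
  have hbd : BddAbove {t | A t ∈ U} := ⟨‖f‖, fun t ht => by
    have h3 := pos_of hU ht
    have h4 := h1 _ _ (hA t) subset_rfl
    have h5 := (abs_le.mp (hb _ (hA t))).2
    exact le_of_mul_le_mul_right (by linarith) h3⟩
  refine ⟨sSup {t | A t ∈ U}, fun ε hε => ?_⟩
  obtain ⟨s, hs, hs'⟩ := exists_lt_of_lt_csSup ⟨_, hne⟩ (sub_lt_self (sSup {t | A t ∈ U}) hε)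
  have ht : A (sSup {t | A t ∈ U} + ε) ∉ U := fun h => by linarith [le_csSup hbd h]
  refine ⟨_, (hA s).inter (hA _).compl, inter_mem hs (Ultrafilter.compl_mem_iff_notMem.mpr ht),
    osc _ _ hε.le fun B hB h => ?_⟩
  have h3 := h1 _ B hB (h.trans inter_subset_left)
  have h4 := h2 _ B hB (h.trans inter_subset_right)
  have h5 : 0 ≤ μ.real B := measureReal_nonneg
  rw [sub_apply, smul_apply, u_E, smul_eq_mul, abs_le]
  constructor <;> nlinarith

theorem atom {U : Ultrafilter Ω} (hU : (U : Filter Ω) ≤ ae μ) :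
    ∃ φ : StrongDual ℝ (StrongDual ℝ (Lp ℝ 1 μ)), (∀ f, Small U (f - φ f • u)) ∧
      (∀ f, |φ f| ≤ ‖f‖) ∧ φ u = 1 ∧
      ∀ f A (hA : MeasurableSet A), A ∈ U → φ (f ∘L P Aᶜ hA.compl) = 0 := by
  choose c hc using ex_small hU
  have uniq : ∀ f t, Small U (f - t • u) → c f = t := fun f t h => by
    have h1 := (hc f).comb h (-1)
    have e : f - c f • u + (-1 : ℝ) • (f - t • u) = 0 - (c f - t) • u := by module
    rw [e] at h1
    have := small_le hU h1
    rw [norm_zero] at this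
    exact sub_eq_zero.mp (abs_nonpos_iff.mp this)
  have z : Small U (0 : Lp ℝ 1 μ →L[ℝ] ℝ) := fun ε hε =>
    ⟨univ, MeasurableSet.univ, univ_mem, fun g => by simp; positivity⟩
  let φ : StrongDual ℝ (Lp ℝ 1 μ) →ₗ[ℝ] ℝ :=
    { toFun := c
      map_add' := fun f g => uniq _ _ (by
        have h1 := (hc f).comb (hc g) 1
        rwa [show f - c f • u + (1 : ℝ) • (g - c g • u) = f + g - (c f + c g) • u by module] at h1)
      map_smul' := fun t f => uniq _ _ (by
        have h1 := z.comb (hc f) t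
        rwa [show 0 + t • (f - c f • u) = t • f - ((RingHom.id ℝ) t • c f) • u by
          rw [RingHom.id_apply, smul_eq_mul]; module] at h1) }
  refine ⟨φ.mkContinuous 1 fun f => by rw [one_mul]; exact small_le hU (hc f), hc,
    fun f => small_le hU (hc f), uniq _ _ (by simpa using z), fun f A hA hAU => uniq _ _ ?_⟩
  intro ε hε
  refine ⟨A, hA, hAU, fun g => ?_⟩
  simp [P_dis hA.compl hA disjoint_compl_left]
  positivity

theorem two_atoms {A₁ : Set Ω} (h₁ : MeasurableSet A₁) (p₁ : μ A₁ ≠ 0) (p₂ : μ A₁ᶜ ≠ 0) :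
    ∃ φ ψ : StrongDual ℝ (StrongDual ℝ (Lp ℝ 1 μ)), 1 ≤ ‖φ - ψ‖ ∧
      ∀ a b : ℝ, 1 / 4 ≤ a → 1 / 4 ≤ b → a + b = 1 → ‖a • φ + b • ψ‖ = 1 ∧
        ∀ w, ‖w‖ ≤ 1 / 4 → ‖a • φ + b • ψ + w‖ ≤ ‖b • φ + a • ψ + w‖ := by
  have ex : ∀ A : Set Ω, μ A ≠ 0 → ∃ U : Ultrafilter Ω, (U : Filter Ω) ≤ ae μ ∧ A ∈ U := fun A hA => by
    have : (ae μ ⊓ 𝓟 A).NeBot := frequently_mem_iff_neBot.mp (frequently_ae_mem_iff.mpr hA)
    have h := Ultrafilter.of_le (ae μ ⊓ 𝓟 A)
    exact ⟨_, h.trans inf_le_left, le_principal_iff.mp (h.trans inf_le_right)⟩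
  obtain ⟨U, hU, hAU⟩ := ex _ p₁
  obtain ⟨V, hV, hAV⟩ := ex _ p₂
  obtain ⟨φ, s1, b1, u1, z1⟩ := atom hU
  obtain ⟨ψ, s2, b2, u2, z2⟩ := atom hV
  have hu : ‖(u : Lp ℝ 1 μ →L[ℝ] ℝ)‖ ≤ 1 :=
    ContinuousLinearMap.opNorm_le_bound _ zero_le_one fun g => by simpa using u_le g
  have hup : ∀ A (hA : MeasurableSet A), (u : Lp ℝ 1 μ →L[ℝ] ℝ) ∘L P A hA =
      u - u ∘L P Aᶜ hA.compl := fun A hA => by ext g; simp [P_compl hA]
  refine ⟨φ, ψ, ?_, fun a b ha hb hab => ⟨le_antisymm ?_ ?_, fun w hw => ?_⟩⟩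
  · have h1 := (ψ - φ).le_opNorm (u ∘L P A₁ᶜ h₁.compl)
    have h2 : ‖(u : Lp ℝ 1 μ →L[ℝ] ℝ) ∘L P A₁ᶜ h₁.compl‖ ≤ 1 :=
      ContinuousLinearMap.opNorm_le_bound _ zero_le_one fun g => by
        simpa using (u_le _).trans (P_le _ g)
    have h3 : ψ (u ∘L P A₁ᶜ h₁.compl) = 1 := by rw [hup, map_sub, z2 _ _ h₁.compl hAV, u2, sub_zero]
    rw [sub_apply, z1 _ _ h₁ hAU, h3, norm_sub_rev ψ, sub_zero, norm_one] at h1
    nlinarith [norm_nonneg (φ - ψ)]
  · refine ContinuousLinearMap.opNorm_le_bound _ zero_le_one fun f => ?_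
    rw [add_apply, smul_apply, smul_apply, smul_eq_mul, smul_eq_mul, Real.norm_eq_abs, abs_le]
    have := abs_le.mp (b1 f)
    have := abs_le.mp (b2 f)
    constructor <;> nlinarith
  · have := (a • φ + b • ψ).le_opNorm u
    rw [add_apply, smul_apply, smul_apply, u1, u2, smul_eq_mul, smul_eq_mul, mul_one, mul_one, hab,
      norm_one] at this
    nlinarith [norm_nonneg (a • φ + b • ψ)]
  · have key : ∀ f : StrongDual ℝ (Lp ℝ 1 μ), ‖f‖ = 1 →
        (a • φ + b • ψ + w) f ≤ ‖b • φ + a • ψ + w‖ := fun f hf => by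
      refine le_of_forall_pos_le_add fun ε hε => ?_
      obtain ⟨A, hA, hA', k1⟩ := s1 f ε hε
      obtain ⟨B, hB, hB', k2⟩ := s2 f ε hε
      have l1 := shrink hA h₁ hε.le k1
      have l2 := shrink hB h₁.compl hε.le k2
      have hd : Disjoint (A ∩ A₁) (B ∩ A₁ᶜ) :=
        disjoint_compl_right.mono inter_subset_right inter_subset_right
      have hC := (hA.inter h₁).union (hB.inter h₁.compl)
      have hfv : ∀ v, |f v| ≤ ‖v‖ := fun v => by simpa [hf] using f.le_opNorm v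
      set f' : StrongDual ℝ (Lp ℝ 1 μ) := f ∘L P _ hC.compl + u ∘L P _ hC with hf'
      have n1 : ‖f'‖ ≤ 1 := ContinuousLinearMap.opNorm_le_bound _ zero_le_one fun g => by
        rw [one_mul, ← P_add hC g, add_comm]
        exact (abs_add_le _ _).trans (add_le_add (hfv _) (u_le _))
      have c1 := abs_le.mp (b1 f)
      have c2 := abs_le.mp (b2 f)
      have n2 : ‖f - f'‖ ≤ (1 - φ f + ε) + (1 - ψ f + ε) :=
        ContinuousLinearMap.opNorm_le_bound _ (by linarith) fun g => by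
          have e : (f - f') g = (f - φ f • u : _ →L[ℝ] ℝ) (P _ (hA.inter h₁) g) +
              (f - ψ f • u : _ →L[ℝ] ℝ) (P _ (hB.inter h₁.compl) g) - (1 - φ f) * u (P _ (hA.inter h₁) g) -
              (1 - ψ f) * u (P _ (hB.inter h₁.compl) g) := by
            simp only [hf', sub_apply, add_apply, ContinuousLinearMap.comp_apply, P_compl hC,
              P_union (hA.inter h₁) (hB.inter h₁.compl) hd, map_sub, map_add, smul_apply, smul_eq_mul]
            ring
          have a1 := abs_le.mp (l1 g)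
          have a2 := abs_le.mp (l2 g)
          have a3 := abs_le.mp ((u_le _).trans (P_le (hA.inter h₁) g))
          have a4 := abs_le.mp ((u_le _).trans (P_le (hB.inter h₁.compl) g))
          rw [e, Real.norm_eq_abs, abs_le]
          constructor <;> nlinarith
      have v1 : φ f' = 1 := by
        have m : A ∩ A₁ ∪ B ∩ A₁ᶜ ∈ U := mem_of_superset (inter_mem hA' hAU) subset_union_left
        rw [hf', map_add, hup, map_sub, z1 _ _ hC m, z1 _ _ hC m, u1]; ring
      have v2 : ψ f' = 1 := by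
        have m : A ∩ A₁ ∪ B ∩ A₁ᶜ ∈ V := mem_of_superset (inter_mem hB' hAV) subset_union_right
        rw [hf', map_add, hup, map_sub, z2 _ _ hC m, z2 _ _ hC m, u2]; ring
      have w1 := (le_abs_self _).trans ((b • φ + a • ψ + w).le_opNorm f')
      have w2 := (le_abs_self _).trans (w.le_opNorm (f - f'))
      have w3 := mul_le_mul hw n2 (norm_nonneg _) (by norm_num)
      have w4 := mul_le_mul_of_nonneg_left n1 (norm_nonneg (b • φ + a • ψ + w))
      simp only [add_apply, smul_apply, smul_eq_mul, v1, v2, map_sub] at w1 w2 ⊢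
      nlinarith
    refine ContinuousLinearMap.opNorm_le_of_unit_norm (ContinuousLinearMap.opNorm_nonneg _) fun f hf => ?_
    rw [Real.norm_eq_abs, abs_le]
    have := key (-f) (by rwa [norm_neg])
    rw [map_neg] at this
    exact ⟨by linarith, key f hf⟩

end Pool.Agent.H32.AtomL1
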