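import Mathlib

set_option autoImplicit false

namespace Pool.Agent.H32.Bomb

open MeasureTheory Polynomial Real Set Filter

noncomputable def mu : Measure ℝ := volume.restrict (Ioc 0 (2 * π))

instance : IsFiniteMeasure mu := by unfold mu; infer_instance

theorem mu_real : mu.real univ = 2 * π := by
  simp [mu, Measure.real, pi_pos.le]

theorem int_mu (f : ℝ → ℝ) : ∫ t, f t ∂mu = ∫ t in (0 : ℝ)..(2 * π), f t := by
  rw [intervalIntegral.integral_of_le (by positivity)]
  rfl

theorem logM (P : ℂ[X]) : ∫ t, log ‖P.eval (circleMap 0 1 t)‖ ∂mu = 2 * π * P.logMahlerMeasure := by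
  rw [int_mu, logMahlerMeasure_def, circleAverage_def, smul_eq_mul, mul_inv_cancel_left₀ (by positivity)]

theorem intM (P : ℂ[X]) : Integrable (fun t => log ‖P.eval (circleMap 0 1 t)‖) mu :=
  (intervalIntegrable_iff_integrableOn_Ioc_of_le (by positivity)).mp P.intervalIntegrable_mahlerMeasure

theorem lin_int (g c : ℂ) : Integrable (fun θ => log ‖g + circleMap 0 1 θ * c‖) mu := by
  have := intM (C c * X + C g)
  simp only [eval_add, eval_mul, eval_C, eval_X] at this
  simpa only [add_comm, mul_comm] using this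

theorem lin_avg (g : ℂ) {c : ℂ} (hc : c ≠ 0) :
    ∫ θ, log ‖g + circleMap 0 1 θ * c‖ ∂mu = 2 * π * log (max ‖g‖ ‖c‖) := by
  have := logM (C c * X + C g)
  simp only [eval_add, eval_mul, eval_C, eval_X] at this
  rw [logMahlerMeasure_eq_log_MahlerMeasure, mahlerMeasure_C_mul_X_add_C hc, max_comm] at this
  simpa only [add_comm, mul_comm] using this

theorem fub (ν : Measure ℝ) [IsFiniteMeasure ν] (g c : ℝ → ℂ) (hg : Measurable g) (hc : Measurable c)
    (M : ℝ) (hM1 : 1 ≤ M) (hM : ∀ t, ‖g t‖ + ‖c t‖ ≤ M) (hc0 : ∀ᵐ t ∂ν, c t ≠ 0) (ψ : ℝ → ℝ)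
    (hψ : Integrable ψ ν) (hle : ∀ᵐ t ∂ν, ψ t ≤ log (max ‖g t‖ ‖c t‖))
    (hint : ∀ θ, Integrable (fun t => log ‖g t + circleMap 0 1 θ * c t‖) ν) :
    ∃ θ, ∫ t, ψ t ∂ν ≤ ∫ t, log ‖g t + circleMap 0 1 θ * c t‖ ∂ν := by
  let H : ℝ → ℝ → ℝ := fun θ t => log M - log ‖g t + circleMap 0 1 θ * c t‖
  have hH0 : ∀ θ t, 0 ≤ H θ t := by
    intro θ t
    have h1 : ‖g t + circleMap 0 1 θ * c t‖ ≤ M := by
      refine (norm_add_le _ _).trans ?_
      rw [norm_mul, norm_circleMap_zero, abs_one, one_mul]
      exact hM t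
    rcases (norm_nonneg (g t + circleMap 0 1 θ * c t)).eq_or_lt with h | h
    · simp only [H, ← h, log_zero, sub_zero]
      exact log_nonneg hM1
    · exact sub_nonneg.mpr (log_le_log h h1)
  have hmeas : Measurable (Function.uncurry H) := by
    have h1 : Measurable fun p : ℝ × ℝ => circleMap 0 1 p.1 :=
      (continuous_circleMap 0 1).measurable.comp measurable_fst
    exact measurable_const.sub
      (((hg.comp measurable_snd).add (h1.mul (hc.comp measurable_snd))).norm.log)
  have hin : ∀ᵐ t ∂ν, ∫ θ, H θ t ∂mu ≤ 2 * π * (log M - ψ t) := by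
    filter_upwards [hc0, hle] with t h1 h2
    simp only [H]
    rw [integral_sub (integrable_const _) (lin_int _ _), lin_avg _ h1, integral_const, mu_real,
      smul_eq_mul]
    nlinarith [pi_pos]
  have hb : Integrable (fun t => 2 * π * (log M - ψ t)) ν := ((integrable_const _).sub hψ).const_mul _
  have hI : Integrable (Function.uncurry H) (mu.prod ν) := by
    rw [integrable_prod_iff' hmeas.aestronglyMeasurable]
    refine ⟨Eventually.of_forall fun t => (integrable_const _).sub (lin_int (g t) (c t)), ?_⟩
    refine hb.mono' hmeas.stronglyMeasurable.norm.integral_prod_left'.aestronglyMeasurable ?_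
    filter_upwards [hin] with t ht
    have e : (fun θ => ‖Function.uncurry H (θ, t)‖) = fun θ => H θ t := by
      funext θ
      exact Real.norm_of_nonneg (hH0 θ t)
    rw [e, Real.norm_of_nonneg (integral_nonneg fun θ => hH0 θ t)]
    exact ht
  have hsw := integral_integral_swap hI
  have h1 : ∫ t, ∫ θ, H θ t ∂mu ∂ν ≤ ∫ t, 2 * π * (log M - ψ t) ∂ν :=
    integral_mono_ae hI.integral_prod_right hb hin
  have hmu : mu ≠ 0 := by
    intro h
    have := mu_real
    rw [h] at this
    simp at this
  obtain ⟨θ, hθ⟩ := exists_le_average hmu hI.integral_prod_left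
  refine ⟨θ, ?_⟩
  rw [average_eq, mu_real, smul_eq_mul] at hθ
  simp only [Function.uncurry_apply_pair] at hθ
  rw [hsw] at hθ
  rw [integral_const_mul] at h1
  have h2 : ∫ t, H θ t ∂ν ≤ ∫ t, (log M - ψ t) ∂ν := by
    refine hθ.trans ?_
    rw [inv_mul_le_iff₀ (by positivity)]
    exact h1
  simp only [H] at h2
  rw [integral_sub (integrable_const _) (hint θ), integral_sub (integrable_const _) hψ] at h2
  linarith

noncomputable def w (t : ℝ) : ℂ := circleMap 0 1 t + 1

theorem w_cont : Continuous w := (continuous_circleMap 0 1).add continuous_const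

theorem w_le (t : ℝ) : ‖w t‖ ≤ 2 := by
  refine (norm_add_le _ _).trans ?_
  rw [norm_circleMap_zero, abs_one, norm_one]
  norm_num

theorem intW (P : ℂ[X]) : Integrable (fun t => log ‖P.eval (w t)‖) mu := by
  simpa only [taylor_eval, w] using intM (taylor 1 P)

theorem ae_ne (P : ℂ[X]) (hP : P ≠ 0) : ∀ᵐ t ∂mu, P.eval (w t) ≠ 0 := by
  apply ae_restrict_of_ae
  have h1 : (P.roots.toFinset : Set ℂ).Countable := (Finset.finite_toSet _).countable
  have h2 : (circleMap 1 1 ⁻¹' (P.roots.toFinset : Set ℂ)).Countable :=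
    h1.preimage_circleMap 1 one_ne_zero
  filter_upwards [h2.ae_notMem volume] with t ht h0
  apply ht
  simp only [mem_preimage, Finset.mem_coe, Multiset.mem_toFinset, mem_roots hP, IsRoot.def]
  rw [← h0, w, circleMap, circleMap]
  congr 1
  ring

noncomputable def hh (n : ℕ) (t : ℝ) : ℝ := (1 + ‖w t‖) ^ n / (n + 1)

theorem hh_pos (n : ℕ) (t : ℝ) : 0 < hh n t := by unfold hh; positivity

theorem hh_cont (n : ℕ) : Continuous fun t => log (hh n t) := by
  refine Continuous.log ?_ fun t => (hh_pos n t).ne'
  have := w_cont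
  unfold hh
  fun_prop

theorem hh_int (n : ℕ) : Integrable (fun t => log (hh n t)) mu :=
  ((hh_cont n).integrableOn_Icc (a := 0) (b := 2 * π)).mono_set Ioc_subset_Icc_self

def D (n j : ℕ) : Set ℝ := {t | hh n t ≤ n.choose j * ‖w t‖ ^ j}

theorem D_meas (n j : ℕ) : MeasurableSet (D n j) := by
  have := w_cont
  refine (isClosed_le ?_ (by fun_prop)).measurableSet
  unfold hh
  fun_prop

theorem D_cover (n : ℕ) (t : ℝ) : ∃ j ≤ n, t ∈ D n j := by
  by_contra h
  push Not at h
  have h1 : ∑ j ∈ Finset.range (n + 1), ‖w t‖ ^ j * 1 ^ (n - j) * n.choose j <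
      ∑ _j ∈ Finset.range (n + 1), hh n t := by
    refine Finset.sum_lt_sum_of_nonempty (by simp) fun j hj => ?_
    have := h j (by simpa [Nat.lt_succ_iff] using hj)
    simp only [D, mem_ofPred_eq, not_le] at this
    rw [one_pow, mul_one, mul_comm]
    exact this
  rw [← add_pow, Finset.sum_const, Finset.card_range, nsmul_eq_mul, hh, add_comm ‖w t‖] at h1
  push_cast at h1
  rw [mul_div_cancel₀ _ (by positivity)] at h1
  exact lt_irrefl _ h1

def Bk (n k : ℕ) : Set ℝ := D n n ∪ ⋃ j ∈ Finset.range k, D n j

theorem Bk_meas (n k : ℕ) : MeasurableSet (Bk n k) :=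
  (D_meas n n).union (Finset.measurableSet_biUnion _ fun j _ => D_meas n j)

theorem step (n k : ℕ) (hk : k ≤ n) : ∃ G : ℂ[X], G.degree < n ∧ (∀ j, ‖G.coeff j‖ ≤ n.choose j) ∧
    (∀ j, k ≤ j → G.coeff j = 0) ∧
    ∫ t in Bk n k, log (hh n t) ∂mu ≤ ∫ t in Bk n k, log ‖(X ^ n + G).eval (w t)‖ ∂mu := by
  classical
  induction k with
  | zero =>
    refine ⟨0, by simp, by simp, by simp, ?_⟩
    refine setIntegral_mono_on (hh_int n).integrableOn (intW _).integrableOn (Bk_meas n 0) ?_
    intro t ht
    refine log_le_log (hh_pos n t) ?_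
    simpa [Bk, D] using ht
  | succ k ih =>
    obtain ⟨G, h1, h2, h3, h4⟩ := ih (by omega)
    have hmon : (X ^ n + G).Monic := monic_X_pow_add h1
    have hsub : Bk n k ⊆ Bk n (k + 1) := by
      refine union_subset_union_right _ (biUnion_subset_biUnion_left ?_)
      intro j hj
      simp only [Finset.coe_range, mem_Iio] at hj ⊢
      omega
    obtain ⟨M0, hM0⟩ := (isCompact_closedBall (0 : ℂ) 2).exists_bound_of_continuousOn
      (X ^ n + G).continuous.continuousOn
    have hch : (n.choose k : ℂ) ≠ 0 := by exact_mod_cast (Nat.choose_pos (by omega)).ne'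
    let ψ : ℝ → ℝ := (Bk n k).piecewise (fun t => log ‖(X ^ n + G).eval (w t)‖) fun t => log (hh n t)
    have hψ : Integrable ψ mu :=
      Integrable.piecewise (Bk_meas n k) (intW _).integrableOn (hh_int n).integrableOn
    have hw := w_cont
    obtain ⟨θ, hθ⟩ := fub (mu.restrict (Bk n (k + 1))) (fun t => (X ^ n + G).eval (w t))
      (fun t => n.choose k * w t ^ k) ((X ^ n + G).continuous.comp hw).measurable
      (Continuous.measurable (by fun_prop)) (|M0| + n.choose k * 2 ^ k + 1)
      (by have : 0 ≤ |M0| + (n.choose k : ℝ) * 2 ^ k := by positivity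
          linarith)
      (fun t => by
        have a1 := hM0 (w t) (by simpa using w_le t)
        have a2 : ‖(n.choose k : ℂ) * w t ^ k‖ ≤ n.choose k * 2 ^ k := by
          rw [norm_mul, norm_pow, Complex.norm_natCast]
          gcongr
          exact w_le t
        linarith [le_abs_self M0])
      (ae_restrict_of_ae ((ae_ne X X_ne_zero).mono fun t ht =>
        mul_ne_zero hch (pow_ne_zero _ (by simpa using ht))))
      ψ hψ.integrableOn
      (by
        filter_upwards [ae_restrict_of_ae (ae_ne _ hmon.ne_zero), ae_restrict_mem (Bk_meas n (k + 1))]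
          with t ht1 ht2
        by_cases ht : t ∈ Bk n k
        · simp only [ψ, piecewise_eq_of_mem _ _ _ ht]
          exact log_le_log (norm_pos_iff.mpr ht1) (le_max_left _ _)
        · simp only [ψ, piecewise_eq_of_notMem _ _ _ ht]
          refine log_le_log (hh_pos n t) (le_trans ?_ (le_max_right _ _))
          have : t ∈ D n k := by
            simp only [Bk, Finset.range_add_one, Finset.set_biUnion_insert, mem_union] at ht ht2
            tauto
          rw [norm_mul, norm_pow, Complex.norm_natCast]
          exact this)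
      (fun θ => by
        have := (intW (X ^ n + G + monomial k (circleMap 0 1 θ * n.choose k))).integrableOn
          (s := Bk n (k + 1))
        simpa only [eval_add, eval_monomial, mul_assoc, IntegrableOn] using this)
    refine ⟨G + monomial k (circleMap 0 1 θ * n.choose k), ?_, ?_, ?_, ?_⟩
    · refine (degree_add_le _ _).trans_lt (max_lt h1 ((degree_monomial_le _ _).trans_lt ?_))
      exact_mod_cast (by omega : k < n)
    · intro j
      rw [coeff_add, coeff_monomial]
      split_ifs with h
      · subst h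
        rw [h3 k le_rfl, zero_add, norm_mul, norm_circleMap_zero, abs_one, one_mul, Complex.norm_natCast]
      · rw [add_zero]
        exact h2 j
    · intro j hj
      rw [coeff_add, coeff_monomial, if_neg (by omega), h3 j (by omega), add_zero]
    · have e : ∀ t, (X ^ n + (G + monomial k (circleMap 0 1 θ * n.choose k))).eval (w t) =
          (X ^ n + G).eval (w t) + circleMap 0 1 θ * (n.choose k * w t ^ k) := by
        intro t
        simp only [eval_add, eval_monomial]
        ring
      simp only [e]
      refine le_trans ?_ hθ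
      have hd : Disjoint (Bk n k) (Bk n (k + 1) \ Bk n k) := disjoint_sdiff_right
      have hm := (Bk_meas n (k + 1)).diff (Bk_meas n k)
      rw [← union_sdiff_cancel hsub, setIntegral_union hd hm (hh_int n).integrableOn
        (hh_int n).integrableOn, setIntegral_union hd hm hψ.integrableOn hψ.integrableOn]
      rw [setIntegral_congr_fun (f := ψ) (g := fun t => log ‖(X ^ n + G).eval (w t)‖) (Bk_meas n k)
        (fun t ht => piecewise_eq_of_mem _ _ _ ht),
        setIntegral_congr_fun (f := ψ) (g := fun t => log (hh n t)) hm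
        (fun t ht => piecewise_eq_of_notMem _ _ _ ht.2)]
      linarith

noncomputable def LK : ℝ := (2 * π)⁻¹ * ∫ t, log (1 + ‖w t‖) ∂mu

theorem l_int : Integrable (fun t => log (1 + ‖w t‖)) mu := by
  have hw := w_cont
  have : Continuous fun t => log (1 + ‖w t‖) := Continuous.log (by fun_prop) fun t => by positivity
  exact (this.integrableOn_Icc (a := 0) (b := 2 * π)).mono_set Ioc_subset_Icc_self

theorem lower (n : ℕ) : ∃ p q : ℂ[X], p.Monic ∧ p.natDegree = n ∧ q.Monic ∧ q ∣ p ∧
    (∀ j, ‖p.coeff j‖ ≤ n.choose j) ∧ exp LK ^ n / (n + 1) ≤ ‖q.eval 1‖ := by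
  classical
  obtain ⟨G, h1, h2, h3, h4⟩ := step n n le_rfl
  have hmon : (X ^ n + G).Monic := monic_X_pow_add h1
  have hdeg : (X ^ n + G).natDegree = n := by
    rw [natDegree_add_eq_left_of_degree_lt (by simpa using h1), natDegree_X_pow]
  have hB : Bk n n = univ := by
    refine eq_univ_of_forall fun t => ?_
    obtain ⟨j, hj, ht⟩ := D_cover n t
    rcases hj.eq_or_lt with rfl | hj
    · exact Or.inl ht
    · exact Or.inr (mem_biUnion (Finset.mem_coe.mpr (Finset.mem_range.mpr hj)) ht)
  rw [hB, Measure.restrict_univ] at h4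
  set p := X ^ n + G with hp
  set P := taylor 1 p with hP
  have hPm : P.Monic := by rw [hP, Monic, leadingCoeff_taylor]; exact hmon
  let s := P.roots.filter fun a => 1 < ‖a‖
  let Q : ℂ[X] := (s.map fun a => X - C a).prod
  have hQ : Q ∣ P := (Multiset.prod_dvd_prod_of_le (Multiset.map_le_map (Multiset.filter_le _ _))).trans
    P.prod_multiset_X_sub_C_dvd
  have hQm : Q.Monic := monic_multiset_prod_of_monic _ _ fun a _ => monic_X_sub_C a
  refine ⟨p, taylor (-1) Q, hmon, hdeg, by rw [Monic, leadingCoeff_taylor]; exact hQm, ?_, ?_, ?_⟩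
  · obtain ⟨R, hR⟩ := hQ
    refine ⟨taylor (-1) R, ?_⟩
    rw [← taylor_mul, ← hR, hP, taylor_taylor]
    simp
  · intro j
    rw [hp, coeff_add, coeff_X_pow]
    split_ifs with h
    · subst h
      rw [h3 j le_rfl]
      simp
    · rw [zero_add]
      exact h2 j
  · have e1 : ‖(taylor (-1) Q).eval 1‖ = P.mahlerMeasure := by
      rw [taylor_eval, add_neg_cancel, mahlerMeasure_eq_leadingCoeff_mul_prod_roots, hPm.leadingCoeff,
        norm_one, one_mul, eval_multiset_prod, Multiset.map_map]
      have : ∀ m : Multiset ℂ, ‖((m.filter fun a => 1 < ‖a‖).map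
          (eval 0 ∘ fun a => X - C a)).prod‖ = (m.map fun a => max 1 ‖a‖).prod := by
        intro m
        induction m using Multiset.induction_on with
        | empty => simp
        | cons a m ih =>
          by_cases ha : 1 < ‖a‖
          · rw [Multiset.filter_cons_of_pos (p := fun a => 1 < ‖a‖) _ ha, Multiset.map_cons,
              Multiset.prod_cons, norm_mul, ih,
              Multiset.map_cons, Multiset.prod_cons, max_eq_right ha.le]
            simp
          · rw [Multiset.filter_cons_of_neg (p := fun a => 1 < ‖a‖) _ ha, ih, Multiset.map_cons,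
              Multiset.prod_cons, max_eq_left (not_lt.mp ha), one_mul]
      exact this _
    have e2 := logM P
    simp only [hP, taylor_eval] at e2
    have e3 : ∫ t, log (hh n t) ∂mu = 2 * π * (n * LK - log (n + 1)) := by
      have : ∀ t, log (hh n t) = n * log (1 + ‖w t‖) - log (n + 1) := by
        intro t
        rw [hh, log_div (by positivity) (by positivity), log_pow]
      simp only [this]
      rw [integral_sub (l_int.const_mul _) (integrable_const _), integral_const_mul, integral_const,
        mu_real, LK, smul_eq_mul]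
      field_simp
    have e4 : n * LK - log (n + 1) ≤ P.logMahlerMeasure := by
      have h5 : 2 * π * (n * LK - log (n + 1)) ≤ 2 * π * P.logMahlerMeasure := by
        rw [← e3, hP, ← e2]
        exact h4
      exact le_of_mul_le_mul_left h5 (by positivity)
    rw [e1, mahlerMeasure, if_pos hPm.ne_zero, ← exp_nat_mul,
      ← exp_log (show (0 : ℝ) < n + 1 by positivity), ← exp_sub]
    exact exp_le_exp.mpr e4

theorem rot (s : ℝ) : ∫ t, log (1 + ‖circleMap 0 1 t + circleMap 0 1 s‖) ∂mu =
    ∫ t, log (1 + ‖w t‖) ∂mu := by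
  have e : ∀ t, ‖circleMap 0 1 t + circleMap 0 1 s‖ = ‖w (t - s)‖ := by
    intro t
    have : circleMap 0 1 t + circleMap 0 1 s = circleMap 0 1 s * w (t - s) := by
      simp only [w, circleMap, zero_add, Complex.ofReal_one, one_mul, mul_add, mul_one,
        ← Complex.exp_add]
      congr 2
      push_cast
      ring
    rw [this, norm_mul, norm_circleMap_zero, abs_one, one_mul]
  simp only [e]
  rw [int_mu, int_mu, intervalIntegral.integral_comp_sub_right (fun t => log (1 + ‖w t‖))]
  have hper : Function.Periodic (fun t => log (1 + ‖w t‖)) (2 * π) := by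
    intro t
    simp only [w, periodic_circleMap 0 1 t]
  have := hper.intervalIntegral_add_eq (0 - s) 0
  rw [zero_add] at this
  rw [← this]
  congr 1
  ring

theorem upper {n : ℕ} {p q : ℂ[X]} (hp : p.Monic) (hn : p.natDegree = n) (hq : q.Monic) (hd : q ∣ p)
    {A : ℝ} (hA : ∀ j ≤ n, ‖p.coeff j‖ ≤ A * n.choose j) {z : ℂ} (hz : ‖z‖ ≤ 1) :
    ‖q.eval z‖ ≤ exp LK ^ n * A := by
  have hA1 : 1 ≤ A := by
    have := hA n le_rfl
    rw [← hn, hp.coeff_natDegree] at this
    simpa using this
  refine Complex.norm_le_of_forall_mem_frontier_norm_le (U := Metric.ball 0 1) (f := fun z => q.eval z)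
    Metric.isBounded_ball q.differentiable.diffContOnCl (fun ζ hζ => ?_)
    (by rw [closure_ball _ one_ne_zero]; simpa using hz)
  rw [frontier_ball _ one_ne_zero, ← abs_one, ← range_circleMap] at hζ
  obtain ⟨s, rfl⟩ := hζ
  set ζ := circleMap 0 1 s with hζ
  obtain ⟨r, rfl⟩ := hd
  have hr : r.Monic := hq.of_mul_monic_left hp
  have h1 : ‖q.eval ζ‖ ≤ (taylor ζ (q * r)).mahlerMeasure := by
    rw [taylor_mul, mahlerMeasure_mul]
    have a1 := norm_coeff_le_choose_mul_mahlerMeasure 0 (taylor ζ q)
    rw [taylor_coeff_zero, Nat.choose_zero_right, Nat.cast_one, one_mul] at a1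
    have a2 : 1 ≤ (taylor ζ r).mahlerMeasure :=
      one_le_mahlerMeasure_of_one_le_norm_leadingCoeff (by rw [leadingCoeff_taylor, hr.leadingCoeff]; simp)
    exact a1.trans (le_mul_of_one_le_right (mahlerMeasure_nonneg _) a2)
  refine h1.trans ?_
  have hne : taylor ζ (q * r) ≠ 0 := by
    have : (taylor ζ (q * r)).Monic := by rw [Monic, leadingCoeff_taylor]; exact hp
    exact this.ne_zero
  rw [mahlerMeasure, if_pos hne, ← exp_nat_mul, ← exp_log (show 0 < A by linarith), ← exp_add]
  refine exp_le_exp.mpr ?_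
  have e2 := logM (taylor ζ (q * r))
  have hc : Continuous fun t => log (1 + ‖circleMap 0 1 t + ζ‖) := by
    have := continuous_circleMap 0 1
    exact Continuous.log (by fun_prop) fun t => by positivity
  have hi : Integrable (fun t => log (1 + ‖circleMap 0 1 t + ζ‖)) mu :=
    (hc.integrableOn_Icc (a := 0) (b := 2 * π)).mono_set Ioc_subset_Icc_self
  have h2 : ∫ t, log ‖(taylor ζ (q * r)).eval (circleMap 0 1 t)‖ ∂mu ≤
      ∫ t, (n * log (1 + ‖circleMap 0 1 t + ζ‖) + log A) ∂mu := by
    refine integral_mono (intM _) ((hi.const_mul _).add (integrable_const _)) fun t => ?_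
    simp only [taylor_eval]
    set y := circleMap 0 1 t + ζ
    have b1 : ‖(q * r).eval y‖ ≤ (1 + ‖y‖) ^ n * A := by
      rw [eval_eq_sum_range, hn, add_comm 1 ‖y‖, add_pow, Finset.sum_mul]
      refine (norm_sum_le _ _).trans (Finset.sum_le_sum fun j hj => ?_)
      rw [norm_mul, norm_pow, one_pow, mul_one]
      have := mul_le_mul_of_nonneg_right (hA j (by simpa [Nat.lt_succ_iff] using hj))
        (pow_nonneg (norm_nonneg y) j)
      linarith
    have b2 : 1 ≤ (1 + ‖y‖) ^ n := one_le_pow₀ (by linarith [norm_nonneg y])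
    rw [← log_pow, ← log_mul (by positivity) (by linarith)]
    rcases (norm_nonneg ((q * r).eval y)).eq_or_lt with h | h
    · rw [← h, log_zero]
      exact log_nonneg (by nlinarith)
    · exact log_le_log h b1
  rw [e2, integral_add (hi.const_mul _) (integrable_const _), integral_const_mul, integral_const,
    mu_real, smul_eq_mul, hζ, rot] at h2
  refine le_of_mul_le_mul_left (a := 2 * π) (h2.trans (le_of_eq ?_)) (by positivity)
  rw [LK]
  field_simp

end Pool.Agent.H32.Bomb
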