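import Mathlib

/-! A set of reals of size continuum on which every countable union of strictly monotone
partial maps is the identity up to fewer than continuum many points. -/

namespace Pool.Agent.H32.FreeSet

open Set Cardinal Filter Topology

theorem exists_free {I : Type} [Nonempty I] (hI : #I ≤ 𝔠) (F : I → ℝ → Set ℝ)
    (hF : ∀ i t, (F i t).Countable) (hsymm : ∀ i s t, s ∈ F i t → t ∈ F i s) :
    ∃ X : Set ℝ, #X = 𝔠 ∧ ∀ i, #{t | t ∈ X ∧ ∃ s ∈ X, s ≠ t ∧ s ∈ F i t} < 𝔠 := by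
  classical
  let W := (𝔠 : Cardinal.{0}).ord.ToType
  have hW : #W = 𝔠 := mk_ord_toType _
  have hIio : ∀ a : W, #(Iio a) < 𝔠 := fun a => by simpa [W] using mk_Iio_lt a
  obtain ⟨e, he⟩ : ∃ e : W → I, Function.Surjective e := by
    obtain ⟨f⟩ : Nonempty (I ↪ W) := by rw [← Cardinal.le_def, hW]; exact hI
    exact ⟨Function.invFun f, Function.invFun_surjective f.injective⟩
  let bad : (a : W) → ((b : W) → b < a → ℝ) → Set ℝ := fun a ih =>
    ⋃ p : Iio a × Iio a, insert (ih p.1.1 p.1.2) (F (e p.2.1) (ih p.1.1 p.1.2))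
  have hbad : ∀ a ih, ∃ y, y ∉ bad a ih := by
    intro a ih
    by_contra h
    push Not at h
    have h1 : bad a ih = Set.univ := eq_univ_of_forall h
    have h2 : #(bad a ih) < 𝔠 := by
      refine lt_of_le_of_lt (mk_iUnion_le _) (Cardinal.mul_lt_of_lt aleph0_le_continuum ?_ ?_)
      · rw [mk_prod, lift_id]
        exact Cardinal.mul_lt_of_lt aleph0_le_continuum (hIio a) (hIio a)
      · refine lt_of_le_of_lt (ciSup_le' fun p => ?_) aleph0_lt_continuum
        exact le_aleph0_iff_set_countable.2 ((hF _ _).insert _)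
    rw [h1, mk_univ, mk_real] at h2
    exact lt_irrefl _ h2
  let x : W → ℝ := (wellFounded_lt (α := W)).fix fun a ih => (hbad a ih).choose
  have hx : ∀ a, x a ∉ bad a (fun b _ => x b) := by
    intro a
    have : x a = (hbad a (fun b _ => x b)).choose := WellFounded.fix_eq _ _ _
    have h := (hbad a (fun b _ => x b)).choose_spec
    rwa [← this] at h
  have h1 : ∀ a b, b < a → x a ≠ x b := by
    intro a b hb h
    exact hx a (mem_iUnion.2 ⟨(⟨b, hb⟩, ⟨b, hb⟩), Or.inl h⟩)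
  have h2 : ∀ a b c, b < a → c < a → x a ∉ F (e c) (x b) := by
    intro a b c hb hc h
    exact hx a (mem_iUnion.2 ⟨(⟨b, hb⟩, ⟨c, hc⟩), Or.inr h⟩)
  have hinj : Function.Injective x := by
    intro a b h
    rcases lt_trichotomy a b with hab | hab | hab
    · exact absurd h.symm (h1 b a hab)
    · exact hab
    · exact absurd h (h1 a b hab)
  refine ⟨range x, by rw [mk_range_eq _ hinj, hW], fun i => ?_⟩
  obtain ⟨c, rfl⟩ := he i
  have hsub : {t | t ∈ range x ∧ ∃ s ∈ range x, s ≠ t ∧ s ∈ F (e c) t} ⊆ x '' (insert c (Iio c)) := by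
    rintro _ ⟨⟨a, rfl⟩, _, ⟨b, rfl⟩, hne, hs⟩
    refine ⟨a, ?_, rfl⟩
    by_contra hac
    have hca : c < a := by
      rw [Iio_insert] at hac
      exact lt_of_not_ge hac
    rcases lt_trichotomy a b with hab | hab | hab
    · exact h2 b a c hab (hca.trans hab) hs
    · exact hne (by rw [hab])
    · exact h2 a b c hab hca (hsymm _ _ _ hs)
  refine lt_of_le_of_lt ((mk_le_mk_of_subset hsub).trans mk_image_le) ?_
  refine lt_of_le_of_lt mk_insert_le ?_
  exact Cardinal.add_lt_of_lt aleph0_le_continuum (hIio c) (one_lt_aleph0.trans aleph0_lt_continuum)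

/-- graph of a strictly monotone partial map -/
def SG (G : Set (ℝ × ℝ)) : Prop := ∀ p ∈ G, ∀ q ∈ G, (p.1 < q.1 ↔ p.2 < q.2)

theorem SG.section {G : Set (ℝ × ℝ)} (h : SG G) (t : ℝ) : {s | (t, s) ∈ closure G}.Countable := by
  have hG : G = (G ∩ {p | p.1 < t}) ∪ (G ∩ {p | p.1 = t}) ∪ (G ∩ {p | t < p.1}) := by
    ext p
    have := lt_trichotomy p.1 t
    simp only [mem_union, mem_inter_iff, mem_ofPred_eq]
    tauto
  have a1 : {s | (t, s) ∈ closure (G ∩ {p | p.1 < t})}.Subsingleton := by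
    have : ∀ s1 s2, s1 < s2 → (t, s1) ∈ closure (G ∩ {p | p.1 < t}) →
        (t, s2) ∈ closure (G ∩ {p | p.1 < t}) → False := by
      intro s1 s2 hs h1 h2
      obtain ⟨q, hq1, hq2, hq3⟩ := mem_closure_iff.1 h2 {p | (s1 + s2) / 2 < p.2}
        (isOpen_lt continuous_const continuous_snd) (by simp only [mem_ofPred_eq]; linarith)
      obtain ⟨r, hr1, hr2, hr3⟩ := mem_closure_iff.1 h1 ({p | q.1 < p.1} ∩ {p | p.2 < (s1 + s2) / 2})
        ((isOpen_lt continuous_const continuous_fst).inter (isOpen_lt continuous_snd continuous_const))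
        ⟨hq3, by simp only [mem_ofPred_eq]; linarith⟩
      have := (h q hq2 r hr2).1 hr1.1
      have h3 := hr1.2
      simp only [mem_ofPred_eq] at hq1 h3
      linarith
    intro s1 h1 s2 h2
    rcases lt_trichotomy s1 s2 with hs | hs | hs
    · exact (this _ _ hs h1 h2).elim
    · exact hs
    · exact (this _ _ hs h2 h1).elim
  have a2 : {s | (t, s) ∈ closure (G ∩ {p | t < p.1})}.Subsingleton := by
    have : ∀ s1 s2, s1 < s2 → (t, s1) ∈ closure (G ∩ {p | t < p.1}) →
        (t, s2) ∈ closure (G ∩ {p | t < p.1}) → False := by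
      intro s1 s2 hs h1 h2
      obtain ⟨q, hq1, hq2, hq3⟩ := mem_closure_iff.1 h1 {p | p.2 < (s1 + s2) / 2}
        (isOpen_lt continuous_snd continuous_const) (by simp only [mem_ofPred_eq]; linarith)
      obtain ⟨r, hr1, hr2, hr3⟩ := mem_closure_iff.1 h2 ({p | p.1 < q.1} ∩ {p | (s1 + s2) / 2 < p.2})
        ((isOpen_lt continuous_fst continuous_const).inter (isOpen_lt continuous_const continuous_snd))
        ⟨hq3, by simp only [mem_ofPred_eq]; linarith⟩
      have := (h r hr2 q hq2).1 hr1.1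
      have h3 := hr1.2
      simp only [mem_ofPred_eq] at hq1 h3
      linarith
    intro s1 h1 s2 h2
    rcases lt_trichotomy s1 s2 with hs | hs | hs
    · exact (this _ _ hs h1 h2).elim
    · exact hs
    · exact (this _ _ hs h2 h1).elim
  have a3 : (G ∩ {p | p.1 = t}).Subsingleton := by
    rintro p ⟨hp, hpt⟩ q ⟨hq, hqt⟩
    simp only [mem_ofPred_eq] at hpt hqt
    have e1 := h p hp q hq
    have e2 := h q hq p hp
    rw [hpt, hqt] at e1 e2
    simp only [lt_irrefl, false_iff, not_lt] at e1 e2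
    exact Prod.ext (hpt.trans hqt.symm) (le_antisymm e2 e1)
  have a4 : {s | (t, s) ∈ closure (G ∩ {p | p.1 = t})}.Subsingleton := by
    rw [a3.isClosed.closure_eq]
    intro s1 h1 s2 h2
    exact congrArg Prod.snd (a3 h1 h2)
  refine ((a1.countable.union a4.countable).union a2.countable).mono ?_
  intro s hs
  rw [mem_ofPred_eq, hG, closure_union, closure_union] at hs
  exact hs

theorem SG.section' {G : Set (ℝ × ℝ)} (h : SG G) (t : ℝ) : {s | (s, t) ∈ closure G}.Countable := by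
  have h' : SG (Prod.swap ⁻¹' G) := fun p hp q hq => (h _ hp _ hq).symm
  refine (h'.section t).mono fun s hs => ?_
  have := (Homeomorph.prodComm ℝ ℝ).preimage_closure G
  show (t, s) ∈ closure (Prod.swap ⁻¹' G)
  have h2 : closure (Prod.swap ⁻¹' G) = (Homeomorph.prodComm ℝ ℝ) ⁻¹' closure G := this.symm
  rw [h2]
  exact hs

theorem exists_rigid : ∃ X : Set ℝ, #X = 𝔠 ∧ ∀ G : ℕ → Set (ℝ × ℝ), (∀ n, SG (G n)) →
    #{t | t ∈ X ∧ ∃ s ∈ X, s ≠ t ∧ ∃ n, (t, s) ∈ G n} < 𝔠 := by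
  let F : (ℕ → ℕ → ℝ × ℝ) → ℝ → Set ℝ := fun σ t =>
    ⋃ n : {n // SG (range (σ n))}, {s | (t, s) ∈ closure (range (σ n))} ∪
      {s | (s, t) ∈ closure (range (σ n))}
  obtain ⟨X, hX, hF⟩ := exists_free (I := ℕ → ℕ → ℝ × ℝ) (by simp [mk_real]) F
    (fun σ t => countable_iUnion fun n => (n.2.section t).union (n.2.section' t))
    (fun σ s t h => by
      obtain ⟨n, hn⟩ := mem_iUnion.1 h
      exact mem_iUnion.2 ⟨n, hn.symm⟩)
  refine ⟨X, hX, fun G hG => ?_⟩
  have : ∀ n, ∃ τ : ℕ → ℝ × ℝ, SG (range τ) ∧ G n ⊆ closure (range τ) := by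
    intro n
    obtain ⟨t, ht2, ht1, ht3⟩ := (TopologicalSpace.IsSeparable.of_separableSpace (G n)).exists_countable_dense_subset
    rcases t.eq_empty_or_nonempty with rfl | hne
    · refine ⟨fun _ => (0, 0), ?_, ht3.trans (by simp)⟩
      rintro _ ⟨_, rfl⟩ _ ⟨_, rfl⟩
      simp
    · obtain ⟨τ, rfl⟩ := ht1.exists_eq_range hne
      exact ⟨τ, fun p hp q hq => hG n p (ht2 hp) q (ht2 hq), ht3⟩
  choose σ h1 h2 using this
  refine lt_of_le_of_lt (mk_le_mk_of_subset ?_) (hF σ)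
  rintro t ⟨ht, s, hs, hne, n, hn⟩
  exact ⟨ht, s, hs, hne, mem_iUnion.2 ⟨⟨n, h1 n⟩, Or.inl (h2 n hn)⟩⟩

/-- Countably many sets of reals such that a countable union of strictly monotone partial maps
defined on all of `A n`, with values in the union of the `A m`, sends some point of `A n`
into `A n` only. -/
theorem exists_family : ∃ A : ℕ → Set ℝ, (∀ n, (A n).Nonempty) ∧
    ∀ (n : ℕ) (G : ℕ → Set (ℝ × ℝ)), (∀ k, SG (G k)) →
      ¬ ∀ t ∈ A n, ∃ m, m ≠ n ∧ ∃ s ∈ A m, ∃ k, (t, s) ∈ G k := by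
  obtain ⟨X, hX, hG⟩ := exists_rigid
  obtain ⟨e⟩ : Nonempty (ℕ × ℝ ≃ X) := by
    rw [← Cardinal.eq, hX]; simp [mk_real]
  have hinj : Function.Injective fun p => (e p : ℝ) := Subtype.val_injective.comp e.injective
  refine ⟨fun n => range fun r => (e (n, r) : ℝ), fun n => range_nonempty _, fun n G hSG h => ?_⟩
  have h1 := hG G hSG
  have h2 : (range fun r => (e (n, r) : ℝ)) ⊆
      {t | t ∈ X ∧ ∃ s ∈ X, s ≠ t ∧ ∃ n, (t, s) ∈ G n} := by
    rintro _ ⟨r, rfl⟩
    obtain ⟨m, hm, _, ⟨r', rfl⟩, k, hk⟩ := h _ ⟨r, rfl⟩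
    refine ⟨(e _).2, _, (e _).2, fun h' => hm ?_, k, hk⟩
    exact congrArg Prod.fst (hinj h')
  have h3 := (mk_le_mk_of_subset h2).trans_lt h1
  rw [mk_range_eq _ (fun a b h' => congrArg Prod.snd (hinj h')), mk_real] at h3
  exact lt_irrefl _ h3

end Pool.Agent.H32.FreeSet
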