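import Mathlib
import Pool.Agent.H32.FreeSet

/-! A tree, countable union of chains, whose branches under embeddability look like the
co-infinite subsets of the integers under almost inclusion. -/

namespace Pool.Agent.H32.BrTree

open Set Pool.Agent.H32.FreeSet

@[ext] structure P where
  j : ℤ
  n : ℕ
  t : ℝ

noncomputable instance : LinearOrder P :=
  LinearOrder.lift' (fun p : P => toLex (p.j, toLex (OrderDual.toDual p.n, p.t))) (by
    intro p q h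
    simp only [toLex_inj, Prod.mk.injEq, OrderDual.toDual_inj] at h
    exact P.ext h.1 h.2.1 h.2.2)

theorem P.le_iff (p q : P) :
    p ≤ q ↔ p.j < q.j ∨ p.j = q.j ∧ (q.n < p.n ∨ p.n = q.n ∧ p.t ≤ q.t) := by
  show toLex (p.j, toLex (OrderDual.toDual p.n, p.t)) ≤
    toLex (q.j, toLex (OrderDual.toDual q.n, q.t)) ↔ _
  simp [Prod.Lex.toLex_le_toLex]

theorem P.lt_iff (p q : P) :
    p < q ↔ p.j < q.j ∨ p.j = q.j ∧ (q.n < p.n ∨ p.n = q.n ∧ p.t < q.t) := by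
  show toLex (p.j, toLex (OrderDual.toDual p.n, p.t)) <
    toLex (q.j, toLex (OrderDual.toDual q.n, q.t)) ↔ _
  simp [Prod.Lex.toLex_lt_toLex]

def S (u : ℕ → ℕ) (k : ℕ) : ℕ := ∑ i ∈ Finset.range k, (u i + 2)

theorem S_succ (u : ℕ → ℕ) (k : ℕ) : S u (k + 1) = S u k + (u k + 2) := Finset.sum_range_succ _ _

theorem S_mono (u : ℕ → ℕ) : StrictMono (S u) :=
  strictMono_nat_of_lt_succ fun k => by rw [S_succ]; omega

theorem S_congr {u v : ℕ → ℕ} {k : ℕ} (h : ∀ i < k, u i = v i) : S u k = S v k :=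
  Finset.sum_congr rfl fun i hi => by rw [h i (Finset.mem_range.1 hi)]

variable (A : ℕ → Set ℝ)

@[ext] structure T where
  k : ℕ
  u : ℕ → ℕ
  p : P
  h0 : ∀ i, k ≤ i → u i = 0
  hA : p.t ∈ A p.n
  hr : (k = 0 ∧ p.j < 0) ∨ ∃ k', k = k' + 1 ∧ p.j = p.n ∧ S u k' ≤ p.n ∧ p.n + 1 < S u k

instance : PartialOrder (T A) where
  le e e' := e.k ≤ e'.k ∧ (∀ i < e.k, e.u i = e'.u i) ∧ e.p ≤ e'.p
  le_refl e := ⟨le_rfl, fun _ _ => rfl, le_rfl⟩
  le_trans a b c h1 h2 := ⟨h1.1.trans h2.1, fun i hi =>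
    (h1.2.1 i hi).trans (h2.2.1 i (hi.trans_le h1.1)), h1.2.2.trans h2.2.2⟩
  le_antisymm a b h1 h2 := by
    have hk : a.k = b.k := le_antisymm h1.1 h2.1
    refine T.ext hk ?_ (le_antisymm h1.2.2 h2.2.2)
    ext i
    rcases lt_or_ge i a.k with hi | hi
    · exact h1.2.1 i hi
    · rw [a.h0 i hi, b.h0 i (hk ▸ hi)]

variable {A}

theorem le_def (e e' : T A) :
    e ≤ e' ↔ e.k ≤ e'.k ∧ (∀ i < e.k, e.u i = e'.u i) ∧ e.p ≤ e'.p := Iff.rfl

variable (A) in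
def B (g : ℕ → ℕ) : Set (T A) := {e | ∀ i < e.k, e.u i = g i}

theorem lt_of_k {g : ℕ → ℕ} {e e' : T A} (he : e ∈ B A g) (he' : e' ∈ B A g) (h : e.k < e'.k) :
    e.p < e'.p := by
  rw [P.lt_iff]
  left
  rcases e'.hr with ⟨h0, -⟩ | ⟨k', hk', h1, h2, h3⟩
  · omega
  · rcases e.hr with ⟨-, h0⟩ | ⟨k, hk, h4, h5, h6⟩
    · omega
    · have e1 : S e.u e.k = S g e.k := S_congr he
      have e2 : S e'.u k' = S g k' := S_congr fun i hi => he' i (by omega)
      have e3 : S g e.k ≤ S g k' := (S_mono g).monotone (by omega)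
      omega

theorem le_iff_of_B {g : ℕ → ℕ} {e e' : T A} (he : e ∈ B A g) (he' : e' ∈ B A g) :
    e ≤ e' ↔ e.p ≤ e'.p := by
  refine ⟨fun h => h.2.2, fun h => ?_⟩
  have hk : e.k ≤ e'.k := by
    by_contra hk
    exact absurd h (not_le.2 (lt_of_k he' he (not_le.1 hk)))
  exact ⟨hk, fun i hi => (he i hi).trans (he' i (hi.trans_le hk)).symm, h⟩

theorem chain_B (g : ℕ → ℕ) : IsChain (· ≤ ·) (B A g) := by
  intro e he e' he' _
  show e ≤ e' ∨ e' ≤ e
  rw [le_iff_of_B he he', le_iff_of_B he' he]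
  exact le_total _ _

theorem tree (x : T A) : IsChain (· ≤ ·) {y : T A | y < x} :=
  (chain_B x.u).mono fun y hy => ((le_def y x).1 (le_of_lt hy)).2.1

theorem cover : ∃ f : ℕ → Set (T A), (∀ n, IsChain (· ≤ ·) (f n)) ∧ (⋃ n, f n) = Set.univ := by
  obtain ⟨l, hl⟩ := exists_surjective_nat (List ℕ)
  refine ⟨fun n => B A fun i => (l n).getD i 0, fun n => chain_B _, eq_univ_of_forall fun e => ?_⟩
  obtain ⟨n, hn⟩ := hl ((List.range e.k).map e.u)
  refine mem_iUnion.2 ⟨n, fun i hi => ?_⟩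
  simp [hn, hi]

/-- the element of the branch `g` at level `k+1` -/
def mkT (g : ℕ → ℕ) (k n : ℕ) (t : ℝ) (ht : t ∈ A n) (h1 : S g k ≤ n) (h2 : n + 1 < S g (k + 1)) :
    T A where
  k := k + 1
  u := fun i => if i < k + 1 then g i else 0
  p := ⟨n, n, t⟩
  h0 := fun i hi => if_neg (by omega)
  hA := ht
  hr := Or.inr ⟨k, rfl, rfl, by
    rw [S_congr (v := g) fun i hi => if_pos (by omega)]; exact h1, by
    rw [S_congr (v := g) fun i hi => if_pos hi]; exact h2⟩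

theorem mkT_mem (g : ℕ → ℕ) (k n : ℕ) (t : ℝ) (ht : t ∈ A n) (h1 : S g k ≤ n)
    (h2 : n + 1 < S g (k + 1)) : mkT g k n t ht h1 h2 ∈ B A g := fun _ hi => if_pos hi

theorem max_B (hA : ∀ n, (A n).Nonempty) (g : ℕ → ℕ) : IsMaxChain (· ≤ ·) (B A g) := by
  refine ⟨chain_B g, fun c hc hsub => subset_antisymm hsub fun e he => ?_⟩
  obtain ⟨t, ht⟩ := hA (S g e.k)
  have hm := mkT_mem g e.k (S g e.k) t ht le_rfl (by rw [S_succ]; omega)
  rcases hc.total he (hsub hm) with h | h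
  · exact fun i hi => (h.2.1 i hi).trans (hm i (hi.trans_le h.1))
  · have := h.1
    simp [mkT] at this

theorem eq_B {c : Set (T A)} (hc : IsMaxChain (· ≤ ·) c) : ∃ g, c = B A g := by
  classical
  let g : ℕ → ℕ := fun i => if h : ∃ e ∈ c, i < e.k then h.choose.u i else 0
  refine ⟨g, hc.2 (chain_B g) fun e he i hi => ?_⟩
  have h : ∃ e ∈ c, i < e.k := ⟨e, he, hi⟩
  simp only [g, dif_pos h]
  obtain ⟨h1, h2⟩ := h.choose_spec
  rcases hc.1.total he h1 with h3 | h3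
  · exact h3.2.1 i hi
  · exact (h3.2.1 i h2).symm

def X (g : ℕ → ℕ) : Set ℕ := {n | ∃ k, S g k ≤ n ∧ n + 1 < S g (k + 1)}

variable (A) in
def Lx (x : Set ℕ) : Set P := {p | p.t ∈ A p.n ∧ (p.j < 0 ∨ (p.j = p.n ∧ p.n ∈ x))}

theorem iso (g : ℕ → ℕ) : Nonempty (B A g ≃o Lx A (X g)) := by
  let f : B A g → Lx A (X g) := fun e => ⟨e.1.p, e.1.hA, by
    rcases e.1.hr with ⟨-, h⟩ | ⟨k, hk, h1, h2, h3⟩
    · exact Or.inl h
    · refine Or.inr ⟨h1, k, ?_, ?_⟩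
      · rwa [← S_congr (u := e.1.u) fun i hi => e.2 i (by omega)]
      · rwa [← hk, ← S_congr (u := e.1.u) e.2]⟩
  refine ⟨RelIso.ofSurjective (OrderEmbedding.ofMapLEIff f fun a b =>
    (le_iff_of_B a.2 b.2).symm) ?_⟩
  rintro ⟨p, hp, h | ⟨h, k, h1, h2⟩⟩
  · exact ⟨⟨⟨0, 0, p, fun _ _ => rfl, hp, Or.inl ⟨rfl, h⟩⟩, fun i hi => absurd hi (Nat.not_lt_zero _)⟩,
      rfl⟩
  · exact ⟨⟨_, mkT_mem g k p.n p.t hp h1 h2⟩, Subtype.ext (P.ext h.symm rfl rfl)⟩

theorem emb_L {x y : Set ℕ} (h : (x \ y).Finite) : Nonempty (Lx A x ↪o Lx A y) := by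
  obtain ⟨N, hN⟩ := h.bddAbove
  let ψ : ℤ → ℤ := fun j => if j ≤ N then j - (N + 1) else j
  let f : Lx A x → Lx A y := fun p => ⟨⟨ψ p.1.j, p.1.n, p.1.t⟩, p.2.1, by
    by_cases hj : p.1.j ≤ N
    · left
      simp only [ψ, if_pos hj]
      omega
    · rcases p.2.2 with h1 | ⟨h1, h2⟩
      · omega
      · refine Or.inr ⟨by simp only [ψ, if_neg hj]; exact h1, ?_⟩
        by_contra h3
        have := hN ⟨h2, h3⟩
        omega⟩
  refine ⟨OrderEmbedding.ofMapLEIff f fun a b => ?_⟩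
  show (f a).1 ≤ (f b).1 ↔ a.1 ≤ b.1
  rw [P.le_iff, P.le_iff]
  have h1 : ψ a.1.j < ψ b.1.j ↔ a.1.j < b.1.j := by
    simp only [ψ]
    split_ifs <;> omega
  have h2 : ψ a.1.j = ψ b.1.j ↔ a.1.j = b.1.j := by
    simp only [ψ]
    split_ifs <;> omega
  simp only [f, h1, h2]

theorem fin_of_emb (hA : ∀ (n : ℕ) (G : ℕ → Set (ℝ × ℝ)), (∀ k, SG (G k)) →
      ¬ ∀ t ∈ A n, ∃ m, m ≠ n ∧ ∃ s ∈ A m, ∃ k, (t, s) ∈ G k)
    {x y : Set ℕ} (f : Lx A x ↪o Lx A y) : (x \ y).Finite := by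
  have key : ∀ n ∈ x \ y, ∃ p : Lx A x, p.1.j = n ∧ (f p).1.n = n ∧ (f p).1.j < 0 := by
    intro n hn
    obtain ⟨l, hl⟩ := exists_surjective_nat (ℤ × ℕ)
    let G : ℕ → Set (ℝ × ℝ) := fun k => {q | ∃ p : Lx A x, p.1.j = n ∧ p.1.n = n ∧ p.1.t = q.1 ∧
      (f p).1.j = (l k).1 ∧ (f p).1.n = (l k).2 ∧ (f p).1.t = q.2}
    have hG : ∀ k, SG (G k) := by
      rintro k q ⟨p, a1, a2, a3, a4, a5, a6⟩ q' ⟨p', b1, b2, b3, b4, b5, b6⟩
      have : (f p).1 < (f p').1 ↔ p.1 < p'.1 := f.lt_iff_lt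
      rw [P.lt_iff, P.lt_iff, a1, a2, a3, a4, a5, a6, b1, b2, b3, b4, b5, b6] at this
      simpa using this.symm
    have := hA n G hG
    push Not at this
    obtain ⟨t, ht, h⟩ := this
    let p : Lx A x := ⟨⟨n, n, t⟩, ht, Or.inr ⟨rfl, hn.1⟩⟩
    obtain ⟨k, hk⟩ := hl ((f p).1.j, (f p).1.n)
    have hm : (f p).1.n = n := by
      by_contra hm
      exact h _ hm _ (f p).2.1 k ⟨p, rfl, rfl, rfl, by rw [hk], by rw [hk], rfl⟩
    refine ⟨p, rfl, hm, ?_⟩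
    rcases (f p).2.2 with h1 | ⟨-, h1⟩
    · exact h1
    · exact absurd (hm ▸ h1) hn.2
  by_contra hinf
  obtain ⟨a, ha⟩ := Set.Infinite.nonempty hinf
  haveI : Nonempty (Lx A x) := ⟨(key a ha).choose⟩
  choose! p h1 h2 h3 using key
  have hmono : StrictMonoOn (fun n => (f (p n)).1.j) (x \ y) := by
    intro a ha b hb hab
    have : (p a) < (p b) := by
      show (p a).1 < (p b).1
      rw [P.lt_iff, h1 a ha, h1 b hb]
      left
      exact_mod_cast hab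
    have h4 : (f (p a)).1 < (f (p b)).1 := f.lt_iff_lt.2 this
    rw [P.lt_iff, h2 a ha, h2 b hb] at h4
    show (f (p a)).1.j < (f (p b)).1.j
    omega
  have hfin : (Ioo ((f (p a)).1.j) 0).Finite := finite_Ioo _ _
  have h5 : ((x \ y) ∩ Ioi a).Finite := by
    refine Finite.of_finite_image (f := fun n => (f (p n)).1.j) (hfin.subset ?_)
      (hmono.injOn.mono inter_subset_left)
    rintro _ ⟨b, ⟨hb, hab⟩, rfl⟩
    exact ⟨hmono ha hb hab, h3 b hb⟩
  apply hinf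
  refine (h5.union (finite_Iic a)).subset fun n hn => ?_
  rcases lt_or_ge a n with h | h
  · exact Or.inl ⟨hn, h⟩
  · exact Or.inr h

theorem not_mem_X (g : ℕ → ℕ) (n : ℕ) : n ∉ X g ↔ ∃ k, n + 1 = S g (k + 1) := by
  constructor
  · intro h
    have hex : ∃ k, n < S g (k + 1) := ⟨n, (Nat.lt_succ_self n).trans_le (S_mono g).le_apply⟩
    classical
    refine ⟨Nat.find hex, ?_⟩
    have h1 := Nat.find_spec hex
    have h2 : S g (Nat.find hex) ≤ n := by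
      rcases h3 : Nat.find hex with _ | k
      · simp [S]
      · have := Nat.find_min hex (m := k) (by omega)
        omega
    by_contra h4
    exact h ⟨_, h2, by omega⟩
  · rintro ⟨k, hk⟩ ⟨k', h1, h2⟩
    have e1 : S g (k + 1) < S g (k' + 1) := by omega
    have e2 := (S_mono g).lt_iff_lt.1 e1
    have e3 : S g (k + 1) ≤ S g k' := (S_mono g).monotone (by omega)
    omega

theorem X_compl_infinite (g : ℕ → ℕ) : (X g)ᶜ.Infinite := by
  refine infinite_of_forall_exists_gt fun a => ⟨S g (a + 2) - 1, ?_, ?_⟩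
  · have : a + 2 ≤ S g (a + 2) := (S_mono g).le_apply
    exact (not_mem_X g _).2 ⟨a + 1, by show _ = S g (a + 2); omega⟩
  · have : a + 2 ≤ S g (a + 2) := (S_mono g).le_apply
    omega

theorem exists_g (Y : ℕ → Set ℕ) (hY : ∀ k, (Y k).Infinite) :
    ∃ g, ∀ k, S g (k + 1) - 1 ∈ Y k := by
  choose c hc1 hc2 using fun k a => (hY k).exists_gt a
  let s : ℕ → ℕ := fun k => Nat.rec 0 (fun k a => c k a + 1) k
  have hs : ∀ k, s (k + 1) = c k (s k) + 1 := fun k => rfl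
  refine ⟨fun k => s (k + 1) - s k - 2, ?_⟩
  have : ∀ k, S (fun k => s (k + 1) - s k - 2) k = s k := by
    intro k
    induction k with
    | zero => rfl
    | succ k ih =>
      rw [S_succ, ih]
      have := hc2 k (s k)
      have := hs k
      omega
  intro k
  rw [this, hs]
  exact hc1 k _

theorem exists_ub (x : ℕ → Set ℕ) (hx : ∀ i, (x i)ᶜ.Infinite)
    (hc : ∀ i j, (x i \ x j).Finite ∨ (x j \ x i).Finite) : ∃ g, ∀ i, (x i \ X g).Finite := by
  have h1 : ∀ m, ∃ i0, ∀ i ≤ m, (x i \ x i0).Finite := by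
    intro m
    induction m with
    | zero => exact ⟨0, fun i hi => by rw [Nat.le_zero.1 hi]; simp⟩
    | succ m ih =>
      obtain ⟨i0, h⟩ := ih
      rcases hc i0 (m + 1) with h2 | h2
      · refine ⟨m + 1, fun i hi => ?_⟩
        rcases hi.lt_or_eq with hi | rfl
        · refine ((h i (by omega)).union h2).subset fun n hn => ?_
          by_cases hn0 : n ∈ x i0
          · exact Or.inr ⟨hn0, hn.2⟩
          · exact Or.inl ⟨hn.1, hn0⟩
        · simp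
      · refine ⟨i0, fun i hi => ?_⟩
        rcases hi.lt_or_eq with hi | rfl
        · exact h i (by omega)
        · exact h2
  obtain ⟨g, hg⟩ := exists_g (fun m => {n | ∀ i ≤ m, n ∉ x i}) (fun m => by
    obtain ⟨i0, h⟩ := h1 m
    have hf : (⋃ i ∈ Iic m, (x i \ x i0)).Finite := (finite_Iic m).biUnion h
    refine ((hx i0).sdiff hf).mono fun n hn i hi hni => hn.2 ?_
    exact mem_biUnion hi ⟨hni, hn.1⟩)
  refine ⟨g, fun i => ((finite_Iio i).image fun k => S g (k + 1) - 1).subset ?_⟩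
  rintro n ⟨hn1, hn2⟩
  obtain ⟨k, hk⟩ := (not_mem_X g n).1 hn2
  refine ⟨k, ?_, by simp only; omega⟩
  by_contra hki
  have := hg k i (not_lt.1 hki)
  rw [← hk] at this
  exact this hn1

theorem exists_gt (g : ℕ → ℕ) : ∃ g', X g ⊆ X g' ∧ (X g' \ X g).Infinite := by
  let g' : ℕ → ℕ := fun k => g (2 * k) + g (2 * k + 1) + 2
  have h : ∀ k, S g' k = S g (2 * k) := by
    intro k
    induction k with
    | zero => rfl
    | succ k ih =>
      rw [S_succ, ih, show 2 * (k + 1) = 2 * k + 1 + 1 by ring, S_succ, S_succ]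
      simp only [g']
      omega
  refine ⟨g', fun n hn => ?_, infinite_of_forall_exists_gt fun a => ⟨S g (2 * a + 3) - 1, ⟨?_, ?_⟩, ?_⟩⟩
  · by_contra hn'
    obtain ⟨k, hk⟩ := (not_mem_X g' n).1 hn'
    exact (not_mem_X g n).2 ⟨2 * k + 1, by rw [hk, h]; rfl⟩ hn
  · refine ⟨a + 1, ?_, ?_⟩
    · rw [h, show 2 * a + 3 = 2 * (a + 1) + 1 by ring, S_succ]
      omega
    · rw [h, show 2 * (a + 1 + 1) = 2 * a + 3 + 1 by ring, S_succ g (2 * a + 3)]
      have : 2 * a + 3 ≤ S g (2 * a + 3) := (S_mono g).le_apply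
      omega
  · have : 2 * a + 3 ≤ S g (2 * a + 3) := (S_mono g).le_apply
    exact (not_mem_X g _).2 ⟨2 * a + 2, by show _ = S g (2 * a + 3); omega⟩
  · have : 2 * a + 3 ≤ S g (2 * a + 3) := (S_mono g).le_apply
    omega

theorem emb_iff (hA : ∀ (n : ℕ) (G : ℕ → Set (ℝ × ℝ)), (∀ k, SG (G k)) →
      ¬ ∀ t ∈ A n, ∃ m, m ≠ n ∧ ∃ s ∈ A m, ∃ k, (t, s) ∈ G k) (g g' : ℕ → ℕ) :
    Nonempty (B A g ↪o B A g') ↔ (X g \ X g').Finite := by
  obtain ⟨e⟩ := iso (A := A) g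
  obtain ⟨e'⟩ := iso (A := A) g'
  constructor
  · rintro ⟨f⟩
    exact fin_of_emb hA ((e.symm.toOrderEmbedding.trans f).trans e'.toOrderEmbedding)
  · intro h
    obtain ⟨f⟩ := emb_L (A := A) h
    exact ⟨(e.toOrderEmbedding.trans f).trans e'.symm.toOrderEmbedding⟩

end Pool.Agent.H32.BrTree
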