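import Mathlib

set_option autoImplicit false

namespace Pool.Agent.H32.Cert

open Filter Topology ComplexConjugate
open scoped ComplexOrder InnerProductSpace Matrix

/-- positive semidefinite kernel -/
def PK {X : Type} (K : X → X → ℂ) : Prop := (Matrix.of K).PosSemidef

variable {X : Type}

theorem PK.congr {K L : X → X → ℂ} (h : PK K) (e : ∀ z w, L z w = K z w) : PK L := by
  have : L = K := funext fun z => funext fun w => e z w
  rwa [this]

theorem PK.add {K L : X → X → ℂ} (h : PK K) (h' : PK L) : PK fun z w => K z w + L z w :=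
  Matrix.PosSemidef.add h h'

theorem PK.mul {K L : X → X → ℂ} (h : PK K) (h' : PK L) : PK fun z w => K z w * L z w :=
  Matrix.PosSemidef.hadamard h h'

theorem PK.herm {K : X → X → ℂ} (h : PK K) (z w : X) : conj (K z w) = K w z :=
  h.isHermitian.apply w z

theorem quad {H G : Type} [NormedAddCommGroup H] [InnerProductSpace ℂ H] [NormedAddCommGroup G]
    [InnerProductSpace ℂ G] (W : X → H) (m : X → G) (a : X →₀ ℂ) :
    (a.sum fun i ai => a.sum fun j aj => star ai * (⟪W i, W j⟫_ℂ - ⟪m i, m j⟫_ℂ) * aj) =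
      ((‖Finsupp.linearCombination ℂ W a‖ ^ 2 - ‖Finsupp.linearCombination ℂ m a‖ ^ 2 : ℝ) : ℂ) := by
  have h1 := inner_self_eq_norm_sq_to_K (𝕜 := ℂ) (Finsupp.linearCombination ℂ W a)
  have h2 := inner_self_eq_norm_sq_to_K (𝕜 := ℂ) (Finsupp.linearCombination ℂ m a)
  push_cast
  erw [← h1, ← h2]
  simp only [Finsupp.linearCombination_apply, Finsupp.sum, sum_inner, inner_sum, inner_smul_left,
    inner_smul_right, ← Finset.sum_sub_distrib]
  rw [Finset.sum_comm]
  refine Finset.sum_congr rfl fun j _ => ?_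
  rw [Finset.mul_sum, Finset.mul_sum, ← Finset.sum_sub_distrib]
  refine Finset.sum_congr rfl fun i _ => ?_
  simp only [RCLike.star_def]; ring

theorem pk_iff {H G : Type} [NormedAddCommGroup H] [InnerProductSpace ℂ H] [NormedAddCommGroup G]
    [InnerProductSpace ℂ G] (W : X → H) (m : X → G) :
    PK (fun z w => ⟪W z, W w⟫_ℂ - ⟪m z, m w⟫_ℂ) ↔
      ∀ a, ‖Finsupp.linearCombination ℂ m a‖ ≤ ‖Finsupp.linearCombination ℂ W a‖ := by
  constructor
  · intro h a
    have := h.2 a
    simp only [Matrix.of_apply] at this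
    rw [quad, Complex.zero_le_real, sub_nonneg] at this
    exact (sq_le_sq₀ (norm_nonneg _) (norm_nonneg _)).mp this
  · intro h
    refine ⟨Matrix.IsHermitian.ext fun i j => by simp [inner_conj_symm], fun a => ?_⟩
    simp only [Matrix.of_apply]
    rw [quad, Complex.zero_le_real, sub_nonneg]
    exact (sq_le_sq₀ (norm_nonneg _) (norm_nonneg _)).mpr (h a)

theorem pk_dyad (d : X → ℂ) : PK fun z w => d z * conj (d w) := by
  have := (pk_iff (fun z => conj (d z)) (fun _ => (0 : ℂ))).mpr fun a => by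
    simp [Finsupp.linearCombination_apply, Finsupp.sum]
  refine this.congr fun z w => ?_
  simp [mul_comm]

theorem pk_const (t : ℝ) (ht : 0 ≤ t) : PK fun _ _ : X => (t : ℂ) := by
  refine (pk_dyad fun _ => (√t : ℂ)).congr fun z w => ?_
  rw [Complex.conj_ofReal, ← Complex.ofReal_mul, Real.mul_self_sqrt ht]

theorem pk_hasSum {K : ℕ → X → X → ℂ} {L : X → X → ℂ} (h : ∀ n, PK (K n))
    (hs : ∀ z w, HasSum (fun n => K n z w) (L z w)) : PK L := by
  refine ⟨Matrix.IsHermitian.ext fun i j => ?_, fun a => ?_⟩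
  · have h1 := (hs j i).star
    have h2 : (fun n => star (K n j i)) = fun n => K n i j := funext fun n => (h n).herm j i
    rw [h2] at h1
    exact h1.unique (hs i j)
  · have : HasSum (fun n => a.sum fun i ai => a.sum fun j aj => star ai * Matrix.of (K n) i j * aj)
        (a.sum fun i ai => a.sum fun j aj => star ai * Matrix.of L i j * aj) := by
      simp only [Finsupp.sum, Matrix.of_apply]
      exact hasSum_sum fun i _ => hasSum_sum fun j _ => ((hs i j).mul_left _).mul_right _
    exact this.nonneg fun n => (h n).2 a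

theorem douglas {H G : Type} [NormedAddCommGroup H] [InnerProductSpace ℂ H] [CompleteSpace H]
    [NormedAddCommGroup G] [InnerProductSpace ℂ G] [CompleteSpace G] (W : X → H) (m : X → G)
    (h : PK fun z w => ⟪W z, W w⟫_ℂ - ⟪m z, m w⟫_ℂ) :
    ∃ T : G →L[ℂ] H, (∀ c, ‖T c‖ ≤ ‖c‖) ∧ ∀ y c, ⟪W y, T c⟫_ℂ = ⟪m y, c⟫_ℂ := by
  rw [pk_iff] at h
  set S := Finsupp.linearCombination ℂ W
  set M := Finsupp.linearCombination ℂ m
  let K0 := (LinearMap.range S).topologicalClosure
  have : CompleteSpace K0 := (Submodule.isClosed_topologicalClosure _).completeSpace_coe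
  let e : (X →₀ ℂ) →ₗ[ℂ] K0 := S.codRestrict K0 fun a =>
    Submodule.le_topologicalClosure _ (LinearMap.mem_range_self _ _)
  have hd : DenseRange e := by
    intro x
    rw [closure_subtype]
    have : Subtype.val '' Set.range e = (LinearMap.range S : Set H) := by
      ext y; simp [e, ← Set.range_comp]
    rw [this]; exact x.2
  have hn : ∀ a, ‖M a‖ ≤ 1 * ‖e a‖ := fun a => by rw [one_mul]; exact h a
  let L := M.extendOfNorm e
  have hL : ‖L‖ ≤ 1 := LinearMap.opNorm_extendOfNorm_le hd zero_le_one hn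
  refine ⟨K0.subtypeL ∘L ContinuousLinearMap.adjoint L, fun c => ?_, fun y c => ?_⟩
  · have := (ContinuousLinearMap.adjoint L).le_opNorm c
    rw [LinearIsometryEquiv.norm_map] at this
    exact this.trans (by nlinarith [norm_nonneg c])
  · have h1 : W y = (e (Finsupp.single y 1) : H) := by simp [e, S]
    have h2 : L (e (Finsupp.single y 1)) = m y := by
      rw [LinearMap.extendOfNorm_eq hd ⟨1, hn⟩]; simp [M]
    rw [h1, ← h2, ← ContinuousLinearMap.adjoint_inner_right]
    rfl

/-- free space on `X` -/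
def Fr (_K : X → X → ℂ) : Type := X →₀ ℂ

noncomputable instance (K : X → X → ℂ) : AddCommGroup (Fr K) := inferInstanceAs (AddCommGroup (X →₀ ℂ))
noncomputable instance (K : X → X → ℂ) : Module ℂ (Fr K) := inferInstanceAs (Module ℂ (X →₀ ℂ))

/-- the form -/
noncomputable def frm (K : X → X → ℂ) (a b : X →₀ ℂ) : ℂ :=
  a.sum fun i ai => b.sum fun j bj => star ai * K i j * bj

/-- core -/
@[reducible] noncomputable def core (K : X → X → ℂ) (h : PK K) : PreInnerProductSpace.Core ℂ (Fr K) where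
  inner a b := frm K a b
  conj_inner_symm a b := by
    change conj (frm K b a) = frm K a b
    unfold frm
    rw [Finsupp.sum_comm]
    simp only [Finsupp.sum, map_sum, map_mul, h.herm, RCLike.star_def, Complex.conj_conj]
    refine Finset.sum_congr rfl fun i _ => Finset.sum_congr rfl fun j _ => by ring
  re_inner_nonneg a := (Complex.le_def.mp (h.2 a)).1
  add_left a b c := by
    have : ∀ a b c : X →₀ ℂ, frm K (a + b) c = frm K a c + frm K b c := fun a b c => by
      unfold frm
      rw [Finsupp.sum_add_index'] <;> simp [← Finsupp.sum_add, add_mul]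
    exact this a b c
  smul_left a b r := by
    have : ∀ a b : X →₀ ℂ, frm K (r • a) b = conj r * frm K a b := fun a b => by
      unfold frm
      rw [Finsupp.sum_smul_index] <;> simp [Finsupp.mul_sum, ← mul_assoc]
    exact this a b

theorem gram (K : X → X → ℂ) (h : PK K) : ∃ (E : Type) (_ : NormedAddCommGroup E)
    (_ : InnerProductSpace ℂ E) (_ : CompleteSpace E) (f : X → E), ∀ z w, K z w = ⟪f z, f w⟫_ℂ := by
  letI c := core K h
  letI : SeminormedAddCommGroup (Fr K) := InnerProductSpace.Core.toSeminormedAddCommGroup (𝕜 := ℂ)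
  letI : InnerProductSpace ℂ (Fr K) := .ofCore _
  refine ⟨UniformSpace.Completion (Fr K), inferInstance, inferInstance, inferInstance,
    fun z => ((show Fr K from Finsupp.single z 1 : Fr K) : UniformSpace.Completion (Fr K)),
    fun z w => ?_⟩
  rw [UniformSpace.Completion.inner_coe]
  change _ = frm K (Finsupp.single z 1) (Finsupp.single w 1)
  simp [frm]

theorem int_exp (m n : ℕ) : ∫ θ in (0 : ℝ)..2 * Real.pi,
    conj (Complex.exp (θ * Complex.I) ^ m) * Complex.exp (θ * Complex.I) ^ n =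
      if m = n then (2 * Real.pi : ℂ) else 0 := by
  have e : ∀ θ : ℝ, conj (Complex.exp (θ * Complex.I) ^ m) * Complex.exp (θ * Complex.I) ^ n =
      Complex.exp ((((n : ℤ) - m : ℤ) * Complex.I) * θ) := fun θ => by
    rw [map_pow, ← Complex.exp_conj, ← Complex.exp_nat_mul, ← Complex.exp_nat_mul, ← Complex.exp_add]
    congr 1
    simp only [map_mul, Complex.conj_ofReal, Complex.conj_I]; push_cast; ring
  simp only [e]
  split_ifs with h
  · simp [h]
  · have h0 : (((n : ℤ) - m : ℤ) : ℂ) ≠ 0 := by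
      rw [Int.cast_ne_zero]; omega
    rw [integral_exp_mul_complex (mul_ne_zero h0 Complex.I_ne_zero)]
    have := Complex.exp_int_mul_two_pi_mul_I ((n : ℤ) - m)
    rw [show (((n : ℤ) - m : ℤ) : ℂ) * Complex.I * ((2 * Real.pi : ℝ) : ℂ) =
      ((n : ℤ) - m : ℤ) * (2 * Real.pi * Complex.I) by push_cast; ring, this]
    simp

theorem nsq {E : Type} [NormedAddCommGroup E] [InnerProductSpace ℂ E] (v : E) :
    ⟪v, v⟫_ℂ = ((‖v‖ ^ 2 : ℝ) : ℂ) := by
  rw [inner_self_eq_norm_sq_to_K]; push_cast; rfl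

theorem parseval {E : Type} [NormedAddCommGroup E] [InnerProductSpace ℂ E] (a : ℕ → E) (M : ℕ) :
    ∫ θ in (0 : ℝ)..2 * Real.pi, ‖∑ n ∈ Finset.range M, Complex.exp (θ * Complex.I) ^ n • a n‖ ^ 2 =
      2 * Real.pi * ∑ n ∈ Finset.range M, ‖a n‖ ^ 2 := by
  apply Complex.ofReal_injective
  rw [← intervalIntegral.integral_ofReal]
  have e : ∀ θ : ℝ, ((‖∑ n ∈ Finset.range M, Complex.exp (θ * Complex.I) ^ n • a n‖ ^ 2 : ℝ) : ℂ) =
      ∑ m ∈ Finset.range M, ∑ n ∈ Finset.range M,
        conj (Complex.exp (θ * Complex.I) ^ m) * Complex.exp (θ * Complex.I) ^ n * ⟪a m, a n⟫_ℂ := by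
    intro θ
    rw [← nsq]
    simp only [sum_inner, inner_sum, inner_smul_left, inner_smul_right, Finset.mul_sum]
    rw [Finset.sum_comm]
    exact Finset.sum_congr rfl fun _ _ => Finset.sum_congr rfl fun _ _ => by ring
  simp only [e]
  rw [intervalIntegral.integral_finsetSum fun m _ => Continuous.intervalIntegrable (by fun_prop) _ _]
  push_cast
  rw [Finset.mul_sum]
  refine Finset.sum_congr rfl fun m hm => ?_
  rw [intervalIntegral.integral_finsetSum fun m _ => Continuous.intervalIntegrable (by fun_prop) _ _]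
  simp only [intervalIntegral.integral_mul_const, int_exp, ite_mul, zero_mul, Finset.sum_ite_eq, hm,
    if_true]
  erw [inner_self_eq_norm_sq_to_K]
  rfl

theorem circle_le {E : Type} [NormedAddCommGroup E] [InnerProductSpace ℂ E] [CompleteSpace E]
    (a : ℕ → E) (ha : Summable fun n => ‖a n‖) (c : ℕ → ℂ) (B : ℝ)
    (hB : ∀ᶠ M in atTop, ∑ n ∈ Finset.range M, ‖a n‖ ^ 2 ≤ B)
    (h : ∀ θ : ℝ, ‖c 0 + Complex.exp (θ * Complex.I) * c 1‖ ≤
      ‖∑' n, Complex.exp (θ * Complex.I) ^ n • a n‖) : ‖c 0‖ ^ 2 + ‖c 1‖ ^ 2 ≤ B := by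
  set A := ∑' n, ‖a n‖
  let τ : ℕ → ℝ := fun M => ∑' n, ‖a (n + M)‖
  have hτ : Tendsto τ atTop (𝓝 0) := tendsto_sum_nat_add fun n => ‖a n‖
  have hlim : Tendsto (fun M => B + (2 * A * τ M + τ M ^ 2)) atTop (𝓝 (B + (2 * A * 0 + 0 ^ 2))) :=
    tendsto_const_nhds.add ((hτ.const_mul _).add (hτ.pow 2))
  rw [mul_zero, zero_pow two_ne_zero, add_zero, add_zero] at hlim
  refine ge_of_tendsto hlim (hB.mono fun M hM => ?_)
  have hn : ∀ (θ : ℝ) n, ‖Complex.exp (θ * Complex.I) ^ n • a n‖ = ‖a n‖ := fun θ n => by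
    rw [norm_smul, norm_pow, Complex.norm_exp_ofReal_mul_I, one_pow, one_mul]
  have hp : ∀ θ : ℝ, ‖∑ n ∈ Finset.range 2, Complex.exp (θ * Complex.I) ^ n • c n‖ ^ 2 ≤
      ‖∑ n ∈ Finset.range M, Complex.exp (θ * Complex.I) ^ n • a n‖ ^ 2 + (2 * A * τ M + τ M ^ 2) := by
    intro θ
    have hs : Summable fun n => Complex.exp (θ * Complex.I) ^ n • a n :=
      Summable.of_norm (by simpa only [hn] using ha)
    have h1 := h θ
    rw [← hs.sum_add_tsum_nat_add M] at h1
    have h2 : ‖∑' n, Complex.exp (θ * Complex.I) ^ (n + M) • a (n + M)‖ ≤ τ M :=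
      tsum_of_norm_bounded ((summable_nat_add_iff M).mpr ha).hasSum fun n => (hn θ _).le
    have h3 : ‖∑ n ∈ Finset.range M, Complex.exp (θ * Complex.I) ^ n • a n‖ ≤ A :=
      (norm_sum_le _ _).trans (by
        simp only [hn]; exact ha.sum_le_tsum _ fun _ _ => norm_nonneg _)
    have h4 := h1.trans (norm_add_le _ _)
    have h5 : 0 ≤ τ M := tsum_nonneg fun _ => norm_nonneg _
    have e : ∑ n ∈ Finset.range 2, Complex.exp (θ * Complex.I) ^ n • c n =
        c 0 + Complex.exp (θ * Complex.I) * c 1 := by simp [Finset.sum_range_succ]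
    rw [e]
    have h6 := pow_le_pow_left₀ (norm_nonneg _) (h4.trans (add_le_add_right h2 _)) 2
    nlinarith
  have hi := intervalIntegral.integral_mono_on (μ := MeasureTheory.volume) (a := 0) (b := 2 * Real.pi)
    (by positivity) (Continuous.intervalIntegrable (by fun_prop) _ _)
    (Continuous.intervalIntegrable (by fun_prop) _ _) fun θ _ => hp θ
  rw [intervalIntegral.integral_add (Continuous.intervalIntegrable (by fun_prop) _ _)
    (Continuous.intervalIntegrable (by fun_prop) _ _), parseval, parseval] at hi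
  simp only [intervalIntegral.integral_const, sub_zero, smul_eq_mul, Finset.sum_range_succ,
    Finset.range_zero, Finset.sum_empty, zero_add] at hi
  have hpi := Real.pi_pos
  by_contra hc
  push Not at hc
  nlinarith

end Pool.Agent.H32.Cert
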