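import Mathlib
import Pool.Agent.H32.CertA

set_option autoImplicit false

namespace Pool.Agent.H32.Cert

open Filter Topology ComplexConjugate
open scoped ComplexOrder InnerProductSpace Matrix

/-- the disc -/
abbrev D : Type := {z : ℂ // ‖z‖ < 1 / √2}

theorem s2 : (1 : ℝ) < √2 := by rw [Real.lt_sqrt zero_le_one]; norm_num

theorem D.lt (z : D) : ‖z.1‖ < 1 := z.2.trans (by rw [div_lt_one (by linarith [s2])]; exact s2)

theorem D.mul_lt (z w : D) : ‖z.1 * conj w.1‖ < 1 := by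
  rw [norm_mul, Complex.norm_conj]
  exact mul_lt_one_of_nonneg_of_lt_one_left (norm_nonneg _) z.lt w.lt.le

theorem D.mul_lt' (z w : D) : ‖2 * z.1 * conj w.1‖ < 1 := by
  rw [norm_mul, norm_mul, Complex.norm_conj, Complex.norm_two]
  have h1 := z.2
  have h2 := w.2
  have h0 : (0 : ℝ) < √2 := by positivity
  rw [lt_div_iff₀ h0] at h1 h2
  have h3 : √2 * √2 = 2 := Real.mul_self_sqrt zero_le_two
  have := mul_lt_one_of_nonneg_of_lt_one_left (by positivity) h1 h2.le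
  nlinarith

theorem hs_congr {f g : ℕ → ℂ} {a : ℂ} (h : HasSum f a) (e : ∀ n, g n = f n) :
    HasSum g a := by
  rw [show g = f from funext e]; exact h

theorem hb {u : ℂ} (hu : ‖u‖ < 1) : HasSum (fun n : ℕ => ((n : ℂ) + 1) * u ^ n) ((1 - u) ^ 2)⁻¹ := by
  have := hasSum_choose_mul_geometric_of_norm_lt_one 1 hu
  simpa using this

theorem hbr {u : ℝ} (hu : ‖u‖ < 1) : Summable (fun n : ℕ => ((n : ℝ) + 1) * u ^ n) := by
  have := (hasSum_choose_mul_geometric_of_norm_lt_one 1 hu).summable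
  simpa using this

theorem pk_pow (a : ℝ) (ha : 0 ≤ a) (n : ℕ) : PK fun z w : D => (a : ℂ) * (z.1 * conj w.1) ^ n :=
  ((pk_const a ha).mul (pk_dyad fun z : D => z.1 ^ n)).congr fun z w => by rw [map_pow, mul_pow]

theorem pk_b : PK fun z w : D => ((1 - z.1 * conj w.1) ^ 2)⁻¹ :=
  pk_hasSum (fun n => pk_pow ((n : ℝ) + 1) (by positivity) n) fun z w => by
    simpa using hb (z.mul_lt w)

theorem pk_b2 : PK fun z w : D => ((1 - z.1 * conj w.1) ^ 2)⁻¹ - (1 + 2 * (z.1 * conj w.1)) :=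
  pk_hasSum (fun n => pk_pow (((n + 2 : ℕ) : ℝ) + 1) (by positivity) (n + 2)) fun z w => by
    have := (hasSum_nat_add_iff' 2).mpr (hb (z.mul_lt w))
    simp only [Finset.sum_range_succ, Finset.range_zero, Finset.sum_empty] at this
    simpa [one_add_one_eq_two] using this

theorem pk_s : PK fun z w : D => (1 - 2 * z.1 * conj w.1)⁻¹ :=
  pk_hasSum (fun n => pk_pow (2 ^ n) (by positivity) n) fun z w => by
    have := hasSum_geometric_of_norm_lt_one (z.mul_lt' w)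
    simpa [mul_pow, mul_assoc] using this

theorem coef (n : ℕ) : (n : ℝ) + 1 ≤ 2 ^ n ∧ (2 ≤ n → (n : ℝ) + 1 ≤ 3 / 4 * 2 ^ n) := by
  refine ⟨by exact_mod_cast Nat.lt_two_pow_self, fun hn => ?_⟩
  induction n, hn using Nat.le_induction with
  | base => norm_num
  | succ k hk ih =>
    have : (0 : ℝ) ≤ k := by positivity
    push_cast; rw [pow_succ]; linarith

theorem key1 {E : Type} [NormedAddCommGroup E] [InnerProductSpace ℂ E] [CompleteSpace E]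
    (f : D → E) (δ : D → ℂ) (h : D → D → ℂ) (hh : PK h)
    (e : ∀ z w : D, ((1 - z.1 * conj w.1) ^ 2)⁻¹ * (1 - ⟪f z, f w⟫_ℂ) = (1 - h z w) * (δ z * conj (δ w))) :
    ∃ (Φ : lp (fun _ : ℕ => E) 2) (c0 c1 : ℂ), (c0 ≠ 0 ∨ c1 ≠ 0) ∧ ‖Φ‖ ^ 2 ≤ ‖c0‖ ^ 2 + ‖c1‖ ^ 2 ∧
      ∀ y : D, HasSum (fun n : ℕ => (√(n + 1) : ℂ) * y.1 ^ n * ⟪f y, Φ n⟫_ℂ) (c0 + √2 * y.1 * c1) := by
  have hsq : ∀ n : ℕ, ((√(n + 1) : ℝ) : ℂ) * (√(n + 1) : ℝ) = (n : ℂ) + 1 := fun n => by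
    rw [← Complex.ofReal_mul, Real.mul_self_sqrt (by positivity)]; push_cast; rfl
  let U : D → lp (fun _ : ℕ => E) 2 := fun z =>
    ⟨fun n => ((√(n + 1) : ℂ) * conj z.1 ^ n) • f z, memℓp_gen (by
      have h1 : ‖‖z.1‖ ^ 2‖ < 1 := by
        rw [norm_pow, norm_norm]; exact pow_lt_one₀ (norm_nonneg _) z.lt two_ne_zero
      refine ((hbr h1).mul_right (‖f z‖ ^ 2)).congr fun n => ?_
      rw [ENNReal.toReal_ofNat, Real.rpow_two, norm_smul, norm_mul, norm_pow, Complex.norm_conj,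
        Complex.norm_real, Real.norm_of_nonneg (Real.sqrt_nonneg _), mul_pow, mul_pow,
        Real.sq_sqrt (by positivity)]
      ring)⟩
  have hU : ∀ z n, U z n = ((√(n + 1) : ℂ) * conj z.1 ^ n) • f z := fun _ _ => rfl
  have hUU : ∀ z w, ⟪U z, U w⟫_ℂ = ((1 - z.1 * conj w.1) ^ 2)⁻¹ * ⟪f z, f w⟫_ℂ := fun z w => by
    refine (lp.hasSum_inner (U z) (U w)).unique ?_
    have := (hb (z.mul_lt w)).mul_right ⟪f z, f w⟫_ℂ
    refine hs_congr this fun n => ?_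
    rw [hU, hU, inner_smul_left, inner_smul_right, ← hsq]
    simp only [map_mul, map_pow, Complex.conj_ofReal, Complex.conj_conj]
    ring
  let W : D → WithLp 2 (lp (fun _ : ℕ => E) 2 × ℂ) := fun z => WithLp.toLp 2 (U z, conj (δ z))
  let m : D → WithLp 2 (ℂ × ℂ) := fun z => WithLp.toLp 2 (1, √2 * conj z.1)
  have h2 : ((√2 : ℝ) : ℂ) * (√2 : ℝ) = 2 := by
    rw [← Complex.ofReal_mul, Real.mul_self_sqrt zero_le_two]; rfl
  obtain ⟨T, hT, hT'⟩ := douglas W m ((pk_b2.add (hh.mul (pk_dyad δ))).congr fun z w => by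
    simp only [W, m, WithLp.prod_inner_apply, hUU, RCLike.inner_apply, map_mul, Complex.conj_conj,
      Complex.conj_ofReal, map_one]
    linear_combination -e z w - z.1 * conj w.1 * h2)
  obtain ⟨c, hc, hc0⟩ : ∃ c : WithLp 2 (ℂ × ℂ), (c.fst ≠ 0 ∨ c.snd ≠ 0) ∧ (T c).snd = 0 := by
    by_cases h0 : (T (WithLp.toLp 2 (1, 0))).snd = 0
    · exact ⟨_, Or.inl one_ne_zero, h0⟩
    · refine ⟨(T (WithLp.toLp 2 (0, 1))).snd • WithLp.toLp 2 (1, 0) -
        (T (WithLp.toLp 2 (1, 0))).snd • WithLp.toLp 2 (0, 1), Or.inr (by simpa using h0), ?_⟩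
      rw [map_sub, map_smul, map_smul]
      simp [mul_comm]
  refine ⟨(T c).fst, c.fst, c.snd, hc, ?_, fun y => ?_⟩
  · rw [← WithLp.prod_norm_sq_eq_of_L2]
    exact pow_le_pow_left₀ (norm_nonneg _) ((WithLp.norm_fst_le _ _).trans (hT c)) 2
  · have h1 := hT' y c
    simp only [W, m, WithLp.prod_inner_apply, RCLike.inner_apply, map_mul, Complex.conj_conj,
      Complex.conj_ofReal, map_one] at h1
    have h3 : (T c).ofLp.2 = 0 := hc0
    rw [h3, zero_mul, add_zero] at h1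
    have h4 := lp.hasSum_inner (𝕜 := ℂ) (U y) (T c).ofLp.1
    rw [h1] at h4
    have e1 : c.ofLp.1 * 1 + c.ofLp.2 * (↑√2 * ↑y) = c.fst + ↑√2 * ↑y * c.snd := by
      change _ = c.ofLp.1 + ↑√2 * ↑y * c.ofLp.2
      ring
    rw [e1] at h4
    refine hs_congr h4 fun n => ?_
    rw [hU, inner_smul_left]
    simp only [map_mul, map_pow, Complex.conj_ofReal, Complex.conj_conj]
    rfl

theorem lim1 {g : ℝ → ℝ} (hg : Continuous g) (h : ∀ r, 0 < r → r < 1 → 0 ≤ g r) : 0 ≤ g 1 := by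
  have h1 : Tendsto g (𝓝[<] 1) (𝓝 (g 1)) := hg.continuousAt.tendsto.mono_left nhdsWithin_le_nhds
  refine ge_of_tendsto h1 ?_
  filter_upwards [Ioo_mem_nhdsLT one_pos] with r hr using h r hr.1 hr.2

/-- point of the disc -/
noncomputable def pt (ζ : ℂ) (h : ‖ζ‖ < 1) : D := ⟨ζ / √2, by
  rw [norm_div, Complex.norm_real, Real.norm_of_nonneg (Real.sqrt_nonneg _)]
  exact div_lt_div_of_pos_right h (by positivity)⟩

theorem pt_mul (ζ : ℂ) (h : ‖ζ‖ < 1) : ((√2 : ℝ) : ℂ) * (pt ζ h).1 = ζ := by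
  have : ((√2 : ℝ) : ℂ) ≠ 0 := by exact_mod_cast (by positivity : √2 ≠ 0)
  simp only [pt]; field_simp

theorem key2 {E : Type} [NormedAddCommGroup E] [InnerProductSpace ℂ E] [CompleteSpace E]
    (f : D → E) (hf : ∀ z, ‖f z‖ < 1) (Φ : lp (fun _ : ℕ => E) 2) (c0 c1 : ℂ)
    (hΦ : ‖Φ‖ ^ 2 ≤ ‖c0‖ ^ 2 + ‖c1‖ ^ 2)
    (H : ∀ y : D, HasSum (fun n : ℕ => (√(n + 1) : ℂ) * y.1 ^ n * ⟪f y, Φ n⟫_ℂ) (c0 + √2 * y.1 * c1))
    (k : ℕ) (hk : 2 ≤ k) : Φ k = 0 := by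
  have hsum : ∀ M, ∑ n ∈ Finset.range M, ‖Φ n‖ ^ 2 ≤ ‖Φ‖ ^ 2 := fun M => by
    have := lp.sum_rpow_le_norm_rpow (p := 2) (by simp) Φ (Finset.range M)
    simpa using this
  have main : ∀ r : ℝ, 0 < r → r < 1 →
      0 ≤ ‖Φ‖ ^ 2 - ‖Φ k‖ ^ 2 / 4 - (‖c0‖ ^ 2 + r ^ 2 * ‖c1‖ ^ 2) := by
    intro r hr0 hr1
    have h0 : (0 : ℝ) < √2 := by positivity
    let a : ℕ → E := fun n => ((√(n + 1) : ℂ) * ((r / √2 : ℝ) : ℂ) ^ n) • Φ n
    have hna : ∀ n, ‖a n‖ = √(n + 1) * (r / √2) ^ n * ‖Φ n‖ := fun n => by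
      simp only [a]
      rw [norm_smul, norm_mul, norm_pow, Complex.norm_real, Complex.norm_real,
        Real.norm_of_nonneg (Real.sqrt_nonneg _), Real.norm_of_nonneg (by positivity)]
    have hr2 : ‖r / √2‖ < 1 := by
      rw [Real.norm_of_nonneg (by positivity), div_lt_one h0]; linarith [s2]
    have ha : Summable fun n => ‖a n‖ := by
      refine ((hbr hr2).mul_right ‖Φ‖).of_nonneg_of_le (fun _ => norm_nonneg _) fun n => ?_
      rw [hna]
      have h1 : √((n : ℝ) + 1) ≤ n + 1 := by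
        rw [Real.sqrt_le_left (by positivity)]; nlinarith [(Nat.cast_nonneg n : (0 : ℝ) ≤ n)]
      have h2 := lp.norm_apply_le_norm two_ne_zero Φ n
      gcongr
    have := circle_le a ha (fun n => if n = 0 then c0 else r * c1) (‖Φ‖ ^ 2 - ‖Φ k‖ ^ 2 / 4) ?_ ?_
    · simp only [if_true, one_ne_zero, if_false, norm_mul, Complex.norm_real,
        Real.norm_of_nonneg hr0.le, mul_pow] at this
      linarith
    · filter_upwards [eventually_gt_atTop k] with M hM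
      have h1 : ∀ n ∈ Finset.range M, ‖a n‖ ^ 2 ≤ ‖Φ n‖ ^ 2 - if n = k then ‖Φ k‖ ^ 2 / 4 else 0 := by
        intro n _
        have e1 : ‖a n‖ ^ 2 = (n + 1) / 2 ^ n * (r ^ 2) ^ n * ‖Φ n‖ ^ 2 := by
          rw [hna, mul_pow, mul_pow, Real.sq_sqrt (by positivity), ← pow_mul, mul_comm n 2, pow_mul,
            div_pow, Real.sq_sqrt zero_le_two, div_pow]
          ring
        have e2 : (r ^ 2) ^ n ≤ 1 := pow_le_one₀ (by positivity) (by nlinarith)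
        have e3 : ‖a n‖ ^ 2 ≤ (n + 1) / 2 ^ n * ‖Φ n‖ ^ 2 := by
          rw [e1, mul_assoc]
          exact mul_le_mul_of_nonneg_left (by nlinarith [sq_nonneg ‖Φ n‖]) (by positivity)
        split_ifs with hn
        · subst hn
          have : ((n : ℝ) + 1) / 2 ^ n ≤ 3 / 4 := by
            rw [div_le_iff₀ (by positivity)]; exact (coef n).2 hk
          nlinarith [sq_nonneg ‖Φ n‖]
        · have : ((n : ℝ) + 1) / 2 ^ n ≤ 1 := by
            rw [div_le_one (by positivity)]; exact (coef n).1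
          nlinarith [sq_nonneg ‖Φ n‖]
      have h2 := Finset.sum_le_sum h1
      rw [Finset.sum_sub_distrib, Finset.sum_ite_eq', if_pos (Finset.mem_range.mpr hM)] at h2
      linarith [hsum M]
    · intro θ
      have hζ : ‖Complex.exp (θ * Complex.I) * r‖ < 1 := by
        rwa [norm_mul, Complex.norm_exp_ofReal_mul_I, one_mul, Complex.norm_real,
          Real.norm_of_nonneg hr0.le]
      set y := pt _ hζ with hy
      have h1 := H y
      rw [pt_mul] at h1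
      have hn : ∀ n, ‖Complex.exp (θ * Complex.I) ^ n • a n‖ = ‖a n‖ := fun n => by
        rw [norm_smul, norm_pow, Complex.norm_exp_ofReal_mul_I, one_pow, one_mul]
      have hs : Summable fun n => Complex.exp (θ * Complex.I) ^ n • a n :=
        Summable.of_norm (by simpa only [hn] using ha)
      have h2 := (innerSL ℂ (f y)).hasSum hs.hasSum
      have e1 : (fun n => innerSL ℂ (f y) (Complex.exp (θ * Complex.I) ^ n • a n)) =
          fun n : ℕ => (√(n + 1) : ℂ) * y.1 ^ n * ⟪f y, Φ n⟫_ℂ := by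
        funext n
        have : y.1 = Complex.exp (θ * Complex.I) * ((r / √2 : ℝ) : ℂ) := by
          simp only [hy, pt]; push_cast; ring
        simp only [a, innerSL_apply_apply, inner_smul_right, this]
        ring
      rw [e1] at h2
      have h3 := h1.unique h2
      simp only [if_true, one_ne_zero, if_false]
      rw [← mul_assoc, h3, innerSL_apply_apply]
      refine (norm_inner_le_norm _ _).trans ?_
      nlinarith [hf y, norm_nonneg (∑' n, Complex.exp (θ * Complex.I) ^ n • a n)]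
  have := lim1 (g := fun r => ‖Φ‖ ^ 2 - ‖Φ k‖ ^ 2 / 4 - (‖c0‖ ^ 2 + r ^ 2 * ‖c1‖ ^ 2))
    (by fun_prop) main
  have h3 : ‖Φ k‖ ^ 2 ≤ 0 := by linarith
  exact norm_eq_zero.mp (pow_eq_zero_iff two_ne_zero |>.mp (le_antisymm h3 (sq_nonneg _)))

theorem key3 {E : Type} [NormedAddCommGroup E] [InnerProductSpace ℂ E] [CompleteSpace E]
    (f : D → E) (hf : ∀ z, ‖f z‖ < 1) (δ : D → ℂ) (h : D → D → ℂ) (hh : PK h)
    (e : ∀ z w : D, ((1 - z.1 * conj w.1) ^ 2)⁻¹ * (1 - ⟪f z, f w⟫_ℂ) = (1 - h z w) * (δ z * conj (δ w))) :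
    ∃ (P0 P1 : E) (c0 c1 : ℂ) (t : ℝ), 0 < t ∧ ‖P0‖ ^ 2 = ‖c0‖ ^ 2 + t ∧ ‖P1‖ ^ 2 = ‖c1‖ ^ 2 - t ∧
      ⟪P0, P1⟫_ℂ = conj c0 * c1 ∧
      ∀ y : D, c0 + √2 * y.1 * c1 = ⟪f y, P0⟫_ℂ + √2 * y.1 * ⟪f y, P1⟫_ℂ := by
  obtain ⟨Φ, c0, c1, hc, hΦ, H⟩ := key1 f δ h hh e
  have hz := key2 f hf Φ c0 c1 hΦ H
  have rel : ∀ y : D, c0 + √2 * y.1 * c1 = ⟪f y, Φ 0⟫_ℂ + √2 * y.1 * ⟪f y, Φ 1⟫_ℂ := fun y => by
    have h1 := hasSum_sum_of_ne_finset_zero (s := Finset.range 2)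
      (f := fun n : ℕ => (√(n + 1) : ℂ) * y.1 ^ n * ⟪f y, Φ n⟫_ℂ) (L := .unconditional ℕ) fun n hn => by
        rw [hz n (by rw [Finset.mem_range] at hn; omega), inner_zero_right, mul_zero]
    rw [(H y).unique h1]
    simp [Finset.sum_range_succ, one_add_one_eq_two]
  have h01 : ‖Φ 0‖ ^ 2 + ‖Φ 1‖ ^ 2 ≤ ‖c0‖ ^ 2 + ‖c1‖ ^ 2 := by
    have := lp.sum_rpow_le_norm_rpow (p := 2) (by simp) Φ (Finset.range 2)
    simp only [Finset.sum_range_succ, Finset.range_zero, Finset.sum_empty, zero_add,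
      ENNReal.toReal_ofNat, Real.rpow_two] at this
    linarith
  have hin : ∀ ζ : ℂ, ‖ζ‖ < 1 → ‖c0 + ζ • c1‖ ≤ ‖Φ 0 + ζ • Φ 1‖ := fun ζ hζ => by
    have h1 := rel (pt ζ hζ)
    rw [pt_mul, ← inner_smul_right, ← inner_add_right] at h1
    rw [smul_eq_mul, h1]
    refine (norm_inner_le_norm _ _).trans ?_
    nlinarith [hf (pt ζ hζ), norm_nonneg (Φ 0 + ζ • Φ 1)]
  have hbd : ∀ ζ : ℂ, ‖ζ‖ = 1 → 0 ≤ ‖Φ 0‖ ^ 2 + ‖Φ 1‖ ^ 2 - (‖c0‖ ^ 2 + ‖c1‖ ^ 2) +
      2 * (ζ * (⟪Φ 0, Φ 1⟫_ℂ - conj c0 * c1)).re := fun ζ hζ => by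
    have h1 := lim1 (g := fun r => ‖Φ 0 + ((r : ℂ) * ζ) • Φ 1‖ - ‖c0 + ((r : ℂ) * ζ) • c1‖)
      (by fun_prop) fun r hr0 hr1 => sub_nonneg.mpr (hin _ (by
        rwa [norm_mul, hζ, mul_one, Complex.norm_real, Real.norm_of_nonneg hr0.le]))
    simp only [Complex.ofReal_one, one_mul, sub_nonneg] at h1
    have h2 := pow_le_pow_left₀ (norm_nonneg _) h1 2
    rw [norm_add_sq (𝕜 := ℂ), norm_add_sq (𝕜 := ℂ), norm_smul, norm_smul, hζ, inner_smul_right,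
      inner_smul_right, RCLike.inner_apply, mul_comm c1] at h2
    rw [mul_sub, Complex.sub_re]
    simp only [RCLike.re_to_complex] at h2
    linarith
  set κ := ⟪Φ 0, Φ 1⟫_ℂ - conj c0 * c1 with hκ
  have a1 := hbd 1 (by simp)
  have a2 := hbd (-1) (by simp)
  have a3 := hbd Complex.I (by simp)
  have a4 := hbd (-Complex.I) (by simp)
  simp only [one_mul, neg_mul, Complex.neg_re, Complex.I_mul_re] at a1 a2 a3 a4
  have hκ0 : κ = 0 := Complex.ext (by simp only [Complex.zero_re]; linarith)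
    (by simp only [Complex.zero_im]; linarith)
  have heq : ‖Φ 0‖ ^ 2 + ‖Φ 1‖ ^ 2 = ‖c0‖ ^ 2 + ‖c1‖ ^ 2 := by linarith
  refine ⟨Φ 0, Φ 1, c0, c1, ‖Φ 0‖ ^ 2 - ‖c0‖ ^ 2, ?_, by ring, by linarith, sub_eq_zero.mp hκ0, rel⟩
  have hlt : ∀ (y : D) (v : E) (c : ℂ), c = ⟪f y, v⟫_ℂ → v ≠ 0 → ‖c‖ ^ 2 < ‖v‖ ^ 2 := by
    intro y v c hc hv
    have h1 := norm_inner_le_norm (𝕜 := ℂ) (f y) v
    have h2 := norm_pos_iff.mpr hv
    rw [← hc] at h1
    exact pow_lt_pow_left₀ (by nlinarith [hf y]) (norm_nonneg _) two_ne_zero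
  have r0 := rel (pt 0 (by simp))
  rw [pt_mul, zero_mul, zero_mul, add_zero, add_zero] at r0
  by_cases h0 : Φ 0 = 0
  · exfalso
    have hc0 : c0 = 0 := by rw [r0, h0, inner_zero_right]
    have r1 := rel (pt (1 / 2) (by norm_num))
    rw [pt_mul, hc0, h0, inner_zero_right, zero_add, zero_add] at r1
    have r2 := mul_left_cancel₀ (by norm_num) r1
    rw [h0, hc0, norm_zero, norm_zero] at heq
    have hc1 : c1 ≠ 0 := hc.resolve_left (not_not.mpr hc0)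
    have : Φ 1 ≠ 0 := fun h1 => hc1 (by rw [r2, h1, inner_zero_right])
    have := hlt _ _ _ r2 this
    linarith
  · exact sub_pos.mpr (hlt _ _ _ r0 h0)

theorem main (F : D → D → ℂ) (hF : PK F) (hF1 : ∀ x, (F x x).re < 1) (δ : D → ℂ)
    (s h : D → D → ℂ) (hs : PK s) (hh : PK h) (hs0 : ∀ z w, s z w ≠ 0)
    (e1 : ∀ z w, s z w = δ z * conj (δ w) / (1 - F z w))
    (e2 : ∀ z w : D, ((1 - z.1 * conj w.1) ^ 2)⁻¹ = (1 - h z w) * s z w) :
    PK fun z w : D => s z w / (1 - 2 * z.1 * conj w.1)⁻¹ := by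
  obtain ⟨E, _, _, _, f, hf⟩ := gram F hF
  have hf1 : ∀ z, ‖f z‖ < 1 := fun z => by
    have := hF1 z
    rw [hf, nsq, Complex.ofReal_re] at this
    nlinarith [norm_nonneg (f z)]
  have hne : ∀ z w, 1 - F z w ≠ 0 := fun z w h0 => hs0 z w (by rw [e1, h0, div_zero])
  obtain ⟨P0, P1, c0, c1, t, ht, n0, n1, n01, rel⟩ := key3 f hf1 δ h hh fun z w => by
    rw [e2, e1, ← hf, mul_assoc, div_mul_cancel₀ _ (hne z w)]
  have htc : (t : ℂ) ≠ 0 := by exact_mod_cast ht.ne'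
  have hP1 : ‖P1‖ < ‖c1‖ := lt_of_pow_lt_pow_left₀ 2 (norm_nonneg _) (by linarith)
  have hc1 : 0 < ‖c1‖ := (norm_nonneg _).trans_lt hP1
  have i00 : ⟪P0, P0⟫_ℂ = conj c0 * c0 + t := by
    rw [nsq, n0, Complex.conj_mul']; push_cast; rfl
  have i11 : ⟪P1, P1⟫_ℂ = conj c1 * c1 - t := by
    rw [nsq, n1, Complex.conj_mul']; push_cast; rfl
  have i10 : ⟪P1, P0⟫_ℂ = conj c1 * c0 := by
    rw [← inner_conj_symm, n01, map_mul, Complex.conj_conj, mul_comm]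
  let a1 : D → ℂ := fun z => conj c1 - ⟪P1, f z⟫_ℂ
  let a0 : D → ℂ := fun z => conj c0 - ⟪P0, f z⟫_ℂ
  let ρ : D → E := fun z => f z - (a1 z / t) • P1 + (a0 z / t) • P0
  let γ : D → ℂ := fun z => 1 - (a1 z / t) * c1 + (a0 z / t) * c0
  have hγ : ∀ z, conj c1 * γ z = ⟪P1, ρ z⟫_ℂ := fun z => by
    simp only [ρ, γ, inner_add_right, inner_sub_right, inner_smul_right, i11, i10, a1]
    field_simp; ring
  have hR : PK fun z w => ⟪ρ z, ρ w⟫_ℂ - ⟪γ z, γ w⟫_ℂ := by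
    rw [pk_iff]
    intro a
    have h1 : conj c1 * Finsupp.linearCombination ℂ γ a = ⟪P1, Finsupp.linearCombination ℂ ρ a⟫_ℂ := by
      simp only [Finsupp.linearCombination_apply, Finsupp.sum, inner_sum, inner_smul_right, ← hγ,
        Finset.mul_sum, smul_eq_mul]
      exact Finset.sum_congr rfl fun _ _ => by ring
    have h2 := norm_inner_le_norm (𝕜 := ℂ) P1 (Finsupp.linearCombination ℂ ρ a)
    rw [← h1, norm_mul, Complex.norm_conj] at h2
    have h3 := h2.trans (mul_le_mul_of_nonneg_right hP1.le (norm_nonneg _))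
    exact le_of_mul_le_mul_left h3 hc1
  have ha1 : ∀ z, a1 z ≠ 0 := fun z h0 => by
    have h1 : conj c1 = ⟪P1, f z⟫_ℂ := sub_eq_zero.mp h0
    have h2 := norm_inner_le_norm (𝕜 := ℂ) P1 (f z)
    rw [← h1, Complex.norm_conj] at h2
    nlinarith [hf1 z, norm_nonneg P1]
  have h2 : ((√2 : ℝ) : ℂ) * (√2 : ℝ) = 2 := by
    rw [← Complex.ofReal_mul, Real.mul_self_sqrt zero_le_two]; rfl
  have ca1 : ∀ z, conj (a1 z) = c1 - ⟪f z, P1⟫_ℂ := fun z => by simp [a1]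
  have ca0 : ∀ z, conj (a0 z) = c0 - ⟪f z, P0⟫_ℂ := fun z => by simp [a0]
  have hrel : ∀ z, conj (a0 z) = -(√2 * z.1) * conj (a1 z) := fun z => by
    rw [ca1, ca0]; linear_combination rel z
  have hrel' : ∀ z, a0 z = -(√2 * conj z.1) * a1 z := fun z => by
    have := congrArg conj (hrel z)
    simpa using this
  have hid : ∀ z w, ⟪ρ z, ρ w⟫_ℂ - ⟪γ z, γ w⟫_ℂ =
      (conj (a1 z) * a1 w - conj (a0 z) * a0 w) / t - (1 - F z w) := fun z w => by
    have b1 : ⟪f z, P1⟫_ℂ = c1 - conj (a1 z) := by rw [ca1]; ring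
    have b0 : ⟪f z, P0⟫_ℂ = c0 - conj (a0 z) := by rw [ca0]; ring
    have d1 : ⟪P1, f w⟫_ℂ = conj c1 - a1 w := by simp [a1]
    have d0 : ⟪P0, f w⟫_ℂ = conj c0 - a0 w := by simp [a0]
    simp only [ρ, γ, inner_add_right, inner_sub_right, inner_smul_right, inner_add_left,
      inner_sub_left, inner_smul_left, i11, i10, i00, n01, b1, b0, d1, d0, ← hf, RCLike.inner_apply,
      map_add, map_sub, map_mul, map_div₀, map_one, Complex.conj_ofReal]
    field_simp; ring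
  refine (((pk_const t ht.le).mul (pk_dyad fun z => (conj (a1 z))⁻¹)).mul
    ((pk_dyad δ).add (hR.mul hs))).congr fun z w => ?_
  have hz : conj (a1 z) ≠ 0 := by simpa using ha1 z
  have hw := ha1 w
  have hn := hne z w
  rw [hid, e1, hrel, hrel' w, map_inv₀, Complex.conj_conj, div_inv_eq_mul]
  field_simp
  linear_combination (δ z * conj (δ w) * z.1 * conj w.1 * conj (a1 z) * a1 w) * h2

end Pool.Agent.H32.Cert
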