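import Mathlib

/-! An eight point space all of whose seven point subsets embed in elliptic three-space. -/

namespace Pool.Agent.H32.Ell

open Real Matrix

abbrev E := EuclideanSpace ℝ (Fin 4)

/-- determinant of a symmetric five by five matrix with constant diagonal -/
def F {R : Type} [CommRing R] (d a01 a02 a03 a04 a12 a13 a14 a23 a24 a34 : R) : R :=
  d * d * d * d * d + 2 * a23 * a24 * a34 * d * d + a12 * a12 * a34 * a34 * d + 2 * a12 * a13
    * a23 * d * d + 2 * a12 * a14 * a24 * d * d + 2 * a13 * a14 * a34 * d * d + a13 * a13 * a24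
    * a24 * d + a14 * a14 * a23 * a23 * d + a01 * a01 * a34 * a34 * d + a01 * a01 * a23 * a23 *
    d + a01 * a01 * a24 * a24 * d + 2 * a01 * a02 * a12 * d * d + 2 * a01 * a04 * a12 * a23 *
    a34 + 2 * a01 * a03 * a12 * a24 * a34 + 2 * a01 * a02 * a13 * a24 * a34 + 2 * a01 * a03 *
    a13 * d * d + 2 * a01 * a04 * a13 * a23 * a24 + 2 * a01 * a02 * a14 * a23 * a34 + 2 * a01 *
    a04 * a14 * d * d + 2 * a01 * a03 * a14 * a23 * a24 + a02 * a02 * a34 * a34 * d + 2 * a02 *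
    a03 * a23 * d * d + 2 * a02 * a04 * a24 * d * d + a02 * a02 * a13 * a13 * d + 2 * a02 * a04
    * a12 * a13 * a34 + 2 * a02 * a03 * a13 * a14 * a24 + a02 * a02 * a14 * a14 * d + 2 * a02 *
    a03 * a12 * a14 * a34 + 2 * a02 * a04 * a13 * a14 * a23 + 2 * a03 * a04 * a34 * d * d + a03
    * a03 * a24 * a24 * d + a03 * a03 * a12 * a12 * d + 2 * a03 * a04 * a12 * a13 * a24 + 2 *
    a03 * a04 * a12 * a14 * a23 + a03 * a03 * a14 * a14 * d + a04 * a04 * a23 * a23 * d + a04 *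
    a04 * a12 * a12 * d + a04 * a04 * a13 * a13 * d - a34 * a34 * d * d * d - a23 * a23 * d * d
    * d - a24 * a24 * d * d * d - a12 * a12 * d * d * d - 2 * a12 * a14 * a23 * a34 * d - 2 *
    a12 * a13 * a24 * a34 * d - a13 * a13 * d * d * d - 2 * a13 * a14 * a23 * a24 * d - a14 *
    a14 * d * d * d - a01 * a01 * d * d * d - 2 * a01 * a01 * a23 * a24 * a34 - 2 * a01 * a02 *
    a12 * a34 * a34 - 2 * a01 * a03 * a12 * a23 * d - 2 * a01 * a04 * a12 * a24 * d - 2 * a01 *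
    a02 * a13 * a23 * d - 2 * a01 * a04 * a13 * a34 * d - 2 * a01 * a03 * a13 * a24 * a24 - 2 *
    a01 * a02 * a14 * a24 * d - 2 * a01 * a03 * a14 * a34 * d - 2 * a01 * a04 * a14 * a23 * a23
    - a02 * a02 * d * d * d - 2 * a02 * a04 * a23 * a34 * d - 2 * a02 * a03 * a24 * a34 * d - 2
    * a02 * a02 * a13 * a14 * a34 - 2 * a02 * a03 * a12 * a13 * d - 2 * a02 * a04 * a13 * a13 *
    a24 - 2 * a02 * a04 * a12 * a14 * d - 2 * a02 * a03 * a14 * a14 * a23 - a03 * a03 * d * d *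
    d - 2 * a03 * a04 * a23 * a24 * d - 2 * a03 * a04 * a12 * a12 * a34 - 2 * a03 * a03 * a12 *
    a14 * a24 - 2 * a03 * a04 * a13 * a14 * d - a04 * a04 * d * d * d - 2 * a04 * a04 * a12 *
    a13 * a23

theorem F_map {R : Type} [CommRing R] (φ : R →+* ℝ) (d a01 a02 a03 a04 a12 a13 a14 a23 a24 a34 : R) :
    φ (F d a01 a02 a03 a04 a12 a13 a14 a23 a24 a34) = F (φ d) (φ a01) (φ a02) (φ a03) (φ a04) (φ a12) (φ a13) (φ a14) (φ a23) (φ a24) (φ a34) := by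
  simp only [F, map_add, map_sub, map_mul, map_ofNat]

theorem F_smul (k a01 a02 a03 a04 a12 a13 a14 a23 a24 a34 : ℝ) :
    F k (k * a01) (k * a02) (k * a03) (k * a04) (k * a12) (k * a13) (k * a14) (k * a23) (k * a24) (k * a34) = k ^ 5 * F 1 a01 a02 a03 a04 a12 a13 a14 a23 a24 a34 := by
  simp only [F]
  ring

theorem F_det (a01 a02 a03 a04 a12 a13 a14 a23 a24 a34 : ℝ) :
    det !![1, a01, a02, a03, a04; a01, 1, a12, a13, a14; a02, a12, 1, a23, a24;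
      a03, a13, a23, 1, a34; a04, a14, a24, a34, 1] = F 1 a01 a02 a03 a04 a12 a13 a14 a23 a24 a34 := by
  simp [F, det_succ_row_zero, Fin.sum_univ_succ, Fin.succAbove]
  ring

theorem F_zero (u0 u1 u2 u3 u4 : E) (h0 : ‖u0‖ = 1) (h1 : ‖u1‖ = 1) (h2 : ‖u2‖ = 1)
    (h3 : ‖u3‖ = 1) (h4 : ‖u4‖ = 1) :
    F 1 (inner ℝ u0 u1) (inner ℝ u0 u2) (inner ℝ u0 u3) (inner ℝ u0 u4) (inner ℝ u1 u2) (inner ℝ u1 u3) (inner ℝ u1 u4) (inner ℝ u2 u3) (inner ℝ u2 u4) (inner ℝ u3 u4) = 0 := by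
  rw [← F_det]
  have : det (gram ℝ ![u0, u1, u2, u3, u4]) = 0 := by
    by_contra h
    have := (linearIndependent_of_det_gram_ne_zero h).fintype_card_le_finrank
    simp at this
  rw [← this]
  congr 1
  ext i j
  fin_cases i <;> fin_cases j <;> simp [gram, h0, h1, h2, h3, h4, real_inner_comm]

def sg {R : Type} [Neg R] (b : Bool) (x : R) : R := if b then x else -x

theorem normalize {ι : Type} (v : ι → E) (o : ι) (hv : ∀ i, ‖v i‖ = 1) :
    ∃ (w : ι → E) (σ : ι → ι → Bool), (∀ i, ‖w i‖ = 1) ∧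
      (∀ i, inner ℝ (w o) (w i) = |inner ℝ (v o) (v i)|) ∧
      ∀ i j, inner ℝ (w i) (w j) = sg (σ i j) |inner ℝ (v i) (v j)| := by
  classical
  let w : ι → E := fun i => if 0 ≤ inner ℝ (v o) (v i) then v i else -v i
  have h1 : ∀ i j, |inner ℝ (w i) (w j)| = |inner ℝ (v i) (v j)| := fun i j => by
    simp only [w]
    split_ifs <;> simp
  refine ⟨w, fun i j => decide (0 ≤ inner ℝ (w i) (w j)), fun i => ?_, fun i => ?_, fun i j => ?_⟩
  · simp only [w]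
    split_ifs <;> simp [hv]
  · simp only [w]
    rw [if_pos real_inner_self_nonneg]
    split_ifs with h
    · exact (abs_of_nonneg h).symm
    · rw [inner_neg_right, abs_of_neg (not_le.1 h)]
  · rw [← h1]
    by_cases h : 0 ≤ inner ℝ (w i) (w j)
    · simp [sg, h, abs_of_nonneg h]
    · simp [sg, h, abs_of_neg (not_le.1 h)]

/-! ### At most six equiangular lines -/

def e3 (b12 b13 b14 b23 b24 b34 : Bool) : ℤ :=
  sg b12 1 + sg b13 1 + sg b14 1 + sg b23 1 + sg b24 1 + sg b34 1 + sg b12 (sg b13 (sg b23 1))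
    + sg b12 (sg b14 (sg b24 1)) + sg b13 (sg b14 (sg b34 1)) + sg b23 (sg b24 (sg b34 1))

noncomputable def loc (c : ℝ) : ℤ :=
  if c < 0.27 then -10 else if c < 0.31 then -4 else if c < 0.36 then -2 else if c < 0.41 then 2
    else if c < 0.435 then 4 else if c < 0.5 then 0 else -2

theorem loc_mem (c : ℝ) : loc c ∈ ([-10, -4, -2, 0, 2, 4] : List ℤ) := by
  unfold loc
  split_ifs <;> simp

theorem r10 {c : ℝ} (h0 : 0 ≤ c) (h1 : c < 1) (h : (1 - c) ^ 4 * (1 + 4 * c) = 0) :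
    (10 : ℤ) = loc c := by
  have : 0 < 1 - c := by linarith
  have : 0 < (1 - c) ^ 4 * (1 + 4 * c) := by positivity
  linarith

theorem rm10 {c : ℝ} (h0 : 0 ≤ c) (h : (1 + c) ^ 4 * (1 - 4 * c) = 0) :
    (-10 : ℤ) = loc c := by
  have h2 := (mul_eq_zero.1 h).resolve_left (by positivity)
  rw [loc, if_pos (by linarith)]

theorem r4 {c : ℝ} (h0 : 0 ≤ c) (h1 : c < 1)
    (h : ((1 - c) ^ 2 * (1 + c)) * (1 + c - 8 * c ^ 2) = 0) : (4 : ℤ) = loc c := by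
  have : 0 < 1 - c := by linarith
  have h2 := (mul_eq_zero.1 h).resolve_left (by positivity)
  have h3 : 0.41 ≤ c := by nlinarith
  have h4 : c < 0.435 := by nlinarith
  rw [loc, if_neg (by linarith), if_neg (by linarith), if_neg (by linarith), if_neg (by linarith),
    if_pos h4]

theorem rm4 {c : ℝ} (h0 : 0 ≤ c) (h1 : c < 1)
    (h : ((1 + c) ^ 2 * (1 - c)) * (1 - c - 8 * c ^ 2) = 0) : (-4 : ℤ) = loc c := by
  have : 0 < 1 - c := by linarith
  have h2 := (mul_eq_zero.1 h).resolve_left (by positivity)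
  have h3 : 0.27 ≤ c := by nlinarith
  have h4 : c < 0.31 := by nlinarith
  rw [loc, if_neg (by linarith), if_pos h4]

theorem r2 {c : ℝ} (h0 : 0 ≤ c) (h1 : c < 1)
    (h : ((1 - c) * (1 + 3 * c) * (1 - c)) * (1 - c - 4 * c ^ 2) = 0) : (2 : ℤ) = loc c := by
  have : 0 < 1 - c := by linarith
  have h2 := (mul_eq_zero.1 h).resolve_left (by positivity)
  have h3 : 0.36 ≤ c := by nlinarith
  have h4 : c < 0.41 := by nlinarith
  rw [loc, if_neg (by linarith), if_neg (by linarith), if_neg (by linarith), if_pos h4]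

theorem rm2 {c : ℝ} (h0 : 0 ≤ c)
    (h : (1 + c) ^ 2 * ((1 - 3 * c) * (1 + c - 4 * c ^ 2)) = 0) : (-2 : ℤ) = loc c := by
  have h2 := (mul_eq_zero.1 h).resolve_left (by positivity)
  rcases mul_eq_zero.1 h2 with h2 | h2
  · rw [loc, if_neg (by linarith), if_neg (by linarith), if_pos (by linarith)]
  · have h3 : 0.5 ≤ c := by nlinarith
    rw [loc, if_neg (by linarith), if_neg (by linarith), if_neg (by linarith), if_neg (by linarith),
      if_neg (by linarith), if_neg (by linarith)]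

theorem r0 {c : ℝ} (h0 : 0 ≤ c) (h : (1 - 5 * c ^ 2) ^ 2 = 0) : (0 : ℤ) = loc c := by
  have h2 := pow_eq_zero_iff two_ne_zero |>.1 h
  have h3 : 0.435 ≤ c := by nlinarith
  have h4 : c < 0.5 := by nlinarith
  rw [loc, if_neg (by linarith), if_neg (by linarith), if_neg (by linarith), if_neg (by linarith),
    if_neg (by linarith), if_pos h4]

theorem cls {c : ℝ} (h0 : 0 ≤ c) (h1 : c < 1) (b12 b13 b14 b23 b24 b34 : Bool)
    (h : F 1 c c c c (sg b12 c) (sg b13 c) (sg b14 c) (sg b23 c) (sg b24 c) (sg b34 c) = 0) :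
    e3 b12 b13 b14 b23 b24 b34 = loc c := by
  cases b12 <;> cases b13 <;> cases b14 <;> cases b23 <;> cases b24 <;> cases b34 <;>
    simp only [F, sg, if_true, Bool.false_eq_true, if_false] at h <;>
    first
    | exact r2 h0 h1 (by linear_combination h)
    | exact rm2 h0 (by linear_combination h)
    | exact r0 h0 (by linear_combination h)
    | exact r4 h0 h1 (by linear_combination h)
    | exact rm4 h0 h1 (by linear_combination h)
    | exact r10 h0 h1 (by linear_combination h)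
    | exact rm10 h0 (by linear_combination h)

set_option synthInstance.maxSize 100000 in
set_option maxRecDepth 100000 in
theorem chkB : ∀ m ∈ ([-10, -4, -2, 0, 2, 4] : List ℤ), ∀ b12 b13 b23 b14 b24 b34 : Bool,
    e3 b12 b13 b14 b23 b24 b34 = m →
    ∀ b15 b25 b35 b45 : Bool,
    e3 b12 b13 b15 b23 b25 b35 = m →
    e3 b12 b14 b15 b24 b25 b45 = m →
    e3 b13 b14 b15 b34 b35 b45 = m →
    e3 b23 b24 b25 b34 b35 b45 = m →
    ∀ b16 b26 b36 b46 b56 : Bool,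
    e3 b12 b13 b16 b23 b26 b36 = m →
    e3 b12 b14 b16 b24 b26 b46 = m →
    e3 b12 b15 b16 b25 b26 b56 = m →
    e3 b13 b14 b16 b34 b36 b46 = m →
    e3 b13 b15 b16 b35 b36 b56 = m →
    e3 b14 b15 b16 b45 b46 b56 = m →
    e3 b23 b24 b26 b34 b36 b46 = m →
    e3 b23 b25 b26 b35 b36 b56 = m →
    e3 b24 b25 b26 b45 b46 b56 = m →
    e3 b34 b35 b36 b45 b46 b56 = m →
    b12 = false ∧ b13 = false ∧ b14 = false ∧ b15 = false ∧ b16 = false ∧ b23 = false ∧ b24 = false ∧ b25 = false ∧ b26 = false ∧ b34 = false ∧ b35 = false ∧ b36 = false ∧ b45 = false ∧ b46 = false ∧ b56 = false := by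
  decide +kernel

theorem no_seven (v : Fin 7 → E) (c : ℝ) (h1 : c < 1) (hv : ∀ i, ‖v i‖ = 1)
    (hc : ∀ i j, i ≠ j → |inner ℝ (v i) (v j)| = c) : False := by
  have h0 : 0 ≤ c := hc 0 1 (by decide) ▸ abs_nonneg _
  obtain ⟨w, σ, hw, ho, hs⟩ := normalize v 0 hv
  have ho' : ∀ i, 0 ≠ i → inner ℝ (w 0) (w i) = c := fun i hi => by rw [ho, hc _ _ hi]
  have hs' : ∀ i j, i ≠ j → inner ℝ (w i) (w j) = sg (σ i j) c := fun i j h => by
    rw [hs, hc _ _ h]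
  have hF : ∀ i j k l : Fin 7, (0 < i ∧ i < j ∧ j < k ∧ k < l) →
      F 1 c c c c (sg (σ i j) c) (sg (σ i k) c) (sg (σ i l) c) (sg (σ j k) c) (sg (σ j l) c)
        (sg (σ k l) c) = 0 := fun i j k l ⟨a1, a2, a3, a4⟩ => by
    have := F_zero (w 0) (w i) (w j) (w k) (w l) (hw _) (hw _) (hw _) (hw _) (hw _)
    rwa [ho' i (by omega), ho' j (by omega), ho' k (by omega), ho' l (by omega),
      hs' i j (by omega), hs' i k (by omega), hs' i l (by omega), hs' j k (by omega),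
      hs' j l (by omega), hs' k l (by omega)] at this
  have key := fun i j k l h => cls h0 h1 _ _ _ _ _ _ (hF i j k l h)
  obtain ⟨h12, h13, h14, h15, h16, h23, h24, h25, h26, h34, h35, h36, h45, h46, h56⟩ := chkB _ (loc_mem c)
    (σ 1 2) (σ 1 3) (σ 2 3) (σ 1 4) (σ 2 4) (σ 3 4)
    (key 1 2 3 4 (by decide))
    (σ 1 5) (σ 2 5) (σ 3 5) (σ 4 5)
    (key 1 2 3 5 (by decide)) (key 1 2 4 5 (by decide)) (key 1 3 4 5 (by decide)) (key 2 3 4 5 (by decide))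
    (σ 1 6) (σ 2 6) (σ 3 6) (σ 4 6) (σ 5 6)
    (key 1 2 3 6 (by decide)) (key 1 2 4 6 (by decide)) (key 1 2 5 6 (by decide)) (key 1 3 4 6 (by decide)) (key 1 3 5 6 (by decide)) (key 1 4 5 6 (by decide)) (key 2 3 4 6 (by decide)) (key 2 3 5 6 (by decide)) (key 2 4 5 6 (by decide)) (key 3 4 5 6 (by decide))
    
  have h2 := hF 1 2 3 4 (by decide)
  simp only [h12, h13, h14, h23, h24, h34, F, sg, Bool.false_eq_true, if_false] at h2
  have h3 : (1 + c) ^ 4 * (1 - 4 * c) = 0 := by linear_combination h2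
  have h4 := (mul_eq_zero.1 h3).resolve_left (by positivity)
  have h5 := real_inner_self_nonneg (x := w 1 + w 2 + w 3 + w 4 + w 5 + w 6)
  have hn : ∀ i, inner ℝ (w i) (w i) = 1 := fun i => by
    rw [real_inner_self_eq_norm_sq, hw, one_pow]
  have g12 := hs' 1 2 (by decide)
  have g21 := (real_inner_comm (w 1) (w 2)).trans g12
  have g13 := hs' 1 3 (by decide)
  have g31 := (real_inner_comm (w 1) (w 3)).trans g13
  have g14 := hs' 1 4 (by decide)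
  have g41 := (real_inner_comm (w 1) (w 4)).trans g14
  have g15 := hs' 1 5 (by decide)
  have g51 := (real_inner_comm (w 1) (w 5)).trans g15
  have g16 := hs' 1 6 (by decide)
  have g61 := (real_inner_comm (w 1) (w 6)).trans g16
  have g23 := hs' 2 3 (by decide)
  have g32 := (real_inner_comm (w 2) (w 3)).trans g23
  have g24 := hs' 2 4 (by decide)
  have g42 := (real_inner_comm (w 2) (w 4)).trans g24
  have g25 := hs' 2 5 (by decide)
  have g52 := (real_inner_comm (w 2) (w 5)).trans g25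
  have g26 := hs' 2 6 (by decide)
  have g62 := (real_inner_comm (w 2) (w 6)).trans g26
  have g34 := hs' 3 4 (by decide)
  have g43 := (real_inner_comm (w 3) (w 4)).trans g34
  have g35 := hs' 3 5 (by decide)
  have g53 := (real_inner_comm (w 3) (w 5)).trans g35
  have g36 := hs' 3 6 (by decide)
  have g63 := (real_inner_comm (w 3) (w 6)).trans g36
  have g45 := hs' 4 5 (by decide)
  have g54 := (real_inner_comm (w 4) (w 5)).trans g45
  have g46 := hs' 4 6 (by decide)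
  have g64 := (real_inner_comm (w 4) (w 6)).trans g46
  have g56 := hs' 5 6 (by decide)
  have g65 := (real_inner_comm (w 5) (w 6)).trans g56
  simp only [inner_add_left, inner_add_right, hn, g12, g21, h12, g13, g31, h13, g14, g41, h14, g15, g51, h15, g16, g61, h16, g23, g32, h23, g24, g42, h24, g25, g52, h25, g26, g62, h26, g34, g43, h34, g35, g53, h35, g36, g63, h36, g45, g54, h45, g46, g64, h46, g56, g65, h56, sg, Bool.false_eq_true, if_false] at h5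
  linarith

/-! ### The eight point space -/

def C (n : ℕ) : ℤ√17 :=
  if n = 0 then ⟨8, 0⟩ else if n ≤ 3 then ⟨1, 1⟩ else if n = 6 then ⟨0, 0⟩ else ⟨7, -1⟩

def Z (i j k l : ℕ) (b12 b13 b14 b23 b24 b34 : Bool) : ℤ√17 :=
  F ⟨8, 0⟩ (C i) (C j) (C k) (C l) (sg b12 (C (i ^^^ j))) (sg b13 (C (i ^^^ k)))
    (sg b14 (C (i ^^^ l))) (sg b23 (C (j ^^^ k))) (sg b24 (C (j ^^^ l))) (sg b34 (C (k ^^^ l)))

set_option synthInstance.maxSize 100000 in
set_option maxRecDepth 100000 in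
theorem chkA : ∀ b12 b13 b23 b14 b24 b34 : Bool,
    Z 1 2 3 4 b12 b13 b14 b23 b24 b34 = 0 →
    ∀ b15 b25 b35 b45 : Bool,
    Z 1 2 3 5 b12 b13 b15 b23 b25 b35 = 0 →
    Z 1 2 4 5 b12 b14 b15 b24 b25 b45 = 0 →
    Z 1 3 4 5 b13 b14 b15 b34 b35 b45 = 0 →
    Z 2 3 4 5 b23 b24 b25 b34 b35 b45 = 0 →
    ∀ b16 b26 b36 b46 b56 : Bool,
    Z 1 2 3 6 b12 b13 b16 b23 b26 b36 = 0 →
    Z 1 2 4 6 b12 b14 b16 b24 b26 b46 = 0 →
    Z 1 2 5 6 b12 b15 b16 b25 b26 b56 = 0 →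
    Z 1 3 4 6 b13 b14 b16 b34 b36 b46 = 0 →
    Z 1 3 5 6 b13 b15 b16 b35 b36 b56 = 0 →
    Z 1 4 5 6 b14 b15 b16 b45 b46 b56 = 0 →
    Z 2 3 4 6 b23 b24 b26 b34 b36 b46 = 0 →
    Z 2 3 5 6 b23 b25 b26 b35 b36 b56 = 0 →
    Z 2 4 5 6 b24 b25 b26 b45 b46 b56 = 0 →
    Z 3 4 5 6 b34 b35 b36 b45 b46 b56 = 0 →
    ∀ b17 b27 b37 b47 b57 b67 : Bool,
    Z 1 2 3 7 b12 b13 b17 b23 b27 b37 = 0 →
    Z 1 2 4 7 b12 b14 b17 b24 b27 b47 = 0 →
    Z 1 2 5 7 b12 b15 b17 b25 b27 b57 = 0 →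
    Z 1 2 6 7 b12 b16 b17 b26 b27 b67 = 0 →
    Z 1 3 4 7 b13 b14 b17 b34 b37 b47 = 0 →
    Z 1 3 5 7 b13 b15 b17 b35 b37 b57 = 0 →
    Z 1 3 6 7 b13 b16 b17 b36 b37 b67 = 0 →
    Z 1 4 5 7 b14 b15 b17 b45 b47 b57 = 0 →
    Z 1 4 6 7 b14 b16 b17 b46 b47 b67 = 0 →
    Z 1 5 6 7 b15 b16 b17 b56 b57 b67 = 0 →
    Z 2 3 4 7 b23 b24 b27 b34 b37 b47 = 0 →
    Z 2 3 5 7 b23 b25 b27 b35 b37 b57 = 0 →
    Z 2 3 6 7 b23 b26 b27 b36 b37 b67 = 0 →
    Z 2 4 5 7 b24 b25 b27 b45 b47 b57 = 0 →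
    Z 2 4 6 7 b24 b26 b27 b46 b47 b67 = 0 →
    Z 2 5 6 7 b25 b26 b27 b56 b57 b67 = 0 →
    Z 3 4 5 7 b34 b35 b37 b45 b47 b57 = 0 →
    Z 3 4 6 7 b34 b36 b37 b46 b47 b67 = 0 →
    Z 3 5 6 7 b35 b36 b37 b56 b57 b67 = 0 →
    Z 4 5 6 7 b45 b46 b47 b56 b57 b67 = 0 →
    False := by
  decide +kernel

noncomputable def φ : ℤ√17 →+* ℝ := Zsqrtd.toReal (by norm_num)

theorem φ_mk (x y : ℤ) : φ ⟨x, y⟩ = x + y * √17 := by
  simp [φ]

theorem φ_inj : Function.Injective φ := Zsqrtd.toReal_injective _ fun n h => by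
  have h1 : n < 5 := by nlinarith
  have h2 : -5 < n := by nlinarith
  interval_cases n <;> omega

theorem s_lo : 4 < √17 := Real.lt_sqrt_of_sq_lt (by norm_num)

theorem s_hi : √17 < 4.2 := Real.sqrt_lt' (by norm_num) |>.2 (by norm_num)

noncomputable def cs (x y : Fin 8) : ℝ := φ (C (x.1 ^^^ y.1)) / 8

theorem cs_self (x : Fin 8) : cs x x = 1 := by
  simp [cs, C, φ_mk]

theorem cs_ne {x y : Fin 8} (h : x ≠ y) : 0 ≤ cs x y ∧ cs x y ≤ 0.7 := by
  have h1 : x.1 ^^^ y.1 ≠ 0 := fun h1 => h (Fin.ext (Nat.xor_eq_zero_iff.1 h1))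
  have := s_lo
  have := s_hi
  simp only [cs, C, if_neg h1]
  split_ifs <;> simp only [φ_mk] <;> push_cast <;> constructor <;> linarith

theorem cs_mem (x y : Fin 8) : 0 ≤ cs x y ∧ cs x y ≤ 1 := by
  by_cases h : x = y
  · rw [h, cs_self]
    exact ⟨zero_le_one, le_rfl⟩
  · exact ⟨(cs_ne h).1, (cs_ne h).2.trans (by norm_num)⟩

theorem d_lo {x y : Fin 8} (h : x ≠ y) : π / 4 ≤ arccos (cs x y) := by
  rw [← arccos_cos (x := π / 4) (by positivity) (by linarith [pi_pos]), cos_pi_div_four]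
  refine arccos_le_arccos ((cs_ne h).2.trans ?_)
  have : (1.4 : ℝ) < √2 := Real.lt_sqrt_of_sq_lt (by norm_num)
  linarith

theorem d_hi (x y : Fin 8) : arccos (cs x y) ≤ π / 2 := arccos_le_pi_div_two.2 (cs_mem x y).1

def M : Type := Fin 8

noncomputable instance : MetricSpace M where
  dist x y := arccos (cs x y)
  dist_self x := by rw [cs_self, arccos_one]
  dist_comm x y := by simp only [cs, Nat.xor_comm]
  dist_triangle x y z := by
    by_cases h1 : x = y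
    · rw [h1, cs_self, arccos_one, zero_add]
    by_cases h2 : y = z
    · rw [h2, cs_self, arccos_one, add_zero]
    linarith [d_lo h1, d_lo h2, d_hi x z]
  eq_of_dist_eq_zero := fun {x y} h => by
    by_contra h1
    linarith [d_lo h1, pi_pos]

theorem φ_sg (b : Bool) (x : ℤ√17) : φ (sg b x) = 8 * sg b (φ x / 8) := by
  cases b <;> simp [sg] <;> ring

theorem not_embed (f : M → E) (hf : ∀ x, ‖f x‖ = 1)
    (h : ∀ x y, arccos |inner ℝ (f x) (f y)| = dist x y) : False := by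
  have hc : ∀ x y : Fin 8, |inner ℝ (f x) (f y)| = cs x y := fun x y => by
    refine arccos_injOn ⟨by linarith [abs_nonneg (inner ℝ (f x) (f y))], ?_⟩
      ⟨by linarith [(cs_mem x y).1], (cs_mem x y).2⟩ (h x y)
    simpa [hf] using abs_real_inner_le_norm (f x) (f y)
  obtain ⟨w, σ, hw, ho, hs⟩ := normalize (ι := Fin 8) f 0 hf
  have key : ∀ i j k l : Fin 8, Z i j k l (σ i j) (σ i k) (σ i l) (σ j k) (σ j l) (σ k l) = 0 := by
    intro i j k l
    have := F_zero (w 0) (w i) (w j) (w k) (w l) (hw _) (hw _) (hw _) (hw _) (hw _)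
    rw [ho, ho, ho, ho] at this
    simp only [hs, hc, cs, Fin.val_zero, Nat.zero_xor] at this
    apply φ_inj
    have h8 : ∀ x, φ x = 8 * (φ x / 8) := fun x => by ring
    rw [Z, F_map, φ_mk, h8 (C i), h8 (C j), h8 (C k), h8 (C l), map_zero]
    simp only [φ_sg, Int.cast_ofNat, Int.cast_zero, zero_mul, add_zero]
    rw [F_smul, this, mul_zero]
  exact chkA (σ 1 2) (σ 1 3) (σ 2 3) (σ 1 4) (σ 2 4) (σ 3 4)
    (key 1 2 3 4)
    (σ 1 5) (σ 2 5) (σ 3 5) (σ 4 5)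
    (key 1 2 3 5) (key 1 2 4 5) (key 1 3 4 5) (key 2 3 4 5)
    (σ 1 6) (σ 2 6) (σ 3 6) (σ 4 6) (σ 5 6)
    (key 1 2 3 6) (key 1 2 4 6) (key 1 2 5 6) (key 1 3 4 6) (key 1 3 5 6) (key 1 4 5 6) (key 2 3 4 6) (key 2 3 5 6) (key 2 4 5 6) (key 3 4 5 6)
    (σ 1 7) (σ 2 7) (σ 3 7) (σ 4 7) (σ 5 7) (σ 6 7)
    (key 1 2 3 7) (key 1 2 4 7) (key 1 2 5 7) (key 1 2 6 7) (key 1 3 4 7) (key 1 3 5 7) (key 1 3 6 7) (key 1 4 5 7) (key 1 4 6 7) (key 1 5 6 7) (key 2 3 4 7) (key 2 3 5 7) (key 2 3 6 7) (key 2 4 5 7) (key 2 4 6 7) (key 2 5 6 7) (key 3 4 5 7) (key 3 4 6 7) (key 3 5 6 7) (key 4 5 6 7)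
    

def L (n : ℕ) : Fin 4 → ℤ√17 :=
  if n = 1 then ![⟨8, 0⟩, 0, 0, 0] else if n = 7 then ![0, ⟨8, 0⟩, 0, 0]
  else if n = 2 then ![⟨1, 1⟩, ⟨7, -1⟩, ⟨-1, 1⟩, ⟨1, 0⟩]
  else if n = 4 then ![⟨7, -1⟩, ⟨1, 1⟩, ⟨1, -1⟩, ⟨-1, 0⟩]
  else if n = 3 then ![⟨1, 1⟩, ⟨7, -1⟩, ⟨-1, 1⟩, ⟨-1, 0⟩]
  else if n = 5 then ![⟨7, -1⟩, ⟨1, 1⟩, ⟨1, -1⟩, ⟨1, 0⟩]
  else ![⟨7, -1⟩, ⟨-1, -1⟩, ⟨4, 0⟩, 0]

def D : Fin 4 → ℤ√17 := ![⟨4, 0⟩, ⟨4, 0⟩, ⟨-5, 3⟩, ⟨112, -16⟩]

theorem chkL : ∀ z x y : Fin 8, x ≠ z → y ≠ z → ∃ b : Bool,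
    ∑ k, D k * L (x.1 ^^^ z.1) k * L (y.1 ^^^ z.1) k = ⟨32, 0⟩ * sg b (C (x.1 ^^^ y.1)) := by
  decide +kernel

theorem D_pos (k : Fin 4) : 0 ≤ φ (D k) := by
  have := s_lo
  have := s_hi
  fin_cases k <;> simp [D, φ_mk] <;> linarith

noncomputable def vec (n : ℕ) : E := WithLp.toLp 2 fun k => √(φ (D k)) * φ (L n k) / 16

theorem inner_vec (z x y : Fin 8) (hx : x ≠ z) (hy : y ≠ z) :
    |inner ℝ (vec (x.1 ^^^ z.1)) (vec (y.1 ^^^ z.1))| = cs x y := by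
  obtain ⟨b, hb⟩ := chkL z x y hx hy
  have h1 := congrArg φ hb
  rw [map_sum, map_mul, φ_mk, φ_sg] at h1
  have h2 : inner ℝ (vec (x.1 ^^^ z.1)) (vec (y.1 ^^^ z.1)) = sg b (cs x y) := by
    have : inner ℝ (vec (x.1 ^^^ z.1)) (vec (y.1 ^^^ z.1)) =
        (∑ k, φ (D k * L (x.1 ^^^ z.1) k * L (y.1 ^^^ z.1) k)) / 256 := by
      rw [PiLp.inner_apply, Finset.sum_div]
      refine Finset.sum_congr rfl fun k _ => ?_
      simp only [vec, map_mul, RCLike.inner_apply, conj_trivial]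
      have := Real.mul_self_sqrt (D_pos k)
      linear_combination (φ (L (x.1 ^^^ z.1) k) * φ (L (y.1 ^^^ z.1) k) / 256) * this
    rw [this, h1, cs]
    push_cast
    ring
  rw [h2]
  cases b <;> simp [sg, abs_of_nonneg (cs_mem x y).1]

theorem embed (s : Finset M) (hs : s.card ≤ 7) :
    ∃ f : M → E, (∀ x ∈ s, ‖f x‖ = 1) ∧
      ∀ x ∈ s, ∀ y ∈ s, arccos |inner ℝ (f x) (f y)| = dist x y := by
  obtain ⟨z, hz⟩ : ∃ z : Fin 8, z ∉ s := by
    by_contra h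
    push Not at h
    have : (Finset.univ : Finset (Fin 8)).card ≤ s.card := Finset.card_le_card fun x _ => h x
    simp at this
    omega
  have hne : ∀ x ∈ s, x ≠ z := fun x hx h => hz (h ▸ hx)
  refine ⟨fun x : Fin 8 => vec (x.1 ^^^ z.1), fun x hx => ?_, fun x hx y hy => ?_⟩
  · have := inner_vec z x x (hne x hx) (hne x hx)
    rw [cs_self, real_inner_self_eq_norm_sq, abs_of_nonneg (sq_nonneg _)] at this
    exact (pow_eq_one_iff_of_nonneg (norm_nonneg _) two_ne_zero).1 this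
  · exact congrArg arccos (inner_vec z x y (hne x hx) (hne y hy))

theorem exists_greatest : ∃ N ≤ 6, IsGreatest {n : ℕ | ∃ v : Fin n → E, ∃ c : ℝ, c < 1 ∧
    (∀ i, ‖v i‖ = 1) ∧ ∀ i j, i ≠ j → |inner ℝ (v i) (v j)| = c} N := by
  have hb : ∀ n ∈ {n : ℕ | ∃ v : Fin n → E, ∃ c : ℝ, c < 1 ∧
      (∀ i, ‖v i‖ = 1) ∧ ∀ i j, i ≠ j → |inner ℝ (v i) (v j)| = c}, n ≤ 6 := by
    rintro n ⟨v, c, h1, h2, h3⟩
    by_contra hn
    exact no_seven (fun i => v (Fin.castLE (by omega) i)) c h1 (fun _ => h2 _)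
      fun i j h => h3 _ _ fun h' => h (Fin.castLE_injective _ h')
  have hbd : BddAbove _ := ⟨6, hb⟩
  have hm := Nat.sSup_mem (by
    exact ⟨0, fun i => i.elim0, 0, zero_lt_one, fun i => i.elim0, fun i => i.elim0⟩) hbd
  exact ⟨_, hb _ hm, hm, fun n hn => le_csSup hbd hn⟩

end Pool.Agent.H32.Ell
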