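import Mathlib

namespace Pool.Agent.H32.Eul

open Polynomial Finset

noncomputable def T : Module.End ℝ ℝ[X] :=
  LinearMap.mulLeft ℝ (1 - 2 * X) + LinearMap.mulLeft ℝ (X * (1 - X)) ∘ₗ derivative

theorem T_apply (R : ℝ[X]) : T R = (1 - 2 * X) * R + X * (1 - X) * derivative R := rfl

theorem T_eq (R : ℝ[X]) : T R = derivative (X * (1 - X) * R) := by
  rw [T_apply]
  simp only [derivative_mul, derivative_X, derivative_sub, derivative_one]
  ring

theorem natDegree_T {R : ℝ[X]} {M : ℕ} (h : R.natDegree ≤ M) : (T R).natDegree ≤ M + 1 := by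
  rw [T_eq]
  refine (natDegree_derivative_le _).trans ?_
  have h1 : (X * (1 - X) : ℝ[X]).natDegree ≤ 2 := by compute_degree
  have := natDegree_mul_le (p := X * (1 - X)) (q := R)
  omega

theorem logder (ζ : ℕ → ℝ) (y : ℝ) (n : ℕ) (h : ∀ i < n, y ≠ ζ i) :
    eval y (derivative (∏ i ∈ range n, (X - C (ζ i))))
      = eval y (∏ i ∈ range n, (X - C (ζ i))) * ∑ i ∈ range n, 1 / (y - ζ i) ∧
    eval y (derivative (derivative (∏ i ∈ range n, (X - C (ζ i)))))
      = eval y (∏ i ∈ range n, (X - C (ζ i))) *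
        ((∑ i ∈ range n, 1 / (y - ζ i)) ^ 2 - ∑ i ∈ range n, (1 / (y - ζ i)) ^ 2) := by
  induction n with
  | zero => simp
  | succ n ih =>
    obtain ⟨h1, h2⟩ := ih fun i hi => h i (by omega)
    have h3 : y - ζ n ≠ 0 := sub_ne_zero.2 (h n (by omega))
    simp only [prod_range_succ, sum_range_succ, derivative_mul, derivative_add, derivative_sub,
      derivative_X, derivative_C, sub_zero, mul_one, eval_add, eval_mul, eval_sub, eval_X, eval_C,
      h1, h2]
    constructor
    · field_simp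
    · field_simp
      ring

theorem ivt (P : ℝ[X]) (q : ℕ → ℝ) (K : ℕ) (σ : ℝ) (hq : ∀ k < K, q k < q (k + 1))
    (hs : ∀ k ≤ K, 0 < (-1) ^ k * σ * eval (q k) P) :
    ∃ z : ℕ → ℝ, ∀ k < K, q k < z k ∧ z k < q (k + 1) ∧ eval (z k) P = 0 := by
  have : ∀ k, k < K → ∃ z, q k < z ∧ z < q (k + 1) ∧ eval z P = 0 := by
    intro k hk
    have h1 := hs k hk.le
    have h2 := hs (k + 1) hk
    have hc : ContinuousOn (fun x => (-1) ^ k * σ * eval x P) (Set.Icc (q k) (q (k + 1))) :=
      (continuous_const.mul P.continuous).continuousOn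
    obtain ⟨z, hz, h0⟩ := intermediate_value_Ioo' (hq k hk).le hc
      (show (0 : ℝ) ∈ Set.Ioo _ _ from ⟨by rw [pow_succ] at h2; linarith, h1⟩)
    refine ⟨z, hz.1, hz.2, (mul_eq_zero.1 h0).resolve_left fun h => ?_⟩
    rw [h] at h1
    simp at h1
  choose! z hz using this
  exact ⟨z, hz⟩

theorem factor (P : ℝ[X]) (Z : Finset ℝ) (hZ : ∀ z ∈ Z, eval z P = 0) (hd : P.natDegree ≤ Z.card) :
    P = C P.leadingCoeff * ∏ z ∈ Z, (X - C z) := by
  refine eq_leadingCoeff_mul_of_monic_of_dvd_of_natDegree_le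
    (monic_prod_of_monic _ _ fun z _ => monic_X_sub_C z) ?_ ?_
  · refine Finset.prod_dvd_of_coprime ?_ fun z hz => dvd_iff_isRoot.2 (hZ z hz)
    intro a _ b _ hab
    exact pairwise_coprime_X_sub_C (s := id) Function.injective_id hab
  · rwa [natDegree_prod_of_monic _ _ fun z _ => monic_X_sub_C z, sum_congr rfl
      fun z _ => natDegree_X_sub_C z, sum_const, smul_eq_mul, mul_one]

def RealRooted (P : ℝ[X]) : Prop := ∀ z : ℂ, aeval z P = 0 → z.im = 0

theorem realRooted_of (P : ℝ[X]) (hP : P ≠ 0) (Z : Finset ℝ) (hZ : ∀ z ∈ Z, eval z P = 0)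
    (hd : P.natDegree ≤ Z.card) : RealRooted P := by
  intro w hw
  rw [factor P Z hZ hd, map_mul, map_prod, mul_eq_zero, prod_eq_zero_iff] at hw
  rcases hw with h | ⟨z, _, h⟩
  · simp [hP] at h
  · simp only [map_sub, aeval_X, aeval_C, sub_eq_zero] at h
    rw [h]; simp

theorem chain {ζ : ℕ → ℝ} {K : ℕ} (h : ∀ k < K, ζ k < ζ (k + 1)) :
    ∀ j ≤ K, ∀ i < j, ζ i < ζ j := by
  intro j hj
  induction j with
  | zero => intro i hi; omega
  | succ j ih =>
    intro i hi
    rcases Nat.lt_succ_iff_lt_or_eq.1 hi with h1 | rfl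
    · exact (ih (by omega) i h1).trans (h j hj)
    · exact h i hj

theorem chain_inj {ζ : ℕ → ℝ} {K : ℕ} (h : ∀ k, k + 1 < K → ζ k < ζ (k + 1)) :
    Set.InjOn ζ (range K) := by
  have h1 := chain (ζ := ζ) (K := K - 1) fun k hk => h k (by omega)
  intro i hi j hj hij
  simp only [coe_range, Set.mem_Iio] at hi hj
  rcases lt_trichotomy i j with h2 | h2 | h2
  · exact absurd hij (h1 j (by omega) i h2).ne
  · exact h2
  · exact absurd hij (h1 i (by omega) j h2).ne'

structure RR (M : ℕ) (R : ℝ[X]) (a : ℝ) (ζ : ℕ → ℝ) : Prop where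
  ne : a ≠ 0
  zero : ζ 0 = 0
  one : ζ (M + 1) = 1
  lt : ∀ k < M + 1, ζ k < ζ (k + 1)
  eq : R = C a * ∏ k ∈ range M, (X - C (ζ (k + 1)))

theorem mkRR {P : ℝ[X]} (hP : P ≠ 0) {K : ℕ} (hd : P.natDegree ≤ K) (z : ℕ → ℝ)
    (h0 : ∀ k < K, 0 < z k ∧ z k < 1 ∧ eval (z k) P = 0) (h1 : ∀ k, k + 1 < K → z k < z (k + 1)) :
    ∃ a ζ, RR K P a ζ := by
  have hinj := chain_inj h1
  have hf := factor P ((range K).image z) (by
    intro x hx
    obtain ⟨k, hk, rfl⟩ := mem_image.1 hx
    exact (h0 k (mem_range.1 hk)).2.2) (by rw [card_image_of_injOn hinj, card_range]; exact hd)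
  rw [prod_image hinj] at hf
  refine ⟨P.leadingCoeff, fun k => if k = 0 then 0 else if k ≤ K then z (k - 1) else 1,
    leadingCoeff_ne_zero.2 hP, by simp, by simp, ?_, ?_⟩
  · intro k hk
    rcases Nat.eq_zero_or_pos k with rfl | hk0
    · by_cases hK : 1 ≤ K
      · simpa [hK] using (h0 0 hK).1
      · simp [hK]
    · obtain ⟨k, rfl⟩ : ∃ j, k = j + 1 := ⟨k - 1, by omega⟩
      by_cases hK : k + 1 + 1 ≤ K
      · simpa [hK, show k + 1 ≤ K by omega] using h1 k hK
      · simpa [hK, show k + 1 ≤ K by omega] using (h0 k (by omega)).2.1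
  · rw [hf]
    congr 1
    · rw [← hf]
    · refine prod_congr rfl fun k hk => ?_
      simp [show k + 1 ≤ K from mem_range.1 hk]

namespace RR

variable {M : ℕ} {R : ℝ[X]} {a : ℝ} {ζ : ℕ → ℝ}

theorem mono (H : RR M R a ζ) {i j : ℕ} (hj : j ≤ M + 1) (hi : i < j) : ζ i < ζ j :=
  chain H.lt j hj i hi

theorem mono' (H : RR M R a ζ) {i j : ℕ} (hj : j ≤ M + 1) (hi : i ≤ j) : ζ i ≤ ζ j := by
  rcases hi.eq_or_lt with rfl | h
  · exact le_rfl
  · exact (H.mono hj h).le

theorem deg (H : RR M R a ζ) : R.natDegree ≤ M := by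
  rw [H.eq]
  refine (natDegree_C_mul_le _ _).trans (le_of_eq ?_)
  rw [natDegree_prod_of_monic _ _ fun z _ => monic_X_sub_C _, sum_congr rfl
      fun z _ => natDegree_X_sub_C _, sum_const, smul_eq_mul, mul_one, card_range]

theorem sign (H : RR M R a ζ) {j : ℕ} (hj : j ≤ M) {y : ℝ} (h1 : ζ j < y) (h2 : y ≤ ζ (j + 1))
    (h3 : y < ζ (j + 1) ∨ j = M) : 0 < (-1) ^ j * eval 0 R * eval y R := by
  have e1 : (-1 : ℝ) ^ j = ∏ k ∈ range M, if k < j then -1 else 1 := by
    rw [prod_ite, prod_const, prod_const_one, mul_one]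
    congr 1
    have : (range M).filter (fun k => k < j) = range j := by
      ext k; simp only [mem_filter, mem_range]; omega
    rw [this, card_range]
  have e2 : (-1) ^ j * eval 0 R * eval y R = a ^ 2 * ∏ k ∈ range M,
      ((if k < j then -1 else 1) * (0 - ζ (k + 1)) * (y - ζ (k + 1))) := by
    rw [e1, H.eq]
    simp only [eval_mul, eval_C, eval_prod, eval_sub, eval_X, prod_mul_distrib]
    ring
  rw [e2]
  refine mul_pos (by have := H.ne; positivity) (prod_pos fun k hk => ?_)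
  have hk' := mem_range.1 hk
  have h4 : 0 < ζ (k + 1) := by rw [← H.zero]; exact H.mono (by omega) (by omega)
  split_ifs with h
  · have : ζ (k + 1) ≤ ζ j := H.mono' (by omega) h
    nlinarith
  · have : ζ (j + 1) ≤ ζ (k + 1) := H.mono' (by omega) (by omega)
    have : y < ζ (j + 1) := h3.resolve_right (by omega)
    nlinarith

theorem eval_zero_ne (H : RR M R a ζ) : eval 0 R ≠ 0 := by
  intro h
  have := H.sign (j := M) le_rfl (H.lt M (by omega)) le_rfl (Or.inr rfl)
  rw [h] at this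
  simp at this

theorem sign_one (H : RR M R a ζ) : 0 < (-1) ^ M * eval 0 R * eval 1 R := by
  have := H.sign (j := M) le_rfl (H.lt M (by omega)) le_rfl (Or.inr rfl)
  rwa [H.one] at this

theorem Q_eq (H : RR M R a ζ) :
    X * (1 - X) * R = C (-a) * ∏ k ∈ range (M + 2), (X - C (ζ k)) := by
  rw [prod_range_succ, prod_range_succ', H.zero, H.one, H.eq]
  simp only [map_neg, map_zero, map_one]
  ring

theorem crit (H : RR M R a ζ) : ∃ y : ℕ → ℝ, ∀ j ≤ M, ζ j < y j ∧ y j < ζ (j + 1) ∧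
    eval (y j) (T R) = 0 ∧ ∑ i ∈ range (M + 2), 1 / (y j - ζ i) = 0 ∧
    eval (y j) (T (T R)) = -((y j * (1 - y j)) ^ 2 *
      ∑ i ∈ range (M + 2), (1 / (y j - ζ i)) ^ 2) * eval (y j) R := by
  have : ∀ j, j ≤ M → ∃ y, ζ j < y ∧ y < ζ (j + 1) ∧
      eval y (T R) = 0 ∧ ∑ i ∈ range (M + 2), 1 / (y - ζ i) = 0 ∧
      eval y (T (T R)) = -((y * (1 - y)) ^ 2 *
        ∑ i ∈ range (M + 2), (1 / (y - ζ i)) ^ 2) * eval y R := by
    intro j hj
    have hz : ∀ k < M + 2, eval (ζ k) (X * (1 - X) * R) = 0 := by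
      intro k hk
      rw [H.Q_eq, eval_mul, eval_prod, prod_eq_zero (mem_range.2 hk) (by simp), mul_zero]
    obtain ⟨y, hy, h0⟩ := exists_deriv_eq_zero (f := fun x => eval x (X * (1 - X) * R))
      (H.lt j (by omega)) (X * (1 - X) * R).continuous.continuousOn
      (by simp only [hz j (by omega), hz (j + 1) (by omega)])
    rw [Polynomial.deriv, ← T_eq] at h0
    have hne : ∀ i < M + 2, y ≠ ζ i := by
      intro i hi
      by_cases hij : i ≤ j
      · exact ((H.mono' (by omega) hij).trans_lt hy.1).ne'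
      · exact (hy.2.trans_le (H.mono' (by omega) (by omega))).ne
    obtain ⟨l1, l2⟩ := logder ζ y (M + 2) hne
    have hP : eval y (∏ i ∈ range (M + 2), (X - C (ζ i))) ≠ 0 := by
      rw [eval_prod, prod_ne_zero_iff]
      intro i hi
      simpa [sub_eq_zero] using hne i (mem_range.1 hi)
    have hS : ∑ i ∈ range (M + 2), 1 / (y - ζ i) = 0 := by
      have h1 := h0
      rw [T_eq, H.Q_eq, derivative_C_mul, eval_mul, eval_C, l1] at h1
      simpa [H.ne, hP] using h1
    refine ⟨y, hy.1, hy.2, h0, hS, ?_⟩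
    have h2 := congrArg (eval y) H.Q_eq
    rw [T_apply (T R), eval_add, eval_mul, h0, T_eq R, H.Q_eq, derivative_C_mul, derivative_C_mul]
    simp only [eval_mul, eval_C, eval_X, eval_sub, eval_one] at h2 ⊢
    rw [l2, hS]
    linear_combination (y * (1 - y) * ∑ i ∈ range (M + 2), (1 / (y - ζ i)) ^ 2) * h2
  choose! y hy using this
  exact ⟨y, hy⟩

theorem bounds (H : RR M R a ζ) {j : ℕ} (hj : j ≤ M) {y : ℝ} (h1 : ζ j < y) (h2 : y < ζ (j + 1)) :
    0 < y ∧ y < 1 := by
  have := H.mono' (i := 0) (j := j) (by omega) (by omega)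
  have := H.mono' (i := j + 1) (j := M + 1) le_rfl (by omega)
  rw [H.zero, H.one] at *
  constructor <;> linarith

theorem apply_T (H : RR M R a ζ) : ∃ a' ζ', RR (M + 1) (T R) a' ζ' := by
  obtain ⟨y, hy⟩ := H.crit
  refine mkRR ?_ (natDegree_T H.deg) y ?_ ?_
  · intro h
    have := congrArg (eval 0) h
    rw [T_apply] at this
    exact H.eval_zero_ne (by simpa using this)
  · intro k hk
    obtain ⟨h1, h2, h3, -⟩ := hy k (by omega)
    exact ⟨(H.bounds (by omega) h1 h2).1, (H.bounds (by omega) h1 h2).2, h3⟩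
  · intro k hk
    exact (hy k (by omega)).2.1.trans (hy (k + 1) (by omega)).1

end RR

theorem edge {ι : Type} (I : Finset ι) (d : ι → ℝ) (y : ℝ) (hy : 0 < y) (hd : ∀ i ∈ I, y < d i)
    (h1 : 1 / y = ∑ i ∈ I, 1 / (d i - y)) (h2 : 2 * (I.card : ℝ) + 1 ≤ ∑ i ∈ I, 1 / d i) :
    1 < (y * (1 - y)) ^ 2 * ((1 / y) ^ 2 + ∑ i ∈ I, (1 / (d i - y)) ^ 2) := by
  set N : ℝ := (I.card : ℝ) with hN
  have hN0 : 0 < N := by
    rcases I.eq_empty_or_nonempty with rfl | h
    · simp at h1; exact absurd h1 hy.ne'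
    · rw [hN]; exact_mod_cast h.card_pos
  have h3 : ∑ i ∈ I, (1 / d i + y * (4 * (1 / d i) - 4)) ≤ ∑ i ∈ I, 1 / (d i - y) := by
    refine sum_le_sum fun i hi => ?_
    have a1 := hd i hi
    have a2 : 0 < d i := hy.trans a1
    have a3 : 0 < d i - y := by linarith
    rw [le_div_iff₀ a3]
    have e : (1 / d i + y * (4 * (1 / d i) - 4)) * (d i - y)
        = 1 - (y * (2 * d i - 1) ^ 2 + 4 * y ^ 2 * (1 - d i)) / d i := by field_simp; ring
    rw [e]
    have : 0 ≤ y * (2 * d i - 1) ^ 2 + 4 * y ^ 2 * (1 - d i) := by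
      have : 0 ≤ (2 * d i - 1) ^ 2 + 4 * y * (1 - d i) := by
        by_cases h : d i ≤ 1
        · have : 0 ≤ 1 - d i := by linarith
          positivity
        · nlinarith
      nlinarith
    have : 0 ≤ (y * (2 * d i - 1) ^ 2 + 4 * y ^ 2 * (1 - d i)) / d i := by positivity
    linarith
  rw [sum_add_distrib, ← mul_sum, sum_sub_distrib, ← mul_sum, sum_const, nsmul_eq_mul, ← h1,
    ← hN] at h3
  have h4 : y * (2 * N + 2) ≤ 1 := by
    by_contra hc
    push Not at hc
    have a1 : 1 / y < 2 * N + 2 := by rw [div_lt_iff₀ hy]; linarith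
    nlinarith
  have h5 : (1 / y) ^ 2 ≤ N * ∑ i ∈ I, (1 / (d i - y)) ^ 2 := by
    rw [h1]; exact sq_sum_le_card_mul_sum_sq
  have h6 : (y * (1 / y)) = 1 := by field_simp
  have h7 : (1 - y) ^ 2 * (N + 1) ≤ N *
      ((y * (1 - y)) ^ 2 * ((1 / y) ^ 2 + ∑ i ∈ I, (1 / (d i - y)) ^ 2)) := by
    have a1 := mul_le_mul_of_nonneg_left h5 (sq_nonneg (y * (1 - y)))
    have a2 : (y * (1 - y)) ^ 2 * (1 / y) ^ 2 = (1 - y) ^ 2 := by field_simp
    nlinarith
  have h8 : N < (1 - y) ^ 2 * (N + 1) := by nlinarith [mul_pos hy hy]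
  by_contra hc
  push Not at hc
  nlinarith

def Inv (R : ℝ[X]) : Prop := ∃ M a ζ, RR M R a ζ ∧
  (2 * M + 2) * (eval 0 R) ^ 2 ≤ - eval 0 (derivative R) * eval 0 R ∧
  (2 * M + 2) * (eval 1 R) ^ 2 ≤ eval 1 (derivative R) * eval 1 R

theorem RR.big {M : ℕ} {R : ℝ[X]} {a : ℝ} {ζ : ℕ → ℝ} (H : RR M R a ζ)
    (h0 : (2 * M + 2) * (eval 0 R) ^ 2 ≤ - eval 0 (derivative R) * eval 0 R)
    (h1 : (2 * M + 2) * (eval 1 R) ^ 2 ≤ eval 1 (derivative R) * eval 1 R)
    {j : ℕ} (hj : j ≤ M) {y : ℝ} (y1 : ζ j < y) (y2 : y < ζ (j + 1))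
    (hS : ∑ i ∈ range (M + 2), 1 / (y - ζ i) = 0) :
    1 < (y * (1 - y)) ^ 2 * ∑ i ∈ range (M + 2), (1 / (y - ζ i)) ^ 2 := by
  obtain ⟨b0, b1⟩ := H.bounds hj y1 y2
  have hder : ∀ x, (∀ i < M, x ≠ ζ (i + 1)) →
      eval x (derivative R) = eval x R * ∑ i ∈ range M, 1 / (x - ζ (i + 1)) := by
    intro x hx
    rw [H.eq, derivative_C_mul, eval_mul, eval_mul, (logder (fun i => ζ (i + 1)) x M hx).1]
    ring
  by_cases j0 : j = 0
  · subst j0
    rw [sum_range_succ', H.zero, sub_zero] at hS ⊢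
    have := edge (range (M + 1)) (fun i => ζ (i + 1)) y b0
      (fun i hi => y2.trans_le (H.mono' (by have := mem_range.1 hi; omega) (by omega)))
      (by
        rw [← neg_eq_iff_add_eq_zero, ← sum_neg_distrib] at hS
        rw [← hS]
        exact sum_congr rfl fun i _ => by rw [← neg_sub (ζ (i + 1)) y, div_neg, neg_neg])
      (by
        rw [hder 0 (fun i hi => by
          rw [← H.zero]; exact (H.mono (by omega) (by omega)).ne)] at h0
        have hp : 0 < eval 0 R ^ 2 := by have := H.eval_zero_ne; positivity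
        have e : ∑ i ∈ range M, 1 / (0 - ζ (i + 1)) = -∑ i ∈ range M, 1 / ζ (i + 1) := by
          rw [← sum_neg_distrib]; exact sum_congr rfl fun i _ => by rw [zero_sub, div_neg]
        rw [e] at h0
        rw [sum_range_succ, H.one, card_range]
        push_cast
        have : 2 * (M : ℝ) + 2 ≤ ∑ i ∈ range M, 1 / ζ (i + 1) :=
          le_of_mul_le_mul_right (by nlinarith) hp
        linarith)
    rw [add_comm]
    convert this using 3
    exact sum_congr rfl fun i _ => by rw [← neg_sub (ζ (i + 1)) y, div_neg, neg_sq]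
  by_cases jM : j = M
  · subst jM
    rw [sum_range_succ, H.one] at hS ⊢
    have := edge (range (j + 1)) (fun i => 1 - ζ i) (1 - y) (by linarith)
      (fun i hi => by
        have := H.mono' (i := i) (j := j) (by omega) (by have := mem_range.1 hi; omega)
        linarith)
      (by
        rw [← neg_sub 1 y, div_neg, add_neg_eq_zero] at hS
        rw [← hS]
        exact sum_congr rfl fun i _ => by rw [sub_sub_sub_cancel_left])
      (by
        rw [hder 1 (fun i hi => by
          rw [← H.one]; exact (H.mono (by omega) (by omega)).ne')] at h1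
        have hp : 0 < eval 1 R ^ 2 := by
          have h2 := H.sign_one
          have : eval 1 R ≠ 0 := fun h => by rw [h] at h2; simp at h2
          positivity
        rw [sum_range_succ', H.zero, card_range]
        push_cast
        have : 2 * (j : ℝ) + 2 ≤ ∑ i ∈ range j, 1 / (1 - ζ (i + 1)) :=
          le_of_mul_le_mul_right (by nlinarith) hp
        linarith)
    simp only [sub_sub_sub_cancel_left, sub_sub_cancel] at this
    rw [add_comm, ← neg_sub 1 y, div_neg, neg_sq, mul_comm y]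
    exact this
  · have hsub : ({0, j, j + 1, M + 1} : Finset ℕ) ⊆ range (M + 2) := by
      intro k hk
      simp only [mem_insert, mem_singleton] at hk
      rw [mem_range]; omega
    have h2 := sum_le_sum_of_subset_of_nonneg (f := fun i => (1 / (y - ζ i)) ^ 2) hsub
      fun i _ _ => sq_nonneg _
    rw [sum_insert (by simp; omega), sum_insert (by simp; omega), sum_insert (by simp; omega),
      sum_singleton, H.zero, H.one, sub_zero] at h2
    have c0 : 0 < ζ j := by rw [← H.zero]; exact H.mono (by omega) (by omega)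
    have c1 : ζ (j + 1) < 1 := by rw [← H.one]; exact H.mono (by omega) (by omega)
    have d0 : (1 / y) ^ 2 < (1 / (y - ζ j)) ^ 2 :=
      pow_lt_pow_left₀ (one_div_lt_one_div_of_lt (by linarith) (by linarith)) (by positivity)
        (by norm_num)
    have d1 : (1 / (y - 1)) ^ 2 < (1 / (y - ζ (j + 1))) ^ 2 := by
      rw [← neg_sub 1 y, div_neg, neg_sq, ← neg_sub (ζ (j + 1)) y, div_neg, neg_sq]
      have : 0 < 1 - y := by linarith
      exact pow_lt_pow_left₀ (one_div_lt_one_div_of_lt (by linarith) (by linarith)) (by positivity)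
        (by norm_num)
    have hp : 0 < (y * (1 - y)) ^ 2 := by
      have : 0 < 1 - y := by linarith
      positivity
    have e : (y * (1 - y)) ^ 2 * (2 * (1 / y) ^ 2 + 2 * (1 / (y - 1)) ^ 2)
        = 2 * (1 - y) ^ 2 + 2 * y ^ 2 := by
      have : y - 1 ≠ 0 := by linarith
      field_simp
      ring
    have h3 : (y * (1 - y)) ^ 2 * (2 * (1 / y) ^ 2 + 2 * (1 / (y - 1)) ^ 2)
        < (y * (1 - y)) ^ 2 * ∑ i ∈ range (M + 2), (1 / (y - ζ i)) ^ 2 :=
      mul_lt_mul_of_pos_left (by linarith) hp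
    nlinarith [sq_nonneg (2 * y - 1)]

theorem T_eval (R : ℝ[X]) : eval 0 (T R) = eval 0 R ∧ eval 1 (T R) = - eval 1 R ∧
    eval 0 (derivative (T R)) = -2 * eval 0 R + 2 * eval 0 (derivative R) ∧
    eval 1 (derivative (T R)) = -2 * eval 1 R - 2 * eval 1 (derivative R) := by
  rw [T_apply]
  refine ⟨by simp, by simp; ring, by simp; ring, by simp; ring⟩

theorem Inv.quad {R : ℝ[X]} (h : Inv R) {c : ℝ} (hc1 : -1 < c) (hc2 : c < 1) :
    Inv (T (T R) - C (2 * c) * T R + R) := by
  obtain ⟨M, a, ζ, H, h0, h1⟩ := h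
  obtain ⟨y, hy⟩ := H.crit
  set P := T (T R) - C (2 * c) * T R + R with hP
  obtain ⟨a1, a2, a3, a4⟩ := T_eval R
  obtain ⟨b1, b2, b3, b4⟩ := T_eval (T R)
  have p0 : eval 0 P = (2 - 2 * c) * eval 0 R := by
    simp only [hP, eval_add, eval_sub, eval_mul, eval_C, a1, b1]; ring
  have p1 : eval 1 P = (2 + 2 * c) * eval 1 R := by
    simp only [hP, eval_add, eval_sub, eval_mul, eval_C, a2, b2]; ring
  have p2 : eval 0 (derivative P) = (-6 + 4 * c) * eval 0 R + (5 - 4 * c) * eval 0 (derivative R) := by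
    simp only [hP, derivative_add, derivative_sub, derivative_C_mul, eval_add, eval_sub, eval_mul,
      eval_C, a1, a3, b3]; ring
  have p3 : eval 1 (derivative P) = (6 + 4 * c) * eval 1 R + (5 + 4 * c) * eval 1 (derivative R) := by
    simp only [hP, derivative_add, derivative_sub, derivative_C_mul, eval_add, eval_sub, eval_mul,
      eval_C, a2, a4, b4]; ring
  have hr0 : 0 < eval 0 R ^ 2 := by have := H.eval_zero_ne; positivity
  let q : ℕ → ℝ := fun k => if k = 0 then 0 else if k ≤ M + 1 then y (k - 1) else 1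
  have hb : ∀ j ≤ M, 0 < y j ∧ y j < 1 := fun j hj => H.bounds hj (hy j hj).1 (hy j hj).2.1
  have hq : ∀ k < M + 2, q k < q (k + 1) := by
    intro k hk
    rcases Nat.eq_zero_or_pos k with rfl | hk0
    · simpa [q] using (hb 0 (by omega)).1
    · obtain ⟨k, rfl⟩ : ∃ j, k = j + 1 := ⟨k - 1, by omega⟩
      by_cases hK : k + 1 + 1 ≤ M + 1
      · simpa [q, hK, show k + 1 ≤ M + 1 by omega] using
          (hy k (by omega)).2.1.trans (hy (k + 1) (by omega)).1
      · simpa [q, hK, show k + 1 ≤ M + 1 by omega] using (hb k (by omega)).2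
  obtain ⟨z, hz⟩ := ivt P q (M + 2) (eval 0 R) hq (by
    intro k hk
    rcases Nat.eq_zero_or_pos k with rfl | hk0
    · simp only [q, if_true, p0]
      nlinarith
    · obtain ⟨k, rfl⟩ : ∃ j, k = j + 1 := ⟨k - 1, by omega⟩
      by_cases hK : k + 1 ≤ M + 1
      · have e : q (k + 1) = y k := by simp [q, hK]
        obtain ⟨c1, c2, c3, c4, c5⟩ := hy k (by omega)
        have c6 := H.big h0 h1 (by omega) c1 c2 c4
        have c7 := H.sign (by omega) c1 c2.le (Or.inl c2)
        rw [e]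
        simp only [hP, eval_add, eval_sub, eval_mul, eval_C, c3, c5]
        rw [pow_succ]
        nlinarith [mul_pos c7 (sub_pos.2 c6)]
      · have e : q (k + 1) = 1 := by simp [q, hK]
        have e2 : k = M + 1 := by omega
        have := H.sign_one
        rw [e, p1, e2, pow_succ, pow_succ]
        nlinarith)
  have hq0 : q 0 = 0 := by simp [q]
  have hq1 : q (M + 2) = 1 := by simp [q]
  have hqm : ∀ j ≤ M + 2, ∀ i ≤ j, q i ≤ q j := fun j hj i hi => by
    rcases hi.eq_or_lt with rfl | h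
    · exact le_rfl
    · exact (chain hq j hj i h).le
  obtain ⟨a', ζ', H'⟩ := mkRR (P := P) (K := M + 2) (by
      intro h
      rw [h, eval_zero] at p0
      have := H.eval_zero_ne
      exact (mul_ne_zero (by linarith) this) p0.symm)
    (by
      have d1 := natDegree_T H.deg
      have d2 := natDegree_T d1
      refine (natDegree_add_le _ _).trans (max_le ((natDegree_sub_le _ _).trans (max_le d2 ?_)) ?_)
      · exact (natDegree_C_mul_le _ _).trans (by omega)
      · exact H.deg.trans (by omega)) z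
    (fun k hk => ⟨hq0 ▸ (hqm k (by omega) 0 (by omega)).trans_lt (hz k hk).1,
      hq1 ▸ (hz k hk).2.1.trans_le (hqm (M + 2) le_rfl (k + 1) (by omega)), (hz k hk).2.2⟩)
    (fun k hk => (hz k (by omega)).2.1.trans (hz (k + 1) hk).1)
  have hM : (0 : ℝ) ≤ M := Nat.cast_nonneg _
  refine ⟨M + 2, a', ζ', H', ?_, ?_⟩
  · rw [p0, p2]
    push_cast
    have e1 := mul_le_mul_of_nonneg_left h0 (show 0 ≤ (2 - 2 * c) * (5 - 4 * c) by nlinarith)
    have e2 : 0 ≤ (2 - 2 * c) * eval 0 R ^ 2 * ((6 - 4 * c) * M + 4) :=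
      mul_nonneg (mul_nonneg (by linarith) hr0.le) (by nlinarith)
    nlinarith
  · rw [p1, p3]
    push_cast
    have e1 := mul_le_mul_of_nonneg_left h1 (show 0 ≤ (2 + 2 * c) * (5 + 4 * c) by nlinarith)
    have e2 : 0 ≤ (2 + 2 * c) * eval 1 R ^ 2 * ((6 + 4 * c) * M + 4) :=
      mul_nonneg (mul_nonneg (by linarith) (sq_nonneg _)) (by nlinarith)
    nlinarith

theorem RR.final {M : ℕ} {R : ℝ[X]} {a : ℝ} {ζ : ℕ → ℝ} (H : RR M R a ζ) :
    RealRooted R ∧ RealRooted (T R + R) ∧ RealRooted (T R - R) ∧ RealRooted (T (T R) - R) := by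
  classical
  obtain ⟨y, hy⟩ := H.crit
  obtain ⟨a1, a2, -, -⟩ := T_eval R
  obtain ⟨b1, b2, -, -⟩ := T_eval (T R)
  have d1 := natDegree_T H.deg
  have d2 := natDegree_T d1
  have hb : ∀ j ≤ M, 0 < y j ∧ y j < 1 := fun j hj => H.bounds hj (hy j hj).1 (hy j hj).2.1
  have gen : ∀ (P : ℝ[X]) (σ : ℝ) (E : Finset ℝ), E ⊆ {0, 1} → (∀ x ∈ E, eval x P = 0) →
      P.natDegree ≤ M + E.card → (∀ k ≤ M, 0 < (-1) ^ k * σ * eval (y k) P) → RealRooted P := by
    intro P σ E hE h1 h2 h3
    obtain ⟨z, hz⟩ := ivt P y M σ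
      (fun k hk => (hy k (by omega)).2.1.trans (hy (k + 1) (by omega)).1) h3
    have hinj := chain_inj (ζ := z) (K := M) fun k hk => (hz k (by omega)).2.1.trans (hz (k + 1) hk).1
    refine realRooted_of P ?_ ((range M).image z ∪ E) ?_ ?_
    · intro h
      have := h3 0 (by omega)
      rw [h] at this
      simp at this
    · intro x hx
      rcases mem_union.1 hx with hx | hx
      · obtain ⟨k, hk, rfl⟩ := mem_image.1 hx
        exact (hz k (mem_range.1 hk)).2.2
      · exact h1 x hx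
    · rw [card_union_of_disjoint, card_image_of_injOn hinj, card_range]
      · exact h2
      · rw [disjoint_left]
        intro x hx hxE
        obtain ⟨k, hk, rfl⟩ := mem_image.1 hx
        have hk' := mem_range.1 hk
        have c1 := (hb k (by omega)).1
        have c2 := (hb (k + 1) (by omega)).2
        have c3 := hz k hk'
        have := hE hxE
        simp only [mem_insert, mem_singleton] at this
        rcases this with h | h <;> linarith [c3.1, c3.2.1]
  have hs : ∀ k ≤ M, 0 < (-1) ^ k * eval 0 R * eval (y k) R := fun k hk =>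
    H.sign hk (hy k hk).1 (hy k hk).2.1.le (Or.inl (hy k hk).2.1)
  refine ⟨gen R _ ∅ (empty_subset _) (by simp) (by simpa using H.deg) hs,
    gen _ (eval 0 R) {1} (by simp) (by simp [a2]) ?_ ?_,
    gen _ (-eval 0 R) {0} (by simp) (by simp [a1]) ?_ ?_,
    gen _ (-eval 0 R) {0, 1} subset_rfl (by simp [a1, a2, b1, b2]) ?_ ?_⟩
  · exact (natDegree_add_le _ _).trans (max_le (by simpa using d1) (H.deg.trans (by omega)))
  · intro k hk
    rw [eval_add, (hy k hk).2.2.1, zero_add]
    exact hs k hk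
  · exact (natDegree_sub_le _ _).trans (max_le (by simpa using d1) (H.deg.trans (by omega)))
  · intro k hk
    rw [eval_sub, (hy k hk).2.2.1]
    have := hs k hk
    linarith
  · exact (natDegree_sub_le _ _).trans (max_le (by simpa using d2) (H.deg.trans (by omega)))
  · intro k hk
    rw [eval_sub, (hy k hk).2.2.2.2]
    have h1 := hs k hk
    have h2 : 0 ≤ (y k * (1 - y k)) ^ 2 * ∑ i ∈ range (M + 2), (1 / (y k - ζ i)) ^ 2 :=
      mul_nonneg (sq_nonneg _) (sum_nonneg fun i _ => sq_nonneg _)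
    nlinarith

end Pool.Agent.H32.Eul
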