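import Mathlib
import Pool.Agent.H32.EulA

namespace Pool.Agent.H32.Eul

open Polynomial Finset

theorem Inv.smul {R : ℝ[X]} (h : Inv R) {c : ℝ} (hc : c ≠ 0) : Inv (C c * R) := by
  obtain ⟨M, a, ζ, H, h0, h1⟩ := h
  have hp : 0 < c ^ 2 := by positivity
  refine ⟨M, c * a, ζ, ⟨mul_ne_zero hc H.ne, H.zero, H.one, H.lt, ?_⟩, ?_, ?_⟩
  · rw [H.eq, map_mul, mul_assoc]
  · simp only [derivative_C_mul, eval_mul, eval_C]
    nlinarith
  · simp only [derivative_C_mul, eval_mul, eval_C]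
    nlinarith

theorem Inv.aeval (n : ℕ) : ∀ (h : ℝ[X]), h.natDegree = n → h ≠ 0 →
    (∀ z : ℂ, aeval z h = 0 → ‖z‖ = 1 ∧ z.im ≠ 0) → ∀ R, Inv R → Inv (aeval T h R) := by
  induction n using Nat.strong_induction_on with
  | _ n ih =>
    intro h hn h0 hz R hR
    rcases Nat.eq_zero_or_pos n with rfl | hpos
    · rw [eq_C_of_natDegree_eq_zero hn] at h0 ⊢
      have := hR.smul (c := h.coeff 0) (by simpa using h0)
      simpa [Algebra.algebraMap_eq_smul_one, smul_eq_C_mul] using this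
    · obtain ⟨z, hz0⟩ := IsAlgClosed.exists_aeval_eq_zero ℂ h
        (by rw [degree_eq_natDegree h0, hn]; exact_mod_cast hpos.ne')
      obtain ⟨z1, z2⟩ := hz z hz0
      obtain ⟨g, hg⟩ := quadratic_dvd_of_aeval_eq_zero_im_ne_zero h hz0 z2
      rw [z1, one_pow, map_one] at hg
      have hg0 : g ≠ 0 := by rintro rfl; simp at hg; exact h0 hg
      have hq : (X ^ 2 - C (2 * z.re) * X + 1 : ℝ[X]).natDegree = 2 := by compute_degree!
      have hq0 : (X ^ 2 - C (2 * z.re) * X + 1 : ℝ[X]) ≠ 0 := by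
        intro h; rw [h] at hq; simp at hq
      have hd : g.natDegree < n := by
        rw [← hn, hg, natDegree_mul hq0 hg0, hq]; omega
      have hre : z.re ^ 2 < 1 := by
        have h1 := Complex.sq_norm z
        rw [z1, Complex.normSq_apply] at h1
        have : 0 < z.im * z.im := mul_self_pos.2 z2
        nlinarith
      have h2 := ih _ hd g rfl hg0 (fun w hw => hz w (by rw [hg, map_mul, hw, mul_zero])) _
        (hR.quad (c := z.re) (by nlinarith) (by nlinarith))
      rw [hg, mul_comm, map_mul, Module.End.mul_apply]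
      convert h2 using 2
      simp [sq, Algebra.algebraMap_eq_smul_one, smul_eq_C_mul]
      ring

theorem RR_pow (k : ℕ) : ∃ a ζ, RR k ((T ^ k) 1) a ζ := by
  induction k with
  | zero => exact mkRR (by simp) (by simp) (fun _ => 0) (by simp) (by simp)
  | succ k ih =>
    obtain ⟨a, ζ, H⟩ := ih
    rw [pow_succ', Module.End.mul_apply]
    exact H.apply_T

theorem eval_pow_T (k : ℕ) : eval 0 ((T ^ k) 1) = 1 ∧ eval 1 ((T ^ k) 1) = (-1) ^ k ∧
    eval 0 (derivative ((T ^ k) 1)) = 2 - 2 * 2 ^ k ∧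
    eval 1 (derivative ((T ^ k) 1)) = (-1) ^ k * (2 * 2 ^ k - 2) := by
  induction k with
  | zero => simp
  | succ k ih =>
    obtain ⟨a1, a2, a3, a4⟩ := T_eval ((T ^ k) 1)
    obtain ⟨b1, b2, b3, b4⟩ := ih
    rw [pow_succ', Module.End.mul_apply, a1, a2, a3, a4, b1, b2, b3, b4]
    refine ⟨rfl, by ring, by ring, by ring⟩

theorem Inv_pow (k : ℕ) (hk : 2 ≤ k) : Inv ((T ^ k) 1) := by
  obtain ⟨a, ζ, H⟩ := RR_pow k
  obtain ⟨b1, b2, b3, b4⟩ := eval_pow_T k
  have h1 : (k : ℝ) + 2 ≤ 2 ^ k := by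
    have : ∀ j : ℕ, j + 4 ≤ 2 ^ (j + 2) := by
      intro j
      induction j with
      | zero => norm_num
      | succ j ih => rw [pow_succ]; omega
    have h2 := this (k - 2)
    rw [show k - 2 + 2 = k by omega] at h2
    have h3 : k + 2 ≤ 2 ^ k := by omega
    exact_mod_cast h3
  have h2 : ((-1 : ℝ) ^ k) ^ 2 = 1 := by rw [← pow_mul, mul_comm, pow_mul]; simp
  refine ⟨k, a, ζ, H, ?_, ?_⟩
  · rw [b1, b3]; linarith
  · rw [b2, b4]
    nlinarith

def Good (e : ℝ[X]) : Prop := e = 1 ∨ e = X + 1 ∨ e = X - 1 ∨ e = X ^ 2 - 1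

theorem Good.final {e : ℝ[X]} (he : Good e) {M : ℕ} {R : ℝ[X]} {a : ℝ} {ζ : ℕ → ℝ}
    (H : RR M R a ζ) : RealRooted (aeval T e R) := by
  obtain ⟨h1, h2, h3, h4⟩ := H.final
  rcases he with rfl | rfl | rfl | rfl
  · simpa using h1
  · simpa using h2
  · simpa using h3
  · simpa [sq] using h4

theorem strip {g : ℝ[X]} (hg : Squarefree g) (x : ℝ) :
    ∃ e h : ℝ[X], g = e * h ∧ (e = 1 ∨ e = X - C x) ∧ eval x h ≠ 0 := by
  by_cases h0 : eval x g = 0
  · obtain ⟨h, hh⟩ := dvd_iff_isRoot.2 h0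
    refine ⟨_, h, hh, Or.inr rfl, fun h1 => ?_⟩
    obtain ⟨k, hk⟩ := dvd_iff_isRoot.2 h1
    exact not_isUnit_X_sub_C x (hg _ ⟨k, by rw [hh, hk, mul_assoc]⟩)
  · exact ⟨1, g, by simp, Or.inl rfl, h0⟩

theorem decomp (r : ℕ) (hr : 0 < r) (s : ℝ) (hs : s = 1 ∨ s = -1) :
    ∃ e h : ℝ[X], X ^ r + C s = e * h ∧ Good e ∧ h ≠ 0 ∧
      ∀ z : ℂ, aeval z h = 0 → ‖z‖ = 1 ∧ z.im ≠ 0 := by
  have hs0 : s ≠ 0 := by rcases hs with rfl | rfl <;> norm_num
  have hsq : Squarefree (X ^ r + C s : ℝ[X]) := by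
    have := (separable_X_pow_sub_C (n := r) (-s) (by exact_mod_cast hr.ne') (neg_ne_zero.2 hs0)).squarefree
    simpa using this
  obtain ⟨e1, h1, a1, a2, a3⟩ := strip hsq 1
  obtain ⟨e2, h2, b1, b2, b3⟩ := strip (hsq.squarefree_of_dvd ⟨e1, by rw [a1, mul_comm]⟩) (-1)
  refine ⟨e1 * e2, h2, by rw [a1, b1, mul_assoc], ?_, by rintro rfl; simp at b3, ?_⟩
  · rcases a2 with rfl | rfl <;> rcases b2 with rfl | rfl
    · left; simp
    · right; left; simp
    · right; right; left; simp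
    · right; right; right; simp; ring
  · intro z hz
    have h3 : aeval z (X ^ r + C s : ℝ[X]) = 0 := by rw [a1, b1, map_mul, map_mul, hz]; simp
    simp only [map_add, map_pow, aeval_X, aeval_C, add_eq_zero_iff_eq_neg] at h3
    have h4 : ‖z‖ = 1 := by
      have h5 := congrArg norm h3
      rw [norm_pow, norm_neg] at h5
      have : ‖algebraMap ℝ ℂ s‖ = 1 := by rcases hs with rfl | rfl <;> simp
      rw [this] at h5
      exact (pow_eq_one_iff_of_nonneg (norm_nonneg _) hr.ne').1 h5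
    refine ⟨h4, fun him => ?_⟩
    have h6 : z = algebraMap ℝ ℂ z.re := by
      apply Complex.ext <;> simp [him]
    rw [h6, aeval_algebraMap_apply_eq_algebraMap_eval, map_eq_zero] at hz
    have h7 : |z.re| = 1 := by rw [h6] at h4; simpa using h4
    rcases (abs_eq zero_le_one).1 h7 with h | h
    · apply a3
      rw [b1, eval_mul, ← h, hz, mul_zero]
    · exact b3 (h ▸ hz)

theorem main_real (k r : ℕ) (hr : 0 < r) (hrk : r ≤ k + 1) (s : ℝ) (hs : s = 1 ∨ s = -1) :
    RealRooted ((T ^ (k + r)) 1 + C s * (T ^ k) 1) := by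
  have e : (T ^ (k + r)) 1 + C s * (T ^ k) 1 = aeval T (X ^ r + C s : ℝ[X]) ((T ^ k) 1) := by
    rw [add_comm k r, pow_add]
    simp [Algebra.algebraMap_eq_smul_one, smul_eq_C_mul]
  obtain ⟨a, ζ, H⟩ := RR_pow k
  by_cases hk : 2 ≤ k
  · obtain ⟨e1, h, h1, h2, h3, h4⟩ := decomp r hr s hs
    obtain ⟨M, a', ζ', H', -⟩ := Inv.aeval _ h rfl h3 h4 _ (Inv_pow k hk)
    rw [e, h1, map_mul, Module.End.mul_apply]
    exact h2.final H'
  by_cases hr1 : r = 1
  · subst hr1
    rw [e]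
    refine Good.final ?_ H
    rcases hs with rfl | rfl
    · right; left; simp
    · right; right; left; simp [sub_eq_add_neg]
  have hk1 : k = 1 := by omega
  have hr2 : r = 2 := by omega
  subst hk1 hr2
  rcases hs with rfl | rfl
  · have e2 : (T ^ (1 + 2)) 1 + C 1 * (T ^ 1) 1 = (2 * (1 - 2 * X) * (6 * X ^ 2 - 6 * X + 1) : ℝ[X]) := by
      have t1 : T 1 = 1 - 2 * X := by simp [T_apply]
      have t2 : T (1 - 2 * X) = 6 * X ^ 2 - 6 * X + 1 := by
        simp [T_apply]; ring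
      have t3 : T (6 * X ^ 2 - 6 * X + 1) = (1 - 2 * X) * (12 * X ^ 2 - 12 * X + 1) := by
        simp [T_apply]; ring
      simp only [pow_succ, pow_zero, one_mul, Module.End.mul_apply, t1, t2, map_one]
      rw [← sq, t3]
      ring
    rw [e2]
    intro z hz
    simp only [map_mul, map_sub, map_add, map_pow, map_ofNat, map_one, aeval_X, mul_eq_zero] at hz
    rcases hz with (h | h) | h
    · norm_num at h
    · have := congrArg Complex.im h
      simpa using this
    · have h1 := congrArg Complex.im h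
      have h2 := congrArg Complex.re h
      simp [sq] at h1 h2
      by_contra hc
      have h3 : z.re = 1 / 2 := by
        have : z.im * (2 * z.re - 1) = 0 := by linarith
        have := (mul_eq_zero.1 this).resolve_left hc
        linarith
      rw [h3] at h2
      nlinarith [sq_nonneg z.im]
  · rw [e]
    refine Good.final ?_ H
    right; right; right; simp [sub_eq_add_neg]

end Pool.Agent.H32.Eul
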