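import Mathlib
import Pool.Agent.H32.EulB

namespace Pool.Agent.H32.Eul

open Polynomial

noncomputable def cf (a b : ℕ) : ℝ[X] := if b < a then -X else 1 - X

noncomputable def w : List ℕ → ℝ[X]
  | [] => 1
  | [_] => 1
  | a :: b :: l => cf a b * w (b :: l)

noncomputable def sg : List ℕ → ℝ[X]
  | [] => 1
  | a :: l => (l.map fun b => if a < b then (1 : ℝ[X]) else -1).prod * sg l

noncomputable def δ (R : ℝ[X]) : ℝ[X] := X * (1 - X) * derivative R

theorem δ_cf (a b : ℕ) (R : ℝ[X]) : δ (cf a b * R) = -X * (1 - X) * R + cf a b * δ R := by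
  unfold δ cf
  split_ifs <;> simp <;> ring

theorem cf_up {a b : ℕ} (h : a < b) : cf a b = 1 - X := if_neg (by omega)

theorem cf_down {a b : ℕ} (h : b < a) : cf a b = -X := if_pos h

theorem ins_ne {M : ℕ} {l u : List ℕ} (h : u ∈ List.permutations'Aux M l) : u.Perm (M :: l) := by
  induction l generalizing u with
  | nil => simp at h; simp [h]
  | cons b l ih =>
    simp only [List.permutations'Aux, List.mem_cons, List.mem_map] at h
    rcases h with rfl | ⟨v, hv, rfl⟩
    · exact List.Perm.refl _
    · exact ((ih hv).cons b).trans (List.Perm.swap _ _ _)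

theorem ins_one (M : ℕ) (l : List ℕ) : ∀ a, a < M → (∀ b ∈ l, b < M) →
    ((List.permutations'Aux M l).map fun u => w (a :: u)).sum
      = (1 - X) * w (a :: l) + δ (w (a :: l)) := by
  induction l with
  | nil => intro a ha _; simp [w, cf_up ha, δ]
  | cons b l ih =>
    intro a ha hl
    have hb := hl b (by simp)
    simp only [List.permutations'Aux, List.map_cons, List.sum_cons, List.map_map,
      Function.comp_def, w]
    rw [List.sum_map_mul_left, ih b hb fun c hc => hl c (by simp [hc]), δ_cf, cf_up ha, cf_down hb]
    ring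

theorem ins_one' (M : ℕ) (l : List ℕ) (hne : l ≠ []) (hl : ∀ b ∈ l, b < M) :
    ((List.permutations'Aux M l).map w).sum = T (w l) := by
  obtain ⟨b, l, rfl⟩ := List.exists_cons_of_ne_nil hne
  have hb := hl b (by simp)
  simp only [List.permutations'Aux, List.map_cons, List.sum_cons, List.map_map,
    Function.comp_def, w]
  rw [ins_one M l b hb fun c hc => hl c (by simp [hc]), T_apply, cf_down hb]
  unfold δ
  ring

theorem sg_big {M : ℕ} {l : List ℕ} (hl : ∀ b ∈ l, b < M) : sg (M :: l) = (-1) ^ l.length * sg l := by
  rw [sg, List.map_congr_left (g := fun _ => -1) fun b hb => if_neg (by have := hl b hb; omega)]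
  simp

theorem sg_ins {M b : ℕ} {l u : List ℕ} (hb : b < M) (h : u.Perm (M :: l)) :
    (u.map fun c => if b < c then (1 : ℝ[X]) else -1).prod
      = (l.map fun c => if b < c then (1 : ℝ[X]) else -1).prod := by
  rw [(h.map _).prod_eq]
  simp [hb]

theorem ins_indep (M M' : ℕ) (l : List ℕ) : ∀ a, a < M → a < M' → (∀ b ∈ l, b < M ∧ b < M') →
    ((List.permutations'Aux M l).map fun u => sg u * w (a :: u)).sum
      = ((List.permutations'Aux M' l).map fun u => sg u * w (a :: u)).sum := by
  induction l with
  | nil => intro a ha ha' _; simp [w, cf_up ha, cf_up ha', sg]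
  | cons b l ih =>
    intro a ha ha' hl
    have hb := hl b (by simp)
    have key : ∀ M, b < M → ((List.permutations'Aux M l).map fun u => sg (b :: u) * w (a :: b :: u)).sum
        = (l.map fun c => if b < c then (1 : ℝ[X]) else -1).prod * cf a b *
          ((List.permutations'Aux M l).map fun u => sg u * w (b :: u)).sum := by
      intro M hM
      rw [← List.sum_map_mul_left]
      congr 1
      refine List.map_congr_left fun u hu => ?_
      rw [sg, w, sg_ins hM (ins_ne hu)]
      ring
    simp only [List.permutations'Aux, List.map_cons, List.sum_cons, List.map_map,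
      Function.comp_def]
    rw [key M hb.1, key M' hb.2, ih b hb.1 hb.2 fun c hc => hl c (by simp [hc]),
      sg_big fun c hc => (hl c hc).1, sg_big fun c hc => (hl c hc).2]
    simp only [w, cf_up ha, cf_up ha', cf_down hb.1, cf_down hb.2]

theorem two_decomp (M : ℕ) (b : ℕ) (l : List ℕ) (hl : ∀ c ∈ b :: l, c < M) (φ : List ℕ → ℝ[X])
    (k : ℝ[X]) (h1 : ∀ u, φ (M :: b :: u) = k * w (b :: u))
    (h2 : ∀ u, φ ((M + 1) :: b :: u) = k * w (b :: u)) :
    ((List.permutations'Aux M (b :: l)).map fun u =>
      ((List.permutations'Aux (M + 1) u).map fun v => sg v * φ v).sum).sum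
      = sg (b :: l) * (φ (M :: (M + 1) :: b :: l) - φ ((M + 1) :: M :: b :: l)) +
        (l.map fun c => if b < c then (1 : ℝ[X]) else -1).prod *
        ((List.permutations'Aux M l).map fun u =>
          ((List.permutations'Aux (M + 1) u).map fun v => sg v * φ (b :: v)).sum).sum := by
  have hb := hl b (by simp)
  set ε := (l.map fun c => if b < c then (1 : ℝ[X]) else -1).prod with hε
  have s1 : sg ((M + 1) :: M :: b :: l) = - sg (b :: l) := by
    rw [sg_big (M := M + 1) (by
      intro c hc
      rcases List.mem_cons.1 hc with rfl | hc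
      · omega
      · have := hl c hc; omega), sg_big hl, ← mul_assoc, ← pow_add]
    simp only [List.length_cons]
    rw [Odd.neg_one_pow ⟨l.length + 1, by ring⟩]
    ring
  have s2 : sg (M :: (M + 1) :: b :: l) = sg (b :: l) := by
    rw [sg, sg_ins (M := M + 1) (l := b :: l) (by omega) (List.Perm.refl _),
      List.map_congr_left (g := fun _ => -1) fun c hc => if_neg (by have := hl c hc; omega),
      sg_big (M := M + 1) fun c hc => by have := hl c hc; omega]
    simp only [List.map_const', List.prod_replicate]
    rw [← mul_assoc, ← pow_add, Even.neg_one_pow ⟨_, rfl⟩, one_mul]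
  have s3 : ((List.permutations'Aux (M + 1) l).map fun u => sg (M :: b :: u) * φ (M :: b :: u)).sum
      = (-1) ^ (l.length + 1) * ε * k *
        ((List.permutations'Aux (M + 1) l).map fun u => sg u * w (b :: u)).sum := by
    rw [← List.sum_map_mul_left]
    congr 1
    refine List.map_congr_left fun u hu => ?_
    rw [h1, sg, sg_ins (M := M + 1) (l := b :: l) (by omega)
      (((ins_ne hu).cons b).trans (List.Perm.swap _ _ _)),
      List.map_congr_left (g := fun _ => -1) fun c hc => if_neg (by have := hl c hc; omega),
      sg, sg_ins (M := M + 1) (by omega) (ins_ne hu)]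
    simp only [List.map_const', List.prod_replicate, List.length_cons]
    ring
  have s4 : ((List.permutations'Aux M l).map fun u =>
        sg ((M + 1) :: b :: u) * φ ((M + 1) :: b :: u)).sum
      = (-1) ^ (l.length + 2) * ε * k *
        ((List.permutations'Aux M l).map fun u => sg u * w (b :: u)).sum := by
    rw [← List.sum_map_mul_left]
    congr 1
    refine List.map_congr_left fun u hu => ?_
    rw [h2, sg_big (M := M + 1) (by
      intro c hc
      rcases List.mem_cons.1 hc with rfl | hc
      · omega
      · rcases List.mem_cons.1 ((ins_ne hu).subset hc) with rfl | hc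
        · omega
        · have := hl c (by simp [hc]); omega), sg, sg_ins hb (ins_ne hu)]
    simp only [List.length_cons, (ins_ne hu).length_eq]
    ring
  have s5 : ((List.permutations'Aux M l).map fun u =>
        ((List.permutations'Aux (M + 1) u).map fun v => sg (b :: v) * φ (b :: v)).sum).sum
      = ε * ((List.permutations'Aux M l).map fun u =>
          ((List.permutations'Aux (M + 1) u).map fun v => sg v * φ (b :: v)).sum).sum := by
    rw [← List.sum_map_mul_left]
    congr 1
    refine List.map_congr_left fun u hu => ?_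
    rw [← List.sum_map_mul_left]
    congr 1
    refine List.map_congr_left fun v hv => ?_
    rw [sg, sg_ins (M := M + 1) (by omega) (ins_ne hv), sg_ins hb (ins_ne hu)]
    ring
  simp only [List.permutations'Aux, List.map_cons, List.sum_cons, List.map_map,
    Function.comp_def, List.sum_map_add]
  rw [s1, s2, s3, s4, s5, ins_indep (M + 1) M l b (by omega) hb
    fun c hc => by have := hl c (by simp [hc]); omega]
  ring

theorem ins_two (M : ℕ) (l : List ℕ) : ∀ a, a < M → (∀ b ∈ l, b < M) →
    ((List.permutations'Aux M l).map fun u =>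
      ((List.permutations'Aux (M + 1) u).map fun v => sg v * w (a :: v)).sum).sum
      = sg l * ((1 - X) * w (a :: l) + δ (w (a :: l))) := by
  induction l with
  | nil =>
    intro a ha _
    simp [w, sg, δ, cf_up ha, cf_up (show a < M + 1 by omega), cf_up (Nat.lt_succ_self M),
      cf_down (Nat.lt_succ_self M)]
    ring
  | cons b l ih =>
    intro a ha hl
    have hb := hl b (by simp)
    rw [two_decomp M b l hl (fun v => w (a :: v)) ((1 - X) * (-X))
      (fun u => by simp only [w, cf_up ha, cf_down hb]; ring)
      (fun u => by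
        simp only [w, cf_up (show a < M + 1 by omega), cf_down (show b < M + 1 by omega)]; ring)]
    have e : ((List.permutations'Aux M l).map fun u =>
        ((List.permutations'Aux (M + 1) u).map fun v => sg v * w (a :: b :: v)).sum).sum
        = cf a b * ((List.permutations'Aux M l).map fun u =>
        ((List.permutations'Aux (M + 1) u).map fun v => sg v * w (b :: v)).sum).sum := by
      rw [← List.sum_map_mul_left]
      congr 1
      refine List.map_congr_left fun u hu => ?_
      rw [← List.sum_map_mul_left]
      congr 1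
      refine List.map_congr_left fun v hv => ?_
      rw [w]; ring
    rw [e, ih b hb fun c hc => hl c (by simp [hc])]
    simp only [w, sg, δ_cf, cf_up ha, cf_up (show a < M + 1 by omega), cf_up (Nat.lt_succ_self M),
      cf_down (Nat.lt_succ_self M), cf_down hb, cf_down (show b < M + 1 by omega)]
    ring

theorem sg_const (l : List ℕ) : ∃ c : ℝ, sg l = C c := by
  induction l with
  | nil => exact ⟨1, by simp [sg]⟩
  | cons a l ih =>
    obtain ⟨c, hc⟩ := ih
    refine ⟨(l.map fun b => if a < b then (1 : ℝ) else -1).prod * c, ?_⟩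
    rw [sg, hc, map_mul, map_list_prod, List.map_map]
    congr 2
    refine List.map_congr_left fun b _ => ?_
    simp only [Function.comp_apply]
    split_ifs <;> simp

theorem ins_two' (M : ℕ) (l : List ℕ) (hne : l ≠ []) (hl : ∀ b ∈ l, b < M) :
    ((List.permutations'Aux M l).map fun u =>
      ((List.permutations'Aux (M + 1) u).map fun v => sg v * w v).sum).sum
      = T (sg l * w l) := by
  obtain ⟨b, l, rfl⟩ := List.exists_cons_of_ne_nil hne
  have hb := hl b (by simp)
  obtain ⟨c, hc⟩ := sg_const (b :: l)
  have e : T (sg (b :: l) * w (b :: l)) = sg (b :: l) * T (w (b :: l)) := by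
    rw [hc, ← smul_eq_C_mul, ← smul_eq_C_mul, map_smul]
  rw [e, two_decomp M b l hl w (-X) (fun u => by simp only [w, cf_down hb])
    (fun u => by simp only [w, cf_down (show b < M + 1 by omega)]),
    ins_two M l b hb fun c hc => hl c (by simp [hc]), T_apply]
  simp only [w, sg, δ, cf_up (Nat.lt_succ_self M),
    cf_down (Nat.lt_succ_self M), cf_down hb, cf_down (show b < M + 1 by omega)]
  ring

def desc : ℕ → List ℕ
  | 0 => []
  | n + 1 => n :: desc n

theorem mem_desc {n b : ℕ} : b ∈ desc n ↔ b < n := by
  induction n with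
  | zero => simp [desc]
  | succ n ih => simp [desc, ih]; omega

theorem nodup_desc (n : ℕ) : (desc n).Nodup := by
  induction n with
  | zero => simp [desc]
  | succ n ih => simp [desc, ih, mem_desc]

theorem length_desc (n : ℕ) : (desc n).length = n := by
  induction n with
  | zero => rfl
  | succ n ih => simp [desc, ih]

theorem sum_flatMap {α β : Type} (L : List α) (f : α → List β) (g : β → ℝ[X]) :
    ((L.flatMap f).map g).sum = (L.map fun a => ((f a).map g).sum).sum := by
  induction L with
  | nil => simp
  | cons a L ih => simp [List.flatMap_cons, ih]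

theorem perm_facts {n : ℕ} {l : List ℕ} (h : l ∈ (desc (n + 1)).permutations') :
    l ≠ [] ∧ ∀ b ∈ l, b < n + 1 := by
  have h1 := List.mem_permutations'.1 h
  refine ⟨fun h2 => ?_, fun b hb => mem_desc.1 (h1.subset hb)⟩
  rw [h2] at h1
  simpa [desc] using h1.length_eq

theorem sum_w (n : ℕ) : ((desc (n + 1)).permutations'.map w).sum = (T ^ n) 1 := by
  induction n with
  | zero => simp [desc, w]
  | succ n ih =>
    rw [pow_succ', Module.End.mul_apply, ← ih, map_list_sum, List.map_map, desc,
      List.permutations', sum_flatMap]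
    congr 1
    exact List.map_congr_left fun l hl => ins_one' _ l (perm_facts hl).1 (perm_facts hl).2

theorem sum_sgw (n : ℕ) :
    ((desc (n + 1)).permutations'.map fun l => sg l * w l).sum = (T ^ (n / 2)) 1 := by
  induction n using Nat.twoStepInduction with
  | zero => simp [desc, w, sg]
  | one => simp [desc, w, sg, cf]
  | more n ih _ =>
    rw [show (n + 2) / 2 = n / 2 + 1 by omega, pow_succ', Module.End.mul_apply, ← ih, map_list_sum,
      List.map_map, desc, List.permutations', sum_flatMap, desc, List.permutations', sum_flatMap]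
    congr 1
    exact List.map_congr_left fun l hl => ins_two' _ l (perm_facts hl).1 (perm_facts hl).2

theorem sum_perm (n : ℕ) (F : List ℕ → ℝ[X]) :
    ∑ π : Equiv.Perm (Fin n), F (List.ofFn fun i => (π i : ℕ))
      = ((desc n).permutations'.map F).sum := by
  have hnd : (desc n).permutations'.Nodup :=
    (List.permutations_perm_permutations' _).nodup_iff.1 (List.nodup_permutations _ (nodup_desc n))
  rw [← List.sum_toFinset _ hnd]
  have hinj : ∀ π ρ : Equiv.Perm (Fin n),
      (List.ofFn fun i => (π i : ℕ)) = (List.ofFn fun i => (ρ i : ℕ)) → π = ρ := by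
    intro π ρ h
    ext i
    exact congrFun (List.ofFn_injective h) i
  have hmem : ∀ π : Equiv.Perm (Fin n),
      (List.ofFn fun i => (π i : ℕ)) ∈ (desc n).permutations'.toFinset := by
    intro π
    rw [List.mem_toFinset, List.mem_permutations']
    refine (List.perm_ext_iff_of_nodup
      (List.nodup_ofFn.2 (Fin.val_injective.comp π.injective)) (nodup_desc n)).2 fun b => ?_
    rw [mem_desc, List.mem_ofFn]
    constructor
    · rintro ⟨i, rfl⟩; exact (π i).2
    · intro hb; exact ⟨π.symm ⟨b, hb⟩, by simp⟩
  refine Finset.sum_bij (fun π _ => List.ofFn fun i => (π i : ℕ)) (fun π _ => hmem π)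
    (fun π _ ρ _ h => hinj π ρ h) ?_ (fun _ _ => rfl)
  intro l hl
  obtain ⟨π, h1, h2⟩ := Finset.surj_on_of_inj_on_of_card_le
    (s := (Finset.univ : Finset (Equiv.Perm (Fin n))))
    (fun π _ => List.ofFn fun i => (π i : ℕ)) (fun π _ => hmem π)
    (fun π ρ _ _ h => hinj π ρ h) (by
      rw [List.toFinset_card_of_nodup hnd, ← (List.permutations_perm_permutations' _).length_eq,
        List.length_permutations, length_desc, Finset.card_univ, Fintype.card_perm,
        Fintype.card_fin]) l hl
  exact ⟨π, h1, h2.symm⟩

theorem w_ofFn (n : ℕ) : ∀ f : Fin (n + 1) → ℕ,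
    w (List.ofFn f) = ∏ i : Fin n, cf (f i.castSucc) (f i.succ) := by
  induction n with
  | zero => intro f; simp [w]
  | succ n ih =>
    intro f
    have := ih fun i => f i.succ
    rw [List.ofFn_succ] at this
    rw [List.ofFn_succ, List.ofFn_succ, w, this, Fin.prod_univ_succ]
    rfl

theorem sg_ofFn (n : ℕ) : ∀ f : Fin n → ℕ,
    sg (List.ofFn f) = ∏ i, ∏ j ∈ Finset.Ioi i, if f i < f j then (1 : ℝ[X]) else -1 := by
  induction n with
  | zero => intro f; simp [sg]
  | succ n ih =>
    intro f
    rw [List.ofFn_succ, sg, ih, Fin.prod_univ_succ, List.map_ofFn, List.prod_ofFn,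
      Fin.prod_Ioi_zero]
    simp only [Fin.prod_Ioi_succ, Function.comp_apply]

theorem sg_perm (n : ℕ) (π : Equiv.Perm (Fin n)) :
    sg (List.ofFn fun i => (π i : ℕ)) = ((Equiv.Perm.sign π : ℤ) : ℝ[X]) := by
  rw [sg_ofFn, Equiv.Perm.sign_eq_prod_prod_Ioi]
  simp only [Units.coe_prod, Int.cast_prod]
  refine Finset.prod_congr rfl fun i _ => Finset.prod_congr rfl fun j _ => ?_
  simp only [Fin.val_fin_lt]
  split_ifs <;> simp

theorem des_eq (n : ℕ) (π : Equiv.Perm (Fin (n + 1))) :
    ((Finset.univ : Finset (Fin (n + 1) × Fin (n + 1))).filter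
      (fun p => p.2.val = p.1.val + 1 ∧ π p.2 < π p.1)).card
      = (Finset.univ.filter fun i : Fin n => π i.succ < π i.castSucc).card := by
  symm
  refine Finset.card_bij (fun i _ => (i.castSucc, i.succ)) ?_ ?_ ?_
  · intro i hi; simpa using hi
  · intro i _ j _ h
    exact Fin.succ_injective _ (congrArg Prod.snd h)
  · rintro ⟨p, q⟩ h
    simp only [Finset.mem_filter, Finset.mem_univ, true_and] at h
    have hp : p.val < n := by have := q.2; omega
    have e1 : (⟨p.val, hp⟩ : Fin n).castSucc = p := rfl
    have e2 : (⟨p.val, hp⟩ : Fin n).succ = q := Fin.ext (by simp [h.1])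
    exact ⟨⟨p.val, hp⟩, by simp only [Finset.mem_filter, Finset.mem_univ, true_and, e1, e2, h.2],
      by rw [e1, e2]⟩

theorem aeval_w (n : ℕ) (π : Equiv.Perm (Fin (n + 1))) (z σ : ℂ) (h : -σ = z * (1 - σ)) :
    aeval σ (w (List.ofFn fun i => (π i : ℕ))) = (1 - σ) ^ n *
      z ^ (Finset.univ.filter fun i : Fin n => π i.succ < π i.castSucc).card := by
  rw [w_ofFn, map_prod, ← Finset.prod_const, Finset.prod_filter,
    show (1 - σ) ^ n = ∏ _i : Fin n, (1 - σ) by simp, ← Finset.prod_mul_distrib]
  refine Finset.prod_congr rfl fun i _ => ?_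
  simp only [cf, Fin.val_fin_lt]
  split_ifs
  · simp [h, mul_comm]
  · simp

end Pool.Agent.H32.Eul
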