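import Mathlib

set_option autoImplicit false

open scoped TensorProduct
open MulOpposite

namespace Pool.Agent.H32.FJ

universe u

variable (K : Type u) [Field K] (σ : Type) [Fintype σ] [DecidableEq σ]

abbrev A := FreeAlgebra K σ
abbrev U := FreeAlgebra K σ ⊗[K] (FreeAlgebra K σ)ᵐᵒᵖ

variable {K σ}

noncomputable def lam : A K σ →ₐ[K] U K σ := Algebra.TensorProduct.includeLeft

noncomputable def rho (b : A K σ) : U K σ := (1 : A K σ) ⊗ₜ[K] op b

noncomputable def rhoL : A K σ →ₗ[K] U K σ :=
  (Algebra.TensorProduct.includeRight : (A K σ)ᵐᵒᵖ →ₐ[K] U K σ).toLinearMap ∘ₗ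
    (opLinearEquiv K : A K σ ≃ₗ[K] (A K σ)ᵐᵒᵖ).toLinearMap

omit [Fintype σ] [DecidableEq σ] in
lemma rhoL_apply (b : A K σ) : rhoL b = rho b := rfl

omit [Fintype σ] [DecidableEq σ] in
lemma lam_apply (a : A K σ) : lam a = a ⊗ₜ[K] (1 : (A K σ)ᵐᵒᵖ) := rfl

omit [Fintype σ] [DecidableEq σ] in
lemma rho_mul (a b : A K σ) : rho (a * b) = rho b * rho a := by
  simp [rho, Algebra.TensorProduct.tmul_mul_tmul]

omit [Fintype σ] [DecidableEq σ] in
lemma rho_add (a b : A K σ) : rho (a + b) = rho a + rho b := by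
  simp [rho, TensorProduct.tmul_add]

omit [Fintype σ] [DecidableEq σ] in
lemma rho_sub (a b : A K σ) : rho (a - b) = rho a - rho b := by
  simp [rho, TensorProduct.tmul_sub]

omit [Fintype σ] [DecidableEq σ] in
lemma rho_smul (c : K) (a : A K σ) : rho (c • a) = c • rho a := by
  simp [rho, TensorProduct.tmul_smul]

omit [Fintype σ] [DecidableEq σ] in
lemma rho_one : rho (1 : A K σ) = 1 := rfl

omit [Fintype σ] [DecidableEq σ] in
lemma rho_zero : rho (0 : A K σ) = 0 := by simp [rho]

omit [Fintype σ] [DecidableEq σ] in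
lemma rho_algebraMap (c : K) : rho (algebraMap K (A K σ) c) = algebraMap K (U K σ) c := by
  rw [Algebra.algebraMap_eq_smul_one, rho_smul, rho_one, Algebra.algebraMap_eq_smul_one]

omit [Fintype σ] [DecidableEq σ] in
lemma lam_rho_comm (a b : A K σ) : lam a * rho b = rho b * lam a := by
  simp [rho, lam_apply, Algebra.TensorProduct.tmul_mul_tmul]

omit [Fintype σ] [DecidableEq σ] in
lemma tmul_eq (a : A K σ) (b : (A K σ)ᵐᵒᵖ) : a ⊗ₜ[K] b = lam a * rho (unop b) := by
  simp [rho, lam_apply, Algebra.TensorProduct.tmul_mul_tmul]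

/-- generator action used to build the two-sided Fox derivative -/
noncomputable def genAct (j i : σ) : Module.End K (U K σ × A K σ) :=
  LinearMap.prod
    ((LinearMap.mulLeft K (lam (FreeAlgebra.ι K i))) ∘ₗ LinearMap.fst K _ _ +
      (if i = j then rhoL else 0) ∘ₗ LinearMap.snd K _ _)
    ((LinearMap.mulLeft K (FreeAlgebra.ι K i)) ∘ₗ LinearMap.snd K _ _)

noncomputable def act (j : σ) : A K σ →ₐ[K] Module.End K (U K σ × A K σ) :=
  FreeAlgebra.lift K (genAct j)

noncomputable def der (j : σ) : A K σ →ₗ[K] U K σ :=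
  LinearMap.fst K _ _ ∘ₗ (LinearMap.applyₗ ((0 : U K σ), (1 : A K σ))) ∘ₗ (act j).toLinearMap

omit [Fintype σ] in
lemma der_def (j : σ) (a : A K σ) : der j a = (act j a (0, 1)).1 := rfl

omit [Fintype σ] in
lemma der_ι (j i : σ) : der j (FreeAlgebra.ι K i) = if i = j then 1 else 0 := by
  rw [der_def, act, FreeAlgebra.lift_ι_apply]
  by_cases h : i = j <;> simp [genAct, h, rhoL_apply, rho_one]

omit [Fintype σ] in
lemma der_algebraMap (j : σ) (c : K) : der j (algebraMap K (A K σ) c) = 0 := by
  rw [der_def, AlgHom.commutes]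
  simp

omit [Fintype σ] in
lemma der_one (j : σ) : der j (1 : A K σ) = 0 := by
  simpa using der_algebraMap (K := K) j 1

omit [Fintype σ] in
lemma act_apply (j : σ) (a : A K σ) : ∀ (u : U K σ) (b : A K σ),
    act j a (u, b) = (lam a * u + rho b * der j a, a * b) := by
  induction a using FreeAlgebra.induction with
  | grade0 c =>
    intro u b
    rw [der_algebraMap, AlgHom.commutes, AlgHom.commutes, ← Algebra.smul_def, ← Algebra.smul_def]
    simp
  | grade1 i =>
    intro u b
    rw [der_ι, act, FreeAlgebra.lift_ι_apply]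
    by_cases h : i = j <;> simp [genAct, h, rhoL_apply]
  | mul a a' ha ha' =>
    intro u b
    have h1 : der j (a * a') = lam a * der j a' + rho a' * der j a := by
      rw [der_def, map_mul, Module.End.mul_apply, ha', ha]
      simp [rho_one]
    rw [map_mul, Module.End.mul_apply, ha', ha, h1, map_mul, rho_mul]
    refine Prod.ext ?_ (by simp [mul_assoc])
    simp only [mul_add, mul_assoc, add_assoc]
    rw [← mul_assoc (lam a) (rho b), lam_rho_comm, mul_assoc]
  | add a a' ha ha' =>
    intro u b
    rw [map_add, LinearMap.add_apply, ha, ha', map_add, map_add]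
    refine Prod.ext ?_ (by simp [add_mul])
    simp only [Prod.fst_add, add_mul, mul_add]
    abel

omit [Fintype σ] in
lemma der_mul (j : σ) (a b : A K σ) :
    der j (a * b) = lam a * der j b + rho b * der j a := by
  rw [der_def, map_mul, Module.End.mul_apply, act_apply, act_apply]
  simp [rho_one]

/-- the universal inner difference -/
noncomputable def del (a : A K σ) : U K σ := lam a - rho a

lemma del_eq (a : A K σ) : del a = ∑ j, der j a * del (FreeAlgebra.ι K j) := by
  induction a using FreeAlgebra.induction with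
  | grade0 c => simp [del, der_algebraMap, rho_algebraMap]
  | grade1 i => simp [der_ι]
  | mul a b ha hb =>
    simp only [der_mul, add_mul, Finset.sum_add_distrib, mul_assoc, ← Finset.mul_sum]
    rw [← ha, ← hb]
    simp only [del, map_mul, rho_mul, mul_sub, lam_rho_comm]
    abel
  | add a b ha hb =>
    simp only [map_add, add_mul, Finset.sum_add_distrib]
    rw [← ha, ← hb]
    simp only [del, map_add, rho_add]
    abel

/-- the map induced on `U` by an endomorphism -/
noncomputable def mapU (θ : A K σ →ₐ[K] A K σ) : U K σ →ₐ[K] U K σ :=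
  Algebra.TensorProduct.map θ (AlgHom.op θ)

omit [Fintype σ] [DecidableEq σ] in
lemma mapU_lam (θ : A K σ →ₐ[K] A K σ) (a : A K σ) : mapU θ (lam a) = lam (θ a) := by
  simp [mapU, lam_apply]

omit [Fintype σ] [DecidableEq σ] in
lemma mapU_rho (θ : A K σ →ₐ[K] A K σ) (a : A K σ) : mapU θ (rho a) = rho (θ a) := by
  simp [mapU, rho]

lemma chain (θ : A K σ →ₐ[K] A K σ) (j : σ) (a : A K σ) :
    der j (θ a) = ∑ k, mapU θ (der k a) * der j (θ (FreeAlgebra.ι K k)) := by
  induction a using FreeAlgebra.induction with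
  | grade0 c => simp [der_algebraMap]
  | grade1 i =>
    simp only [der_ι]
    rw [Finset.sum_eq_single i] <;> simp +contextual [eq_comm]
  | mul a b ha hb =>
    simp only [map_mul, der_mul, map_add, add_mul, Finset.sum_add_distrib, mul_assoc,
      ← Finset.mul_sum, mapU_lam, mapU_rho]
    rw [← ha, ← hb]
  | add a b ha hb =>
    simp only [map_add, add_mul, Finset.sum_add_distrib]
    rw [← ha, ← hb]

/-- Jacobian matrix -/
noncomputable def Jac (θ : A K σ →ₐ[K] A K σ) : Matrix σ σ (U K σ) :=
  Matrix.of fun i j => der j (θ (FreeAlgebra.ι K i))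

lemma Jac_comp (θ χ : A K σ →ₐ[K] A K σ) :
    Jac (θ.comp χ) = (Jac χ).map (mapU θ) * Jac θ := by
  ext i j : 2
  simp only [Jac, Matrix.of_apply, Matrix.mul_apply, Matrix.map_apply, AlgHom.comp_apply]
  exact chain θ j _

omit [Fintype σ] in
lemma Jac_id : Jac (AlgHom.id K (A K σ)) = 1 := by
  ext i j : 2
  simp [Jac, der_ι, Matrix.one_apply]

omit [Fintype σ] [DecidableEq σ] in
/-- induction principle on `U` -/
lemma U_ind {p : U K σ → Prop} (h0 : ∀ c : K, p (algebraMap K _ c))
    (hl : ∀ i, p (lam (FreeAlgebra.ι K i))) (hr : ∀ i, p (rho (FreeAlgebra.ι K i)))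
    (hadd : ∀ x y, p x → p y → p (x + y)) (hmul : ∀ x y, p x → p y → p (x * y)) (u : U K σ) :
    p u := by
  have h1 : ∀ a : A K σ, p (lam a) := by
    intro a
    induction a using FreeAlgebra.induction with
    | grade0 c => rw [AlgHom.commutes]; exact h0 c
    | grade1 i => exact hl i
    | mul a b ha hb => rw [map_mul]; exact hmul _ _ ha hb
    | add a b ha hb => rw [map_add]; exact hadd _ _ ha hb
  have h2 : ∀ a : A K σ, p (rho a) := by
    intro a
    induction a using FreeAlgebra.induction with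
    | grade0 c => rw [rho_algebraMap]; exact h0 c
    | grade1 i => exact hr i
    | mul a b ha hb => rw [rho_mul]; exact hmul _ _ hb ha
    | add a b ha hb => rw [rho_add]; exact hadd _ _ ha hb
  induction u using TensorProduct.induction_on with
  | zero => simpa using h0 0
  | tmul a b => rw [tmul_eq]; exact hmul _ _ (h1 _) (h2 _)
  | add x y hx hy => exact hadd _ _ hx hy

omit [Fintype σ] [DecidableEq σ] in
lemma U_ext {B : Type*} [Semiring B] [Algebra K B] {f g : U K σ →ₐ[K] B}
    (hl : ∀ i, f (lam (FreeAlgebra.ι K i)) = g (lam (FreeAlgebra.ι K i)))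
    (hr : ∀ i, f (rho (FreeAlgebra.ι K i)) = g (rho (FreeAlgebra.ι K i))) : f = g := by
  refine AlgHom.ext fun u => ?_
  induction u using U_ind with
  | h0 c => rw [AlgHom.commutes, AlgHom.commutes]
  | hl i => exact hl i
  | hr i => exact hr i
  | hadd x y hx hy => simp [hx, hy]
  | hmul x y hx hy => simp [hx, hy]

section mk
variable {B : Type*} [Ring B] [Algebra K B]

noncomputable def rightHom (X' : σ → B) : (A K σ)ᵐᵒᵖ →ₐ[K] B :=
  AlgHom.opComm (FreeAlgebra.lift K (fun i => op (X' i)))

omit [Fintype σ] [DecidableEq σ] in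
lemma rightHom_ι (X' : σ → B) (i : σ) :
    rightHom X' (op (FreeAlgebra.ι K i)) = X' i := by
  simp [rightHom, AlgHom.opComm]

omit [Fintype σ] [DecidableEq σ] in
lemma comm_aux (X X' : σ → B) (h : ∀ i j, Commute (X i) (X' j)) (a : A K σ) (b : (A K σ)ᵐᵒᵖ) :
    Commute (FreeAlgebra.lift K X a) (rightHom X' b) := by
  have h1 : ∀ j, Commute (FreeAlgebra.lift K X a) (X' j) := by
    intro j
    induction a using FreeAlgebra.induction with
    | grade0 c => rw [AlgHom.commutes]; exact Algebra.commute_algebraMap_left _ _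
    | grade1 i => simpa using h i j
    | mul a b ha hb => rw [map_mul]; exact ha.mul_left hb
    | add a b ha hb => rw [map_add]; exact ha.add_left hb
  obtain ⟨b, rfl⟩ := op_surjective b
  induction b using FreeAlgebra.induction with
  | grade0 c =>
    have : op (algebraMap K (A K σ) c) = algebraMap K (A K σ)ᵐᵒᵖ c := rfl
    rw [this, AlgHom.commutes]; exact Algebra.commute_algebraMap_right _ _
  | grade1 i => rw [rightHom_ι]; exact h1 i
  | mul a b ha hb => rw [op_mul, map_mul]; exact hb.mul_right ha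
  | add a b ha hb => rw [op_add, map_add]; exact ha.add_right hb

/-- specialisation of `U` at two commuting families -/
noncomputable def mkU (X X' : σ → B) (h : ∀ i j, Commute (X i) (X' j)) : U K σ →ₐ[K] B :=
  Algebra.TensorProduct.lift (FreeAlgebra.lift K X) (rightHom X') (comm_aux X X' h)

omit [Fintype σ] [DecidableEq σ] in
lemma mkU_lam (X X' : σ → B) (h : ∀ i j, Commute (X i) (X' j)) (a : A K σ) :
    mkU X X' h (lam a) = FreeAlgebra.lift K X a := by
  simp [mkU, lam_apply]

omit [Fintype σ] [DecidableEq σ] in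
lemma mkU_rho (X X' : σ → B) (h : ∀ i j, Commute (X i) (X' j)) (a : A K σ) :
    mkU X X' h (rho a) = rightHom X' (op a) := by
  simp [mkU, rho]

omit [Fintype σ] [DecidableEq σ] in
lemma mkU_lam_ι (X X' : σ → B) (h : ∀ i j, Commute (X i) (X' j)) (i : σ) :
    mkU X X' h (lam (FreeAlgebra.ι K i)) = X i := by
  simp [mkU_lam]

omit [Fintype σ] [DecidableEq σ] in
lemma mkU_rho_ι (X X' : σ → B) (h : ∀ i j, Commute (X i) (X' j)) (i : σ) :
    mkU X X' h (rho (FreeAlgebra.ι K i)) = X' i := by
  simp [mkU_rho, rightHom_ι]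

end mk

end Pool.Agent.H32.FJ
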