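import Mathlib

set_option autoImplicit false

open Polynomial

namespace Pool.Agent.H32.FJ

/-- determinant of a semilinear operator on an invariant subspace -/
lemma semi_det {F Y : Type*} [Field F] [AddCommGroup Y] [Module F Y] (s : F →+* F)
    (T : Y →ₛₗ[s] Y) (N : ℕ) (t : F) (hT : ∀ y, (T : Y → Y)^[N] y = t • y)
    (V : Submodule F Y) [Module.Finite F V] (hV : ∀ v ∈ V, T v ∈ V) :
    ∃ δ : F, ∏ k ∈ Finset.range N, (s : F → F)^[k] δ = t ^ Module.finrank F V := by
  classical
  set r := Module.finrank F V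
  let b : Module.Basis (Fin r) F V := Module.finBasis F V
  have hk : ∀ k, ∀ v ∈ V, (T : Y → Y)^[k] v ∈ V := by
    intro k
    induction k with
    | zero => intro v hv; simpa using hv
    | succ k ih => intro v hv; rw [Function.iterate_succ_apply']; exact hV _ (ih v hv)
  let M : ℕ → Matrix (Fin r) (Fin r) F := fun k =>
    Matrix.of fun i j => b.repr ⟨(T : Y → Y)^[k] (b j), hk k _ (b j).2⟩ i
  have hM : ∀ k, M (k + 1) = M 1 * (M k).map s := by
    intro k
    ext l j
    have e1 : (T : Y → Y)^[k] (b j) = ∑ i, M k i j • (b i : Y) := by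
      have := b.sum_repr ⟨(T : Y → Y)^[k] (b j), hk k _ (b j).2⟩
      have h2 := congrArg (Subtype.val) this
      simp only [AddSubmonoidClass.coe_finsetSum, SetLike.val_smul] at h2
      rw [← h2]; rfl
    have e2 : (⟨(T : Y → Y)^[k + 1] (b j), hk (k + 1) _ (b j).2⟩ : V) =
        ∑ i, s (M k i j) • (⟨(T : Y → Y)^[1] (b i), hk 1 _ (b i).2⟩ : V) := by
      apply Subtype.ext
      simp only [AddSubmonoidClass.coe_finsetSum, SetLike.val_smul]
      rw [Function.iterate_succ_apply', e1, map_sum]
      simp [LinearMap.map_smulₛₗ]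
    simp only [M, Matrix.of_apply, Matrix.mul_apply, Matrix.map_apply]
    rw [e2, map_sum, Finsupp.finsetSum_apply]
    refine Finset.sum_congr rfl fun i _ => ?_
    rw [map_smul, Finsupp.smul_apply, smul_eq_mul, mul_comm]
    rfl
  have hdet : ∀ k, (M k).det = ∏ j ∈ Finset.range k, (s : F → F)^[j] (M 1).det := by
    intro k
    induction k with
    | zero =>
      have : M 0 = 1 := by
        ext i j
        simp [M, Matrix.one_apply, Finsupp.single_apply, eq_comm]
      simp [this]
    | succ k ih =>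
      rw [hM, Matrix.det_mul, Finset.prod_range_succ', ← RingHom.mapMatrix_apply,
        ← RingHom.map_det, ih, map_prod]
      simp only [Function.iterate_succ_apply', Function.iterate_zero, id_eq]
      ring
  refine ⟨(M 1).det, ?_⟩
  rw [← hdet]
  have : M N = t • (1 : Matrix (Fin r) (Fin r) F) := by
    ext i j
    have e : (⟨(T : Y → Y)^[N] (b j), hk N _ (b j).2⟩ : V) = t • b j := by
      apply Subtype.ext; simp [hT]
    simp only [M, Matrix.of_apply]
    rw [e]
    simp [Matrix.one_apply, Finsupp.single_apply, eq_comm]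
  rw [this, Matrix.det_smul]; simp

lemma dvd_of_norm {P F : Type*} [CommRing P] [IsDomain P] [Field F] [Algebra P[X] F]
    [IsFractionRing P[X] F] (s0 : P →+* P) (hs0 : Function.Injective s0) (s : F →+* F)
    (hs : ∀ p : P[X], s (algebraMap P[X] F p) = algebraMap P[X] F (p.map s0))
    (N r : ℕ) (δ : F)
    (h : ∏ k ∈ Finset.range N, (s : F → F)^[k] δ = (algebraMap P[X] F X) ^ r) : N ∣ r := by
  rcases Nat.eq_zero_or_pos N with rfl | hN
  · simp only [Finset.range_zero, Finset.prod_empty] at h
    rw [← map_pow, ← map_one (algebraMap P[X] F)] at h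
    have h1 := IsFractionRing.injective P[X] F h
    have h2 := congrArg natDegree h1
    simp at h2
    simp [← h2]
  obtain ⟨p, q, hq, rfl⟩ := IsFractionRing.div_surjective (A := P[X]) δ
  have hq0 : q ≠ 0 := nonZeroDivisors.ne_zero hq
  let f : P[X] → P[X] := fun p => p.map s0
  have hit : ∀ k (p : P[X]), (s : F → F)^[k] (algebraMap P[X] F p) = algebraMap P[X] F (f^[k] p) := by
    intro k
    induction k with
    | zero => intro p; rfl
    | succ k ih => intro p; rw [Function.iterate_succ_apply', Function.iterate_succ_apply', ih, hs]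
  have hdiv : ∀ k (a b : F), (s : F → F)^[k] (a / b) = (s : F → F)^[k] a / (s : F → F)^[k] b := by
    intro k
    induction k with
    | zero => intro a b; rfl
    | succ k ih => intro a b; simp only [Function.iterate_succ_apply', ih, map_div₀]
  have hdeg : ∀ k (p : P[X]), (f^[k] p).natDegree = p.natDegree ∧ (p ≠ 0 → f^[k] p ≠ 0) := by
    intro k
    induction k with
    | zero => intro p; simp
    | succ k ih =>
      intro p
      rw [Function.iterate_succ_apply']
      refine ⟨?_, fun hp => ?_⟩
      · simp only [f]; rw [natDegree_map_eq_of_injective hs0]; exact (ih p).1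
      · simp only [f]; exact (Polynomial.map_ne_zero_iff hs0).2 ((ih p).2 hp)
  simp only [hdiv, hit] at h
  rw [Finset.prod_div_distrib, ← map_prod, ← map_prod] at h
  have hQ : ∏ k ∈ Finset.range N, f^[k] q ≠ 0 :=
    Finset.prod_ne_zero_iff.2 fun k _ => (hdeg k q).2 hq0
  have hQ' : algebraMap P[X] F (∏ k ∈ Finset.range N, f^[k] q) ≠ 0 := by
    intro h0
    exact hQ (IsFractionRing.injective P[X] F (by rw [h0, map_zero]))
  rw [div_eq_iff hQ', ← map_pow, ← map_mul] at h
  have h1 := IsFractionRing.injective P[X] F h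
  have hp0 : p ≠ 0 := by
    rintro rfl
    have : ∏ k ∈ Finset.range N, f^[k] (0 : P[X]) = 0 :=
      Finset.prod_eq_zero (Finset.mem_range.2 hN) rfl
    rw [this] at h1
    exact (mul_ne_zero (pow_ne_zero _ X_ne_zero) hQ) h1.symm
  have h2 := congrArg natDegree h1
  rw [natDegree_mul (pow_ne_zero _ X_ne_zero) hQ, natDegree_prod _ _ fun k _ => (hdeg k p).2 hp0,
    natDegree_prod _ _ fun k _ => (hdeg k q).2 hq0] at h2
  simp only [fun k => (hdeg k p).1, fun k => (hdeg k q).1, Finset.sum_const, Finset.card_range,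
    smul_eq_mul, natDegree_pow, natDegree_X, mul_one] at h2
  have : N ∣ r + N * q.natDegree := h2 ▸ Dvd.intro _ rfl
  exact (Nat.dvd_add_left (Dvd.intro _ rfl)).1 this

/-- eventually zero solutions of a linear recurrence -/
def Esol {F Y : Type*} [Field F] [AddCommGroup Y] [Module F Y] (J : ℕ → Module.End F Y)
    (e m : ℕ) : Submodule F (ℕ → Y) where
  carrier := {y | (∀ k, e ≤ k → ∑ p ∈ Finset.HasAntidiagonal.antidiagonal k, J p.1 (y p.2) = 0) ∧
    ∀ k, m ≤ k → y k = 0}
  add_mem' := by
    rintro a b ⟨ha1, ha2⟩ ⟨hb1, hb2⟩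
    refine ⟨fun k hk => ?_, fun k hk => ?_⟩
    · simp [Finset.sum_add_distrib, ha1 k hk, hb1 k hk]
    · simp [ha2 k hk, hb2 k hk]
  zero_mem' := ⟨fun k _ => by simp, fun k _ => rfl⟩
  smul_mem' := by
    rintro c a ⟨ha1, ha2⟩
    refine ⟨fun k hk => ?_, fun k hk => ?_⟩
    · simp [← Finset.smul_sum, ha1 k hk]
    · simp [ha2 k hk]

section
variable {F Y : Type*} [Field F] [AddCommGroup Y] [Module F Y] (J : ℕ → Module.End F Y) (e : ℕ)

def Eres (m : ℕ) : Esol J e m →ₗ[F] (Fin e → Y) where
  toFun y := fun i => y.1 i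
  map_add' _ _ := rfl
  map_smul' _ _ := rfl

lemma Eres_inj (hJ0 : J 0 = 1) (m : ℕ) : Function.Injective (Eres J e m) := by
  rw [injective_iff_map_eq_zero]
  rintro ⟨y, hy1, hy2⟩ h
  apply Subtype.ext
  funext k
  change y k = 0
  induction k using Nat.strong_induction_on with
  | _ k ih =>
    by_cases hk : k < e
    · exact congrFun h ⟨k, hk⟩
    · have h1 := hy1 k (by omega)
      rcases k with _ | k
      · simpa [hJ0] using h1
      · rw [Finset.Nat.sum_antidiagonal_succ] at h1
        rw [Finset.sum_eq_zero] at h1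
        · simpa [hJ0] using h1
        · intro p hp
          have := Finset.HasAntidiagonal.mem_antidiagonal.1 hp
          rw [ih p.2 (by omega), map_zero]

lemma Esol_mono (m : ℕ) : Esol J e m ≤ Esol J e (m + 1) := by
  rintro y ⟨h1, h2⟩
  exact ⟨h1, fun k hk => h2 k (by omega)⟩

lemma Esol_step (hJe : ∀ j, e < j → J j = 0) (m : ℕ) (h : Esol J e (m + 1) ≤ Esol J e m) :
    Esol J e (m + 2) ≤ Esol J e (m + 1) := by
  rintro y ⟨h1, h2⟩
  have : (fun k => y (k + 1)) ∈ Esol J e (m + 1) := by
    refine ⟨fun k hk => ?_, fun k hk => h2 _ (by omega)⟩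
    have h3 := h1 (k + 1) (by omega)
    rw [Finset.Nat.sum_antidiagonal_succ', hJe (k + 1) (by omega)] at h3
    simpa using h3
  refine ⟨h1, fun k hk => ?_⟩
  obtain ⟨k, rfl⟩ : ∃ j, k = j + 1 := ⟨k - 1, by omega⟩
  exact (h this).2 k (by omega)

lemma Esol_bound [Module.Finite F Y] (hJ0 : J 0 = 1) (hJe : ∀ j, e < j → J j = 0)
    (M d : ℕ) (hM : 0 < M) (hY : Module.finrank F Y = d * M)
    (hdiv : ∀ m, M ∣ Module.finrank F (Esol J e m)) (m : ℕ) :
    Esol J e m ≤ Esol J e (e * d) := by
  have hfin : ∀ m, Module.Finite F (Esol J e m) := fun m =>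
    Module.Finite.of_injective _ (Eres_inj J e hJ0 m)
  have hle : ∀ m, Module.finrank F (Esol J e m) ≤ e * d * M := by
    intro m
    have := LinearMap.finrank_le_finrank_of_injective (Eres_inj J e hJ0 m)
    rw [Module.finrank_pi_fintype] at this
    simpa [hY, mul_assoc] using this
  have hex : ∃ m0 ≤ e * d, Esol J e (m0 + 1) ≤ Esol J e m0 := by
    by_contra hcon
    push Not at hcon
    have : ∀ m ≤ e * d + 1, m * M ≤ Module.finrank F (Esol J e m) := by
      intro m
      induction m with
      | zero => simp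
      | succ m ih =>
        intro hm
        have h1 := ih (by omega)
        have h2 : Esol J e m < Esol J e (m + 1) :=
          lt_of_le_of_ne (Esol_mono J e m) (fun h => hcon m (by omega) h.ge)
        haveI := hfin (m + 1)
        have h3 := Submodule.finrank_lt_finrank_of_lt h2
        obtain ⟨a, ha⟩ := hdiv m
        obtain ⟨b, hb⟩ := hdiv (m + 1)
        rw [ha] at h1 h3
        rw [hb] at h3 ⊢
        have h4 : a < b := lt_of_mul_lt_mul_left h3 (Nat.zero_le _)
        have h5 : m ≤ a := by
          rw [mul_comm M a] at h1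
          exact Nat.le_of_mul_le_mul_right h1 hM
        nlinarith
    have h1 := this _ le_rfl
    have h2 := hle (e * d + 1)
    nlinarith
  obtain ⟨m0, hm0, h⟩ := hex
  have hst : ∀ k, Esol J e (m0 + k + 1) ≤ Esol J e (m0 + k) := by
    intro k
    induction k with
    | zero => exact h
    | succ k ih => exact Esol_step J e hJe _ ih
  have hst2 : ∀ k, Esol J e (m0 + k) ≤ Esol J e m0 := by
    intro k
    induction k with
    | zero => exact le_rfl
    | succ k ih => exact (hst k).trans ih
  have hmono : Monotone (Esol J e) := monotone_nat_of_le_succ (Esol_mono J e)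
  exact (hmono (Nat.le_add_left m m0)).trans ((hst2 m).trans (hmono hm0))

lemma Esol_div {s : F →+* F} (T : Y →ₛₗ[s] Y) (hc : ∀ j y, T (J j y) = J j (T y))
    (N : ℕ) (t : F) (hT : ∀ y, (T : Y → Y)^[N] y = t • y) (m : ℕ)
    [Module.Finite F (Esol J e m)] :
    ∃ δ : F, ∏ k ∈ Finset.range N, (s : F → F)^[k] δ = t ^ Module.finrank F (Esol J e m) := by
  let T' : (ℕ → Y) →ₛₗ[s] (ℕ → Y) :=
    { toFun := fun y k => T (y k)
      map_add' := fun a b => by funext k; simp
      map_smul' := fun c a => by funext k; simp [LinearMap.map_smulₛₗ] }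
  have hit : ∀ n (y : ℕ → Y) k, (T' : (ℕ → Y) → (ℕ → Y))^[n] y k = (T : Y → Y)^[n] (y k) := by
    intro n
    induction n with
    | zero => intro y k; rfl
    | succ n ih =>
      intro y k
      rw [Function.iterate_succ_apply', Function.iterate_succ_apply', ← ih]; rfl
  refine semi_det s T' N t (fun y => ?_) _ ?_
  · funext k; rw [hit, hT]; rfl
  · rintro y ⟨h1, h2⟩
    refine ⟨fun k hk => ?_, fun k hk => ?_⟩
    · change ∑ p ∈ Finset.HasAntidiagonal.antidiagonal k, J p.1 (T (y p.2)) = 0
      simp only [← hc]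
      rw [← map_sum, h1 k hk, map_zero]
    · change T (y k) = 0
      rw [h2 k hk, map_zero]

end

end Pool.Agent.H32.FJ
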