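import Pool.Agent.H32.FJ1
import Pool.Agent.H32.FJ2

set_option autoImplicit false

open scoped TensorProduct
open MulOpposite Polynomial

namespace Pool.Agent.H32.FJ

universe u

section wsh
variable {τ : Type} [Fintype τ] [DecidableEq τ] {R : Type*} [CommRing R]

/-- weighted shift matrix -/
def wsh (g : τ → τ) (α : τ → R) : Matrix τ τ R := Matrix.of fun p q => if q = g p then α p else 0

lemma wsh_mul (g g' : τ → τ) (α α' : τ → R) :
    wsh g α * wsh g' α' = wsh (g' ∘ g) (fun p => α p * α' (g p)) := by
  ext p q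
  simp only [wsh, Matrix.mul_apply, Matrix.of_apply, Function.comp]
  rw [Finset.sum_eq_single (g p)] <;> simp +contextual

omit [Fintype τ] in
lemma wsh_map {R' : Type*} [CommRing R'] (f : R →+* R') (g : τ → τ) (α : τ → R) :
    (wsh g α).map f = wsh g (fun p => f (α p)) := by
  ext p q
  simp only [wsh, Matrix.map_apply, Matrix.of_apply]
  split_ifs <;> simp

omit [Fintype τ] in
lemma wsh_id : wsh (id : τ → τ) (fun _ => (1 : R)) = 1 := by
  ext p q
  simp [wsh, Matrix.one_apply, eq_comm]

def wt {σ : Type} (g : τ → τ) (α : σ → τ → R) : List σ → τ → R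
  | [], _ => 1
  | i :: w, p => α i p * wt g α w (g p)

lemma wsh_prod {σ : Type} (g : τ → τ) (α : σ → τ → R) (w : List σ) :
    (w.map fun i => wsh g (α i)).prod = wsh (g^[w.length]) (wt g α w) := by
  induction w with
  | nil => simp only [List.map_nil, List.prod_nil, List.length_nil, Function.iterate_zero]; exact wsh_id.symm
  | cons i w ih =>
    rw [List.map_cons, List.prod_cons, ih, wsh_mul]
    rfl

end wsh

variable {K : Type u} [Field K] {σ : Type} [Fintype σ] [DecidableEq σ]

section flat
variable {d τ : Type} [Fintype d] [DecidableEq d] [Fintype τ] [DecidableEq τ]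
  {R : Type*} [CommRing R] [Algebra K R]

/-- flattening a matrix over `U` along a matrix representation -/
noncomputable def flat (π : U K σ →ₐ[K] Matrix τ τ R) :
    Matrix d d (U K σ) →+* Matrix (d × τ) (d × τ) R :=
  (Matrix.compRingEquiv d τ R).toRingHom.comp (RingHom.mapMatrix π.toRingHom)

omit [Fintype σ] [DecidableEq σ] in
lemma flat_apply (π : U K σ →ₐ[K] Matrix τ τ R) (J : Matrix d d (U K σ)) (x y : d × τ) :
    flat π J x y = π (J x.1 y.1) x.2 y.2 := rfl

end flat

/-- all specialisations have unit determinant -/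
def Spec {d : Type} [Fintype d] [DecidableEq d] (J : Matrix d d (U K σ)) : Prop :=
  ∀ (τ : Type) [Fintype τ] [DecidableEq τ] (R : Type u) [CommRing R] [IsDomain R] [Algebra K R]
    (π : U K σ →ₐ[K] Matrix τ τ R), IsUnit (flat π J).det

section div
variable {d τ : Type} [Fintype d] [DecidableEq d] [Fintype τ] [DecidableEq τ]
  {F : Type*} [Field F] [Algebra K F]

omit [Fintype σ] [DecidableEq σ] in
lemma div_generic (π : U K σ →ₐ[K] Matrix τ τ F) (s : F →+* F)
    (hsK : ∀ c : K, s (algebraMap K F c) = algebraMap K F c)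
    (g : τ → τ) (cf : τ → F) (N : ℕ) (t : F)
    (hcf : ∀ p, s (cf p) = cf p) (hprod : ∀ p, ∏ j ∈ Finset.range N, cf (g^[j] p) = t)
    (hsN : ∀ x, (s : F → F)^[N] x = x) (hgN : ∀ p, g^[N] p = p)
    (hl : ∀ i, wsh g cf * (π (lam (FreeAlgebra.ι K i))).map s = π (lam (FreeAlgebra.ι K i)) * wsh g cf)
    (hr : ∀ i, wsh g cf * (π (rho (FreeAlgebra.ι K i))).map s = π (rho (FreeAlgebra.ι K i)) * wsh g cf)
    (Jc : ℕ → Matrix d d (U K σ)) (e m : ℕ)
    [Module.Finite F (Esol (fun j => Matrix.toLin' (flat π (Jc j))) e m)] :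
    ∃ δ : F, ∏ k ∈ Finset.range N, (s : F → F)^[k] δ =
      t ^ Module.finrank F (Esol (fun j => Matrix.toLin' (flat π (Jc j))) e m) := by
  have hall : ∀ u, wsh g cf * (π u).map s = π u * wsh g cf := by
    intro u
    induction u using U_ind with
    | h0 c =>
      rw [AlgHom.commutes]
      have : (algebraMap K (Matrix τ τ F) c).map s = algebraMap K (Matrix τ τ F) c := by
        ext p q
        simp only [Matrix.map_apply, Matrix.algebraMap_matrix_apply]
        split_ifs <;> simp [hsK]
      rw [this]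
      exact (Algebra.commutes c _).symm
    | hl i => exact hl i
    | hr i => exact hr i
    | hadd x y hx hy => rw [map_add, Matrix.map_add _ (map_add s), mul_add, add_mul, hx, hy]
    | hmul x y hx hy =>
      rw [map_mul, Matrix.map_mul, ← mul_assoc, hx, mul_assoc, hy, mul_assoc]
  let T : ((d × τ) → F) →ₛₗ[s] ((d × τ) → F) :=
    { toFun := fun y x => cf x.2 * s (y (x.1, g x.2))
      map_add' := fun a b => by funext x; simp [mul_add]
      map_smul' := fun c a => by funext x; simp [mul_left_comm] }
  have hT : ∀ y x, T y x = cf x.2 * s (y (x.1, g x.2)) := fun _ _ => rfl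
  have hit : ∀ n (y : (d × τ) → F) x, (T : _ → _)^[n] y x =
      (∏ j ∈ Finset.range n, cf (g^[j] x.2)) * (s : F → F)^[n] (y (x.1, g^[n] x.2)) := by
    intro n
    induction n with
    | zero => intro y x; simp
    | succ n ih =>
      intro y x
      rw [Function.iterate_succ_apply', hT, ih, map_mul, map_prod, Finset.prod_range_succ',
        Function.iterate_succ_apply' (s : F → F)]
      simp only [hcf, Function.iterate_succ_apply, Function.iterate_zero, id_eq]
      ring
  refine Esol_div _ e T (fun j y => ?_) N t (fun y => ?_) m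
  · funext x
    rw [hT]
    simp only [Matrix.toLin'_apply, Matrix.mulVec, dotProduct, flat_apply, hT, map_sum, map_mul,
      Fintype.sum_prod_type, Finset.mul_sum]
    refine Finset.sum_congr rfl fun b _ => ?_
    have h1 := congrArg (fun M => (M.mulVec fun q => s (y (b, q))) x.2) (hall (Jc j x.1 b))
    simp only [← Matrix.mulVec_mulVec] at h1
    simp only [Matrix.mulVec, dotProduct, wsh, Matrix.of_apply, ite_mul, zero_mul,
      Finset.sum_ite_eq', Finset.mem_univ, if_true, Matrix.map_apply] at h1
    rw [← h1, Finset.mul_sum]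
  · funext x
    rw [hit, hprod, hsN, hgN]; rfl

end div

/-! the grading homomorphism -/

noncomputable def gam : U K σ →ₐ[K] (U K σ)[X] :=
  mkU (fun i => X * C (lam (FreeAlgebra.ι K i))) (fun i => X * C (rho (FreeAlgebra.ι K i)))
    (fun i j => by
      refine Commute.mul_left (commute_X _) (Commute.mul_right (commute_X _).symm ?_)
      exact (show Commute (lam (FreeAlgebra.ι K i)) (rho (FreeAlgebra.ι K j)) from
        lam_rho_comm _ _).map C)

noncomputable def eps2 : U K σ →ₐ[K] K :=
  mkU (fun _ => 0) (fun _ => 0) (fun _ _ => Commute.refl _)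

omit [Fintype σ] [DecidableEq σ] in
lemma gam_coeff_zero (u : U K σ) : (gam u).coeff 0 = algebraMap K _ (eps2 u) := by
  induction u using U_ind with
  | h0 c => rw [AlgHom.commutes, AlgHom.commutes]; simp [Polynomial.algebraMap_apply]
  | hl i => simp [gam, eps2, mkU_lam_ι]
  | hr i => simp [gam, eps2, mkU_rho_ι]
  | hadd x y hx hy => rw [map_add, coeff_add, hx, hy, map_add, map_add]
  | hmul x y hx hy => rw [map_mul, mul_coeff_zero, hx, hy, map_mul, map_mul]

omit [Fintype σ] [DecidableEq σ] in
lemma gam_eval (u : U K σ) : (gam u).eval 1 = u := by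
  have : ∀ u : U K σ, eval₂RingHom' (RingHom.id (U K σ)) 1 (fun a => Commute.one_right _) (gam u) = u := by
    intro u
    induction u using U_ind with
    | h0 c => rw [AlgHom.commutes]; simp [Polynomial.algebraMap_apply]
    | hl i => simp [gam, mkU_lam_ι]
    | hr i => simp [gam, mkU_rho_ι]
    | hadd x y hx hy => rw [map_add, map_add, hx, hy]
    | hmul x y hx hy => rw [map_mul, map_mul, hx, hy]
  exact this u

section bound
variable {d : Type} [Fintype d] [DecidableEq d]

noncomputable def Jco (J : Matrix d d (U K σ)) (j : ℕ) : Matrix d d (U K σ) :=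
  J.map fun u => (gam u).coeff j

noncomputable def Qser (J : Matrix d d (U K σ)) : PowerSeries (Matrix d d (U K σ)) :=
  PowerSeries.invOfUnit (PowerSeries.mk (Jco J)) 1

omit [Fintype σ] [DecidableEq σ] [Fintype d] in
lemma Jco_zero (J : Matrix d d (U K σ)) (h0 : J.map eps2 = 1) : Jco J 0 = 1 := by
  ext a b : 2
  have := congrFun (congrFun h0 a) b
  simp only [Matrix.map_apply] at this
  simp only [Jco, Matrix.map_apply, gam_coeff_zero, this, Matrix.one_apply]
  split_ifs
  · exact map_one _
  · exact map_zero _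

omit [Fintype σ] [DecidableEq σ] in
lemma Q_eventually {τ : Type} [Fintype τ] [DecidableEq τ] {F : Type u} [Field F] [Algebra K F]
    (J : Matrix d d (U K σ)) (h0 : J.map eps2 = 1) (hJ : Spec J)
    (π : U K σ →ₐ[K] Matrix τ τ F) :
    ∃ m, ∀ k, m ≤ k → flat π (PowerSeries.coeff k (Qser J)) = 0 := by
  let πs : U K σ →ₐ[K] Matrix τ τ F[X] :=
    ((matPolyEquiv (R := F) (n := τ)).symm.toAlgHom.restrictScalars K).comp
      ((Polynomial.mapAlgHom π).comp gam)
  have hu := hJ τ F[X] πs
  rw [← Matrix.isUnit_iff_isUnit_det] at hu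
  have hu2 := hu.map (matPolyEquiv (R := F) (n := d × τ))
  obtain ⟨G', hG'⟩ := hu2.exists_left_inv
  have hco : ((matPolyEquiv (flat πs J) : (Matrix (d × τ) (d × τ) F)[X]) :
      PowerSeries (Matrix (d × τ) (d × τ) F)) =
      PowerSeries.map (flat π) (PowerSeries.mk (Jco J)) := by
    ext j x y
    simp only [Polynomial.coeff_coe, matPolyEquiv_coeff_apply, flat_apply, PowerSeries.coeff_map,
      PowerSeries.coeff_mk, Jco, Matrix.map_apply, πs, AlgHom.comp_apply,
      AlgHom.coe_restrictScalars', AlgHom.coe_coe,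
      matPolyEquiv_symm_apply_coeff]
    simp
  have h1 : PowerSeries.mk (Jco J) * Qser J = 1 :=
    PowerSeries.mul_invOfUnit _ _ (by simp [Jco_zero J h0])
  have h2 : (G' : PowerSeries (Matrix (d × τ) (d × τ) F)) = PowerSeries.map (flat π) (Qser J) := by
    have h3 := congrArg (PowerSeries.map (flat π)) h1
    rw [map_mul, map_one, ← hco] at h3
    have h4 := congrArg (Polynomial.coeToPowerSeries.ringHom (R := Matrix (d × τ) (d × τ) F)) hG'
    rw [map_mul, map_one] at h4
    simp only [coeToPowerSeries.ringHom_apply] at h4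
    calc (G' : PowerSeries (Matrix (d × τ) (d × τ) F)) = G' * 1 := (mul_one _).symm
      _ = _ := by rw [← h3, ← mul_assoc, h4, one_mul]
  refine ⟨G'.natDegree + 1, fun k hk => ?_⟩
  have := congrArg (PowerSeries.coeff k) h2
  rw [PowerSeries.coeff_map, Polynomial.coeff_coe, coeff_eq_zero_of_natDegree_lt (by omega)] at this
  exact this.symm

omit [Fintype σ] [DecidableEq σ] in
lemma Q_bound {τ : Type} [Fintype τ] [DecidableEq τ] [Nonempty τ] {F : Type u} [Field F] [Algebra K F]
    (J : Matrix d d (U K σ)) (h0 : J.map eps2 = 1) (hJ : Spec J)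
    (π : U K σ →ₐ[K] Matrix τ τ F) (e : ℕ) (he : ∀ j, e < j → Jco J j = 0)
    (hdiv : ∀ m, [Module.Finite F (Esol (fun j => Matrix.toLin' (flat π (Jco J j))) (e + 1) m)] →
      Fintype.card τ ∣
        Module.finrank F (Esol (fun j => Matrix.toLin' (flat π (Jco J j))) (e + 1) m))
    (k : ℕ) (hk : (e + 1) * Fintype.card d ≤ k) :
    flat π (PowerSeries.coeff k (Qser J)) = 0 := by
  obtain ⟨m, hm⟩ := Q_eventually J h0 hJ π
  set J' : ℕ → Module.End F ((d × τ) → F) := fun j => Matrix.toLin' (flat π (Jco J j)) with hJ'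
  have hJ0 : J' 0 = 1 := by simp [hJ', Jco_zero J h0]; rfl
  have hJe : ∀ j, e + 1 < j → J' j = 0 := by
    intro j hj; simp [hJ', he j (by omega)]
  have hb := Esol_bound J' (e + 1) hJ0 hJe (Fintype.card τ) (Fintype.card d) Fintype.card_pos
    (by simp) (fun m => by
      haveI : Module.Finite F (Esol J' (e + 1) m) :=
        Module.Finite.of_injective _ (Eres_inj J' (e + 1) hJ0 m)
      exact hdiv m) m
  have h1 : PowerSeries.mk (Jco J) * Qser J = 1 :=
    PowerSeries.mul_invOfUnit _ _ (by simp [Jco_zero J h0])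
  apply Matrix.toLin'.injective
  refine LinearMap.ext fun w => ?_
  have : (fun k => (flat π (PowerSeries.coeff k (Qser J))).mulVec w) ∈ Esol J' (e + 1) m := by
    refine ⟨fun k hk => ?_, fun k hk => by simp [hm k hk]⟩
    have h2 := congrArg (fun z => (flat π (PowerSeries.coeff k z)).mulVec w) h1
    simp only [PowerSeries.coeff_mul, PowerSeries.coeff_mk, map_sum, map_mul,
      PowerSeries.coeff_one, if_neg (show k ≠ 0 by omega), map_zero, Matrix.zero_mulVec,
      Matrix.sum_mulVec] at h2
    simpa [hJ'] using h2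
  simpa using (hb this).2 k hk

omit [Fintype σ] [DecidableEq σ] in
lemma isUnit_of_Q (J : Matrix d d (U K σ)) (h0 : J.map eps2 = 1) (e : ℕ)
    (he : ∀ j, e < j → Jco J j = 0) (n : ℕ)
    (hn : ∀ k, n ≤ k → PowerSeries.coeff k (Qser J) = 0) : IsUnit J := by
  let Jp : (Matrix d d (U K σ))[X] := PowerSeries.trunc (e + 1) (PowerSeries.mk (Jco J))
  let Qp : (Matrix d d (U K σ))[X] := PowerSeries.trunc n (Qser J)
  have hJp : (Jp : PowerSeries (Matrix d d (U K σ))) = PowerSeries.mk (Jco J) := by
    refine PowerSeries.ext fun k => ?_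
    rw [Polynomial.coeff_coe, PowerSeries.coeff_trunc]
    split_ifs with h
    · rfl
    · rw [PowerSeries.coeff_mk, he k (by omega)]
  have hQp : (Qp : PowerSeries (Matrix d d (U K σ))) = Qser J := by
    refine PowerSeries.ext fun k => ?_
    rw [Polynomial.coeff_coe, PowerSeries.coeff_trunc]
    split_ifs with h
    · rfl
    · rw [hn k (by omega)]
  have h1 : PowerSeries.mk (Jco J) * Qser J = 1 :=
    PowerSeries.mul_invOfUnit _ _ (by simp [Jco_zero J h0])
  have h2 : Qser J * PowerSeries.mk (Jco J) = 1 :=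
    PowerSeries.invOfUnit_mul _ _ (by simp [Jco_zero J h0])
  have h3 : Jp * Qp = 1 := by
    apply Polynomial.coe_injective
    rw [Polynomial.coe_mul, hJp, hQp, h1, Polynomial.coe_one]
  have h4 : Qp * Jp = 1 := by
    apply Polynomial.coe_injective
    rw [Polynomial.coe_mul, hJp, hQp, h2, Polynomial.coe_one]
  let ev := eval₂RingHom' (RingHom.id (Matrix d d (U K σ))) 1 (fun a => Commute.one_right _)
  have hev : ev Jp = J := by
    change Jp.eval 1 = J
    rw [eval_eq_sum_range' (n := e + 1)]
    · ext a b : 2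
      simp only [one_pow, mul_one, Matrix.sum_apply]
      conv_rhs => rw [← gam_eval (J a b)]
      rw [eval_eq_sum_range' (n := e + 1)]
      · simp only [one_pow, mul_one]
        refine Finset.sum_congr rfl fun j hj => ?_
        simp [Jp, PowerSeries.coeff_trunc, Finset.mem_range.1 hj, Jco]
      · refine Nat.lt_succ_of_le (natDegree_le_iff_coeff_eq_zero.2 fun j hj => ?_)
        exact congrFun (congrFun (he j hj) a) b
    · exact PowerSeries.natDegree_trunc_lt _ _
  refine ⟨⟨J, ev Qp, ?_, ?_⟩, rfl⟩
  · rw [← hev, ← map_mul, h3, map_one]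
  · rw [← hev, ← map_mul, h4, map_one]

omit [Fintype σ] [DecidableEq σ] [DecidableEq d] in
lemma exists_deg (J : Matrix d d (U K σ)) : ∃ e, ∀ j, e < j → Jco J j = 0 := by
  refine ⟨Finset.univ.sup fun x : d × d => (gam (J x.1 x.2)).natDegree, fun j hj => ?_⟩
  ext a b : 2
  refine coeff_eq_zero_of_natDegree_lt (lt_of_le_of_lt ?_ hj)
  exact Finset.le_sup (f := fun x : d × d => (gam (J x.1 x.2)).natDegree) (Finset.mem_univ (a, b))

end bound

end Pool.Agent.H32.FJ
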