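import Pool.Agent.H32.FJ3

set_option autoImplicit false

open scoped TensorProduct
open MulOpposite Polynomial

namespace Pool.Agent.H32.FJ

universe u

variable {K : Type u} [Field K] {σ : Type} [Fintype σ] [DecidableEq σ]

section field
variable (K) (V : Type)

abbrev Spoly := (MvPolynomial V K)[X]
abbrev Ffrac := FractionRing (MvPolynomial V K)[X]

variable {K V}

noncomputable def sE (e : Equiv.Perm V) : Ffrac K V →+* Ffrac K V :=
  (IsFractionRing.ringEquivOfRingEquiv (K := Ffrac K V) (L := Ffrac K V)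
    (Polynomial.mapEquiv (MvPolynomial.renameEquiv K e).toRingEquiv)).toRingHom

lemma sE_alg (e : Equiv.Perm V) (p : Spoly K V) :
    sE e (algebraMap (Spoly K V) (Ffrac K V) p) =
      algebraMap (Spoly K V) (Ffrac K V) (p.map (MvPolynomial.rename e).toRingHom) := by
  simp only [sE, RingEquiv.toRingHom_eq_coe, RingHom.coe_coe,
    IsFractionRing.ringEquivOfRingEquiv_algebraMap]
  rfl

lemma sE_mul (e e' : Equiv.Perm V) (x : Ffrac K V) : sE e (sE e' x) = sE (e * e') x := by
  obtain ⟨p, q, -, rfl⟩ := IsFractionRing.div_surjective (A := Spoly K V) x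
  have : ∀ p : Spoly K V, (p.map (MvPolynomial.rename e').toRingHom).map
      (MvPolynomial.rename e).toRingHom = p.map (MvPolynomial.rename (e * e')).toRingHom := by
    intro p
    rw [Polynomial.map_map]
    congr 1
    ext <;> simp
  simp only [map_div₀, sE_alg, this]

lemma sE_one (x : Ffrac K V) : sE (1 : Equiv.Perm V) x = x := by
  obtain ⟨p, q, -, rfl⟩ := IsFractionRing.div_surjective (A := Spoly K V) x
  have : ∀ p : Spoly K V, p.map (MvPolynomial.rename (1 : Equiv.Perm V)).toRingHom = p := by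
    intro p
    have : (MvPolynomial.rename (R := K) (1 : Equiv.Perm V)).toRingHom = RingHom.id _ := by
      ext <;> simp
    rw [this, Polynomial.map_id]
  simp only [map_div₀, sE_alg, this]

lemma sE_iter (e : Equiv.Perm V) (n : ℕ) (x : Ffrac K V) :
    (sE e : Ffrac K V → Ffrac K V)^[n] x = sE (e ^ n) x := by
  induction n with
  | zero => simp [sE_one]
  | succ n ih => rw [Function.iterate_succ_apply', ih, sE_mul, pow_succ']

lemma sE_K (e : Equiv.Perm V) (c : K) :
    sE e (algebraMap K (Ffrac K V) c) = algebraMap K (Ffrac K V) c := by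
  rw [IsScalarTower.algebraMap_apply K (Spoly K V) (Ffrac K V), sE_alg]
  congr 1
  simp [Polynomial.algebraMap_apply]

end field

lemma prod_wrap {R : Type*} [CommRing R] (N : ℕ) [NeZero N] (t : R) (k : ZMod N) :
    ∏ j ∈ Finset.range N, (if k + (j : ZMod N) + 1 = 0 then t else 1) = t := by
  rw [Finset.prod_eq_single (-k - 1).val]
  · rw [if_pos]; simp only [ZMod.natCast_val, ZMod.cast_id', id_eq]; ring
  · intro j hj hne
    rw [if_neg]
    intro h
    apply hne
    have : (j : ZMod N) = -k - 1 := by linear_combination h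
    rw [← this, ZMod.val_cast_of_lt (Finset.mem_range.1 hj)]
  · intro h
    exact absurd (Finset.mem_range.2 (ZMod.val_lt _)) h

section rep
variable (N M : ℕ) [NeZero N] [NeZero M]

abbrev Vr (σ : Type) := (σ × ZMod N) ⊕ (σ × ZMod M)

def g1 (p : ZMod N × ZMod M) : ZMod N × ZMod M := (p.1 + 1, p.2)
def g2 (p : ZMod N × ZMod M) : ZMod N × ZMod M := (p.1, p.2 + 1)

omit [NeZero N] [NeZero M] in
lemma g1_iter (n : ℕ) (p : ZMod N × ZMod M) : (g1 N M)^[n] p = (p.1 + n, p.2) := by
  induction n with
  | zero => simp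
  | succ n ih => rw [Function.iterate_succ_apply', ih]; simp [g1, add_assoc]

omit [NeZero N] [NeZero M] in
lemma g2_iter (n : ℕ) (p : ZMod N × ZMod M) : (g2 N M)^[n] p = (p.1, p.2 + n) := by
  induction n with
  | zero => simp
  | succ n ih => rw [Function.iterate_succ_apply', ih]; simp [g2, add_assoc]

noncomputable def c1 (p : ZMod N × ZMod M) : Spoly K (Vr N M σ) := if p.1 + 1 = 0 then X else 1
noncomputable def c2 (p : ZMod N × ZMod M) : Spoly K (Vr N M σ) := if p.2 + 1 = 0 then X else 1

noncomputable def al1 (i : σ) (p : ZMod N × ZMod M) : Spoly K (Vr N M σ) :=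
  C (MvPolynomial.X (Sum.inl (i, p.1))) * c1 N M p
noncomputable def al2 (i : σ) (p : ZMod N × ZMod M) : Spoly K (Vr N M σ) :=
  C (MvPolynomial.X (Sum.inr (i, p.2))) * c2 N M p

noncomputable def piS : U K σ →ₐ[K] Matrix (ZMod N × ZMod M) (ZMod N × ZMod M) (Spoly K (Vr N M σ)) :=
  mkU (fun i => wsh (g1 N M) (al1 N M i)) (fun i => wsh (g2 N M) (al2 N M i)) (fun i j => by
    change _ * _ = _ * _
    rw [wsh_mul, wsh_mul]
    congr 1
    funext p
    exact mul_comm _ _)

noncomputable def piF : U K σ →ₐ[K] Matrix (ZMod N × ZMod M) (ZMod N × ZMod M) (Ffrac K (Vr N M σ)) :=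
  (AlgHom.mapMatrix (IsScalarTower.toAlgHom K (Spoly K (Vr N M σ)) (Ffrac K (Vr N M σ)))).comp
    (piS N M)

def e1 : Equiv.Perm (Vr N M σ) :=
  Equiv.sumCongr (Equiv.prodCongr (Equiv.refl σ) (Equiv.subRight 1)) (Equiv.refl _)
def e2 : Equiv.Perm (Vr N M σ) :=
  Equiv.sumCongr (Equiv.refl _) (Equiv.prodCongr (Equiv.refl σ) (Equiv.subRight 1))

omit [NeZero N] [NeZero M] [Fintype σ] [DecidableEq σ] in
lemma e1_pow : (e1 N M : Equiv.Perm (Vr N M σ)) ^ N = 1 := by
  have : ∀ n : ℕ, ∀ x, ((e1 N M : Equiv.Perm (Vr N M σ)) ^ n) x =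
      Sum.map (fun q : σ × ZMod N => (q.1, q.2 - (n : ZMod N))) id x := by
    intro n
    induction n with
    | zero => rintro (x | x) <;> simp
    | succ n ih =>
      intro x
      rw [pow_succ', Equiv.Perm.mul_apply, ih]
      rcases x with x | x <;> simp [e1, sub_sub]
  ext x : 1
  rw [this]
  rcases x with x | x <;> simp

omit [NeZero N] [NeZero M] [Fintype σ] [DecidableEq σ] in
lemma e2_pow : (e2 N M : Equiv.Perm (Vr N M σ)) ^ M = 1 := by
  have : ∀ n : ℕ, ∀ x, ((e2 N M : Equiv.Perm (Vr N M σ)) ^ n) x =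
      Sum.map id (fun q : σ × ZMod M => (q.1, q.2 - (n : ZMod M))) x := by
    intro n
    induction n with
    | zero => rintro (x | x) <;> simp
    | succ n ih =>
      intro x
      rw [pow_succ', Equiv.Perm.mul_apply, ih]
      rcases x with x | x <;> simp [e2, sub_sub]
  ext x : 1
  rw [this]
  rcases x with x | x <;> simp

omit [Fintype σ] [DecidableEq σ] in
lemma piF_lam (i : σ) : piF N M (lam (FreeAlgebra.ι K i)) =
    wsh (g1 N M) fun p => algebraMap (Spoly K (Vr N M σ)) (Ffrac K (Vr N M σ)) (al1 N M i p) := by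
  rw [piF, AlgHom.comp_apply, piS, mkU_lam_ι, AlgHom.mapMatrix_apply]
  exact wsh_map (algebraMap (Spoly K (Vr N M σ)) (Ffrac K (Vr N M σ))) _ _

omit [Fintype σ] [DecidableEq σ] in
lemma piF_rho (i : σ) : piF N M (rho (FreeAlgebra.ι K i)) =
    wsh (g2 N M) fun p => algebraMap (Spoly K (Vr N M σ)) (Ffrac K (Vr N M σ)) (al2 N M i p) := by
  rw [piF, AlgHom.comp_apply, piS, mkU_rho_ι, AlgHom.mapMatrix_apply]
  exact wsh_map (algebraMap (Spoly K (Vr N M σ)) (Ffrac K (Vr N M σ))) _ _

omit [NeZero N] [NeZero M] [Fintype σ] [DecidableEq σ] in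
lemma c1_map (e : Equiv.Perm (Vr N M σ)) (p : ZMod N × ZMod M) :
    (c1 (K := K) (σ := σ) N M p).map (MvPolynomial.rename e).toRingHom = c1 N M p := by
  unfold c1; split_ifs <;> simp

omit [NeZero N] [NeZero M] [Fintype σ] [DecidableEq σ] in
lemma c2_map (e : Equiv.Perm (Vr N M σ)) (p : ZMod N × ZMod M) :
    (c2 (K := K) (σ := σ) N M p).map (MvPolynomial.rename e).toRingHom = c2 N M p := by
  unfold c2; split_ifs <;> simp

variable {d : Type} [Fintype d] [DecidableEq d]

omit [Fintype σ] [DecidableEq σ] in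
lemma div1 (Jc : ℕ → Matrix d d (U K σ)) (e m : ℕ)
    [Module.Finite (Ffrac K (Vr N M σ)) (Esol (fun j => Matrix.toLin' (flat (piF N M) (Jc j))) e m)] :
    N ∣ Module.finrank (Ffrac K (Vr N M σ))
      (Esol (fun j => Matrix.toLin' (flat (piF N M) (Jc j))) e m) := by
  obtain ⟨δ, hδ⟩ := div_generic (piF N M) (sE (e1 N M)) (sE_K _) (g1 N M)
    (fun p => algebraMap (Spoly K (Vr N M σ)) (Ffrac K (Vr N M σ)) (c1 N M p)) N
    (algebraMap (Spoly K (Vr N M σ)) (Ffrac K (Vr N M σ)) X)
    (fun p => by rw [sE_alg, c1_map])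
    (fun p => by
      rw [← map_prod]; congr 1
      simp only [g1_iter, c1]
      exact prod_wrap N X p.1)
    (fun x => by rw [sE_iter, e1_pow, sE_one])
    (fun p => by simp [g1_iter])
    (fun i => by
      rw [piF_lam, wsh_map, wsh_mul, wsh_mul]
      congr 1
      funext p
      rw [sE_alg, ← map_mul, ← map_mul]
      congr 1
      simp only [al1, Polynomial.map_mul, c1_map, map_C]
      simp [e1, g1]
      ring)
    (fun i => by
      rw [piF_rho, wsh_map, wsh_mul, wsh_mul]
      congr 1
      funext p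
      rw [sE_alg, ← map_mul, ← map_mul]
      congr 1
      simp only [al2, Polynomial.map_mul, c2_map, map_C]
      simp [e1, g1, g2, c1, c2]
      split_ifs <;> ring)
    Jc e m
  exact dvd_of_norm (MvPolynomial.rename (e1 N M)).toRingHom
    (MvPolynomial.rename_injective _ (e1 N M).injective) (sE (e1 N M)) (sE_alg _) N _ δ hδ

omit [Fintype σ] [DecidableEq σ] in
lemma div2 (Jc : ℕ → Matrix d d (U K σ)) (e m : ℕ)
    [Module.Finite (Ffrac K (Vr N M σ)) (Esol (fun j => Matrix.toLin' (flat (piF N M) (Jc j))) e m)] :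
    M ∣ Module.finrank (Ffrac K (Vr N M σ))
      (Esol (fun j => Matrix.toLin' (flat (piF N M) (Jc j))) e m) := by
  obtain ⟨δ, hδ⟩ := div_generic (piF N M) (sE (e2 N M)) (sE_K _) (g2 N M)
    (fun p => algebraMap (Spoly K (Vr N M σ)) (Ffrac K (Vr N M σ)) (c2 N M p)) M
    (algebraMap (Spoly K (Vr N M σ)) (Ffrac K (Vr N M σ)) X)
    (fun p => by rw [sE_alg, c2_map])
    (fun p => by
      rw [← map_prod]; congr 1
      simp only [g2_iter, c2]
      exact prod_wrap M X p.2)
    (fun x => by rw [sE_iter, e2_pow, sE_one])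
    (fun p => by simp [g2_iter])
    (fun i => by
      rw [piF_lam, wsh_map, wsh_mul, wsh_mul]
      congr 1
      funext p
      rw [sE_alg, ← map_mul, ← map_mul]
      congr 1
      simp only [al1, Polynomial.map_mul, c1_map, map_C]
      simp [e2, g1, g2, c1, c2]
      split_ifs <;> ring)
    (fun i => by
      rw [piF_rho, wsh_map, wsh_mul, wsh_mul]
      congr 1
      funext p
      rw [sE_alg, ← map_mul, ← map_mul]
      congr 1
      simp only [al2, Polynomial.map_mul, c2_map, map_C]
      simp [e2, g2]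
      ring)
    Jc e m
  exact dvd_of_norm (MvPolynomial.rename (e2 N M)).toRingHom
    (MvPolynomial.rename_injective _ (e2 N M).injective) (sE (e2 N M)) (sE_alg _) M _ δ hδ

end rep

/-! faithfulness -/

omit [Fintype σ] in
lemma wt_eval {τ : Type} (N : ℕ) [NeZero N] (g : τ → τ) (f : τ → ZMod N)
    (hf : ∀ p, f (g p) = f p + 1) (v0 : List σ) (hv : v0.length < N) (α : σ → τ → K)
    (hα : ∀ i p, α i p = if v0[(f p).val]? = some i then 1 else 0) (v : List σ) :
    ∀ (j : ℕ) (p : τ), j ≤ v0.length → f p = j →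
      wt g α v p = if v <+: v0.drop j then 1 else 0 := by
  induction v with
  | nil => intro j p _ _; simp [wt]
  | cons i v ih =>
    intro j p hj hp
    rw [wt, hα, hp, ZMod.val_cast_of_lt (by omega)]
    rcases hj.lt_or_eq with hj | hj
    · rw [ih (j + 1) (g p) hj (by rw [hf, hp]; push_cast; rfl), List.drop_eq_getElem_cons hj,
        List.getElem?_eq_getElem hj]
      simp only [List.cons_prefix_cons]
      by_cases h1 : v0[j] = i
      · simp [h1]
      · simp [h1, Ne.symm h1]
    · subst hj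
      simp

omit [Fintype σ] [DecidableEq σ] in
lemma basis_apply (w : FreeMonoid σ) :
    FreeAlgebra.basisFreeMonoid K σ w = ((FreeMonoid.toList w).map (FreeAlgebra.ι K)).prod := by
  have : ∀ w : FreeMonoid σ, FreeAlgebra.equivMonoidAlgebraFreeMonoid
      (((FreeMonoid.toList w).map (FreeAlgebra.ι K)).prod) = MonoidAlgebra.single w (1 : K) := by
    intro w
    induction w using FreeMonoid.inductionOn' with
    | one => simp; rfl
    | of_mul i w ih =>
      rw [FreeMonoid.toList_of_mul, List.map_cons, List.prod_cons, map_mul, ih]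
      simp [FreeAlgebra.equivMonoidAlgebraFreeMonoid, MonoidAlgebra.single_mul_single]
  apply (FreeAlgebra.equivMonoidAlgebraFreeMonoid (R := K) (X := σ)).injective
  rw [this]
  simp [FreeAlgebra.basisFreeMonoid]

omit [Fintype σ] [DecidableEq σ] in
lemma hom_rho_prod {B : Type*} [Ring B] [Algebra K B] (π : U K σ →ₐ[K] B) (w : List σ) :
    π (rho (w.map (FreeAlgebra.ι K)).prod) =
      (w.reverse.map fun i => π (rho (FreeAlgebra.ι K i))).prod := by
  induction w with
  | nil => simp [rho_one]
  | cons i w ih => simp [rho_mul, ih]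

omit [Fintype σ] [DecidableEq σ] in
lemma hom_lam_prod {B : Type*} [Ring B] [Algebra K B] (π : U K σ →ₐ[K] B) (w : List σ) :
    π (lam (w.map (FreeAlgebra.ι K)).prod) =
      (w.map fun i => π (lam (FreeAlgebra.ι K i))).prod := by
  induction w with
  | nil => simp
  | cons i w ih => simp [ih]

omit [Fintype σ] in
lemma faithful (u : U K σ)
    (h : ∀ (N : ℕ), piS (N + 1) (N + 2) u = 0) : u = 0 := by
  let bA := FreeAlgebra.basisFreeMonoid K σ
  let bU := Module.Basis.tensorProduct bA
    (bA.map (opLinearEquiv K : A K σ ≃ₗ[K] (A K σ)ᵐᵒᵖ))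
  apply bU.repr.injective
  ext ⟨v0, w0⟩
  rw [map_zero, Finsupp.zero_apply]
  set v1 := FreeMonoid.toList v0 with hv1
  set w1 := (FreeMonoid.toList w0).reverse with hw1
  let N := v1.length + w1.length
  let val : Vr (N + 1) (N + 2) σ → K := fun x => match x with
    | Sum.inl q => if v1[q.2.val]? = some q.1 then 1 else 0
    | Sum.inr q => if w1[q.2.val]? = some q.1 then 1 else 0
  let ev : Spoly K (Vr (N + 1) (N + 2) σ) →ₐ[K] K :=
    (MvPolynomial.aeval val).comp ((Polynomial.aeval (1 : MvPolynomial _ K)).restrictScalars K)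
  let πK : U K σ →ₐ[K] Matrix (ZMod (N + 1) × ZMod (N + 2)) (ZMod (N + 1) × ZMod (N + 2)) K :=
    (AlgHom.mapMatrix ev).comp (piS (N + 1) (N + 2))
  have hl : ∀ i, πK (lam (FreeAlgebra.ι K i)) =
      wsh (g1 _ _) fun p => if v1[p.1.val]? = some i then (1 : K) else 0 := by
    intro i
    simp only [πK, AlgHom.comp_apply, piS, mkU_lam_ι, AlgHom.mapMatrix_apply]
    refine (wsh_map ev.toRingHom _ _).trans ?_
    congr 1
    funext p
    simp only [al1, c1]
    split_ifs <;> simp_all [ev, val]
  have hr : ∀ i, πK (rho (FreeAlgebra.ι K i)) =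
      wsh (g2 _ _) fun p => if w1[p.2.val]? = some i then (1 : K) else 0 := by
    intro i
    simp only [πK, AlgHom.comp_apply, piS, mkU_rho_ι, AlgHom.mapMatrix_apply]
    refine (wsh_map ev.toRingHom _ _).trans ?_
    congr 1
    funext p
    simp only [al2, c2]
    split_ifs <;> simp_all [ev, val]
  let ent : U K σ →ₗ[K] K :=
    (Matrix.entryLinearMap K K ((0 : ZMod (N + 1)), (0 : ZMod (N + 2)))
      ((v1.length : ZMod (N + 1)), (w1.length : ZMod (N + 2)))) ∘ₗ πK.toLinearMap
  have hent : ent = bU.coord (v0, w0) := by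
    refine bU.ext fun ⟨v, w⟩ => ?_
    rw [Module.Basis.coord_apply, Module.Basis.repr_self]
    have hb : bU (v, w) = lam (bA v) * rho (bA w) := by
      simp only [bU, Module.Basis.tensorProduct_apply, tmul_eq]
      simp
    simp only [ent, LinearMap.comp_apply, AlgHom.toLinearMap_apply, hb, map_mul, bA, basis_apply,
      hom_rho_prod, hom_lam_prod, hl, hr]
    rw [wsh_prod (g1 _ _) (fun i p => if v1[p.1.val]? = some i then (1 : K) else 0),
      wsh_prod (g2 _ _) (fun i p => if w1[p.2.val]? = some i then (1 : K) else 0), wsh_mul]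
    simp only [Matrix.entryLinearMap_apply, wsh, Matrix.of_apply, Function.comp, g1_iter, g2_iter,
      zero_add]
    rw [wt_eval (N + 1) (g1 _ _) Prod.fst (fun p => rfl) v1 (by omega) _ (fun i p => rfl) _ 0 _
      (Nat.zero_le _) (by simp),
      wt_eval (N + 2) (g2 _ _) Prod.snd (fun p => rfl) w1 (by omega) _ (fun i p => rfl) _ 0 _
      (Nat.zero_le _) (by simp)]
    simp only [List.drop_zero, Finsupp.single_apply, Prod.mk.injEq]
    by_cases hvw : v = v0 ∧ w = w0
    · obtain ⟨rfl, rfl⟩ := hvw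
      simp [hv1, hw1]
    · rw [Finsupp.single_eq_of_ne (by simpa [eq_comm] using hvw)]
      split_ifs with h1 h2 h3 <;> try simp
      exfalso
      apply hvw
      have l1 := h2.length_le
      have l2 := h3.length_le
      have q1 := congrArg ZMod.val h1.1
      have q2 := congrArg ZMod.val h1.2
      rw [ZMod.val_cast_of_lt (by omega), ZMod.val_cast_of_lt (by omega)] at q1 q2
      refine ⟨FreeMonoid.toList.injective (h2.eq_of_length q1.symm), ?_⟩
      exact FreeMonoid.toList.injective (List.reverse_injective (h3.eq_of_length q2.symm))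
  have : ent u = 0 := by
    simp [ent, πK, h N]
  rw [hent] at this
  exact this

omit [Fintype σ] in
/-- Main invertibility lemma over `U`. -/
theorem isUnit_of_spec {d : Type} [Fintype d] [DecidableEq d] (J : Matrix d d (U K σ))
    (h0 : J.map eps2 = 1) (hJ : Spec J) : IsUnit J := by
  obtain ⟨e, he⟩ := exists_deg J
  refine isUnit_of_Q J h0 e he ((e + 1) * Fintype.card d) fun k hk => ?_
  ext a b : 2
  refine faithful _ fun N => ?_
  have h1 := Q_bound J h0 hJ (piF (N + 1) (N + 2)) e he (fun m _ => by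
    have : Fintype.card (ZMod (N + 1) × ZMod (N + 2)) = (N + 1) * (N + 2) := by simp
    rw [this]
    exact Nat.Coprime.mul_dvd_of_dvd_of_dvd ((Nat.coprime_self_add_right (m := N + 1) (n := 1)).2 (Nat.coprime_one_right _)) (div1 _ _ _ _ _) (div2 _ _ _ _ _)) k hk
  refine Matrix.ext fun p q => ?_
  have h2 := congrFun (congrFun h1 (a, p)) (b, q)
  rw [flat_apply] at h2
  apply IsFractionRing.injective (Spoly K (Vr (N + 1) (N + 2) σ)) (Ffrac K (Vr (N + 1) (N + 2) σ))
  simpa [piF] using h2

end Pool.Agent.H32.FJ
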