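import Pool.Agent.H32.FJ4

set_option autoImplicit false

open scoped TensorProduct
open MulOpposite Polynomial

namespace Pool.Agent.H32.FJ

universe u

variable {K : Type u} [Field K] {σ : Type} [Fintype σ] [DecidableEq σ]

/-- span of the monomials of degree at least `m` -/
def Ipow (K : Type u) [Field K] (σ : Type) (m : ℕ) : Submodule K (FreeAlgebra K σ) :=
  Submodule.span K {w | ∃ l : List σ, m ≤ l.length ∧ w = (l.map (FreeAlgebra.ι K)).prod}

section Ipow
omit [Fintype σ] [DecidableEq σ]

lemma Ipow_mul {a b : ℕ} {f g : A K σ} (hf : f ∈ Ipow K σ a) (hg : g ∈ Ipow K σ b) :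
    f * g ∈ Ipow K σ (a + b) := by
  induction hf using Submodule.span_induction with
  | mem x hx =>
    induction hg using Submodule.span_induction with
    | mem y hy =>
      obtain ⟨l, hl, rfl⟩ := hx
      obtain ⟨l', hl', rfl⟩ := hy
      exact Submodule.subset_span ⟨l ++ l', by simp; omega, by simp⟩
    | zero => simp
    | add y z _ _ hy hz => rw [mul_add]; exact add_mem hy hz
    | smul c y _ hy => rw [mul_smul_comm]; exact Submodule.smul_mem _ _ hy
  | zero => simp
  | add y z _ _ hy hz => rw [add_mul]; exact add_mem hy hz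
  | smul c y _ hy => rw [smul_mul_assoc]; exact Submodule.smul_mem _ _ hy

lemma Ipow_anti {a b : ℕ} (h : a ≤ b) : Ipow K σ b ≤ Ipow K σ a :=
  Submodule.span_mono fun _ ⟨l, hl, hw⟩ => ⟨l, h.trans hl, hw⟩

lemma ι_mem (i : σ) : FreeAlgebra.ι K i ∈ Ipow K σ 1 :=
  Submodule.subset_span ⟨[i], by simp, by simp⟩

lemma mem_zero (f : A K σ) : f ∈ Ipow K σ 0 := by
  induction f using FreeAlgebra.induction with
  | grade0 c =>
    rw [Algebra.algebraMap_eq_smul_one]
    exact Submodule.smul_mem _ _ (Submodule.subset_span ⟨[], by simp, by simp⟩)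
  | grade1 i => exact Ipow_anti (Nat.zero_le 1) (ι_mem i)
  | mul a b ha hb => have := Ipow_mul ha hb; exact this
  | add a b ha hb => exact add_mem ha hb

lemma Ipow_mul_left {a : ℕ} (f : A K σ) {g : A K σ} (hg : g ∈ Ipow K σ a) : f * g ∈ Ipow K σ a := by
  simpa using Ipow_mul (mem_zero f) hg

lemma Ipow_mul_right {a : ℕ} {f : A K σ} (hf : f ∈ Ipow K σ a) (g : A K σ) : f * g ∈ Ipow K σ a := by
  simpa using Ipow_mul hf (mem_zero g)

lemma sub_mem_of_gen {m : ℕ} (ψ χ : A K σ →ₐ[K] A K σ)
    (h : ∀ i, ψ (FreeAlgebra.ι K i) - χ (FreeAlgebra.ι K i) ∈ Ipow K σ m) (f : A K σ) :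
    ψ f - χ f ∈ Ipow K σ m := by
  induction f using FreeAlgebra.induction with
  | grade0 c => simp
  | grade1 i => exact h i
  | mul a b ha hb =>
    have : ψ (a * b) - χ (a * b) = (ψ a - χ a) * ψ b + χ a * (ψ b - χ b) := by
      simp only [map_mul]; noncomm_ring
    rw [this]
    exact add_mem (Ipow_mul_right ha _) (Ipow_mul_left _ hb)
  | add a b ha hb =>
    have : ψ (a + b) - χ (a + b) = (ψ a - χ a) + (ψ b - χ b) := by
      simp only [map_add]; abel
    rw [this]
    exact add_mem ha hb

lemma map_mem_Ipow (α : A K σ →ₐ[K] A K σ) (h : ∀ i, α (FreeAlgebra.ι K i) ∈ Ipow K σ 1)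
    {m : ℕ} {f : A K σ} (hf : f ∈ Ipow K σ m) : α f ∈ Ipow K σ m := by
  induction hf using Submodule.span_induction with
  | mem x hx =>
    obtain ⟨l, hl, rfl⟩ := hx
    refine Ipow_anti hl ?_
    clear hl
    induction l with
    | nil => exact mem_zero _
    | cons i l ih =>
      rw [List.map_cons, List.prod_cons, map_mul, List.length_cons, add_comm]
      exact Ipow_mul (h i) ih
  | zero => simp
  | add y z _ _ hy hz => rw [map_add]; exact add_mem hy hz
  | smul c y _ hy => rw [map_smul]; exact Submodule.smul_mem _ _ hy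

noncomputable abbrev eps : A K σ →ₐ[K] K := FreeAlgebra.algebraMapInv

lemma eps_ι (i : σ) : eps (FreeAlgebra.ι K i) = 0 := by simp [eps, FreeAlgebra.algebraMapInv]

lemma eps_of_mem {f : A K σ} (hf : f ∈ Ipow K σ 1) : eps f = 0 := by
  induction hf using Submodule.span_induction with
  | mem x hx =>
    obtain ⟨l, hl, rfl⟩ := hx
    rcases l with _ | ⟨i, l⟩
    · simp at hl
    · simp [eps_ι]
  | zero => simp
  | add y z _ _ hy hz => rw [map_add, hy, hz, add_zero]
  | smul c y _ hy => rw [map_smul, hy, smul_zero]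

lemma sub_eps_mem (f : A K σ) : f - algebraMap K _ (eps f) ∈ Ipow K σ 1 := by
  have := sub_mem_of_gen (AlgHom.id K (A K σ)) ((Algebra.ofId K (A K σ)).comp eps)
    (m := 1) (fun i => by simpa [eps_ι] using ι_mem i) f
  simpa using this

lemma mem_of_eps {f : A K σ} (hf : eps f = 0) : f ∈ Ipow K σ 1 := by
  simpa [hf] using sub_eps_mem f

end Ipow

section dvd
variable {B : Type*} [Ring B] {s : B} (hs : ∀ b, Commute s b)
include hs

lemma cdvd_mul {a b : ℕ} {x y : B} (hx : s ^ a ∣ x) (hy : s ^ b ∣ y) : s ^ (a + b) ∣ x * y := by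
  obtain ⟨x, rfl⟩ := hx
  obtain ⟨y, rfl⟩ := hy
  refine ⟨x * y, ?_⟩
  rw [pow_add, mul_assoc, mul_assoc, ← mul_assoc x, ← ((hs x).pow_left b).eq, mul_assoc]

lemma cdvd_left {b : ℕ} (x : B) {y : B} (hy : s ^ b ∣ y) : s ^ b ∣ x * y := by
  simpa using cdvd_mul hs (a := 0) (by simp) hy

variable [Algebra K B]

omit [Fintype σ] in
lemma Ipow_dvd (π : U K σ →ₐ[K] B) (hl : ∀ i, s ∣ π (lam (FreeAlgebra.ι K i)))
    (hr : ∀ i, s ∣ π (rho (FreeAlgebra.ι K i))) {m : ℕ} {f : A K σ} (hf : f ∈ Ipow K σ m) :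
    s ^ m ∣ π (lam f) ∧ s ^ m ∣ π (rho f) ∧ ∀ j, s ^ (m - 1) ∣ π (der j f) := by
  induction hf using Submodule.span_induction with
  | mem x hx =>
    obtain ⟨l, hl', rfl⟩ := hx
    suffices h : s ^ l.length ∣ π (lam (l.map (FreeAlgebra.ι K)).prod) ∧
        s ^ l.length ∣ π (rho (l.map (FreeAlgebra.ι K)).prod) ∧
        ∀ j, s ^ (l.length - 1) ∣ π (der j (l.map (FreeAlgebra.ι K)).prod) from
      ⟨(pow_dvd_pow s hl').trans h.1, (pow_dvd_pow s hl').trans h.2.1,
        fun j => (pow_dvd_pow s (by omega)).trans (h.2.2 j)⟩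
    clear hl'
    induction l with
    | nil => simp
    | cons i l ih =>
      rw [List.map_cons, List.prod_cons, List.length_cons]
      refine ⟨?_, ?_, fun j => ?_⟩
      · rw [map_mul, map_mul, add_comm]
        exact cdvd_mul hs (by simpa using hl i) ih.1
      · rw [rho_mul, map_mul]
        exact cdvd_mul hs ih.2.1 (by simpa using hr i)
      · rw [der_mul, map_add, map_mul, map_mul, Nat.add_sub_cancel]
        refine dvd_add ?_ (ih.2.1.mul_right _)
        rcases l with _ | ⟨i', l⟩
        · simp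
        · have := cdvd_mul hs (a := 1) (by simpa using hl i) (ih.2.2 j)
          simpa [add_comm] using this
  | zero => simp [rho_zero]
  | add y z _ _ hy hz =>
    refine ⟨?_, ?_, fun j => ?_⟩
    · rw [map_add, map_add]; exact dvd_add hy.1 hz.1
    · rw [rho_add, map_add]; exact dvd_add hy.2.1 hz.2.1
    · rw [map_add, map_add]; exact dvd_add (hy.2.2 j) (hz.2.2 j)
  | smul c y _ hy =>
    refine ⟨?_, ?_, fun j => ?_⟩
    · rw [map_smul, map_smul, Algebra.smul_def]; exact cdvd_left hs _ hy.1
    · rw [rho_smul, map_smul, Algebra.smul_def]; exact cdvd_left hs _ hy.2.1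
    · rw [map_smul, map_smul, Algebra.smul_def]; exact cdvd_left hs _ (hy.2.2 j)

end dvd

noncomputable def epsR : U K σ →ₐ[K] A K σ :=
  mkU (FreeAlgebra.ι K) (fun _ => 0) (fun _ _ => Commute.zero_right _)

noncomputable def epsL : U K σ →ₐ[K] (A K σ)ᵐᵒᵖ :=
  mkU (fun _ => 0) (fun i => op (FreeAlgebra.ι K i)) (fun _ _ => Commute.zero_left _)

section epsLR
omit [Fintype σ] [DecidableEq σ]

lemma epsR_lam (f : A K σ) : epsR (lam f) = f := by
  have : FreeAlgebra.lift K (FreeAlgebra.ι K) = AlgHom.id K (A K σ) := by ext; simp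
  rw [epsR, mkU_lam, this]; rfl

lemma epsL_lam (f : A K σ) : epsL (lam f) = algebraMap K _ (eps f) := by
  induction f using FreeAlgebra.induction with
  | grade0 c => simp only [AlgHom.commutes]; rfl
  | grade1 i => rw [epsL, mkU_lam_ι, eps_ι, map_zero]
  | mul a b ha hb => simp only [map_mul, ha, hb]
  | add a b ha hb => simp only [map_add, ha, hb]

lemma epsR_rho (f : A K σ) : epsR (rho f) = algebraMap K _ (eps f) := by
  induction f using FreeAlgebra.induction with
  | grade0 c => simp only [rho_algebraMap, AlgHom.commutes]; rfl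
  | grade1 i => rw [epsR, mkU_rho_ι, eps_ι, map_zero]
  | mul a b ha hb => rw [rho_mul, map_mul, ha, hb, ← map_mul, map_mul eps, mul_comm]
  | add a b ha hb => simp only [rho_add, map_add, ha, hb]

lemma epsL_rho (f : A K σ) : epsL (rho f) = op f := by
  induction f using FreeAlgebra.induction with
  | grade0 c => simp only [rho_algebraMap, AlgHom.commutes]; rfl
  | grade1 i => rw [epsL, mkU_rho_ι]
  | mul a b ha hb => rw [rho_mul, map_mul, ha, hb, op_mul]
  | add a b ha hb => simp only [rho_add, map_add, ha, hb, op_add]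

end epsLR

omit [Fintype σ] in
lemma eq_zero_of_mem {f : A K σ} (hf : ∀ m, f ∈ Ipow K σ m) : f = 0 := by
  have h1 : ∀ m, (X : (U K σ)[X]) ^ m ∣ gam (lam f) := fun m =>
    (Ipow_dvd (B := (U K σ)[X]) (s := X) (fun b => commute_X b) gam
      (fun i => by rw [gam, mkU_lam_ι]; exact Dvd.intro _ rfl)
      (fun i => by rw [gam, mkU_rho_ι]; exact Dvd.intro _ rfl) (hf m)).1
  have h2 : gam (lam f) = 0 := by
    refine Polynomial.ext fun k => ?_
    rw [coeff_zero]
    exact X_pow_dvd_iff.1 (h1 (k + 1)) k (Nat.lt_succ_self k)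
  have h3 := gam_eval (lam f)
  rw [h2, eval_zero] at h3
  rw [← epsR_lam f, ← h3, map_zero]

lemma det_congr {κ R : Type*} [Fintype κ] [DecidableEq κ] [CommRing R] (z : R)
    (M M' : Matrix κ κ R) (h : ∀ x y, z ∣ M x y - M' x y) : z ∣ M.det - M'.det := by
  rw [← Ideal.mem_span_singleton, ← Ideal.Quotient.eq, RingHom.map_det, RingHom.map_det]
  congr 1
  ext x y
  simp only [RingHom.mapMatrix_apply, Matrix.map_apply]
  rw [Ideal.Quotient.eq, Ideal.mem_span_singleton]
  exact h x y

lemma unit_of_congr {R : Type*} [CommRing R] [IsDomain R] (p q : R[X]) (n : ℕ) (hq : IsUnit q)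
    (h : X ^ n ∣ p - q) (hn : p.natDegree < n) : IsUnit p := by
  have h1 : q.natDegree = 0 := natDegree_eq_zero_of_isUnit hq
  have : p - q = 0 := by
    ext k
    by_cases hk : k < n
    · exact X_pow_dvd_iff.1 h k hk
    · rw [coeff_sub, coeff_eq_zero_of_natDegree_lt (by omega),
        coeff_eq_zero_of_natDegree_lt (by omega)]
      simp
  rwa [sub_eq_zero.1 this]

lemma mat_dvd {τ R : Type*} [Fintype τ] [DecidableEq τ] [CommRing R] (z : R) (n : ℕ)
    (M : Matrix τ τ R) (h : (algebraMap R (Matrix τ τ R) z) ^ n ∣ M) (p q : τ) : z ^ n ∣ M p q := by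
  obtain ⟨c, rfl⟩ := h
  rw [← map_pow, ← Algebra.smul_def]
  exact ⟨c p q, rfl⟩

section scal
variable {B : Type*} [Ring B] [Algebra K B]

noncomputable def scal (π : U K σ →ₐ[K] B) (s : B) (c : σ → B) (hs : ∀ b, Commute s b)
    (hc : ∀ i b, Commute (c i) b) : U K σ →ₐ[K] B :=
  mkU (fun i => c i + s * (π (lam (FreeAlgebra.ι K i)) - c i))
    (fun i => c i + s * (π (rho (FreeAlgebra.ι K i)) - c i)) (fun i j => by
      refine Commute.add_left (hc _ _) (Commute.mul_left (hs _) (Commute.sub_left ?_ (hc _ _)))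
      refine Commute.add_right (hc _ _).symm (Commute.mul_right (hs _).symm
        (Commute.sub_right ?_ (hc _ _).symm))
      exact (show Commute (lam (FreeAlgebra.ι K i)) (rho (FreeAlgebra.ι K j)) from
        lam_rho_comm _ _).map π)

end scal

omit [Fintype σ] [DecidableEq σ] in
lemma flat_map {d τ : Type} [Fintype d] [DecidableEq d] [Fintype τ] [DecidableEq τ]
    {R R' : Type*} [CommRing R] [Algebra K R] [CommRing R'] [Algebra K R'] (f : R →ₐ[K] R')
    (π : U K σ →ₐ[K] Matrix τ τ R) (J : Matrix d d (U K σ)) :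
    (flat ((AlgHom.mapMatrix f).comp π) J).det = f (flat π J).det := by
  rw [AlgHom.map_det]
  rfl

theorem spec_of_approx (φ : A K σ →ₐ[K] A K σ)
    (h : ∀ m, ∃ θ : A K σ ≃ₐ[K] A K σ, ∀ i,
      θ.symm (φ (FreeAlgebra.ι K i)) - FreeAlgebra.ι K i ∈ Ipow K σ m) : Spec (Jac φ) := by
  intro τ _ _ R _ _ _ π
  let R' := MvPolynomial σ R
  let cc : R →ₐ[K] R'[X] := IsScalarTower.toAlgHom K R R'[X]
  let πg : U K σ →ₐ[K] Matrix τ τ R'[X] :=
    scal ((AlgHom.mapMatrix cc).comp π) (algebraMap R'[X] _ X)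
      (fun i => algebraMap R'[X] _ (C (MvPolynomial.X i)))
      (fun b => Algebra.commute_algebraMap_left _ _) (fun i b => Algebra.commute_algebraMap_left _ _)
  set D := (flat πg (Jac φ)).det.natDegree
  obtain ⟨θ, hθ⟩ := h (D + 2)
  let a : σ → K := fun i => eps (θ.symm (FreeAlgebra.ι K i))
  let eva : R' →ₐ[K] R := (MvPolynomial.aeval fun i => algebraMap K R (a i)).restrictScalars K
  let πa : U K σ →ₐ[K] Matrix τ τ R[X] := (AlgHom.mapMatrix (Polynomial.mapAlgHom eva)).comp πg
  let s : Matrix τ τ R[X] := algebraMap R[X] _ X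
  have hs : ∀ b, Commute s b := fun b => Algebra.commute_algebraMap_left _ _
  have hmapalg : ∀ z : R'[X], (AlgHom.mapMatrix (Polynomial.mapAlgHom eva))
      (algebraMap R'[X] (Matrix τ τ R'[X]) z) =
      algebraMap R[X] (Matrix τ τ R[X]) (Polynomial.mapAlgHom eva z) := by
    intro z
    ext p q : 2
    simp only [AlgHom.mapMatrix_apply, Matrix.map_apply, Matrix.algebraMap_matrix_apply]
    split_ifs <;> simp
  have hca : ∀ i, algebraMap R[X] (Matrix τ τ R[X]) (Polynomial.mapAlgHom eva (C (MvPolynomial.X i))) =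
      algebraMap K _ (a i) := by
    intro i
    rw [IsScalarTower.algebraMap_apply K R[X] (Matrix τ τ R[X])]
    congr 1
    simp [eva, Polynomial.algebraMap_apply, R']
  have hcc : ∀ M : Matrix τ τ R, (AlgHom.mapMatrix (Polynomial.mapAlgHom eva))
      (AlgHom.mapMatrix cc M) = M.map C := by
    intro M
    ext p q : 2
    simp [cc, eva, Polynomial.algebraMap_apply, R']
  have hXs : algebraMap R[X] (Matrix τ τ R[X]) (Polynomial.mapAlgHom eva X) = s := by simp [s]
  have hl : ∀ i, πa (lam (FreeAlgebra.ι K i)) =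
      algebraMap K _ (a i) + s * ((π (lam (FreeAlgebra.ι K i))).map C - algebraMap K _ (a i)) := by
    intro i
    simp only [πa, πg, scal, AlgHom.comp_apply, mkU_lam_ι, map_add, map_mul, map_sub, hmapalg, hca,
      hcc, hXs]
  have hr : ∀ i, πa (rho (FreeAlgebra.ι K i)) =
      algebraMap K _ (a i) + s * ((π (rho (FreeAlgebra.ι K i))).map C - algebraMap K _ (a i)) := by
    intro i
    simp only [πa, πg, scal, AlgHom.comp_apply, mkU_rho_ι, map_add, map_mul, map_sub, hmapalg, hca,
      hcc, hXs]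
  have hlift : FreeAlgebra.lift K a = eps.comp θ.symm.toAlgHom := by
    ext i; simp [a]
  have hpl : ∀ f : A K σ, s ∣ πa (lam f) - algebraMap K _ (FreeAlgebra.lift K a f) := by
    intro f
    induction f using FreeAlgebra.induction with
    | grade0 c => simp only [AlgHom.commutes]; simp
    | grade1 i => rw [hl]; simp
    | mul x y hx hy =>
      have : πa (lam (x * y)) - algebraMap K _ (FreeAlgebra.lift K a (x * y)) =
          (πa (lam x) - algebraMap K _ (FreeAlgebra.lift K a x)) * πa (lam y) +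
          algebraMap K _ (FreeAlgebra.lift K a x) *
            (πa (lam y) - algebraMap K _ (FreeAlgebra.lift K a y)) := by
        simp only [map_mul]; noncomm_ring
      rw [this]
      exact dvd_add (hx.mul_right _) (by simpa using cdvd_left hs (b := 1) _ (by simpa using hy))
    | add x y hx hy =>
      have := dvd_add hx hy
      simp only [map_add]
      convert this using 1
      abel
  have hpr : ∀ f : A K σ, s ∣ πa (rho f) - algebraMap K _ (FreeAlgebra.lift K a f) := by
    intro f
    induction f using FreeAlgebra.induction with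
    | grade0 c => simp only [rho_algebraMap, AlgHom.commutes]; simp
    | grade1 i => rw [hr]; simp
    | mul x y hx hy =>
      have : πa (rho (x * y)) - algebraMap K _ (FreeAlgebra.lift K a (x * y)) =
          (πa (rho y) - algebraMap K _ (FreeAlgebra.lift K a y)) * πa (rho x) +
          algebraMap K _ (FreeAlgebra.lift K a y) *
            (πa (rho x) - algebraMap K _ (FreeAlgebra.lift K a x)) := by
        rw [rho_mul, map_mul (FreeAlgebra.lift K a), mul_comm (FreeAlgebra.lift K a x)]
        simp only [map_mul]; noncomm_ring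
      rw [this]
      exact dvd_add (hy.mul_right _) (by simpa using cdvd_left hs (b := 1) _ (by simpa using hx))
    | add x y hx hy =>
      have := dvd_add hx hy
      simp only [rho_add, map_add]
      convert this using 1
      abel
  let π' := πa.comp (mapU θ.toAlgHom)
  have hl' : ∀ i, s ∣ π' (lam (FreeAlgebra.ι K i)) := by
    intro i
    have := hpl (θ (FreeAlgebra.ι K i))
    have e0 : FreeAlgebra.lift K a (θ (FreeAlgebra.ι K i)) = 0 := by rw [hlift]; simp [eps_ι]
    rw [e0, map_zero, sub_zero] at this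
    rw [AlgHom.comp_apply, mapU_lam]
    exact this
  have hr' : ∀ i, s ∣ π' (rho (FreeAlgebra.ι K i)) := by
    intro i
    have := hpr (θ (FreeAlgebra.ι K i))
    have e0 : FreeAlgebra.lift K a (θ (FreeAlgebra.ι K i)) = 0 := by rw [hlift]; simp [eps_ι]
    rw [e0, map_zero, sub_zero] at this
    rw [AlgHom.comp_apply, mapU_rho]
    exact this
  have hcong : ∀ x y, (X : R[X]) ^ (D + 1) ∣ flat πa (Jac φ) x y - flat πa (Jac θ.toAlgHom) x y := by
    intro x y
    rw [flat_apply, flat_apply, ← Matrix.sub_apply, ← map_sub]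
    apply mat_dvd
    have e : Jac φ x.1 y.1 - Jac θ.toAlgHom x.1 y.1 = der y.1 (θ.toAlgHom
        (θ.symm (φ (FreeAlgebra.ι K x.1)) - FreeAlgebra.ι K x.1)) := by
      simp [Jac]
    rw [e, chain, map_sum]
    refine Finset.dvd_sum fun k _ => ?_
    rw [map_mul]
    exact ((Ipow_dvd hs π' hl' hr' (hθ x.1)).2.2 k).mul_right _
  have hunit : IsUnit (flat πa (Jac θ.toAlgHom)).det := by
    have h1 := Jac_comp θ.toAlgHom θ.symm.toAlgHom
    have h2 : θ.toAlgHom.comp θ.symm.toAlgHom = AlgHom.id K _ := by ext; simp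
    rw [h2, Jac_id] at h1
    have h3 := congrArg (fun M => (flat πa M).det) h1
    simp only [map_one, map_mul, Matrix.det_one, Matrix.det_mul] at h3
    exact IsUnit.of_mul_eq_one_right _ h3.symm
  have hdeg : (flat πa (Jac φ)).det.natDegree < D + 1 := by
    have : ∀ p : R'[X], (Polynomial.mapAlgHom eva p).natDegree ≤ p.natDegree :=
      fun p => natDegree_map_le
    rw [flat_map]
    exact Nat.lt_succ_of_le (this _)
  have hu := unit_of_congr _ _ _ hunit (det_congr _ _ _ hcong) hdeg
  let ev1 : R[X] →ₐ[K] R := (Polynomial.aeval (1 : R)).restrictScalars K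
  have hπ : (AlgHom.mapMatrix ev1).comp πa = π := by
    have hs1 : (AlgHom.mapMatrix ev1) s = 1 := by
      ext p q
      simp only [s, AlgHom.mapMatrix_apply, Matrix.map_apply, Matrix.algebraMap_matrix_apply,
        Matrix.one_apply]
      split_ifs <;> simp [ev1]
    have hC : ∀ M : Matrix τ τ R, (AlgHom.mapMatrix ev1) (M.map C) = M := by
      intro M; ext p q; simp [ev1]
    refine U_ext (fun i => ?_) (fun i => ?_)
    · rw [AlgHom.comp_apply, hl, map_add, map_mul, map_sub, hs1, hC, AlgHom.commutes]; simp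
    · rw [AlgHom.comp_apply, hr, map_add, map_mul, map_sub, hs1, hC, AlgHom.commutes]; simp
  rw [← hπ, flat_map]
  exact hu.map ev1

end Pool.Agent.H32.FJ
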