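import Pool.Agent.H32.FJ5

set_option autoImplicit false

open scoped TensorProduct
open MulOpposite Polynomial

namespace Pool.Agent.H32.FJ

universe u

variable {K : Type u} [Field K] {σ : Type} [Fintype σ] [DecidableEq σ]

section core
variable (ψ : A K σ →ₐ[K] A K σ) (Q : Matrix σ σ (U K σ))

/-- two-sided derivative with respect to the new variables -/
noncomputable def Ed (i : σ) : A K σ →ₗ[K] U K σ :=
  ∑ j, (LinearMap.mulRight K (Q j i)) ∘ₗ der j

lemma Ed_apply (i : σ) (f : A K σ) : Ed Q i f = ∑ j, der j f * Q j i := by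
  simp [Ed, LinearMap.sum_apply]

lemma Ed_mul (i : σ) (a b : A K σ) : Ed Q i (a * b) = lam a * Ed Q i b + rho b * Ed Q i a := by
  simp only [Ed_apply, der_mul, add_mul, Finset.sum_add_distrib, Finset.mul_sum, mul_assoc]

lemma Ed_algebraMap (i : σ) (c : K) : Ed Q i (algebraMap K _ c) = 0 := by
  simp [Ed_apply, der_algebraMap]

noncomputable def Tq (i : σ) : A K σ →ₗ[K] A K σ :=
  (opLinearEquiv K : A K σ ≃ₗ[K] (A K σ)ᵐᵒᵖ).symm.toLinearMap ∘ₗ epsL.toLinearMap ∘ₗ Ed Q i

noncomputable def Sq (i : σ) : A K σ →ₗ[K] A K σ := epsR.toLinearMap ∘ₗ Ed Q i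

lemma Tq_apply (i : σ) (f : A K σ) : Tq Q i f = unop (epsL (Ed Q i f)) := rfl
lemma Sq_apply (i : σ) (f : A K σ) : Sq Q i f = epsR (Ed Q i f) := rfl

lemma Tq_mul (i : σ) (a b : A K σ) : Tq Q i (a * b) = eps a • Tq Q i b + Tq Q i a * b := by
  rw [Tq_apply, Ed_mul, map_add, map_mul, map_mul, epsL_lam, epsL_rho, ← Algebra.smul_def]
  rfl

lemma Sq_mul (i : σ) (a b : A K σ) : Sq Q i (a * b) = a * Sq Q i b + eps b • Sq Q i a := by
  rw [Sq_apply, Ed_mul, map_add, map_mul, map_mul, epsR_lam, epsR_rho, ← Algebra.smul_def]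
  rfl

lemma Tq_one (i : σ) : Tq Q i 1 = 0 := by
  rw [Tq_apply, ← map_one (algebraMap K (A K σ)), Ed_algebraMap, map_zero]; rfl

lemma Sq_algebraMap (i : σ) (c : K) : Sq Q i (algebraMap K _ c) = 0 := by
  rw [Sq_apply, Ed_algebraMap, map_zero]

variable {ψ Q}

lemma Ed_y (hJQ : Jac ψ * Q = 1) (i k : σ) :
    Ed Q i (ψ (FreeAlgebra.ι K k)) = if k = i then 1 else 0 := by
  have := congrFun (congrFun hJQ k) i
  rw [Matrix.mul_apply, Matrix.one_apply] at this
  rw [Ed_apply, ← this]; rfl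

lemma del_eq_y (hQJ : Q * Jac ψ = 1) (f : A K σ) :
    del f = ∑ i, Ed Q i f * del (ψ (FreeAlgebra.ι K i)) := by
  have h1 : ∀ i, del (ψ (FreeAlgebra.ι K i)) = ∑ k, Jac ψ i k * del (FreeAlgebra.ι K k) :=
    fun i => del_eq _
  have h2 : ∀ j, ∑ i, Q j i * del (ψ (FreeAlgebra.ι K i)) = del (FreeAlgebra.ι K j) := by
    intro j
    simp only [h1, Finset.mul_sum, ← mul_assoc]
    rw [Finset.sum_comm]
    simp only [← Finset.sum_mul, ← Matrix.mul_apply, hQJ, Matrix.one_apply]
    simp
  simp only [Ed_apply, Finset.sum_mul, mul_assoc]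
  rw [Finset.sum_comm]
  simp only [← Finset.mul_sum, h2]
  exact del_eq f

lemma Tq_y (hJQ : Jac ψ * Q = 1) (i k : σ) :
    Tq Q i (ψ (FreeAlgebra.ι K k)) = if k = i then 1 else 0 := by
  rw [Tq_apply, Ed_y hJQ]; split_ifs <;> simp only [map_one, map_zero] <;> rfl

lemma Sq_y (hJQ : Jac ψ * Q = 1) (i k : σ) :
    Sq Q i (ψ (FreeAlgebra.ι K k)) = if k = i then 1 else 0 := by
  rw [Sq_apply, Ed_y hJQ]; split_ifs <;> simp only [map_one, map_zero]

lemma expand_left (hQJ : Q * Jac ψ = 1) (h0 : ∀ i, eps (ψ (FreeAlgebra.ι K i)) = 0) (f : A K σ) :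
    f = algebraMap K _ (eps f) + ∑ i, ψ (FreeAlgebra.ι K i) * Tq Q i f := by
  have h := congrArg (fun u => unop (epsL u)) (del_eq_y hQJ f)
  simp only [del, map_sub, map_sum, map_mul, epsL_lam, epsL_rho, h0, map_zero, zero_sub,
    unop_sub, unop_op, Finset.unop_sum, unop_mul, unop_neg, neg_mul, Finset.sum_neg_distrib] at h
  have e : unop (algebraMap K (A K σ)ᵐᵒᵖ (eps f)) = algebraMap K (A K σ) (eps f) := rfl
  rw [e] at h
  simp only [Tq_apply]
  rw [← sub_eq_zero]
  have := sub_eq_zero.2 h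
  rw [← neg_eq_zero, ← this]
  abel

lemma rT_lam (hJQ : Jac ψ * Q = 1) (h0 : ∀ i, eps (ψ (FreeAlgebra.ι K i)) = 0) (l k : σ)
    (u : U K σ) : LinearMap.rTensor (A K σ)ᵐᵒᵖ (Tq Q l) (lam (ψ (FreeAlgebra.ι K k)) * u) =
      if k = l then u else 0 := by
  induction u using TensorProduct.induction_on with
  | zero => simp
  | tmul a b =>
    rw [lam_apply, Algebra.TensorProduct.tmul_mul_tmul, LinearMap.rTensor_tmul, Tq_mul, h0,
      Tq_y hJQ]
    split_ifs <;> simp
  | add x y hx hy =>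
    rw [mul_add, map_add, hx, hy]
    split_ifs <;> simp

lemma Ed_Tq (hJQ : Jac ψ * Q = 1) (hQJ : Q * Jac ψ = 1)
    (h0 : ∀ i, eps (ψ (FreeAlgebra.ι K i)) = 0) (i l : σ) (f : A K σ) :
    Ed Q i (Tq Q l f) = LinearMap.rTensor (A K σ)ᵐᵒᵖ (Tq Q l) (Ed Q i f) := by
  conv_rhs => rw [expand_left hQJ h0 f]
  rw [map_add, Ed_algebraMap, zero_add, map_sum, map_sum, Finset.sum_eq_single l]
  · rw [Ed_mul, map_add, rT_lam hJQ h0, if_pos rfl, Ed_y hJQ]
    split_ifs
    · simp [rho, Tq_one]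
    · simp
  · intro k _ hk
    rw [Ed_mul, map_add, rT_lam hJQ h0, if_neg hk, Ed_y hJQ]
    split_ifs
    · simp [rho, Tq_one]
    · simp
  · simp

lemma exists_V (hJQ : Jac ψ * Q = 1) (hQJ : Q * Jac ψ = 1)
    (h0 : ∀ i, eps (ψ (FreeAlgebra.ι K i)) = 0) :
    ∃ V : Submodule K (A K σ), Module.Finite K V ∧ (∀ j, FreeAlgebra.ι K j ∈ V) ∧
      ∀ l, ∀ g ∈ V, Tq Q l g ∈ V := by
  obtain ⟨W, hW, hsub⟩ := TensorProduct.exists_finite_submodule_right_of_setFinite
    (Set.range fun x : σ × σ => Ed Q x.1 (FreeAlgebra.ι K x.2)) (Set.finite_range _)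
  let V : Submodule K (A K σ) :=
    ⨅ i, (LinearMap.range (LinearMap.lTensor (A K σ) W.subtype)).comap (Ed Q i)
  have hV : ∀ g, g ∈ V ↔ ∀ i, Ed Q i g ∈ LinearMap.range (LinearMap.lTensor (A K σ) W.subtype) := by
    intro g; simp only [V, Submodule.mem_iInf, Submodule.mem_comap]
  refine ⟨V, ?_, fun j => (hV _).2 fun i => hsub ⟨(i, j), rfl⟩, fun l g hg => (hV _).2 fun i => ?_⟩
  · let W' : Submodule K (A K σ) :=
      W.map (opLinearEquiv K : A K σ ≃ₗ[K] (A K σ)ᵐᵒᵖ).symm.toLinearMap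
    let Z : Submodule K (A K σ) := Submodule.span K {1} ⊔
      ⨆ i, W'.map (LinearMap.mulLeft K (ψ (FreeAlgebra.ι K i)))
    haveI : Module.Finite K W' := Module.Finite.map _ _
    haveI : Module.Finite K Z := by
      haveI : ∀ i, Module.Finite K (W'.map (LinearMap.mulLeft K (ψ (FreeAlgebra.ι K i)))) :=
        fun i => Module.Finite.map _ _
      infer_instance
    have hle : V ≤ Z := by
      intro g hg
      rw [expand_left hQJ h0 g]
      refine Submodule.add_mem_sup ?_ (Submodule.sum_mem _ fun i _ => ?_)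
      · rw [Algebra.algebraMap_eq_smul_one]
        exact Submodule.smul_mem _ _ (Submodule.subset_span rfl)
      · refine Submodule.mem_iSup_of_mem i (Submodule.mem_map_of_mem (f := LinearMap.mulLeft K _) ?_)
        obtain ⟨z, hz⟩ := (hV g).1 hg i
        refine ⟨epsL (Ed Q i g), ?_, rfl⟩
        rw [← hz]
        clear hz
        induction z using TensorProduct.induction_on with
        | zero => simp
        | tmul a b =>
          rw [LinearMap.lTensor_tmul, tmul_eq, map_mul, epsL_lam, epsL_rho, ← Algebra.smul_def]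
          exact W.smul_mem _ b.2
        | add x y hx hy => rw [map_add, map_add]; exact W.add_mem hx hy
    exact Submodule.finiteDimensional_of_le hle
  · obtain ⟨z, hz⟩ := (hV g).1 hg i
    rw [Ed_Tq hJQ hQJ h0, ← hz]
    refine ⟨LinearMap.rTensor W (Tq Q l) z, ?_⟩
    rw [← LinearMap.comp_apply, ← LinearMap.comp_apply, LinearMap.lTensor_comp_rTensor,
      LinearMap.rTensor_comp_lTensor]

lemma exists_system (hJQ : Jac ψ * Q = 1) (hQJ : Q * Jac ψ = 1)
    (h0 : ∀ i, eps (ψ (FreeAlgebra.ι K i)) = 0) :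
    ∃ (r : ℕ) (F : Fin r → A K σ) (M : σ → Matrix (Fin r) (Fin r) K),
      (∀ j, FreeAlgebra.ι K j ∈ Submodule.span K (Set.range F)) ∧
      (∀ a, F a = algebraMap K _ (eps (F a)) +
        ∑ i, ψ (FreeAlgebra.ι K i) * ∑ b, M i a b • F b) ∧
      ∀ γ : Fin r → K, ∃ G : Fin r → A K σ, ∀ a, G a = algebraMap K _ (γ a) +
        ∑ i, ψ (FreeAlgebra.ι K i) * ∑ b, M i a b • G b := by
  obtain ⟨V, hfin, hx, hT⟩ := exists_V hJQ hQJ h0
  let r := Module.finrank K V
  let bV : Module.Basis (Fin r) K V := Module.finBasis K V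
  let F : Fin r → A K σ := fun a => bV a
  let M : σ → Matrix (Fin r) (Fin r) K := fun i =>
    Matrix.of fun a b => bV.repr ⟨Tq Q i (F a), hT i _ (bV a).2⟩ b
  have hM : ∀ i a, Tq Q i (F a) = ∑ b, M i a b • F b := by
    intro i a
    have := congrArg Subtype.val (bV.sum_repr ⟨Tq Q i (F a), hT i _ (bV a).2⟩)
    simp only [AddSubmonoidClass.coe_finsetSum, SetLike.val_smul] at this
    exact this.symm
  have hF : ∀ a, F a = algebraMap K _ (eps (F a)) +
      ∑ i, ψ (FreeAlgebra.ι K i) * ∑ b, M i a b • F b := by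
    intro a
    simp only [← hM]
    exact expand_left hQJ h0 _
  refine ⟨r, F, M, fun j => ?_, hF, ?_⟩
  · have := congrArg Subtype.val (bV.sum_repr ⟨_, hx j⟩)
    simp only [AddSubmonoidClass.coe_finsetSum, SetLike.val_smul] at this
    rw [← this]
    exact Submodule.sum_mem _ fun b _ => Submodule.smul_mem _ _ (Submodule.subset_span ⟨b, rfl⟩)
  let Γ : Submodule K (Fin r → K) :=
    { carrier := {γ | ∃ G : Fin r → A K σ, ∀ a, G a = algebraMap K _ (γ a) +
        ∑ i, ψ (FreeAlgebra.ι K i) * ∑ b, M i a b • G b}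
      add_mem' := by
        rintro γ γ' ⟨G, hG⟩ ⟨G', hG'⟩
        refine ⟨G + G', fun a => ?_⟩
        simp only [Pi.add_apply, smul_add, Finset.sum_add_distrib, mul_add, map_add]
        conv_lhs => rw [hG a, hG' a]
        abel
      zero_mem' := ⟨0, fun a => by simp⟩
      smul_mem' := by
        rintro c γ ⟨G, hG⟩
        refine ⟨c • G, fun a => ?_⟩
        simp only [Pi.smul_apply, smul_comm _ c, ← Finset.smul_sum, mul_smul_comm]
        conv_lhs => rw [hG a]
        rw [smul_add, smul_eq_mul, map_mul, Algebra.smul_def c (algebraMap K _ (γ a))] }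
  have hc : (fun a => eps (F a)) ∈ Γ := ⟨F, hF⟩
  have hcl : ∀ l, ∀ γ ∈ Γ, (M l).mulVec γ ∈ Γ := by
    rintro l γ ⟨G, hG⟩
    have he : ∀ a, eps (G a) = γ a := by
      intro a
      rw [hG a]
      simp [h0]
    refine ⟨fun a => Sq Q l (G a), fun a => ?_⟩
    beta_reduce
    conv_lhs => rw [hG a]
    simp only [map_add, Sq_algebraMap, zero_add, map_sum, Sq_mul, map_smul, Sq_y hJQ, he,
      Finset.sum_add_distrib, smul_eq_mul]
    rw [add_comm]
    congr 1
    rw [Finset.sum_eq_single l]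
    · simp [Matrix.mulVec, dotProduct, Algebra.algebraMap_eq_smul_one, Finset.sum_smul]
    · intro k _ hk; simp [hk]
    · simp
  have htop : Γ = ⊤ := by
    by_contra hne
    obtain ⟨lam0, hl0, hker⟩ := Submodule.exists_le_ker_of_lt_top Γ (lt_top_iff_ne_top.2 hne)
    let gl : ((Fin r → K) →ₗ[K] K) → A K σ := fun μ => ∑ a, μ (Pi.single a 1) • F a
    have hrep : ∀ (μ : (Fin r → K) →ₗ[K] K) (v : Fin r → K),
        μ v = ∑ a, μ (Pi.single a 1) * v a := by
      intro μ v
      conv_lhs => rw [pi_eq_sum_univ' v, map_sum]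
      simp [mul_comm]
    have hall : ∀ m, ∀ μ : (Fin r → K) →ₗ[K] K, Γ ≤ LinearMap.ker μ → gl μ ∈ Ipow K σ m := by
      intro m
      induction m with
      | zero => intro μ _; exact mem_zero _
      | succ m ih =>
        intro μ hμ
        rw [expand_left hQJ h0 (gl μ)]
        have e1 : eps (gl μ) = 0 := by
          have := hμ hc
          rw [LinearMap.mem_ker, hrep] at this
          simpa [gl] using this
        rw [e1, map_zero, zero_add]
        refine Submodule.sum_mem _ fun i _ => ?_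
        rw [add_comm]
        refine Ipow_mul (mem_of_eps (h0 i)) ?_
        have e2 : Tq Q i (gl μ) = gl (μ ∘ₗ Matrix.toLin' (M i)) := by
          simp only [gl, map_sum, map_smul, hM, Finset.smul_sum, smul_smul]
          rw [Finset.sum_comm]
          refine Finset.sum_congr rfl fun b _ => ?_
          rw [← Finset.sum_smul, LinearMap.comp_apply, hrep μ (Matrix.toLin' (M i) _)]
          simp
        rw [e2]
        exact ih _ fun γ hγ => hμ (hcl i γ hγ)
    have hz : gl lam0 = 0 := eq_zero_of_mem fun m => hall m lam0 hker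
    apply hl0
    have hli : LinearIndependent K F := bV.linearIndependent.map' V.subtype V.ker_subtype
    have h1 := Fintype.linearIndependent_iff.1 hli _ hz
    refine LinearMap.ext fun v => ?_
    rw [hrep]
    simp [h1]
  intro γ
  have : γ ∈ Γ := htop ▸ Submodule.mem_top
  exact this

end core

theorem core (ψ : A K σ →ₐ[K] A K σ)
    (h2 : ∀ i, ψ (FreeAlgebra.ι K i) - FreeAlgebra.ι K i ∈ Ipow K σ 2)
    (hS : Spec (Jac ψ))
    (happ : ∀ m, ∃ χ : A K σ →ₐ[K] A K σ, ∀ i,
      χ (ψ (FreeAlgebra.ι K i)) - FreeAlgebra.ι K i ∈ Ipow K σ m) : Function.Bijective ψ := by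
  have h0 : ∀ i, eps (ψ (FreeAlgebra.ι K i)) = 0 := by
    intro i
    have := eps_of_mem (Ipow_anti (show 1 ≤ 2 by norm_num) (h2 i))
    rwa [map_sub, eps_ι, sub_zero] at this
  constructor
  · rw [injective_iff_map_eq_zero]
    intro f hf
    refine eq_zero_of_mem fun m => ?_
    obtain ⟨χ, hχ⟩ := happ m
    have := sub_mem_of_gen (χ.comp ψ) (AlgHom.id K _) hχ f
    rw [AlgHom.comp_apply, hf, map_zero, zero_sub] at this
    exact (neg_mem_iff).1 this
  have hJ0 : (Jac ψ).map eps2 = 1 := by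
    ext i j
    have h3 := (Ipow_dvd (s := (0 : K)) (fun b => Commute.zero_left b) eps2
      (fun i => by rw [eps2, mkU_lam_ι]) (fun i => by rw [eps2, mkU_rho_ι]) (h2 i)).2.2 j
    rw [map_sub, map_sub, der_ι] at h3
    simp only [Nat.add_one_sub_one, pow_one, zero_dvd_iff, sub_eq_zero] at h3
    simp only [Matrix.map_apply, Jac, Matrix.of_apply, h3, Matrix.one_apply]
    split_ifs
    · exact map_one _
    · exact map_zero _
  have hU := isUnit_of_spec _ hJ0 hS
  obtain ⟨Q, hJQ, hQJ⟩ : ∃ Q : Matrix σ σ (U K σ), Jac ψ * Q = 1 ∧ Q * Jac ψ = 1 :=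
    ⟨_, hU.mul_val_inv, hU.val_inv_mul⟩
  obtain ⟨r, F, M, hx, hF, hG⟩ := exists_system hJQ hQJ h0
  choose G hG using hG
  let L : Matrix (Fin r) (Fin r) (A K σ) :=
    1 - Matrix.of fun a b => ∑ i, M i a b • FreeAlgebra.ι K i
  have hL : ∀ (H : Fin r → A K σ) a, (L.map ψ).mulVec H a =
      H a - ∑ i, ψ (FreeAlgebra.ι K i) * ∑ b, M i a b • H b := by
    intro H a
    have e : L.map ψ = 1 - Matrix.of fun a b => ∑ i, M i a b • ψ (FreeAlgebra.ι K i) := by
      ext a b
      simp only [L, Matrix.map_apply, Matrix.sub_apply, Matrix.of_apply, map_sub, map_sum, map_smul,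
        Matrix.one_apply]
      split_ifs <;> simp
    rw [e, Matrix.sub_mulVec, Matrix.one_mulVec, Pi.sub_apply]
    congr 1
    simp only [Matrix.mulVec, dotProduct, Matrix.of_apply, Finset.sum_mul, Finset.mul_sum,
      smul_mul_assoc, mul_smul_comm]
    exact Finset.sum_comm
  let Z : Matrix (Fin r) (Fin r) (A K σ) := Matrix.of fun a c => G (Pi.single c 1) a
  have hLZ : L.map ψ * Z = 1 := by
    ext a c
    have := hL (G (Pi.single c 1)) a
    rw [sub_eq_iff_eq_add.2 (hG (Pi.single c 1) a)] at this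
    refine Eq.trans this ?_
    rw [Matrix.one_apply, Pi.single_apply]
    split_ifs <;> simp
  have hSL : Spec (L.map lam) := by
    intro τ _ _ R _ _ _ π
    let cc : R →ₐ[K] R[X] := IsScalarTower.toAlgHom K R R[X]
    let s : Matrix τ τ R[X] := algebraMap R[X] _ X
    have hs : ∀ b, Commute s b := fun b => Algebra.commute_algebraMap_left _ _
    let πs : U K σ →ₐ[K] Matrix τ τ R[X] :=
      scal ((AlgHom.mapMatrix cc).comp π) s (fun _ => 0) hs (fun _ _ => Commute.zero_left _)
    have hl : ∀ i, πs (lam (FreeAlgebra.ι K i)) =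
        s * AlgHom.mapMatrix cc (π (lam (FreeAlgebra.ι K i))) := by
      intro i
      simp only [πs, scal, mkU_lam_ι, zero_add, sub_zero]; rfl
    have hr : ∀ i, πs (rho (FreeAlgebra.ι K i)) =
        s * AlgHom.mapMatrix cc (π (rho (FreeAlgebra.ι K i))) := by
      intro i
      simp only [πs, scal, mkU_rho_ι, zero_add, sub_zero]; rfl
    set D := (flat πs (L.map lam)).det.natDegree
    obtain ⟨χ, hχ⟩ := happ (D + 1)
    have hunit : IsUnit (flat (πs.comp (mapU χ)) ((L.map ψ).map lam)).det := by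
      have h1 : (L.map ψ).map lam * Z.map lam = (1 : Matrix (Fin r) (Fin r) (U K σ)) := by
        rw [← Matrix.map_mul, hLZ]
        exact Matrix.map_one _ (map_zero _) (map_one _)
      have h3 := congrArg (fun M => (flat (πs.comp (mapU χ)) M).det) h1
      simp only [map_one, map_mul, Matrix.det_one, Matrix.det_mul] at h3
      exact IsUnit.of_mul_eq_one _ h3
    have hcong : ∀ x y, (X : R[X]) ^ (D + 1) ∣ flat πs (L.map lam) x y -
        flat (πs.comp (mapU χ)) ((L.map ψ).map lam) x y := by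
      intro x y
      rw [flat_apply, flat_apply, ← Matrix.sub_apply, AlgHom.comp_apply, Matrix.map_apply,
        Matrix.map_apply, Matrix.map_apply, mapU_lam, ← map_sub, ← map_sub]
      apply mat_dvd
      refine (Ipow_dvd hs πs (fun i => by rw [hl]; exact Dvd.intro _ rfl)
        (fun i => by rw [hr]; exact Dvd.intro _ rfl) ?_).1
      have := sub_mem_of_gen (χ.comp ψ) (AlgHom.id K _) hχ (L x.1 y.1)
      rw [← neg_mem_iff, neg_sub] at this
      exact this
    have hu := unit_of_congr _ _ _ hunit (det_congr _ _ _ hcong) (Nat.lt_succ_self D)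
    let ev1 : R[X] →ₐ[K] R := (Polynomial.aeval (1 : R)).restrictScalars K
    have hπ : (AlgHom.mapMatrix ev1).comp πs = π := by
      have hs1 : (AlgHom.mapMatrix ev1) s = 1 := by
        ext p q
        simp only [s, AlgHom.mapMatrix_apply, Matrix.map_apply, Matrix.algebraMap_matrix_apply,
          Matrix.one_apply]
        split_ifs <;> simp [ev1]
      have hC : ∀ M : Matrix τ τ R, (AlgHom.mapMatrix ev1) (AlgHom.mapMatrix cc M) = M := by
        intro M; ext p q; simp [ev1, cc]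
      refine U_ext (fun i => ?_) (fun i => ?_)
      · rw [AlgHom.comp_apply, hl, map_mul, hs1, hC, one_mul]
      · rw [AlgHom.comp_apply, hr, map_mul, hs1, hC, one_mul]
    rw [← hπ, flat_map]
    exact hu.map ev1
  have hL0 : (L.map lam).map eps2 = 1 := by
    have e : ∀ f : A K σ, eps2 (lam f) = eps f := by
      intro f; rw [eps2, mkU_lam]; rfl
    ext a b
    simp only [L, Matrix.map_apply, e, Matrix.sub_apply, Matrix.of_apply, map_sub, map_sum,
      map_smul, eps_ι, Matrix.one_apply]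
    split_ifs <;> simp
  obtain ⟨Z', hZ'⟩ := (isUnit_of_spec _ hL0 hSL).exists_left_inv
  have hZL : (Z'.map epsR).map ψ * L.map ψ = 1 := by
    have e : (L.map lam).map epsR = L := by
      ext a b; simp only [Matrix.map_apply, epsR_lam]
    have h1 : Z'.map epsR * L = 1 := by
      conv_lhs => rw [← e, ← Matrix.map_mul, hZ']
      exact Matrix.map_one _ (map_zero _) (map_one _)
    rw [← Matrix.map_mul, h1]
    exact Matrix.map_one _ (map_zero _) (map_one _)
  have hFr : ∀ a, F a ∈ ψ.range := by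
    intro a
    have h1 : (L.map ψ).mulVec F = fun a => algebraMap K _ (eps (F a)) := by
      funext a
      rw [hL, sub_eq_iff_eq_add]; exact hF a
    have h3 : F = ((Z'.map epsR).map ψ).mulVec fun a => algebraMap K _ (eps (F a)) := by
      rw [← h1, Matrix.mulVec_mulVec, hZL, Matrix.one_mulVec]
    rw [h3]
    simp only [Matrix.mulVec, dotProduct, Matrix.map_apply]
    exact Subalgebra.sum_mem _ fun b _ => Subalgebra.mul_mem _ ⟨_, rfl⟩ (Subalgebra.algebraMap_mem _ _)
  have hxr : ∀ j, FreeAlgebra.ι K j ∈ ψ.range := by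
    intro j
    have : Submodule.span K (Set.range F) ≤ Subalgebra.toSubmodule ψ.range :=
      Submodule.span_le.2 (by rintro _ ⟨a, rfl⟩; exact hFr a)
    exact this (hx j)
  intro f
  change f ∈ ψ.range
  induction f using FreeAlgebra.induction with
  | grade0 c => exact Subalgebra.algebraMap_mem _ _
  | grade1 i => exact hxr i
  | mul a b ha hb => exact Subalgebra.mul_mem _ ha hb
  | add a b ha hb => exact Subalgebra.add_mem _ ha hb

theorem formB (φ : A K σ →ₐ[K] A K σ)
    (h : ∀ m, ∃ θ : A K σ ≃ₐ[K] A K σ, ∀ i,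
      θ.symm (φ (FreeAlgebra.ι K i)) - FreeAlgebra.ι K i ∈ Ipow K σ m) : Function.Bijective φ := by
  obtain ⟨θ2, h2⟩ := h 2
  have hb : Function.Bijective (θ2.symm.toAlgHom.comp φ) := by
    refine core _ h2 (spec_of_approx _ fun m => ?_) fun m => ?_
    · obtain ⟨θ, hθ⟩ := h m
      exact ⟨θ.trans θ2.symm, fun i => by simpa using hθ i⟩
    · obtain ⟨θ, hθ⟩ := h m
      exact ⟨(θ2.trans θ.symm).toAlgHom, fun i => by simpa using hθ i⟩
  have : (φ : A K σ → A K σ) = θ2 ∘ (θ2.symm.toAlgHom.comp φ) := by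
    funext f; simp
  rw [this]
  exact θ2.bijective.comp hb

theorem formA (φ : A K σ →ₐ[K] A K σ)
    (h : ∀ m, ∃ θ : A K σ ≃ₐ[K] A K σ, ∀ i,
      φ (θ.symm (FreeAlgebra.ι K i)) - FreeAlgebra.ι K i ∈ Ipow K σ m) : Function.Bijective φ := by
  obtain ⟨θ2, h2⟩ := h 2
  have hb : Function.Bijective (φ.comp θ2.symm.toAlgHom) := by
    refine formB _ fun m => ?_
    obtain ⟨θ, hθ⟩ := h (m + 1)
    let α : A K σ ≃ₐ[K] A K σ := θ2.symm.trans θ
    have hall := sub_mem_of_gen (φ.comp θ.symm.toAlgHom) (AlgHom.id K _) hθ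
    have h1 : ∀ i, φ (θ2.symm (FreeAlgebra.ι K i)) - α (FreeAlgebra.ι K i) ∈ Ipow K σ (m + 1) := by
      intro i
      simpa [α] using hall (α (FreeAlgebra.ι K i))
    have h3 : ∀ i, eps (α (FreeAlgebra.ι K i)) = 0 := by
      intro i
      have a1 := eps_of_mem (Ipow_anti (show 1 ≤ m + 1 by omega) (h1 i))
      have a2 := eps_of_mem (Ipow_anti (show 1 ≤ 2 by omega) (h2 i))
      rw [map_sub] at a1 a2
      rw [eps_ι, sub_zero] at a2
      rw [a2, zero_sub, neg_eq_zero] at a1
      exact a1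
    have h4 : eps.comp α.toAlgHom = eps := by
      ext i
      simpa [eps_ι] using h3 i
    have h5 : ∀ i, α.symm.toAlgHom (FreeAlgebra.ι K i) ∈ Ipow K σ 1 := by
      intro i
      apply mem_of_eps
      have := congrArg (fun g => g (α.symm (FreeAlgebra.ι K i))) h4
      simp only [AlgHom.comp_apply] at this
      simpa [eps_ι] using this.symm
    refine ⟨α, fun i => Ipow_anti (Nat.le_succ m) ?_⟩
    have := map_mem_Ipow _ h5 (h1 i)
    simpa using this
  have : (φ : A K σ → A K σ) = (φ.comp θ2.symm.toAlgHom) ∘ θ2 := by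
    funext f; simp
  rw [this]
  exact hb.comp θ2.bijective

end Pool.Agent.H32.FJ
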