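import Mathlib

namespace Pool.Agent.H32.Finger

open Finset

variable {n : ℕ}

theorem closed_walk (w : Fin n → Fin n → ℝ) (h0 : ∀ i, w i i = 0)
    (h : ∀ σ : Equiv.Perm (Fin n), ∑ i, w i (σ i) ≤ 0) (f : ℕ → Fin n) (k : ℕ) (hf : f k = f 0) :
    ∑ s ∈ range k, w (f s) (f (s + 1)) ≤ 0 := by
  rcases Nat.eq_zero_or_pos k with rfl | hk
  · simp
  have hk' : (0 : ℝ) < k := by exact_mod_cast hk
  let M : Matrix (Fin n) (Fin n) ℝ := fun i j => (k : ℝ)⁻¹ * ∑ s ∈ range k,
    ((if i = j then 1 else 0) + (if f s = i then (if f (s + 1) = j then 1 else 0) else 0) -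
      (if f s = i then (if f s = j then 1 else 0) else 0))
  have hM : M ∈ doublyStochastic ℝ (Fin n) := by
    rw [mem_doublyStochastic_iff_sum]
    refine ⟨fun i j => mul_nonneg (by positivity) (sum_nonneg fun s _ => ?_), fun i => ?_,
      fun j => ?_⟩
    · split_ifs <;> simp_all
    · simp only [M]
      rw [← mul_sum, sum_comm]
      simp only [sum_sub_distrib, sum_add_distrib, sum_ite_eq, mem_univ, if_true, sum_ite_irrel,
        sum_const_zero]
      simp [hk'.ne']
    · simp only [M]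
      rw [← mul_sum, sum_comm]
      simp only [sum_sub_distrib, sum_add_distrib, sum_ite_eq, sum_ite_eq', mem_univ, if_true]
      have := Finset.sum_range_sub (fun s => if f s = j then (1 : ℝ) else 0) k
      rw [sum_sub_distrib, hf, sub_self] at this
      rw [add_sub_assoc, this]
      simp [hk'.ne']
  obtain ⟨c, c0, -, hc⟩ := exists_eq_sum_perm_of_mem_doublyStochastic hM
  have e1 : ∑ i, ∑ j, M i j * w i j = ∑ σ, c σ * ∑ i, w i (σ i) := by
    rw [← hc]
    simp only [Matrix.sum_apply, Matrix.smul_apply, smul_eq_mul, sum_mul, mul_sum]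
    rw [sum_comm (s := (univ : Finset (Equiv.Perm (Fin n))))]
    refine sum_congr rfl fun i _ => ?_
    rw [sum_comm]
    refine sum_congr rfl fun σ _ => ?_
    simp [PEquiv.toMatrix_apply, Equiv.toPEquiv_apply]
  have e2 : ∑ i, ∑ j, M i j * w i j = (k : ℝ)⁻¹ * ∑ s ∈ range k, w (f s) (f (s + 1)) := by
    simp only [M, mul_assoc, ← mul_sum, sum_mul]
    congr 1
    rw [sum_congr rfl fun i _ => sum_comm, sum_comm]
    refine sum_congr rfl fun s _ => ?_
    simp [sub_mul, add_mul, sum_sub_distrib, sum_add_distrib, h0]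
  have e3 : ∑ σ, c σ * ∑ i, w i (σ i) ≤ 0 :=
    sum_nonpos fun σ _ => mul_nonpos_of_nonneg_of_nonpos (c0 σ) (h σ)
  rw [← e1, e2] at e3
  exact nonpos_of_mul_nonpos_right e3 (by positivity)

theorem potentials (w : Fin n → Fin n → ℝ) (h0 : ∀ i, w i i = 0)
    (h : ∀ σ : Equiv.Perm (Fin n), ∑ i, w i (σ i) ≤ 0) :
    ∃ t : Fin n → ℝ, ∀ i j, w i j ≤ t j - t i := by
  let A : Fin n → Set ℝ := fun j =>
    {x | ∃ (f : ℕ → Fin n) (k : ℕ), f k = j ∧ x = ∑ s ∈ range k, w (f s) (f (s + 1))}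
  have ext : ∀ (f : ℕ → Fin n) (k : ℕ) (j : Fin n), ∑ s ∈ range (k + 1),
      w ((fun s => if s ≤ k then f s else j) s) ((fun s => if s ≤ k then f s else j) (s + 1)) =
      ∑ s ∈ range k, w (f s) (f (s + 1)) + w (f k) j := by
    intro f k j
    rw [sum_range_succ]
    congr 1
    · refine sum_congr rfl fun s hs => ?_
      have := mem_range.1 hs
      simp only [if_pos (show s ≤ k by omega), if_pos (show s + 1 ≤ k by omega)]
    · simp
  have bd : ∀ j, BddAbove (A j) := by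
    intro j
    refine ⟨∑ i, |w j i|, ?_⟩
    rintro x ⟨f, k, rfl, rfl⟩
    have h1 := closed_walk w h0 h (fun s => if s ≤ k then f s else f 0) (k + 1) (by simp)
    rw [ext] at h1
    have h2 := single_le_sum (f := fun i => |w (f k) i|) (fun i _ => abs_nonneg _) (mem_univ (f 0))
    have h3 := neg_abs_le (w (f k) (f 0))
    linarith
  refine ⟨fun j => sSup (A j), fun i j => ?_⟩
  have : sSup (A i) ≤ sSup (A j) - w i j := by
    refine csSup_le ⟨0, fun _ => i, 0, rfl, by simp⟩ ?_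
    rintro x ⟨f, k, rfl, rfl⟩
    have := le_csSup (bd j) ⟨fun s => if s ≤ k then f s else j, k + 1, by simp, rfl⟩
    rw [ext] at this
    linarith
  linarith

variable {E : Type*} [NormedAddCommGroup E] [InnerProductSpace ℝ E]

theorem norm_step (a z : E) (ha : a ≠ 0) (e : ℝ) :
    ‖a - e • z‖ ≤ ‖a‖ - e * inner ℝ z (‖a‖⁻¹ • a) + e ^ 2 * (‖z‖ ^ 2 / (2 * ‖a‖)) := by
  have hp : 0 < ‖a‖ := norm_pos_iff.2 ha
  have h1 : ‖a - e • z‖ ^ 2 = ‖a‖ ^ 2 - 2 * (e * inner ℝ z a) + e ^ 2 * ‖z‖ ^ 2 := by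
    rw [norm_sub_sq_real, inner_smul_right, norm_smul, mul_pow, Real.norm_eq_abs, sq_abs,
      real_inner_comm]
  rw [inner_smul_right]
  refine le_of_mul_le_mul_left ?_ (show 0 < 2 * ‖a‖ by positivity)
  have h2 : 2 * ‖a‖ * (‖a‖ - e * (‖a‖⁻¹ * inner ℝ z a) + e ^ 2 * (‖z‖ ^ 2 / (2 * ‖a‖))) =
      ‖a‖ ^ 2 + ‖a - e • z‖ ^ 2 := by
    rw [h1]; field_simp; ring
  rw [h2]
  nlinarith [sq_nonneg (‖a‖ - ‖a - e • z‖)]

theorem inner_pos_of (a b : E) (h : √2 * ‖a - b‖ < ‖a‖ + ‖b‖) : 0 < inner ℝ a b := by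
  have h1 := norm_sub_sq_real a b
  have h2 : (√2 * ‖a - b‖) ^ 2 < (‖a‖ + ‖b‖) ^ 2 :=
    pow_lt_pow_left₀ h (by positivity) two_ne_zero
  rw [mul_pow, Real.sq_sqrt (by norm_num)] at h2
  nlinarith [sq_nonneg (‖a‖ - ‖b‖)]

open Pointwise in
theorem exists_dir [CompleteSpace E] (S T : Set E) (hS : S.Finite) (hT : T.Finite)
    (h : ∀ u ∈ S, ∀ v ∈ T, 0 < inner ℝ u v) :
    ∃ z : E, ∀ u ∈ S, ∀ v ∈ T, 0 < inner ℝ z u + inner ℝ z v := by
  have h0 : (0 : E) ∉ convexHull ℝ (S + T) := by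
    rw [convexHull_add]
    rintro ⟨U, hU, V, hV, e⟩
    have h1 : ∀ v ∈ T, 0 < inner ℝ U v := by
      intro v hv
      have : convexHull ℝ S ⊆ {x | 0 < innerSL ℝ v x} :=
        convexHull_min (fun u hu => by simpa [real_inner_comm] using h u hu v hv)
          (convex_halfSpace_gt (innerSL ℝ v).isLinear 0)
      simpa [real_inner_comm] using this hU
    have h2 : convexHull ℝ T ⊆ {x | 0 < innerSL ℝ U x} :=
      convexHull_min (fun v hv => by simpa using h1 v hv)
        (convex_halfSpace_gt (innerSL ℝ U).isLinear 0)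
    have h3 : 0 < inner ℝ U V := by simpa using h2 hV
    have e' : V = -U := (neg_eq_of_add_eq_zero_right e).symm
    rw [e', inner_neg_right] at h3
    have := real_inner_self_nonneg (x := U)
    linarith
  obtain ⟨f, c, h1, h2⟩ := geometric_hahn_banach_point_closed (convex_convexHull ℝ _)
    ((hS.add hT).isClosed_convexHull ℝ) h0
  refine ⟨(InnerProductSpace.toDual ℝ E).symm f, fun u hu v hv => ?_⟩
  have := h2 (u + v) (subset_convexHull ℝ _ ⟨u, hu, v, hv, rfl⟩)
  rw [map_zero] at h1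
  rw [map_add] at this
  simp only [InnerProductSpace.toDual_symm_apply]
  linarith

open Filter Topology in
theorem balls [FiniteDimensional ℝ E] [NeZero n] (r b : Fin n → E) (p q : Fin n → ℝ)
    (h : ∀ i j, √2 * ‖r i - b j‖ ≤ p i + q j) :
    ∃ o : E, ∀ i j, ‖r i - o‖ + ‖b j - o‖ ≤ p i + q j := by
  haveI := FiniteDimensional.complete ℝ E
  haveI := FiniteDimensional.proper_real E
  let φ : Fin n × Fin n → E → ℝ := fun e o => ‖r e.1 - o‖ + ‖b e.2 - o‖ - (p e.1 + q e.2)
  have cφ : ∀ e, Continuous (φ e) := fun e => by fun_prop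
  let F : E → ℝ := fun o => univ.sup' univ_nonempty fun e => φ e o
  have cF : Continuous F := Continuous.finset_sup'_apply univ_nonempty fun e _ => cφ e
  have le : ∀ e o, φ e o ≤ F o := fun e o => le_sup' (fun e => φ e o) (mem_univ e)
  have lim : Tendsto F (cocompact E) atTop := by
    refine tendsto_atTop_mono (f := fun o => ‖o‖ + -(‖r 0‖ + (p 0 + q 0))) (fun o => ?_)
      (tendsto_atTop_add_const_right _ _ tendsto_norm_cocompact_atTop)
    have h1 := le (0, 0) o
    have h2 := norm_sub_norm_le o (r 0)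
    rw [norm_sub_rev] at h2
    have h3 := norm_nonneg (b 0 - o)
    simp only [φ] at h1
    linarith
  obtain ⟨o, ho⟩ := cF.exists_forall_le lim
  refine ⟨o, fun i j => ?_⟩
  by_contra hn
  have pos : 0 < F o := lt_of_lt_of_le (by simp only [φ]; linarith [not_le.1 hn]) (le (i, j) o)
  have tight : ∀ e, φ e o = F o → 0 < inner ℝ (r e.1 - o) (b e.2 - o) := by
    intro e he
    apply inner_pos_of
    rw [sub_sub_sub_cancel_right]
    have := h e.1 e.2
    simp only [φ] at he
    linarith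
  obtain ⟨z, hz⟩ := exists_dir ((fun e : Fin n × Fin n => ‖r e.1 - o‖⁻¹ • (r e.1 - o)) ''
      {e | φ e o = F o}) ((fun e : Fin n × Fin n => ‖b e.2 - o‖⁻¹ • (b e.2 - o)) ''
      {e | φ e o = F o}) (Set.toFinite _) (Set.toFinite _) (by
    rintro _ ⟨e, he, rfl⟩ _ ⟨e', he', rfl⟩
    have k : φ (e.1, e'.2) o = F o := by
      have k1 := le (e.1, e'.2) o
      have k2 := le (e'.1, e.2) o
      simp only [φ, Set.mem_ofPred_eq] at he he' k1 k2 ⊢
      linarith
    have k1 := tight _ k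
    have n1 : r e.1 - o ≠ 0 := fun q => by simp [q] at k1
    have n2 : b e'.2 - o ≠ 0 := fun q => by simp [q] at k1
    simp only [inner_smul_left, inner_smul_right, conj_trivial]
    have := norm_pos_iff.2 n1
    have := norm_pos_iff.2 n2
    positivity)
  have ev : ∀ e, ∀ᶠ s : ℝ in 𝓝[>] 0, φ e (o + s • z) < F o := by
    intro e
    by_cases he : φ e o = F o
    · have k1 := tight _ he
      have n1 : r e.1 - o ≠ 0 := fun q => by simp [q] at k1
      have n2 : b e.2 - o ≠ 0 := fun q => by simp [q] at k1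
      have k2 := hz _ ⟨e, he, rfl⟩ _ ⟨e, he, rfl⟩
      set C := ‖z‖ ^ 2 / (2 * ‖r e.1 - o‖) + ‖z‖ ^ 2 / (2 * ‖b e.2 - o‖) with hC
      have t1 : Tendsto (fun s : ℝ => s * C) (𝓝[>] 0) (𝓝 (0 * C)) :=
        (tendsto_nhdsWithin_of_tendsto_nhds tendsto_id).mul_const C
      rw [zero_mul] at t1
      filter_upwards [t1.eventually (gt_mem_nhds k2), self_mem_nhdsWithin] with s s1 s2
      have s2' : (0 : ℝ) < s := s2
      have a1 := norm_step _ z n1 s
      have a2 := norm_step _ z n2 s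
      have a3 := mul_lt_mul_of_pos_left s1 s2'
      rw [← he]
      simp only [φ, ← sub_sub]
      rw [hC] at a3
      nlinarith
    · have k : φ e o < F o := lt_of_le_of_ne (le e o) he
      have t1 : Tendsto (fun s : ℝ => φ e (o + s • z)) (𝓝[>] 0) (𝓝 (φ e (o + (0 : ℝ) • z))) :=
        tendsto_nhdsWithin_of_tendsto_nhds
          (((cφ e).comp (by fun_prop : Continuous fun s : ℝ => o + s • z)).tendsto 0)
      rw [zero_smul, add_zero] at t1
      exact t1.eventually (gt_mem_nhds k)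
  obtain ⟨s, hs⟩ := (eventually_all.2 ev).exists
  exact absurd (ho (o + s • z)) (not_le.2 ((sup'_lt_iff _).2 fun e _ => hs e))

end Pool.Agent.H32.Finger
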