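import Mathlib

/-! Fixed points of the generating function of a branching process with countably many types:
the analytic part. -/

namespace Pool.Agent.H32.GW

open Set Filter Topology MeasureTheory
open scoped ENNReal

variable {X : Type}

/-- `pw s f` is the product over the types `y` of `s y ^ f y`. -/
noncomputable def pw (s : X → ℝ≥0∞) (f : X →₀ ℕ) : ℝ≥0∞ := f.prod fun y k => s y ^ k

/-- The generating function of the offspring laws `μ`. -/
noncomputable def G (μ : X → PMF (X →₀ ℕ)) (s : X → ℝ≥0∞) (x : X) : ℝ≥0∞ :=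
  ∑' f, μ x f * pw s f

theorem pw_zero (s : X → ℝ≥0∞) : pw s 0 = 1 := Finsupp.prod_zero_index

theorem pw_add (s : X → ℝ≥0∞) (f g : X →₀ ℕ) : pw s (f + g) = pw s f * pw s g :=
  Finsupp.prod_add_index' (fun _ => pow_zero _) fun _ _ _ => pow_add _ _ _

theorem pw_single (s : X → ℝ≥0∞) (y : X) (k : ℕ) : pw s (Finsupp.single y k) = s y ^ k :=
  Finsupp.prod_single_index (pow_zero _)

theorem pw_sum {ι : Type} (s : X → ℝ≥0∞) (t : Finset ι) (f : ι → X →₀ ℕ) :
    pw s (∑ i ∈ t, f i) = ∏ i ∈ t, pw s (f i) := by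
  classical
  induction t using Finset.induction_on with
  | empty => simp [pw_zero]
  | insert a t h ih => rw [Finset.sum_insert h, Finset.prod_insert h, pw_add, ih]

theorem pw_mono {s r : X → ℝ≥0∞} (h : s ≤ r) (f : X →₀ ℕ) : pw s f ≤ pw r f :=
  Finset.prod_le_prod' fun y _ => pow_le_pow_left' (h y) _

theorem pw_le_one {s : X → ℝ≥0∞} (h : s ≤ 1) (f : X →₀ ℕ) : pw s f ≤ 1 :=
  Finset.prod_le_one' fun y _ => pow_le_one' (h y) _

theorem pw_congr {s r : X → ℝ≥0∞} {f : X →₀ ℕ} (h : ∀ y, f y ≠ 0 → s y = r y) :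
    pw s f = pw r f :=
  Finsupp.prod_congr fun y hy => by rw [h y (Finsupp.mem_support_iff.1 hy)]

theorem G_mono (μ : X → PMF (X →₀ ℕ)) : Monotone (G μ) := fun _ _ h _ =>
  ENNReal.tsum_le_tsum fun f => mul_le_mul_right (pw_mono h f) _

theorem core {κ l a b A B : ℝ≥0∞} (h : κ + l = 1) (h1 : a ≤ b) (h2 : A ≤ B) :
    (κ * a + l * b) * (κ * A + l * B) ≤ κ * (a * A) + l * (b * B) := by
  obtain ⟨d, rfl⟩ := exists_add_of_le h1
  obtain ⟨D, rfl⟩ := exists_add_of_le h2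
  have e : ∀ u v : ℝ≥0∞, κ * u + l * (u + v) = u + l * v := fun u v => by
    rw [mul_add, ← add_assoc, ← add_mul, h, one_mul]
  have hl : l ≤ 1 := h ▸ le_add_self
  rw [e, e, show (a + d) * (A + D) = a * A + (a * D + d * A + d * D) by ring, e]
  calc _ = a * A + l * (a * D + d * A + l * (d * D)) := by ring
    _ ≤ _ := add_le_add le_rfl (mul_le_mul_right (add_le_add le_rfl (mul_le_of_le_one_left' hl)) _)

theorem pw_convex {κ l : ℝ≥0∞} (h : κ + l = 1) {s r : X → ℝ≥0∞} (hs : s ≤ r) (f : X →₀ ℕ) :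
    pw (fun y => κ * s y + l * r y) f ≤ κ * pw s f + l * pw r f := by
  induction f using Finsupp.induction_linear with
  | zero => simp [pw_zero, h]
  | add f g h1 h2 =>
    simp only [pw_add]
    exact (mul_le_mul' h1 h2).trans (core h (pw_mono hs _) (pw_mono hs _))
  | single y k =>
    simp only [pw_single]
    induction k with
    | zero => simp [h]
    | succ k ih =>
      simp only [pow_succ]
      exact (mul_le_mul' ih le_rfl).trans (core h (pow_le_pow_left' (hs y) _) (hs y))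

theorem G_convex (μ : X → PMF (X →₀ ℕ)) {κ l : ℝ≥0∞} (h : κ + l = 1) {s r : X → ℝ≥0∞}
    (hs : s ≤ r) (x : X) : G μ (fun y => κ * s y + l * r y) x ≤ κ * G μ s x + l * G μ r x := by
  simp only [G, ← ENNReal.tsum_mul_left, ← ENNReal.tsum_add]
  refine ENNReal.tsum_le_tsum fun f => (mul_le_mul_right (pw_convex h hs f) _).trans_eq ?_
  ring

theorem pw_tendsto {α : Type} {l : Filter α} {u : α → X → ℝ≥0∞} {s : X → ℝ≥0∞} (hs : s ≤ 1)
    (h : ∀ y, Tendsto (fun a => u a y) l (𝓝 (s y))) (f : X →₀ ℕ) :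
    Tendsto (fun a => pw (u a) f) l (𝓝 (pw s f)) :=
  ENNReal.tendsto_finsetProd_of_ne_top _ (fun y _ => ENNReal.Tendsto.pow (h y))
    fun y _ => ne_top_of_le_ne_top ENNReal.one_ne_top (pow_le_one' (hs y) _)

variable [Countable X]

theorem G_eq (μ : X → PMF (X →₀ ℕ)) (s : X → ℝ≥0∞) (x : X) :
    G μ s x = ∫⁻ f, pw s f ∂(@PMF.toMeasure _ ⊤ (μ x)) := by
  letI : MeasurableSpace (X →₀ ℕ) := ⊤
  haveI : MeasurableSingletonClass (X →₀ ℕ) := ⟨fun _ => trivial⟩
  rw [lintegral_countable', G]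
  refine tsum_congr fun f => ?_
  rw [PMF.toMeasure_apply_singleton _ _ (measurableSet_singleton f), mul_comm]

theorem G_cont (μ : X → PMF (X →₀ ℕ)) (x : X) : ContinuousOn (fun s => G μ s x) (Iic 1) := by
  letI : MeasurableSpace (X →₀ ℕ) := ⊤
  intro s hs
  simp only [G_eq]
  refine tendsto_lintegral_filter_of_dominated_convergence (fun _ => 1)
    (Eventually.of_forall fun _ => measurable_from_top) ?_ (by simp)
    (Eventually.of_forall fun f => pw_tendsto hs (fun y => ?_) f)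
  · filter_upwards [self_mem_nhdsWithin] with u hu using Eventually.of_forall (pw_le_one hu)
  · exact ((continuous_apply y).tendsto s).mono_left nhdsWithin_le_nhds

theorem local_fix (μ : X → PMF (X →₀ ℕ)) {q r : X → ℝ≥0∞} (hr1 : r ≤ 1) (hGr : G μ r = r)
    (hGq : G μ q ≤ q) (A : Finset X)
    (hsup : ∀ m ≤ r, G μ m ≤ m → (∀ y ∉ A, m y = r y) → r ≤ m) {x0 : X} {a : ℝ≥0∞}
    (h1 : q x0 < a) (h2 : a < r x0) : ∃ s ≤ r, (∀ y ∈ A, G μ s y = s y) ∧ s x0 = a := by
  classical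
  let T : ℝ≥0∞ → (X → ℝ≥0∞) →o (X → ℝ≥0∞) := fun t =>
    ⟨fun s y => if y ∈ A then G μ s y else t * r y, fun s s' h y => by
      dsimp only
      split_ifs
      · exact G_mono μ h y
      · exact le_rfl⟩
  let K : Set (ℝ≥0∞ × (X → ℝ≥0∞)) := (Iic 1 ×ˢ Iic r) ∩ ((⋂ y ∈ A, {p | G μ p.2 y = p.2 y}) ∩
    ((⋂ y ∉ A, {p | p.1 * r y = p.2 y}) ∩ {p | p.2 x0 ≤ a}))
  have hK : ∀ t ≤ 1, ∀ w, T t w ≤ w → w x0 ≤ a → (t, (T t).lfp) ∈ K := by
    intro t ht w hw hw'
    have e := (T t).map_lfp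
    refine ⟨⟨ht, (T t).lfp_le fun y => ?_⟩, mem_iInter₂.2 fun y hy => ?_,
      mem_iInter₂.2 fun y hy => ?_, ((T t).lfp_le hw x0).trans hw'⟩
    · change (if y ∈ A then G μ r y else t * r y) ≤ r y
      split_ifs
      · rw [hGr]
      · exact mul_le_of_le_one_left' ht
    · exact (if_pos hy).symm.trans (congrFun e y)
    · exact (if_neg hy).symm.trans (congrFun e y)
  have hc : IsClosed K := by
    rw [show K = (⋂ y ∈ A, {p ∈ Iic 1 ×ˢ Iic r | G μ p.2 y = p.2 y}) ∩ ((Iic 1 ×ˢ Iic r) ∩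
      ((⋂ y ∉ A, {p | p.1 * r y = p.2 y}) ∩ {p | p.2 x0 ≤ a})) by
        ext p
        simp only [K, mem_inter_iff, mem_iInter, mem_ofPred_eq]
        exact ⟨fun h => ⟨fun i hi => ⟨h.1, h.2.1 i hi⟩, h.1, h.2.2⟩,
          fun h => ⟨h.2.1, fun i hi => (h.1 i hi).2, h.2.2⟩⟩]
    have h0 : IsClosed (Iic (1 : ℝ≥0∞) ×ˢ Iic r) := isClosed_Iic.prod isClosed_Iic
    refine (isClosed_biInter fun y _ => h0.isClosed_eq ?_ (by fun_prop)).inter (h0.inter
      ((isClosed_biInter fun y _ => isClosed_eq ?_ (by fun_prop)).inter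
        (isClosed_le (by fun_prop) continuous_const)))
    · exact (G_cont μ y).comp continuousOn_snd fun p hp => le_trans hp.2 hr1
    · exact (ENNReal.continuous_mul_const (ne_top_of_le_ne_top ENNReal.one_ne_top (hr1 y))).comp
        continuous_fst
  obtain ⟨⟨t, s⟩, ⟨⟨ht, hs⟩, k1, k2, k3⟩, hmax⟩ := hc.isCompact.exists_isMaxOn
    ⟨_, hK 0 zero_le_one q (fun y => by
      change (if y ∈ A then G μ q y else 0 * r y) ≤ q y
      split_ifs
      · exact hGq y
      · simp) h1.le⟩ continuousOn_fst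
  have k1' : ∀ y ∈ A, G μ s y = s y := mem_iInter₂.1 k1
  have k2' : ∀ y ∉ A, t * r y = s y := mem_iInter₂.1 k2
  refine ⟨s, hs, k1', le_antisymm k3 (not_lt.1 fun h3 => ?_)⟩
  have ht1 : t < 1 := by
    refine lt_of_le_of_ne ht fun h => ?_
    simp only [h, one_mul] at k2'
    refine absurd (hsup s hs (fun y => ?_) (fun y hy => (k2' y hy).symm) x0) (not_le.2 (h3.trans h2))
    by_cases hy : y ∈ A
    · exact (k1' y hy).le
    · rw [← k2' y hy]
      exact (G_mono μ hs y).trans_eq (congrFun hGr y)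
  obtain ⟨l, hl⟩ := exists_add_of_le h3.le
  have hl0 : l ≠ 0 := fun h => h3.ne (by rw [hl, h, add_zero])
  have hl1 : l ≤ 1 := le_add_self.trans (hl.ge.trans (h2.le.trans (hr1 x0)))
  obtain ⟨κ, hκ⟩ := exists_add_of_le hl1
  have hκ' : κ + l = 1 := by rw [hκ, add_comm]
  have hκ1 : κ ≤ 1 := hκ' ▸ le_self_add
  have := hmax (hK (κ * t + l) (by
      rw [← hκ']
      exact add_le_add_left (mul_le_of_le_one_right' ht) _) (fun y => κ * s y + l * r y)
    (fun y => by
      change (if y ∈ A then G μ _ y else (κ * t + l) * r y) ≤ κ * s y + l * r y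
      split_ifs with hy
      · exact (G_convex μ hκ' hs y).trans_eq (by rw [k1' y hy, hGr])
      · rw [← k2' y hy, add_mul, mul_assoc]) (by
      rw [hl]
      exact add_le_add (mul_le_of_le_one_left' hκ1) (mul_le_of_le_one_right' (hr1 x0))))
  refine absurd (show κ * t + l ≤ t from this) (not_le.2 ?_)
  calc t = κ * t + l * t := by rw [← add_mul, hκ', one_mul]
    _ < κ * t + l * 1 := ENNReal.add_lt_add_left (ne_top_of_le_ne_top ENNReal.one_ne_top
        ((mul_le_of_le_one_right' ht).trans hκ1)) (ENNReal.mul_lt_mul_right hl0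
          (ne_top_of_le_ne_top ENNReal.one_ne_top hl1) ht1)
    _ = _ := by rw [mul_one]

theorem global_fix (μ : X → PMF (X →₀ ℕ)) {q r : X → ℝ≥0∞} (hr1 : r ≤ 1) (hGr : G μ r = r)
    (hGq : G μ q ≤ q)
    (hsup : ∀ A : Finset X, ∀ m ≤ r, G μ m ≤ m → (∀ y ∉ A, m y = r y) → r ≤ m) {x0 : X}
    {a : ℝ≥0∞} (h1 : q x0 < a) (h2 : a < r x0) : ∃ s ≤ r, G μ s = s ∧ s x0 = a := by
  classical
  let K : Finset X → Set (X → ℝ≥0∞) := fun A =>
    (⋂ y ∈ A, {s ∈ Iic r | G μ s y = s y}) ∩ (Iic r ∩ {s | s x0 = a})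
  have hc : ∀ A, IsClosed (K A) := fun A =>
    (isClosed_biInter fun y _ => isClosed_Iic.isClosed_eq
      ((G_cont μ y).mono fun p hp => le_trans hp hr1) (by fun_prop)).inter
      (isClosed_Iic.inter (isClosed_eq (by fun_prop) continuous_const))
  have hm : ∀ A B, A ⊆ B → K B ⊆ K A := fun A B h =>
    inter_subset_inter_left _ (biInter_subset_biInter_left h)
  obtain ⟨s, hs⟩ := IsCompact.nonempty_iInter_of_directed_nonempty_isCompact_isClosed K
    (fun A B => ⟨A ∪ B, hm _ _ Finset.subset_union_left, hm _ _ Finset.subset_union_right⟩)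
    (fun A => by
      obtain ⟨s, h3, h4, h5⟩ := local_fix μ hr1 hGr hGq A (hsup A) h1 h2
      exact ⟨s, mem_iInter₂.2 fun y hy => ⟨h3, h4 y hy⟩, h3, h5⟩)
    (fun A => (hc A).isCompact) hc
  have h3 := mem_iInter.1 hs
  exact ⟨s, (h3 ∅).2.1, funext fun y => (mem_iInter₂.1 (h3 {y}).1 y (by simp)).2, (h3 ∅).2.2⟩

open Cardinal in
theorem card_eq {S : Set (X → ℝ≥0∞)} (h1 : ∀ s ∈ S, s ≤ 1) {x0 : X} {u v : ℝ≥0∞} (huv : u < v)
    (hv : v ≤ 1) (h : ∀ a, u < a → a < v → ∃ s ∈ S, s x0 = a) : #S = 𝔠 := by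
  have hv' : v ≠ ⊤ := ne_top_of_le_ne_top ENNReal.one_ne_top hv
  apply le_antisymm
  · have : #S ≤ #(X → ℝ) := mk_le_of_injective (f := fun s y => (s.1 y).toReal) fun s t h =>
      Subtype.ext (funext fun y => (ENNReal.toReal_eq_toReal_iff'
        (ne_top_of_le_ne_top ENNReal.one_ne_top (h1 _ s.2 y))
        (ne_top_of_le_ne_top ENNReal.one_ne_top (h1 _ t.2 y))).1 (congrFun h y))
    refine this.trans ?_
    rw [mk_arrow, mk_real, lift_continuum, lift_id]
    exact (power_le_power_left continuum_ne_zero (mk_le_aleph0 (α := X))).trans_eq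
      continuum_power_aleph0
  · have h2 : ∀ a : Ioo u.toReal v.toReal, ∃ s : S, s.1 x0 = ENNReal.ofReal a := fun a => by
      obtain ⟨s, h3, h4⟩ := h (ENNReal.ofReal a)
        ((ENNReal.lt_ofReal_iff_toReal_lt huv.ne_top).2 a.2.1)
        ((ENNReal.ofReal_lt_iff_lt_toReal (ENNReal.toReal_nonneg.trans a.2.1.le) hv').2 a.2.2)
      exact ⟨⟨s, h3⟩, h4⟩
    choose f hf using h2
    rw [← mk_Ioo_real ((ENNReal.toReal_lt_toReal huv.ne_top hv').2 huv)]
    refine mk_le_of_injective (f := f) fun a b hab => Subtype.ext ?_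
    have := hf a
    rw [hab, hf b] at this
    exact ((ENNReal.ofReal_eq_ofReal_iff (ENNReal.toReal_nonneg.trans b.2.1.le)
      (ENNReal.toReal_nonneg.trans a.2.1.le)).1 this).symm

end Pool.Agent.H32.GW
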