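import Pool.Agent.H32.GWa

/-! Fixed points of the generating function of a branching process with countably many types:
the probabilistic part. -/

namespace Pool.Agent.H32.GW

open Set Filter Topology MeasureTheory ProbabilityTheory
open scoped ENNReal

variable {X Ω : Type}

/-- `ξ (n, y, i)` is the offspring of the `i`-th individual of type `y` in generation `n`:
these variables are independent and `ξ (n, y, i)` has law `μ y`. -/
structure IsGW [MeasurableSpace Ω] (P : Measure Ω) (μ : X → PMF (X →₀ ℕ))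
    (ξ : ℕ × X × ℕ → Ω → X →₀ ℕ) : Prop where
  meas : ∀ j, @Measurable _ _ _ ⊤ (ξ j)
  indep : @iIndepFun _ _ _ _ (fun _ => ⊤) ξ P
  law : ∀ n y i f, P {ω | ξ (n, y, i) ω = f} = μ y f

/-- The population in generation `n` started from one individual of type `x`. -/
noncomputable def Z (ξ : ℕ × X × ℕ → Ω → X →₀ ℕ) (x : X) : ℕ → Ω → X →₀ ℕ
  | 0 => fun _ => Finsupp.single x 1
  | n + 1 => fun ω => (Z ξ x n ω).sum fun y k => ∑ i ∈ Finset.range k, ξ (n, y, i) ω

/-- Probability of global extinction. -/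
noncomputable def qGlob [MeasurableSpace Ω] (P : Measure Ω) (ξ : ℕ × X × ℕ → Ω → X →₀ ℕ) (x : X) :
    ℝ≥0∞ := P {ω | ∃ n, Z ξ x n ω = 0}

/-- Probability of extinction in each type: every type is present in only finitely many
generations. -/
noncomputable def qPart [MeasurableSpace Ω] (P : Measure Ω) (ξ : ℕ × X × ℕ → Ω → X →₀ ℕ) (x : X) :
    ℝ≥0∞ := P {ω | ∀ y, {n | Z ξ x n ω y ≠ 0}.Finite}

def sig (ξ : ℕ × X × ℕ → Ω → X →₀ ℕ) (S : Set (ℕ × X × ℕ)) : MeasurableSpace Ω :=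
  ⨆ j ∈ S, MeasurableSpace.comap (ξ j) ⊤

abbrev F (ξ : ℕ × X × ℕ → Ω → X →₀ ℕ) (n : ℕ) : MeasurableSpace Ω := sig ξ {j | j.1 < n}

noncomputable def step (ξ : ℕ × X × ℕ → Ω → X →₀ ℕ) (n : ℕ) (w : X →₀ ℕ) (ω : Ω) : X →₀ ℕ :=
  w.sum fun y k => ∑ i ∈ Finset.range k, ξ (n, y, i) ω

variable {ξ : ℕ × X × ℕ → Ω → X →₀ ℕ}

theorem F_mono {n k : ℕ} (h : n ≤ k) : F ξ n ≤ F ξ k :=
  biSup_mono fun _ hj => lt_of_lt_of_le hj h

theorem meas_xi {S : Set (ℕ × X × ℕ)} {j : ℕ × X × ℕ} (h : j ∈ S) :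
    @Measurable _ _ (sig ξ S) ⊤ (ξ j) :=
  Measurable.of_comap_le (le_biSup (fun j => MeasurableSpace.comap (ξ j) ⊤) h)

variable [Countable X]

theorem meas_step {S : Set (ℕ × X × ℕ)} {n : ℕ} (h : ∀ y i, (n, y, i) ∈ S) (w : X →₀ ℕ) :
    @Measurable _ _ (sig ξ S) ⊤ (step ξ n w) := by
  letI : MeasurableSpace (X →₀ ℕ) := ⊤
  haveI : MeasurableSingletonClass (X →₀ ℕ) := ⟨fun _ => trivial⟩
  letI := sig ξ S
  exact Finset.measurable_sum _ fun y _ => Finset.measurable_sum _ fun i _ => meas_xi (h y i)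

theorem meas_Z (x : X) (n : ℕ) : @Measurable _ _ (F ξ n) ⊤ (Z ξ x n) := by
  letI : MeasurableSpace (X →₀ ℕ) := ⊤
  haveI : MeasurableSingletonClass (X →₀ ℕ) := ⟨fun _ => trivial⟩
  induction n with
  | zero => exact measurable_const
  | succ n ih =>
    letI := F ξ (n + 1)
    have h1 : Measurable fun p : Ω × (X →₀ ℕ) => step ξ n p.2 p.1 :=
      measurable_from_prod_countable_left fun w => meas_step (fun _ _ => Nat.lt_succ_self n) w
    exact h1.comp (measurable_id.prodMk (ih.mono (F_mono n.le_succ) le_rfl))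

theorem set_Z (x : X) (n : ℕ) (p : (X →₀ ℕ) → Prop) : MeasurableSet[F ξ n] {ω | p (Z ξ x n ω)} :=
  meas_Z x n (show MeasurableSet[⊤] {w | p w} from trivial)

variable [MeasurableSpace Ω] {P : Measure Ω} {μ : X → PMF (X →₀ ℕ)}

omit [Countable X] in
theorem IsGW.le (h : IsGW P μ ξ) (S : Set (ℕ × X × ℕ)) : sig ξ S ≤ ‹MeasurableSpace Ω› :=
  iSup₂_le fun j _ => (h.meas j).comap_le

theorem IsGW.set_Z (h : IsGW P μ ξ) (x : X) (n : ℕ) (p : (X →₀ ℕ) → Prop) :
    MeasurableSet {ω | p (Z ξ x n ω)} := h.le _ _ (GW.set_Z x n p)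

theorem IsGW.meas_pw (h : IsGW P μ ξ) (x : X) (n : ℕ) (s : X → ℝ≥0∞) :
    Measurable fun ω => pw s (Z ξ x n ω) :=
  (@measurable_from_top _ _ _ (pw s)).comp ((meas_Z x n).mono (h.le _) le_rfl)

theorem IsGW.one (h : IsGW P μ ξ) (s : X → ℝ≥0∞) (n : ℕ) (y : X) (i : ℕ) :
    ∫⁻ ω, pw s (ξ (n, y, i) ω) ∂P = G μ s y := by
  letI : MeasurableSpace (X →₀ ℕ) := ⊤
  haveI : MeasurableSingletonClass (X →₀ ℕ) := ⟨fun _ => trivial⟩
  rw [← lintegral_map measurable_from_top (h.meas _), lintegral_countable', G]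
  refine tsum_congr fun f => ?_
  rw [Measure.map_apply (h.meas _) (measurableSet_singleton f), mul_comm, ← h.law n y i f]
  rfl

theorem IsGW.step (h : IsGW P μ ξ) (s : X → ℝ≥0∞) (n : ℕ) (w : X →₀ ℕ) :
    ∫⁻ ω, pw s (step ξ n w ω) ∂P = pw (G μ s) w := by
  classical
  letI : MeasurableSpace (X →₀ ℕ) := ⊤
  let t : Finset (ℕ × X × ℕ) := (w.support.sigma fun y => Finset.range (w y)).map
    ⟨fun p => (n, p.1, p.2), fun ⟨a, b⟩ ⟨c, d⟩ h => by
      obtain ⟨rfl, rfl⟩ := Prod.mk.inj (Prod.mk.inj h).2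
      rfl⟩
  have h1 := lintegral_prod_eq_prod_lintegral_of_indepFun t (fun j ω => pw s (ξ j ω))
    (h.indep.comp (fun _ => pw s) fun _ => measurable_from_top)
    fun j => (@measurable_from_top _ _ _ (pw s)).comp (h.meas j)
  simp only [t, Finset.prod_map, Finset.prod_sigma, Function.Embedding.coeFn_mk, h.one,
    Finset.prod_const, Finset.card_range] at h1
  simp only [GW.step, Finsupp.sum, pw_sum]
  exact h1

theorem IsGW.succ (h : IsGW P μ ξ) (s : X → ℝ≥0∞) (x : X) (n : ℕ) {C : Set Ω}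
    (hC : MeasurableSet[F ξ n] C) :
    ∫⁻ ω in C, pw s (Z ξ x (n + 1) ω) ∂P = ∫⁻ ω in C, pw (G μ s) (Z ξ x n ω) ∂P := by
  have e : C = ⋃ w, C ∩ {ω | Z ξ x n ω = w} := by
    ext ω
    simp
  have hm : ∀ w, MeasurableSet[F ξ n] (C ∩ {ω | Z ξ x n ω = w}) := fun w =>
    hC.inter (GW.set_Z x n (· = w))
  have hd : Pairwise (Function.onFun Disjoint fun w => C ∩ {ω | Z ξ x n ω = w}) :=
    fun w w' hw => disjoint_left.2 fun ω h1 h2 => hw (h1.2.symm.trans h2.2)
  rw [e, lintegral_iUnion (fun w => h.le _ _ (hm w)) hd,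
    lintegral_iUnion (fun w => h.le _ _ (hm w)) hd]
  refine tsum_congr fun w => ?_
  have hm' := h.le _ _ (hm w)
  have key := lintegral_mul_eq_lintegral_mul_lintegral_of_independent_measurableSpace
    (f := (C ∩ {ω | Z ξ x n ω = w}).indicator 1) (g := fun ω => pw s (GW.step ξ n w ω))
    (h.le {j | j.1 < n}) (h.le {j | j.1 = n}) (indep_iSup_of_disjoint
      (fun j => (h.meas j).comap_le) ((iIndepFun_iff_iIndep _ _ _).1 h.indep)
      (disjoint_left.2 fun j (h1 : j.1 < n) h2 => h1.ne h2))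
    (Measurable.indicator measurable_const (hm w))
    ((@measurable_from_top _ _ _ (pw s)).comp (meas_step (fun _ _ => rfl) w))
  calc _ = ∫⁻ ω in C ∩ {ω | Z ξ x n ω = w}, pw s (GW.step ξ n w ω) ∂P :=
        setLIntegral_congr_fun hm' fun ω hω => by rw [← hω.2]; rfl
    _ = _ := by
        rw [← lintegral_indicator hm']
        refine lintegral_congr fun ω => ?_
        by_cases hω : ω ∈ C ∩ {ω | Z ξ x n ω = w}
        · rw [indicator_of_mem hω, indicator_of_mem hω, Pi.one_apply, one_mul]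
        · rw [indicator_of_notMem hω, indicator_of_notMem hω, zero_mul]
    _ = _ := key
    _ = ∫⁻ _ in C ∩ {ω | Z ξ x n ω = w}, pw (G μ s) w ∂P := by
        rw [setLIntegral_const, h.step, lintegral_indicator_one hm', mul_comm]
    _ = _ := setLIntegral_congr_fun hm' fun ω hω => by rw [← hω.2]

def Good (P : Measure Ω) (ξ : ℕ × X × ℕ → Ω → X →₀ ℕ) (D : ℕ → X → Set Ω) : Prop :=
  ∀ n x C, MeasurableSet[F ξ n] C →
    P (C ∩ D n x) = ∫⁻ ω in C, pw (fun y => P (D 0 y)) (Z ξ x n ω) ∂P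

theorem IsGW.lim (h : IsGW P μ ξ) {D : ℕ → ℕ → X → Set Ω} {E : ℕ → X → Set Ω}
    (hD : ∀ k, Good P ξ (D k)) (hl : ∀ n x C, MeasurableSet C →
      Tendsto (fun k => P (C ∩ D k n x)) atTop (𝓝 (P (C ∩ E n x)))) : Good P ξ E := by
  haveI := h.indep.isProbabilityMeasure
  intro n x C hC
  refine tendsto_nhds_unique (hl n x C (h.le _ _ hC)) ?_
  simp only [fun k => hD k n x C hC]
  refine tendsto_lintegral_of_dominated_convergence (fun _ => 1) (fun k => h.meas_pw x n _)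
    (fun k => Eventually.of_forall fun ω => pw_le_one (fun _ => prob_le_one) _) (by simp)
    (Eventually.of_forall fun ω => pw_tendsto (fun _ => prob_le_one) (fun y => ?_) _)
  simpa using hl 0 y univ MeasurableSet.univ

theorem IsGW.good_iUnion (h : IsGW P μ ξ) {D : ℕ → ℕ → X → Set Ω} (hD : ∀ k, Good P ξ (D k))
    (hm : ∀ n x, Monotone fun k => D k n x) : Good P ξ fun n x => ⋃ k, D k n x :=
  h.lim hD fun n x C _ => by
    rw [inter_iUnion]
    exact tendsto_measure_iUnion_atTop fun _ _ hk => inter_subset_inter_right _ (hm n x hk)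

theorem IsGW.good_iInter (h : IsGW P μ ξ) {D : ℕ → ℕ → X → Set Ω} (hD : ∀ k, Good P ξ (D k))
    (hD' : ∀ k n x, MeasurableSet (D k n x))
    (hm : ∀ n x, Antitone fun k => D k n x) : Good P ξ fun n x => ⋂ k, D k n x :=
  h.lim hD fun n x C hC => by
    haveI := h.indep.isProbabilityMeasure
    rw [inter_iInter]
    exact tendsto_measure_iInter_atTop (fun k => (hC.inter (hD' k n x)).nullMeasurableSet)
      (fun _ _ hk => inter_subset_inter_right _ (hm n x hk)) ⟨0, measure_ne_top _ _⟩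

def cyl (ξ : ℕ × X × ℕ → Ω → X →₀ ℕ) (B : ℕ → Set X) (k n : ℕ) (x : X) : Set Ω :=
  {ω | ∀ j < k, ∀ y ∈ B j, Z ξ x (n + j) ω y = 0}

noncomputable def rr (μ : X → PMF (X →₀ ℕ)) : ℕ → (ℕ → Set X) → X → ℝ≥0∞
  | 0, _ => 1
  | k + 1, B => (B 0)ᶜ.indicator (G μ (rr μ k fun j => B (j + 1)))

theorem IsGW.cyl_eq (h : IsGW P μ ξ) (k : ℕ) : ∀ (B : ℕ → Set X) n x C, MeasurableSet[F ξ n] C →
    P (C ∩ cyl ξ B k n x) = ∫⁻ ω in C, pw (rr μ k B) (Z ξ x n ω) ∂P := by
  induction k with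
  | zero =>
    intro B n x C _
    simp [cyl, rr, pw]
  | succ k ih =>
    intro B n x C hC
    have hS := GW.set_Z (ξ := ξ) x n fun w => ∀ y ∈ B 0, w y = 0
    have e : C ∩ cyl ξ B (k + 1) n x = (C ∩ {ω | ∀ y ∈ B 0, Z ξ x n ω y = 0}) ∩
        cyl ξ (fun j => B (j + 1)) k (n + 1) x := by
      ext ω
      simp only [cyl, mem_inter_iff, mem_ofPred_eq, Nat.forall_lt_succ_left, add_zero, and_assoc,
        Nat.add_right_comm n 1, Nat.add_assoc]
    rw [e, ih _ _ _ _ (F_mono n.le_succ _ (hC.inter hS)), h.succ _ _ _ (hC.inter hS), inter_comm,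
      ← Measure.restrict_restrict (h.le _ _ hS), ← lintegral_indicator (h.le _ _ hS)]
    refine lintegral_congr fun ω => ?_
    by_cases hω : ∀ y ∈ B 0, Z ξ x n ω y = 0
    · rw [indicator_of_mem (by exact hω)]
      exact pw_congr fun y hy => (indicator_of_mem (mem_compl fun h1 => hy (hω y h1)) _).symm
    · rw [indicator_of_notMem (by exact hω)]
      push Not at hω
      obtain ⟨y, h1, h2⟩ := hω
      refine (Finset.prod_eq_zero (Finsupp.mem_support_iff.2 h2) ?_).symm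
      rw [rr]
      beta_reduce
      rw [indicator_of_notMem (notMem_compl_iff.2 h1), zero_pow h2]

theorem IsGW.good_cyl (h : IsGW P μ ξ) (B : ℕ → Set X) (k : ℕ) : Good P ξ (cyl ξ B k) := by
  haveI := h.indep.isProbabilityMeasure
  have : (fun y => P (cyl ξ B k 0 y)) = rr μ k B := funext fun y => by
    simpa [Z, pw_single] using h.cyl_eq k B 0 y univ MeasurableSet.univ
  intro n x C hC
  rw [this, h.cyl_eq k B n x C hC]

def ev (ξ : ℕ × X × ℕ → Ω → X →₀ ℕ) (A : Set X) (x : X) : Set Ω :=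
  {ω | ∀ᶠ j in atTop, ∀ y ∈ A, Z ξ x j ω y = 0}

theorem IsGW.meas_ev (h : IsGW P μ ξ) (A : Set X) (x : X) : MeasurableSet (ev ξ A x) := by
  simp only [ev, eventually_atTop, ofPred_exists, ofPred_forall (ι := ℕ)]
  exact MeasurableSet.iUnion fun N => MeasurableSet.iInter fun j =>
    h.set_Z x j fun w => j ≥ N → ∀ y ∈ A, w y = 0

theorem IsGW.good_ev (h : IsGW P μ ξ) (A : Set X) : Good P ξ fun _ x => ev ξ A x := by
  have := h.good_iUnion (fun N => h.good_iInter
    (fun k => h.good_cyl (fun j => {y | N ≤ j ∧ y ∈ A}) k) (fun k n x => by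
      simp only [cyl, ofPred_forall (ι := ℕ)]
      exact MeasurableSet.iInter fun j => h.set_Z x (n + j) fun w => j < k →
        ∀ y ∈ {y | N ≤ j ∧ y ∈ A}, w y = 0)
    fun n x k k' hk ω hω j hj => hω j (hj.trans_le hk)) fun n x N N' hN ω hω =>
      mem_iInter.2 fun k j hj y hy => mem_iInter.1 hω k j hj y ⟨hN.trans hy.1, hy.2⟩
  have e : (fun n x => ⋃ N, ⋂ k, cyl ξ (fun j => {y | N ≤ j ∧ y ∈ A}) k n x) =
      fun _ x => ev ξ A x := by
    funext n x
    ext ω
    simp only [mem_iUnion, mem_iInter, cyl, ev, mem_ofPred_eq, eventually_atTop]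
    constructor
    · rintro ⟨N, hN⟩
      refine ⟨n + N, fun j hj y hy => ?_⟩
      obtain ⟨d, rfl⟩ := Nat.exists_eq_add_of_le (show n ≤ j by omega)
      exact hN (d + 1) d d.lt_succ_self y ⟨by omega, hy⟩
    · rintro ⟨N, hN⟩
      exact ⟨N, fun k j _ y hy => hN _ (by omega) y hy.2⟩
  exact e ▸ this

theorem IsGW.fix (h : IsGW P μ ξ) {E : X → Set Ω} (hE : Good P ξ fun _ => E) :
    G μ (fun y => P (E y)) = fun y => P (E y) := by
  haveI := h.indep.isProbabilityMeasure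
  funext x
  have h1 := hE 1 x univ MeasurableSet.univ
  rw [h.succ _ _ _ MeasurableSet.univ] at h1
  simpa [Z, pw_single] using h1.symm

theorem IsGW.super (h : IsGW P μ ξ) {m : X → ℝ≥0∞} (hm : G μ m ≤ m) (x : X) (n : ℕ) :
    ∫⁻ ω, pw m (Z ξ x n ω) ∂P ≤ m x := by
  haveI := h.indep.isProbabilityMeasure
  induction n with
  | zero => simp [Z, pw_single]
  | succ n ih =>
    have := h.succ m x n MeasurableSet.univ
    simp only [Measure.restrict_univ] at this
    exact this.trans_le ((lintegral_mono fun ω => pw_mono hm _).trans ih)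

theorem IsGW.le_super (h : IsGW P μ ξ) {E : X → Set Ω} (hE : Good P ξ fun _ => E) {A : Set X}
    (hA : ∀ x, E x ⊆ ev ξ A x) {m : X → ℝ≥0∞} (hm : G μ m ≤ m) (hm' : ∀ y ∉ A, m y = P (E y))
    (x : X) : P (E x) ≤ m x := by
  have e : E x = ⋃ N, {ω | ∀ j ≥ N, ∀ y ∈ A, Z ξ x j ω y = 0} ∩ E x := by
    rw [← iUnion_inter]
    refine (inter_eq_right.2 fun ω hω => ?_).symm
    obtain ⟨N, hN⟩ := eventually_atTop.1 (hA x hω)
    exact mem_iUnion.2 ⟨N, hN⟩
  have hmono : Monotone fun N => {ω | ∀ j ≥ N, ∀ y ∈ A, Z ξ x j ω y = 0} ∩ E x :=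
    fun N N' hN ω hω => ⟨fun j hj => hω.1 j (hN.trans hj), hω.2⟩
  rw [e, hmono.measure_iUnion]
  refine iSup_le fun N => ?_
  have hS := GW.set_Z (ξ := ξ) x N fun w => ∀ y ∈ A, w y = 0
  calc _ ≤ P ({ω | ∀ y ∈ A, Z ξ x N ω y = 0} ∩ E x) :=
        measure_mono fun ω hω => ⟨hω.1 N le_rfl, hω.2⟩
    _ = ∫⁻ ω in {ω | ∀ y ∈ A, Z ξ x N ω y = 0}, pw m (Z ξ x N ω) ∂P := by
        rw [hE N x _ hS]
        exact setLIntegral_congr_fun (h.le _ _ hS) fun ω hω =>
          pw_congr fun y hy => (hm' y fun h1 => hy (hω y h1)).symm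
    _ ≤ _ := (setLIntegral_le_lintegral _ _).trans (h.super hm x N)

omit [Countable X] [MeasurableSpace Ω] in
theorem glob_eq (x : X) : {ω | ∃ n, Z ξ x n ω = 0} = ev ξ univ x := by
  ext ω
  simp only [ev, mem_ofPred_eq, eventually_atTop, mem_univ, true_imp_iff]
  constructor
  · rintro ⟨n, hn⟩
    refine ⟨n, fun j hj => ?_⟩
    have : Z ξ x j ω = 0 := by
      induction j, hj using Nat.le_induction with
      | base => exact hn
      | succ j _ ih => simp [Z, ih]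
    simp [this]
  · rintro ⟨n, hn⟩
    exact ⟨n, Finsupp.ext (hn n le_rfl)⟩

omit [Countable X] [MeasurableSpace Ω] in
theorem part_sub (x : X) {A : Set X} (hA : A.Finite) :
    {ω | ∀ y, {n | Z ξ x n ω y ≠ 0}.Finite} ⊆ ev ξ A x := fun ω hω =>
  (eventually_all_finite hA).2 fun y _ => by
    rw [← Nat.cofinite_eq_atTop]
    exact hω y

theorem IsGW.good_part (h : IsGW P μ ξ) :
    Good P ξ fun _ x => {ω | ∀ y, {n | Z ξ x n ω y ≠ 0}.Finite} := by
  obtain ⟨c, hc⟩ := Countable.exists_injective_nat X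
  have := h.good_iInter (fun k => h.good_ev {y | c y ≤ k}) (fun k _ x => h.meas_ev _ x)
    fun n x k k' hk ω hω => Eventually.mono hω fun j hj y hy => hj y (le_trans hy hk)
  have e : (fun (_ : ℕ) x => ⋂ k, ev ξ {y | c y ≤ k} x) =
      fun _ x => {ω | ∀ y, {n | Z ξ x n ω y ≠ 0}.Finite} := by
    funext n x
    refine subset_antisymm (fun ω hω y => ?_) (subset_iInter fun k => part_sub x
      ((finite_Iic k).preimage hc.injOn))
    have : ∀ᶠ j in atTop, Z ξ x j ω y = 0 :=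
      Eventually.mono (mem_iInter.1 hω (c y)) fun j hj => hj y (le_refl (c y))
    rwa [← Nat.cofinite_eq_atTop] at this
  exact e ▸ this

theorem IsGW.main (h : IsGW P μ ξ) (hne : qGlob P ξ ≠ qPart P ξ) :
    Cardinal.mk {s : X → ℝ≥0∞ | G μ s = s ∧ qGlob P ξ ≤ s ∧ s ≤ qPart P ξ} =
      Cardinal.continuum := by
  haveI := h.indep.isProbabilityMeasure
  have hq : qGlob P ξ = fun y => P (ev ξ univ y) := funext fun y => by rw [qGlob, glob_eq]
  have hr1 : qPart P ξ ≤ 1 := fun _ => prob_le_one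
  have hmin : ∀ s, G μ s = s → qGlob P ξ ≤ s := fun s hs x => by
    rw [hq]
    exact h.le_super (h.good_ev univ) (fun _ => subset_rfl) hs.le (fun y hy => (hy trivial).elim) x
  have hGr : G μ (qPart P ξ) = qPart P ξ := h.fix h.good_part
  obtain ⟨x0, hx⟩ := Function.ne_iff.1 hne
  refine card_eq (x0 := x0) (fun s hs => hs.2.2.trans hr1) (lt_of_le_of_ne (hmin _ hGr x0) hx) (hr1 x0)
    fun a h1 h2 => ?_
  obtain ⟨s, h3, h4, h5⟩ := global_fix μ hr1 hGr (by rw [hq]; exact (h.fix (h.good_ev univ)).le)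
    (fun A m _ hm hm' => h.le_super h.good_part (fun x => part_sub x A.finite_toSet) hm hm') h1 h2
  exact ⟨s, ⟨h4, hmin s h4, h3⟩, h5⟩

omit [Countable X] [MeasurableSpace Ω] in
theorem exists_model (μ : X → PMF (X →₀ ℕ)) : ∃ (Ω : Type) (_ : MeasurableSpace Ω) (P : Measure Ω)
    (ξ : ℕ × X × ℕ → Ω → X →₀ ℕ), IsGW P μ ξ := by
  letI : MeasurableSpace (X →₀ ℕ) := ⊤
  haveI : MeasurableSingletonClass (X →₀ ℕ) := ⟨fun _ => trivial⟩
  refine ⟨ℕ × X × ℕ → X →₀ ℕ, inferInstance, Measure.infinitePi fun j => (μ j.2.1).toMeasure,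
    fun j ω => ω j, fun j => measurable_pi_apply j,
    iIndepFun_infinitePi (X := fun _ => id) fun _ => measurable_id, fun n y i f => ?_⟩
  have := Measure.infinitePi_map_eval (fun j : ℕ × X × ℕ => (μ j.2.1).toMeasure) (n, y, i)
  rw [← PMF.toMeasure_apply_singleton _ _ (measurableSet_singleton f), ← this,
    Measure.map_apply (measurable_pi_apply _) (measurableSet_singleton f)]
  rfl

end Pool.Agent.H32.GW
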