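import Pool.Agent.H32.GWb

/-! Finite fixed point sets of branching processes. -/

namespace Pool.Agent.H32.GW

open Set Filter Topology MeasureTheory
open scoped ENNReal

variable {X Ω : Type}

noncomputable def ph (c a : ℝ≥0∞) : ℝ≥0∞ := 1 - c * (1 - a)

theorem ph_one (c : ℝ≥0∞) : ph c 1 = 1 := by simp [ph]

theorem ph_le_one (c a : ℝ≥0∞) : ph c a ≤ 1 := tsub_le_self

theorem one_ph {a : ℝ≥0∞} (ha : a ≤ 1) : ph 1 a = a := by
  rw [ph, one_mul, ENNReal.sub_sub_cancel ENNReal.one_ne_top ha]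

theorem ph_anti {c c' : ℝ≥0∞} (h : c ≤ c') (a : ℝ≥0∞) : ph c' a ≤ ph c a :=
  tsub_le_tsub_left (mul_le_mul_left h _) _

theorem ph_mono (c : ℝ≥0∞) {a b : ℝ≥0∞} (h : a ≤ b) : ph c a ≤ ph c b :=
  tsub_le_tsub_left (mul_le_mul_right (tsub_le_tsub_left h _) _) _

theorem le_ph (c a : ℝ≥0∞) : 1 ≤ ph c a + c * (1 - a) := le_tsub_add

theorem ph_mul {c a b : ℝ≥0∞} (hc : 1 ≤ c) (ha : a ≤ 1) (hb : b ≤ 1) :
    ph c (a * b) ≤ ph c a * ph c b := by
  have h1 : ph c a ≤ a := (ph_anti hc a).trans_eq (one_ph ha)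
  rcases le_total 1 (c * (1 - a)) with h | h
  · exact (ph_mono c (mul_le_of_le_one_right' hb)).trans ((tsub_eq_zero_of_le h).trans_le zero_le)
  have e : 1 - a * b = (1 - a) + a * (1 - b) := by
    refine ENNReal.sub_eq_of_eq_add (ne_top_of_le_ne_top ENNReal.one_ne_top (mul_le_one' ha hb)) ?_
    rw [add_assoc, ← mul_add, tsub_add_cancel_of_le hb, mul_one, tsub_add_cancel_of_le ha]
  rw [ph, tsub_le_iff_right, e]
  calc 1 ≤ ph c a * 1 + c * (1 - a) := by rw [mul_one]; exact le_ph c a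
    _ ≤ ph c a * (ph c b + c * (1 - b)) + c * (1 - a) := by gcongr; exact le_ph c b
    _ = ph c a * ph c b + c * ((1 - a) + ph c a * (1 - b)) := by ring
    _ ≤ _ := by gcongr

theorem ph_pw {c : ℝ≥0∞} (hc : 1 ≤ c) {s : X → ℝ≥0∞} (hs : s ≤ 1) (f : X →₀ ℕ) :
    ph c (pw s f) ≤ pw (fun y => ph c (s y)) f := by
  induction f using Finsupp.induction_linear with
  | zero => simp [pw_zero, ph_one]
  | add f g h1 h2 =>
    simp only [pw_add]
    exact (ph_mul hc (pw_le_one hs _) (pw_le_one hs _)).trans (mul_le_mul' h1 h2)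
  | single y k =>
    simp only [pw_single]
    induction k with
    | zero => simp [ph_one]
    | succ k ih =>
      simp only [pow_succ]
      exact (ph_mul hc (pow_le_one' (hs y) _) (hs y)).trans (mul_le_mul' ih le_rfl)

theorem G_le_one (μ : X → PMF (X →₀ ℕ)) {s : X → ℝ≥0∞} (hs : s ≤ 1) : G μ s ≤ 1 := fun x =>
  (ENNReal.tsum_le_tsum fun f => mul_le_of_le_one_right' (pw_le_one hs f)).trans_eq (μ x).tsum_coe

theorem G_compl (μ : X → PMF (X →₀ ℕ)) {s : X → ℝ≥0∞} (hs : s ≤ 1) (x : X) :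
    1 - G μ s x = ∑' f, μ x f * (1 - pw s f) := by
  refine ENNReal.sub_eq_of_eq_add (ne_top_of_le_ne_top ENNReal.one_ne_top (G_le_one μ hs x)) ?_
  rw [G, ← ENNReal.tsum_add]
  exact (μ x).tsum_coe.symm.trans
    (tsum_congr fun f => by rw [← mul_add, tsub_add_cancel_of_le (pw_le_one hs f), mul_one])

theorem ph_sub (μ : X → PMF (X →₀ ℕ)) {c : ℝ≥0∞} (hc : 1 ≤ c) {s : X → ℝ≥0∞} (hs : s ≤ 1)
    (h : G μ s = s) : (fun y => ph c (s y)) ≤ G μ fun y => ph c (s y) := by
  intro x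
  show ph c (s x) ≤ _
  rw [← congrFun h x, ph, tsub_le_iff_right, G_compl μ hs, G, ← ENNReal.tsum_mul_left,
    ← ENNReal.tsum_add]
  refine (μ x).tsum_coe.symm.trans_le (ENNReal.tsum_le_tsum fun f => ?_)
  calc μ x f = μ x f * 1 := (mul_one _).symm
    _ ≤ μ x f * (pw (fun y => ph c (s y)) f + c * (1 - pw s f)) := by
        gcongr
        exact (le_ph c _).trans (add_le_add_left (ph_pw hc hs f) _)
    _ = _ := by ring

theorem iter_le_one (μ : X → PMF (X →₀ ℕ)) {v : X → ℝ≥0∞} (hv : v ≤ 1) (n : ℕ) : (G μ)^[n] v ≤ 1 := by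
  induction n with
  | zero => exact hv
  | succ n ih => rw [Function.iterate_succ_apply']; exact G_le_one μ ih

theorem iter_conv (μ : X → PMF (X →₀ ℕ)) {κ l : ℝ≥0∞} (h : κ + l = 1) {u v : X → ℝ≥0∞} (hv : v ≤ 1)
    (huv : ∀ y, u y ≤ κ + l * v y) (n : ℕ) : ∀ y, (G μ)^[n] u y ≤ κ + l * (G μ)^[n] v y := by
  induction n with
  | zero => exact huv
  | succ n ih =>
    intro y
    rw [Function.iterate_succ_apply', Function.iterate_succ_apply']
    have h1 := G_convex μ (κ := l) (l := κ) (by rw [add_comm, h]) (iter_le_one μ hv n) y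
    refine (G_mono μ (fun z => ?_) y).trans (h1.trans ?_)
    · rw [add_comm]; simpa using ih z
    · rw [add_comm]
      exact add_le_add_left (mul_le_of_le_one_right' (G_le_one μ le_rfl y)) _

variable [Countable X]

theorem lim_fix (μ : X → PMF (X →₀ ℕ)) {v : X → ℝ≥0∞} (hv : v ≤ 1) (h : v ≤ G μ v) :
    G μ (⨆ n, (G μ)^[n] v) = ⨆ n, (G μ)^[n] v := by
  have hm : Monotone fun n => (G μ)^[n] v := (G_mono μ).monotone_iterate_of_le_map h
  have ht := tendsto_atTop_iSup hm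
  funext x
  have h1 := (G_cont μ x _ (iSup_le (iter_le_one μ hv))).tendsto.comp
    (tendsto_nhdsWithin_iff.2 ⟨ht, Eventually.of_forall (iter_le_one μ hv)⟩)
  refine tendsto_nhds_unique h1 ?_
  have h2 := (tendsto_pi_nhds.1 ht x).comp (tendsto_add_atTop_nat 1)
  refine h2.congr fun n => ?_
  simp only [Function.comp, Function.iterate_succ_apply']

theorem const_lim (μ : X → PMF (X →₀ ℕ)) (hS : {s : X → ℝ≥0∞ | s ≤ 1 ∧ G μ s = s}.Finite)
    {s : X → ℝ≥0∞} (hs : s ≤ 1) (h : G μ s = s) {c : ℝ} (hc : 1 ≤ c) :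
    (⨆ n, (G μ)^[n] fun y => ph (ENNReal.ofReal c) (s y)) = s := by
  let ψ : ℝ → X → ℝ≥0∞ := fun c => ⨆ n, (G μ)^[n] fun y => ph (ENNReal.ofReal c) (s y)
  have h1 : ∀ c, ψ c ≤ 1 := fun c => iSup_le (iter_le_one μ fun _ => ph_le_one _ _)
  have hne : ∀ c x, ψ c x ≠ ⊤ := fun c x => ne_top_of_le_ne_top ENNReal.one_ne_top (h1 c x)
  have h2 : ∀ c, 1 ≤ c → G μ (ψ c) = ψ c := fun c hc =>
    lim_fix μ (fun _ => ph_le_one _ _) (ph_sub μ (ENNReal.one_le_ofReal.2 hc) hs h)
  have h3 : ψ 1 = s := by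
    simp only [ψ, ENNReal.ofReal_one, fun y => one_ph (hs y), Function.iterate_fixed h, iSup_const]
  have h4 : ∀ c c' x, 1 ≤ c → c ≤ c' → |(ψ c x).toReal - (ψ c' x).toReal| ≤ c' - c := by
    intro c c' x hc hcc
    have k1 : ψ c' x ≤ ψ c x := iSup_mono (f := fun n => (G μ)^[n] _) (fun n =>
      (G_mono μ).iterate n fun y => ph_anti (ENNReal.ofReal_le_ofReal hcc) _) x
    have hc' : 0 < c' := by linarith
    have e : ENNReal.ofReal ((c' - c) / c') + ENNReal.ofReal (c / c') = 1 := by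
      rw [← ENNReal.ofReal_add (div_nonneg (by linarith) hc'.le) (div_nonneg (by linarith) hc'.le),
        ← add_div, sub_add_cancel, div_self hc'.ne', ENNReal.ofReal_one]
    have k2 : ψ c x ≤ ENNReal.ofReal (c' - c) + ψ c' x := by
      simp only [ψ, iSup_apply]
      refine iSup_le fun n => (iter_conv μ e (v := fun y => ph (ENNReal.ofReal c') (s y))
        (fun _ => ph_le_one _ _) (fun y => ?_) n x).trans (add_le_add ?_ ?_)
      · rw [ph, tsub_le_iff_right, show ENNReal.ofReal c = ENNReal.ofReal (c / c') * ENNReal.ofReal c' by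
          rw [← ENNReal.ofReal_mul (div_nonneg (by linarith) hc'.le), div_mul_cancel₀ _ hc'.ne'],
          add_assoc, mul_assoc, ← mul_add]
        exact e.symm.trans_le (add_le_add le_rfl (le_mul_of_one_le_right' (le_ph _ _)))
      · exact ENNReal.ofReal_le_ofReal (div_le_self (by linarith) (by linarith))
      · exact (mul_le_of_le_one_left' (e ▸ le_add_self)).trans (le_iSup (fun n => (G μ)^[n] _ x) n)
    have k3 := ENNReal.toReal_mono (hne c x) k1
    have k4 := ENNReal.toReal_mono (ENNReal.add_ne_top.2 ⟨ENNReal.ofReal_ne_top, hne c' x⟩) k2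
    rw [ENNReal.toReal_add ENNReal.ofReal_ne_top (hne c' x), ENNReal.toReal_ofReal (by linarith)] at k4
    rw [abs_le]; constructor <;> linarith
  funext x
  have hl : LipschitzOnWith 1 (fun c => (ψ c x).toReal) (Ici 1) := by
    refine LipschitzOnWith.of_dist_le_mul fun a ha b hb => ?_
    rw [Real.dist_eq, Real.dist_eq, NNReal.coe_one, one_mul]
    rcases le_total a b with hab | hab
    · exact (h4 a b x ha hab).trans (by rw [abs_sub_comm]; exact le_abs_self _)
    · rw [abs_sub_comm]; exact (h4 b a x hb hab).trans (le_abs_self _)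
  have := isPreconnected_Ici.constant_of_mapsTo (hS.image fun m => (m x).toReal).isDiscrete
    hl.continuousOn (fun c hc => ⟨ψ c, ⟨h1 c, h2 c hc⟩, rfl⟩) hc (mem_Ici.2 le_rfl)
  exact ((ENNReal.toReal_eq_toReal_iff' (hne _ _) (hne _ _)).1 this).trans (congrFun h3 x)

variable {ξ : ℕ × X × ℕ → Ω → X →₀ ℕ} [MeasurableSpace Ω] {P : Measure Ω} {μ : X → PMF (X →₀ ℕ)}

theorem IsGW.sub_le (h : IsGW P μ ξ) {v : X → ℝ≥0∞} (hv : v ≤ 1) (h1 : v ≤ G μ v) {A : Set X}
    (hA : ∀ y ∈ A, v y = 0) (x : X) : v x ≤ P (ev ξ A x) := by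
  haveI := h.indep.isProbabilityMeasure
  have k1 : ∀ k, v ≤ rr μ k fun _ => A := by
    intro k
    induction k with
    | zero => exact hv
    | succ k ih =>
      intro y
      rw [rr]
      by_cases hy : y ∈ A
      · rw [hA y hy]; exact zero_le
      · rw [indicator_of_mem (mem_compl hy)]
        exact (h1 y).trans (G_mono μ ih y)
  have k2 : ∀ k, P (cyl ξ (fun _ => A) k 0 x) = rr μ k (fun _ => A) x := fun k => by
    simpa [Z, pw_single] using h.cyl_eq k (fun _ => A) 0 x univ MeasurableSet.univ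
  have k3 := tendsto_measure_iInter_atTop (μ := P) (s := fun k => cyl ξ (fun _ => A) k 0 x)
    (fun k => MeasurableSet.nullMeasurableSet (by
      simp only [cyl, ofPred_forall (ι := ℕ)]
      exact MeasurableSet.iInter fun j => h.set_Z x (0 + j) fun w => j < k → ∀ y ∈ A, w y = 0))
    (fun k k' hk ω hω j hj => hω j (hj.trans_le hk)) ⟨0, measure_ne_top _ _⟩
  refine (ge_of_tendsto' k3 fun k => (k1 k x).trans_eq (k2 k).symm).trans (measure_mono fun ω hω => ?_)
  exact Eventually.of_forall fun j y hy => by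
    simpa using mem_iInter.1 hω (j + 1) j j.lt_succ_self y hy

theorem IsGW.fin_ext (h : IsGW P μ ξ) (hS : {s : X → ℝ≥0∞ | s ≤ 1 ∧ G μ s = s}.Finite)
    {s : X → ℝ≥0∞} (hs : s ≤ 1) (hG : G μ s = s) : ∃ A, (fun x => P (ev ξ A x)) = s := by
  classical
  haveI := h.indep.isProbabilityMeasure
  let A : ℕ → Set X := fun k => {y | ph (ENNReal.ofReal (k + 1)) (s y) = 0}
  let q : ℕ → X → ℝ≥0∞ := fun k x => P (ev ξ (A k) x)
  have hq : ∀ k, G μ (q k) = q k := fun k => h.fix (h.good_ev _)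
  have hsq : ∀ k, s ≤ q k := by
    intro k
    have hk : (1 : ℝ) ≤ k + 1 := by linarith [k.cast_nonneg (α := ℝ)]
    rw [← const_lim μ hS hs hG hk]
    refine iSup_le fun n => ((G_mono μ).iterate n (h.sub_le (fun _ => ph_le_one _ _)
      (ph_sub μ (ENNReal.one_le_ofReal.2 hk) hs hG) fun y hy => hy)).trans_eq
      (Function.iterate_fixed (hq k) n)
  haveI := hS.to_subtype
  obtain ⟨⟨r, hr1, hGr⟩, hr⟩ := Finite.exists_infinite_fiber
    (fun k => (⟨q k, fun _ => prob_le_one, hq k⟩ : {s : X → ℝ≥0∞ | s ≤ 1 ∧ G μ s = s}))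
  have hfr : ∃ᶠ k in atTop, q k = r := by
    rw [Nat.frequently_atTop_iff_infinite]
    exact (infinite_coe_iff.1 hr).mono fun k hk => by simpa using hk
  obtain ⟨k₀, hk₀⟩ := hfr.exists
  refine ⟨A k₀, hk₀.trans ?_⟩
  have hsr : s ≤ r := hk₀ ▸ hsq k₀
  by_contra hne
  obtain ⟨x0, hx⟩ := Function.ne_iff.1 hne
  let μ' : X → PMF (X →₀ ℕ) := fun y => if s y = 1 then PMF.pure 0 else μ y
  have e1 : ∀ m y, s y = 1 → G μ' m y = 1 := fun m y hy => by
    simp [G, μ', hy, PMF.pure_apply, pw_zero]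
  have e2 : ∀ m y, s y ≠ 1 → G μ' m y = G μ m y := fun m y hy => by simp [G, μ', hy]
  have e3 : ∀ m, s ≤ m → m ≤ 1 → G μ m = m → G μ' m = m := fun m h1 h2 h3 => funext fun y => by
    by_cases hy : s y = 1
    · rw [e1 m y hy]; exact le_antisymm (hy ▸ h1 y) (h2 y)
    · rw [e2 m y hy, h3]
  have hA : ∀ y, ∀ᶠ k in atTop, s y ≠ 1 → y ∈ A k := by
    intro y
    by_cases hy : s y = 1
    · exact Eventually.of_forall fun k h => absurd hy h
    obtain ⟨n, hn⟩ := ENNReal.exists_inv_nat_lt (a := 1 - s y)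
      (fun h => hy (le_antisymm (hs y) (tsub_eq_zero_iff_le.1 h)))
    filter_upwards [eventually_ge_atTop n] with k hk _
    refine tsub_eq_zero_of_le ?_
    have h1 : ((k + 1 : ℕ) : ℝ≥0∞)⁻¹ ≤ 1 - s y :=
      (ENNReal.inv_le_inv.2 (by exact_mod_cast hk.trans k.le_succ)).trans hn.le
    rw [show ENNReal.ofReal (k + 1) = ((k + 1 : ℕ) : ℝ≥0∞) by rw [← ENNReal.ofReal_natCast]; simp,
      ← ENNReal.mul_inv_cancel (a := ((k + 1 : ℕ) : ℝ≥0∞)) (by simp) (by simp)]
    gcongr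
    rw [ENNReal.mul_inv_cancel (by simp) (by simp)]
    exact h1
  have key : ∀ a, s x0 < a → a < r x0 → ∃ m ∈ {s : X → ℝ≥0∞ | s ≤ 1 ∧ G μ s = s}, m x0 = a := by
    intro a h1 h2
    obtain ⟨m, h3, h4, h5⟩ := global_fix μ' hr1 (e3 r hsr hr1 hGr) (e3 s le_rfl hs hG).le
      (fun B m hm hm1 hm2 => by
        obtain ⟨k, hk, hk2⟩ := (hfr.and_eventually ((eventually_all_finset B).2 fun y _ => hA y)).exists
        have h6 : ∀ y, s y = 1 → m y = 1 := fun y hy =>
          le_antisymm ((hm y).trans (hr1 y)) (e1 m y hy ▸ hm1 y)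
        rw [← hk]
        refine h.le_super (h.good_ev (A k)) (A := {y | y ∈ B ∧ s y ≠ 1})
          (fun x ω hω => Eventually.mono hω fun j hj y hy => hj y (hk2 y hy.1 hy.2)) (fun y => ?_)
          fun y hy => ?_
        · by_cases hy : s y = 1
          · rw [h6 y hy]; exact G_le_one μ (hm.trans hr1) y
          · rw [← e2 m y hy]; exact hm1 y
        · refine Eq.trans ?_ (congrFun hk y).symm
          by_cases hy1 : s y = 1
          · rw [h6 y hy1]; exact le_antisymm (hy1 ▸ hsr y) (hr1 y)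
          · exact hm2 y fun h => hy ⟨h, hy1⟩) h1 h2
    refine ⟨m, ⟨h3.trans hr1, funext fun y => ?_⟩, h5⟩
    by_cases hy : s y = 1
    · have h6 : ∀ z, s z = 1 → m z = 1 := fun z hz => (congrFun h4 z).symm.trans (e1 m z hz)
      rw [h6 y hy]
      refine le_antisymm (G_le_one μ (h3.trans hr1) y) (tsub_eq_zero_iff_le.1 ?_)
      have h7 := G_compl μ hs y
      rw [hG, hy, tsub_self, eq_comm, ENNReal.tsum_eq_zero] at h7
      rw [G_compl μ (h3.trans hr1), ENNReal.tsum_eq_zero]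
      intro f
      rcases mul_eq_zero.1 (h7 f) with h8 | h8
      · rw [h8, zero_mul]
      · have h9 : pw m f = pw s f := pw_congr fun z hz => by
          have : s z = 1 := by
            refine le_antisymm (hs z) ((tsub_eq_zero_iff_le.1 h8).trans ?_)
            rw [← Finsupp.single_add_erase z f, pw_add, pw_single]
            exact (mul_le_of_le_one_right' (pw_le_one hs _)).trans (pow_le_of_le_one zero_le (hs z) hz)
          rw [h6 z this, this]
        rw [h9, h8, mul_zero]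
    · rw [← e2 m y hy, h4]
  have := card_eq (fun s hs => hs.1) (lt_of_le_of_ne (hsr x0) (Ne.symm hx)) (hr1 x0) key
  exact absurd (Cardinal.lt_aleph0_of_finite _) (not_lt.2 (this ▸ Cardinal.aleph0_le_continuum))

end Pool.Agent.H32.GW
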