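import Mathlib

/-! Weighted random orderings, and a graphon whose process reaches minimum degree one before it
is connected. -/

namespace Pool.Agent.H32.HitT

open Finset MeasureTheory ProbabilityTheory
open scoped Classical

section perm

variable {α : Type}

noncomputable def P (w : α → ℝ) (l : List α) : ℝ :=
  ∏ t ∈ Finset.range l.length,
    (if 0 < ((l.drop t).map w).sum then (((l.drop t).take 1).map w).sum / ((l.drop t).map w).sum
      else 1 / ((l.drop t).length : ℝ))

theorem P_cons {w : α → ℝ} (hw : ∀ a, 0 < w a) (a : α) (l : List α) :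
    P w (a :: l) = w a / (w a + (l.map w).sum) * P w l := by
  have h1 : 0 ≤ (l.map w).sum := List.sum_nonneg fun x hx => by
    obtain ⟨y, -, rfl⟩ := List.mem_map.1 hx
    exact (hw y).le
  have h2 : 0 < w a + (l.map w).sum := by linarith [hw a]
  rw [P, List.length_cons, Finset.prod_range_succ', mul_comm]
  simp only [List.drop_succ_cons, List.drop_zero, List.map_cons, List.sum_cons, if_pos h2, P]
  simp

theorem P_nonneg {w : α → ℝ} (hw : ∀ a, 0 < w a) (l : List α) : 0 ≤ P w l := by
  induction l with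
  | nil => simp [P]
  | cons a l ih =>
    rw [P_cons hw]
    have h1 : 0 ≤ (l.map w).sum := List.sum_nonneg fun x hx => by
      obtain ⟨y, -, rfl⟩ := List.mem_map.1 hx
      exact (hw y).le
    have := hw a
    positivity

noncomputable def perms (s : Finset α) : Finset (List α) := s.toList.permutations.toFinset

theorem mem_of_perms {s : Finset α} {l : List α} (h : l ∈ perms s) {a : α} (ha : a ∈ s) : a ∈ l := by
  rw [perms, List.mem_toFinset, List.mem_permutations] at h
  exact h.mem_iff.2 (mem_toList.2 ha)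

theorem mem_perms {s : Finset α} {l : List α} : l ∈ perms s ↔ l.Nodup ∧ l.toFinset = s := by
  rw [perms, List.mem_toFinset, List.mem_permutations]
  constructor
  · intro h
    exact ⟨h.nodup_iff.2 s.nodup_toList, by rw [List.toFinset_eq_of_perm _ _ h, toList_toFinset]⟩
  · rintro ⟨h, rfl⟩
    exact (List.toFinset_toList h).symm

theorem sum_perms {s : Finset α} (hs : s.Nonempty) (F : List α → ℝ) :
    ∑ l ∈ perms s, F l = ∑ a ∈ s, ∑ l ∈ perms (s.erase a), F (a :: l) := by
  rw [Finset.sum_sigma']
  symm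
  refine Finset.sum_bij (fun p _ => p.1 :: p.2) ?_ ?_ ?_ fun _ _ => rfl
  · rintro ⟨a, l⟩ h
    obtain ⟨h1, h2⟩ := mem_sigma.1 h
    obtain ⟨h3, h4⟩ := mem_perms.1 h2
    refine mem_perms.2 ⟨List.nodup_cons.2 ⟨fun h5 => ?_, h3⟩, ?_⟩
    · have := List.mem_toFinset.2 h5
      rw [h4] at this
      exact notMem_erase _ _ this
    · rw [List.toFinset_cons, h4, insert_erase h1]
  · rintro ⟨a, l⟩ - ⟨b, l'⟩ - h
    obtain ⟨rfl, rfl⟩ := List.cons.inj h
    rfl
  · intro l hl
    obtain ⟨h1, h2⟩ := mem_perms.1 hl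
    cases l with
    | nil =>
      rw [← h2] at hs
      simp at hs
    | cons a l =>
      obtain ⟨h3, h4⟩ := List.nodup_cons.1 h1
      refine ⟨⟨a, l⟩, mem_sigma.2 ⟨by simp [← h2], mem_perms.2 ⟨h4, ?_⟩⟩, rfl⟩
      rw [← h2, List.toFinset_cons, erase_insert (by simpa using h3)]

theorem P_cons' {w : α → ℝ} (hw : ∀ a, 0 < w a) {s : Finset α} {a : α} (ha : a ∈ s) {l : List α}
    (hl : l ∈ perms (s.erase a)) : P w (a :: l) = w a / (∑ b ∈ s, w b) * P w l := by
  obtain ⟨h1, h2⟩ := mem_perms.1 hl
  rw [P_cons hw, ← List.sum_toFinset _ h1, h2, add_sum_erase _ _ ha]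

theorem total {w : α → ℝ} (hw : ∀ a, 0 < w a) (s : Finset α) : ∑ l ∈ perms s, P w l = 1 := by
  induction s using Finset.strongInduction with
  | H s ih =>
    rcases s.eq_empty_or_nonempty with rfl | hs
    · simp [perms, P]
    · rw [sum_perms hs, sum_congr rfl fun a ha => sum_congr rfl fun l hl => P_cons' hw ha hl]
      simp only [← mul_sum]
      rw [sum_congr rfl fun a ha => by rw [ih _ (erase_ssubset ha), mul_one], ← sum_div,
        div_self (sum_pos (fun a _ => hw a) hs).ne']

def Good (H : α → Prop) (l : List α) : Prop := l.Pairwise fun a b => H b → H a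

theorem bad_le {w : α → ℝ} (hw : ∀ a, 0 < w a) (H : α → Prop) {η : ℝ} (hη : 0 ≤ η)
    (h : ∀ a b, ¬ H a → H b → w a ≤ η * w b) (s : Finset α) :
    ∑ l ∈ perms s, (if Good H l then 0 else P w l) ≤ s.card ^ 2 * η := by
  induction s using Finset.strongInduction with
  | H s ih =>
    by_cases hH : ∃ b ∈ s, H b
    · obtain ⟨b, hb, hHb⟩ := hH
      have hS : 0 < ∑ b ∈ s, w b := sum_pos (fun a _ => hw a) ⟨b, hb⟩
      have hc : (1 : ℝ) ≤ s.card := by exact_mod_cast card_pos.2 ⟨b, hb⟩
      rw [sum_perms ⟨b, hb⟩]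
      calc _ ≤ ∑ a ∈ s, (η + w a / (∑ b ∈ s, w b) * ((s.card - 1) ^ 2 * η)) := by
            refine sum_le_sum fun a ha => ?_
            have hq : 0 ≤ w a / ∑ b ∈ s, w b := div_nonneg (hw a).le hS.le
            by_cases hHa : H a
            · calc _ = w a / (∑ b ∈ s, w b) *
                    ∑ l ∈ perms (s.erase a), (if Good H l then 0 else P w l) := by
                    rw [mul_sum]
                    refine sum_congr rfl fun l hl => ?_
                    have : Good H (a :: l) ↔ Good H l := by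
                      simp [Good, hHa]
                    rw [this, P_cons' hw ha hl]
                    split_ifs <;> simp
                _ ≤ w a / (∑ b ∈ s, w b) * ((s.card - 1) ^ 2 * η) := by
                    refine mul_le_mul_of_nonneg_left ?_ hq
                    have := ih _ (erase_ssubset ha)
                    rwa [card_erase_of_mem ha, Nat.cast_sub (card_pos.2 ⟨b, hb⟩), Nat.cast_one]
                      at this
                _ ≤ _ := le_add_of_nonneg_left hη
            · calc _ ≤ ∑ l ∈ perms (s.erase a), w a / (∑ b ∈ s, w b) * P w l := by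
                    refine sum_le_sum fun l hl => ?_
                    rw [← P_cons' hw ha hl]
                    split_ifs
                    · exact P_nonneg hw _
                    · exact le_rfl
                _ = w a / (∑ b ∈ s, w b) := by rw [← mul_sum, total hw, mul_one]
                _ ≤ η := by
                    rw [div_le_iff₀ hS]
                    exact (h a b hHa hHb).trans (mul_le_mul_of_nonneg_left
                      (single_le_sum (fun a _ => (hw a).le) hb) hη)
                _ ≤ _ := le_add_of_nonneg_right (by positivity)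
        _ = s.card * η + (s.card - 1) ^ 2 * η := by
            rw [sum_add_distrib, ← sum_mul, ← sum_div, div_self hS.ne']
            simp
        _ ≤ _ := by nlinarith
    · push Not at hH
      rw [sum_eq_zero fun l hl => ?_]
      · positivity
      · refine if_pos (List.pairwise_of_forall_mem_list fun a _ b hb hb' => (hH b ?_ hb').elim)
        rw [← (mem_perms.1 hl).2]
        exact List.mem_toFinset.2 hb

theorem good_take {H : α → Prop} {l : List α} (h : Good H l) :
    ∃ t ≤ l.length, ∀ a, a ∈ l.take t ↔ a ∈ l ∧ H a := by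
  induction l with
  | nil => exact ⟨0, le_rfl, by simp⟩
  | cons a l ih =>
    obtain ⟨h1, h2⟩ := List.pairwise_cons.1 h
    by_cases ha : H a
    · obtain ⟨t, h3, h4⟩ := ih h2
      refine ⟨t + 1, by simpa using h3, fun b => ?_⟩
      rw [List.take_succ_cons, List.mem_cons, List.mem_cons, h4]
      constructor
      · rintro (rfl | h)
        · exact ⟨Or.inl rfl, ha⟩
        · exact ⟨Or.inr h.1, h.2⟩
      · rintro ⟨rfl | h, h'⟩
        · exact Or.inl rfl
        · exact Or.inr ⟨h, h'⟩
    · refine ⟨0, Nat.zero_le _, fun b => ?_⟩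
      simp only [List.take_zero, List.not_mem_nil, false_iff, not_and, List.mem_cons]
      rintro (rfl | h) h'
      · exact ha h'
      · exact ha (h1 b h h')

end perm

abbrev Ed (n : ℕ) : Finset (Fin n × Fin n) := univ.filter fun p => p.1 < p.2

def Same (n : ℕ) (l : List (Fin n × Fin n)) : Prop :=
  sInf {t : ℕ | t ≤ l.length ∧ 1 < n ∧ ∀ S : Finset (Fin n), S.card < 1 →
      ((SimpleGraph.fromRel (fun i j : Fin n => (i, j) ∈ l.take t)).induce
        ((↑S : Set (Fin n))ᶜ)).Connected}
    = sInf {t : ℕ | t ≤ l.length ∧ ∀ v : Fin n,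
      1 ≤ (SimpleGraph.fromRel (fun i j : Fin n => (i, j) ∈ l.take t)).degree v}

theorem not_same {n : ℕ} {c : Fin n → Prop} (hc : ∀ v, ∃ u, u ≠ v ∧ (c u ↔ c v)) {a b : Fin n}
    (ha : c a) (hb : ¬ c b) {l : List (Fin n × Fin n)} (hl : l ∈ perms (Ed n))
    (hg : Good (fun p => c p.1 ↔ c p.2) l) : ¬ Same n l := by
  intro h
  obtain ⟨t, ht, h1⟩ := good_take hg
  have hm : ∀ p : Fin n × Fin n, p.1 < p.2 → p ∈ l := fun p hp =>
    mem_of_perms hl (by simpa using hp)
  have h2 : t ∈ {t : ℕ | t ≤ l.length ∧ ∀ v : Fin n,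
      1 ≤ (SimpleGraph.fromRel (fun i j : Fin n => (i, j) ∈ l.take t)).degree v} := by
    refine ⟨ht, fun v => ?_⟩
    obtain ⟨u, h3, h4⟩ := hc v
    refine (SimpleGraph.degree_pos_iff_exists_adj _ v).2 ⟨u, ?_⟩
    rw [SimpleGraph.fromRel_adj]
    refine ⟨h3.symm, ?_⟩
    rcases lt_or_gt_of_ne h3 with h5 | h5
    · exact Or.inr ((h1 _).2 ⟨hm _ h5, h4⟩)
    · exact Or.inl ((h1 _).2 ⟨hm _ h5, h4.symm⟩)
  have h3 := Nat.sInf_le h2
  have h4 := Nat.sInf_mem ⟨t, h2⟩
  rw [← h] at h3 h4
  by_cases hne : {t : ℕ | t ≤ l.length ∧ 1 < n ∧ ∀ S : Finset (Fin n), S.card < 1 →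
      ((SimpleGraph.fromRel (fun i j : Fin n => (i, j) ∈ l.take t)).induce
        ((↑S : Set (Fin n))ᶜ)).Connected}.Nonempty
  · have h5 := ((Nat.sInf_mem hne).2.2 ∅ (by simp)).preconnected ⟨a, by simp⟩ ⟨b, by simp⟩
    have h6 : ∀ p, p ∈ l.take _ → (c p.1 ↔ c p.2) := fun p hp =>
      ((h1 p).1 ((List.take_subset_take_left l h3) hp)).2
    have key : ∀ (G : SimpleGraph (Fin n)) (T : Set (Fin n)), (∀ u v, G.Adj u v → c u → c v) →
        ∀ {u v : T} (p : (G.induce T).Walk u v), c u.1 → c v.1 := by
      intro G T hG u v p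
      induction p with
      | nil => exact id
      | cons hadj _ ih => exact fun hu => ih (hG _ _ hadj hu)
    obtain ⟨p⟩ := h5
    refine hb (key _ _ (fun u v hadj hu => ?_) p ha)
    rcases ((SimpleGraph.fromRel_adj _ _ _).1 hadj).2 with h7 | h7
    · exact (h6 _ h7).1 hu
    · exact (h6 _ h7).2 hu
  · rw [Set.not_nonempty_iff_eq_empty.1 hne, Nat.sInf_empty] at h4
    obtain ⟨u, hu⟩ := (SimpleGraph.degree_pos_iff_exists_adj _ a).1 (h4.2 a)
    simp at hu

noncomputable def eps (k : ℕ) : ℝ := (1 / 2) ^ (64 * k ^ 2)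

noncomputable def W (i j : ℕ) : ℝ := if i = j then 1 else eps (max i j)

theorem eps_pos (k : ℕ) : 0 < eps k := by
  unfold eps
  positivity

theorem eps_le (k : ℕ) : eps k ≤ 1 := pow_le_one₀ (by norm_num) (by norm_num)

theorem W_pos (i j : ℕ) : 0 < W i j := by
  unfold W
  split_ifs
  · exact one_pos
  · exact eps_pos _

theorem W_le (i j : ℕ) : W i j ≤ 1 := by
  unfold W
  split_ifs
  · exact le_rfl
  · exact eps_le _

theorem W_symm (i j : ℕ) : W i j = W j i := by
  simp only [W, eq_comm (a := i), max_comm i]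

theorem eps_step {j k : ℕ} (h : j < k) : eps k ≤ (1 / 2) ^ (21 + 32 * k) * eps j := by
  rw [eps, eps, ← pow_add]
  refine pow_le_pow_of_le_one (by norm_num) (by norm_num) ?_
  obtain ⟨d, rfl⟩ := Nat.exists_eq_add_of_lt h
  nlinarith

theorem inner_le {n k : ℕ} (hk : 0 < k) (hn : n = 16 * 256 ^ k + 16 * 256 ^ k) (x : Fin n → ℕ)
    (hx : ∀ i, x i ≤ k) {a a' b b' : Fin n} (h1 : a ≠ a') (h2 : b ≠ b') (ha : x a = k)
    (ha' : x a' = k) (hb : x b ≠ k) (hb' : x b' ≠ k) :
    ∑ l ∈ (perms (Ed n)).filter (Same n), P (fun p => W (x p.1) (x p.2)) l ≤ 1 / 2 := by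
  have hw : ∀ p : Fin n × Fin n, 0 < W (x p.1) (x p.2) := fun p => W_pos _ _
  have hc : ∀ v, ∃ u, u ≠ v ∧ (x u = k ↔ x v = k) := fun v => by
    by_cases hv : x v = k
    · by_cases h : a = v
      · exact ⟨a', fun h' => h1 (h.trans h'.symm), by simp [hv, ha']⟩
      · exact ⟨a, h, by simp [hv, ha]⟩
    · by_cases h : b = v
      · exact ⟨b', fun h' => h2 (h.trans h'.symm), by simp [hv, hb']⟩
      · exact ⟨b, h, by simp [hv, hb]⟩
  have h3 := bad_le hw (fun p => x p.1 = k ↔ x p.2 = k) (η := (1 / 2) ^ (21 + 32 * k))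
    (by positivity) (fun p q hp hq => by
      have e1 : W (x p.1) (x p.2) = eps k := by
        have := hx p.1
        have := hx p.2
        rw [W, if_neg (fun h => hp (by rw [h]))]
        congr 1
        omega
      rw [e1, W]
      split_ifs with h
      · exact (eps_step hk).trans (mul_le_mul_of_nonneg_left (eps_le _) (by positivity))
      · refine eps_step ?_
        have := hx q.1
        have := hx q.2
        omega) (Ed n)
  calc _ ≤ ∑ l ∈ perms (Ed n), (if Good (fun p => x p.1 = k ↔ x p.2 = k) l then 0 else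
        P (fun p => W (x p.1) (x p.2)) l) := by
        rw [sum_filter]
        refine sum_le_sum fun l hl => ?_
        split_ifs with h4 h5 h5
        · exact (not_same (c := fun v => x v = k) hc ha hb hl h5 h4).elim
        · exact le_rfl
        · exact le_rfl
        · exact P_nonneg hw _
    _ ≤ _ := h3
    _ ≤ ((n : ℝ) ^ 2) ^ 2 * (1 / 2) ^ (21 + 32 * k) := by
        gcongr
        have := card_le_univ (Ed n)
        rw [Fintype.card_prod, Fintype.card_fin] at this
        exact_mod_cast this.trans_eq (sq n).symm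
    _ = 1 / 2 := by
        have e : (n : ℝ) = 2 ^ (5 + 8 * k) := by
          rw [hn, pow_add, pow_mul]
          push_cast
          ring
        rw [e, ← pow_mul, ← pow_mul, show 21 + 32 * k = (5 + 8 * k) * (2 * 2) + 1 by ring, pow_succ,
          ← mul_assoc, ← mul_pow]
        norm_num

noncomputable def p0 : unitInterval := ⟨255 / 256, by norm_num, by norm_num⟩

theorem p0_ne : p0 ≠ 0 := fun h => by
  have := congrArg Subtype.val h
  norm_num [p0] at this

noncomputable def μ : Measure ℕ := geometricMeasure p0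

instance : IsProbabilityMeasure μ := by
  unfold μ
  infer_instance

theorem μ_single (k : ℕ) : μ.real {k} = (1 / 256) ^ k * (255 / 256) := by
  rw [μ, geometricMeasure_real_singleton p0_ne]
  norm_num [p0]

theorem μ_Iic (k : ℕ) : μ.real (Set.Iic k) = 1 - (1 / 256) ^ (k + 1) := by
  induction k with
  | zero =>
    rw [show Set.Iic 0 = {0} from Set.Iic_bot, μ_single]
    norm_num
  | succ k ih =>
    rw [show Set.Iic (k + 1) = Set.Iic k ∪ {k + 1} by ext; simp; omega,
      measureReal_union (by simp) (MeasurableSet.singleton _), ih, μ_single]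
    ring

theorem box {n : ℕ} (A : Finset (Fin n)) (T : Set ℕ) :
    (Measure.pi fun _ : Fin n => μ).real {x | ∀ i ∈ A, x i ∈ T} = μ.real T ^ A.card := by
  have : {x : Fin n → ℕ | ∀ i ∈ A, x i ∈ T} = Set.pi Set.univ fun i => if i ∈ A then T else Set.univ := by
    ext x
    simp only [Set.mem_ofPred_eq, Set.mem_pi, Set.mem_univ, true_imp_iff]
    refine forall_congr' fun i => ?_
    split_ifs with h <;> simp [h]
  rw [this, measureReal_def, Measure.pi_pi, ENNReal.toReal_prod]
  simp only [apply_ite μ, measure_univ, apply_ite ENNReal.toReal, ENNReal.toReal_one]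
  rw [prod_ite_mem, univ_inter, prod_const, measureReal_def]

theorem miss {n m : ℕ} (A : Finset (Fin n)) (hA : A.card = m) (j : ℕ)
    (h : 15 ≤ m * μ.real {j}) :
    (Measure.pi fun _ : Fin n => μ).real {x | ∀ i ∈ A, x i ∈ ({j} : Set ℕ)ᶜ} ≤ 1 / 16 := by
  rw [box, hA, probReal_compl_eq_one_sub (MeasurableSet.singleton _)]
  have h0 : 0 ≤ μ.real {j} := measureReal_nonneg
  have h1 : μ.real {j} ≤ 1 := measureReal_le_one
  generalize μ.real {j} = a at *
  have h2 := one_add_mul_le_pow (show -2 ≤ a by linarith) m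
  have h3 : (1 - a) ^ m * (1 + a) ^ m ≤ 1 := by
    rw [← mul_pow]
    exact pow_le_one₀ (by nlinarith) (by nlinarith)
  have h4 : 0 ≤ (1 - a) ^ m := pow_nonneg (by linarith) _
  nlinarith

theorem integral_le {k : ℕ} (hk : 0 < k) (n : ℕ) (hn : n = 16 * 256 ^ k + 16 * 256 ^ k) :
    ∫ x : Fin n → ℕ, ∑ l ∈ (perms (Ed n)).filter (Same n), P (fun p => W (x p.1) (x p.2)) l
      ∂(Measure.pi fun _ : Fin n => μ) ≤ 11 / 16 := by
  subst hn
  set m := 16 * 256 ^ k with hm
  let A : Finset (Fin (m + m)) := univ.map (Fin.castAddEmb m)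
  let B : Finset (Fin (m + m)) := univ.map (Fin.natAddEmb m)
  have hA : A.card = m := by simp [A]
  have hB : B.card = m := by simp [B]
  have hAB : ∀ a ∈ A, ∀ b ∈ B, a ≠ b := by
    intro a ha b hb h
    obtain ⟨i, -, rfl⟩ := mem_map.1 ha
    obtain ⟨j, -, hj⟩ := mem_map.1 hb
    have := congrArg Fin.val (h.trans hj.symm)
    simp at this
    omega
  let S : Finset (Fin (m + m)) → Set ℕ → Set (Fin (m + m) → ℕ) := fun A T => {x | ∀ i ∈ A, x i ∈ T}
  let bad := (S univ (Set.Iic k))ᶜ ∪ S A {k}ᶜ ∪ S B {k}ᶜ ∪ S A {0}ᶜ ∪ S B {0}ᶜ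
  have hm' : (m : ℝ) * (1 / 256) ^ k = 16 := by
    rw [hm]
    push_cast
    rw [mul_assoc, ← mul_pow]
    norm_num
  have e1 : 15 ≤ m * μ.real {k} := by
    rw [μ_single, ← mul_assoc, hm']
    norm_num
  have e0 : 15 ≤ m * μ.real {0} := by
    rw [μ_single, hm]
    push_cast
    have : (1 : ℝ) ≤ 256 ^ k := one_le_pow₀ (by norm_num)
    linarith
  have hbad : (Measure.pi fun _ : Fin (m + m) => μ).real bad ≤ 3 / 8 := by
    have b1 : (Measure.pi fun _ : Fin (m + m) => μ).real (S univ (Set.Iic k))ᶜ ≤ 1 / 8 := by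
      rw [probReal_compl_eq_one_sub MeasurableSet.of_discrete, box, μ_Iic, card_univ,
        Fintype.card_fin]
      have h1 : (1 / 256 : ℝ) ^ (k + 1) ≤ 1 := pow_le_one₀ (by norm_num) (by norm_num)
      have := one_add_mul_le_pow (show -2 ≤ -(1 / 256 : ℝ) ^ (k + 1) by linarith) (m + m)
      push_cast at this
      rw [pow_succ] at this ⊢
      rw [← sub_eq_add_neg] at this
      nlinarith
    have b2 := miss A hA k e1
    have b3 := miss B hB k e1
    have b4 := miss A hA 0 e0
    have b5 := miss B hB 0 e0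
    refine (measureReal_union_le _ _).trans ?_
    refine (add_le_add_left (measureReal_union_le _ _) _).trans ?_
    refine (add_le_add_left (add_le_add_left (measureReal_union_le _ _) _) _).trans ?_
    refine (add_le_add_left (add_le_add_left (add_le_add_left (measureReal_union_le _ _) _) _)
      _).trans ?_
    linarith
  have hw : ∀ x : Fin (m + m) → ℕ, ∀ p : Fin (m + m) × Fin (m + m), 0 < W (x p.1) (x p.2) :=
    fun _ _ => W_pos _ _
  have hi : Integrable (bad.indicator fun _ => (1 / 2 : ℝ)) (Measure.pi fun _ => μ) :=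
    (integrable_const _).indicator MeasurableSet.of_discrete
  calc _ ≤ ∫ x, (1 / 2 + bad.indicator (fun _ => (1 / 2 : ℝ)) x) ∂(Measure.pi fun _ => μ) := by
        refine integral_mono_of_nonneg (Filter.Eventually.of_forall fun x =>
          sum_nonneg fun l _ => P_nonneg (hw x) l) ((integrable_const _).add hi)
          (Filter.Eventually.of_forall fun x => ?_)
        by_cases hx : x ∈ bad
        · simp only [Set.indicator_of_mem hx]
          refine (sum_le_sum_of_subset_of_nonneg (filter_subset _ _)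
            fun l _ _ => P_nonneg (hw x) l).trans ?_
          rw [total (hw x)]
          norm_num
        · simp only [Set.indicator_of_notMem hx, add_zero]
          simp only [bad, S, Set.mem_union, Set.mem_compl_iff, Set.mem_ofPred_eq, not_or, not_not,
            not_forall, Set.mem_singleton_iff, Set.mem_Iic] at hx
          obtain ⟨⟨⟨⟨h1, a, ha, h2⟩, a', ha', h3⟩, b, hb, h4⟩, b', hb', h5⟩ := hx
          exact inner_le hk rfl x (fun i => not_not.1 fun h => h1 ⟨i, mem_univ _, h⟩) (hAB _ ha _ ha') (hAB _ hb _ hb')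
            h2 h3 (by omega) (by omega)
    _ ≤ _ := by
        rw [integral_add (integrable_const _) hi, integral_indicator_const _ MeasurableSet.of_discrete]
        simp only [integral_const, probReal_univ, smul_eq_mul]
        linarith

theorem conn (A : Set ℕ) (h0 : 0 < μ A) (h1 : μ A < 1) :
    0 < ∫ p in A ×ˢ Aᶜ, W p.1 p.2 ∂(μ.prod μ) := by
  rw [integral_pos_iff_support_of_nonneg (fun p => (W_pos _ _).le)]
  · rw [show Function.support (fun p : ℕ × ℕ => W p.1 p.2) = Set.univ from
      Set.eq_univ_of_forall fun p => (W_pos _ _).ne', Measure.restrict_apply_univ, Measure.prod_prod,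
      prob_compl_eq_one_sub MeasurableSet.of_discrete]
    exact ENNReal.mul_pos h0.ne' (tsub_pos_of_lt h1).ne'
  · refine Integrable.of_bound Measurable.of_discrete.aestronglyMeasurable 1
      (Filter.Eventually.of_forall fun p => ?_)
    rw [Real.norm_of_nonneg (W_pos _ _).le]
    exact W_le _ _

theorem main : ¬ Filter.Tendsto (fun n : ℕ => ∫ x : Fin n → ℕ,
    ∑ l ∈ (perms (Ed n)).filter (Same n), P (fun p => W (x p.1) (x p.2)) l
      ∂(Measure.pi fun _ : Fin n => μ)) Filter.atTop (nhds 1) := by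
  intro h
  obtain ⟨N, hN⟩ := Filter.eventually_atTop.1 (h.eventually (lt_mem_nhds (show (11 / 16 : ℝ) < 1 by
    norm_num)))
  have h1 : N + 1 < 256 ^ (N + 1) := Nat.lt_pow_self (by norm_num)
  exact absurd (hN _ (by omega)) (not_lt.2 (integral_le N.succ_pos _ rfl))

end Pool.Agent.H32.HitT
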