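import Mathlib

namespace Pool.Agent.H32.Inter
open Finset Classical

variable {ι P : Type*}

noncomputable def W (mem : ι → P → Prop) (w : ι → ℝ) (U : Finset ι) (x : P) : ℝ :=
  ∑ u ∈ U, if mem u x then w u else 0

noncomputable def miss (mem : ι → P → Prop) (U : Finset ι) (y : P) : ℕ :=
  (U.filter (fun u => ¬ mem u y)).card

noncomputable def al (mem : ι → P → Prop) (U : Finset ι) (T : Finset P) : ℕ :=
  ∑ y ∈ T, miss mem U y

lemma W_nonneg (mem : ι → P → Prop) (w : ι → ℝ) (hw : ∀ u, 0 ≤ w u) (U : Finset ι) (x : P) :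
    0 ≤ W mem w U x := by
  unfold W
  refine sum_nonneg fun u _ => ?_
  split_ifs
  · exact hw u
  · exact le_rfl

lemma miss_pos (mem : ι → P → Prop) (w : ι → ℝ) (hw : ∀ u, 0 ≤ w u) (U : Finset ι) (x y : P)
    (h : W mem w U y < W mem w U x) : 1 ≤ miss mem U y := by
  by_contra hc
  have h0 : miss mem U y = 0 := by omega
  unfold miss at h0
  rw [card_eq_zero, filter_eq_empty_iff] at h0
  have : W mem w U x ≤ W mem w U y := by
    unfold W
    refine sum_le_sum fun u hu => ?_
    have := h0 hu
    rw [not_not] at this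
    rw [if_pos this]
    split_ifs
    · exact le_rfl
    · exact hw u
  linarith

lemma W_erase (mem : ι → P → Prop) (w : ι → ℝ) (U : Finset ι) (u : ι) (hu : u ∈ U) (x : P) :
    W mem w U x = (if mem u x then w u else 0) + W mem w (U.erase u) x := by
  unfold W
  rw [add_sum_erase U (fun u => if mem u x then w u else 0) hu]

lemma miss_erase_mem (mem : ι → P → Prop) (U : Finset ι) (u : ι) (y : P) (h : mem u y) :
    miss mem (U.erase u) y = miss mem U y := by
  unfold miss
  congr 1
  ext v
  simp only [mem_filter, mem_erase]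
  constructor
  · rintro ⟨⟨_, h2⟩, h3⟩; exact ⟨h2, h3⟩
  · rintro ⟨h2, h3⟩
    refine ⟨⟨?_, h2⟩, h3⟩
    rintro rfl
    exact h3 h

lemma miss_erase_not (mem : ι → P → Prop) (U : Finset ι) (u : ι) (hu : u ∈ U) (y : P)
    (h : ¬ mem u y) : miss mem (U.erase u) y + 1 = miss mem U y := by
  unfold miss
  have : (U.erase u).filter (fun v => ¬ mem v y) = (U.filter (fun v => ¬ mem v y)).erase u := by
    ext v
    simp only [mem_filter, mem_erase]
    tauto
  rw [this, card_erase_add_one]
  simp [hu, h]

lemma al_pos (mem : ι → P → Prop) (w : ι → ℝ) (hw : ∀ u, 0 ≤ w u) (U : Finset ι) (T : Finset P)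
    (x y : P) (hy : y ∈ T) (h : W mem w U y < W mem w U x) : 1 ≤ al mem U T := by
  unfold al
  exact le_trans (miss_pos mem w hw U x y h)
    (single_le_sum (f := fun y => miss mem U y) (fun _ _ => Nat.zero_le _) hy)

theorem inter (mem : ι → P → Prop) (w : ι → ℝ) (hw : ∀ u, 0 ≤ w u) (R : P → P → Prop) (B : ℕ) :
    ∀ (n : ℕ) (U : Finset ι), U.card = n → ∀ (S T : Finset P),
      (∀ S' ⊆ S, (∀ x ∈ S', ∀ x' ∈ S', x ≠ x' → R x x') → S'.card ≤ B) →
      (∀ x ∈ S, ∀ y ∈ T, W mem w U y < W mem w U x) →
      (∀ x ∈ S, ∀ x' ∈ S, x ≠ x' → R x x' ∨ ∃ y ∈ T, ∀ u ∈ U, mem u x → mem u x' → mem u y) →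
      S.card ≤ max 1 (al mem U T) * B := by
  intro n
  induction n using Nat.strong_induction_on with
  | _ n ih =>
  intro U hU S T hB hW hC
  rcases T.eq_empty_or_nonempty with rfl | hT
  · have : S.card ≤ B := hB S subset_rfl (fun x hx x' hx' hne => by
      rcases hC x hx x' hx' hne with h | ⟨y, hy, _⟩
      · exact h
      · simp at hy)
    exact le_trans this (Nat.le_mul_of_pos_left _ (by omega))
  rcases S.eq_empty_or_nonempty with rfl | hS
  · simp
  obtain ⟨x0, hx0⟩ := hS
  obtain ⟨y0, hy0⟩ := hT
  have ha1 : 1 ≤ al mem U T := al_pos mem w hw U T x0 y0 hy0 (hW x0 hx0 y0 hy0)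
  rw [max_eq_right ha1]
  by_cases hA : ∃ u ∈ U, ∀ y ∈ T, ¬ mem u y
  · obtain ⟨u, hu, hun⟩ := hA
    have h1 : (S.filter (fun x => mem u x)).card ≤ B := by
      refine hB _ (filter_subset _ _) fun x hx x' hx' hne => ?_
      rw [mem_filter] at hx hx'
      rcases hC x hx.1 x' hx'.1 hne with h | ⟨y, hy, h⟩
      · exact h
      · exact absurd (h u hu hx.2 hx'.2) (hun y hy)
    have hW' : ∀ x ∈ S.filter (fun x => ¬ mem u x), ∀ y ∈ T,
        W mem w (U.erase u) y < W mem w (U.erase u) x := by
      intro x hx y hy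
      rw [mem_filter] at hx
      have e1 := W_erase mem w U u hu x
      have e2 := W_erase mem w U u hu y
      rw [if_neg hx.2] at e1
      rw [if_neg (hun y hy)] at e2
      have := hW x hx.1 y hy
      linarith
    have h2 := ih (U.erase u).card (by rw [card_erase_of_mem hu]; have := card_pos.2 ⟨u, hu⟩; omega)
      (U.erase u) rfl (S.filter (fun x => ¬ mem u x)) T
      (fun S' hS' h => hB S' (hS'.trans (filter_subset _ _)) h) hW'
      (fun x hx x' hx' hne => by
        rw [mem_filter] at hx hx'
        rcases hC x hx.1 x' hx'.1 hne with h | ⟨y, hy, h⟩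
        · exact Or.inl h
        · exact Or.inr ⟨y, hy, fun v hv => h v (mem_of_mem_erase hv)⟩)
    have hal : al mem (U.erase u) T + T.card = al mem U T := by
      unfold al
      rw [card_eq_sum_ones, ← sum_add_distrib]
      exact sum_congr rfl fun y hy => miss_erase_not mem U u hu y (hun y hy)
    have hTc : 1 ≤ T.card := card_pos.2 ⟨y0, hy0⟩
    have hsplit : (S.filter (fun x => mem u x)).card + (S.filter (fun x => ¬ mem u x)).card
        = S.card := card_filter_add_card_filter_not _
    rcases (S.filter (fun x => ¬ mem u x)).eq_empty_or_nonempty with he | ⟨x1, hx1⟩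
    · rw [he, card_empty] at hsplit
      have : B ≤ al mem U T * B := Nat.le_mul_of_pos_left _ (by omega)
      omega
    · have ha2 : 1 ≤ al mem (U.erase u) T := al_pos mem w hw _ T x1 y0 hy0 (hW' x1 hx1 y0 hy0)
      rw [max_eq_right ha2] at h2
      have : (al mem (U.erase u) T + 1) * B ≤ al mem U T * B :=
        Nat.mul_le_mul_right _ (by omega)
      rw [add_mul, one_mul] at this
      omega
  · push Not at hA
    have key : ∀ u ∈ U, ((S.filter (fun x => mem u x)).card : ℝ) ≤
        (∑ y ∈ T, if mem u y then (miss mem U y : ℝ) else 0) * B := by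
      intro u hu
      have hW' : ∀ x ∈ S.filter (fun x => mem u x), ∀ y ∈ T.filter (fun y => mem u y),
          W mem w (U.erase u) y < W mem w (U.erase u) x := by
        intro x hx y hy
        rw [mem_filter] at hx hy
        have e1 := W_erase mem w U u hu x
        have e2 := W_erase mem w U u hu y
        rw [if_pos hx.2] at e1
        rw [if_pos hy.2] at e2
        have := hW x hx.1 y hy.1
        linarith
      have h2 := ih (U.erase u).card
        (by rw [card_erase_of_mem hu]; have := card_pos.2 ⟨u, hu⟩; omega)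
        (U.erase u) rfl (S.filter (fun x => mem u x)) (T.filter (fun y => mem u y))
        (fun S' hS' h => hB S' (hS'.trans (filter_subset _ _)) h) hW'
        (fun x hx x' hx' hne => by
          rw [mem_filter] at hx hx'
          rcases hC x hx.1 x' hx'.1 hne with h | ⟨y, hy, h⟩
          · exact Or.inl h
          · exact Or.inr ⟨y, mem_filter.2 ⟨hy, h u hu hx.2 hx'.2⟩,
              fun v hv => h v (mem_of_mem_erase hv)⟩)
      obtain ⟨y1, hy1, hy1u⟩ := hA u hu
      have e : al mem (U.erase u) (T.filter (fun y => mem u y)) =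
          ∑ y ∈ T, if mem u y then miss mem U y else 0 := by
        unfold al
        rw [← sum_filter]
        exact sum_congr rfl fun y hy => miss_erase_mem mem U u y (mem_filter.1 hy).2
      have ha2 : 1 ≤ al mem (U.erase u) (T.filter (fun y => mem u y)) := by
        rw [e]
        refine le_trans ?_ (single_le_sum (f := fun y => if mem u y then miss mem U y else 0)
          (fun _ _ => Nat.zero_le _) hy1)
        simp only [if_pos hy1u]
        exact miss_pos mem w hw U x0 y1 (hW x0 hx0 y1 hy1)
      rw [max_eq_right ha2, e] at h2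
      have h3 : ((S.filter (fun x => mem u x)).card : ℝ) ≤
          ((((∑ y ∈ T, if mem u y then miss mem U y else 0) * B : ℕ)) : ℝ) := by exact_mod_cast h2
      push_cast at h3
      exact h3
    obtain ⟨ym, hym, hmax⟩ := exists_max_image T (W mem w U) ⟨y0, hy0⟩
    set s := W mem w U ym with hs
    have hs0 : 0 ≤ s := W_nonneg mem w hw U ym
    have hL : s * S.card < ∑ x ∈ S, W mem w U x := by
      have : ∑ _x ∈ S, s < ∑ x ∈ S, W mem w U x :=
        sum_lt_sum_of_nonempty ⟨x0, hx0⟩ fun x hx => hW x hx ym hym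
      rw [sum_const, nsmul_eq_mul, mul_comm] at this
      exact this
    have hE : ∑ x ∈ S, W mem w U x = ∑ u ∈ U, w u * (S.filter (fun x => mem u x)).card := by
      unfold W
      rw [sum_comm]
      refine sum_congr rfl fun u _ => ?_
      rw [← sum_filter, sum_const, nsmul_eq_mul, mul_comm]
    have hR : ∑ u ∈ U, w u * (S.filter (fun x => mem u x)).card ≤
        (∑ y ∈ T, (miss mem U y : ℝ) * W mem w U y) * B := by
      calc ∑ u ∈ U, w u * (S.filter (fun x => mem u x)).card
          ≤ ∑ u ∈ U, w u * ((∑ y ∈ T, if mem u y then (miss mem U y : ℝ) else 0) * B) :=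
            sum_le_sum fun u hu => mul_le_mul_of_nonneg_left (key u hu) (hw u)
        _ = (∑ u ∈ U, ∑ y ∈ T, (miss mem U y : ℝ) * if mem u y then w u else 0) * B := by
            rw [sum_mul]
            refine sum_congr rfl fun u _ => ?_
            rw [← mul_assoc, mul_sum]
            congr 1
            refine sum_congr rfl fun y _ => ?_
            split_ifs <;> ring
        _ = (∑ y ∈ T, (miss mem U y : ℝ) * W mem w U y) * B := by
            rw [sum_comm]
            congr 1
            refine sum_congr rfl fun y _ => ?_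
            unfold W
            rw [mul_sum]
    have hR2 : (∑ y ∈ T, (miss mem U y : ℝ) * W mem w U y) ≤ s * al mem U T := by
      unfold al
      push_cast
      rw [mul_sum]
      refine sum_le_sum fun y hy => ?_
      rw [mul_comm]
      exact mul_le_mul_of_nonneg_right (hmax y hy) (Nat.cast_nonneg _)
    have hfin : s * S.card < s * (al mem U T * B) := by
      have : (∑ y ∈ T, (miss mem U y : ℝ) * W mem w U y) * B ≤ s * al mem U T * B :=
        mul_le_mul_of_nonneg_right hR2 (Nat.cast_nonneg _)
      rw [mul_assoc] at this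
      linarith
    have := lt_of_mul_lt_mul_left hfin hs0
    have h4 : S.card < al mem U T * B := by exact_mod_cast this
    exact h4.le

lemma al_le (mem : ι → P → Prop) (U : Finset ι) (T : Finset P) : al mem U T ≤ U.card * T.card := by
  unfold al
  rw [mul_comm, ← smul_eq_mul]
  exact sum_le_card_nsmul _ _ _ fun y _ => card_filter_le _ _

/-- Two-weight intersection lemma. -/
theorem two {κ : Type*} (m1 : ι → P → Prop) (w1 : ι → ℝ) (hw1 : ∀ u, 0 ≤ w1 u) (U1 : Finset ι)
    (m2 : κ → P → Prop) (w2 : κ → ℝ) (hw2 : ∀ u, 0 ≤ w2 u) (U2 : Finset κ) (S T : Finset P)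
    (hW : ∀ x ∈ S, ∀ y ∈ T, W m1 w1 U1 y < W m1 w1 U1 x ∨ W m2 w2 U2 y < W m2 w2 U2 x)
    (hC : ∀ x ∈ S, ∀ x' ∈ S, x ≠ x' → ∃ y ∈ T, (∀ u ∈ U1, m1 u x → m1 u x' → m1 u y) ∧
      (∀ u ∈ U2, m2 u x → m2 u x' → m2 u y)) :
    S.card ≤ (T.card + 1) * ((1 + U1.card * T.card) * (1 + U2.card * T.card)) := by
  set cl : P → Finset P := fun x => T.filter (fun y => W m1 w1 U1 y < W m1 w1 U1 x) with hcl
  have hfib : ∀ j ∈ range (T.card + 1), (S.filter (fun x => (cl x).card = j)).card ≤
      (1 + U1.card * T.card) * (1 + U2.card * T.card) := by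
    intro j _
    rcases (S.filter (fun x => (cl x).card = j)).eq_empty_or_nonempty with he | ⟨x0, hx0⟩
    · rw [he]; simp
    set Sj := S.filter (fun x => (cl x).card = j) with hSj
    have hsame : ∀ x ∈ Sj, cl x = cl x0 := by
      intro x hx
      have e1 := (mem_filter.1 hx).2
      have e2 := (mem_filter.1 hx0).2
      rcases le_total (W m1 w1 U1 x) (W m1 w1 U1 x0) with h | h
      · refine eq_of_subset_of_card_le ?_ (by omega)
        intro y hy
        simp only [hcl, mem_filter] at hy ⊢
        exact ⟨hy.1, lt_of_lt_of_le hy.2 h⟩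
      · symm
        refine eq_of_subset_of_card_le ?_ (by omega)
        intro y hy
        simp only [hcl, mem_filter] at hy ⊢
        exact ⟨hy.1, lt_of_lt_of_le hy.2 h⟩
    set Ta := cl x0 with hTa
    set Tb := T \ Ta with hTb
    have h1 := inter m1 w1 hw1
      (fun x x' => ∃ y ∈ Tb, ∀ u ∈ U2, m2 u x → m2 u x' → m2 u y) (1 + U2.card * T.card)
      _ U1 rfl Sj Ta ?_ ?_ ?_
    · refine le_trans h1 (Nat.mul_le_mul_right _ ?_)
      have := al_le m1 U1 Ta
      have h2 : Ta.card ≤ T.card := card_filter_le _ _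
      have h3 : U1.card * Ta.card ≤ U1.card * T.card := Nat.mul_le_mul_left _ h2
      omega
    · intro S' hS' hR
      have h2 := inter m2 w2 hw2 (fun _ _ => False) 1 _ U2 rfl S' Tb ?_ ?_ ?_
      · have := al_le m2 U2 Tb
        have h4 : Tb.card ≤ T.card := card_le_card sdiff_subset
        have h3 : U2.card * Tb.card ≤ U2.card * T.card := Nat.mul_le_mul_left _ h4
        omega
      · intro S'' _ h
        rw [card_le_one]
        intro a ha b hb
        by_contra hne
        exact h a ha b hb hne
      · intro x hx y hy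
        have hxj := hS' hx
        rw [hTb, mem_sdiff] at hy
        rcases hW x (mem_filter.1 hxj).1 y hy.1 with h | h
        · exfalso
          apply hy.2
          rw [← hsame x hxj]
          simp only [hcl, mem_filter]
          exact ⟨hy.1, h⟩
        · exact h
      · intro x hx x' hx' hne
        exact Or.inr (hR x hx x' hx' hne)
    · intro x hx y hy
      rw [← hsame x hx] at hy
      exact (mem_filter.1 hy).2
    · intro x hx x' hx' hne
      obtain ⟨y, hy, h1, h2⟩ := hC x (mem_filter.1 hx).1 x' (mem_filter.1 hx').1 hne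
      by_cases hya : y ∈ Ta
      · exact Or.inr ⟨y, hya, h1⟩
      · exact Or.inl ⟨y, mem_sdiff.2 ⟨hy, hya⟩, h2⟩
  have hmap : ∀ x ∈ S, (cl x).card ∈ range (T.card + 1) := by
    intro x _
    rw [mem_range]
    exact Nat.lt_succ_of_le (card_filter_le _ _)
  rw [card_eq_sum_card_fiberwise hmap]
  have := sum_le_card_nsmul _ _ _ hfib
  rw [card_range, smul_eq_mul] at this
  exact this

/-- Increments of a finite set of positive integers. -/
lemma incr (V : Finset ℤ) : (∀ v ∈ V, 1 ≤ v) → ∃ δ : ℤ → ℝ, (∀ v, 0 ≤ δ v) ∧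
    (∀ z : ℤ, 0 ≤ z → (∑ v ∈ V, if v ≤ z then δ v else 0) ≤ z) ∧
    (∀ z : ℤ, (z = 0 ∨ z ∈ V) → (∑ v ∈ V, if v ≤ z then δ v else 0) = z) := by
  induction V using Finset.induction_on_max with
  | empty => 
    intro _
    refine ⟨fun _ => 0, fun _ => le_rfl, fun z hz => by simpa using hz, fun z hz => ?_⟩
    rcases hz with rfl | hz
    · simp
    · simp at hz
  | insert a V ha ih =>
    intro hV
    obtain ⟨δ, h0, h1, h2⟩ := ih (fun v hv => hV v (mem_insert_of_mem hv))
    have haV : a ∉ V := fun h => lt_irrefl _ (ha a h)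
    have ha1 : 1 ≤ a := hV a (mem_insert_self _ _)
    have hfull : ∀ z, a ≤ z → (∑ v ∈ V, if v ≤ z then δ v else 0) = ∑ v ∈ V, δ v :=
      fun z hz => sum_congr rfl fun v hv => if_pos (le_trans (ha v hv).le hz)
    have hle : ∑ v ∈ V, δ v ≤ a := by
      rw [← hfull a le_rfl]; exact h1 a (by omega)
    have hsum : ∀ z, (∑ v ∈ insert a V, if v ≤ z then
        (fun v => if v = a then (a : ℝ) - ∑ v ∈ V, δ v else δ v) v else 0) =
        (if a ≤ z then (a : ℝ) - ∑ v ∈ V, δ v else 0) + ∑ v ∈ V, if v ≤ z then δ v else 0 := by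
      intro z
      rw [sum_insert haV]
      simp only [if_true]
      congr 1
      refine sum_congr rfl fun v hv => ?_
      rw [if_neg (ha v hv).ne]
    refine ⟨fun v => if v = a then (a : ℝ) - ∑ v ∈ V, δ v else δ v, ?_, ?_, ?_⟩
    · intro v
      dsimp only
      split_ifs
      · linarith
      · exact h0 v
    · intro z hz
      rw [hsum]
      split_ifs with h
      · rw [hfull z h]
        have : (a : ℝ) ≤ z := by exact_mod_cast h
        linarith
      · rw [zero_add]; exact h1 z hz
    · intro z hz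
      rw [hsum]
      rcases hz with rfl | hz
      · rw [if_neg (by omega), zero_add]; exact h2 0 (Or.inl rfl)
      · rcases mem_insert.1 hz with rfl | hz
        · rw [if_pos le_rfl, hfull z le_rfl]; ring
        · rw [if_neg (not_le.2 (ha z hz)), zero_add]; exact h2 z (Or.inr hz)

end Pool.Agent.H32.Inter
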