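import Mathlib

/-! Second order jets in two directions, and a surface with no conformal curvature coordinates. -/

namespace Pool.Agent.H32.Jet2

open Filter Topology

noncomputable def D (e : ℝ × ℝ) (f : ℝ × ℝ → ℝ) : ℝ × ℝ → ℝ := fun w => fderiv ℝ f w e

variable {e1 e2 w0 : ℝ × ℝ}

theorem D_congr {f g : ℝ × ℝ → ℝ} (h : f =ᶠ[𝓝 w0] g) (e : ℝ × ℝ) : D e f =ᶠ[𝓝 w0] D e g :=
  (h.fderiv (𝕜 := ℝ)).mono fun w hw => by simp only [D, hw]

theorem D_smooth {f : ℝ × ℝ → ℝ} {n : ℕ} (h : ContDiffAt ℝ (n + 1 : ℕ) f w0) (e : ℝ × ℝ) :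
    ContDiffAt ℝ n (D e f) w0 :=
  (h.fderiv_right (m := n) (by push_cast; exact le_rfl)).clm_apply contDiffAt_const

theorem D_mul {f g : ℝ × ℝ → ℝ} {w : ℝ × ℝ} (hf : DifferentiableAt ℝ f w)
    (hg : DifferentiableAt ℝ g w) (e : ℝ × ℝ) :
    D e (fun z => f z * g z) w = D e f w * g w + f w * D e g w := by
  simp only [D]
  rw [fderiv_fun_mul hf hg]
  simp
  ring

theorem D_add {f g : ℝ × ℝ → ℝ} {w : ℝ × ℝ} (hf : DifferentiableAt ℝ f w)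
    (hg : DifferentiableAt ℝ g w) (e : ℝ × ℝ) :
    D e (fun z => f z + g z) w = D e f w + D e g w := by
  simp only [D]
  rw [fderiv_fun_add hf hg]
  simp

theorem ev_diff {f : ℝ × ℝ → ℝ} (h : ContDiffAt ℝ 2 f w0) :
    ∀ᶠ w in 𝓝 w0, DifferentiableAt ℝ f w :=
  (h.eventually (by simp)).mono fun _ hw => hw.differentiableAt (by simp)

theorem diff1 {f : ℝ × ℝ → ℝ} (h : ContDiffAt ℝ 2 f w0) (e : ℝ × ℝ) :
    DifferentiableAt ℝ (D e f) w0 :=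
  (D_smooth (n := 1) h e).differentiableAt (by simp)

theorem DD_mul {f g : ℝ × ℝ → ℝ} (hf : ContDiffAt ℝ 2 f w0) (hg : ContDiffAt ℝ 2 g w0)
    (a b : ℝ × ℝ) : D b (D a (fun z => f z * g z)) w0 = D b (D a f) w0 * g w0 +
      D a f w0 * D b g w0 + (D b f w0 * D a g w0 + f w0 * D b (D a g) w0) := by
  have h1 : D a (fun z => f z * g z) =ᶠ[𝓝 w0] fun w => D a f w * g w + f w * D a g w := by
    filter_upwards [ev_diff hf, ev_diff hg] with w h1 h2 using D_mul h1 h2 a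
  have hf1 := (ev_diff hf).self_of_nhds
  have hg1 := (ev_diff hg).self_of_nhds
  rw [(D_congr h1 b).self_of_nhds, D_add ((diff1 hf a).fun_mul hg1) (hf1.fun_mul (diff1 hg a)),
    D_mul (diff1 hf a) hg1, D_mul hf1 (diff1 hg a)]

theorem DD_add {f g : ℝ × ℝ → ℝ} (hf : ContDiffAt ℝ 2 f w0) (hg : ContDiffAt ℝ 2 g w0)
    (a b : ℝ × ℝ) : D b (D a (fun z => f z + g z)) w0 = D b (D a f) w0 + D b (D a g) w0 := by
  have h1 : D a (fun z => f z + g z) =ᶠ[𝓝 w0] fun w => D a f w + D a g w := by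
    filter_upwards [ev_diff hf, ev_diff hg] with w h1 h2 using D_add h1 h2 a
  rw [(D_congr h1 b).self_of_nhds, D_add (diff1 hf a) (diff1 hg a)]

theorem DD_eq {f : ℝ × ℝ → ℝ} (hf : ContDiffAt ℝ 2 f w0) (a b : ℝ × ℝ) :
    D b (D a f) w0 = fderiv ℝ (fderiv ℝ f) w0 b a := by
  have : DifferentiableAt ℝ (fderiv ℝ f) w0 :=
    (hf.fderiv_right (m := 1) (by norm_num)).differentiableAt (by simp)
  change fderiv ℝ (fun w => fderiv ℝ f w a) w0 b = _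
  rw [fderiv_clm_apply this (differentiableAt_const _)]
  simp

theorem DD_symm {f : ℝ × ℝ → ℝ} (hf : ContDiffAt ℝ 2 f w0) (a b : ℝ × ℝ) :
    D b (D a f) w0 = D a (D b f) w0 := by
  rw [DD_eq hf, DD_eq hf]
  exact hf.isSymmSndFDerivAt (by simp) b a

structure J (e1 e2 w0 : ℝ × ℝ) (f : ℝ × ℝ → ℝ) (x u v uu uv vv : ℝ) : Prop where
  sm : ContDiffAt ℝ 2 f w0
  h0 : f w0 = x
  h1 : D e1 f w0 = u
  h2 : D e2 f w0 = v
  h11 : D e1 (D e1 f) w0 = uu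
  h12 : D e2 (D e1 f) w0 = uv
  h22 : D e2 (D e2 f) w0 = vv

theorem J.mul {f g : ℝ × ℝ → ℝ} {x u v uu uv vv x' u' v' uu' uv' vv' : ℝ}
    (h : J e1 e2 w0 f x u v uu uv vv) (k : J e1 e2 w0 g x' u' v' uu' uv' vv') :
    J e1 e2 w0 (fun z => f z * g z) (x * x') (u * x' + x * u') (v * x' + x * v')
      (uu * x' + 2 * u * u' + x * uu') (uv * x' + u * v' + v * u' + x * uv')
      (vv * x' + 2 * v * v' + x * vv') := by
  obtain ⟨h, rfl, rfl, rfl, rfl, rfl, rfl⟩ := h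
  obtain ⟨k, rfl, rfl, rfl, rfl, rfl, rfl⟩ := k
  have hf1 := (ev_diff h).self_of_nhds
  have hg1 := (ev_diff k).self_of_nhds
  refine ⟨h.mul k, rfl, D_mul hf1 hg1 _, D_mul hf1 hg1 _, ?_, ?_, ?_⟩ <;> rw [DD_mul h k] <;> ring

theorem J.add {f g : ℝ × ℝ → ℝ} {x u v uu uv vv x' u' v' uu' uv' vv' : ℝ}
    (h : J e1 e2 w0 f x u v uu uv vv) (k : J e1 e2 w0 g x' u' v' uu' uv' vv') :
    J e1 e2 w0 (fun z => f z + g z) (x + x') (u + u') (v + v') (uu + uu') (uv + uv')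
      (vv + vv') := by
  obtain ⟨h, rfl, rfl, rfl, rfl, rfl, rfl⟩ := h
  obtain ⟨k, rfl, rfl, rfl, rfl, rfl, rfl⟩ := k
  have hf1 := (ev_diff h).self_of_nhds
  have hg1 := (ev_diff k).self_of_nhds
  exact ⟨h.add k, rfl, D_add hf1 hg1 _, D_add hf1 hg1 _, DD_add h k _ _, DD_add h k _ _,
    DD_add h k _ _⟩

theorem D_const (c : ℝ) (e : ℝ × ℝ) : D e (fun _ => c) = fun _ => 0 := by
  funext w
  simp [D]

theorem J.const (c : ℝ) : J e1 e2 w0 (fun _ => c) c 0 0 0 0 0 := by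
  refine ⟨contDiffAt_const, rfl, ?_, ?_, ?_, ?_, ?_⟩ <;> simp only [D_const]

theorem J.eq {f g : ℝ × ℝ → ℝ} {x u v uu uv vv x' u' v' uu' uv' vv' : ℝ}
    (h : J e1 e2 w0 f x u v uu uv vv) (k : J e1 e2 w0 g x' u' v' uu' uv' vv')
    (hfg : f =ᶠ[𝓝 w0] g) :
    x = x' ∧ u = u' ∧ v = v' ∧ uu = uu' ∧ uv = uv' ∧ vv = vv' := by
  obtain ⟨h, rfl, rfl, rfl, rfl, rfl, rfl⟩ := h
  obtain ⟨k, rfl, rfl, rfl, rfl, rfl, rfl⟩ := k
  exact ⟨hfg.self_of_nhds, (D_congr hfg _).self_of_nhds, (D_congr hfg _).self_of_nhds,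
    (D_congr (D_congr hfg _) _).self_of_nhds, (D_congr (D_congr hfg _) _).self_of_nhds,
    (D_congr (D_congr hfg _) _).self_of_nhds⟩

theorem jets {X : ℝ × ℝ → ℝ} (h : ContDiffAt ℝ 3 X w0) :
    ∃ uu uv vv uuu uuv uvv vvv, J e1 e2 w0 X (X w0) (D e1 X w0) (D e2 X w0) uu uv vv ∧
      J e1 e2 w0 (D e1 X) (D e1 X w0) uu uv uuu uuv uvv ∧
      J e1 e2 w0 (D e2 X) (D e2 X w0) uv vv uuv uvv vvv := by
  have h2 : ContDiffAt ℝ 2 X w0 := h.of_le (by norm_num)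
  have hs : D e1 (D e2 X) =ᶠ[𝓝 w0] D e2 (D e1 X) :=
    (h2.eventually (by simp)).mono fun _ hw => DD_symm hw _ _
  refine ⟨_, _, _, _, _, _, _, ⟨h2, rfl, rfl, rfl, rfl, rfl, rfl⟩,
    ⟨D_smooth (n := 2) h _, rfl, rfl, rfl, rfl, rfl, rfl⟩,
    ⟨D_smooth (n := 2) h _, rfl, hs.self_of_nhds, rfl, ?_, (D_congr hs _).self_of_nhds, rfl⟩⟩
  rw [(D_congr hs _).self_of_nhds]
  exact DD_symm (D_smooth (n := 2) h _) _ _

theorem main {X Y : ℝ × ℝ → ℝ} (hX : ContDiffAt ℝ 3 X w0) (hY : ContDiffAt ℝ 3 Y w0)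
    (hX0 : X w0 = 0) (hY0 : Y w0 = -1 / 8) (hv : D e2 Y w0 = 0) (hn : D e2 X w0 ≠ 0)
    (R1 : ∀ᶠ w in 𝓝 w0, D e1 X w * D e2 X w + D e1 Y w * D e2 Y w +
      (48 * (X w * X w) * D e1 X w + 48 * (Y w * Y w) * D e1 Y w) *
      (48 * (X w * X w) * D e2 X w + 48 * (Y w * Y w) * D e2 Y w) = 0)
    (R2 : ∀ᶠ w in 𝓝 w0, X w * (D e1 X w * D e2 X w) + Y w * (D e1 Y w * D e2 Y w) = 0)
    (R3 : ∀ᶠ w in 𝓝 w0, D e1 X w * D e1 X w + D e1 Y w * D e1 Y w +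
      (48 * (X w * X w) * D e1 X w + 48 * (Y w * Y w) * D e1 Y w) *
      (48 * (X w * X w) * D e1 X w + 48 * (Y w * Y w) * D e1 Y w) =
      D e2 X w * D e2 X w + D e2 Y w * D e2 Y w +
      (48 * (X w * X w) * D e2 X w + 48 * (Y w * Y w) * D e2 Y w) *
      (48 * (X w * X w) * D e2 X w + 48 * (Y w * Y w) * D e2 Y w)) : False := by
  obtain ⟨xuu, xuv, xvv, xuuu, xuuv, xuvv, xvvv, x, xu, xv⟩ := jets (e1 := e1) (e2 := e2) hX
  obtain ⟨yuu, yuv, yvv, yuuu, yuuv, yuvv, yvvv, y, yu, yv⟩ := jets (e1 := e1) (e2 := e2) hY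
  rw [hX0] at x
  rw [hY0, hv] at y
  rw [hv] at yv
  generalize D e1 X w0 = k at x xu
  generalize D e2 X w0 = n at x xv hn
  generalize D e1 Y w0 = m at y yu
  have p := (J.const 48).mul (x.mul x)
  have q := (J.const 48).mul (y.mul y)
  have su := (p.mul xu).add (q.mul yu)
  have sv := (p.mul xv).add (q.mul yv)
  obtain ⟨a0, a1, a2, -, -, a22⟩ := (((xu.mul xv).add (yu.mul yv)).add (su.mul sv)).eq (J.const 0) R1
  obtain ⟨-, b1, b2, b11, -, b22⟩ := ((x.mul (xu.mul xv)).add (y.mul (yu.mul yv))).eq (J.const 0) R2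
  obtain ⟨c0, -, -, -, c12, -⟩ := (((xu.mul xu).add (yu.mul yu)).add (su.mul su)).eq
    (((xv.mul xv).add (yv.mul yv)).add (sv.mul sv)) R3
  obtain rfl : k = 0 := (mul_eq_zero.1 (show k * n = 0 by linear_combination a0)).resolve_right hn
  have hm : m ≠ 0 := by
    rintro rfl
    exact hn (pow_eq_zero_iff two_ne_zero |>.1 (show n ^ 2 = 0 by linear_combination -c0))
  obtain rfl : yuv = 0 :=
    (mul_eq_zero.1 (show yuv * m = 0 by linear_combination (-8) * b1)).resolve_right hm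
  obtain rfl : yvv = 0 :=
    (mul_eq_zero.1 (show yvv * m = 0 by linear_combination (-8) * b2)).resolve_right hm
  obtain rfl : xuu = 0 :=
    (mul_eq_zero.1 (show xuu * n = 0 by linear_combination a1)).resolve_right hn
  obtain rfl : xuv = 0 :=
    (mul_eq_zero.1 (show xuv * n = 0 by linear_combination a2)).resolve_right hn
  obtain rfl : yuuv = 0 :=
    (mul_eq_zero.1 (show yuuv * m = 0 by linear_combination (-8) * b11)).resolve_right hm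
  obtain rfl : yvvv = 0 :=
    (mul_eq_zero.1 (show yvvv * m = 0 by linear_combination (-8) * b22)).resolve_right hm
  have : m * n ^ 3 = 0 := by linear_combination (1 / 144) * c12 + (1 / 72) * a22
  exact mul_ne_zero hm (pow_ne_zero 3 hn) this

end Pool.Agent.H32.Jet2
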