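import Mathlib

/-! An adequate category whose reflection does not preserve a countable product. -/

namespace Pool.Agent.H32.KRefl

open Set Filter Topology Cardinal

/-- the well-order of type `ω_(n+1)` -/
def W (n : ℕ) : Type := (ℵ_ ((n : Ordinal.{0}) + 1)).ord.ToType

noncomputable instance (n : ℕ) : LinearOrder (W n) := inferInstanceAs (LinearOrder (Ordinal.ToType _))

instance (n : ℕ) : WellFoundedLT (W n) := inferInstanceAs (WellFoundedLT (Ordinal.ToType _))

theorem card_W (n : ℕ) : #(W n) = ℵ_ ((n : Ordinal.{0}) + 1) := mk_ord_toType _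

theorem bdd {n : ℕ} {s : Set (W n)} (hs : #s < ℵ_ ((n : Ordinal.{0}) + 1)) :
    ∃ w, ∀ a ∈ s, a < w := by
  by_contra h
  push Not at h
  have h1 : (⋃ a ∈ s, Iic a) = Set.univ := eq_univ_of_forall fun w => by
    obtain ⟨a, ha, h2⟩ := h w
    exact mem_biUnion ha h2
  have h2 : #(⋃ a ∈ s, Iic a : Set (W n)) < ℵ_ ((n : Ordinal.{0}) + 1) := by
    refine (card_biUnion_lt_iff_forall_of_isRegular (t := fun a _ => Iic a)
      (isRegular_aleph_add_one _) hs).2 fun a _ => ?_
    rw [← card_W]
    refine mk_Iic_lt a ?_ (by rw [card_W]; exact aleph0_le_aleph _)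
    rw [card_W]
    exact (Ordinal.type_toType _).symm
  rw [h1, mk_univ, card_W] at h2
  exact lt_irrefl _ h2

instance (n : ℕ) : Nonempty (W n) :=
  ⟨(bdd (s := ∅) (by rw [mk_emptyCollection]; exact aleph0_pos.trans_le (aleph0_le_aleph _))).choose⟩

theorem bdd_countable {n : ℕ} {s : Set (W n)} (hs : s.Countable) : ∃ w, ∀ a ∈ s, a < w :=
  bdd ((le_aleph0_iff_set_countable.2 hs).trans_lt (by
    rw [← aleph_zero, aleph_lt_aleph]
    exact lt_of_le_of_lt zero_le (Order.lt_add_one_iff.2 le_rfl)))

theorem not_cofinal {m j : ℕ} (hne : j ≠ m) (h : W m → W j) (hh : Monotone h) :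
    ∃ b, ∀ w, h w ≤ b := by
  rcases lt_or_gt_of_ne hne with hlt | hlt
  · by_contra hn
    push Not at hn
    choose w hw using hn
    obtain ⟨v, hv⟩ := bdd (s := range w) (mk_range_le.trans_lt (by
      rw [card_W, aleph_lt_aleph]
      exact_mod_cast Nat.succ_lt_succ hlt))
    exact absurd (hh (hv _ ⟨h v, rfl⟩).le) (not_le.2 (hw _))
  · obtain ⟨v, hv⟩ := bdd (s := range h) (mk_range_le.trans_lt (by
      rw [card_W, aleph_lt_aleph]
      exact_mod_cast Nat.succ_lt_succ hlt))
    exact ⟨v, fun w => (hv _ ⟨w, rfl⟩).le⟩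

abbrev X (n : ℕ) : Type := WithUpper (W n)

abbrev R (n : ℕ) : Type := WithUpper (WithTop (W n))

def K (Y : Type) [TopologicalSpace Y] : Prop :=
  T0Space Y ∧ ∀ (n : ℕ) (f : X n → Y), Continuous f → ∃ y, closure (range f) = closure {y}

theorem irr (n : ℕ) : IsIrreducible (Set.univ : Set (X n)) := by
  refine ⟨univ_nonempty, fun U V hU hV ⟨u, _, hu⟩ ⟨v, _, hv⟩ => ⟨max u v, trivial, ?_, ?_⟩⟩
  · exact IsUpper.isUpperSet_of_isOpen hU (le_max_left u v) hu
  · exact IsUpper.isUpperSet_of_isOpen hV (le_max_right u v) hv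

theorem K_sober (Y : Type) [TopologicalSpace Y] (h0 : T0Space Y) (h : QuasiSober Y) : K Y := by
  refine ⟨h0, fun n f hf => ?_⟩
  obtain ⟨y, hy⟩ := h.sober ((irr n).image f hf.continuousOn).closure isClosed_closure
  exact ⟨y, by rw [← image_univ]; exact hy.symm⟩

theorem K_homeo (Y Z : Type) [TopologicalSpace Y] [TopologicalSpace Z] (e : Y ≃ₜ Z) (h : K Y) :
    K Z := by
  haveI := h.1
  refine ⟨e.t0Space, fun n f hf => ?_⟩
  obtain ⟨y, hy⟩ := h.2 n (e.symm ∘ f) (e.symm.continuous.comp hf)
  refine ⟨e y, ?_⟩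
  rw [← image_singleton, ← e.image_closure, ← hy, e.image_closure, ← range_comp]
  simp [Function.comp_def]

theorem eq_of_closure {Y : Type} [TopologicalSpace Y] [T0Space Y] {y z : Y}
    (h : closure {y} = closure ({z} : Set Y)) : y = z :=
  (inseparable_iff_closure_eq.2 h).eq

theorem K_adequate (Z : Type) [TopologicalSpace Z] :
    @K {A : Set Z // IsClosed A ∧ ∀ (Y : Type) [TopologicalSpace Y], K Y →
            ∀ f : Z → Y, Continuous f → ∃! y : Y, closure (f '' A) = closure {y}}
        (TopologicalSpace.generateFrom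
          {S | ∃ U : Set Z, IsOpen U ∧ S = {A | (A.1 ∩ U).Nonempty}}) := by
  set P := {A : Set Z // IsClosed A ∧ ∀ (Y : Type) [TopologicalSpace Y], K Y →
            ∀ f : Z → Y, Continuous f → ∃! y : Y, closure (f '' A) = closure {y}}
  letI : TopologicalSpace P := TopologicalSpace.generateFrom
    {S | ∃ U : Set Z, IsOpen U ∧ S = {A | (A.1 ∩ U).Nonempty}}
  have hop : ∀ U : Set Z, IsOpen U → IsOpen {A : P | (A.1 ∩ U).Nonempty} := fun U hU =>
    TopologicalSpace.isOpen_generateFrom_of_mem ⟨U, hU, rfl⟩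
  have hsp : ∀ A B : P, A ⤳ B ↔ B.1 ⊆ A.1 := by
    intro A B
    constructor
    · intro h x hx
      by_contra hxA
      obtain ⟨_, h1, h2⟩ := h.mem_open (hop _ A.2.1.isOpen_compl) ⟨x, hx, hxA⟩
      exact h2 h1
    · intro h
      rw [specializes_iff_pure]
      refine tendsto_id'.1 (TopologicalSpace.tendsto_nhds_generateFrom_iff (m := id) |>.2 ?_)
      rintro _ ⟨U, hU, rfl⟩ ⟨x, hx1, hx2⟩
      exact ⟨x, h hx1, hx2⟩
  refine ⟨⟨fun A B h => Subtype.ext (subset_antisymm ((hsp _ _).1 h.specializes')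
    ((hsp _ _).1 h.specializes))⟩, fun n F hF => ?_⟩
  have hmono : ∀ a b : X n, a ≤ b → (F a).1 ⊆ (F b).1 := fun a b h =>
    (hsp _ _).1 ((specializes_iff_mem_closure.2 (by rwa [IsUpper.closure_singleton])).map hF)
  refine ⟨⟨closure (⋃ w, (F w).1), isClosed_closure, fun Y _ hY f hf => ?_⟩, ?_⟩
  · haveI := hY.1
    choose g hg _ using fun A : P => A.2.2 Y hY f hf
    have hgc : Continuous g := by
      refine ⟨fun V hV => ?_⟩
      have : g ⁻¹' V = {A : P | (A.1 ∩ f ⁻¹' V).Nonempty} := by
        ext A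
        rw [mem_preimage, mem_ofPred_eq, ← image_inter_nonempty_iff,
          ← closure_inter_open_nonempty_iff hV, hg, closure_inter_open_nonempty_iff hV]
        simp
      rw [this]
      exact hop _ (hV.preimage hf)
    obtain ⟨y, hy⟩ := hY.2 n (g ∘ F) (hgc.comp hF)
    have key : closure (f '' closure (⋃ w, (F w).1)) = closure {y} := by
      rw [closure_image_closure hf, ← hy]
      apply subset_antisymm
      · refine closure_minimal ?_ isClosed_closure
        rintro _ ⟨x, hx, rfl⟩
        obtain ⟨w, hw⟩ := mem_iUnion.1 hx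
        have : f x ∈ closure {g (F w)} := hg _ ▸ subset_closure ⟨x, hw, rfl⟩
        exact closure_mono (singleton_subset_iff.2 (mem_range_self (f := g ∘ F) w)) this
      · refine closure_minimal ?_ isClosed_closure
        rintro _ ⟨w, rfl⟩
        have : g (F w) ∈ closure (f '' (F w).1) := hg _ ▸ subset_closure rfl
        exact closure_mono (image_mono (subset_iUnion (fun w => (F w).1) w)) this
    exact ⟨y, key, fun z hz => eq_of_closure (hz.symm.trans key)⟩
  · apply subset_antisymm
    · refine closure_minimal ?_ isClosed_closure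
      rintro _ ⟨w, rfl⟩
      exact specializes_iff_mem_closure.1 ((hsp _ _).2
        ((subset_iUnion (fun w => (F w).1) w).trans subset_closure))
    · refine closure_minimal (singleton_subset_iff.2 ?_) isClosed_closure
      refine mem_closure_of_tendsto (f := F) (b := atTop) ?_ (Eventually.of_forall mem_range_self)
      refine TopologicalSpace.tendsto_nhds_generateFrom_iff.2 ?_
      rintro _ ⟨U, hU, rfl⟩ h
      obtain ⟨x, hx1, hx2⟩ := (closure_inter_open_nonempty_iff hU).1 h
      obtain ⟨w, hw⟩ := mem_iUnion.1 hx1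
      filter_upwards [eventually_ge_atTop w] with v hv
      exact ⟨x, hmono _ _ hv hw, hx2⟩

theorem mono_of_cont {m n : ℕ} {f : X m → R n} (hf : Continuous f) : Monotone f := fun a b h => by
  have := (specializes_iff_mem_closure.2 (show a ∈ closure {b} by
    rwa [IsUpper.closure_singleton])).map hf
  rwa [specializes_iff_mem_closure, IsUpper.closure_singleton] at this

theorem exists_lim {m n : ℕ} {f : X m → R n} (hf : Continuous f) :
    ∃ y, (∀ w, f w ≤ y) ∧ Tendsto f atTop (𝓝 y) := by
  obtain ⟨y, hy1, hy2⟩ := (wellFounded_lt (α := WithTop (W n))).has_min {y | ∀ w, f w ≤ y}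
    ⟨⊤, fun _ => le_top (α := WithTop (W n))⟩
  refine ⟨y, hy1, IsUpper.tendsto_nhds_iff_lt.2 fun a ha => ?_⟩
  have : ¬ ∀ w, f w ≤ a := fun h => hy2 a h ha
  push Not at this
  obtain ⟨w, hw⟩ := this
  filter_upwards [eventually_ge_atTop w] with v hv
  exact hw.trans_le (mono_of_cont hf hv)

theorem K_R (n : ℕ) : K (R n) := by
  refine ⟨inferInstance, fun m f hf => ?_⟩
  obtain ⟨y, h1, h2⟩ := exists_lim hf
  refine ⟨y, subset_antisymm (closure_minimal ?_ isClosed_closure) (closure_minimal
    (singleton_subset_iff.2 (mem_closure_of_tendsto h2 (Eventually.of_forall mem_range_self)))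
    isClosed_closure)⟩
  rintro _ ⟨w, rfl⟩
  rw [IsUpper.closure_singleton]
  exact h1 w

def eta (n : ℕ) (w : X n) : R n := WithTop.some (α := W n) w

def top (n : ℕ) : R n := (⊤ : WithTop (W n))

theorem eta_ne (n : ℕ) (w : X n) : eta n w ≠ top n := WithTop.coe_ne_top

theorem eta_lt {n : ℕ} {a b : X n} : eta n a < eta n b ↔ a < b := WithTop.coe_lt_coe

theorem cases_R {n : ℕ} (x : R n) : x = top n ∨ ∃ w, x = eta n w := by
  induction x using WithTop.recTopCoe with
  | top => exact Or.inl rfl
  | coe w => exact Or.inr ⟨w, rfl⟩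

theorem le_top' {n : ℕ} (x : R n) : x ≤ top n := le_top (α := WithTop (W n))

theorem cont_eta (n : ℕ) : Continuous (eta n) := by
  refine continuous_iff_continuousAt.2 fun w => IsUpper.tendsto_nhds_iff_lt.2 fun a ha => ?_
  rcases cases_R a with rfl | ⟨b, rfl⟩
  · exact absurd ha (not_lt.2 (le_top' _))
  · exact (IsUpper.tendsto_nhds_iff_lt.1 tendsto_id b (eta_lt.1 ha)).mono fun v hv => eta_lt.2 hv

theorem tendsto_eta (n : ℕ) : Tendsto (eta n) atTop (𝓝 (top n)) := by
  refine IsUpper.tendsto_nhds_iff_lt.2 fun a ha => ?_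
  rcases cases_R a with rfl | ⟨b, rfl⟩
  · exact absurd ha (lt_irrefl _)
  · obtain ⟨c, hc⟩ := bdd_countable (countable_singleton b)
    filter_upwards [eventually_ge_atTop (show X n from c)] with v hv
    exact eta_lt.2 ((hc b rfl).trans_le hv)

theorem refl_R (n : ℕ) (Y : Type) [TopologicalSpace Y] (hY : K Y) (f : X n → Y)
    (hf : Continuous f) : ∃! g : R n → Y, Continuous g ∧ g ∘ eta n = f := by
  haveI := hY.1
  obtain ⟨y, hy⟩ := hY.2 n f hf
  let g : R n → Y := fun x => WithTop.recTopCoe y f x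
  have hg1 : ∀ w, g (eta n w) = f w := fun _ => rfl
  have hg2 : g (top n) = y := rfl
  refine ⟨g, ⟨⟨fun V hV => ?_⟩, rfl⟩, ?_⟩
  · have key : ∀ w, f w ∈ V → ∃ B : Set (R n), IsOpen B ∧ eta n w ∈ B ∧ B ⊆ g ⁻¹' V := by
      intro w hw
      have hyV : y ∈ V := by
        have : f w ∈ closure {y} := hy ▸ subset_closure ⟨w, rfl⟩
        exact (specializes_iff_mem_closure.2 this).mem_open hV hw
      obtain ⟨B, hB, h1, h2⟩ := IsUpper.isTopologicalBasis_insert_univ_subbasis.exists_subset_of_mem_open
        (show w ∈ f ⁻¹' V from hw) (hV.preimage hf)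
      rcases hB with rfl | ⟨a, rfl⟩
      · refine ⟨Set.univ, isOpen_univ, trivial, fun x _ => ?_⟩
        rcases cases_R x with rfl | ⟨b, rfl⟩
        · exact hyV
        · exact h2 (mem_univ b)
      · refine ⟨(Iic (eta n a))ᶜ, isClosed_Iic.isOpen_compl, ?_, fun x hx => ?_⟩
        · exact not_le.2 (eta_lt.2 (not_le.1 h1))
        · rcases cases_R x with rfl | ⟨b, rfl⟩
          · exact hyV
          · exact h2 (not_le.2 (eta_lt.1 (not_le.1 hx)))
    refine isOpen_iff_forall_mem_open.2 fun x hx => ?_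
    rcases cases_R x with rfl | ⟨b, rfl⟩
    · have : y ∈ closure (range f) := hy ▸ subset_closure rfl
      obtain ⟨_, h1, w, rfl⟩ := mem_closure_iff.1 this V hV hx
      obtain ⟨B, h2, h3, h4⟩ := key w h1
      exact ⟨B, h4, h2, IsUpper.isUpperSet_of_isOpen h2 (le_top' _) h3⟩
    · obtain ⟨B, h2, h3, h4⟩ := key b hx
      exact ⟨B, h4, h2, h3⟩
  · rintro g' ⟨h1, rfl⟩
    funext x
    rcases cases_R x with rfl | ⟨b, rfl⟩
    · rw [hg2]
      refine eq_of_closure (Eq.trans ?_ hy)
      refine subset_antisymm (closure_minimal (singleton_subset_iff.2 (mem_closure_of_tendsto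
        ((h1.tendsto _).comp (tendsto_eta n)) (Eventually.of_forall mem_range_self)))
        isClosed_closure) (closure_minimal ?_ isClosed_closure)
      rintro _ ⟨w, rfl⟩
      refine specializes_iff_mem_closure.1 (Specializes.map ?_ h1)
      rw [specializes_iff_mem_closure, IsUpper.closure_singleton]
      exact le_top' _
    · rfl

def Z : Type := {x : ∀ n, R n // {n | x n = top n}.Finite}

instance : TopologicalSpace Z := inferInstanceAs (TopologicalSpace {_x : ∀ n, R n // _})

theorem K_Z : K Z := by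
  refine ⟨inferInstanceAs (T0Space {_x : ∀ n, R n // _}), fun m f hf => ?_⟩
  have hc : ∀ j, Continuous fun w => (f w).1 j := fun j =>
    (continuous_apply j).comp (continuous_subtype_val.comp hf)
  choose y h1 h2 using fun j => exists_lim (hc j)
  have hy : {n | y n = top n}.Finite := by
    have key : ∀ j ∈ {n | y n = top n} \ {m}, ∃ w, (f w).1 j = top j := by
      intro j hj
      by_contra hn
      push Not at hn
      choose h hh using fun w => (cases_R ((f w).1 j)).resolve_left (hn w)
      obtain ⟨b, hb⟩ := not_cofinal hj.2 h fun a b hab => by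
        have := mono_of_cont (hc j) hab
        simp only [hh] at this
        exact not_lt.1 fun h3 => absurd this (not_le.2 (eta_lt.2 h3))
      have := IsUpper.tendsto_nhds_iff_lt.1 (h2 j) (eta j b)
        (by rw [hj.1]; exact lt_of_le_of_ne (le_top' _) (eta_ne _ _))
      obtain ⟨w, hw⟩ := this.exists
      rw [hh, eta_lt] at hw
      exact absurd (hb w) (not_le.2 hw)
    choose! w hw using key
    obtain ⟨v, hv⟩ := bdd_countable (countable_range w)
    refine ((f v).2.insert m).subset fun j hj => ?_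
    by_cases hjm : j = m
    · exact Or.inl hjm
    · right
      have := mono_of_cont (hc j) (hv _ ⟨j, rfl⟩).le
      simp only [hw j ⟨hj, hjm⟩] at this
      exact le_antisymm (le_top' _) this
  refine ⟨⟨y, hy⟩, subset_antisymm (closure_minimal ?_ isClosed_closure) (closure_minimal
    (singleton_subset_iff.2 (mem_closure_of_tendsto (b := atTop) (f := f) ?_
      (Eventually.of_forall mem_range_self))) isClosed_closure)⟩
  · rintro _ ⟨w, rfl⟩
    refine specializes_iff_mem_closure.1 ((subtype_specializes_iff _ _).2 (specializes_pi.2 fun j => ?_))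
    rw [specializes_iff_mem_closure, IsUpper.closure_singleton]
    exact h1 j w
  · exact tendsto_subtype_rng.2 (tendsto_pi_nhds.2 h2)

theorem main (h1 : K (∀ i, R i)) (h2 : Continuous (fun (x : ∀ i, X i) (i : ℕ) => eta i (x i)))
    (h3 : ∀ (Y : Type) [TopologicalSpace Y], K Y → ∀ f : (∀ i, X i) → Y, Continuous f →
        ∃! g : (∀ i, R i) → Y, Continuous g ∧
          g ∘ (fun (x : ∀ i, X i) (i : ℕ) => eta i (x i)) = f) : False := by
  let f : (∀ i, X i) → Z := fun x => ⟨fun i => eta i (x i), by simp [eta_ne]⟩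
  obtain ⟨g, ⟨hg1, hg2⟩, -⟩ := h3 Z K_Z f (h2.subtype_mk _)
  have h4 := (h3 _ h1 _ h2).unique (y₁ := Subtype.val ∘ g) (y₂ := id)
    ⟨continuous_subtype_val.comp hg1, funext fun x => congrArg Subtype.val (congrFun hg2 x)⟩ ⟨continuous_id, rfl⟩
  have h5 := (g top).2
  have h6 : (g top).1 = top := congrFun h4 top
  rw [h6] at h5
  simp only [ofPred_true] at h5
  exact infinite_univ h5

end Pool.Agent.H32.KRefl
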