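import Mathlib

set_option autoImplicit false

namespace Pool.Agent.H32.Lamp

open BoundedContinuousFunction

/-- shift of a finitely supported configuration -/
noncomputable def sh (j : ℤ) (c : ℤ →₀ ZMod 2) : ℤ →₀ ZMod 2 :=
  Finsupp.equivMapDomain (Equiv.subRight j) c

@[simp] theorem sh_apply (j : ℤ) (c : ℤ →₀ ZMod 2) (m : ℤ) : sh j c m = c (m + j) := by
  simp [sh]

/-- the lamplighter group -/
@[ext] structure G : Type where
  n : ℤ
  c : ℤ →₀ ZMod 2

noncomputable instance : Mul G := ⟨fun a b => ⟨a.n + b.n, sh b.n a.c + b.c⟩⟩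
noncomputable instance : One G := ⟨⟨0, 0⟩⟩
noncomputable instance : Inv G := ⟨fun a => ⟨-a.n, -sh (-a.n) a.c⟩⟩

@[simp] theorem mul_n (a b : G) : (a * b).n = a.n + b.n := rfl
@[simp] theorem mul_c (a b : G) (m : ℤ) : (a * b).c m = a.c (m + b.n) + b.c m := by
  show (sh b.n a.c + b.c) m = _
  simp
@[simp] theorem one_n : (1 : G).n = 0 := rfl
@[simp] theorem one_c (m : ℤ) : (1 : G).c m = 0 := rfl
@[simp] theorem inv_n (a : G) : (a⁻¹).n = -a.n := rfl
@[simp] theorem inv_c (a : G) (m : ℤ) : (a⁻¹).c m = - a.c (m - a.n) := by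
  show (-sh (-a.n) a.c) m = _
  simp [sub_eq_add_neg]

noncomputable instance : Group G := Group.ofLeftAxioms
  (by
    intro a b c
    ext m
    · simp [add_assoc]
    · simp [add_assoc, add_comm, add_left_comm])
  (by
    intro a
    ext m
    · simp
    · simp)
  (by
    intro a
    ext m
    · simp
    · rw [mul_c, inv_c]
      simp only [add_sub_cancel_right, neg_add_cancel, one_c])

instance : Countable G :=
  Function.Injective.countable (f := fun a : G => (a.n, a.c)) (by
    intro a b h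
    simp only [Prod.mk.injEq] at h
    exact G.ext h.1 h.2)

def V (M : ℤ) : Set (ℤ →₀ ZMod 2) := {c | ∀ m, M < |m| → c m = 0}

theorem V_finite (M : ℤ) : (V M).Finite := by
  have : Finite (Set.Icc (-M) M) := (Set.finite_Icc _ _).to_subtype
  refine Set.Finite.of_injOn (f := fun c : ℤ →₀ ZMod 2 => fun m : Set.Icc (-M) M => c m)
    (t := Set.univ) (fun _ _ => trivial) ?_ Set.finite_univ
  intro c hc d hd h
  ext m
  by_cases hm : M < |m|
  · rw [hc m hm, hd m hm]
  · have : m ∈ Set.Icc (-M) M := by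
      push Not at hm
      exact abs_le.mp hm
    exact congrFun h ⟨m, this⟩

def box (D : Finset ℤ) (M : ℤ) : Set G := {k | k.n ∈ D ∧ k.c ∈ V M}

theorem box_eq (D : Finset ℤ) (M : ℤ) :
    box D M = (fun p : ℤ × (ℤ →₀ ZMod 2) => (⟨p.1, p.2⟩ : G)) '' ((D : Set ℤ) ×ˢ V M) := by
  ext k
  constructor
  · rintro ⟨h1, h2⟩
    exact ⟨(k.n, k.c), ⟨h1, h2⟩, rfl⟩
  · rintro ⟨p, ⟨h1, h2⟩, rfl⟩
    exact ⟨h1, h2⟩

theorem box_finite (D : Finset ℤ) (M : ℤ) : (box D M).Finite := by
  rw [box_eq]
  exact (D.finite_toSet.prod (V_finite M)).image _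

theorem box_ncard (D : Finset ℤ) (M : ℤ) : (box D M).ncard = D.card * (V M).ncard := by
  rw [box_eq, Set.ncard_image_of_injective, Set.ncard_prod, Set.ncard_coe_finset]
  intro p q h
  simp only [G.mk.injEq] at h
  exact Prod.ext h.1 h.2

theorem folner (F : Finset G) (ε : ℝ) (hε : 0 < ε) : ∃ A : Set G, A.Finite ∧ A.Nonempty ∧
    ∀ g ∈ F, ((symmDiff ((fun x => g * x) '' A) A).ncard : ℝ) < ε * (A.ncard : ℝ) := by
  classical
  obtain ⟨J, hJ⟩ : ∃ J : ℕ, ∀ g ∈ F, |g.n| ≤ J ∧ ∀ m, (J : ℤ) < |m| → g.c m = 0 := by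
    refine ⟨F.sup (fun g => g.n.natAbs) + F.sup (fun g => g.c.support.sup Int.natAbs), ?_⟩
    intro g hg
    have h1 : g.n.natAbs ≤ F.sup (fun g => g.n.natAbs) := Finset.le_sup (f := fun g : G => g.n.natAbs) hg
    have h2 : g.c.support.sup Int.natAbs ≤ F.sup (fun g => g.c.support.sup Int.natAbs) :=
      Finset.le_sup (f := fun g : G => g.c.support.sup Int.natAbs) hg
    refine ⟨by rw [Int.abs_eq_natAbs]; omega, ?_⟩
    intro m hm
    by_contra h0
    have h3 : m.natAbs ≤ g.c.support.sup Int.natAbs :=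
      Finset.le_sup (f := Int.natAbs) (Finsupp.mem_support_iff.mpr h0)
    rw [Int.abs_eq_natAbs] at hm
    omega
  obtain ⟨N, hN⟩ : ∃ N : ℕ, (4 * J : ℝ) < ε * N ∧ 0 < N := by
    obtain ⟨N, hN⟩ := exists_nat_gt ((4 * J : ℝ) / ε)
    refine ⟨N, ?_, ?_⟩
    · rw [div_lt_iff₀ hε] at hN
      linarith
    · have : (0 : ℝ) ≤ (4 * J : ℝ) / ε := by positivity
      have : (0 : ℝ) < N := by linarith
      exact_mod_cast this
  set M : ℤ := 2 * J + N with hM
  have hv : 0 < (V M).ncard := by
    rw [Set.ncard_pos (V_finite M)]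
    exact ⟨0, fun _ _ => rfl⟩
  refine ⟨box (Finset.Ico 0 N) M, box_finite _ _, ⟨1, ?_, fun _ _ => rfl⟩, ?_⟩
  · simp [hN.2]
  intro g hg
  obtain ⟨h1, h2⟩ := hJ g hg
  have hsub : symmDiff ((fun x => g * x) '' box (Finset.Ico 0 N) M) (box (Finset.Ico 0 N) M) ⊆
      box (Finset.Ico (-J : ℤ) J ∪ Finset.Ico (N - J : ℤ) (N + J)) M := by
    intro k hk
    rw [abs_le] at h1
    rcases hk with ⟨⟨x, ⟨hx1, hx2⟩, rfl⟩, hk2⟩ | ⟨⟨hk1, hk3⟩, hk2⟩
    · simp only [Finset.mem_Ico] at hx1
      have hV : (g * x).c ∈ V M := by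
        intro m hm
        rw [mul_c, hx2 m hm, h2, add_zero]
        rw [lt_abs] at hm ⊢
        omega
      refine ⟨?_, hV⟩
      have : ¬ ((g * x).n ∈ Finset.Ico (0 : ℤ) N) := fun h => hk2 ⟨h, hV⟩
      simp only [Finset.mem_Ico, Finset.mem_union, mul_n] at this ⊢
      omega
    · refine ⟨?_, hk3⟩
      simp only [Finset.mem_Ico] at hk1
      by_contra hcon
      apply hk2
      refine ⟨g⁻¹ * k, ⟨?_, ?_⟩, by simp⟩
      · simp only [Finset.mem_Ico, Finset.mem_union, mul_n, inv_n] at hcon ⊢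
        omega
      · intro m hm
        rw [mul_c, hk3 m hm, inv_c, h2, neg_zero, add_zero]
        rw [lt_abs] at hm ⊢
        omega
  have hle := Set.ncard_le_ncard hsub (box_finite _ _)
  rw [box_ncard] at hle ⊢
  have hc : (Finset.Ico (-J : ℤ) J ∪ Finset.Ico (N - J : ℤ) (N + J)).card ≤ 4 * J := by
    refine (Finset.card_union_le _ _).trans ?_
    simp only [Int.card_Ico]
    omega
  have h3 : (symmDiff ((fun x => g * x) '' box (Finset.Ico 0 N) M) (box (Finset.Ico 0 N) M)).ncard
      ≤ 4 * J * (V M).ncard := hle.trans (Nat.mul_le_mul_right _ hc)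
  have h4 : ((symmDiff ((fun x => g * x) '' box (Finset.Ico 0 N) M) (box (Finset.Ico 0 N) M)).ncard : ℝ)
      ≤ 4 * J * ((V M).ncard : ℝ) := by exact_mod_cast h3
  have h5 : (Finset.Ico (0 : ℤ) N).card = N := by simp
  rw [h5]
  have hv' : (0 : ℝ) < (V M).ncard := by exact_mod_cast hv
  push_cast
  nlinarith [hN.1]

instance : TopologicalSpace G := ⊥
instance : DiscreteTopology G := ⟨rfl⟩

open Classical in
noncomputable def phi0 (k : G) : ℝ :=
  if ∀ m, max 0 (-k.n) ≤ m → k.c m = 0 then (1 / 2 : ℝ) ^ (k.n.toNat) else 0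

theorem phi0_bound (k : G) : 0 ≤ phi0 k ∧ phi0 k ≤ 1 := by
  unfold phi0
  split_ifs
  · exact ⟨by positivity, pow_le_one₀ (by norm_num) (by norm_num)⟩
  · norm_num

noncomputable def phi : G →ᵇ ℝ := BoundedContinuousFunction.mkOfDiscrete phi0 1 (by
  intro x y
  have := phi0_bound x
  have := phi0_bound y
  rw [Real.dist_eq, abs_le]
  constructor <;> linarith)

noncomputable def gg : G := ⟨0, Finsupp.single 0 1⟩
noncomputable def hh : G := ⟨1, 0⟩

def P (k : G) : Prop := ∀ m, max 0 (-k.n) ≤ m → k.c m = 0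

theorem phi_pos (k : G) (h : P k) : phi0 k = (1 / 2 : ℝ) ^ (k.n.toNat) := by
  unfold phi0
  exact if_pos h

theorem phi_neg (k : G) (h : ¬ P k) : phi0 k = 0 := by
  unfold phi0
  exact if_neg h

theorem phi_rel (k : G) : phi0 (k * hh) = (1 / 2 : ℝ) * (phi0 k + phi0 (k * gg)) := by
  have e1 : ∀ x : ZMod 2, x ≠ 0 → x + 1 = 0 := by decide
  have e2 : ∀ x : ZMod 2, x = 0 → ¬ (x + 1 = 0) := by decide
  have n1 : (k * hh).n = k.n + 1 := rfl
  have n2 : (k * gg).n = k.n := by simp [gg]
  have p1 : P (k * hh) ↔ ∀ m, max 0 (-(k.n + 1)) ≤ m → k.c (m + 1) = 0 := by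
    simp [P, hh]
  have p2 : P (k * gg) ↔ ∀ m, max 0 (-k.n) ≤ m →
      k.c m + (Finsupp.single (0 : ℤ) (1 : ZMod 2)) m = 0 := by
    simp [P, gg]
  by_cases hn : 0 ≤ k.n
  · have a3 : (k.n + 1).toNat = k.n.toNat + 1 := by omega
    by_cases hA : P (k * hh)
    · rw [phi_pos _ hA, n1, a3]
      rw [p1] at hA
      by_cases h0 : k.c 0 = 0
      · rw [phi_pos k, phi_neg (k * gg)]
        · ring
        · rw [p2]
          intro h
          have := h 0 (by omega)
          simp only [Finsupp.single_eq_same] at this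
          exact e2 _ h0 this
        · intro m hm
          by_cases hm0 : m = 0
          · rw [hm0]; exact h0
          · have := hA (m - 1) (by omega)
            simpa using this
      · rw [phi_neg k, phi_pos (k * gg), n2]
        · ring
        · rw [p2]
          intro m hm
          by_cases hm0 : m = 0
          · rw [hm0]
            simp only [Finsupp.single_eq_same]
            exact e1 _ h0
          · have := hA (m - 1) (by omega)
            rw [Finsupp.single_eq_of_ne hm0]
            simpa using this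
        · intro h
          exact h0 (h 0 (by omega))
    · rw [phi_neg _ hA, phi_neg k, phi_neg (k * gg)]
      · ring
      · rw [p2]
        intro h
        apply hA
        rw [p1]
        intro m hm
        have := h (m + 1) (by omega)
        rw [Finsupp.single_eq_of_ne (by omega)] at this
        simpa using this
      · intro h
        apply hA
        rw [p1]
        intro m hm
        exact h (m + 1) (by omega)
  · have a3 : (k.n + 1).toNat = 0 := by omega
    have a4 : (k.n).toNat = 0 := by omega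
    have b1 : P (k * hh) ↔ P k := by
      rw [p1]
      constructor
      · intro h m hm
        have := h (m - 1) (by omega)
        simpa using this
      · intro h m hm
        exact h (m + 1) (by omega)
    have b2 : P (k * gg) ↔ P k := by
      rw [p2]
      refine forall_congr' fun m => imp_congr_right fun hm => ?_
      rw [Finsupp.single_eq_of_ne (by omega), add_zero]
    by_cases hk : P k
    · rw [phi_pos _ hk, phi_pos _ (b1.2 hk), phi_pos _ (b2.2 hk), n1, n2, a3, a4]
      norm_num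
    · rw [phi_neg _ hk, phi_neg _ (mt b1.1 hk), phi_neg _ (mt b2.1 hk)]
      norm_num

theorem phi_one : phi0 1 = 1 := by
  unfold phi0
  simp

theorem phi_gg : phi0 gg = 0 := by
  unfold phi0
  rw [if_neg]
  intro h
  have := h 0 (by simp [gg])
  simp [gg] at this

noncomputable def R (g : G) : (G →ᵇ ℝ) →L[ℝ] (G →ᵇ ℝ) :=
  BoundedContinuousFunction.compContinuousCLM ℝ ℝ ⟨fun k => k * g, continuous_of_discreteTopology⟩

@[simp] theorem R_apply (g : G) (f : G →ᵇ ℝ) (k : G) : R g f k = f (k * g) := rfl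

theorem R_mul (g h : G) (f : G →ᵇ ℝ) : R (g * h) f = R g (R h f) := by
  ext k
  simp [mul_assoc]

theorem R_one (f : G →ᵇ ℝ) : R 1 f = f := by
  ext k
  simp

theorem R_le (g : G) (f : G →ᵇ ℝ) : ‖R g f‖ ≤ ‖f‖ := by
  rw [BoundedContinuousFunction.norm_le (norm_nonneg _)]
  intro k
  exact f.norm_coe_le_norm _

theorem R_norm (g : G) (f : G →ᵇ ℝ) : ‖R g f‖ = ‖f‖ := by
  refine le_antisymm (R_le g f) ?_
  have := R_le g⁻¹ (R g f)
  rwa [← R_mul, inv_mul_cancel, R_one] at this

noncomputable def X : Submodule ℝ (G →ᵇ ℝ) :=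
  (Submodule.span ℝ (Set.range fun g => R g phi)).topologicalClosure

theorem R_mem (g : G) (f : G →ᵇ ℝ) (hf : f ∈ X) : R g f ∈ X := by
  have h1 : Set.MapsTo (R g) (Submodule.span ℝ (Set.range fun g => R g phi) : Set (G →ᵇ ℝ))
      (Submodule.span ℝ (Set.range fun g => R g phi) : Set (G →ᵇ ℝ)) := by
    intro x hx
    have : Submodule.span ℝ (Set.range fun g => R g phi) ≤
        (Submodule.span ℝ (Set.range fun g => R g phi)).comap (R g).toLinearMap := by
      rw [Submodule.span_le]
      rintro _ ⟨h, rfl⟩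
      show R g (R h phi) ∈ Submodule.span ℝ _
      rw [← R_mul]
      exact Submodule.subset_span ⟨g * h, rfl⟩
    exact this hx
  exact h1.closure (R g).continuous hf

instance : CompleteSpace X := (Submodule.isClosed_topologicalClosure _).completeSpace_coe

instance : TopologicalSpace.SeparableSpace X := by
  have : TopologicalSpace.IsSeparable (Set.range fun g => R g phi) :=
    (Set.countable_range _).isSeparable
  exact this.span.closure.separableSpace

noncomputable def rho1 (g : G) : X ≃ₗᵢ[ℝ] X where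
  toFun x := ⟨R g x, R_mem g x x.2⟩
  invFun x := ⟨R g⁻¹ x, R_mem g⁻¹ x x.2⟩
  map_add' x y := Subtype.ext (by simp)
  map_smul' c x := Subtype.ext (by simp)
  left_inv x := Subtype.ext (by simp [← R_mul, R_one])
  right_inv x := Subtype.ext (by simp [← R_mul, R_one])
  norm_map' x := R_norm g x

noncomputable def rho : G →* (X ≃ₗᵢ[ℝ] X) where
  toFun := rho1
  map_one' := by
    ext x
    show R 1 x _ = _
    simp
  map_mul' g h := by
    ext x
    show R (g * h) x _ = R g (R h x) _
    rw [R_mul]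

theorem rho_val (g : G) (x : X) : ((rho g x : X) : G →ᵇ ℝ) = R g x := rfl

noncomputable def x0 : X := ⟨phi, by
  apply Submodule.le_topologicalClosure
  exact Submodule.subset_span ⟨1, R_one _⟩⟩

theorem key1 : rho hh x0 = (1 / 2 : ℝ) • (x0 + rho gg x0) := by
  apply Subtype.ext
  ext k
  exact phi_rel k

theorem key2 : x0 ≠ rho gg x0 := by
  intro h
  have h1 : ((x0 : X) : G →ᵇ ℝ) 1 = ((rho gg x0 : X) : G →ᵇ ℝ) 1 := by rw [← h]
  have h2 : phi0 1 = phi0 (1 * gg) := h1
  rw [one_mul, phi_one, phi_gg] at h2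
  norm_num at h2

end Pool.Agent.H32.Lamp
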