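import Mathlib

set_option autoImplicit false

namespace Pool.Agent.H32.LocFin

open Filter Topology

/-- A locally finite group carries an invariant finitely additive probability. -/
theorem mean_of_locFin {G : Type} [Group G]
    (hG : ∀ F : Finset G, ∃ H : Subgroup G, (H : Set G).Finite ∧ ∀ g ∈ F, g ∈ H) :
    ∃ μ : Set G → ℝ, (∀ A, 0 ≤ μ A) ∧ μ Set.univ = 1 ∧
        (∀ A B : Set G, Disjoint A B → μ (A ∪ B) = μ A + μ B) ∧
        (∀ (g : G) (A : Set G), μ ((fun x => g * x) '' A) = μ A) := by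
  classical
  choose H hH hF using hG
  let U : Ultrafilter (Finset G) := Ultrafilter.of atTop
  have hU : (U : Filter (Finset G)) ≤ atTop := Ultrafilter.of_le _
  let d : Set G → Finset G → ℝ := fun A F => ((A ∩ H F).ncard : ℝ) / ((H F : Set G).ncard : ℝ)
  have hpos : ∀ F, (0 : ℝ) < ((H F : Set G).ncard : ℝ) := by
    intro F
    have : 0 < (H F : Set G).ncard := (Set.ncard_pos (hH F)).mpr ⟨1, (H F).one_mem⟩
    exact_mod_cast this
  have hd : ∀ A F, d A F ∈ Set.Icc (0 : ℝ) 1 := by
    intro A F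
    refine ⟨by positivity, ?_⟩
    rw [div_le_one (hpos F)]
    exact_mod_cast Set.ncard_le_ncard Set.inter_subset_right (hH F)
  have hex : ∀ A, ∃ x ∈ Set.Icc (0 : ℝ) 1, Tendsto (d A) U (𝓝 x) := by
    intro A
    obtain ⟨x, hx, h⟩ := isCompact_Icc.ultrafilter_le_nhds (U.map (d A))
      (by rw [Ultrafilter.coe_map, le_principal_iff, mem_map]; exact univ_mem' (hd A))
    exact ⟨x, hx, h⟩
  choose μ hμ1 hμ2 using hex
  refine ⟨μ, fun A => (hμ1 A).1, ?_, ?_, ?_⟩
  · refine tendsto_nhds_unique (hμ2 _) ?_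
    have : d Set.univ = fun _ => 1 := by
      funext F
      simp only [d, Set.univ_inter]
      exact div_self (hpos F).ne'
    rw [this]
    exact tendsto_const_nhds
  · intro A B hAB
    refine tendsto_nhds_unique (hμ2 _) ?_
    have : d (A ∪ B) = fun F => d A F + d B F := by
      funext F
      simp only [d]
      rw [Set.union_inter_distrib_right, Set.ncard_union_eq
        (hAB.mono Set.inter_subset_left Set.inter_subset_left)
        ((hH F).subset Set.inter_subset_right) ((hH F).subset Set.inter_subset_right)]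
      push_cast
      ring
    rw [this]
    exact (hμ2 A).add (hμ2 B)
  · intro g A
    refine tendsto_nhds_unique (hμ2 _) ((hμ2 A).congr' ?_)
    filter_upwards [hU (eventually_ge_atTop ({g} : Finset G))] with F hFg
    have hg : g ∈ H F := hF F g (hFg (Finset.mem_singleton_self g))
    simp only [d]
    have : ((fun x => g * x) '' A) ∩ H F = (fun x => g * x) '' (A ∩ H F) := by
      ext y
      constructor
      · rintro ⟨⟨x, hx, rfl⟩, h2⟩
        exact ⟨x, ⟨hx, (Subgroup.mul_mem_cancel_left _ hg).mp h2⟩, rfl⟩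
      · rintro ⟨x, ⟨hx, h2⟩, rfl⟩
        exact ⟨⟨x, hx, rfl⟩, (H F).mul_mem hg h2⟩
    rw [this, Set.ncard_image_of_injective _ (mul_right_injective g)]

/-- a class two group in which only proportional vectors commute -/
@[ext] structure G : Type where
  u : ℕ → ZMod 2
  a : ℕ × ℕ → ZMod 2

def tens (u v : ℕ → ZMod 2) : ℕ × ℕ → ZMod 2 := fun p => u p.1 * v p.2

instance : Mul G := ⟨fun x y => ⟨x.u + y.u, x.a + y.a + tens x.u y.u⟩⟩
instance : One G := ⟨⟨0, 0⟩⟩
instance : Inv G := ⟨fun x => ⟨-x.u, -x.a + tens x.u x.u⟩⟩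

@[simp] theorem mul_u (x y : G) : (x * y).u = x.u + y.u := rfl
@[simp] theorem mul_a (x y : G) : (x * y).a = x.a + y.a + tens x.u y.u := rfl
@[simp] theorem one_u : (1 : G).u = 0 := rfl
@[simp] theorem one_a : (1 : G).a = 0 := rfl
@[simp] theorem inv_u (x : G) : (x⁻¹).u = -x.u := rfl
@[simp] theorem inv_a (x : G) : (x⁻¹).a = -x.a + tens x.u x.u := rfl

instance : Group G := Group.ofLeftAxioms
  (by
    intro a b c
    ext m
    · simp only [mul_u, Pi.add_apply]; ring
    · simp only [mul_u, mul_a, Pi.add_apply, tens]; ring)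
  (by
    intro a
    ext m
    · simp
    · simp [tens])
  (by
    intro a
    ext m
    · simp only [mul_u, inv_u, one_u, neg_add_cancel]
    · simp only [mul_a, inv_a, inv_u, one_a, Pi.add_apply, Pi.neg_apply, tens, Pi.zero_apply]; ring)

theorem span_finite {M : Type} [AddCommGroup M] [Module (ZMod 2) M] {s : Set M} (hs : s.Finite) :
    (Submodule.span (ZMod 2) s : Set M).Finite := by
  have : Module.Finite (ZMod 2) (Submodule.span (ZMod 2) s) := Module.Finite.span_of_finite _ hs
  have : Finite (Submodule.span (ZMod 2) s) := Module.finite_of_finite (ZMod 2)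
  exact Set.toFinite _

theorem locFin (F : Finset G) : ∃ H : Subgroup G, (H : Set G).Finite ∧ ∀ g ∈ F, g ∈ H := by
  let A := Submodule.span (ZMod 2) (G.u '' (F : Set G))
  have hA : (A : Set (ℕ → ZMod 2)).Finite := span_finite (F.finite_toSet.image _)
  let B := Submodule.span (ZMod 2) (G.a '' (F : Set G) ∪ Set.image2 tens A A)
  have hB : (B : Set (ℕ × ℕ → ZMod 2)).Finite :=
    span_finite ((F.finite_toSet.image _).union (hA.image2 _ hA))
  have ht : ∀ u ∈ A, ∀ v ∈ A, tens u v ∈ B := fun u hu v hv =>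
    Submodule.subset_span (Or.inr (Set.mem_image2_of_mem hu hv))
  refine ⟨{ carrier := {x | x.u ∈ A ∧ x.a ∈ B}
            mul_mem' := ?_
            one_mem' := ⟨A.zero_mem, B.zero_mem⟩
            inv_mem' := ?_ }, ?_, ?_⟩
  · rintro x y ⟨h1, h2⟩ ⟨h3, h4⟩
    exact ⟨A.add_mem h1 h3, B.add_mem (B.add_mem h2 h4) (ht _ h1 _ h3)⟩
  · rintro x ⟨h1, h2⟩
    exact ⟨A.neg_mem h1, B.add_mem (B.neg_mem h2) (ht _ h1 _ h1)⟩
  · refine ((hA.prod hB).image (fun p => (⟨p.1, p.2⟩ : G))).subset ?_
    rintro x ⟨h1, h2⟩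
    exact ⟨(x.u, x.a), ⟨h1, h2⟩, rfl⟩
  · intro g hg
    exact ⟨Submodule.subset_span ⟨g, hg, rfl⟩, Submodule.subset_span (Or.inl ⟨g, hg, rfl⟩)⟩

theorem comm_u {x y : G} (h : x * y = y * x) (hx : x.u ≠ 0) (hy : y.u ≠ 0) : x.u = y.u := by
  have h1 : ∀ i j, x.u i * y.u j = y.u i * x.u j := by
    intro i j
    have := congrFun (congrArg G.a h) (i, j)
    simp only [mul_a, Pi.add_apply, tens] at this
    linear_combination this
  obtain ⟨i, hi⟩ := Function.ne_iff.mp hx
  obtain ⟨j, hj⟩ := Function.ne_iff.mp hy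
  have e : ∀ t : ZMod 2, t ≠ 0 → t = 1 := by decide
  have e' : ∀ s t : ZMod 2, 1 = s * t → t = 1 := by decide
  have hi' := e _ hi
  have hj' := e _ hj
  have h2 := h1 i j
  rw [hi', hj', mul_one] at h2
  have h3 := e' _ _ h2
  funext k
  have := h1 k j
  rwa [hj', h3, mul_one, mul_one] at this

noncomputable def chi (i : ℕ) (x : G) : ℂ := if x.u i = 0 then 1 else -1

theorem chi_norm (i : ℕ) (x : G) : ‖chi i x‖ = 1 := by
  unfold chi
  split_ifs <;> simp

theorem chi_mul (i : ℕ) (x y : G) : chi i (x * y) = chi i x * chi i y := by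
  have e : ∀ s t : ZMod 2, s ≠ 0 → t ≠ 0 → s + t = 0 := by decide
  unfold chi
  simp only [mul_u, Pi.add_apply]
  by_cases h1 : x.u i = 0 <;> by_cases h2 : y.u i = 0
  · simp [h1, h2]
  · simp [h1, h2]
  · simp [h1, h2]
  · simp [h1, h2, e _ _ h1 h2]

noncomputable abbrev L := lp (fun _ : G => ℂ) 1

theorem summable_norm (f : L) : Summable fun x => ‖f x‖ := by
  have := (lp.memℓp f).summable (by simp)
  simpa using this

theorem summable_w (f : L) (w : G → ℂ) (hw : ∀ x, ‖w x‖ ≤ 1) : Summable fun x => ‖f x * w x‖ := by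
  refine (summable_norm f).of_nonneg_of_le (fun _ => norm_nonneg _) fun x => ?_
  rw [norm_mul]
  exact mul_le_of_le_one_right (norm_nonneg _) (hw x)

noncomputable def pair (w : G → ℂ) (hw : ∀ x, ‖w x‖ ≤ 1) : L →L[ℂ] ℂ :=
  LinearMap.mkContinuous
    { toFun := fun f => ∑' x, f x * w x
      map_add' := by
        intro f g
        rw [← (summable_w f w hw).of_norm.tsum_add (summable_w g w hw).of_norm]
        simp [add_mul]
      map_smul' := by
        intro c f
        simp [mul_assoc, tsum_mul_left] } 1 (by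
      intro f
      have h1 : ‖f‖ = ∑' x, ‖f x‖ := by
        rw [lp.norm_eq_tsum_rpow (by simp)]
        simp
      rw [one_mul, h1]
      refine tsum_of_norm_bounded (summable_norm f).hasSum fun x => ?_
      rw [norm_mul]
      exact mul_le_of_le_one_right (norm_nonneg _) (hw x))

theorem pair_apply (w : G → ℂ) (hw : ∀ x, ‖w x‖ ≤ 1) (f : L) : pair w hw f = ∑' x, f x * w x := rfl

theorem pair_single (w : G → ℂ) (hw : ∀ x, ‖w x‖ ≤ 1) (y : G) [DecidableEq G] :
    pair w hw (lp.single 1 y (1 : ℂ)) = w y := by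
  rw [pair_apply, tsum_eq_single y]
  · simp
  · intro x hx
    simp [lp.single_apply, Pi.single_eq_of_ne hx]

noncomputable def lam (i : ℕ) : L →L[ℂ] ℂ := pair (chi i) fun x => (chi_norm i x).le

theorem lam_conv (i : ℕ) (f g h : L) (hh : ∀ x : G, h x = ∑' y : G, f y * g (y⁻¹ * x)) :
    lam i h = lam i f * lam i g := by
  have hf := summable_w f (chi i) fun x => (chi_norm i x).le
  have hg := summable_w g (chi i) fun x => (chi_norm i x).le
  have hs := summable_mul_of_summable_norm hf hg
  let e : G × G ≃ G × G :=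
    { toFun := fun p => (p.2, p.2⁻¹ * p.1)
      invFun := fun p => (p.1 * p.2, p.1)
      left_inv := fun p => by simp
      right_inv := fun p => by simp }
  have hs2 := (e.summable_iff.mpr hs)
  simp only [lam, pair_apply]
  rw [tsum_mul_tsum_of_summable_norm hf hg, ← e.tsum_eq]
  refine Eq.trans ?_ hs2.tsum_prod.symm
  refine tsum_congr fun x => ?_
  rw [hh, ← tsum_mul_right]
  refine tsum_congr fun y => ?_
  have : chi i x = chi i y * chi i (y⁻¹ * x) := by rw [← chi_mul]; simp
  rw [this]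
  simp only [e, Equiv.coe_fn_mk, Function.comp]
  ring

noncomputable def Lam : L →ₗ[ℂ] (ℕ → ℂ) := LinearMap.pi fun i => (lam i).toLinearMap

theorem mem_ker (f : L) : f ∈ LinearMap.ker Lam ↔ ∀ i, lam i f = 0 := by
  rw [LinearMap.mem_ker, funext_iff]
  rfl

theorem ker_closed : IsClosed (LinearMap.ker Lam : Set L) := by
  have : (LinearMap.ker Lam : Set L) = ⋂ i, {f | lam i f = 0} := by
    ext f
    simp only [SetLike.mem_coe, mem_ker, Set.mem_iInter]
    rfl
  rw [this]
  exact isClosed_iInter fun i => isClosed_eq (lam i).continuous continuous_const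

theorem not_fd : ¬ FiniteDimensional ℂ (L ⧸ LinearMap.ker Lam) := by
  classical
  intro h
  have h1 : FiniteDimensional ℂ (LinearMap.range Lam) :=
    LinearEquiv.finiteDimensional (LinearMap.quotKerEquivRange Lam)
  have hmem : ∀ j : ℕ, (Pi.single j (1 : ℂ) : ℕ → ℂ) ∈ LinearMap.range Lam := by
    intro j
    refine ⟨(1 / 2 : ℂ) • (lp.single 1 (1 : G) (1 : ℂ) - lp.single 1 (⟨Pi.single j 1, 0⟩ : G) (1 : ℂ)), ?_⟩
    funext i
    show lam i _ = _
    rw [map_smul, map_sub, lam, pair_single, pair_single]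
    by_cases hij : i = j
    · subst hij
      simp [chi]
      norm_num
    · simp [chi, Pi.single_eq_of_ne hij]
  have hli : LinearIndependent ℂ fun j : ℕ => (⟨Pi.single j 1, hmem j⟩ : LinearMap.range Lam) := by
    apply LinearIndependent.of_comp (LinearMap.range Lam).subtype
    exact Pi.linearIndependent_single_one ℕ ℂ
  exact Module.Finite.not_linearIndependent_of_infinite _ hli

theorem abel (H : Subgroup G) (hH : ∀ a ∈ H, ∀ b ∈ H, a * b = b * a) :
    ∃ s : Finset L, (∀ v ∈ s, ∀ x : G, x ∉ H → v x = 0) ∧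
      ∀ f : L, (∀ x : G, x ∉ H → f x = 0) →
        f ∈ LinearMap.ker Lam ⊔ Submodule.span ℂ (s : Set L) := by
  classical
  obtain ⟨z, hz, hz2⟩ : ∃ z ∈ H, ∀ x ∈ H, x.u = 0 ∨ x.u = z.u := by
    by_cases h : ∃ z ∈ H, z.u ≠ 0
    · obtain ⟨z, hz, hz0⟩ := h
      refine ⟨z, hz, fun x hx => ?_⟩
      by_cases hx0 : x.u = 0
      · exact Or.inl hx0
      · exact Or.inr (comm_u (hH x hx z hz) hx0 hz0)
    · push Not at h
      exact ⟨1, H.one_mem, fun x hx => Or.inl (h x hx)⟩
  refine ⟨{lp.single 1 (1 : G) (1 : ℂ), lp.single 1 z (1 : ℂ)}, ?_, ?_⟩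
  · intro v hv x hx
    simp only [Finset.mem_insert, Finset.mem_singleton] at hv
    rcases hv with rfl | rfl
    · have : x ≠ 1 := fun h => hx (h ▸ H.one_mem)
      simp [lp.single_apply, Pi.single_eq_of_ne this]
    · have : x ≠ z := fun h => hx (h ▸ hz)
      simp [lp.single_apply, Pi.single_eq_of_ne this]
  · intro f hf
    let w0 : G → ℂ := fun x => if x.u = 0 then 1 else 0
    let w1 : G → ℂ := fun x => if x.u = 0 then 0 else 1
    have hw0 : ∀ x, ‖w0 x‖ ≤ 1 := fun x => by simp only [w0]; split_ifs <;> simp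
    have hw1 : ∀ x, ‖w1 x‖ ≤ 1 := fun x => by simp only [w1]; split_ifs <;> simp
    let r : L := pair w0 hw0 f • lp.single 1 (1 : G) (1 : ℂ) + pair w1 hw1 f • lp.single 1 z (1 : ℂ)
    have hr : r ∈ Submodule.span ℂ
        ((({lp.single 1 (1 : G) (1 : ℂ), lp.single 1 z (1 : ℂ)} : Finset L)) : Set L) := by
      refine Submodule.add_mem _ (Submodule.smul_mem _ _ (Submodule.subset_span ?_))
        (Submodule.smul_mem _ _ (Submodule.subset_span ?_)) <;> simp
    have hk : f - r ∈ LinearMap.ker Lam := by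
      rw [mem_ker]
      intro i
      simp only [r, map_sub, map_add, map_smul, lam, pair_single, smul_eq_mul]
      simp only [pair_apply]
      rw [← tsum_mul_right, ← tsum_mul_right,
        ← ((summable_w f w0 hw0).of_norm.mul_right _).tsum_add
          ((summable_w f w1 hw1).of_norm.mul_right _), sub_eq_zero]
      refine tsum_congr fun x => ?_
      by_cases hx : x ∈ H
      · by_cases hx0 : x.u = 0
        · simp [w0, w1, hx0, chi]
        · have := (hz2 x hx).resolve_left hx0
          simp only [w0, w1, if_neg hx0, chi, this]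
          ring
      · simp [hf x hx]
    have := Submodule.add_mem_sup hk hr
    rwa [sub_add_cancel] at this

end Pool.Agent.H32.LocFin
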