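import Mathlib

/-! MTL, IMTL and product-MTL: Hilbert calculi, chains, soundness and chain completeness. -/

namespace Pool.Agent.H32.Fuzzy

universe u

/-- Propositional formulas: variables, falsum, strong conjunction, implication, weak conjunction.
(Truth, negation and weak disjunction are definable from these.) -/
inductive Fm : Type
  | var : ℕ → Fm
  | bot : Fm
  | conj : Fm → Fm → Fm
  | imp : Fm → Fm → Fm
  | meet : Fm → Fm → Fm

/-- negation -/
def Fm.neg (a : Fm) : Fm := a.imp Fm.bot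

/-- The three logics. -/
inductive Logic : Type
  | MTL
  | IMTL
  | PiMTL

/-- Theorems of the logic `L`: the Esteva-Godo axioms of MTL, the extra axioms of `L`,
and modus ponens. -/
inductive Prov (L : Logic) : Fm → Prop
  | a1 (a b c : Fm) : Prov L ((a.imp b).imp ((b.imp c).imp (a.imp c)))
  | a2 (a b : Fm) : Prov L ((a.conj b).imp a)
  | a3 (a b : Fm) : Prov L ((a.conj b).imp (b.conj a))
  | a4 (a b : Fm) : Prov L ((a.meet b).imp a)
  | a5 (a b : Fm) : Prov L ((a.meet b).imp (b.meet a))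
  | a6 (a b : Fm) : Prov L ((a.conj (a.imp b)).imp (a.meet b))
  | a7a (a b c : Fm) : Prov L ((a.imp (b.imp c)).imp ((a.conj b).imp c))
  | a7b (a b c : Fm) : Prov L (((a.conj b).imp c).imp (a.imp (b.imp c)))
  | a8 (a b c : Fm) : Prov L (((a.imp b).imp c).imp (((b.imp a).imp c).imp c))
  | a9 (a : Fm) : Prov L (Fm.bot.imp a)
  | inv (a : Fm) : L = Logic.IMTL → Prov L (a.neg.neg.imp a)
  | pi1 (a b c : Fm) : L = Logic.PiMTL →
      Prov L (c.neg.neg.imp (((a.conj c).imp (b.conj c)).imp (a.imp b)))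
  | pi2 (a : Fm) : L = Logic.PiMTL → Prov L ((a.meet a.neg).imp Fm.bot)
  | mp (a b : Fm) : Prov L (a.imp b) → Prov L a → Prov L b

/-- An MTL-chain structure on a bounded linear order: a commutative monoid with unit the top
element, residuated by `imp`; the lattice operations are `min` and `max`. -/
structure Chain (A : Type u) [LinearOrder A] [BoundedOrder A] where
  mul : A → A → A
  imp : A → A → A
  mul_comm : ∀ x y, mul x y = mul y x
  mul_assoc : ∀ x y z, mul (mul x y) z = mul x (mul y z)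
  mul_top : ∀ x, mul x ⊤ = x
  res : ∀ x y z, mul x y ≤ z ↔ x ≤ imp y z

variable {A : Type u} [LinearOrder A] [BoundedOrder A]

/-- negation in a chain -/
def Chain.neg (C : Chain A) (x : A) : A := C.imp x ⊥

/-- `C` is an `L`-chain. -/
def Chain.IsL (C : Chain A) : Logic → Prop
  | .MTL => True
  | .IMTL => ∀ x, C.neg (C.neg x) = x
  | .PiMTL => (∀ x y z, C.imp (C.neg (C.neg z))
      (C.imp (C.imp (C.mul x z) (C.mul y z)) (C.imp x y)) = ⊤) ∧
      ∀ x, C.imp (min x (C.neg x)) ⊥ = ⊤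

/-- value of a formula under a valuation -/
def Chain.eval (C : Chain A) (v : ℕ → A) : Fm → A
  | .var n => v n
  | .bot => ⊥
  | .conj a b => C.mul (C.eval v a) (C.eval v b)
  | .imp a b => C.imp (C.eval v a) (C.eval v b)
  | .meet a b => min (C.eval v a) (C.eval v b)

/-- Single chain completeness: one `L`-chain whose tautologies are exactly the theorems. -/
def SCC (L : Logic) : Prop :=
  ∃ (A : Type u) (_ : LinearOrder A) (_ : BoundedOrder A) (C : Chain A),
    C.IsL L ∧ ∀ a : Fm, Prov L a ↔ ∀ v : ℕ → A, C.eval v a = ⊤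

namespace Chain

variable (C : Chain A)

theorem top_mul (x : A) : C.mul ⊤ x = x := by rw [C.mul_comm, C.mul_top]

theorem imp_eq_top {x y : A} : C.imp x y = ⊤ ↔ x ≤ y := by
  rw [← top_le_iff, ← C.res, C.top_mul]

theorem imp_mul (x y : A) : C.mul (C.imp x y) x ≤ y := (C.res _ _ _).2 le_rfl

theorem mul_imp (x y : A) : C.mul x (C.imp x y) ≤ y := by rw [C.mul_comm]; exact C.imp_mul x y

theorem mono_l {x y : A} (h : x ≤ y) (z : A) : C.mul x z ≤ C.mul y z :=
  (C.res _ _ _).2 (h.trans ((C.res _ _ _).1 le_rfl))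

theorem mono_r {x y : A} (h : x ≤ y) (z : A) : C.mul z x ≤ C.mul z y := by
  rw [C.mul_comm z, C.mul_comm z]; exact C.mono_l h z

theorem mono {x y z w : A} (h : x ≤ y) (h' : z ≤ w) : C.mul x z ≤ C.mul y w :=
  (C.mono_l h z).trans (C.mono_r h' y)

theorem mul_le_l (x y : A) : C.mul x y ≤ x := (C.mono_r le_top x).trans (C.mul_top x).le

theorem mul_le_r (x y : A) : C.mul x y ≤ y := by rw [C.mul_comm]; exact C.mul_le_l y x

theorem top_imp (x : A) : C.imp ⊤ x = x :=
  eq_of_forall_le_iff fun y => by rw [← C.res, C.mul_top]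

theorem sound {L : Logic} (hC : C.IsL L) (v : ℕ → A) {a : Fm} (h : Prov L a) :
    C.eval v a = ⊤ := by
  induction h with
  | a1 a b c =>
    simp only [eval, imp_eq_top, ← C.res]
    rw [C.mul_comm (C.imp _ _), C.mul_assoc]
    exact (C.mono_r (C.imp_mul _ _) _).trans (C.imp_mul _ _)
  | a2 a b => simp only [eval, imp_eq_top]; exact C.mul_le_l _ _
  | a3 a b => simp only [eval, imp_eq_top]; exact (C.mul_comm _ _).le
  | a4 a b => simp only [eval, imp_eq_top]; exact min_le_left _ _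
  | a5 a b => simp only [eval, imp_eq_top]; exact (min_comm _ _).le
  | a6 a b => simp only [eval, imp_eq_top]; exact le_min (C.mul_le_l _ _) (C.mul_imp _ _)
  | a7a a b c =>
    simp only [eval, imp_eq_top]
    rw [← C.res, ← C.mul_assoc, C.res, C.res]
  | a7b a b c =>
    simp only [eval, imp_eq_top]
    rw [← C.res, ← C.res, C.mul_assoc, C.res]
  | a8 a b c =>
    simp only [eval, imp_eq_top]
    rcases le_total (C.eval v a) (C.eval v b) with h | h
    · rw [C.imp_eq_top.2 h, C.top_imp, ← C.res]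
      exact C.mul_le_l _ _
    · rw [C.imp_eq_top.2 h, C.top_imp, ← C.res]
      exact C.mul_le_r _ _
  | a9 a => simp only [eval, imp_eq_top]; exact bot_le
  | inv a hL => subst hL; simp only [eval, Fm.neg, imp_eq_top]; exact (hC _).le
  | pi1 a b c hL => subst hL; exact hC.1 _ _ _
  | pi2 a hL => subst hL; exact hC.2 _
  | mp a b _ _ h1 h2 =>
    simp only [eval, h2, top_imp] at h1
    exact h1

end Chain

/-- deductively closed sets of formulas -/
structure Th (L : Logic) (F : Set Fm) : Prop where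
  ax : ∀ a, Prov L a → a ∈ F
  mp : ∀ {a b}, a.imp b ∈ F → a ∈ F → b ∈ F

namespace Th

variable {L : Logic} {F : Set Fm} (h : Th L F)
include h

theorem trans {a b c : Fm} (h1 : a.imp b ∈ F) (h2 : b.imp c ∈ F) : a.imp c ∈ F :=
  h.mp (h.mp (h.ax _ (.a1 a b c)) h1) h2

theorem res {a b c : Fm} : (a.conj b).imp c ∈ F ↔ a.imp (b.imp c) ∈ F :=
  ⟨h.mp (h.ax _ (.a7b a b c)), h.mp (h.ax _ (.a7a a b c))⟩

theorem exch {a b c : Fm} (h1 : a.imp (b.imp c) ∈ F) : b.imp (a.imp c) ∈ F :=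
  h.res.1 (h.trans (h.ax _ (.a3 b a)) (h.res.2 h1))

theorem K (a b : Fm) : a.imp (b.imp a) ∈ F := h.res.1 (h.ax _ (.a2 a b))

theorem weak {a : Fm} (h1 : a ∈ F) (b : Fm) : b.imp a ∈ F := h.mp (h.K a b) h1

theorem refl (a : Fm) : a.imp a ∈ F := h.mp (h.exch (h.K a _)) (h.ax _ (.a9 a))

theorem pre {a b : Fm} (h1 : a.imp b ∈ F) (c : Fm) : (b.imp c).imp (a.imp c) ∈ F :=
  h.mp (h.ax _ (.a1 a b c)) h1

theorem suf {a b : Fm} (h1 : a.imp b ∈ F) (c : Fm) : (c.imp a).imp (c.imp b) ∈ F :=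
  h.mp (h.exch (h.ax _ (.a1 c a b))) h1

theorem mono_l {a b : Fm} (h1 : a.imp b ∈ F) (c : Fm) : (a.conj c).imp (b.conj c) ∈ F :=
  h.res.2 (h.trans h1 (h.res.1 (h.refl _)))

theorem mono {a b c d : Fm} (h1 : a.imp b ∈ F) (h2 : c.imp d ∈ F) :
    (a.conj c).imp (b.conj d) ∈ F :=
  h.trans (h.mono_l h1 c) (h.trans (h.ax _ (.a3 b c)) (h.trans (h.mono_l h2 b) (h.ax _ (.a3 d b))))

theorem assoc1 (a b c : Fm) : ((a.conj b).conj c).imp (a.conj (b.conj c)) ∈ F :=
  h.res.2 (h.res.2 (h.trans (h.res.1 (h.refl _)) (h.ax _ (.a7b _ _ _))))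

theorem assoc2 (a b c : Fm) : (a.conj (b.conj c)).imp ((a.conj b).conj c) ∈ F :=
  h.res.2 (h.trans (h.res.1 (h.res.1 (h.refl _))) (h.ax _ (.a7a _ _ _)))

end Th

/-- iterated implication -/
def it (p : Fm) : ℕ → Fm → Fm
  | 0, a => a
  | n + 1, a => p.imp (it p n a)

namespace Th

variable {L : Logic} {F : Set Fm} (h : Th L F)
include h

theorem it_mono (p : Fm) (n : ℕ) {a b : Fm} (h1 : a.imp b ∈ F) : (it p n a).imp (it p n b) ∈ F := by
  induction n with
  | zero => exact h1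
  | succ n ih => exact h.suf ih p

theorem it_exch (p : Fm) (n : ℕ) (a b : Fm) : (it p n (a.imp b)).imp (a.imp (it p n b)) ∈ F := by
  induction n with
  | zero => exact h.refl _
  | succ n ih =>
    refine h.trans (h.suf ih p) ?_
    exact h.trans (h.ax _ (.a7a _ _ _)) (h.trans (h.pre (h.ax _ (.a3 _ _)) _) (h.ax _ (.a7b _ _ _)))

omit h in
theorem it_add (p : Fm) (n m : ℕ) (a : Fm) : it p (n + m) a = it p m (it p n a) := by
  induction m with
  | zero => rfl
  | succ m ih => exact congrArg p.imp ih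

omit h in
theorem it_succ (p : Fm) (n : ℕ) (a : Fm) : it p (n + 1) a = it p n (p.imp a) := by
  rw [add_comm, it_add]; rfl

theorem ext (p : Fm) : Th L {a | ∃ n, it p n a ∈ F} where
  ax a ha := ⟨0, h.ax a ha⟩
  mp := by
    rintro a b ⟨n, h1⟩ ⟨m, h2⟩
    refine ⟨n + m, ?_⟩
    rw [it_add]
    exact h.mp (h.it_mono p m (h.mp (h.it_exch p n a b) h1)) h2

theorem cases1 (a b : Fm) (n : ℕ) : ∀ c, it (a.imp b) n c ∈ F → (b.imp a).imp c ∈ F → c ∈ F := by
  induction n with
  | zero => exact fun c h1 _ => h1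
  | succ n ih =>
    intro c h1 h2
    rw [it_succ] at h1
    exact h.mp (h.mp (h.ax _ (.a8 a b c)) (ih _ h1 (h.trans h2 (h.K _ _)))) h2

theorem cases2 (a b : Fm) (n m : ℕ) :
    ∀ c, it (a.imp b) n c ∈ F → it (b.imp a) m c ∈ F → c ∈ F := by
  induction m with
  | zero => exact fun c _ h2 => h2
  | succ m ih =>
    intro c h1 h2
    rw [it_succ] at h2
    exact h.cases1 a b n c h1 (ih _ (h.mp (h.it_mono _ n (h.K _ _)) h1) h2)

end Th

theorem exists_prime {L : Logic} {a0 : Fm} (h0 : ¬ Prov L a0) :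
    ∃ F, Th L F ∧ a0 ∉ F ∧ ∀ a b : Fm, a.imp b ∈ F ∨ b.imp a ∈ F := by
  obtain ⟨F, -, hF⟩ := zorn_subset_nonempty {F | Th L F ∧ a0 ∉ F} (by
    intro c hc hch ⟨F0, hF0⟩
    refine ⟨⋃₀ c, ⟨⟨fun a ha => ⟨F0, hF0, (hc hF0).1.ax a ha⟩, ?_⟩, ?_⟩,
      fun s hs => Set.subset_sUnion_of_mem hs⟩
    · rintro a b ⟨U, hU, h1⟩ ⟨V, hV, h2⟩
      rcases hch.total hU hV with h | h
      · exact ⟨V, hV, (hc hV).1.mp (h h1) h2⟩
      · exact ⟨U, hU, (hc hU).1.mp h1 (h h2)⟩
    · rintro ⟨U, hU, h1⟩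
      exact (hc hU).2 h1) {a | Prov L a} ⟨⟨fun a ha => ha, fun h1 h2 => .mp _ _ h1 h2⟩, h0⟩
  have h := hF.prop.1
  have key : ∀ p, p ∉ F → ∃ n, it p n a0 ∈ F := by
    intro p hp
    by_contra hn
    have := hF.eq_of_subset (t := {a | ∃ n, it p n a ∈ F}) ⟨h.ext p, hn⟩ fun a ha => ⟨0, ha⟩
    apply hp
    rw [this]
    exact ⟨1, h.refl p⟩
  refine ⟨F, h, hF.prop.2, fun a b => ?_⟩
  by_contra hn
  push Not at hn
  obtain ⟨n, h1⟩ := key _ hn.1
  obtain ⟨m, h2⟩ := key _ hn.2
  exact hF.prop.2 (h.cases2 a b n m a0 h1 h2)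

/-- Chain completeness. -/
theorem complete {L : Logic} {a0 : Fm} (h0 : ¬ Prov L a0) :
    ∃ (A : Type) (_ : LinearOrder A) (_ : BoundedOrder A) (C : Chain A) (v : ℕ → A),
      C.IsL L ∧ C.eval v a0 ≠ ⊤ := by
  classical
  obtain ⟨F, h, ha0, htot⟩ := exists_prime h0
  letI : Preorder Fm :=
    { le := fun a b => a.imp b ∈ F
      le_refl := h.refl
      le_trans := fun _ _ _ => h.trans }
  haveI : @Std.Total Fm (· ≤ ·) := ⟨htot⟩
  let A := Antisymmetrization Fm (· ≤ ·)
  letI : LinearOrder A := inferInstance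
  let q : Fm → A := toAntisymmetrization (· ≤ ·)
  have hq : ∀ a b, q a ≤ q b ↔ a.imp b ∈ F := fun a b => Iff.rfl
  have hs : ∀ x : A, ∃ a, q a = x := fun x => Quot.exists_rep x
  letI : BoundedOrder A :=
    { top := q (Fm.bot.imp Fm.bot)
      le_top := fun x => by
        obtain ⟨a, rfl⟩ := hs x
        exact h.weak (h.refl _) a
      bot := q Fm.bot
      bot_le := fun x => by
        obtain ⟨a, rfl⟩ := hs x
        exact h.ax _ (.a9 a) }
  have htop : ∀ a, q a = ⊤ ↔ a ∈ F := fun a => by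
    rw [← top_le_iff]
    exact ⟨fun h1 => h.mp h1 (h.refl _), fun h1 => h.weak h1 _⟩
  let C : Chain A :=
    { mul := Quotient.map₂ Fm.conj fun a b h1 c d h2 => ⟨h.mono h1.1 h2.1, h.mono h1.2 h2.2⟩
      imp := Quotient.map₂ Fm.imp fun a b h1 c d h2 =>
        ⟨h.trans (h.pre h1.2 _) (h.suf h2.1 _), h.trans (h.pre h1.1 _) (h.suf h2.2 _)⟩
      mul_comm := fun x y => by
        obtain ⟨a, rfl⟩ := hs x
        obtain ⟨b, rfl⟩ := hs y
        exact le_antisymm (h.ax _ (.a3 a b)) (h.ax _ (.a3 b a))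
      mul_assoc := fun x y z => by
        obtain ⟨a, rfl⟩ := hs x
        obtain ⟨b, rfl⟩ := hs y
        obtain ⟨c, rfl⟩ := hs z
        exact le_antisymm (h.assoc1 a b c) (h.assoc2 a b c)
      mul_top := fun x => by
        obtain ⟨a, rfl⟩ := hs x
        exact le_antisymm (h.ax _ (.a2 a _)) (h.mp (h.exch (h.res.1 (h.refl _))) (h.refl _))
      res := fun x y z => by
        obtain ⟨a, rfl⟩ := hs x
        obtain ⟨b, rfl⟩ := hs y
        obtain ⟨c, rfl⟩ := hs z
        exact h.res }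
  have hmeet : ∀ a b, min (q a) (q b) = q (a.meet b) := by
    have aux : ∀ a b : Fm, a.imp b ∈ F → q (a.meet b) = q a := fun a b h1 =>
      le_antisymm (h.ax _ (.a4 a b)) (h.mp (h.exch (h.res.1 (h.ax _ (.a6 a b)))) h1)
    intro a b
    rcases htot a b with h1 | h1
    · rw [min_eq_left ((hq _ _).2 h1), aux a b h1]
    · rw [min_eq_right ((hq _ _).2 h1), ← aux b a h1]
      exact le_antisymm (h.ax _ (.a5 b a)) (h.ax _ (.a5 a b))
  have hev : ∀ a, C.eval (fun n => q (.var n)) a = q a := by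
    intro a
    induction a with
    | var n => rfl
    | bot => rfl
    | conj a b iha ihb => simp only [Chain.eval, iha, ihb]; rfl
    | imp a b iha ihb => simp only [Chain.eval, iha, ihb]; rfl
    | meet a b iha ihb => simp only [Chain.eval, iha, ihb, hmeet]
  refine ⟨A, inferInstance, inferInstance, C, fun n => q (.var n), ?_, ?_⟩
  · cases L with
    | MTL => trivial
    | IMTL =>
      intro x
      obtain ⟨a, rfl⟩ := hs x
      exact le_antisymm (h.ax _ (.inv a rfl)) (h.exch (h.refl _))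
    | PiMTL =>
      refine ⟨fun x y z => ?_, fun x => ?_⟩
      · obtain ⟨a, rfl⟩ := hs x
        obtain ⟨b, rfl⟩ := hs y
        obtain ⟨c, rfl⟩ := hs z
        exact (htop _).2 (h.ax _ (.pi1 a b c rfl))
      · obtain ⟨a, rfl⟩ := hs x
        have : C.neg (q a) = q a.neg := rfl
        rw [this, hmeet]
        exact (htop _).2 (h.ax _ (.pi2 a rfl))
  · rw [hev, Ne, htop]
    exact ha0

end Pool.Agent.H32.Fuzzy
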