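import Mathlib
import Pool.Agent.H32.MTL1

/-! Single chain completeness fails for MTL and IMTL and holds for product-MTL. -/

namespace Pool.Agent.H32.Fuzzy

universe u

theorem nil_aux {M : Type u} [CommMonoid M] [LinearOrder M] [IsOrderedMonoid M]
    (htop : ∀ x : M, x ≤ 1) (z : M) (N : M → M) (hN : ∀ x y, x * y ≤ z ↔ x ≤ N y)
    (e b d q : M) (h1 : e * d ^ 3 ≤ z) (h2 : e * (b * b) ≤ z) (h3 : e * N (b * d) ≤ d)
    (h4 : e * q ^ 4 ≤ z) (h5 : e * N (q ^ 2) ≤ q ^ 2) (h6 : e * N (q ^ 3) ≤ q) : e ^ 57 ≤ z := by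
  have hle : ∀ x y : M, x * y ≤ y := fun x y => (mul_le_mul_left (htop x) y).trans (one_mul y).le
  have s1 : e ^ 2 * b ≤ q ^ 2 := by
    rcases le_total b (q ^ 2) with h | h
    · exact (hle _ _).trans h
    · have : e * b ≤ N (q ^ 2) := by
        rw [← hN, mul_assoc]
        exact (mul_le_mul_right (mul_le_mul_right h b) e).trans h2
      rw [pow_two, mul_assoc]
      exact (mul_le_mul_right this e).trans h5
  have s2 : e ^ 4 * q ≤ d := by
    rcases le_total q d with h | h
    · exact (hle _ _).trans h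
    · have : e ^ 3 * q ≤ N (b * d) := by
        rw [← hN]
        calc e ^ 3 * q * (b * d) = e * (q * (e ^ 2 * b) * d) := by
              simp only [pow_succ, pow_zero, one_mul]; ac_rfl
          _ ≤ e * (q * q ^ 2 * q) := by gcongr
          _ = e * q ^ 4 := by simp only [pow_succ, pow_zero, one_mul]; ac_rfl
          _ ≤ z := h4
      rw [pow_succ' e 3, mul_assoc]
      exact (mul_le_mul_right this e).trans h3
  have s3 : e ^ 13 ≤ N (q ^ 3) := by
    rw [← hN]
    calc e ^ 13 * q ^ 3 = e * (e ^ 4 * q) ^ 3 := by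
          rw [mul_pow, ← pow_mul, ← mul_assoc, ← pow_succ']
      _ ≤ e * d ^ 3 := by gcongr
      _ ≤ z := h1
  have s4 : e ^ 14 ≤ q := by
    rw [pow_succ' e 13]
    exact (mul_le_mul_right s3 e).trans h6
  calc e ^ 57 = e * (e ^ 14) ^ 4 := by rw [← pow_mul, ← pow_succ']
    _ ≤ e * q ^ 4 := by gcongr
    _ ≤ z := h4

/-- powers of a formula -/
def pw (a : Fm) : ℕ → Fm
  | 0 => Fm.bot.imp Fm.bot
  | n + 1 => (pw a n).conj a

def E1 : Fm := ((pw (.var 1) 3).neg.meet ((Fm.var 0).conj (.var 0)).neg).meet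
  (((Fm.var 0).conj (.var 1)).neg.imp (.var 1))

def E2 : Fm := ((pw (.var 0) 4).neg.meet ((pw (.var 0) 2).neg.imp (pw (.var 0) 2))).meet
  ((pw (.var 0) 3).neg.imp (.var 0))

theorem dichotomy {A : Type u} [LinearOrder A] [BoundedOrder A] (C : Chain A) (v w : ℕ → A) :
    C.eval v (pw E1 57).neg = ⊤ ∨ C.eval w (pw E2 57).neg = ⊤ := by
  letI : CommMonoid A :=
    { mul := C.mul
      one := ⊤
      mul_assoc := C.mul_assoc
      mul_comm := C.mul_comm
      one_mul := C.top_mul
      mul_one := C.mul_top }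
  haveI : IsOrderedMonoid A := ⟨fun a b h c => C.mono_l h c, fun a b h c => C.mono_r h c⟩
  have hm : ∀ x y : A, C.mul x y = x * y := fun _ _ => rfl
  have hp : ∀ (v : ℕ → A) (a : Fm) (n : ℕ), C.eval v (pw a n) = C.eval v a ^ n := by
    intro v a n
    induction n with
    | zero => exact C.imp_eq_top.2 le_rfl
    | succ n ih => rw [pow_succ, ← ih]; rfl
  set e := min (C.eval v E1) (C.eval w E2) with he
  have e1 : e ≤ C.eval v E1 := min_le_left _ _
  have e2 : e ≤ C.eval w E2 := min_le_right _ _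
  simp only [E1, E2, Chain.eval, Fm.neg, hp, le_min_iff, ← C.res, hm] at e1 e2
  have := nil_aux (fun x => le_top) ⊥ (fun x => C.imp x ⊥) (fun x y => C.res x y ⊥) e (v 0) (v 1)
    (w 0) e1.1.1 e1.1.2 e1.2 e2.1.1 e2.1.2 e2.2
  simp only [Chain.eval, Fm.neg, hp, Chain.imp_eq_top]
  rcases min_choice (C.eval v E1) (C.eval w E2) with h | h
  · left; rwa [he, h] at this
  · right; rwa [he, h] at this

/-- the six-element involutive chain `0 < a < b < c < d < 1` with `dd = dc = cc = db = a` -/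
def C6 : Chain (Fin 6) where
  mul x y := if x = 5 then y else if y = 5 then x else if 5 < x.val + y.val then 1 else 0
  imp x y := if x ≤ y then 5 else if x = 5 then y else if y = 0 then 5 - x else 4
  mul_comm := by decide
  mul_assoc := by decide
  mul_top := by decide
  res := by decide

/-- the five-element Lukasiewicz chain -/
def C5 : Chain (Fin 5) where
  mul x y := Fin.ofNat 5 (x.val + y.val - 4)
  imp x y := Fin.ofNat 5 (4 - (x.val - y.val))
  mul_comm := by decide
  mul_assoc := by decide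
  mul_top := by decide
  res := by decide

theorem not_scc {L : Logic} (h6 : C6.IsL L) (h5 : C5.IsL L) : ¬ SCC.{u} L := by
  rintro ⟨A, _, _, C, -, hC⟩
  by_cases h : ∀ v, C.eval v (pw E1 57).neg = ⊤
  · have := C6.sound h6 (fun n => if n = 0 then 2 else 4) ((hC _).2 h)
    revert this
    decide +kernel
  · push Not at h
    obtain ⟨v, hv⟩ := h
    have := C5.sound h5 (fun _ => 3) ((hC _).2 fun w => (dichotomy C v w).resolve_left hv)
    revert this
    decide +kernel

theorem not_scc_MTL : ¬ SCC.{u} .MTL := not_scc trivial trivial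

theorem not_scc_IMTL : ¬ SCC.{u} .IMTL :=
  not_scc (by unfold Chain.IsL; decide) (by unfold Chain.IsL; decide)

namespace Chain

variable {A : Type u} [LinearOrder A] [BoundedOrder A] (C : Chain A)

theorem bot_mul (x : A) : C.mul ⊥ x = ⊥ := le_bot_iff.1 (C.mul_le_l _ _)

theorem mul_bot (x : A) : C.mul x ⊥ = ⊥ := le_bot_iff.1 (C.mul_le_r _ _)

theorem le_imp (x y : A) : y ≤ C.imp x y := (C.res _ _ _).1 (C.mul_le_l _ _)

theorem neg_eq (h : C.IsL .PiMTL) {x : A} (hx : x ≠ ⊥) : C.imp x ⊥ = ⊥ := by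
  have := C.imp_eq_top.1 (h.2 x)
  rw [le_bot_iff, min_eq_bot] at this
  exact this.resolve_left hx

theorem mul_ne (h : C.IsL .PiMTL) {x y : A} (hx : x ≠ ⊥) (hy : y ≠ ⊥) : C.mul x y ≠ ⊥ := by
  intro h0
  have := (C.res x y ⊥).1 h0.le
  rw [C.neg_eq h hy] at this
  exact hx (le_bot_iff.1 this)

theorem mul_lt (h : C.IsL .PiMTL) {x y z : A} (hz : z ≠ ⊥) (hxy : x < y) :
    C.mul x z < C.mul y z := by
  by_contra hn
  have h1 := h.1 y x z
  unfold Chain.neg at h1
  rw [C.neg_eq h hz, C.imp_eq_top.2 (le_refl ⊥), C.top_imp, C.imp_eq_top.2 (not_lt.1 hn), C.top_imp,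
    C.imp_eq_top] at h1
  exact absurd hxy (not_lt.2 h1)

theorem isPi (h1 : ∀ x, x ≠ ⊥ → C.imp x ⊥ = ⊥)
    (h2 : ∀ x y z, z ≠ ⊥ → x < y → C.mul x z < C.mul y z) : C.IsL .PiMTL := by
  refine ⟨fun x y z => ?_, fun x => ?_⟩
  · rw [C.imp_eq_top]
    by_cases hz : z = ⊥
    · unfold Chain.neg
      rw [hz, C.imp_eq_top.2 (le_refl ⊥), C.top_imp]
      exact bot_le
    · refine le_top.trans (top_le_iff.2 (C.imp_eq_top.2 ?_))
      rw [← C.res]
      by_contra hn
      have := h2 _ _ z hz (not_le.1 hn)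
      rw [C.mul_assoc] at this
      exact absurd (C.imp_mul _ _) (not_le.2 this)
  · rw [C.imp_eq_top]
    by_cases hx : x = ⊥
    · exact (min_le_left _ _).trans hx.le
    · exact (min_le_right _ _).trans (h1 x hx).le

end Chain

section Prod

open Classical

variable {ι : Type} [LinearOrder ι] [WellFoundedLT ι] [Nonempty ι] {A : ι → Type}
  [∀ i, LinearOrder (A i)] [∀ i, BoundedOrder (A i)] [∀ i, Nontrivial (A i)]
  (C : ∀ i, Chain (A i))

/-- pointwise product -/
def pm (x y : Lex (∀ i, A i)) : Lex (∀ i, A i) := toLex fun i => (C i).mul (x i) (y i)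

/-- lexicographic residuum -/
noncomputable def pr (y z : Lex (∀ i, A i)) : Lex (∀ i, A i) := toLex fun j =>
  if ∀ m < j, (C m).mul ((C m).imp (y m) (z m)) (y m) = z m then (C j).imp (y j) (z j) else ⊤

theorem lex_lt (x y : Lex (∀ i, A i)) : x < y ↔ ∃ i, (∀ j < i, x j = y j) ∧ x i < y i := Iff.rfl

theorem pr_mul (y z : Lex (∀ i, A i)) : pm C (pr C y z) y ≤ z := by
  by_contra hn
  obtain ⟨i, h1, h2⟩ := (lex_lt _ _).1 (not_le.1 hn)
  have key : ∀ j, j ≤ i → pr C y z j = (C j).imp (y j) (z j) := by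
    intro j
    induction j using WellFoundedLT.induction with
    | ind j ih =>
      intro hj
      refine if_pos fun m hm => ?_
      rw [← ih m hm (hm.le.trans hj)]
      exact (h1 m (hm.trans_le hj)).symm
  have : pm C (pr C y z) y i = (C i).mul (pr C y z i) (y i) := rfl
  rw [this, key i le_rfl] at h2
  exact absurd ((C i).imp_mul _ _) (not_le.2 h2)

theorem le_pr {x y z : Lex (∀ i, A i)} (h : pm C x y ≤ z) : x ≤ pr C y z := by
  by_contra hn
  obtain ⟨i, h1, h2⟩ := (lex_lt _ _).1 (not_le.1 hn)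
  have hc : ∀ m < i, (C m).mul ((C m).imp (y m) (z m)) (y m) = z m := by
    by_contra hc
    have : pr C y z i = ⊤ := if_neg hc
    rw [this] at h2
    exact not_top_lt h2
  have e1 : pr C y z i = (C i).imp (y i) (z i) := if_pos hc
  refine absurd h (not_le.2 ((lex_lt _ _).2 ⟨i, fun j hj => ?_, ?_⟩))
  · have e2 : pr C y z j = (C j).imp (y j) (z j) := if_pos fun m hm => hc m (hm.trans hj)
    show z j = (C j).mul (x j) (y j)
    rw [← h1 j hj, e2, hc j hj]
  · show z i < (C i).mul (x i) (y i)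
    rw [e1] at h2
    exact not_le.1 fun h3 => absurd (((C i).res _ _ _).1 h3) (not_le.2 h2)

theorem pm_lt (hC : ∀ i, (C i).IsL .PiMTL) {x y z : Lex (∀ i, A i)} (hz : ∀ i, z i ≠ ⊥)
    (h : x < y) : pm C x z < pm C y z := by
  obtain ⟨i, h1, h2⟩ := (lex_lt _ _).1 h
  refine (lex_lt _ _).2 ⟨i, fun j hj => ?_, (C i).mul_lt (hC i) (hz i) h2⟩
  show (C j).mul (x j) (z j) = (C j).mul (y j) (z j)
  rw [h1 j hj]

variable (A) in
/-- the big chain -/
def Big : Type := {x : Lex (∀ i, A i) // x = ⊥ ∨ ∀ i, x i ≠ ⊥}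

noncomputable instance : LinearOrder (Big A) := inferInstanceAs (LinearOrder {_x : Lex (∀ i, A i) // _})

instance : BoundedOrder (Big A) where
  top := ⟨⊤, Or.inr fun _ => top_ne_bot⟩
  le_top x := show x.1 ≤ ⊤ from le_top
  bot := ⟨⊥, Or.inl rfl⟩
  bot_le x := show ⊥ ≤ x.1 from bot_le

theorem Big.le_def (x y : Big A) : x ≤ y ↔ x.1 ≤ y.1 := Iff.rfl

theorem Big.ne_bot {x : Big A} : x ≠ ⊥ ↔ ∀ i, x.1 i ≠ ⊥ := by
  constructor
  · intro h
    exact x.2.resolve_left fun h1 => h (Subtype.ext h1)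
  · rintro h rfl
    exact h (Classical.arbitrary ι) rfl

theorem pm_bot (x : Lex (∀ i, A i)) : pm C x ⊥ = ⊥ := funext fun i => (C i).mul_bot _

theorem bot_pm (x : Lex (∀ i, A i)) : pm C ⊥ x = ⊥ := funext fun i => (C i).bot_mul _

variable (hC : ∀ i, (C i).IsL .PiMTL)

def bm (x y : Big A) : Big A := ⟨pm C x.1 y.1, by
  rcases x.2 with h | h
  · rw [h]; exact Or.inl (bot_pm C _)
  · rcases y.2 with h' | h'
    · rw [h']; exact Or.inl (pm_bot C _)
    · exact Or.inr fun i => (C i).mul_ne (hC i) (h i) (h' i)⟩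

noncomputable def bi (y z : Big A) : Big A :=
  if h : z = ⊥ then (if y = ⊥ then ⊤ else ⊥) else ⟨pr C y.1 z.1, Or.inr fun j => by
    show (if _ then _ else _) ≠ _
    split_ifs
    · exact ne_bot_of_le_ne_bot (Big.ne_bot.1 h j) ((C j).le_imp _ _)
    · exact top_ne_bot⟩

theorem bm_lt {x y z : Big A} (hz : z ≠ ⊥) (h : x < y) : bm C hC x z < bm C hC y z :=
  pm_lt C hC (Big.ne_bot.1 hz) h

theorem bm_bot (x : Big A) : bm C hC x ⊥ = ⊥ := Subtype.ext (pm_bot C _)

theorem bot_bm (x : Big A) : bm C hC ⊥ x = ⊥ := Subtype.ext (bot_pm C _)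

noncomputable def BC : Chain (Big A) where
  mul := bm C hC
  imp := bi C
  mul_comm x y := Subtype.ext (funext fun i => (C i).mul_comm _ _)
  mul_assoc x y z := Subtype.ext (funext fun i => (C i).mul_assoc _ _ _)
  mul_top x := Subtype.ext (funext fun i => (C i).mul_top _)
  res x y z := by
    unfold bi
    split_ifs with hz hy
    · rw [hy, bm_bot]; simp
    · rw [hz, le_bot_iff, le_bot_iff]
      constructor
      · intro h
        by_contra hx
        have := bm_lt C hC hy (bot_lt_iff_ne_bot.2 hx)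
        rw [h] at this
        exact not_lt_bot this
      · rintro rfl
        exact bot_bm C hC y
    · refine ⟨fun h => le_pr C h, fun h => ?_⟩
      by_cases hy : y = ⊥
      · rw [hy, bm_bot]; exact bot_le
      · refine (Big.le_def _ _).2 (le_trans ?_ (pr_mul C y.1 z.1))
        rcases ((Big.le_def _ _).1 h).lt_or_eq with h1 | h1
        · exact (pm_lt C hC (Big.ne_bot.1 hy) h1).le
        · exact le_of_eq (congrArg (fun w => pm C w y.1) h1)

theorem BC_isPi : (BC C hC).IsL .PiMTL := by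
  refine (BC C hC).isPi (fun x hx => ?_) fun x y z hz h => bm_lt C hC hz h
  show bi C x ⊥ = ⊥
  unfold bi
  rw [dif_pos rfl, if_neg hx]

noncomputable def emb (i : ι) (a : A i) : Big A :=
  if h : a = ⊥ then ⊥ else ⟨toLex (Function.update ⊤ i a), Or.inr fun j => by
    show Function.update (⊤ : ∀ i, A i) i a j ≠ ⊥
    by_cases hj : j = i
    · subst hj; rwa [Function.update_self]
    · rw [Function.update_of_ne hj]; exact top_ne_bot⟩

theorem emb_bot (i : ι) : emb (A := A) i ⊥ = ⊥ := dif_pos rfl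

theorem emb_val {i : ι} {a : A i} (h : a ≠ ⊥) : (emb i a).1 = toLex (Function.update ⊤ i a) := by
  unfold emb
  rw [dif_neg h]

theorem emb_ne {i : ι} {a : A i} (h : a ≠ ⊥) : emb i a ≠ ⊥ := by
  intro h1
  have h2 := congrFun (emb_val h) i
  rw [h1] at h2
  simp only [Pi.toLex_apply, Function.update_self] at h2
  exact h h2.symm

theorem emb_mono (i : ι) : Monotone (emb (A := A) i) := by
  intro a b h
  by_cases ha : a = ⊥
  · rw [ha, emb_bot]; exact bot_le
  · rw [Big.le_def, emb_val ha, emb_val (ne_bot_of_le_ne_bot ha h)]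
    exact Pi.toLex_monotone (update_le_update_iff'.2 h)

theorem emb_top (i : ι) : emb (A := A) i ⊤ = ⊤ := by
  apply Subtype.ext
  rw [emb_val top_ne_bot]
  exact congrArg toLex (Function.update_eq_self i ⊤)

theorem emb_eq_top {i : ι} {a : A i} (h : emb i a = ⊤) : a = ⊤ := by
  by_cases ha : a = ⊥
  · rw [ha, emb_bot, ← emb_top i] at h
    exact absurd h.symm (emb_ne top_ne_bot)
  · have h2 := congrFun (emb_val ha) i
    rw [h] at h2
    simp only [Pi.toLex_apply, Function.update_self] at h2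
    exact h2.symm

theorem emb_mul (i : ι) (a b : A i) :
    (BC C hC).mul (emb i a) (emb i b) = emb i ((C i).mul a b) := by
  by_cases ha : a = ⊥
  · rw [ha, (C i).bot_mul, emb_bot, Chain.bot_mul]
  by_cases hb : b = ⊥
  · rw [hb, (C i).mul_bot, emb_bot, Chain.mul_bot]
  apply Subtype.ext
  show pm C _ _ = _
  rw [emb_val ha, emb_val hb, emb_val ((C i).mul_ne (hC i) ha hb)]
  funext j
  show (C j).mul (Function.update (⊤ : ∀ i, A i) i a j) (Function.update (⊤ : ∀ i, A i) i b j) =
    Function.update (⊤ : ∀ i, A i) i _ j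
  by_cases hj : j = i
  · subst hj; simp
  · simp [Function.update_of_ne hj, Chain.mul_top]

theorem emb_imp (i : ι) (a b : A i) :
    (BC C hC).imp (emb i a) (emb i b) = emb i ((C i).imp a b) := by
  by_cases ha : a = ⊥
  · rw [ha, emb_bot, (C i).imp_eq_top.2 bot_le, emb_top, Chain.imp_eq_top]
    exact bot_le
  by_cases hb : b = ⊥
  · rw [hb, (C i).neg_eq (hC i) ha, emb_bot, (BC C hC).neg_eq (BC_isPi C hC) (emb_ne ha)]
  apply Subtype.ext
  show (bi C _ _).1 = _
  unfold bi
  rw [dif_neg (emb_ne hb), emb_val (ne_bot_of_le_ne_bot hb ((C i).le_imp a b))]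
  show pr C _ _ = _
  rw [emb_val ha, emb_val hb]
  funext j
  show (if _ then _ else _) = Function.update (⊤ : ∀ i, A i) i _ j
  simp only [Pi.toLex_apply]
  by_cases hj : j = i
  · subst hj
    rw [if_pos]
    · simp
    · intro m hm
      simp [Function.update_of_ne hm.ne, Chain.mul_top, Chain.top_imp]
  · simp [Function.update_of_ne hj, Chain.top_imp]

theorem emb_eval (i : ι) (v : ℕ → A i) (a : Fm) :
    (BC C hC).eval (fun n => emb i (v n)) a = emb i ((C i).eval v a) := by
  induction a with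
  | var n => rfl
  | bot => exact (emb_bot i).symm
  | conj a b iha ihb => simp only [Chain.eval, iha, ihb, emb_mul]
  | imp a b iha ihb => simp only [Chain.eval, iha, ihb, emb_imp]
  | meet a b iha ihb => simp only [Chain.eval, iha, ihb, (emb_mono i).map_min]

end Prod

/-- the two-element chain -/
def C2 : Chain Bool where
  mul x y := x && y
  imp x y := !x || y
  mul_comm := by decide
  mul_assoc := by decide
  mul_top := by decide
  res := by decide

theorem scc_Pi : SCC.{0} .PiMTL := by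
  let ι := {a : Fm // ¬ Prov .PiMTL a}
  obtain ⟨_, _⟩ := exists_wellFoundedLT ι
  haveI : Nonempty ι := ⟨⟨.bot, fun h => by
    have := C2.sound (L := .PiMTL) (by unfold Chain.IsL; decide) (fun _ => true) h
    exact absurd this (by decide)⟩⟩
  choose A lin bdd C v hC hv using fun i : ι => complete i.2
  haveI : ∀ i, Nontrivial (A i) := fun i => ⟨⟨_, _, hv i⟩⟩
  refine ⟨Big A, inferInstance, inferInstance, BC C hC, BC_isPi C hC, fun a =>
    ⟨fun h w => (BC C hC).sound (BC_isPi C hC) w h, fun h => ?_⟩⟩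
  by_contra hn
  have := h fun n => emb ⟨a, hn⟩ (v ⟨a, hn⟩ n)
  rw [emb_eval] at this
  exact hv ⟨a, hn⟩ (emb_eq_top this)

end Pool.Agent.H32.Fuzzy
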