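import Mathlib

namespace Pool.Agent.H32.MinRank

open Matrix MvPolynomial

section low

variable {α β : Type} [Fintype α] [Fintype β]

def mdet (R : ℕ) {A : Type} [CommRing A] [Algebra ℂ A] (X : Matrix α β A)
    (U : Matrix (Fin R) α ℂ) (W : Matrix β (Fin R) ℂ) : A :=
  (U.map (algebraMap ℂ A) * X * W.map (algebraMap ℂ A)).det

theorem mdet_map {R : ℕ} {A B : Type} [CommRing A] [Algebra ℂ A] [CommRing B] [Algebra ℂ B]
    (φ : A →ₐ[ℂ] B) (X : Matrix α β A) (U : Matrix (Fin R) α ℂ) (W : Matrix β (Fin R) ℂ) :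
    φ (mdet R X U W) = mdet R (X.map φ) U W := by
  unfold mdet
  rw [AlgHom.map_det]
  congr 1
  simp only [AlgHom.mapMatrix_apply]
  rw [Matrix.map_mul, Matrix.map_mul, Matrix.map_map, Matrix.map_map]
  have : (φ : A → B) ∘ algebraMap ℂ A = algebraMap ℂ B := by funext x; simp
  rw [this]

theorem mdet_smul {R : ℕ} {A : Type} [CommRing A] [Algebra ℂ A] (c : A) (X : Matrix α β A)
    (U : Matrix (Fin R) α ℂ) (W : Matrix β (Fin R) ℂ) :
    mdet R (c • X) U W = c ^ R * mdet R X U W := by
  unfold mdet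
  rw [Matrix.mul_smul, Matrix.smul_mul, Matrix.det_smul, Fintype.card_fin]

theorem mdet_eq_zero {R : ℕ} {K : Type} [Field K] [Algebra ℂ K] {X : Matrix α β K}
    (h : X.rank < R) (U : Matrix (Fin R) α ℂ) (W : Matrix β (Fin R) ℂ) : mdet R X U W = 0 := by
  by_contra h0
  have h1 := Matrix.rank_of_det_ne_zero h0
  have h2 := (Matrix.rank_mul_le_left (U.map (algebraMap ℂ K) * X) (W.map (algebraMap ℂ K))).trans
    (Matrix.rank_mul_le_right _ _)
  rw [h1, Fintype.card_fin] at h2
  omega

theorem exists_mdet {R : ℕ} {X : Matrix α β ℂ} (h : R ≤ X.rank) :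
    ∃ U W, mdet R X U W ≠ 0 := by
  classical
  obtain ⟨v, hv⟩ := exists_linearIndependent_of_le_finrank
    (R := ℂ) (M := LinearMap.range X.mulVecLin) h
  have hv' := hv.map' (LinearMap.range X.mulVecLin).subtype (Submodule.ker_subtype _)
  choose w hw using fun i => (v i).2
  let W : Matrix β (Fin R) ℂ := Matrix.of fun b i => w i b
  have hcol : (X * W).col = (LinearMap.range X.mulVecLin).subtype ∘ v := by
    funext i a
    have := congrFun (hw i) a
    simp only [mulVecLin_apply, mulVec, dotProduct] at this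
    simp [W, Matrix.mul_apply, this]
  have hinj : Function.Injective (X * W).mulVec :=
    Matrix.mulVec_injective_iff.2 (hcol ▸ hv')
  obtain ⟨g, hg⟩ := LinearMap.exists_leftInverse_of_injective (Matrix.toLin' (X * W))
    (LinearMap.ker_eq_bot.2 hinj)
  refine ⟨LinearMap.toMatrix' g, W, ?_⟩
  have : LinearMap.toMatrix' g * X * W = 1 := by
    rw [Matrix.mul_assoc, ← LinearMap.toMatrix'_toLin' (X * W), ← LinearMap.toMatrix'_comp, hg,
      LinearMap.toMatrix'_id]
  simp [mdet, this]

end low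

theorem spec {K ι : Type} [Field K] [Algebra ℂ K] [Finite ι] (V : ValuationSubring K)
    (hV : ∀ a : ℂ, algebraMap ℂ K a ∈ V) (y : ι → K) (hy : ∀ i, y i ∈ V) :
    ∃ p : ι → ℂ, ∀ g : MvPolynomial ι ℂ, V.valuation (aeval y g) < 1 → aeval p g = 0 := by
  have hmem : ∀ g : MvPolynomial ι ℂ, aeval y g ∈ V := by
    intro g
    induction g using MvPolynomial.induction_on with
    | C a => simpa using hV a
    | add p q hp hq => rw [map_add]; exact V.add_mem _ _ hp hq
    | mul_X p i hp => rw [map_mul, aeval_X]; exact V.mul_mem _ _ hp (hy i)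
  let I : Ideal (MvPolynomial ι ℂ) :=
    { carrier := {g | V.valuation (aeval y g) < 1}
      zero_mem' := by simp
      add_mem' := by
        intro a b ha hb
        simp only [Set.mem_ofPred_eq, map_add] at ha hb ⊢
        exact lt_of_le_of_lt (V.valuation.map_add _ _) (max_lt ha hb)
      smul_mem' := by
        intro c a ha
        simp only [Set.mem_ofPred_eq, smul_eq_mul, map_mul] at ha ⊢
        exact lt_of_le_of_lt (mul_le_of_le_one_left' ((V.valuation_le_one_iff _).2 (hmem c))) ha }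
  have hI : I ≠ ⊤ := by
    rw [Ideal.ne_top_iff_one]
    intro h
    have h' : V.valuation (aeval y (1 : MvPolynomial ι ℂ)) < 1 := h
    simp at h'
  obtain ⟨M, hM, hIM⟩ := I.exists_le_maximal hI
  obtain ⟨p, hp⟩ := eq_vanishingIdeal_singleton_of_isMaximal ℂ hM
  refine ⟨p, fun g hg => ?_⟩
  have : g ∈ vanishingIdeal ℂ {p} := hp ▸ hIM hg
  exact this p rfl

theorem exists_scale {K κ : Type} [Field K] [Finite κ] (V : ValuationSubring K) (c : κ → K)
    {i : κ} (hi : c i ≠ 0) :
    ∃ j, c j ≠ 0 ∧ (∀ l, V.valuation (c l) ≤ V.valuation (c j)) ∧ ∀ l, (c j)⁻¹ * c l ∈ V := by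
  haveI : Nonempty κ := ⟨i⟩
  obtain ⟨j, hj⟩ := Finite.exists_max fun l => V.valuation (c l)
  have h0 : c j ≠ 0 := by
    intro h
    have := hj i
    rw [h, map_zero, le_zero_iff, Valuation.zero_iff] at this
    exact hi this
  refine ⟨j, h0, hj, fun l => ?_⟩
  rw [← V.valuation_le_one_iff, map_mul, map_inv₀,
    inv_mul_le_one₀ (by rwa [Valuation.pos_iff])]
  exact hj l

theorem generic_open {σ κ α β : Type} [Finite σ] [Fintype κ] [Fintype α] [Fintype β] (R : ℕ)
    (Z : κ → Matrix α β (MvPolynomial σ ℂ)) (z0 : σ → ℂ)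
    (h0 : ∀ c : κ → ℂ, c ≠ 0 → R ≤ (∑ i, c i • (Z i).map (aeval z0)).rank) :
    ∃ P : MvPolynomial σ ℂ, P ≠ 0 ∧ ∀ z : σ → ℂ, aeval z P ≠ 0 →
      ∀ c : κ → ℂ, c ≠ 0 → R ≤ (∑ i, c i • (Z i).map (aeval z)).rank := by
  classical
  let G : Matrix α β (MvPolynomial (σ ⊕ κ) ℂ) :=
    ∑ i, (X (Sum.inr i) : MvPolynomial (σ ⊕ κ) ℂ) • (Z i).map (rename Sum.inl)
  have hG : ∀ {B : Type} [CommRing B] [Algebra ℂ B] (y : σ ⊕ κ → B),
      G.map (aeval y) = ∑ i, y (Sum.inr i) • (Z i).map (aeval (y ∘ Sum.inl)) := by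
    intro B _ _ y
    ext a b
    simp [G, Matrix.sum_apply, aeval_rename]
  let J : κ → Ideal (MvPolynomial (σ ⊕ κ) ℂ) := fun i =>
    Ideal.span (insert (X (Sum.inr i) - 1) {g | ∃ U W, g = mdet R G U W})
  have key : ∀ i, ∃ P : MvPolynomial σ ℂ, P ≠ 0 ∧ rename Sum.inl P ∈ J i := by
    intro i
    by_contra hc
    push Not at hc
    obtain ⟨q, hq, hJq, hdisj⟩ := (J i).exists_le_prime_disjoint
      ((nonZeroDivisors (MvPolynomial σ ℂ)).map
        (rename (R := ℂ) (Sum.inl : σ → σ ⊕ κ)).toRingHom) (by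
        rw [Set.disjoint_left]
        rintro _ h1 ⟨P, hP, rfl⟩
        exact hc P (nonZeroDivisors.ne_zero hP) h1)
    let K := FractionRing (MvPolynomial (σ ⊕ κ) ℂ ⧸ q)
    let ψ : MvPolynomial (σ ⊕ κ) ℂ →ₐ[ℂ] K :=
      (IsScalarTower.toAlgHom ℂ (MvPolynomial (σ ⊕ κ) ℂ ⧸ q) K).comp (Ideal.Quotient.mkₐ ℂ q)
    have hψ : ∀ g, ψ g = 0 ↔ g ∈ q := by
      intro g
      simp [ψ, Ideal.Quotient.eq_zero_iff_mem]
    let f : MvPolynomial σ ℂ →+* K := (ψ.comp (rename Sum.inl)).toRingHom
    have hf : Function.Injective f := by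
      rw [injective_iff_map_eq_zero]
      intro P hP
      by_contra hP0
      exact Set.disjoint_left.1 hdisj ((hψ _).1 hP) ⟨P, mem_nonZeroDivisors_of_ne_zero hP0, rfl⟩
    let m : Ideal (MvPolynomial σ ℂ) := RingHom.ker (aeval z0 : MvPolynomial σ ℂ →ₐ[ℂ] ℂ)
    have hI : m.map f.rangeRestrict ≠ ⊤ := by
      rw [Ideal.ne_top_iff_one, Ideal.mem_map_iff_of_surjective _ f.rangeRestrict_surjective]
      rintro ⟨x, hx, h1⟩
      have : x = 1 := hf (by simpa using congrArg Subtype.val h1)
      subst this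
      simp [m] at hx
    obtain ⟨V, hV1, hV2⟩ := Ideal.image_subset_nonunits_valuationSubring _ hI
    have hfV : ∀ P, f P ∈ V := fun P => hV1 ⟨P, rfl⟩
    have hfm : ∀ P ∈ m, V.valuation (f P) < 1 := fun P hP =>
      V.mem_nonunits_iff.1 (hV2 ⟨_, Ideal.mem_map_of_mem _ hP, rfl⟩)
    have hci : ψ (X (Sum.inr i)) = 1 := by
      have := (hψ _).2 (hJq (Ideal.subset_span (Set.mem_insert _ _)))
      rwa [map_sub, map_one, sub_eq_zero] at this
    obtain ⟨j, hj0, -, hj⟩ := exists_scale V (fun l => ψ (X (Sum.inr l))) (i := i)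
      (by rw [hci]; exact one_ne_zero)
    let y : σ ⊕ κ → K := Sum.elim (fun s => ψ (X (Sum.inl s)))
      (fun l => (ψ (X (Sum.inr j)))⁻¹ * ψ (X (Sum.inr l)))
    obtain ⟨p, hp⟩ := spec V (fun a => by simpa [f] using hfV (C a)) y (by
      rintro (s | l)
      · simpa [f, y] using hfV (X s)
      · exact hj l)
    have hp1 : p ∘ Sum.inl = z0 := by
      funext s
      have := hp (X (Sum.inl s) - C (z0 s)) (by
        have h1 := hfm (X s - C (z0 s)) (by simp [m])
        rw [map_sub] at h1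
        simpa [f, y] using h1)
      simpa [sub_eq_zero] using this
    have hp2 : p (Sum.inr j) = 1 := by
      have := hp (X (Sum.inr j) - 1) (by simp [y, inv_mul_cancel₀ hj0])
      simpa [sub_eq_zero] using this
    obtain ⟨U, W, hUW⟩ := exists_mdet (h0 (p ∘ Sum.inr) (by
      intro h
      have := congrFun h j
      simp [hp2] at this))
    apply hUW
    have e1 : G.map (aeval y) = (ψ (X (Sum.inr j)))⁻¹ • G.map ψ := by
      conv_rhs => rw [aeval_unique ψ]
      rw [hG, hG, Finset.smul_sum]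
      refine Finset.sum_congr rfl fun l _ => ?_
      rw [smul_smul]
      simp only [y, Sum.elim_inr, Function.comp_apply, aeval_X]
      rfl
    have := hp (mdet R G U W) (by
      rw [mdet_map, e1, mdet_smul, ← mdet_map,
        (hψ _).2 (hJq (Ideal.subset_span (Or.inr ⟨U, W, rfl⟩)))]
      simp)
    rw [mdet_map, hG, hp1] at this
    exact this
  choose P hP0 hP using key
  refine ⟨∏ i, P i, Finset.prod_ne_zero_iff.2 fun i _ => hP0 i, fun z hz c hc => ?_⟩
  by_contra hlt
  push Not at hlt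
  obtain ⟨i, hi⟩ := Function.ne_iff.1 hc
  have hi' : c i ≠ 0 := hi
  let y : σ ⊕ κ → ℂ := Sum.elim z (fun l => (c i)⁻¹ * c l)
  have hJ : J i ≤ RingHom.ker (aeval y : MvPolynomial (σ ⊕ κ) ℂ →ₐ[ℂ] ℂ) := by
    rw [Ideal.span_le]
    rintro g (rfl | ⟨U, W, rfl⟩)
    · simp [y, inv_mul_cancel₀ hi']
    · have e1 : G.map (aeval y) = (c i)⁻¹ • ∑ l, c l • (Z l).map (aeval z) := by
        rw [hG, Finset.smul_sum]
        refine Finset.sum_congr rfl fun l _ => ?_
        rw [smul_smul]
        rfl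
      simp only [SetLike.mem_coe, RingHom.mem_ker]
      rw [mdet_map, e1, mdet_smul, mdet_eq_zero hlt, mul_zero]
  have := hJ (hP i)
  rw [RingHom.mem_ker, aeval_rename] at this
  apply hz
  rw [map_prod]
  exact Finset.prod_eq_zero (Finset.mem_univ i) this

theorem dim_thm {a b r : ℕ} (ha : r ≤ a) (hb : r ≤ b) (S : Submodule ℂ (Matrix (Fin a) (Fin b) ℂ))
    (hS : (a - r) * (b - r) < Module.finrank ℂ S) : ∃ s ∈ S, s ≠ 0 ∧ s.rank ≤ r := by
  classical
  by_contra hc
  push Not at hc
  set m := Module.finrank ℂ (Matrix (Fin a) (Fin b) ℂ ⧸ S) with hm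
  have hm2 : m + Module.finrank ℂ S = a * b := by
    rw [hm, Submodule.finrank_quotient_add_finrank]
    simp [Module.finrank_matrix]
  let π : Matrix (Fin a) (Fin b) ℂ →ₗ[ℂ] (Fin m → ℂ) :=
    (Module.finBasis ℂ (Matrix (Fin a) (Fin b) ℂ ⧸ S)).equivFun.toLinearMap ∘ₗ S.mkQ
  have hπ : ∀ s, π s = 0 → s ∈ S := by
    intro s hs
    simpa [π] using hs
  let T := MvPolynomial (Fin a × Fin b) ℂ
  let ℓ : Fin m → T := fun i => ∑ t : Fin a × Fin b, C (π (Matrix.single t.1 t.2 1) i) * X t
  have hℓ : ∀ (p : Fin a × Fin b → ℂ) i, aeval p (ℓ i) = π (Matrix.of fun u v => p (u, v)) i := by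
    intro p i
    rw [Matrix.matrix_eq_sum_single (Matrix.of fun u v => p (u, v))]
    simp only [ℓ, map_sum, map_mul, aeval_C, aeval_X, Fintype.sum_prod_type, Finset.sum_apply,
      Matrix.of_apply]
    refine Finset.sum_congr rfl fun u _ => Finset.sum_congr rfl fun v _ => ?_
    have : Matrix.single u v (p (u, v)) = p (u, v) • Matrix.single u v (1 : ℂ) := by simp
    rw [this, map_smul]
    simp [mul_comm]
  let K := FractionRing T
  let Y : Matrix (Fin a) (Fin b) K := Matrix.of fun u v => algebraMap T K (X (u, v))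
  let e1 : Fin r → Fin a := Fin.castLE ha
  let e2 : Fin r → Fin b := Fin.castLE hb
  have hdet : (Y.submatrix e1 e2).det ≠ 0 := by
    let Y0 : Matrix (Fin r) (Fin r) T := Matrix.of fun i j => X (e1 i, e2 j)
    have h1 : (Y.submatrix e1 e2).det = algebraMap T K Y0.det := by
      rw [RingHom.map_det]; rfl
    rw [h1, Ne, FaithfulSMul.algebraMap_eq_zero_iff]
    intro h2
    have h3 := congrArg (aeval (fun t : Fin a × Fin b => if t.1.val = t.2.val then (1 : ℂ) else 0)) h2
    rw [AlgHom.map_det, map_zero] at h3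
    have h4 : (aeval (fun t : Fin a × Fin b => if t.1.val = t.2.val then (1 : ℂ) else 0) :
        T →ₐ[ℂ] ℂ).mapMatrix Y0 = 1 := by
      ext i j
      simp [Y0, T, e1, e2, Matrix.one_apply, Fin.ext_iff]
    rw [h4] at h3
    simp at h3
  have hu : IsUnit (Y.submatrix e1 e2).det := isUnit_iff_ne_zero.2 hdet
  let x : Matrix (Fin a) (Fin b) K :=
    Y.submatrix id e2 * (Y.submatrix e1 e2)⁻¹ * Y.submatrix e1 id
  have hxr : x.rank ≤ r :=
    (Matrix.rank_mul_le_left _ _).trans ((Matrix.rank_le_card_width _).trans (by simp))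
  have hx1 : x.submatrix id e2 = Y.submatrix id e2 := by
    have : x.submatrix id e2 = Y.submatrix id e2 * (Y.submatrix e1 e2)⁻¹ * Y.submatrix e1 e2 := by
      ext u j; simp [x, Matrix.mul_apply]
    rw [this, Matrix.nonsing_inv_mul_cancel_right _ _ hu]
  have hx2 : x.submatrix e1 id = Y.submatrix e1 id := by
    have : x.submatrix e1 id = Y.submatrix e1 e2 * (Y.submatrix e1 e2)⁻¹ * Y.submatrix e1 id := by
      ext u j; simp [x, Matrix.mul_apply]
    rw [this, Matrix.mul_nonsing_inv _ hu, Matrix.one_mul]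
  let xx : Fin a × Fin b → K := fun t => x t.1 t.2
  let L : Set K := Set.range fun i => aeval xx (ℓ i)
  have hint : ∀ t, xx t ∈ (AlgebraicIndependent.matroid ℂ K).closure L := by
    intro t
    rw [AlgebraicIndependent.matroid_closure_eq, SetLike.mem_coe,
      Subalgebra.mem_algebraicClosure]
    refine IsIntegral.isAlgebraic ?_
    by_contra hni
    obtain ⟨V, hV1, hV2⟩ := Subring.exists_le_valuationSubring_of_isIntegrallyClosedIn
      (R := (integralClosure (Algebra.adjoin ℂ L).toSubring K).toSubring) (x := xx t) hni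
    have hAV : ∀ z ∈ Algebra.adjoin ℂ L, z ∈ V := fun z hz =>
      hV1 (isIntegral_algebraMap (R := (Algebra.adjoin ℂ L).toSubring) (x := ⟨z, hz⟩))
    have ht0 : xx t ≠ 0 := fun h => hV2 (h ▸ V.zero_mem)
    obtain ⟨j, hj0, hj1, hj⟩ := exists_scale V xx ht0
    have hvj : 1 < V.valuation (xx j) :=
      lt_of_lt_of_le (not_le.1 fun h => hV2 ((V.valuation_le_one_iff _).1 h)) (hj1 t)
    obtain ⟨p, hp⟩ := spec V (fun a => hAV _ (Subalgebra.algebraMap_mem _ a))
      (fun l => (xx j)⁻¹ * xx l) hj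
    have hp2 : p j = 1 := by
      have := hp (X j - 1) (by simp [inv_mul_cancel₀ hj0])
      simpa [sub_eq_zero] using this
    have hpS : (Matrix.of fun u v => p (u, v)) ∈ S := by
      refine hπ _ (funext fun i => ?_)
      rw [← hℓ]
      refine hp _ ?_
      have e : aeval (fun l => (xx j)⁻¹ * xx l) (ℓ i) = (xx j)⁻¹ * aeval xx (ℓ i) := by
        simp only [ℓ, map_sum, map_mul, aeval_C, aeval_X]
        rw [Finset.mul_sum]
        exact Finset.sum_congr rfl fun _ _ => by ring
      rw [e, map_mul, map_inv₀, inv_mul_lt_one₀ (lt_trans zero_lt_one hvj)]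
      exact lt_of_le_of_lt ((V.valuation_le_one_iff _).2
        (hAV _ (Algebra.subset_adjoin ⟨i, rfl⟩))) hvj
    obtain ⟨U, W, hUW⟩ := exists_mdet (R := r + 1) (hc _ hpS (by
      intro h
      have := congrFun (congrFun h j.1) j.2
      simp [hp2] at this))
    apply hUW
    let G : Matrix (Fin a) (Fin b) T := Matrix.of fun u v => X (u, v)
    have := hp (mdet (r + 1) G U W) (by
      have e : G.map (aeval (fun l => (xx j)⁻¹ * xx l) : T →ₐ[ℂ] K) = (xx j)⁻¹ • x := by
        ext u v; simp [G, T, xx]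
      rw [mdet_map, e, mdet_smul, mdet_eq_zero (by omega)]
      simp)
    rw [mdet_map] at this
    convert this using 2
    ext u v; simp [G, T]
  let I : Finset (Fin a × Fin b) := Finset.univ.filter fun t => t.1.val < r ∨ t.2.val < r
  have hI : I.card + (a - r) * (b - r) = a * b := by
    have h1 := Finset.card_filter_add_card_filter_not (s := Finset.univ)
      (fun t : Fin a × Fin b => t.1.val < r ∨ t.2.val < r)
    have h2 : (Finset.univ.filter fun t : Fin a × Fin b => ¬ (t.1.val < r ∨ t.2.val < r))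
        = (Finset.univ.filter fun u : Fin a => r ≤ u.val) ×ˢ
          (Finset.univ.filter fun u : Fin b => r ≤ u.val) := by
      ext t; simp
    have h3 : ∀ n, r ≤ n → (Finset.univ.filter fun u : Fin n => r ≤ u.val).card = n - r := by
      intro n hn
      have h4 := Finset.card_filter_add_card_filter_not (s := Finset.univ)
        (fun u : Fin n => u.val < r)
      rw [Fin.card_filter_val_lt, Finset.card_univ, Fintype.card_fin, min_eq_right hn] at h4
      simp only [not_lt] at h4
      omega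
    rw [h2, Finset.card_product, h3 a ha, h3 b hb] at h1
    simpa using h1
  have hind : AlgebraicIndependent ℂ (fun t : I => xx t.1) := by
    have h1 : AlgebraicIndependent ℂ (fun t : Fin a × Fin b => algebraMap T K (X t)) :=
      (MvPolynomial.algebraicIndependent_X (Fin a × Fin b) ℂ).map'
        (f := IsScalarTower.toAlgHom ℂ T K) (IsFractionRing.injective T K)
    have h2 := h1.comp (fun t : I => t.1) Subtype.val_injective
    convert h2 using 1
    funext t
    obtain ⟨⟨u, v⟩, ht⟩ := t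
    simp only [I, Finset.mem_filter, Finset.mem_univ, true_and] at ht
    rcases ht with h | h
    · exact congrFun (congrFun hx2 ⟨u, h⟩) v
    · exact congrFun (congrFun hx1 u) ⟨v, h⟩
  have h5 : (AlgebraicIndependent.matroid ℂ K).Indep (Set.range fun t : I => xx t.1) :=
    AlgebraicIndependent.matroid_indep_iff.2 hind.to_subtype_range
  have h6 := h5.encard_le_eRk_of_subset (X := (AlgebraicIndependent.matroid ℂ K).closure L)
    (by rintro _ ⟨t, rfl⟩; exact hint _)
  rw [Matroid.eRk_closure_eq] at h6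
  have h7 := h6.trans (Matroid.eRk_le_encard _ _)
  have h8 : L.encard ≤ m := by
    simpa using Set.encard_image_le (fun i => aeval xx (ℓ i)) Set.univ
  have h9 : (I.card : ℕ∞) ≤ m := by simpa using hind.injective.encard_range.trans (h7.trans h8)
  have h10 : I.card ≤ m := by exact_mod_cast h9
  omega

end Pool.Agent.H32.MinRank
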