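import Mathlib
import Pool.Agent.H32.MinRankA

namespace Pool.Agent.H32.MinRank

open Matrix

theorem tri {α β ι L : Type} [Fintype α] [Fintype β] [LinearOrder L] (X : Matrix α β ℂ)
    (T : Finset ι) (ρ : ι → α) (γ : ι → β) (key : ι → L) (h1 : ∀ s ∈ T, X (ρ s) (γ s) ≠ 0)
    (h2 : ∀ s ∈ T, ∀ t ∈ T, s ≠ t → key s ≤ key t → X (ρ s) (γ t) = 0) : T.card ≤ X.rank := by
  classical
  have hli : LinearIndependent ℂ (fun s : T => X (ρ s)) := by
    rw [Fintype.linearIndependent_iff]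
    intro g hg
    by_contra hc
    push Not at hc
    obtain ⟨t, ht, hmax⟩ := Finset.exists_max_image (Finset.univ.filter fun s : T => g s ≠ 0)
      (fun s => key s) (by obtain ⟨i, hi⟩ := hc; exact ⟨i, by simpa using hi⟩)
    have h3 := congrFun hg (γ t)
    rw [Finset.sum_apply, Finset.sum_eq_single t] at h3
    · simp only [Pi.smul_apply, smul_eq_mul, Pi.zero_apply, mul_eq_zero] at h3
      exact h3.elim (Finset.mem_filter.1 ht).2 (h1 t t.2)
    · intro s _ hst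
      by_cases hs : g s = 0
      · simp [hs]
      · simp [h2 s s.2 t t.2 (fun h => hst (Subtype.ext h)) (hmax s (by simpa using hs))]
    · simp
  rw [Matrix.rank_eq_finrank_span_row, ← Fintype.card_coe, ← finrank_span_eq_card hli]
  exact Submodule.finrank_mono (Submodule.span_mono (by rintro _ ⟨s, rfl⟩; exact ⟨ρ s, rfl⟩))

noncomputable def G (a b : ℕ) (w : ℕ × ℕ) : Matrix (Fin a) (Fin b) ℂ :=
  Matrix.of fun p q => if q.val + w.1 = p.val + w.2 then ((p.val : ℂ) + 1) ^ w.1 else 0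

open Polynomial in
theorem weight {κ : Type} [Fintype κ] {a b r : ℕ} (ω : κ → ℕ × ℕ) (hω : Function.Injective ω)
    (hb : ∀ i, (ω i).1 + r ≤ a ∧ (ω i).2 + r ≤ b) (c : κ → ℂ) {i0 : κ} (hc : c i0 ≠ 0) :
    ∃ T : Finset (Fin a × Fin b), T.card = r ∧ ∀ t ∈ T,
      t.2.val + (ω i0).1 = t.1.val + (ω i0).2 ∧ ∑ i, c i * G a b (ω i) t.1 t.2 ≠ 0 := by
  classical
  let D : Finset κ := Finset.univ.filter fun i => (ω i).2 + (ω i0).1 = (ω i).1 + (ω i0).2
  let f : ℂ[X] := ∑ i ∈ D, C (c i) * X ^ (ω i).1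
  have hcoef : ∀ n, f.coeff n = ∑ i ∈ D, if n = (ω i).1 then c i else 0 := by
    intro n
    simp [f, finsetSum_coeff, coeff_C_mul, coeff_X_pow]
  have hex : ∀ n, f.coeff n ≠ 0 → ∃ i ∈ D, n = (ω i).1 := by
    intro n hn
    rw [hcoef] at hn
    obtain ⟨i, hi, h⟩ := Finset.exists_ne_zero_of_sum_ne_zero hn
    exact ⟨i, hi, by by_contra h'; exact h (if_neg h')⟩
  have hf0 : f ≠ 0 := by
    intro h
    have h1 := hcoef (ω i0).1
    rw [h, coeff_zero, Finset.sum_eq_single i0] at h1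
    · simp at h1; exact hc h1.symm
    · intro i hi hne
      rw [if_neg]
      intro h2
      have h3 := (Finset.mem_filter.1 hi).2
      exact hne (hω (Prod.ext h2.symm (by omega)))
    · intro h; exact absurd (by simp [D, add_comm]) h
  obtain ⟨i1, hi1, e1⟩ := hex f.natDegree (leadingCoeff_ne_zero.2 hf0)
  obtain ⟨i2, hi2, e2⟩ := hex f.natTrailingDegree (trailingCoeff_nonzero_iff_nonzero.2 hf0)
  have d1 := (Finset.mem_filter.1 hi1).2
  have d2 := (Finset.mem_filter.1 hi2).2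
  obtain ⟨g, hg⟩ : X ^ f.natTrailingDegree ∣ f :=
    X_pow_dvd_iff.2 fun d hd => coeff_eq_zero_of_lt_natTrailingDegree hd
  have hg0 : g ≠ 0 := by rintro rfl; simp at hg; exact hf0 hg
  have hdeg : f.natDegree = f.natTrailingDegree + g.natDegree := by
    conv_lhs => rw [hg]
    rw [natDegree_mul (pow_ne_zero _ X_ne_zero) hg0, natDegree_X_pow]
  set u0 := f.natTrailingDegree
  let Pos := Finset.Ico u0 (f.natDegree + r)
  have hbad : (Pos.filter fun p : ℕ => f.eval ((p : ℂ) + 1) = 0).card ≤ g.natDegree := by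
    refine le_trans (Finset.card_le_card_of_injOn (t := g.roots.toFinset)
      (fun p : ℕ => (p : ℂ) + 1) ?_ ?_) ((Multiset.toFinset_card_le _).trans (card_roots' g))
    · intro p hp
      have h1 := (Finset.mem_filter.1 (Finset.mem_coe.1 hp)).2
      rw [hg, eval_mul, eval_pow, eval_X, mul_eq_zero] at h1
      have h2 : ((p : ℂ) + 1) ^ u0 ≠ 0 := pow_ne_zero _ (by exact_mod_cast Nat.succ_ne_zero p)
      simpa [hg0] using h1.resolve_left h2
    · intro p _ q _ h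
      simpa using h
  have hgood : r ≤ (Pos.filter fun p : ℕ => ¬ f.eval ((p : ℂ) + 1) = 0).card := by
    have h1 := Finset.card_filter_add_card_filter_not (s := Pos)
      (fun p : ℕ => f.eval ((p : ℂ) + 1) = 0)
    rw [Nat.card_Ico] at h1
    omega
  have hev : ∀ t : Fin a × Fin b, t.2.val + (ω i0).1 = t.1.val + (ω i0).2 →
      ∑ i, c i * G a b (ω i) t.1 t.2 = f.eval ((t.1.val : ℂ) + 1) := by
    intro t ht
    simp only [f, D, eval_finsetSum, eval_mul, eval_C, eval_pow, eval_X, Finset.sum_filter, G,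
      Matrix.of_apply]
    refine Finset.sum_congr rfl fun i _ => ?_
    by_cases h : (ω i).2 + (ω i0).1 = (ω i).1 + (ω i0).2
    · rw [if_pos h, if_pos (by omega)]; simp
    · rw [if_neg h, if_neg (by omega), mul_zero]; simp
  let T : Finset (Fin a × Fin b) := Finset.univ.filter fun t =>
    t.2.val + (ω i0).1 = t.1.val + (ω i0).2 ∧ ∑ i, c i * G a b (ω i) t.1 t.2 ≠ 0
  have hT : r ≤ T.card := by
    refine hgood.trans (Finset.card_le_card_of_surjOn (fun t => t.1.val) ?_)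
    intro p hp
    obtain ⟨h1, h2⟩ := Finset.mem_filter.1 (Finset.mem_coe.1 hp)
    rw [Finset.mem_Ico] at h1
    have b1 := hb i1
    have b2 := hb i2
    have hq : (p + (ω i0).2 - (ω i0).1) + (ω i0).1 = p + (ω i0).2 := by omega
    refine ⟨(⟨p, by omega⟩, ⟨p + (ω i0).2 - (ω i0).1, by omega⟩), ?_, rfl⟩
    simp only [T, Finset.coe_filter, Finset.mem_univ, true_and, Set.mem_ofPred_eq]
    exact ⟨hq, by rw [hev (⟨p, by omega⟩, ⟨p + (ω i0).2 - (ω i0).1, by omega⟩) hq]; exact h2⟩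
  obtain ⟨T', hT', hc'⟩ := Finset.exists_subset_card_eq hT
  exact ⟨T', hc', fun t ht => (Finset.mem_filter.1 (hT' ht)).2⟩

theorem tensor_rank {κ1 κ2 : Type} [Fintype κ1] [Fintype κ2] {a1 b1 r1 a2 b2 r2 : ℕ}
    (ω1 : κ1 → ℕ × ℕ) (hω1 : Function.Injective ω1)
    (hb1 : ∀ i, (ω1 i).1 + r1 ≤ a1 ∧ (ω1 i).2 + r1 ≤ b1)
    (ω2 : κ2 → ℕ × ℕ) (hω2 : Function.Injective ω2)
    (hb2 : ∀ i, (ω2 i).1 + r2 ≤ a2 ∧ (ω2 i).2 + r2 ≤ b2) (c : κ1 × κ2 → ℂ) (hc : c ≠ 0) :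
    r1 * r2 ≤ (∑ w, c w • Matrix.kroneckerMap (fun u v : ℂ => u * v) (G a1 b1 (ω1 w.1))
      (G a2 b2 (ω2 w.2))).rank := by
  classical
  let dg : κ1 × κ2 → ℤ ×ₗ ℤ := fun w =>
    toLex (((ω1 w.1).2 : ℤ) - (ω1 w.1).1, ((ω2 w.2).2 : ℤ) - (ω2 w.2).1)
  obtain ⟨⟨i0, j0⟩, hw0, hmax⟩ := Finset.exists_max_image (Finset.univ.filter fun w => c w ≠ 0) dg
    (by obtain ⟨i, hi⟩ := Function.ne_iff.1 hc; exact ⟨i, by simpa using hi⟩)
  have hc0 : c (i0, j0) ≠ 0 := (Finset.mem_filter.1 hw0).2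
  obtain ⟨T1, hT1, h1⟩ := weight ω1 hω1 hb1 (fun i => c (i, j0)) hc0
  have h2 : ∀ t ∈ T1, ∃ T : Finset (Fin a2 × Fin b2), T.card = r2 ∧ ∀ s ∈ T,
      s.2.val + (ω2 j0).1 = s.1.val + (ω2 j0).2 ∧
      ∑ j, (∑ i, c (i, j) * G a1 b1 (ω1 i) t.1 t.2) * G a2 b2 (ω2 j) s.1 s.2 ≠ 0 :=
    fun t ht => weight ω2 hω2 hb2 (fun j => ∑ i, c (i, j) * G a1 b1 (ω1 i) t.1 t.2) (h1 t ht).2
  choose! T2 hT2 h3 using h2
  have hcard : (T1.sigma T2).card = r1 * r2 := by
    rw [Finset.card_sigma, Finset.sum_congr rfl hT2]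
    simp [hT1]
  rw [← hcard]
  refine tri _ (T1.sigma T2) (fun s => (s.1.1, s.2.1)) (fun s => (s.1.2, s.2.2))
    (fun s => (toLex (s.1.1.val, s.2.1.val) : ℕ ×ₗ ℕ)) ?_ ?_
  · intro s hs
    obtain ⟨hs1, hs2⟩ := Finset.mem_sigma.1 hs
    have := (h3 _ hs1 _ hs2).2
    simp only [Finset.sum_mul] at this
    rw [Finset.sum_comm] at this
    simpa [Matrix.sum_apply, Fintype.sum_prod_type, mul_assoc] using this
  · intro s hs t ht hst hkey
    obtain ⟨hs1, hs2⟩ := Finset.mem_sigma.1 hs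
    obtain ⟨ht1, ht2⟩ := Finset.mem_sigma.1 ht
    have a1' := (h1 _ hs1).1
    have a2' := (h1 _ ht1).1
    have a3' := (h3 _ hs1 _ hs2).1
    have a4' := (h3 _ ht1 _ ht2).1
    rw [Matrix.sum_apply]
    refine Finset.sum_eq_zero fun w _ => ?_
    by_contra hne
    simp only [Matrix.smul_apply, kroneckerMap_apply, smul_eq_mul, mul_eq_zero, not_or, G,
      Matrix.of_apply, ite_eq_right_iff, not_forall] at hne
    obtain ⟨n1, ⟨n2, -⟩, ⟨n3, -⟩⟩ := hne
    have h4 := hmax w (by simpa using n1)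
    simp only [dg, Prod.Lex.toLex_le_toLex] at h4 hkey
    apply hst
    obtain ⟨⟨s1, s2⟩, ⟨s3, s4⟩⟩ := s
    obtain ⟨⟨t1, t2⟩, ⟨t3, t4⟩⟩ := t
    simp only at *
    have e1 : s1 = t1 := Fin.ext (by omega)
    have e2 : s2 = t2 := Fin.ext (by omega)
    have e3 : s3 = t3 := Fin.ext (by omega)
    have e4 : s4 = t4 := Fin.ext (by omega)
    rw [e1, e2, e3, e4]

theorem exists_r {a b k : ℕ} (h1 : 1 ≤ k) (h2 : k ≤ a * b) : ∃ r, 1 ≤ r ∧ r ≤ a ∧ r ≤ b ∧
    (a - r) * (b - r) < k ∧ ∃ ω : Fin k → ℕ × ℕ, Function.Injective ω ∧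
      ∀ i, (ω i).1 + r ≤ a ∧ (ω i).2 + r ≤ b := by
  classical
  have hex : ∃ r, (a - r) * (b - r) < k := ⟨a, by simp; omega⟩
  have h3 := Nat.find_spec hex
  obtain ⟨s, hs⟩ : ∃ s, Nat.find hex = s + 1 := by
    refine Nat.exists_eq_succ_of_ne_zero fun h => ?_
    rw [h] at h3
    simp at h3
    omega
  have h4 := Nat.find_min hex (m := s) (by omega)
  rw [hs] at h3
  have h5 : 0 < (a - s) * (b - s) := by omega
  have h6 := Nat.pos_of_mul_pos_right h5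
  have h7 := Nat.pos_of_mul_pos_left h5
  refine ⟨s + 1, by omega, by omega, by omega, h3, fun i =>
    (((finProdFinEquiv.symm (Fin.castLE (not_lt.1 h4) i)).1 : ℕ),
      ((finProdFinEquiv.symm (Fin.castLE (not_lt.1 h4) i)).2 : ℕ)), ?_, ?_⟩
  · intro i j h
    simp only [Prod.mk.injEq] at h
    exact Fin.castLE_injective _ (finProdFinEquiv.symm.injective
      (Prod.ext (Fin.ext h.1) (Fin.ext h.2)))
  · intro i
    have b1 := (finProdFinEquiv.symm (Fin.castLE (not_lt.1 h4) i)).1.2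
    have b2 := (finProdFinEquiv.symm (Fin.castLE (not_lt.1 h4) i)).2.2
    constructor <;> simp only <;> omega

theorem exists_factor {α β : Type} [Fintype α] [Fintype β] (X : Matrix α β ℂ) :
    ∃ (P : Matrix α (Fin X.rank) ℂ) (Q : Matrix (Fin X.rank) β ℂ), X = P * Q := by
  classical
  let B := Module.finBasisOfFinrankEq ℂ (Submodule.span ℂ (Set.range X.col))
    (Matrix.rank_eq_finrank_span_cols X).symm
  refine ⟨Matrix.of fun u i => (B i).1 u,
    Matrix.of fun i v => B.repr ⟨X.col v, Submodule.subset_span ⟨v, rfl⟩⟩ i, ?_⟩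
  ext u v
  have := congrArg (fun z => z.1 u) (B.sum_repr ⟨X.col v, Submodule.subset_span ⟨v, rfl⟩⟩)
  simp only [AddSubmonoidClass.coe_finsetSum, SetLike.val_smul, Finset.sum_apply, Pi.smul_apply,
    smul_eq_mul, col_apply] at this
  rw [Matrix.mul_apply, ← this]
  exact Finset.sum_congr rfl fun i _ => by simp [mul_comm]

theorem rank_kron_le {α β α' β' : Type} [Fintype α] [Fintype β] [Fintype α'] [Fintype β']
    (X : Matrix α β ℂ) (Y : Matrix α' β' ℂ) :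
    (Matrix.kroneckerMap (fun u v : ℂ => u * v) X Y).rank ≤ X.rank * Y.rank := by
  obtain ⟨P, Q, h⟩ := exists_factor X
  obtain ⟨P', Q', h'⟩ := exists_factor Y
  have : Matrix.kroneckerMap (fun u v : ℂ => u * v) X Y
      = Matrix.kroneckerMap (fun u v : ℂ => u * v) P P' *
        Matrix.kroneckerMap (fun u v : ℂ => u * v) Q Q' := by
    rw [← Matrix.mul_kronecker_mul, ← h, ← h']
  rw [this]
  exact (Matrix.rank_mul_le_left _ _).trans ((Matrix.rank_le_card_width _).trans (by simp))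

theorem assemble {a1 b1 k1 a2 b2 k2 r1 r2 : ℕ} (hr1 : 1 ≤ r1) (ha1 : r1 ≤ a1) (hb1 : r1 ≤ b1)
    (hk1 : (a1 - r1) * (b1 - r1) < k1) (hr2 : 1 ≤ r2) (ha2 : r2 ≤ a2) (hb2 : r2 ≤ b2)
    (hk2 : (a2 - r2) * (b2 - r2) < k2)
    (M : Fin k1 → Matrix (Fin a1) (Fin b1) ℂ) (N : Fin k2 → Matrix (Fin a2) (Fin b2) ℂ)
    (h : ∀ c : Fin k1 × Fin k2 → ℂ, c ≠ 0 → r1 * r2 ≤
      (∑ w, c w • Matrix.kroneckerMap (fun u v : ℂ => u * v) (M w.1) (N w.2)).rank) :
    sInf {r : ℕ | ∃ s ∈ Submodule.span ℂ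
        {x : Matrix (Fin a1 × Fin a2) (Fin b1 × Fin b2) ℂ |
          ∃ i j, x = Matrix.kroneckerMap (fun u v : ℂ => u * v) (M i) (N j)},
        s ≠ 0 ∧ s.rank = r}
      = sInf {r : ℕ | ∃ s ∈ Submodule.span ℂ (Set.range M), s ≠ 0 ∧ s.rank = r} *
        sInf {r : ℕ | ∃ s ∈ Submodule.span ℂ (Set.range N), s ≠ 0 ∧ s.rank = r} := by
  have hkron : ∀ (c : Fin k1 → ℂ) (d : Fin k2 → ℂ),
      Matrix.kroneckerMap (fun u v : ℂ => u * v) (∑ i, c i • M i) (∑ j, d j • N j)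
        = ∑ w : Fin k1 × Fin k2, (c w.1 * d w.2) •
          Matrix.kroneckerMap (fun u v : ℂ => u * v) (M w.1) (N w.2) := by
    intro c d
    ext u v
    simp only [kroneckerMap_apply, Matrix.sum_apply, Matrix.smul_apply, smul_eq_mul,
      Fintype.sum_prod_type, Finset.sum_mul_sum]
    exact Finset.sum_congr rfl fun i _ => Finset.sum_congr rfl fun j _ => by ring
  have hpos : 0 < r1 * r2 := Nat.mul_pos hr1 hr2
  have hne : ∀ (c : Fin k1 → ℂ) (d : Fin k2 → ℂ), c ≠ 0 → d ≠ 0 →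
      Matrix.kroneckerMap (fun u v : ℂ => u * v) (∑ i, c i • M i) (∑ j, d j • N j) ≠ 0 := by
    intro c d hc hd h0
    obtain ⟨i, hi⟩ := Function.ne_iff.1 hc
    obtain ⟨j, hj⟩ := Function.ne_iff.1 hd
    have := h (fun w => c w.1 * d w.2) (Function.ne_iff.2 ⟨(i, j), mul_ne_zero hi hj⟩)
    rw [← hkron, h0, Matrix.rank_zero] at this
    omega
  have hk1' : 0 < k1 := by omega
  have hk2' : 0 < k2 := by omega
  have hM : LinearIndependent ℂ M := by
    rw [Fintype.linearIndependent_iff]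
    intro c hc
    by_contra h0
    refine hne c (fun _ => 1) (fun h1 => h0 (congrFun h1))
      (Function.ne_iff.2 ⟨⟨0, hk2'⟩, one_ne_zero⟩) ?_
    rw [hc]; simp
  have hN : LinearIndependent ℂ N := by
    rw [Fintype.linearIndependent_iff]
    intro c hc
    by_contra h0
    refine hne (fun _ => 1) c (Function.ne_iff.2 ⟨⟨0, hk1'⟩, one_ne_zero⟩)
      (fun h1 => h0 (congrFun h1)) ?_
    rw [hc]; simp
  obtain ⟨s1, hs1, hs1', hs1''⟩ := dim_thm ha1 hb1 (Submodule.span ℂ (Set.range M))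
    (by rw [finrank_span_eq_card hM]; simpa using hk1)
  obtain ⟨s2, hs2, hs2', hs2''⟩ := dim_thm ha2 hb2 (Submodule.span ℂ (Set.range N))
    (by rw [finrank_span_eq_card hN]; simpa using hk2)
  have i1 := (Nat.sInf_le (s := {r : ℕ | ∃ s ∈ Submodule.span ℂ (Set.range M), s ≠ 0 ∧ s.rank = r})
    ⟨s1, hs1, hs1', rfl⟩).trans hs1''
  have i2 := (Nat.sInf_le (s := {r : ℕ | ∃ s ∈ Submodule.span ℂ (Set.range N), s ≠ 0 ∧ s.rank = r})
    ⟨s2, hs2, hs2', rfl⟩).trans hs2''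
  obtain ⟨t1, ht1, ht1', e1⟩ := Nat.sInf_mem
    (s := {r : ℕ | ∃ s ∈ Submodule.span ℂ (Set.range M), s ≠ 0 ∧ s.rank = r}) ⟨_, s1, hs1, hs1', rfl⟩
  obtain ⟨t2, ht2, ht2', e2⟩ := Nat.sInf_mem
    (s := {r : ℕ | ∃ s ∈ Submodule.span ℂ (Set.range N), s ≠ 0 ∧ s.rank = r}) ⟨_, s2, hs2, hs2', rfl⟩
  have hset : {x : Matrix (Fin a1 × Fin a2) (Fin b1 × Fin b2) ℂ |
      ∃ i j, x = Matrix.kroneckerMap (fun u v : ℂ => u * v) (M i) (N j)}
      = Set.range fun w : Fin k1 × Fin k2 =>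
        Matrix.kroneckerMap (fun u v : ℂ => u * v) (M w.1) (N w.2) := by
    ext x
    simp [eq_comm]
  rw [hset]
  obtain ⟨c, rfl⟩ := (Submodule.mem_span_range_iff_exists_fun ℂ).1 ht1
  obtain ⟨d, rfl⟩ := (Submodule.mem_span_range_iff_exists_fun ℂ).1 ht2
  have hmem : (Matrix.kroneckerMap (fun u v : ℂ => u * v) (∑ i, c i • M i) (∑ j, d j • N j)).rank ∈
      {r : ℕ | ∃ s ∈ Submodule.span ℂ (Set.range fun w : Fin k1 × Fin k2 =>
        Matrix.kroneckerMap (fun u v : ℂ => u * v) (M w.1) (N w.2)), s ≠ 0 ∧ s.rank = r} :=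
    ⟨_, (Submodule.mem_span_range_iff_exists_fun ℂ).2 ⟨_, (hkron c d).symm⟩,
      hne c d (by rintro rfl; simp at ht1') (by rintro rfl; simp at ht2'), rfl⟩
  apply le_antisymm
  · rw [← e1, ← e2]
    exact (Nat.sInf_le hmem).trans (rank_kron_le _ _)
  · obtain ⟨s, hs, hs', e⟩ := Nat.sInf_mem ⟨_, hmem⟩
    obtain ⟨g, rfl⟩ := (Submodule.mem_span_range_iff_exists_fun ℂ).1 hs
    rw [← e]
    exact (Nat.mul_le_mul i1 i2).trans (h g (by rintro rfl; simp at hs'))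

end Pool.Agent.H32.MinRank
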