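import Mathlib

/-! Multiplier algebra of `L^p(G)` for a compact abelian group `G`. -/

namespace Pool.Agent.H32.MulLp

open MeasureTheory Filter Topology Set
open scoped ENNReal

variable {G : Type*} [AddCommGroup G] [TopologicalSpace G] [IsTopologicalAddGroup G]
  [CompactSpace G] [T2Space G] [MeasurableSpace G] [BorelSpace G]
  (μ : Measure G) [μ.IsAddHaarMeasure] (p : ℝ≥0∞) [Fact (1 ≤ p)]

/-- Translation by `a` on `L^p(G)`: `(tr a f)(x) = f (x + a)`. -/
noncomputable def tr (a : G) : Lp ℂ p μ →L[ℂ] Lp ℂ p μ :=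
  (Lp.compMeasurePreservingₗᵢ ℂ (fun x => x + a)
    (measurePreserving_add_right μ a)).toContinuousLinearMap

/-- The multiplier algebra: bounded operators on `L^p(G)` commuting with all translations. -/
noncomputable def Mult : Subalgebra ℂ (Lp ℂ p μ →L[ℂ] Lp ℂ p μ) :=
  Subalgebra.centralizer ℂ (Set.range (tr μ p))

variable {μ p}

theorem mem_Mult {T : Lp ℂ p μ →L[ℂ] Lp ℂ p μ} :
    T ∈ Mult μ p ↔ ∀ a f, tr μ p a (T f) = T (tr μ p a f) := by
  unfold Mult
  rw [Subalgebra.mem_centralizer_iff]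
  constructor
  · intro h a f
    have := h (tr μ p a) ⟨a, rfl⟩
    exact congrArg (fun S : Lp ℂ p μ →L[ℂ] Lp ℂ p μ => S f) this
  · rintro h _ ⟨a, rfl⟩
    ext1 f
    exact h a f

theorem tr_apply (a : G) (f : Lp ℂ p μ) :
    tr μ p a f = Lp.compMeasurePreserving (fun x => x + a) (measurePreserving_add_right μ a) f :=
  rfl

theorem tr_coe (a : G) (f : Lp ℂ p μ) : tr μ p a f =ᵐ[μ] fun x => f (x + a) :=
  Lp.coeFn_compMeasurePreserving f (measurePreserving_add_right μ a)

theorem norm_tr (a : G) (f : Lp ℂ p μ) : ‖tr μ p a f‖ = ‖f‖ :=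
  Lp.norm_compMeasurePreserving f (measurePreserving_add_right μ a)

theorem tr_tr (a b : G) (f : Lp ℂ p μ) : tr μ p a (tr μ p b f) = tr μ p (a + b) f := by
  apply Lp.ext
  have h1 := tr_coe a (tr μ p b f)
  have h2 := (measurePreserving_add_right μ a).quasiMeasurePreserving.ae_eq_comp (tr_coe b f)
  have h3 := tr_coe (a + b) f
  filter_upwards [h1, h2, h3] with x hx1 hx2 hx3
  rw [hx1, hx3]
  simp only [Function.comp] at hx2
  rw [hx2, add_assoc]

theorem tr_zero (f : Lp ℂ p μ) : tr μ p 0 f = f := by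
  apply Lp.ext
  filter_upwards [tr_coe 0 f] with x hx
  rw [hx, add_zero]

/-- translation as a continuous map -/
def addR (a : G) : C(G, G) := ⟨fun x => x + a, continuous_id.add continuous_const⟩

theorem continuous_addR : Continuous (addR : G → C(G, G)) := by
  apply ContinuousMap.continuous_of_continuous_uncurry
  exact continuous_snd.add continuous_fst

theorem continuous_tr (hp : p ≠ ∞) (f : Lp ℂ p μ) : Continuous fun a => tr μ p a f :=
  Continuous.compMeasurePreservingLp (f := fun _ : G => f) continuous_const continuous_addR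
    (fun a => measurePreserving_add_right μ a) hp

theorem tr_toLp (a : G) (k : C(G, ℂ)) :
    tr μ p a (ContinuousMap.toLp p μ ℂ k) = ContinuousMap.toLp p μ ℂ (k.comp (addR a)) := by
  apply Lp.ext
  have h1 := tr_coe a (ContinuousMap.toLp p μ ℂ k)
  have h2 := (measurePreserving_add_right μ a).quasiMeasurePreserving.ae_eq_comp
    (ContinuousMap.coeFn_toLp (p := p) μ (𝕜 := ℂ) k)
  have h3 := ContinuousMap.coeFn_toLp (p := p) μ (𝕜 := ℂ) (k.comp (addR a))
  filter_upwards [h1, h2, h3] with x hx1 hx2 hx3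
  rw [hx1, hx3]
  simp only [Function.comp] at hx2
  rw [hx2]
  rfl

theorem integrable_of_cont {E : Type*} [NormedAddCommGroup E] {F : G → E} (hF : Continuous F) :
    Integrable F μ := by
  obtain ⟨C, hC⟩ := (isCompact_range hF).isBounded.exists_norm_le
  exact Integrable.of_bound hF.aestronglyMeasurable_of_compactSpace C
    (Eventually.of_forall fun x => hC _ ⟨x, rfl⟩)

/-- convolution with a continuous kernel -/
noncomputable def conv (k : C(G, ℂ)) (f : Lp ℂ p μ) : Lp ℂ p μ :=
  ∫ y, k y • tr μ p (-y) f ∂μ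

theorem cont_integrand (hp : p ≠ ∞) (k : C(G, ℂ)) (f : Lp ℂ p μ) :
    Continuous fun y => k y • tr μ p (-y) f :=
  k.continuous.smul ((continuous_tr hp f).comp continuous_neg)

theorem norm_conv_le (k : C(G, ℂ)) (f : Lp ℂ p μ) :
    ‖conv k f‖ ≤ (∫ y, ‖k y‖ ∂μ) * ‖f‖ := by
  unfold conv
  refine (norm_integral_le_integral_norm _).trans (le_of_eq ?_)
  rw [← integral_mul_const]
  congr 1
  ext y
  rw [norm_smul, norm_tr]

theorem conv_add (hp : p ≠ ∞) (k : C(G, ℂ)) (f g : Lp ℂ p μ) :
    conv k (f + g) = conv k f + conv k g := by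
  unfold conv
  rw [← integral_add (integrable_of_cont (cont_integrand hp k f))
    (integrable_of_cont (cont_integrand hp k g))]
  congr 1
  ext1 y
  rw [map_add, smul_add]

theorem conv_smul (k : C(G, ℂ)) (c : ℂ) (f : Lp ℂ p μ) :
    conv k (c • f) = c • conv k f := by
  unfold conv
  rw [← integral_smul]
  congr 1
  ext1 y
  rw [map_smul, smul_comm]

/-- convolution operator -/
noncomputable def convL (hp : p ≠ ∞) (k : C(G, ℂ)) : Lp ℂ p μ →L[ℂ] Lp ℂ p μ :=
  LinearMap.mkContinuous
    { toFun := conv k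
      map_add' := conv_add hp k
      map_smul' := conv_smul k } (∫ y, ‖k y‖ ∂μ) (norm_conv_le k)

theorem convL_apply (hp : p ≠ ∞) (k : C(G, ℂ)) (f : Lp ℂ p μ) : convL hp k f = conv k f := rfl

theorem map_conv (hp : p ≠ ∞) {T : Lp ℂ p μ →L[ℂ] Lp ℂ p μ} (hT : T ∈ Mult μ p)
    (k : C(G, ℂ)) (f : Lp ℂ p μ) : T (conv k f) = conv k (T f) := by
  unfold conv
  rw [← T.integral_comp_comm (integrable_of_cont (cont_integrand hp k f))]
  congr 1
  ext1 y
  rw [map_smul, mem_Mult.1 hT]

theorem tr_mem (a : G) : tr μ p a ∈ Mult μ p := by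
  rw [mem_Mult]
  intro b f
  rw [tr_tr, tr_tr, add_comm]

theorem convL_mem (hp : p ≠ ∞) (k : C(G, ℂ)) : convL hp k ∈ Mult μ p := by
  rw [mem_Mult]
  intro a f
  rw [convL_apply, convL_apply, map_conv hp (tr_mem a)]

theorem conv_toLp (k f : C(G, ℂ)) :
    conv k (ContinuousMap.toLp p μ ℂ f) =
      ContinuousMap.toLp p μ ℂ (∫ y, k y • f.comp (addR (-y)) ∂μ) := by
  have hc : Continuous fun y => k y • f.comp (addR (-y)) :=
    k.continuous.smul ((ContinuousMap.continuous_postcomp f).comp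
      (continuous_addR.comp continuous_neg))
  rw [← (ContinuousMap.toLp p μ ℂ).integral_comp_comm (integrable_of_cont hc)]
  unfold conv
  refine integral_congr_ae (Eventually.of_forall fun y => ?_)
  simp only [map_smul, tr_toLp]

theorem conv_symm (k f : C(G, ℂ)) :
    conv k (ContinuousMap.toLp p μ ℂ f) = conv f (ContinuousMap.toLp p μ ℂ k) := by
  rw [conv_toLp, conv_toLp]
  congr 1
  ext x
  have hc : ∀ k f : C(G, ℂ), Continuous fun y => k y • f.comp (addR (-y)) := fun k f =>
    k.continuous.smul ((ContinuousMap.continuous_postcomp f).comp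
      (continuous_addR.comp continuous_neg))
  have he : ∀ k f : C(G, ℂ), (∫ y, k y • f.comp (addR (-y)) ∂μ) x =
      ∫ y, k y * f (x - y) ∂μ := by
    intro k f
    have := (ContinuousMap.evalCLM ℂ x (M := ℂ)).integral_comp_comm (μ := μ)
      (integrable_of_cont (hc k f))
    rw [ContinuousMap.evalCLM_apply] at this
    rw [← this]
    congr 1
    ext y
    simp [addR, sub_eq_add_neg]
  rw [he, he, ← integral_sub_left_eq_self (fun y => k y * f (x - y)) μ x]
  congr 1
  ext y
  simp [mul_comm]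

theorem exists_approx (hp : p ≠ ∞) (f : Lp ℂ p μ) {ε : ℝ} (hε : 0 < ε) :
    ∃ k : C(G, ℂ), (∫ y, ‖k y‖ ∂μ) = 1 ∧ ‖conv k f - f‖ ≤ ε := by
  have hc : Continuous fun y : G => ‖tr μ p (-y) f - f‖ :=
    (((continuous_tr hp f).comp continuous_neg).sub continuous_const).norm
  have hcl : IsClosed {y : G | ε ≤ ‖tr μ p (-y) f - f‖} := isClosed_le continuous_const hc
  obtain ⟨g, hg1, hg0, hgc, hg⟩ := exists_continuous_one_zero_of_isCompact
    (isCompact_singleton (x := (0 : G))) hcl (by
      rw [Set.disjoint_singleton_left]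
      simp [tr_zero, hε])
  have hpos : 0 < ∫ y, g y ∂μ :=
    g.continuous.integral_pos_of_hasCompactSupport_nonneg_nonzero hgc (fun x => (hg x).1)
      (x := 0) (by rw [hg1 (mem_singleton _)]; simp)
  set I := ∫ y, g y ∂μ with hI
  have hint : ∫ y, g y / I ∂μ = 1 := by
    rw [integral_div, ← hI, div_self hpos.ne']
  have hnn : ∀ y, 0 ≤ g y / I := fun y => div_nonneg (hg y).1 hpos.le
  have hcont : Continuous fun y => g y / I := g.continuous.div_const I
  refine ⟨⟨fun y => ((g y / I : ℝ) : ℂ), Complex.continuous_ofReal.comp hcont⟩, ?_, ?_⟩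
  · rw [← hint]
    congr 1
    ext y
    simp only [ContinuousMap.coe_mk, Complex.norm_real, Real.norm_eq_abs, abs_of_nonneg (hnn y)]
  · have h1 : f = ∫ y, ((g y / I : ℝ) : ℂ) • f ∂μ := by
      rw [integral_smul_const, integral_complex_ofReal, hint]
      simp
    have hi1 : Integrable (fun y => ((g y / I : ℝ) : ℂ) • f) μ :=
      integrable_of_cont ((Complex.continuous_ofReal.comp hcont).smul continuous_const)
    have hi2 := integrable_of_cont (μ := μ) (cont_integrand hp
      ⟨fun y => ((g y / I : ℝ) : ℂ), Complex.continuous_ofReal.comp hcont⟩ f)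
    unfold conv
    nth_rewrite 2 [h1]
    rw [← integral_sub hi2 hi1]
    refine (norm_integral_le_integral_norm _).trans ?_
    have : ∫ y, g y / I * ε ∂μ = ε := by rw [integral_mul_const, hint, one_mul]
    rw [← this]
    apply integral_mono (hi2.sub hi1).norm (integrable_of_cont (hcont.mul continuous_const))
    intro y
    simp only [ContinuousMap.coe_mk, Pi.sub_apply]
    rw [← smul_sub, norm_smul, Complex.norm_real, Real.norm_eq_abs, abs_of_nonneg (hnn y)]
    by_cases hy : ε ≤ ‖tr μ p (-y) f - f‖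
    · have : g y = 0 := hg0 hy
      simp [this]
    · exact mul_le_mul_of_nonneg_left (le_of_not_ge hy) (hnn y)

theorem exists_l1_le : ∃ C : ℝ, 0 < C ∧ ∀ f : C(G, ℂ),
    (∫ y, ‖f y‖ ∂μ) ≤ C * ‖ContinuousMap.toLp p μ ℂ f‖ := by
  have h1p : (1 : ℝ≥0∞) ≤ p := Fact.out
  refine ⟨(μ univ ^ (1 / (1 : ℝ≥0∞).toReal - 1 / p.toReal)).toReal + 1, by positivity, ?_⟩
  intro f
  have hm : AEStronglyMeasurable f μ := f.continuous.aestronglyMeasurable_of_compactSpace
  have h := eLpNorm_le_eLpNorm_mul_rpow_measure_univ h1p hm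
  have hn : ‖ContinuousMap.toLp p μ ℂ f‖ = (eLpNorm f p μ).toReal := by
    rw [Lp.norm_def, eLpNorm_congr_ae (ContinuousMap.coeFn_toLp (p := p) μ (𝕜 := ℂ) f)]
  have hfin : eLpNorm f p μ ≠ ∞ := by
    rw [← eLpNorm_congr_ae (ContinuousMap.coeFn_toLp (p := p) μ (𝕜 := ℂ) f)]
    exact Lp.eLpNorm_ne_top _
  have hexp : 0 ≤ 1 / (1 : ℝ≥0∞).toReal - 1 / p.toReal := by
    by_cases hp : p = ∞
    · simp [hp]
    · have : 1 ≤ p.toReal := by
        have := ENNReal.toReal_mono hp h1p
        simpa using this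
      have h2 : 1 / p.toReal ≤ 1 := by
        rw [div_le_one (by linarith)]; exact this
      simp only [ENNReal.toReal_one, div_one]
      linarith
  have hfin2 : μ univ ^ (1 / (1 : ℝ≥0∞).toReal - 1 / p.toReal) ≠ ∞ :=
    ENNReal.rpow_ne_top_of_nonneg hexp (measure_ne_top μ _)
  have h2 : ∫ y, ‖f y‖ ∂μ = (eLpNorm f 1 μ).toReal := by
    rw [eLpNorm_one_eq_lintegral_enorm, integral_norm_eq_lintegral_enorm hm]
  rw [h2, hn]
  have h3 := ENNReal.toReal_mono (ENNReal.mul_ne_top hfin hfin2) h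
  rw [ENNReal.toReal_mul] at h3
  have h4 : 0 ≤ (eLpNorm f p μ).toReal := ENNReal.toReal_nonneg
  nlinarith

/-- If multiplication by `T` is injective on a commutative `Mult`, `T` has dense range. -/
theorem dense_range (hp : p ≠ ∞) {T : Lp ℂ p μ →L[ℂ] Lp ℂ p μ} (hT : T ∈ Mult μ p)
    (hinj : ∀ S ∈ Mult μ p, S * T = 0 → S = 0) : DenseRange T := by
  by_contra hd
  have hne : (LinearMap.range (T : Lp ℂ p μ →ₗ[ℂ] Lp ℂ p μ)).topologicalClosure ≠ ⊤ := by
    intro h
    apply hd
    have := Submodule.dense_iff_topologicalClosure_eq_top.2 h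
    exact this
  obtain ⟨v, -, hv⟩ := SetLike.exists_of_lt (lt_top_iff_ne_top.2 hne)
  obtain ⟨φ, hφ0, hφv⟩ := RCLike.geometric_hahn_banach_closed_point (𝕜 := ℂ)
    (s := ((LinearMap.range (T : Lp ℂ p μ →ₗ[ℂ] Lp ℂ p μ)).topologicalClosure :
      Set (Lp ℂ p μ))) (x := v)
    ((Submodule.restrictScalars ℝ
      (LinearMap.range (T : Lp ℂ p μ →ₗ[ℂ] Lp ℂ p μ)).topologicalClosure).convex) (Submodule.isClosed_topologicalClosure _) hv
  obtain ⟨h1, h2⟩ := hφv
  have hz : ∀ f, φ (T f) = 0 := by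
    intro f
    by_contra hne
    have hm : ∀ c : ℂ, c • T f ∈ ((LinearMap.range
        (T : Lp ℂ p μ →ₗ[ℂ] Lp ℂ p μ)).topologicalClosure : Set (Lp ℂ p μ)) := fun c =>
      Submodule.le_topologicalClosure _ (Submodule.smul_mem _ c ⟨f, rfl⟩)
    have := h1 _ (hm ((hφ0 : ℂ) / φ (T f)))
    rw [map_smul, smul_eq_mul, div_mul_cancel₀ _ hne] at this
    simp at this
  have hpos : 0 < hφ0 := by
    have := h1 0 (Submodule.zero_mem _)
    simpa using this
  -- the operator U
  let u : Lp ℂ p μ → C(G, ℂ) := fun f => ⟨fun x => φ (tr μ p x f),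
    φ.continuous.comp (continuous_tr hp f)⟩
  let uL : Lp ℂ p μ →L[ℂ] C(G, ℂ) := LinearMap.mkContinuous
    { toFun := u
      map_add' := fun f g => by ext x; simp [u]
      map_smul' := fun c f => by ext x; simp [u] } ‖φ‖ (fun f => by
        rw [ContinuousMap.norm_le _ (by positivity)]
        intro x
        have := φ.le_opNorm (tr μ p x f)
        rwa [norm_tr] at this)
  have huL : ∀ f x, uL f x = φ (tr μ p x f) := fun f x => rfl
  let U : Lp ℂ p μ →L[ℂ] Lp ℂ p μ := (ContinuousMap.toLp p μ ℂ).comp uL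
  have hU : U ∈ Mult μ p := by
    rw [mem_Mult]
    intro a f
    simp only [U, ContinuousLinearMap.comp_apply]
    rw [tr_toLp]
    congr 1
    ext x
    rw [huL, tr_tr]
    rfl
  have hUT : U * T = 0 := by
    ext1 f
    simp only [U, mul_apply_eq_comp, ContinuousLinearMap.comp_apply,
      zero_apply]
    have : uL (T f) = 0 := by
      ext x
      rw [huL, mem_Mult.1 hT, hz]
      rfl
    rw [this, map_zero]
  have hU0 := hinj U hU hUT
  have : uL v = 0 := by
    apply ContinuousMap.toLp_injective (p := p) (𝕜 := ℂ) μ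
    rw [map_zero]
    exact congrArg (fun S : Lp ℂ p μ →L[ℂ] Lp ℂ p μ => S v) hU0
  have h3 := huL v 0
  rw [this, tr_zero] at h3
  have h4 : φ v = 0 := h3.symm
  rw [h4] at h2
  simp at h2
  linarith

theorem bdd_below (hp : p ≠ ∞) {T : Lp ℂ p μ →L[ℂ] Lp ℂ p μ} (hT : T ∈ Mult μ p)
    (hd : DenseRange T) {c : ℝ} (hc : 0 < c) (hb : ∀ S ∈ Mult μ p, c * ‖S‖ ≤ ‖T * S‖)
    (f : Lp ℂ p μ) : ‖f‖ ≤ 2 / c * ‖T f‖ := by
  obtain ⟨C, hC, hl1⟩ := exists_l1_le (μ := μ) (p := p)
  have hdc : DenseRange (ContinuousMap.toLp p μ ℂ : C(G, ℂ) → Lp ℂ p μ) :=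
    ContinuousMap.toLp_denseRange ℂ μ ℂ hp
  have hdT : DenseRange (T ∘ (ContinuousMap.toLp p μ ℂ : C(G, ℂ) → Lp ℂ p μ)) :=
    hd.comp hdc T.continuous
  refine hdc.induction_on f (isClosed_le continuous_norm
    (continuous_const.mul T.continuous.norm)) ?_
  intro f
  set F := ContinuousMap.toLp p μ ℂ f with hF
  refine le_of_forall_pos_le_add fun ε hε => ?_
  obtain ⟨k, hk1, hk⟩ := exists_approx hp F (half_pos hε)
  set δ := min (1 / C) (ε / 2 / (C * ‖F‖ + 1)) with hδ
  have hδ0 : 0 < δ := lt_min (by positivity) (by positivity)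
  obtain ⟨g, hg⟩ := hdT.exists_dist_lt (ContinuousMap.toLp p μ ℂ k) hδ0
  rw [dist_comm, dist_eq_norm] at hg
  simp only [Function.comp] at hg
  set Gg := ContinuousMap.toLp p μ ℂ g with hG
  set K := ContinuousMap.toLp p μ ℂ k with hK
  -- key identity
  have key : ∀ h : C(G, ℂ), T (conv g (ContinuousMap.toLp p μ ℂ h)) =
      conv k (ContinuousMap.toLp p μ ℂ h) + conv h (T Gg - K) := by
    intro h
    rw [conv_symm g h, map_conv hp hT, conv_symm k h, ← conv_add hp, ← hG, ← hK]
    congr 1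
    abel
  have herr : ∀ h : C(G, ℂ), ‖conv h (T Gg - K)‖ ≤ C * ‖ContinuousMap.toLp p μ ℂ h‖ * δ := by
    intro h
    refine (norm_conv_le _ _).trans ?_
    exact mul_le_mul (hl1 h) hg.le (norm_nonneg _) (by positivity)
  have hnorm : ‖T * convL hp g‖ ≤ 2 := by
    refine ContinuousLinearMap.opNorm_le_bound _ (by norm_num) fun h => ?_
    refine hdc.induction_on h (isClosed_le (T * convL hp g).continuous.norm
      (continuous_const.mul continuous_norm)) ?_
    intro h
    rw [mul_apply_eq_comp, convL_apply, key]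
    refine (norm_add_le _ _).trans ?_
    have e1 := norm_conv_le k (ContinuousMap.toLp p μ ℂ h)
    rw [hk1, one_mul] at e1
    have e2 := herr h
    have e3 : C * δ ≤ 1 := by
      have : δ ≤ 1 / C := min_le_left _ _
      rw [le_div_iff₀ hC] at this
      linarith
    have e4 : 0 ≤ ‖ContinuousMap.toLp p μ ℂ h‖ := norm_nonneg _
    nlinarith
  have hS : ‖convL (μ := μ) hp g‖ ≤ 2 / c := by
    rw [le_div_iff₀ hc]
    have := hb _ (convL_mem hp g)
    linarith
  have e1 : ‖conv g (T F)‖ ≤ 2 / c * ‖T F‖ := by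
    rw [← convL_apply hp]
    exact ((convL hp g).le_opNorm _).trans (mul_le_mul_of_nonneg_right hS (norm_nonneg _))
  rw [← map_conv hp hT, key] at e1
  have e2 := herr f
  rw [← hF] at e1 e2
  have e3 : C * ‖F‖ * δ ≤ ε / 2 := by
    have h1 : δ ≤ ε / 2 / (C * ‖F‖ + 1) := min_le_right _ _
    rw [le_div_iff₀ (by positivity)] at h1
    nlinarith
  have e4 : F = (conv k F + conv f (T Gg - K)) - conv f (T Gg - K) - (conv k F - F) := by abel
  have e5 : ‖F‖ ≤ ‖conv k F + conv f (T Gg - K)‖ + ‖conv f (T Gg - K)‖ + ‖conv k F - F‖ := by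
    conv_lhs => rw [e4]
    exact (norm_sub_le _ _).trans (add_le_add_left (norm_sub_le _ _) _)
  linarith

/-- A multiplier which is not a topological divisor of zero is invertible in `Mult`. -/
theorem isUnit_of_bdd (hp : p ≠ ∞) (T : Mult μ p) (hcomm : ∀ S : Mult μ p, S * T = T * S)
    {c : ℝ} (hc : 0 < c) (hb : ∀ S : Mult μ p, c * ‖S‖ ≤ ‖T * S‖) : IsUnit T := by
  obtain ⟨T, hT⟩ := T
  have hb' : ∀ S ∈ Mult μ p, c * ‖S‖ ≤ ‖T * S‖ := fun S hS => hb ⟨S, hS⟩
  have hd : DenseRange T := by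
    refine dense_range hp hT fun S hS h0 => ?_
    have h1 : S * T = T * S := congrArg Subtype.val (hcomm ⟨S, hS⟩)
    have := hb' S hS
    rw [← h1, h0, norm_zero] at this
    have h2 : ‖S‖ ≤ 0 := by
      by_contra h
      have := mul_pos hc (lt_of_not_ge h)
      linarith
    exact norm_le_zero_iff.1 h2
  have hbb := bdd_below hp hT hd hc hb'
  have hanti : AntilipschitzWith (Real.toNNReal (2 / c)) T := by
    apply AddMonoidHomClass.antilipschitz_of_bound
    intro f
    rw [Real.coe_toNNReal _ (by positivity)]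
    exact hbb f
  have hcl : IsClosed (range T) := hanti.isClosed_range T.uniformContinuous
  have hsurj : Function.Surjective T := by
    rw [← range_eq_univ, ← hcl.closure_eq]
    exact hd.closure_range
  let e := ContinuousLinearEquiv.ofBijective T (LinearMap.ker_eq_bot.2 hanti.injective)
    (LinearMap.range_eq_top.2 hsurj)
  have he : ∀ f, e f = T f := fun f => rfl
  have hinv : (e.symm : Lp ℂ p μ →L[ℂ] Lp ℂ p μ) ∈ Mult μ p := by
    rw [mem_Mult]
    intro a f
    apply e.injective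
    simp only [ContinuousLinearEquiv.coe_coe, ContinuousLinearEquiv.apply_symm_apply]
    rw [he, ← mem_Mult.1 hT, ← he, ContinuousLinearEquiv.apply_symm_apply]
  refine ⟨⟨⟨T, hT⟩, ⟨_, hinv⟩, ?_, ?_⟩, rfl⟩
  · apply Subtype.ext
    ext1 f
    exact e.apply_symm_apply f
  · apply Subtype.ext
    ext1 f
    exact e.symm_apply_apply f

/-- `Mult` is commutative. -/
theorem mult_comm (hp : p ≠ ∞) (S T : Mult μ p) : S * T = T * S := by
  obtain ⟨S, hS⟩ := S
  obtain ⟨T, hT⟩ := T
  apply Subtype.ext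
  show S * T = T * S
  have hdc : DenseRange (ContinuousMap.toLp p μ ℂ : C(G, ℂ) → Lp ℂ p μ) :=
    ContinuousMap.toLp_denseRange ℂ μ ℂ hp
  obtain ⟨C, hC, hl1⟩ := exists_l1_le (μ := μ) (p := p)
  have key : ∀ k : C(G, ℂ), (S * convL hp k) * T = T * (S * convL hp k) := by
    intro k
    have hcl : IsClosed {R : Lp ℂ p μ →L[ℂ] Lp ℂ p μ | R * T = T * R} :=
      isClosed_eq (continuous_id.mul continuous_const) (continuous_const.mul continuous_id)
    show S * convL hp k ∈ {R : Lp ℂ p μ →L[ℂ] Lp ℂ p μ | R * T = T * R}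
    rw [← hcl.closure_eq, Metric.mem_closure_iff]
    intro ε hε
    obtain ⟨k', hk'⟩ := hdc.exists_dist_lt (S (ContinuousMap.toLp p μ ℂ k))
      (show 0 < ε / 2 / C by positivity)
    rw [dist_eq_norm] at hk'
    refine ⟨convL hp k', ?_, ?_⟩
    · ext1 f
      simp only [mul_apply_eq_comp, convL_apply]
      rw [map_conv hp hT]
    · rw [dist_eq_norm]
      refine lt_of_le_of_lt (ContinuousLinearMap.opNorm_le_bound _ (half_pos hε).le
        fun f => ?_) (half_lt_self hε)
      refine hdc.induction_on f (isClosed_le (S * convL hp k - convL hp k').continuous.norm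
        (continuous_const.mul continuous_norm)) ?_
      intro h
      have : (S * convL hp k - convL hp k' : Lp ℂ p μ →L[ℂ] Lp ℂ p μ)
          (ContinuousMap.toLp p μ ℂ h) =
          conv h (S (ContinuousMap.toLp p μ ℂ k) - ContinuousMap.toLp p μ ℂ k') := by
        rw [sub_apply, mul_apply_eq_comp, convL_apply, convL_apply, conv_symm k h,
          conv_symm k' h, map_conv hp hS, ← convL_apply hp, ← convL_apply hp, ← convL_apply hp,
          map_sub]
      rw [this]
      refine (norm_conv_le _ _).trans ?_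
      have h1 := mul_le_mul (hl1 h) hk'.le (norm_nonneg _) (by positivity)
      refine h1.trans (le_of_eq ?_)
      field_simp
  ext1 f
  have hcl : IsClosed {g : Lp ℂ p μ | (S * T) g = (T * S) g} :=
    isClosed_eq (S * T).continuous (T * S).continuous
  show f ∈ {g : Lp ℂ p μ | (S * T) g = (T * S) g}
  rw [← hcl.closure_eq, Metric.mem_closure_iff]
  intro ε hε
  obtain ⟨k, -, hk⟩ := exists_approx hp f (half_pos hε)
  refine ⟨conv k f, ?_, ?_⟩
  · have := congrArg (fun R : Lp ℂ p μ →L[ℂ] Lp ℂ p μ => R f) (key k)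
    simp only [mul_apply_eq_comp, convL_apply] at this
    show (S * T) _ = (T * S) _
    simp only [mul_apply_eq_comp]
    rw [map_conv hp hT, this]
  · rw [dist_comm, dist_eq_norm]
    linarith

end Pool.Agent.H32.MulLp
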