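import Mathlib

namespace Pool.Agent.H32.Multi

open Finset Equiv

theorem even_card_invol {α : Type*} (s : Finset α) (g : α → α) (h1 : ∀ x ∈ s, g x ∈ s)
    (h2 : ∀ x ∈ s, g (g x) = x) (h3 : ∀ x ∈ s, g x ≠ x) : Even s.card := by
  have h : ∑ _x ∈ s, (1 : ZMod 2) = 0 :=
    Finset.sum_involution (fun x _ => g x) (fun _ _ => by decide) (fun x hx _ => h3 x hx)
      (fun x hx => h1 x hx) (fun x hx => h2 x hx)
  rw [Finset.sum_const, nsmul_eq_mul, mul_one] at h
  exact (ZMod.natCast_eq_zero_iff_even).1 h

variable {V κ : Type*} [Fintype V] [DecidableEq V] [Fintype κ] [DecidableEq κ]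

/-- near-perfect matchings of `S` (as involutions) that are minimal for the colouring `c` -/
def Good (c : V → κ) (S : Finset V) (p : Perm V) : Prop :=
  (∀ u, p (p u) = u) ∧ (∀ u, u ∉ S → p u = u) ∧
    (∀ u ∈ S, ∀ v ∈ S, p u = u → p v = v → u = v) ∧
    (∀ u ∈ S, ∀ v ∈ S, (c (p u) ≠ c u ∨ p u = u) → (c (p v) ≠ c v ∨ p v = v) → c u = c v → u = v)

noncomputable instance (c : V → κ) (S : Finset V) (p : Perm V) : Decidable (Good c S p) :=
  Classical.propDecidable _

theorem good_conj (c : V → κ) (S : Finset V) (a b : V) (ha : a ∈ S) (hb : b ∈ S)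
    (hc : c a = c b ∨ ∀ u ∈ S, ∀ v ∈ S, c u = c v → u = v) (p : Perm V) (hp : Good c S p) :
    Good c S (swap a b * p * swap a b) := by
  obtain ⟨h1, h2, h3, h4⟩ := hp
  have hS : ∀ u, u ∈ S → swap a b u ∈ S := by
    intro u hu
    rw [swap_apply_def]; split_ifs <;> assumption
  refine ⟨fun u => by simp [h1], fun u hu => ?_, fun u hu v hv e1 e2 => ?_,
    fun u hu v hv e1 e2 e3 => ?_⟩
  · have e : swap a b u = u :=
      swap_apply_of_ne_of_ne (fun h => hu (h ▸ ha)) (fun h => hu (h ▸ hb))
    simp [e, h2 u hu]
  · simp only [Perm.mul_apply, swap_apply_eq_iff] at e1 e2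
    exact (swap a b).injective (h3 _ (hS u hu) _ (hS v hv) e1 e2)
  · rcases hc with hc | hc
    · have hcs : ∀ x, c (swap a b x) = c x := by
        intro x
        rw [swap_apply_def]; split_ifs with q1 q2
        · rw [q1, hc]
        · rw [q2, hc]
        · rfl
      simp only [Perm.mul_apply, swap_apply_eq_iff, hcs] at e1 e2
      refine (swap a b).injective (h4 _ (hS u hu) _ (hS v hv) ?_ ?_ ?_)
      · rwa [hcs]
      · rwa [hcs]
      · rwa [hcs, hcs]
    · exact hc u hu v hv e3

theorem odd_good (c : V → κ) (S : Finset V) :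
    Odd (univ.filter fun p : Perm V => Good c S p).card := by
  induction S using Finset.strongInduction with | H S ih => ?_
  by_cases hS : ∃ a ∈ S, ∃ b ∈ S, a ≠ b
  swap
  · push Not at hS
    have : (univ.filter fun p : Perm V => Good c S p) = {1} := by
      ext p
      simp only [mem_filter, mem_univ, true_and, mem_singleton]
      constructor
      · rintro ⟨h1, h2, -, -⟩
        ext u
        by_cases hu : u ∈ S
        · by_cases hv : p u ∈ S
          · exact hS _ hv _ hu
          · have := h2 _ hv
            rw [h1] at this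
            exact this.symm
        · exact h2 u hu
      · rintro rfl
        exact ⟨fun _ => rfl, fun _ _ => rfl, fun u hu v hv _ _ => hS u hu v hv,
          fun u hu v hv _ _ _ => hS u hu v hv⟩
    rw [this]; simp
  obtain ⟨a, ha, b, hb, hab, hc⟩ : ∃ a ∈ S, ∃ b ∈ S, a ≠ b ∧
      (c a = c b ∨ ∀ u ∈ S, ∀ v ∈ S, c u = c v → u = v) := by
    by_cases hi : ∀ u ∈ S, ∀ v ∈ S, c u = c v → u = v
    · obtain ⟨a, ha, b, hb, hab⟩ := hS
      exact ⟨a, ha, b, hb, hab, Or.inr hi⟩
    · push Not at hi
      obtain ⟨a, ha, b, hb, h1, h2⟩ := hi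
      exact ⟨a, ha, b, hb, h2, Or.inl h1⟩
  have hsub : (S.erase a).erase b ⊂ S :=
    (erase_subset _ _).trans_ssubset (erase_ssubset ha)
  have ih' := ih _ hsub
  rw [← card_filter_add_card_filter_not (fun p : Perm V => p a = b)]
  refine Odd.add_even ?_ ?_
  · convert ih' using 1
    refine card_bij' (fun p _ => p * swap a b) (fun p _ => p * swap a b) ?_ ?_ ?_ ?_
    · intro p hp
      simp only [mem_filter, mem_univ, true_and] at hp ⊢
      obtain ⟨⟨h1, h2, h3, h4⟩, hpa⟩ := hp
      have hpb : p b = a := by rw [← hpa, h1]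
      have key : ∀ u, u ≠ a → u ≠ b → (p * swap a b) u = p u ∧ p u ≠ a ∧ p u ≠ b := by
        intro u q1 q2
        refine ⟨by simp [swap_apply_of_ne_of_ne q1 q2], fun h => q2 ?_, fun h => q1 ?_⟩
        · rw [← hpa, ← h, h1]
        · rw [← hpb, ← h, h1]
      refine ⟨fun u => ?_, fun u hu => ?_, fun u hu v hv e1 e2 => ?_,
        fun u hu v hv e1 e2 e3 => ?_⟩
      · by_cases q1 : u = a
        · simp [q1, hpb]
        by_cases q2 : u = b
        · simp [q2, hpa]
        obtain ⟨k1, k2, k3⟩ := key u q1 q2
        rw [k1, (key _ k2 k3).1, h1]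
      · by_cases q1 : u = a
        · simp [q1, hpb]
        by_cases q2 : u = b
        · simp [q2, hpa]
        rw [(key u q1 q2).1]
        exact h2 u (by simpa [q1, q2] using hu)
      · simp only [mem_erase] at hu hv
        rw [(key u hu.2.1 hu.1).1] at e1
        rw [(key v hv.2.1 hv.1).1] at e2
        exact h3 u hu.2.2 v hv.2.2 e1 e2
      · simp only [mem_erase] at hu hv
        rw [(key u hu.2.1 hu.1).1] at e1
        rw [(key v hv.2.1 hv.1).1] at e2
        exact h4 u hu.2.2 v hv.2.2 e1 e2 e3
    · intro p hp
      simp only [mem_filter, mem_univ, true_and] at hp ⊢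
      obtain ⟨h1, h2, h3, h4⟩ := hp
      have hpa : p a = a := h2 a (by simp)
      have hpb : p b = b := h2 b (by simp)
      have key : ∀ u, u ≠ a → u ≠ b → (p * swap a b) u = p u ∧ p u ≠ a ∧ p u ≠ b := by
        intro u q1 q2
        refine ⟨by simp [swap_apply_of_ne_of_ne q1 q2], fun h => q1 ?_, fun h => q2 ?_⟩
        · rw [← hpa, ← h, h1]
        · rw [← hpb, ← h, h1]
      have ea : (p * swap a b) a = b := by simp [hpb]
      have eb : (p * swap a b) b = a := by simp [hpa]
      refine ⟨⟨fun u => ?_, fun u hu => ?_, fun u hu v hv e1 e2 => ?_,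
        fun u hu v hv e1 e2 e3 => ?_⟩, ea⟩
      · by_cases q1 : u = a
        · rw [q1, ea, eb]
        by_cases q2 : u = b
        · rw [q2, eb, ea]
        obtain ⟨k1, k2, k3⟩ := key u q1 q2
        rw [k1, (key _ k2 k3).1, h1]
      · have q1 : u ≠ a := fun h => hu (h ▸ ha)
        have q2 : u ≠ b := fun h => hu (h ▸ hb)
        rw [(key u q1 q2).1]
        exact h2 u (by simp [hu])
      · have f : ∀ u, (p * swap a b) u = u → u ≠ a ∧ u ≠ b := by
          intro u e
          constructor
          · rintro rfl; exact hab (by rw [ea] at e; exact e.symm)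
          · rintro rfl; exact hab (by rw [eb] at e; exact e)
        obtain ⟨u1, u2⟩ := f u e1
        obtain ⟨v1, v2⟩ := f v e2
        rw [(key u u1 u2).1] at e1
        rw [(key v v1 v2).1] at e2
        exact h3 u (by simp [*]) v (by simp [*]) e1 e2
      · rcases hc with hc | hc
        · have f : ∀ u, (c ((p * swap a b) u) ≠ c u ∨ (p * swap a b) u = u) → u ≠ a ∧ u ≠ b := by
            intro u e
            constructor
            · rintro rfl
              rw [ea] at e
              rcases e with e | e
              · exact e hc.symm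
              · exact hab e.symm
            · rintro rfl
              rw [eb] at e
              rcases e with e | e
              · exact e hc
              · exact hab e
          obtain ⟨u1, u2⟩ := f u e1
          obtain ⟨v1, v2⟩ := f v e2
          rw [(key u u1 u2).1] at e1
          rw [(key v v1 v2).1] at e2
          exact h4 u (by simp [*]) v (by simp [*]) e1 e2 e3
        · exact hc u hu v hv e3
    · intro p _; simp [mul_assoc]
    · intro p _; simp [mul_assoc]
  · refine even_card_invol _ (fun p => swap a b * p * swap a b) ?_ ?_ ?_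
    · intro p hp
      simp only [mem_filter, mem_univ, true_and] at hp ⊢
      refine ⟨good_conj c S a b ha hb hc p hp.1, fun h => hp.2 ?_⟩
      simp only [Perm.mul_apply, swap_apply_left, swap_apply_eq_iff, swap_apply_right] at h
      rw [← h, hp.1.1]
    · intro p _
      simp [mul_assoc]
    · intro p hp h
      simp only [mem_filter, mem_univ, true_and] at hp
      obtain ⟨⟨h1, h2, h3, h4⟩, hpa⟩ := hp
      have e : swap a b (p a) = p b := by
        have := congrArg (fun q : Perm V => q b) h
        simpa using this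
      by_cases q : p a = a
      · rw [q, swap_apply_left] at e
        exact hab (h3 a ha b hb q e.symm)
      · rw [swap_apply_of_ne_of_ne q hpa] at e
        exact hab (p.injective e)

/-- number of colours used an odd number of times on `U` -/
def oddc (c : V → κ) (U : Finset V) : ℕ :=
  (univ.filter fun a : κ => Odd (U.filter fun u => c u = a).card).card

theorem oddc_le (c : V → κ) (U : Finset V) : oddc c U ≤ U.card := by
  refine le_trans (card_le_card ?_) (card_image_le (f := c))
  intro a ha
  simp only [mem_filter, mem_univ, true_and] at ha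
  obtain ⟨u, hu⟩ := card_pos.1 ha.pos
  simp only [mem_filter] at hu
  exact mem_image.2 ⟨u, hu.1, hu.2⟩

theorem oddc_congr (c : V → κ) (U W : Finset V) (h : W ⊆ U)
    (he : ∀ a, Even ((U \ W).filter fun u => c u = a).card) : oddc c U = oddc c W := by
  unfold oddc
  congr 1
  ext a
  simp only [mem_filter, mem_univ, true_and]
  have e : (U.filter fun u => c u = a).card =
      (W.filter fun u => c u = a).card + ((U \ W).filter fun u => c u = a).card := by
    rw [← card_union_of_disjoint (disjoint_filter_filter disjoint_sdiff), ← filter_union,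
      union_sdiff_of_subset h]
  rw [e, Nat.odd_add]
  simp [he a]

theorem oddc_two (c : V → κ) (U : Finset V) (x y : V) (hx : x ∈ U) (hy : y ∈ U) (hxy : x ≠ y)
    (hc : c x = c y) : oddc c U + 2 ≤ U.card := by
  have hs : ({x, y} : Finset V) ⊆ U := by
    intro z hz
    simp only [mem_insert, mem_singleton] at hz
    rcases hz with rfl | rfl <;> assumption
  rw [oddc_congr c U (U \ {x, y}) sdiff_subset]
  · have h1 := oddc_le c (U \ {x, y})
    have h2 := card_sdiff_add_card_eq_card hs
    rw [card_pair hxy] at h2
    omega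
  · intro a
    rw [Finset.sdiff_sdiff_eq_self hs]
    by_cases q : c x = a
    · rw [filter_true_of_mem, card_pair hxy]
      · exact even_two
      · intro z hz
        simp only [mem_insert, mem_singleton] at hz
        rcases hz with rfl | rfl
        · exact q
        · rw [← hc]; exact q
    · rw [filter_false_of_mem]
      · simp
      · intro z hz
        simp only [mem_insert, mem_singleton] at hz
        rcases hz with rfl | rfl
        · exact q
        · rw [← hc]; exact q

theorem oddc_inj (c : V → κ) (U : Finset V) (h : ∀ u ∈ U, ∀ v ∈ U, c u = c v → u = v) :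
    U.card ≤ oddc c U := by
  refine card_le_card_of_injOn c ?_ (fun u hu v hv e => h u hu v hv e)
  intro u hu
  have hu' : u ∈ U := hu
  have : (U.filter fun v => c v = c u) = {u} := by
    ext v
    simp only [mem_filter, mem_singleton]
    exact ⟨fun hv => h v hv.1 u hu' hv.2, fun hv => by subst hv; exact ⟨hu', rfl⟩⟩
  simp [this]

theorem oddc_univ (c : V → κ) (p : Perm V) (h1 : ∀ u, p (p u) = u) :
    oddc c univ = oddc c (univ.filter fun u => c (p u) ≠ c u ∨ p u = u) := by
  refine oddc_congr c _ _ (subset_univ _) fun a => even_card_invol _ p ?_ (fun x _ => h1 x) ?_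
  · intro x hx
    simp only [mem_filter, mem_sdiff, mem_univ, true_and, not_or, not_not] at hx ⊢
    obtain ⟨⟨e1, e2⟩, e3⟩ := hx
    refine ⟨⟨by rw [h1, e1], fun h => e2 ?_⟩, by rw [e1, e3]⟩
    rw [h1] at h; exact h.symm
  · intro x hx
    simp only [mem_filter, mem_sdiff, mem_univ, true_and, not_or, not_not] at hx
    exact hx.1.2

end Pool.Agent.H32.Multi
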