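import Pool.Agent.H32.Multi1

namespace Pool.Agent.H32.Multi

open Finset Equiv Polynomial

/-- the involution `2j ↔ 2j+1` of the positions -/
def flf (n : ℕ) (i : Fin n) : Fin n :=
  if h : i.1 % 2 = 1 then ⟨i.1 - 1, by omega⟩
  else if h2 : i.1 + 1 < n then ⟨i.1 + 1, h2⟩ else i

theorem flf_val (n : ℕ) (i : Fin n) : (i.1 % 2 = 1 ∧ (flf n i).1 + 1 = i.1) ∨
    (i.1 % 2 = 0 ∧ (flf n i).1 = i.1 + 1) ∨ (i.1 % 2 = 0 ∧ i.1 + 1 = n ∧ (flf n i).1 = i.1) := by
  unfold flf
  have := i.2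
  split_ifs with h1 h2
  · exact Or.inl ⟨h1, by show i.1 - 1 + 1 = i.1; omega⟩
  · exact Or.inr (Or.inl ⟨by omega, rfl⟩)
  · exact Or.inr (Or.inr ⟨by omega, by omega, rfl⟩)

theorem flf_inv (n : ℕ) : Function.Involutive (flf n) := by
  intro i
  apply Fin.ext
  have h1 := flf_val n i
  have h2 := flf_val n (flf n i)
  have h3 := (flf n i).2
  omega

def fl (n : ℕ) : Perm (Fin n) := (flf_inv n).toPerm

variable {n : ℕ}

/-- the partner map of an ordering -/
def pr (σ : Perm (Fin n)) : Perm (Fin n) := σ⁻¹ * fl n * σ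

theorem pr_pr (σ : Perm (Fin n)) (u : Fin n) : pr σ (pr σ u) = u := by
  simp [pr, fl, flf_inv n (σ u)]

theorem s_pr (σ : Perm (Fin n)) (u : Fin n) : σ (pr σ u) = flf n (σ u) := by
  simp [pr, fl]

theorem eq_pr (σ : Perm (Fin n)) (u v : Fin n) : v = pr σ u ↔ (σ v).1 = (flf n (σ u)).1 := by
  rw [← s_pr, Fin.val_inj, σ.injective.eq_iff]

noncomputable def w (j : ℕ) (σ : Perm (Fin n)) (e : Fin n × Fin n) : ℂ[X] :=
  if e.2 = pr σ e.1 ∧ (σ e.1).1 / 2 < j then C (1 / 2) * (X + 1)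
  else if σ e.2 < σ e.1 then X else 1

theorem step (E : Finset (Fin n × Fin n)) (hE : ∀ u v, (u, v) ∈ E → (v, u) ∉ E) (j : ℕ) :
    ∑ σ : Perm (Fin n), ∏ e ∈ E, w j σ e = ∑ σ : Perm (Fin n), ∏ e ∈ E, w (j + 1) σ e := by
  have hne : ∀ e ∈ E, e.1 ≠ e.2 := by
    rintro ⟨u, v⟩ he (h : u = v)
    subst h
    exact hE u u he he
  by_cases hj : 2 * j + 1 < n
  swap
  · refine sum_congr rfl fun σ _ => prod_congr rfl fun e he => ?_
    have h0 : (σ e.1).1 ≠ (σ e.2).1 := fun h => hne e he (σ.injective (Fin.ext h))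
    have h1 := flf_val n (σ e.1)
    have h2 := (σ e.2).2
    have h3 := (σ e.1).2
    unfold w
    refine if_congr ?_ rfl rfl
    rw [eq_pr]
    omega
  set x : Fin n := ⟨2 * j, by omega⟩ with hx
  set y : Fin n := ⟨2 * j + 1, hj⟩ with hy
  have hsw : ∀ i : Fin n, (i.1 = 2 * j ∧ (swap x y i).1 = 2 * j + 1) ∨
      (i.1 = 2 * j + 1 ∧ (swap x y i).1 = 2 * j) ∨
      (i.1 ≠ 2 * j ∧ i.1 ≠ 2 * j + 1 ∧ (swap x y i).1 = i.1) := by
    intro i
    rw [swap_apply_def]
    split_ifs with q1 q2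
    · left; rw [q1]; exact ⟨rfl, rfl⟩
    · right; left; rw [q2]; exact ⟨rfl, rfl⟩
    · right; right
      exact ⟨fun h => q1 (Fin.ext h), fun h => q2 (Fin.ext h), rfl⟩
  have key : ∀ σ : Perm (Fin n), ∏ e ∈ E, w j σ e + ∏ e ∈ E, w j (swap x y * σ) e =
      2 * ∏ e ∈ E, w (j + 1) σ e := by
    intro σ
    have off : ∀ e ∈ E, ¬ ((σ e.1).1 / 2 = j ∧ (σ e.2).1 / 2 = j) →
        w j σ e = w (j + 1) σ e ∧ w j (swap x y * σ) e = w (j + 1) σ e := by
      intro e he hn
      have h0 : (σ e.1).1 ≠ (σ e.2).1 := fun h => hne e he (σ.injective (Fin.ext h))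
      have h1 := flf_val n (σ e.1)
      have h2 := flf_val n (swap x y (σ e.1))
      have h3 := hsw (σ e.1)
      have h4 := hsw (σ e.2)
      unfold w
      constructor
      · refine if_congr ?_ rfl rfl
        rw [eq_pr]
        omega
      · refine if_congr ?_ rfl (if_congr ?_ rfl rfl)
        · rw [eq_pr, eq_pr]
          simp only [Perm.mul_apply]
          omega
        · simp only [Perm.mul_apply, Fin.lt_def]
          omega
    by_cases hex : ∃ e ∈ E, (σ e.1).1 / 2 = j ∧ (σ e.2).1 / 2 = j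
    · obtain ⟨e0, he0, q1, q2⟩ := hex
      have h0 : (σ e0.1).1 ≠ (σ e0.2).1 := fun h => hne e0 he0 (σ.injective (Fin.ext h))
      have off' : ∀ e ∈ E.erase e0, ¬ ((σ e.1).1 / 2 = j ∧ (σ e.2).1 / 2 = j) := by
        intro e he hn
        rw [mem_erase] at he
        have h1 : (σ e.1).1 ≠ (σ e.2).1 := fun h => hne e he.2 (σ.injective (Fin.ext h))
        by_cases q : (σ e.1).1 = (σ e0.1).1
        · refine he.1 (Prod.ext (σ.injective (Fin.ext q)) (σ.injective (Fin.ext ?_)))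
          omega
        · have a1 : e.1 = e0.2 := σ.injective (Fin.ext (by omega))
          have a2 : e.2 = e0.1 := σ.injective (Fin.ext (by omega))
          refine hE e.1 e.2 he.2 ?_
          rw [a1, a2]; exact he0
      rw [← mul_prod_erase E _ he0, ← mul_prod_erase E _ he0, ← mul_prod_erase E _ he0,
        prod_congr rfl fun e he => (off e (mem_of_mem_erase he) (off' e he)).1,
        prod_congr rfl fun e he => (off e (mem_of_mem_erase he) (off' e he)).2,
        ← add_mul, ← mul_assoc]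
      congr 1
      have h1 := flf_val n (σ e0.1)
      have h3 := hsw (σ e0.1)
      have h4 := hsw (σ e0.2)
      have c2 : (2 : ℂ[X]) * (C (1 / 2) * (X + 1)) = X + 1 := by
        rw [← mul_assoc, show (2 : ℂ[X]) = C 2 from rfl, ← C_mul]
        norm_num
      have n1 : ¬ (e0.2 = pr σ e0.1 ∧ (σ e0.1).1 / 2 < j) := fun h => by omega
      have n2 : ¬ (e0.2 = pr (swap x y * σ) e0.1 ∧ ((swap x y * σ) e0.1).1 / 2 < j) := fun h => by
        have := h.2
        simp only [Perm.mul_apply] at this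
        omega
      have n3 : e0.2 = pr σ e0.1 ∧ (σ e0.1).1 / 2 < j + 1 :=
        ⟨by rw [eq_pr]; have := (σ e0.2).2; omega, by omega⟩
      unfold w
      rw [if_neg n1, if_neg n2, if_pos n3, c2]
      simp only [Perm.mul_apply, Fin.lt_def]
      split_ifs with r1 r2 r2
      · omega
      · rfl
      · rw [add_comm]
      · omega
    · have off' : ∀ e ∈ E, ¬ ((σ e.1).1 / 2 = j ∧ (σ e.2).1 / 2 = j) :=
        fun e he hn => hex ⟨e, he, hn⟩
      rw [prod_congr rfl fun e he => (off e he (off' e he)).1,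
        prod_congr rfl fun e he => (off e he (off' e he)).2, two_mul]
  have h2 : ∑ σ : Perm (Fin n), ∏ e ∈ E, w j (swap x y * σ) e =
      ∑ σ : Perm (Fin n), ∏ e ∈ E, w j σ e :=
    Equiv.sum_comp (Equiv.mulLeft (swap x y)) (fun σ => ∏ e ∈ E, w j σ e)
  have h3 := sum_congr (s₁ := (univ : Finset (Perm (Fin n)))) rfl fun σ _ => key σ
  rw [sum_add_distrib, h2, ← two_mul, ← mul_sum] at h3
  exact mul_left_cancel₀ two_ne_zero h3

def crs (E : Finset (Fin n × Fin n)) (p : Perm (Fin n)) : ℕ := (E.filter fun e => e.2 = p e.1).card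

def dd (E : Finset (Fin n × Fin n)) (σ : Perm (Fin n)) : ℕ :=
  (E.filter fun e => e.2 ≠ pr σ e.1 ∧ σ e.2 < σ e.1).card

theorem expand (E : Finset (Fin n × Fin n)) (hE : ∀ u v, (u, v) ∈ E → (v, u) ∉ E) :
    ∑ σ : Perm (Fin n), (X : ℂ[X]) ^ (E.filter fun e => σ e.2 < σ e.1).card =
      ∑ σ : Perm (Fin n), (C (1 / 2) * (X + 1)) ^ crs E (pr σ) * X ^ dd E σ := by
  have h : ∀ j, ∑ σ : Perm (Fin n), ∏ e ∈ E, w 0 σ e = ∑ σ : Perm (Fin n), ∏ e ∈ E, w j σ e := by
    intro j
    induction j with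
    | zero => rfl
    | succ j ih => rw [ih, step E hE]
  convert h n using 1
  · refine sum_congr rfl fun σ _ => ?_
    unfold w
    simp only [Nat.not_lt_zero, and_false, if_false]
    rw [prod_ite, prod_const, prod_const_one, mul_one]
  · refine sum_congr rfl fun σ _ => ?_
    unfold w crs dd
    have : ∀ e : Fin n × Fin n, (σ e.1).1 / 2 < n := fun e => by have := (σ e.1).2; omega
    simp only [this, and_true]
    rw [prod_ite, prod_const, prod_ite, prod_const, prod_const_one, mul_one, filter_filter]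

end Pool.Agent.H32.Multi
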