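import Pool.Agent.H32.Multi2

namespace Pool.Agent.H32.Multi

open Finset Equiv Polynomial

variable {n : ℕ} {κ : Type*} [Fintype κ] [DecidableEq κ]

theorem fix_pr (σ : Perm (Fin n)) (u : Fin n) (h : pr σ u = u) : (σ u).1 + 1 = n := by
  have h1 := (eq_pr σ u u).1 h.symm
  have h2 := flf_val n (σ u)
  omega

theorem fix_uniq (σ : Perm (Fin n)) (u v : Fin n) (hu : pr σ u = u) (hv : pr σ v = v) : u = v := by
  have h1 := fix_pr σ u hu
  have h2 := fix_pr σ v hv
  exact σ.injective (Fin.ext (by omega))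

theorem lt_pr (σ : Perm (Fin n)) (u v : Fin n) (h1 : v ≠ u) (h2 : v ≠ pr σ u) :
    (σ (pr σ u) < σ v ↔ σ u < σ v) ∧ (σ v < σ (pr σ u) ↔ σ v < σ u) := by
  have h3 : (σ v).1 ≠ (σ u).1 := fun h => h1 (σ.injective (Fin.ext h))
  rw [Ne, eq_pr] at h2
  have h4 := flf_val n (σ u)
  simp only [s_pr, Fin.lt_def]
  omega

theorem card_U (c : Fin n → κ) (E : Finset (Fin n × Fin n))
    (hE : ∀ u v, (u, v) ∈ E → (v, u) ∉ E) (hc : ∀ u v, ((u, v) ∈ E ∨ (v, u) ∈ E) ↔ c u ≠ c v)
    (σ : Perm (Fin n)) :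
    2 * crs E (pr σ) ≤ (univ.filter fun u => c (pr σ u) ≠ c u ∨ pr σ u = u).card ∧
    (univ.filter fun u => c (pr σ u) ≠ c u ∨ pr σ u = u).card ≤ 2 * crs E (pr σ) + 1 := by
  set p := pr σ with hp
  have hpp : ∀ u, p (p u) = u := pr_pr σ
  have a1 : (univ.filter fun u => (u, p u) ∈ E).card = crs E p := by
    unfold crs
    refine card_bij' (fun u _ => (u, p u)) (fun e _ => e.1) ?_ ?_ ?_ ?_
    · intro u hu
      simpa using hu
    · rintro ⟨u, v⟩ he
      simp only [mem_filter, mem_univ, true_and] at he ⊢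
      rw [← he.2]; exact he.1
    · intro u _; rfl
    · rintro ⟨u, v⟩ he
      simp only [mem_filter] at he
      rw [← he.2]
  have a2 : (univ.filter fun u => (p u, u) ∈ E).card = crs E p := by
    rw [← a1]
    refine card_bij' (fun u _ => p u) (fun u _ => p u) ?_ ?_ ?_ ?_
    · intro u hu
      simpa [hpp] using hu
    · intro u hu
      simpa [hpp] using hu
    · intro u _; exact hpp u
    · intro u _; exact hpp u
  have a3 : (univ.filter fun u => c (p u) ≠ c u).card = 2 * crs E p := by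
    rw [two_mul]
    nth_rewrite 1 [← a1]
    rw [← a2, ← card_union_of_disjoint, ← filter_or]
    · congr 1
      ext u
      simp only [mem_filter, mem_univ, true_and, hc]
      exact ne_comm
    · rw [disjoint_filter]
      exact fun u _ h => hE _ _ h
  have a4 : (univ.filter fun u => p u = u).card ≤ 1 := by
    rw [card_le_one]
    intro u hu v hv
    simp only [mem_filter, mem_univ, true_and] at hu hv
    exact fix_uniq σ u v hu hv
  rw [filter_or]
  constructor
  · rw [← a3]; exact card_le_card subset_union_left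
  · have := card_union_le (univ.filter fun u => c (p u) ≠ c u) (univ.filter fun u => p u = u)
    omega

theorem crs_good (c : Fin n → κ) (E : Finset (Fin n × Fin n))
    (hE : ∀ u v, (u, v) ∈ E → (v, u) ∉ E) (hc : ∀ u v, ((u, v) ∈ E ∨ (v, u) ∈ E) ↔ c u ≠ c v)
    (σ : Perm (Fin n)) :
    (Good c univ (pr σ) → crs E (pr σ) = oddc c univ / 2) ∧
    (¬ Good c univ (pr σ) → oddc c univ / 2 < crs E (pr σ)) := by
  obtain ⟨h1, h2⟩ := card_U c E hE hc σ
  rw [oddc_univ c (pr σ) (pr_pr σ)]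
  constructor
  · intro hg
    have h3 := oddc_le c (univ.filter fun u => c (pr σ u) ≠ c u ∨ pr σ u = u)
    have h4 := oddc_inj c (univ.filter fun u => c (pr σ u) ≠ c u ∨ pr σ u = u)
      (fun u hu v hv => hg.2.2.2 u (mem_univ _) v (mem_univ _) (mem_filter.1 hu).2
        (mem_filter.1 hv).2)
    omega
  · intro hg
    have : ∃ x y, (c (pr σ x) ≠ c x ∨ pr σ x = x) ∧ (c (pr σ y) ≠ c y ∨ pr σ y = y) ∧
        c x = c y ∧ x ≠ y := by
      by_contra hn
      refine hg ⟨pr_pr σ, fun u hu => absurd (mem_univ u) hu,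
        fun u _ v _ => fix_uniq σ u v, fun u _ v _ e1 e2 e3 => ?_⟩
      by_contra q
      exact hn ⟨u, v, e1, e2, e3, q⟩
    obtain ⟨x, y, e1, e2, e3, e4⟩ := this
    have h3 := oddc_two c (univ.filter fun u => c (pr σ u) ≠ c u ∨ pr σ u = u) x y
      (mem_filter.2 ⟨mem_univ _, e1⟩) (mem_filter.2 ⟨mem_univ _, e2⟩) e4 e3
    omega

theorem dd_par (c : Fin n → κ) (E : Finset (Fin n × Fin n))
    (hE : ∀ u v, (u, v) ∈ E → (v, u) ∉ E) (hc : ∀ u v, ((u, v) ∈ E ∨ (v, u) ∈ E) ↔ c u ≠ c v)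
    (σ τ : Perm (Fin n)) (hp : pr τ = pr σ) (hg : Good c univ (pr σ)) :
    Even (dd E σ + dd E τ) := by
  set p := pr σ with hpd
  have hpp : ∀ u, p (p u) = u := pr_pr σ
  set Z : Finset (Fin n × Fin n) := univ.filter fun e =>
    c e.1 ≠ c e.2 ∧ e.2 ≠ p e.1 ∧ σ e.1 < σ e.2 ∧ τ e.2 < τ e.1 with hZ
  have hZe : Even Z.card := by
    refine even_card_invol Z
      (fun e => if c (p e.1) ≠ c e.1 ∧ c (p e.2) = c e.2 then (e.1, p e.2) else (p e.1, e.2))
      ?_ ?_ ?_
    · rintro ⟨u, v⟩ he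
      simp only [hZ, mem_filter, mem_univ, true_and] at he ⊢
      obtain ⟨e1, e2, e3, e4⟩ := he
      have huv : v ≠ u := fun h => e1 (by rw [h])
      have e2' : u ≠ p v := fun h => e2 (by rw [h, hpp])
      split_ifs with q
      · refine ⟨by rw [q.2]; exact e1, fun h => huv (p.injective h), ?_, ?_⟩
        · exact (lt_pr σ v u huv.symm e2').2.2 e3
        · have := (lt_pr τ v u huv.symm (by rw [hp]; exact e2')).1.2 e4
          rwa [hp] at this
      · refine ⟨?_, by rw [hpp]; exact huv, (lt_pr σ u v huv e2).1.2 e3, ?_⟩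
        · by_cases q1 : c (p u) = c u
          · rw [q1]; exact e1
          · have q2 : c (p v) ≠ c v := fun h => q ⟨q1, h⟩
            intro h
            exact e2 (hg.2.2.2 _ (mem_univ _) _ (mem_univ _)
              (Or.inl (by rw [hpp]; exact fun h => q1 h.symm)) (Or.inl q2) h).symm
        · have := (lt_pr τ u v huv (by rw [hp]; exact e2)).2.2 e4
          rwa [hp] at this
    · rintro ⟨u, v⟩ _
      by_cases q : c (p u) ≠ c u ∧ c (p v) = c v
      · simp only [if_pos q]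
        rw [if_pos ⟨q.1, by rw [hpp, q.2]⟩, hpp]
      · simp only [if_neg q]
        rw [if_neg (fun h => q ⟨fun h' => h.1 (by rw [hpp, h']), h.2⟩), hpp]
    · rintro ⟨u, v⟩ he
      simp only [hZ, mem_filter, mem_univ, true_and] at he
      obtain ⟨e1, e2, e3, e4⟩ := he
      split_ifs with q
      · intro h
        have h1 := fix_pr τ v (by rw [hp]; exact (Prod.ext_iff.1 h).2)
        have h2 := (τ u).2
        rw [Fin.lt_def] at e4
        omega
      · intro h
        have h1 := fix_pr σ u (Prod.ext_iff.1 h).1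
        have h2 := (σ v).2
        rw [Fin.lt_def] at e3
        omega
  have hne : ∀ u v, (u, v) ∈ E → u ≠ v := by
    rintro u v he rfl
    exact hE u u he he
  have b1 : dd E τ = (E.filter fun e => e.2 ≠ p e.1 ∧ σ e.2 < σ e.1 ∧ τ e.2 < τ e.1).card +
      (Z.filter fun e => e ∈ E).card := by
    unfold dd
    rw [hp, ← card_filter_add_card_filter_not (fun e : Fin n × Fin n => σ e.2 < σ e.1)]
    congr 2
    · ext e
      simp only [mem_filter]
      tauto
    · ext ⟨u, v⟩
      simp only [hZ, mem_filter, mem_univ, true_and, not_lt]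
      constructor
      · rintro ⟨⟨e1, e2, e3⟩, e4⟩
        exact ⟨⟨(hc u v).1 (Or.inl e1), e2,
          lt_of_le_of_ne e4 (fun h => hne u v e1 (σ.injective h)), e3⟩, e1⟩
      · rintro ⟨⟨e1, e2, e3, e4⟩, e5⟩
        exact ⟨⟨e5, e2, e4⟩, e3.le⟩
  have b2 : dd E σ = (E.filter fun e => e.2 ≠ p e.1 ∧ σ e.2 < σ e.1 ∧ τ e.2 < τ e.1).card +
      (Z.filter fun e => ¬ e ∈ E).card := by
    unfold dd
    rw [← card_filter_add_card_filter_not (fun e : Fin n × Fin n => τ e.2 < τ e.1)]
    congr 1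
    · congr 1
      ext e
      simp only [mem_filter]
      tauto
    · refine card_bij' (fun e _ => e.swap) (fun e _ => e.swap) ?_ ?_ (fun _ _ => rfl)
        (fun _ _ => rfl)
      · rintro ⟨u, v⟩ he
        simp only [hZ, mem_filter, mem_univ, true_and, not_lt, Prod.swap_prod_mk] at he ⊢
        obtain ⟨⟨e1, e2, e3⟩, e4⟩ := he
        exact ⟨⟨(hc v u).1 (Or.inr e1), fun h => e2 (by rw [h]; exact (hpp v).symm), e3,
          lt_of_le_of_ne e4 (fun h => hne u v e1 (τ.injective h))⟩, hE u v e1⟩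
      · rintro ⟨u, v⟩ he
        simp only [hZ, mem_filter, mem_univ, true_and, not_lt, Prod.swap_prod_mk] at he ⊢
        obtain ⟨⟨e1, e2, e3, e4⟩, e5⟩ := he
        exact ⟨⟨((hc u v).2 e1).resolve_left e5, fun h => e2 (by rw [h]; exact (hpp v).symm), e3⟩,
          e4.le⟩
  rw [← card_filter_add_card_filter_not (fun e : Fin n × Fin n => e ∈ E)] at hZe
  rw [b1, b2]
  obtain ⟨k, hk⟩ := hZe
  exact ⟨k + (E.filter fun e => e.2 ≠ p e.1 ∧ σ e.2 < σ e.1 ∧ τ e.2 < τ e.1).card, by omega⟩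

theorem ct_eq (p : Perm (Fin n)) (h1 : ∀ u, p (p u) = u)
    (h2 : ∀ u v, p u = u → p v = v → u = v) : p.cycleType = Multiset.replicate (n / 2) 2 := by
  have h3 : p ^ 2 = 1 := by ext u; simp [pow_two, h1]
  have h4 := Perm.cycleType_of_pow_prime_eq_one h3
  have h5 := p.sum_cycleType
  rw [h4, Multiset.sum_replicate, smul_eq_mul] at h5
  have h6 : p.supportᶜ.card ≤ 1 := by
    rw [card_le_one]
    intro u hu v hv
    simp only [mem_compl, Perm.mem_support, not_not] at hu hv
    exact h2 u v hu hv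
  have h7 := card_add_card_compl p.support
  rw [Fintype.card_fin] at h7
  rw [h4]
  congr 1
  omega

theorem exists_pr (p : Perm (Fin n)) (h1 : ∀ u, p (p u) = u)
    (h2 : ∀ u v, p u = u → p v = v → u = v) : ∃ σ, pr σ = p := by
  have h3 : (pr (1 : Perm (Fin n))).cycleType = p.cycleType := by
    rw [ct_eq p h1 h2, ct_eq _ (pr_pr 1) (fix_uniq 1)]
  obtain ⟨g, hg⟩ := isConj_iff.1 (Perm.isConj_of_cycleType_eq h3)
  exact ⟨g⁻¹, by rw [← hg]; simp [pr]⟩

theorem sum_ne (c : Fin n → κ) (E : Finset (Fin n × Fin n))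
    (hE : ∀ u v, (u, v) ∈ E → (v, u) ∉ E) (hc : ∀ u v, ((u, v) ∈ E ∨ (v, u) ∈ E) ↔ c u ≠ c v) :
    ∑ σ ∈ univ.filter (fun σ : Perm (Fin n) => Good c univ (pr σ)), (-1 : ℤ) ^ dd E σ ≠ 0 := by
  rw [← sum_fiberwise_of_maps_to (t := univ.filter fun p : Perm (Fin n) => Good c univ p)
    (g := pr) (fun σ h => by simpa using h)]
  set K := (univ.filter fun γ : Perm (Fin n) => pr γ = fl n).card with hK
  have hKpos : 0 < K := card_pos.2 ⟨1, by simp [pr]⟩
  have h1 : ∀ p ∈ univ.filter (fun p : Perm (Fin n) => Good c univ p), ∃ e : ℤ, Odd e ∧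
      ∑ σ ∈ (univ.filter (fun σ : Perm (Fin n) => Good c univ (pr σ))).filter
        (fun σ => pr σ = p), (-1 : ℤ) ^ dd E σ = K * e := by
    intro p hp
    have hg : Good c univ p := (mem_filter.1 hp).2
    obtain ⟨σ0, rfl⟩ := exists_pr p hg.1 (fun u v => hg.2.2.1 u (mem_univ _) v (mem_univ _))
    refine ⟨(-1) ^ dd E σ0, Odd.pow odd_neg_one, ?_⟩
    rw [sum_congr rfl (g := fun _ => (-1 : ℤ) ^ dd E σ0), sum_const, nsmul_eq_mul]
    · congr 2
      refine card_bij' (fun σ _ => σ * σ0⁻¹) (fun γ _ => γ * σ0) ?_ ?_ (fun _ _ => by simp)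
        (fun _ _ => by simp)
      · intro σ h
        simp only [mem_filter, mem_univ, true_and] at h ⊢
        have := h.2
        unfold pr at this ⊢
        rw [mul_inv_rev, inv_inv]
        calc σ0 * σ⁻¹ * fl n * (σ * σ0⁻¹) = σ0 * (σ⁻¹ * fl n * σ) * σ0⁻¹ := by group
          _ = fl n := by rw [this]; group
      · intro γ h
        simp only [mem_filter, mem_univ, true_and] at h ⊢
        have : pr (γ * σ0) = pr σ0 := by
          unfold pr at h ⊢
          calc (γ * σ0)⁻¹ * fl n * (γ * σ0) = σ0⁻¹ * (γ⁻¹ * fl n * γ) * σ0 := by group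
            _ = _ := by rw [h]
        rw [this]
        exact ⟨hg, rfl⟩
    · intro σ h
      have h2 := dd_par c E hE hc σ0 σ (mem_filter.1 h).2 hg
      rcases Nat.even_or_odd (dd E σ0) with q | q
      · rw [q.neg_one_pow, ((Nat.even_add.1 h2).1 q).neg_one_pow]
      · rw [q.neg_one_pow, ((Nat.even_add'.1 h2).1 q).neg_one_pow]
  choose! e he using h1
  rw [sum_congr rfl fun p hp => (he p hp).2, ← mul_sum]
  refine mul_ne_zero (by exact_mod_cast hKpos.ne') fun h => ?_
  have h2 : Odd (∑ p ∈ univ.filter (fun p : Perm (Fin n) => Good c univ p), e p) := by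
    have h3 : ∑ p ∈ univ.filter (fun p : Perm (Fin n) => Good c univ p), e p =
        ∑ p ∈ univ.filter (fun p : Perm (Fin n) => Good c univ p), (e p - 1) +
          ((univ.filter (fun p : Perm (Fin n) => Good c univ p)).card : ℤ) := by
      rw [sum_sub_distrib]; simp
    rw [h3]
    refine Even.add_odd (Finset.even_sum _ fun p hp => (he p hp).1.sub_odd odd_one) ?_
    exact_mod_cast odd_good c univ
  rw [h] at h2
  exact absurd h2 (by decide)

theorem main (c : Fin n → κ) (E : Finset (Fin n × Fin n))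
    (hE : ∀ u v, (u, v) ∈ E → (v, u) ∉ E) (hc : ∀ u v, ((u, v) ∈ E ∨ (v, u) ∈ E) ↔ c u ≠ c v) :
    (∑ σ : Perm (Fin n), (X : ℂ[X]) ^ (E.filter fun e => σ e.2 < σ e.1).card).rootMultiplicity
      (-1) = oddc c univ / 2 := by
  rw [expand E hE]
  set k := oddc c univ / 2 with hk
  have hle : ∀ σ : Perm (Fin n), k ≤ crs E (pr σ) := by
    intro σ
    obtain ⟨h1, h2⟩ := crs_good c E hE hc σ
    by_cases hg : Good c univ (pr σ)
    · exact (h1 hg).ge
    · exact (h2 hg).le
  set B : ℂ[X] := ∑ σ : Perm (Fin n),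
    C (1 / 2) ^ k * ((C (1 / 2) * (X + 1)) ^ (crs E (pr σ) - k) * X ^ dd E σ) with hB
  have h1 : ∑ σ : Perm (Fin n), (C (1 / 2) * (X + 1)) ^ crs E (pr σ) * X ^ dd E σ =
      B * (X - C (-1)) ^ k := by
    rw [hB, sum_mul]
    refine sum_congr rfl fun σ _ => ?_
    obtain ⟨m, hm⟩ := Nat.exists_eq_add_of_le (hle σ)
    rw [hm, Nat.add_sub_cancel_left, C_neg, C_1, sub_neg_eq_add, pow_add, mul_pow _ _ k]
    ring
  have h2 : B.eval (-1) ≠ 0 := by
    have h3 : B.eval (-1) = (1 / 2) ^ k *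
        ((∑ σ ∈ univ.filter (fun σ : Perm (Fin n) => Good c univ (pr σ)),
          (-1 : ℤ) ^ dd E σ : ℤ) : ℂ) := by
      rw [hB, eval_finsetSum, sum_filter]
      push_cast
      rw [mul_sum]
      refine sum_congr rfl fun σ _ => ?_
      obtain ⟨q1, q2⟩ := crs_good c E hE hc σ
      by_cases hg : Good c univ (pr σ)
      · simp [hg, q1 hg, ← hk]
      · have : crs E (pr σ) - k ≠ 0 := by have := q2 hg; omega
        simp [hg, this]
    rw [h3]
    exact mul_ne_zero (by simp) (by exact_mod_cast sum_ne c E hE hc)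
  rw [h1, rootMultiplicity_mul_X_sub_C_pow (fun h => h2 (by simp [h])),
    rootMultiplicity_eq_zero h2, zero_add]

end Pool.Agent.H32.Multi
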