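import Mathlib

namespace Pool.Agent.H32.NormZO

open Metric Set

abbrev E : Type := Fin 3 → ℝ

def IsSemi (f : C(E, ℝ)) : Prop :=
  (∀ x y, f (x + y) ≤ f x + f y) ∧ (∀ (c : ℝ) x, f (c • x) = |c| * f x)

abbrev Nm : Type := {f : C(E, ℝ) // (∀ x, f x = 0 → x = 0) ∧ (∀ x y, f (x + y) ≤ f x + f y) ∧
  (∀ (c : ℝ) x, f (c • x) = |c| * f x)}

theorem isClosed_semi : IsClosed {f : C(E, ℝ) | IsSemi f} := by
  have h1 : IsClosed {f : C(E, ℝ) | ∀ x y, f (x + y) ≤ f x + f y} := by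
    simp only [ofPred_forall]
    exact isClosed_iInter fun x => isClosed_iInter fun y => isClosed_le (by fun_prop) (by fun_prop)
  have h2 : IsClosed {f : C(E, ℝ) | ∀ (c : ℝ) x, f (c • x) = |c| * f x} := by
    simp only [ofPred_forall]
    exact isClosed_iInter fun x => isClosed_iInter fun y => isClosed_eq (by fun_prop) (by fun_prop)
  exact h1.inter h2

theorem scale {f : C(E, ℝ)} (h : ∀ (c : ℝ) x, f (c • x) = |c| * f x) {x : E} (hx : x ≠ 0) :
    ∃ y ∈ sphere (0 : E) 1, x = ‖x‖ • y ∧ f x = ‖x‖ * f y := by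
  have h0 : 0 < ‖x‖ := norm_pos_iff.2 hx
  have e : x = ‖x‖ • (‖x‖⁻¹ • x) := by rw [smul_smul, mul_inv_cancel₀ h0.ne', one_smul]
  refine ⟨‖x‖⁻¹ • x, ?_, e, ?_⟩
  · simp [norm_smul, h0.ne']
  · conv_lhs => rw [e]
    rw [h, abs_of_pos h0]

theorem baire : BaireSpace Nm := by
  haveI : CompleteSpace {f : C(E, ℝ) | IsSemi f} := isClosed_semi.completeSpace_coe
  haveI : BaireSpace {f : C(E, ℝ) | IsSemi f} := inferInstance
  let p : Nm → {f : C(E, ℝ) | IsSemi f} := fun N => ⟨N.1, N.2.2⟩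
  have hp : Topology.IsOpenEmbedding p := by
    refine ⟨Topology.IsEmbedding.of_comp (g := Subtype.val) (by fun_prop) continuous_subtype_val
      Topology.IsEmbedding.subtypeVal, ?_⟩
    have h1 : IsOpen {f : C(E, ℝ) | MapsTo f (sphere 0 1) {0}ᶜ} :=
      ContinuousMap.isOpen_setOfPred_mapsTo (isCompact_sphere 0 1) isOpen_compl_singleton
    convert h1.preimage (continuous_subtype_val (p := fun f => f ∈ {f : C(E, ℝ) | IsSemi f}))
    ext f
    constructor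
    · rintro ⟨N, rfl⟩ x hx h0
      have := N.2.1 x h0
      rw [this] at hx
      simp at hx
    · intro hf
      refine ⟨⟨f.1, fun x hx => ?_, f.2⟩, rfl⟩
      by_contra h0
      obtain ⟨y, hy, -, e⟩ := scale f.2.2 h0
      rw [hx] at e
      exact hf hy ((mul_eq_zero.1 e.symm).resolve_left (norm_ne_zero_iff.2 h0))
  exact hp.baireSpace

theorem isOpen_near (N0 : Nm) {K : Set E} (hK : IsCompact K) (η : ℝ) :
    IsOpen {N : Nm | ∀ v ∈ K, |N.1 v - N0.1 v| < η} := by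
  have h1 : IsOpen {f : C(E, ℝ) | MapsTo f K (ball 0 η)} :=
    ContinuousMap.isOpen_setOfPred_mapsTo hK isOpen_ball
  have h2 : Continuous fun N : Nm => N.1 - N0.1 := by fun_prop
  convert h1.preimage h2
  ext N
  simp [MapsTo]

theorem convex_of (N : Nm) : ConvexOn ℝ univ N.1 := by
  refine ⟨convex_univ, fun x _ y _ a b ha hb _ => ?_⟩
  have := N.2.2.1 (a • x) (b • y)
  rwa [N.2.2.2, N.2.2.2, abs_of_nonneg ha, abs_of_nonneg hb] at this

theorem robust (N : Nm) (d : Fin 10 → E) (ℓ : Fin 10 → E →ₗ[ℝ] ℝ)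
    (D : Fin 10 → (Fin 10 → ℝ) →ₗ[ℝ] E) (hD : ∀ k t, ‖D k t‖ ≤ 80 * ‖t‖)
    (h1 : ∀ k t, ℓ k (D k t) = t k) (h2 : ∀ k, ℓ k (d k) = 1)
    (h3 : ∀ k v, dist v (d k) < 1 / 15 → |N.1 v - ℓ k v| ≤ 1 / 10000) :
    ∃ t, ∀ k, N.1 (d k + D k t) = 1 := by
  have hconv : ∀ k, ConvexOn ℝ (ball (d k) (1 / 15)) (fun v => N.1 v - ℓ k v) := fun k =>
    ((convex_of N).subset (subset_univ _) (convex_ball _ _)).sub
      ((ℓ k).concaveOn (convex_ball _ _))
  have hlip := fun k => (hconv k).lipschitzOnWith_of_abs_le (ε := 1 / 30) (by norm_num) (h3 k)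
  let Φ : (Fin 10 → ℝ) → (Fin 10 → ℝ) := fun t k => -(N.1 (d k + D k t) - ℓ k (d k + D k t))
  have hin : ∀ k, ∀ t ∈ closedBall (0 : Fin 10 → ℝ) (1 / 10000),
      d k + D k t ∈ ball (d k) (1 / 15 - 1 / 30) := by
    intro k t ht
    rw [mem_closedBall, dist_zero_right] at ht
    rw [mem_ball, dist_self_add_left]
    linarith [hD k t]
  have hmaps : MapsTo Φ (closedBall 0 (1 / 10000)) (closedBall 0 (1 / 10000)) := by
    intro t ht
    rw [mem_closedBall, dist_zero_right, pi_norm_le_iff_of_nonneg (by norm_num)]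
    intro k
    simp only [Φ, norm_neg, Real.norm_eq_abs]
    refine h3 k _ ?_
    have := mem_ball.1 (hin k t ht)
    linarith
  have hc : ContractingWith (1 / 2) (hmaps.restrict Φ _ _) := by
    refine ⟨by norm_num, LipschitzWith.of_dist_le_mul fun s t => ?_⟩
    show dist (Φ s.1) (Φ t.1) ≤ _ * dist s.1 t.1
    rw [dist_pi_le_iff (by positivity)]
    intro k
    have := (hlip k).dist_le_mul _ (hin k _ s.2) _ (hin k _ t.2)
    simp only [Φ, dist_neg_neg]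
    refine this.trans ?_
    rw [dist_add_left, dist_eq_norm, ← map_sub, dist_eq_norm, Real.coe_toNNReal _ (by norm_num)]
    have h4 := hD k (s.1 - t.1)
    have h5 := norm_nonneg (s.1 - t.1)
    push_cast
    linarith
  obtain ⟨t, -, ht, -⟩ := hc.exists_fixedPoint' isClosed_closedBall.isComplete hmaps
    (x := 0) (by simp) (edist_ne_top _ _)
  refine ⟨t, fun k => ?_⟩
  have := congrFun ht k
  simp only [Φ, map_add, h1, h2] at this
  linarith

def X : Fin 5 → Fin 3 → ℚ := ![![0, 0, 0], ![-1, 3, 1], ![0, 2, -2], ![-1, 1, -3], ![2, -1, -1]]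

def l : Fin 10 → Fin 3 → ℚ :=
  ![![-2/7, -3/7, 0], ![-1/4, -1/4, 1/4], ![0, -1/7, 2/7], ![-4/7, -2/7, 1/7], ![-2/7, -1/7, 2/7],
    ![0, 0, 1/4], ![0, 1/4, 0], ![4/7, 3/7, 0], ![0, 2/7, -1/7], ![-1/5, 0, -1/5]]

def pa : Fin 10 → Fin 5 := ![0, 0, 0, 0, 1, 1, 1, 2, 2, 3]

def pb : Fin 10 → Fin 5 := ![1, 2, 3, 4, 2, 3, 4, 3, 4, 4]

def B : Fin 5 → Fin 3 → Fin 10 → ℚ :=
  ![![![0, 0, 0, 0, 0, 0, 0, 0, 0, 0],
   ![0, 0, 0, 0, 0, 0, 0, 0, 0, 0],
   ![0, 0, 0, 0, 0, 0, 0, 0, 0, 0]],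
 ![![-7/4, 18, -63/4, -21/4, -21/4, 6, 0, -21/4, -21/4, 15],
   ![7/2, -12, 21/2, 7/2, 7/2, -4, 0, 7/2, 7/2, -10],
   ![7/4, 2, -21/4, -7/4, 7/4, 2, -2, -7/4, 0, 5]],
 ![![-7/2, 16, -21/2, -7/2, -7/2, 4, 4, -7/2, -7, 10],
   ![7/2, -12, 21/2, 7/2, 7/2, -4, -4, 7/2, 7, -10],
   ![0, 0, 0, 0, 0, 0, 0, 0, 0, 0]],
 ![![-7/2, 4, 0, 7/4, -7/2, 4, 4, 0, -7/4, -5],
   ![7/2, 4, -7/2, -7/2, 7/2, -4, -4, -7/2, 0, 10],
   ![7/4, 2, -21/4, -7/4, 7/4, -2, -2, -7/4, 0, 5]],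
 ![![-7/4, 6, -21/4, 0, -7/4, 2, 2, -7/4, -7/4, 5],
   ![7/2, -12, 21/2, 7/2, 7/2, -4, -4, 7/2, 7/2, -10],
   ![0, 0, 0, 0, 0, 0, 0, 0, 0, 0]]]

theorem F1 : ∀ k, ∑ c, l k c * (X (pa k) c - X (pb k) c) = 1 := by decide +kernel

theorem F2 : ∀ k j, j ≠ k → |∑ c, l j c * (X (pa k) c - X (pb k) c)| ≤ 6 / 7 := by decide +kernel

theorem F3 : ∀ k, ∑ c, |l k c| ≤ 1 := by decide +kernel

theorem F4 : ∀ k m, ∑ c, l k c * (B (pa k) c m - B (pb k) c m) = if k = m then 1 else 0 := by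
  decide +kernel

theorem F5 : ∀ k c, ∑ m, |B (pa k) c m - B (pb k) c m| ≤ 80 := by decide +kernel

theorem F6 : ∀ u v, u ≠ v → ∃ k, (pa k = u ∧ pb k = v) ∨ (pa k = v ∧ pb k = u) := by
  decide +kernel

theorem F7 : ∀ k c, |X (pa k) c - X (pb k) c| ≤ 5 := by decide +kernel

noncomputable def dotL {ι : Type} [Fintype ι] (a : ι → ℚ) : (ι → ℝ) →ₗ[ℝ] ℝ where
  toFun := fun v => ∑ c, (a c : ℝ) * v c
  map_add' := fun v w => by simp [mul_add, Finset.sum_add_distrib]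
  map_smul' := fun r v => by simp [Finset.mul_sum, mul_left_comm]

theorem dotL_apply {ι : Type} [Fintype ι] (a : ι → ℚ) (v : ι → ℝ) :
    dotL a v = ∑ c, (a c : ℝ) * v c := rfl

theorem dotL_le {ι : Type} [Fintype ι] (a : ι → ℚ) {C : ℚ} (h : ∑ c, |a c| ≤ C) (v : ι → ℝ) :
    |dotL a v| ≤ C * ‖v‖ := by
  have h' : ∑ c, |(a c : ℝ)| ≤ C := by exact_mod_cast h
  calc |dotL a v| ≤ ∑ c, |(a c : ℝ) * v c| := Finset.abs_sum_le_sum_abs _ _
    _ ≤ ∑ c, |(a c : ℝ)| * ‖v‖ := Finset.sum_le_sum fun c _ => by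
        rw [abs_mul]
        exact mul_le_mul_of_nonneg_left (norm_le_pi_norm v c) (abs_nonneg _)
    _ ≤ _ := by rw [← Finset.sum_mul]; exact mul_le_mul_of_nonneg_right h' (norm_nonneg _)

noncomputable def A : E →ₗ[ℝ] (Fin 10 → ℝ) := LinearMap.pi fun k => dotL (l k)

noncomputable def N0 : Nm :=
  ⟨⟨fun v => ‖A v‖, A.continuous_of_finiteDimensional.norm⟩, by
    intro x hx
    have h : A x = 0 := norm_eq_zero.1 hx
    have h5 := congrFun h 5
    have h6 := congrFun h 6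
    have h1 := congrFun h 1
    simp [A, dotL_apply, Fin.sum_univ_three, l] at h5 h6 h1
    funext c
    fin_cases c
    · simp; linarith
    · simpa using h6
    · simpa using h5, by
    intro x y
    simp only [ContinuousMap.coe_mk, map_add]
    exact norm_add_le _ _, by
    intro c x
    simp only [ContinuousMap.coe_mk, map_smul, norm_smul, Real.norm_eq_abs]⟩

noncomputable def dd (k : Fin 10) : E := fun c => ((X (pa k) c - X (pb k) c : ℚ) : ℝ)

theorem N0_local (k : Fin 10) (v : E) (hv : dist v (dd k) < 1 / 15) : N0.1 v = dotL (l k) v := by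
  have e : ∀ j, dotL (l j) v = dotL (l j) (dd k) + dotL (l j) (v - dd k) := by
    intro j; rw [← map_add]; simp
  have b : ∀ j, |dotL (l j) (v - dd k)| ≤ 1 / 15 := by
    intro j
    have := dotL_le (l j) (F3 j) (v - dd k)
    rw [dist_eq_norm] at hv
    push_cast at this
    linarith
  have a1 : dotL (l k) (dd k) = 1 := by
    rw [dotL_apply]; unfold dd; exact_mod_cast F1 k
  have a2 : ∀ j, j ≠ k → |dotL (l j) (dd k)| ≤ 6 / 7 := by
    intro j hj
    have := (Rat.cast_le (K := ℝ)).2 (F2 k j hj)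
    rw [dotL_apply]; unfold dd
    push_cast at this ⊢
    exact this
  have hk : 14 / 15 ≤ dotL (l k) v := by
    rw [e, a1]; linarith [(abs_le.1 (b k)).1]
  apply le_antisymm
  · show ‖A v‖ ≤ _
    rw [pi_norm_le_iff_of_nonneg (by linarith)]
    intro j
    show |dotL (l j) v| ≤ _
    by_cases hj : j = k
    · rw [hj, abs_of_nonneg (by linarith)]
    · rw [e j]
      have := abs_add_le (dotL (l j) (dd k)) (dotL (l j) (v - dd k))
      linarith [a2 j hj, b j]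
  · exact (le_abs_self _).trans (norm_le_pi_norm (A v) k)

theorem near_N0 (N : Nm) (h : ∀ v ∈ closedBall (0 : E) 6, |N.1 v - N0.1 v| < 1 / 10000) :
    ∃ φ : Fin 5 → E, Function.Injective φ ∧ ∀ u v, u ≠ v → N.1 (φ u - φ v) = 1 := by
  obtain ⟨t, ht⟩ := robust N dd (fun k => dotL (l k))
    (fun k => LinearMap.pi fun c => dotL fun m => B (pa k) c m - B (pb k) c m)
    (by
      intro k t
      rw [pi_norm_le_iff_of_nonneg (by positivity)]
      intro c
      exact_mod_cast dotL_le _ (F5 k c) t)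
    (by
      intro k t
      simp only [dotL_apply, LinearMap.pi_apply, Finset.mul_sum]
      rw [Finset.sum_comm]
      have : ∀ m, ∑ c, (l k c : ℝ) * (((B (pa k) c m - B (pb k) c m : ℚ) : ℝ) * t m)
          = (if k = m then 1 else 0) * t m := by
        intro m
        have h4 := congrArg (fun q : ℚ => (q : ℝ)) (F4 k m)
        simp only [← mul_assoc, ← Finset.sum_mul]
        congr 1
        push_cast at h4 ⊢
        rw [h4]
        split_ifs <;> simp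
      simp only [this]
      simp)
    (by intro k; rw [dotL_apply]; unfold dd; exact_mod_cast F1 k)
    (by
      intro k v hv
      rw [← N0_local k v hv]
      refine (h v ?_).le
      have : ‖dd k‖ ≤ 5 := by
        rw [pi_norm_le_iff_of_nonneg (by norm_num)]
        intro c
        unfold dd
        rw [Real.norm_eq_abs]
        exact_mod_cast F7 k c
      rw [mem_closedBall, dist_zero_right]
      have h2 := norm_le_norm_add_norm_sub' v (dd k)
      rw [dist_eq_norm] at hv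
      linarith)
  let φ : Fin 5 → E := fun u c => (X u c : ℝ) + dotL (B u c) t
  have h1 : ∀ k, N.1 (φ (pa k) - φ (pb k)) = 1 := by
    intro k
    rw [← ht k]
    congr 1
    funext c
    simp only [φ, dd, Pi.sub_apply, Pi.add_apply, LinearMap.pi_apply, dotL_apply]
    push_cast
    simp only [sub_mul, Finset.sum_sub_distrib]
    ring
  have h2 : ∀ u v, u ≠ v → N.1 (φ u - φ v) = 1 := by
    intro u v huv
    obtain ⟨k, ⟨rfl, rfl⟩ | ⟨rfl, rfl⟩⟩ := F6 u v huv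
    · exact h1 k
    · have := N.2.2.2 (-1) (φ (pa k) - φ (pb k))
      rw [h1 k] at this
      simpa using this
  refine ⟨φ, fun u v huv => ?_, h2⟩
  by_contra hne
  have h3 := h2 u v hne
  have h4 := N.2.2.2 0 0
  rw [huv, sub_self] at h3
  simp [h3] at h4

noncomputable def N1 : Nm :=
  ⟨⟨fun v => ‖(WithLp.toLp 2 v : EuclideanSpace ℝ (Fin 3))‖, by fun_prop⟩, by
    intro x hx
    simpa using hx, by
    intro x y
    simp only [ContinuousMap.coe_mk, WithLp.toLp_add]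
    exact norm_add_le _ _, by
    intro c x
    simp only [ContinuousMap.coe_mk, WithLp.toLp_smul, norm_smul, Real.norm_eq_abs]⟩

theorem near_N1 (N : Nm) (h : ∀ v ∈ sphere (0 : E) 1, |N.1 v - N1.1 v| < 1 / 20) :
    ¬ ∃ φ : Fin 5 → E, ∀ u v, u ≠ v → N.1 (φ u - φ v) = 1 := by
  rintro ⟨p, hp⟩
  have hq : ∀ x : E, N.1 x = 1 → |∑ k, x k ^ 2 - 1| ≤ 1 / 5 := by
    intro x hx
    have hx0 : x ≠ 0 := by
      rintro rfl
      have h4 := N.2.2.2 0 0
      simp [hx] at h4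
    obtain ⟨y, hy, e1, e2⟩ := scale N.2.2.2 hx0
    have e3 : N1.1 x = ‖x‖ * N1.1 y := by
      conv_lhs => rw [e1]
      rw [N1.2.2.2, abs_norm]
    have e4 : ‖x‖ ≤ N1.1 x := by
      show ‖x‖ ≤ ‖(WithLp.toLp 2 x : EuclideanSpace ℝ (Fin 3))‖
      rw [pi_norm_le_iff_of_nonneg (norm_nonneg _)]
      intro i
      exact PiLp.norm_apply_le (WithLp.toLp 2 x : EuclideanSpace ℝ (Fin 3)) i
    have e5 : N1.1 x ^ 2 = ∑ k, x k ^ 2 := by
      show ‖(WithLp.toLp 2 x : EuclideanSpace ℝ (Fin 3))‖ ^ 2 = _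
      rw [EuclideanSpace.norm_sq_eq]
      simp
    have e6 := abs_lt.1 (h y hy)
    have e7 := norm_nonneg x
    have e8 : 19 * N1.1 x ≤ 20 := by nlinarith [e6.1]
    have e9 : 20 ≤ 21 * N1.1 x := by nlinarith [e6.2]
    rw [← e5, abs_le]
    constructor <;> nlinarith
  have hdep : ¬ LinearIndependent ℝ (fun i : Fin 5 => (Fin.cons 1 (p i) : Fin 4 → ℝ)) := by
    intro hli
    have := hli.fintype_card_le_finrank
    simp at this
  obtain ⟨c, hc, i0, hi0⟩ := Fintype.not_linearIndependent_iff.1 hdep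
  have s0 : ∑ i, c i = 0 := by simpa using congrFun hc 0
  have s1 : ∀ k : Fin 3, ∑ i, c i * p i k = 0 := fun k => by simpa using congrFun hc k.succ
  have t1 : ∑ i, ∑ j, c i * c j * (∑ k, (p i k - p j k) ^ 2 - 1) = 0 := by
    have a0 := s1 0
    have a1 := s1 1
    have a2 := s1 2
    simp only [Fin.sum_univ_five, Fin.sum_univ_three] at a0 a1 a2 s0 ⊢
    linear_combination (-2 * (c 0 * p 0 0 + c 1 * p 1 0 + c 2 * p 2 0 + c 3 * p 3 0 + c 4 * p 4 0)) * a0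
      + (-2 * (c 0 * p 0 1 + c 1 * p 1 1 + c 2 * p 2 1 + c 3 * p 3 1 + c 4 * p 4 1)) * a1
      + (-2 * (c 0 * p 0 2 + c 1 * p 1 2 + c 2 * p 2 2 + c 3 * p 3 2 + c 4 * p 4 2)) * a2
      + (2 * (c 0 * (p 0 0 ^ 2 + p 0 1 ^ 2 + p 0 2 ^ 2) + c 1 * (p 1 0 ^ 2 + p 1 1 ^ 2 + p 1 2 ^ 2)
        + c 2 * (p 2 0 ^ 2 + p 2 1 ^ 2 + p 2 2 ^ 2) + c 3 * (p 3 0 ^ 2 + p 3 1 ^ 2 + p 3 2 ^ 2)
        + c 4 * (p 4 0 ^ 2 + p 4 1 ^ 2 + p 4 2 ^ 2)) - (c 0 + c 1 + c 2 + c 3 + c 4)) * s0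
  have t2 : ∑ i, ∑ j, c i * c j * (∑ k, (p i k - p j k) ^ 2 - 1)
      ≤ ∑ i, ∑ j, if i = j then -c i ^ 2 else (c i ^ 2 + c j ^ 2) / 10 := by
    refine Finset.sum_le_sum fun i _ => Finset.sum_le_sum fun j _ => ?_
    split_ifs with hij
    · subst hij; simp [sq]
    · have := abs_le.1 (hq _ (hp i j hij))
      simp only [Pi.sub_apply] at this
      nlinarith [mul_nonneg (sq_nonneg (c i + c j)) (sub_nonneg.2 this.2),
        mul_nonneg (sq_nonneg (c i - c j)) (sub_nonneg.2 this.1)]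
  have t3 : c i0 ^ 2 ≤ ∑ i, c i ^ 2 :=
    Finset.single_le_sum (f := fun i => c i ^ 2) (fun i _ => sq_nonneg _) (Finset.mem_univ _)
  have t4 : 0 < c i0 ^ 2 := by positivity
  rw [t1] at t2
  simp [Fin.sum_univ_five] at t2 t3
  linarith

theorem not_residual {S U : Set Nm} (hU : IsOpen U) (hne : U.Nonempty) (h : ∀ N ∈ U, N ∉ S) :
    S ∉ residual Nm := by
  intro hS
  haveI := baire
  obtain ⟨N, h1, h2⟩ := (dense_of_mem_residual hS).inter_open_nonempty U hU hne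
  exact h N h1 h2

end Pool.Agent.H32.NormZO
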