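import Mathlib

set_option autoImplicit false

namespace Pool.Agent.H32.OneRad

open MeasureTheory Filter Topology Real

noncomputable def g (t : ℝ) : ℝ := (1 - exp (-t)) * sin t

noncomputable def U (w : ℂ) : ℝ := g (log (1 - log (1 - ‖w‖ ^ 2)))

theorem g_lt (t : ℝ) (ht : 0 ≤ t) : |g t| < 1 := by
  have h1 : exp (-t) ≤ 1 := exp_le_one_iff.mpr (by linarith)
  have h2 := exp_pos (-t)
  rw [g, abs_mul, abs_of_nonneg (by linarith)]
  have := abs_sin_le_one t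
  nlinarith

theorem L_nonneg {w : ℂ} (hw : ‖w‖ < 1) : 0 ≤ - log (1 - ‖w‖ ^ 2) := by
  have h0 := norm_nonneg w
  have : log (1 - ‖w‖ ^ 2) ≤ 0 := log_nonpos (by nlinarith) (by nlinarith)
  linarith

theorem U_lt {w : ℂ} (hw : ‖w‖ < 1) : |U w| < 1 := by
  apply g_lt
  apply log_nonneg
  have := L_nonneg hw
  linarith

theorem slow (s : ℝ) (hs : s = 1 ∨ s = -1) (C a : ℝ) (hC : 0 ≤ C) (ha : a < 1) :
    ∃ L0 : ℝ, 0 < L0 ∧ ∃ b, a < b ∧ ∀ L, |L - L0| ≤ C → b ≤ s * g (log (1 + L)) := by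
  obtain ⟨η, hη0, hη1, hη⟩ : ∃ η : ℝ, 0 < η ∧ η < 1 / 2 ∧ a < 1 - 2 * η := by
    refine ⟨min (1 / 4) ((1 - a) / 4), by positivity, ?_, ?_⟩
    · have := min_le_left (1 / 4 : ℝ) ((1 - a) / 4)
      linarith
    · have := min_le_right (1 / 4 : ℝ) ((1 - a) / 4)
      linarith
  obtain ⟨k, hk⟩ := exists_nat_gt (C + (C + 1) / η + 2)
  set T : ℝ := s * (π / 2) + k * (2 * π) with hT
  have hpi := pi_gt_three
  have hpi' := pi_lt_four
  have hq : 0 ≤ (C + 1) / η := by positivity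
  have hk0 : (0 : ℝ) ≤ k := Nat.cast_nonneg k
  have hTk : (k : ℝ) ≤ T := by
    rcases hs with rfl | rfl <;> nlinarith
  have hsin : s * sin T = 1 := by
    rw [hT, sin_add_nat_mul_two_pi]
    rcases hs with rfl | rfl <;> simp
  have hexp : T + 1 ≤ exp T := add_one_le_exp T
  refine ⟨exp T - 1, by linarith, 1 - 2 * η, hη, fun L hL => ?_⟩
  rw [abs_le] at hL
  set M := (C + 1) / η with hM
  have hMη : M * η = C + 1 := by rw [hM]; field_simp
  have h1 : M ≤ 1 + L := by linarith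
  have hM0 : 0 < M := by positivity
  have hL0 : 0 < 1 + L := by linarith
  have hE : 0 < exp T := exp_pos T
  have h2 : |log (1 + L) - T| ≤ η := by
    rw [abs_le]
    constructor
    · have e1 : log (exp T / (1 + L)) ≤ exp T / (1 + L) - 1 := log_le_sub_one_of_pos (by positivity)
      rw [log_div hE.ne' hL0.ne', log_exp] at e1
      have e2 : exp T / (1 + L) - 1 ≤ η := by
        rw [sub_le_iff_le_add, div_le_iff₀ hL0]
        nlinarith
      linarith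
    · have e1 : log ((1 + L) / exp T) ≤ (1 + L) / exp T - 1 := log_le_sub_one_of_pos (by positivity)
      rw [log_div hL0.ne' hE.ne', log_exp] at e1
      have e2 : (1 + L) / exp T - 1 ≤ η := by
        rw [sub_le_iff_le_add, div_le_iff₀ hE]
        nlinarith
      linarith
  have h3 : |sin (log (1 + L)) - sin T| ≤ η := (abs_sin_sub_sin_le _ _).trans h2
  have h4 : 1 - η ≤ s * sin (log (1 + L)) := by
    rw [abs_le] at h3
    rcases hs with rfl | rfl <;> linarith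
  have h5 : exp (-log (1 + L)) ≤ η := by
    rw [exp_neg, exp_log hL0, inv_le_comm₀ hL0 hη0, inv_eq_one_div, div_le_iff₀ hη0]
    nlinarith
  have h6 := exp_pos (-log (1 + L))
  have : s * g (log (1 + L)) = (1 - exp (-log (1 + L))) * (s * sin (log (1 + L))) := by
    rw [g]; ring
  rw [this]
  nlinarith

noncomputable def mob (z w : ℂ) : ℂ := (1 - w * starRingEnd ℂ z)⁻¹ * (z - w)

theorem den_lower {z w : ℂ} (hw : ‖w‖ < 1) : 1 - ‖z‖ ≤ ‖1 - w * starRingEnd ℂ z‖ := by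
  have h1 := norm_sub_norm_le (1 : ℂ) (w * starRingEnd ℂ z)
  rw [norm_one, norm_mul, Complex.norm_conj] at h1
  nlinarith [norm_nonneg z, norm_nonneg w]

theorem den_upper {z w : ℂ} (hz : ‖z‖ < 1) (hw : ‖w‖ < 1) : ‖1 - w * starRingEnd ℂ z‖ ≤ 2 := by
  have h1 := norm_sub_le (1 : ℂ) (w * starRingEnd ℂ z)
  rw [norm_one, norm_mul, Complex.norm_conj] at h1
  nlinarith [norm_nonneg z, norm_nonneg w]

theorem mob_id {z w : ℂ} (hz : ‖z‖ < 1) (hw : ‖w‖ < 1) :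
    1 - ‖mob z w‖ ^ 2 = (1 - ‖z‖ ^ 2) * (1 - ‖w‖ ^ 2) / ‖1 - w * starRingEnd ℂ z‖ ^ 2 := by
  have h : 0 < ‖1 - w * starRingEnd ℂ z‖ := lt_of_lt_of_le (by linarith) (den_lower hw)
  rw [mob, norm_mul, norm_inv, eq_div_iff (by positivity)]
  have e : (1 - (‖1 - w * starRingEnd ℂ z‖⁻¹ * ‖z - w‖) ^ 2) * ‖1 - w * starRingEnd ℂ z‖ ^ 2
      = ‖1 - w * starRingEnd ℂ z‖ ^ 2 - ‖z - w‖ ^ 2 := by
    field_simp
  rw [e]
  simp only [Complex.sq_norm, Complex.normSq_apply]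
  simp
  ring

theorem mob_lt {z w : ℂ} (hz : ‖z‖ < 1) (hw : ‖w‖ < 1) : ‖mob z w‖ < 1 := by
  have h : 0 < ‖1 - w * starRingEnd ℂ z‖ := lt_of_lt_of_le (by linarith) (den_lower hw)
  have h1 : 0 < 1 - ‖z‖ ^ 2 := by nlinarith [norm_nonneg z]
  have h2 : 0 < 1 - ‖w‖ ^ 2 := by nlinarith [norm_nonneg w]
  have : 0 < 1 - ‖mob z w‖ ^ 2 := by
    rw [mob_id hz hw]
    positivity
  nlinarith [norm_nonneg (mob z w)]

theorem circle (s : ℝ) (hs : s = 1 ∨ s = -1) {z : ℂ} (hz : ‖z‖ < 1) (a : ℝ) (ha : a < 1) :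
    ∃ r : ℝ, 0 < r ∧ r < 1 ∧ ∃ b, a < b ∧ ∀ w : ℂ, ‖w‖ = r → b ≤ s * U (mob z w) := by
  have h1 : 0 < 1 - ‖z‖ ^ 2 := by nlinarith [norm_nonneg z]
  have h0 : 0 < 1 - ‖z‖ := by linarith
  obtain ⟨L0, hL0, b, hb, h⟩ := slow s hs (|log (1 - ‖z‖ ^ 2)| + 2 * (|log 2| + |log (1 - ‖z‖)|)) a
    (by positivity) ha
  have e1 : exp (-L0) < 1 := exp_lt_one_iff.mpr (by linarith)
  have e2 := exp_pos (-L0)
  refine ⟨√(1 - exp (-L0)), sqrt_pos.mpr (by linarith), ?_, b, hb, fun w hw => ?_⟩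
  · rw [sqrt_lt' one_pos]
    linarith
  have hw2 : 1 - ‖w‖ ^ 2 = exp (-L0) := by
    rw [hw, sq_sqrt (by linarith)]
    ring
  have hw1 : ‖w‖ < 1 := by nlinarith [norm_nonneg w]
  have hd : 0 < ‖1 - w * starRingEnd ℂ z‖ := lt_of_lt_of_le h0 (den_lower hw1)
  rw [U, sub_eq_add_neg 1 (log _)]
  apply h
  rw [mob_id hz hw1, hw2, log_div (by positivity) (by positivity), log_mul h1.ne' e2.ne', log_exp,
    log_pow]
  have a1 : log (1 - ‖z‖) ≤ log ‖1 - w * starRingEnd ℂ z‖ := log_le_log h0 (den_lower hw1)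
  have a2 : log ‖1 - w * starRingEnd ℂ z‖ ≤ log 2 := log_le_log hd (den_upper hz hw1)
  rw [abs_le]
  push_cast
  constructor <;>
  linarith [le_abs_self (log (1 - ‖z‖ ^ 2)), neg_abs_le (log (1 - ‖z‖ ^ 2)), le_abs_self (log 2),
    neg_abs_le (log (1 - ‖z‖)), abs_nonneg (log 2), abs_nonneg (log (1 - ‖z‖))]

theorem U_meas : Measurable U := by
  unfold U g
  fun_prop

theorem U_contAt {w : ℂ} (hw : ‖w‖ < 1) : ContinuousAt U w := by
  have h2 : 0 < 1 - ‖w‖ ^ 2 := by nlinarith [norm_nonneg w]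
  have h3 := L_nonneg hw
  have hg : Continuous g := by unfold g; fun_prop
  refine hg.continuousAt.comp (f := fun w : ℂ => log (1 - log (1 - ‖w‖ ^ 2))) ?_
  refine ContinuousAt.log (continuousAt_const.sub (ContinuousAt.log (by fun_prop) h2.ne')) ?_
  linarith

def B : Set (Fin 1 → ℂ) := {x | ‖x 0‖ < 1}

theorem B_eq : B = Metric.ball 0 1 := by
  ext x
  simp [B, pi_norm_lt_iff, Fin.forall_fin_one]

theorem volB : 0 < (volume B).toReal := by
  rw [B_eq]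
  exact ENNReal.toReal_pos (Metric.measure_ball_pos _ _ one_pos).ne' measure_ball_lt_top.ne

instance : IsFiniteMeasure (volume.restrict B) := by
  rw [B_eq]
  exact ⟨by simpa using measure_ball_lt_top⟩

noncomputable def F (z : ℂ) (r : ℝ) : ℝ :=
  ((volume B).toReal)⁻¹ * ∫ x in B, U (mob z (((r / ‖x 0‖ : ℝ) : ℂ) * x 0))

theorem ae_ne : ∀ᵐ x ∂(volume.restrict B), x 0 ≠ 0 := by
  apply ae_restrict_of_ae
  have : ∀ᵐ x : Fin 1 → ℂ ∂volume, x ∉ ({0} : Set (Fin 1 → ℂ)) :=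
    compl_mem_ae_iff.mpr (measure_singleton 0)
  filter_upwards [this] with x hx h0
  apply hx
  funext j
  rw [Subsingleton.elim j 0]
  exact h0

theorem norm_pt {x : ℂ} (hx : x ≠ 0) {r : ℝ} (hr : 0 < r) : ‖((r / ‖x‖ : ℝ) : ℂ) * x‖ = r := by
  have := norm_pos_iff.mpr hx
  rw [norm_mul, Complex.norm_real, Real.norm_eq_abs, abs_of_pos (by positivity)]
  field_simp

theorem meas_int (z : ℂ) (r : ℝ) :
    Measurable fun x : Fin 1 → ℂ => U (mob z (((r / ‖x 0‖ : ℝ) : ℂ) * x 0)) := by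
  refine U_meas.comp ?_
  unfold mob
  fun_prop

theorem bound_int {z : ℂ} (hz : ‖z‖ < 1) {r : ℝ} (h0 : 0 < r) (h1 : r < 1) :
    ∀ᵐ x ∂(volume.restrict B), ‖U (mob z (((r / ‖x 0‖ : ℝ) : ℂ) * x 0))‖ ≤ 1 := by
  filter_upwards [ae_ne] with x hx
  exact (U_lt (mob_lt hz (by rw [norm_pt hx h0]; exact h1))).le

theorem F_cont {z : ℂ} (hz : ‖z‖ < 1) : ContinuousOn (F z) (Set.Ioo 0 1) := by
  refine continuousOn_const.mul ?_
  refine continuousOn_of_dominated (bound := fun _ => 1) (fun r _ => (meas_int z r).aestronglyMeasurable)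
    (fun r hr => bound_int hz hr.1 hr.2) (integrable_const _) ?_
  filter_upwards [ae_ne] with x hx r hr
  have hw : ‖((r / ‖x 0‖ : ℝ) : ℂ) * x 0‖ < 1 := by rw [norm_pt hx hr.1]; exact hr.2
  refine ContinuousAt.continuousWithinAt ?_
  refine ContinuousAt.comp (g := U) (U_contAt (mob_lt hz hw)) ?_
  have hd : 0 < ‖1 - (((r / ‖x 0‖ : ℝ) : ℂ) * x 0) * starRingEnd ℂ z‖ :=
    lt_of_lt_of_le (by linarith) (den_lower hw)
  unfold mob
  refine ContinuousAt.mul (ContinuousAt.inv₀ (by fun_prop) (norm_pos_iff.mp hd)) (by fun_prop)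

theorem F_big (s : ℝ) (hs : s = 1 ∨ s = -1) {z : ℂ} (hz : ‖z‖ < 1) :
    ∃ r : ℝ, 0 < r ∧ r < 1 ∧ s * U z < s * F z r := by
  have hU := abs_lt.mp (U_lt hz)
  obtain ⟨r, h0, h1, b, hb, h⟩ := circle s hs hz (s * U z) (by rcases hs with rfl | rfl <;> linarith)
  refine ⟨r, h0, h1, hb.trans_le ?_⟩
  have hint : Integrable (fun x : Fin 1 → ℂ => U (mob z (((r / ‖x 0‖ : ℝ) : ℂ) * x 0)))
      (volume.restrict B) :=
    (integrable_const (1 : ℝ)).mono' (meas_int z r).aestronglyMeasurable (bound_int hz h0 h1)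
  have h2 : ∫ _ in B, b ≤ ∫ x in B, s * U (mob z (((r / ‖x 0‖ : ℝ) : ℂ) * x 0)) := by
    refine integral_mono_ae (integrable_const _) (hint.const_mul s) ?_
    filter_upwards [ae_ne] with x hx
    exact h _ (norm_pt hx h0)
  rw [integral_const_mul, setIntegral_const, smul_eq_mul, Measure.real] at h2
  have hv := volB
  rw [F, mul_left_comm, le_inv_mul_iff₀ hv]
  exact h2

theorem F_eq {z : ℂ} (hz : ‖z‖ < 1) : ∃ r : ℝ, 0 < r ∧ r < 1 ∧ F z r = U z := by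
  obtain ⟨r1, a1, b1, h1⟩ := F_big 1 (Or.inl rfl) hz
  obtain ⟨r2, a2, b2, h2⟩ := F_big (-1) (Or.inr rfl) hz
  obtain ⟨r, hr, h⟩ := isPreconnected_Ioo.intermediate_value (⟨a2, b2⟩ : r2 ∈ Set.Ioo (0 : ℝ) 1)
    (⟨a1, b1⟩ : r1 ∈ Set.Ioo (0 : ℝ) 1) (F_cont hz) (show U z ∈ _ from ⟨by linarith, by linarith⟩)
  exact ⟨r, hr.1, hr.2, h⟩

theorem U_analytic {x : Fin 1 → ℂ} (hx : ‖x 0‖ < 1) :
    AnalyticAt ℝ (fun y : Fin 1 → ℂ => ((U (y 0) : ℝ) : ℂ)) x := by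
  have h2 : 0 < 1 - ‖x 0‖ ^ 2 := by nlinarith [norm_nonneg (x 0)]
  have h3 := L_nonneg hx
  have hp : AnalyticAt ℝ (fun y : Fin 1 → ℂ => y 0) x :=
    (ContinuousLinearMap.proj (R := ℝ) (φ := fun _ : Fin 1 => ℂ) 0).analyticAt x
  have hre : AnalyticAt ℝ (fun y : Fin 1 → ℂ => (y 0).re) x := (Complex.reCLM.analyticAt _).comp hp
  have him : AnalyticAt ℝ (fun y : Fin 1 → ℂ => (y 0).im) x := (Complex.imCLM.analyticAt _).comp hp
  have hn : AnalyticAt ℝ (fun y : Fin 1 → ℂ => ‖y 0‖ ^ 2) x := by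
    have : (fun y : Fin 1 → ℂ => ‖y 0‖ ^ 2) = fun y => (y 0).re * (y 0).re + (y 0).im * (y 0).im := by
      funext y
      rw [Complex.sq_norm, Complex.normSq_apply]
    rw [this]
    exact (hre.mul hre).add (him.mul him)
  have hl0 : AnalyticAt ℝ (fun t : ℝ => log (1 - log (1 - t))) (‖x 0‖ ^ 2) := by
    refine AnalyticAt.log (f := fun t : ℝ => 1 - log (1 - t)) (analyticAt_const.sub ?_) (by linarith)
    exact AnalyticAt.log (f := fun t : ℝ => 1 - t) (analyticAt_const.sub analyticAt_id) h2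
  have hl : AnalyticAt ℝ (fun y : Fin 1 → ℂ => log (1 - log (1 - ‖y 0‖ ^ 2))) x :=
    AnalyticAt.comp (g := fun t : ℝ => log (1 - log (1 - t))) (f := fun y : Fin 1 → ℂ => ‖y 0‖ ^ 2)
      hl0 hn
  have hg : ∀ t, AnalyticAt ℝ g t := by
    intro t
    unfold g
    fun_prop
  exact (Complex.ofRealCLM.analyticAt _).comp ((hg _).comp hl)

/-- The counterexample, in the shape of the frozen statement. -/
theorem main (φ : (Fin 1 → ℂ) → (Fin 1 → ℂ) → (Fin 1 → ℂ))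
    (hφ : ∀ z w, φ z w = (1 - ∑ j, w j * starRingEnd ℂ (z j))⁻¹ •
        (z - ((∑ j, w j * starRingEnd ℂ (z j)) / (∑ j, z j * starRingEnd ℂ (z j))) • z
          - ((Real.sqrt (1 - ∑ j, ‖z j‖ ^ 2) : ℝ) : ℂ) •
              (w - ((∑ j, w j * starRingEnd ℂ (z j)) / (∑ j, z j * starRingEnd ℂ (z j))) • z)))
    (D : Set (Fin 1 → ℂ)) (hD : D = {x : Fin 1 → ℂ | ∑ j, ‖x j‖ ^ 2 < 1})
    (avg : ((Fin 1 → ℂ) → ℂ) → (Fin 1 → ℂ) → ℝ → ℂ)
    (havg : ∀ u z r, avg u z r = ((MeasureTheory.volume D).toReal : ℂ)⁻¹ *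
        ∫ x in D, u (φ z (((r / Real.sqrt (∑ j, ‖x j‖ ^ 2) : ℝ) : ℂ) • x))) :
    ∃ u : (Fin 1 → ℂ) → ℂ, AnalyticOnNhd ℝ u D ∧ (∃ M : ℝ, ∀ z ∈ D, ‖u z‖ ≤ M) ∧
      (∀ z ∈ D, ∃ r : ℝ, 0 < r ∧ r < 1 ∧ avg u z r = u z) ∧
      ¬ ∀ z ∈ D, ∀ r : ℝ, 0 < r → r < 1 → avg u z r = u z := by
  have hDB : D = B := by
    rw [hD]
    ext x
    simp only [B, Fin.sum_univ_one, Set.mem_ofPred_eq]
    constructor <;> intro h <;> nlinarith [norm_nonneg (x 0)]
  subst hDB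
  have hφ0 : ∀ z w, φ z w 0 = mob (z 0) (w 0) := by
    intro z w
    rw [hφ]
    simp only [Fin.sum_univ_one, Pi.smul_apply, Pi.sub_apply, smul_eq_mul, mob]
    by_cases h : z 0 = 0
    · simp [h]
    · have h' : starRingEnd ℂ (z 0) ≠ 0 := by simpa using h
      have : w 0 * starRingEnd ℂ (z 0) / (z 0 * starRingEnd ℂ (z 0)) * z 0 = w 0 := by field_simp
      rw [this]
      ring
  have hF : ∀ z r, avg (fun y => ((U (y 0) : ℝ) : ℂ)) z r = ((F (z 0) r : ℝ) : ℂ) := by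
    intro z r
    rw [havg, F]
    simp only [hφ0, Fin.sum_univ_one, Pi.smul_apply, smul_eq_mul, sqrt_sq (norm_nonneg _)]
    rw [integral_complex_ofReal]
    push_cast
    rfl
  refine ⟨fun y => ((U (y 0) : ℝ) : ℂ), fun x hx => U_analytic hx, ⟨1, fun z hz => ?_⟩, ?_, ?_⟩
  · rw [Complex.norm_real]
    exact (U_lt hz).le
  · intro z hz
    obtain ⟨r, a, b, h⟩ := F_eq hz
    exact ⟨r, a, b, by rw [hF, h]⟩
  · intro h
    have hz : (0 : Fin 1 → ℂ) ∈ B := by simp [B]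
    obtain ⟨r, a, b, h1⟩ := F_big 1 (Or.inl rfl) hz
    have := h 0 hz r a b
    rw [hF, Complex.ofReal_inj] at this
    linarith

end Pool.Agent.H32.OneRad
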