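import Mathlib.Data.Nat.Bitwise
import Mathlib.Data.Nat.Log
import Mathlib.Tactic.IntervalCases
import Pool.Agent.H32.PM14Data

namespace Pool.Agent.H32.PM14

def V (a b : Nat) : Nat := (T.getD a []).getD b 0

def cl (x : Nat) : Nat := Nat.land x (Nat.sub x 1)

def c11 (x : Nat) : Nat := cl (cl (cl (cl (cl (cl (cl (cl (cl (cl (cl x))))))))))

def ok (x : Nat) : Bool := !(Nat.beq (c11 x) 0) && Nat.beq (cl (c11 x)) 0

def R : List Nat := [0, 1, 2, 3, 4, 5, 6, 7, 8, 9, 10, 11, 12, 13]

def triB (a1 b1 : Nat) : Bool :=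
  R.all fun a2 => Nat.ble a2 a1 || Nat.beq a2 b1 || R.all fun b2 =>
    Nat.ble b2 a2 || Nat.beq b2 b1 || R.all fun a3 =>
    Nat.ble a3 a2 || Nat.beq a3 b1 || Nat.beq a3 b2 || R.all fun b3 =>
    Nat.ble b3 a3 || Nat.beq b3 b1 || Nat.beq b3 b2 ||
      ok (Nat.land (Nat.land (V a1 b1) (V a2 b2)) (V a3 b3))

theorem t0x1 : triB 0 1 = true := by decide +kernel
theorem t0x2 : triB 0 2 = true := by decide +kernel
theorem t0x3 : triB 0 3 = true := by decide +kernel
theorem t0x4 : triB 0 4 = true := by decide +kernel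
theorem t0x5 : triB 0 5 = true := by decide +kernel
theorem t0x6 : triB 0 6 = true := by decide +kernel
theorem t0x7 : triB 0 7 = true := by decide +kernel
theorem t0x8 : triB 0 8 = true := by decide +kernel
theorem t0x9 : triB 0 9 = true := by decide +kernel
theorem t0x10 : triB 0 10 = true := by decide +kernel
theorem t0x11 : triB 0 11 = true := by decide +kernel
theorem t0x12 : triB 0 12 = true := by decide +kernel
theorem t0x13 : triB 0 13 = true := by decide +kernel
theorem t1x2 : triB 1 2 = true := by decide +kernel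
theorem t1x3 : triB 1 3 = true := by decide +kernel
theorem t1x4 : triB 1 4 = true := by decide +kernel
theorem t1x5 : triB 1 5 = true := by decide +kernel
theorem t1x6 : triB 1 6 = true := by decide +kernel
theorem t1x7 : triB 1 7 = true := by decide +kernel
theorem t1x8 : triB 1 8 = true := by decide +kernel
theorem t1x9 : triB 1 9 = true := by decide +kernel
theorem t1x10 : triB 1 10 = true := by decide +kernel
theorem t1x11 : triB 1 11 = true := by decide +kernel
theorem t1x12 : triB 1 12 = true := by decide +kernel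
theorem t1x13 : triB 1 13 = true := by decide +kernel
theorem t2x3 : triB 2 3 = true := by decide +kernel
theorem t2x4 : triB 2 4 = true := by decide +kernel
theorem t2x5 : triB 2 5 = true := by decide +kernel
theorem t2x6 : triB 2 6 = true := by decide +kernel
theorem t2x7 : triB 2 7 = true := by decide +kernel
theorem t2x8 : triB 2 8 = true := by decide +kernel
theorem t2x9 : triB 2 9 = true := by decide +kernel
theorem t2x10 : triB 2 10 = true := by decide +kernel
theorem t2x11 : triB 2 11 = true := by decide +kernel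
theorem t2x12 : triB 2 12 = true := by decide +kernel
theorem t2x13 : triB 2 13 = true := by decide +kernel
theorem s3 : ∀ b < 14, 3 < b → triB 3 b = true := by decide +kernel
theorem s4 : ∀ b < 14, 4 < b → triB 4 b = true := by decide +kernel
theorem s5 : ∀ b < 14, 5 < b → triB 5 b = true := by decide +kernel
theorem s6 : ∀ a < 14, 6 ≤ a → ∀ b < 14, a < b → triB a b = true := by decide +kernel

theorem triB_all (a b : Nat) (h : b < 14) (hab : a < b) : triB a b = true := by
  by_cases h5 : 6 ≤ a
  · exact s6 a (by omega) h5 b h hab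
  · have : a < 6 := by omega
    interval_cases a
    · interval_cases b
      exacts [t0x1, t0x2, t0x3, t0x4, t0x5, t0x6, t0x7, t0x8, t0x9, t0x10, t0x11, t0x12, t0x13]
    · interval_cases b
      exacts [t1x2, t1x3, t1x4, t1x5, t1x6, t1x7, t1x8, t1x9, t1x10, t1x11, t1x12, t1x13]
    · interval_cases b
      exacts [t2x3, t2x4, t2x5, t2x6, t2x7, t2x8, t2x9, t2x10, t2x11, t2x12, t2x13]
    · exact s3 b h hab
    · exact s4 b h hab
    · exact s5 b h hab

theorem mem_R {a : Nat} (h : a < 14) : a ∈ R := by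
  interval_cases a <;> decide

theorem tri_all (a1 b1 a2 b2 a3 b3 : Nat) (h1 : b1 < 14) (h2 : b2 < 14) (h3 : b3 < 14)
    (l1 : a1 < b1) (l2 : a2 < b2) (l3 : a3 < b3) (m1 : a1 < a2) (m2 : a2 < a3)
    (n1 : a2 ≠ b1) (n2 : b2 ≠ b1) (n3 : a3 ≠ b1) (n4 : a3 ≠ b2) (n5 : b3 ≠ b1) (n6 : b3 ≠ b2) :
    ok (V a1 b1 &&& V a2 b2 &&& V a3 b3) = true := by
  have h := triB_all a1 b1 h1 l1
  simp only [triB, List.all_eq_true, Bool.or_eq_true, Nat.ble_eq, Nat.beq_eq] at h
  have h := (h a2 (mem_R (by omega))).resolve_left (by omega)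
  have h := (h b2 (mem_R h2)).resolve_left (by omega)
  have h := (h a3 (mem_R (by omega))).resolve_left (by omega)
  exact (h b3 (mem_R h3)).resolve_left (by omega)

theorem V_symm : ∀ a < 14, ∀ b < 14, V a b = V b a := by decide +kernel
theorem V_self : ∀ a < 14, V a a = 0 := by decide +kernel
theorem V_lt : ∀ a < 14, ∀ b < 14, V a b < 2 ^ 15444 := by decide +kernel
theorem V_disj : ∀ a < 14, ∀ b < 14, ∀ c < 14, b ≠ c → V a b &&& V a c = 0 := by decide +kernel
theorem V_cover : ∀ a < 14, ((List.range 14).map (V a)).foldr (· ||| ·) 0 = 2 ^ 15444 - 1 := by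
  decide +kernel
theorem V_out : V 0 1 &&& V 2 3 &&& V 4 5 &&& V 6 7 &&& V 8 9 &&& V 10 12 = 0 := by decide +kernel

def lexChk : List Nat → Nat → Bool
  | [], e => e == 0
  | v :: vs, e => (e &&& (v >>> 1) &&& v == e &&& (v >>> 1)) &&
      lexChk vs (e ^^^ (e &&& (v ^^^ (v >>> 1))))

def allV : List Nat := (List.range 14).flatMap fun a => (List.range 14).map (V a)

theorem lex_ok : lexChk allV (2 ^ 15443 - 1) = true := by decide +kernel

end Pool.Agent.H32.PM14
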