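import Mathlib
import Pool.Agent.H32.PM14Chk

namespace Pool.Agent.H32.PM14
open Finset

lemma cl_spec : ∀ x : ℕ, x ≠ 0 → ∃ l, x.testBit l = true ∧
    ∀ j, (cl x).testBit j = (x.testBit j && decide (j ≠ l)) := by
  intro x
  induction x using Nat.strong_induction_on with
  | _ x ih =>
    intro hx
    have hcl : ∀ y : ℕ, cl y = y &&& (y - 1) := fun y => rfl
    rcases Nat.even_or_odd' x with ⟨y, rfl | rfl⟩
    · have hy : y ≠ 0 := by omega
      obtain ⟨l, h1, h2⟩ := ih y (by omega) hy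
      refine ⟨l + 1, ?_, ?_⟩
      · rw [Nat.testBit_succ]; have : 2 * y / 2 = y := by omega
        rw [this, h1]
      · intro j
        rw [hcl, Nat.testBit_and]
        cases j with
        | zero => simp [Nat.testBit_zero]
        | succ j =>
          have e1 : 2 * y / 2 = y := by omega
          have e2 : (2 * y - 1) / 2 = y - 1 := by omega
          rw [Nat.testBit_succ, Nat.testBit_succ, e1, e2, ← Nat.testBit_and, ← hcl, h2]
          simp
    · refine ⟨0, ?_, ?_⟩
      · simp [Nat.testBit_zero]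
      · intro j
        rw [hcl, Nat.testBit_and]
        cases j with
        | zero => simp [Nat.testBit_zero]
        | succ j =>
          have e1 : (2 * y + 1) / 2 = y := by omega
          have e2 : (2 * y + 1 - 1) / 2 = y := by omega
          rw [Nat.testBit_succ, Nat.testBit_succ, e1, e2]
          simp

def bits (n x : ℕ) : Finset ℕ := (range n).filter fun j => x.testBit j = true

lemma cl_le (x : ℕ) : cl x ≤ x := Nat.and_le_left

lemma cl_zero : cl 0 = 0 := by decide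

lemma bits_cl {n x : ℕ} (hx : x ≠ 0) (hn : x < 2 ^ n) :
    (bits n x).card = (bits n (cl x)).card + 1 := by
  obtain ⟨l, h1, h2⟩ := cl_spec x hx
  have hl : l < n := by
    by_contra h
    have : x < 2 ^ l := lt_of_lt_of_le hn (Nat.pow_le_pow_right (by norm_num) (by omega))
    rw [Nat.testBit_lt_two_pow this] at h1
    exact absurd h1 (by simp)
  have hm : l ∈ bits n x := by simp [bits, hl, h1]
  have : bits n (cl x) = (bits n x).erase l := by
    ext j; simp only [bits, mem_filter, mem_range, mem_erase, h2, Bool.and_eq_true,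
      decide_eq_true_eq]; tauto
  rw [this, card_erase_add_one hm]

lemma iter_card (n : ℕ) : ∀ (k : ℕ) (x : ℕ), x < 2 ^ n → cl^[k] x ≠ 0 → cl^[k+1] x = 0 →
    (bits n x).card = k + 1 := by
  intro k
  induction k with
  | zero =>
    intro x hx h1 h2
    have h1' : x ≠ 0 := h1
    rw [bits_cl h1' hx]
    have : cl x = 0 := h2
    rw [this]; simp [bits]
  | succ k ih =>
    intro x hx h1 h2
    have hx0 : x ≠ 0 := by
      rintro rfl
      exact h1 (Function.iterate_fixed cl_zero _)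
    rw [bits_cl hx0 hx, ih (cl x) (lt_of_le_of_lt (cl_le x) hx) h1 h2]

lemma ok_card {n x : ℕ} (hx : x < 2 ^ n) (h : ok x = true) : (bits n x).card = 12 := by
  simp only [ok, Bool.and_eq_true, Bool.not_eq_true', Nat.beq_eq] at h
  refine iter_card n 11 x hx ?_ ?_
  · intro h0
    have : c11 x = 0 := h0
    rw [this] at h
    exact absurd h.1 (by decide)
  · rw [Function.iterate_succ_apply']
    exact h.2

def g : List ℕ → ℕ → ℕ
  | [], _ => 0
  | v :: vs, j => (if v.testBit j = true then 2 ^ vs.length else 0) + g vs j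

lemma g_lt : ∀ (vs : List ℕ) (j : ℕ), g vs j < 2 ^ vs.length
  | [], _ => by simp [g]
  | v :: vs, j => by
    have := g_lt vs j
    simp only [g, List.length_cons, pow_succ]
    split_ifs <;> omega

lemma lex_spec : ∀ (vs : List ℕ) (e : ℕ), lexChk vs e = true → ∀ j, e.testBit j = true →
    g vs (j + 1) < g vs j
  | [], e, h, j, hj => by
    simp only [lexChk, beq_iff_eq] at h
    subst h; simp at hj
  | v :: vs, e, h, j, hj => by
    simp only [lexChk, Bool.and_eq_true, beq_iff_eq] at h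
    obtain ⟨h1, h2⟩ := h
    have h3 := congrArg (fun t => Nat.testBit t j) h1
    simp only [Nat.testBit_and, Nat.testBit_shiftRight, hj, Bool.true_and] at h3
    have h4 := lex_spec vs _ h2 j
    simp only [Nat.testBit_xor, Nat.testBit_and, Nat.testBit_shiftRight, hj, Bool.true_and] at h4
    have l1 := g_lt vs j
    have l2 := g_lt vs (j + 1)
    rw [Nat.add_comm 1 j] at h3 h4
    simp only [g]
    cases a : v.testBit j <;> cases b : v.testBit (j + 1) <;> simp [a, b] at h3 h4 ⊢ <;> omega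

lemma g_anti : ∀ j k, j < k → k < 15444 → g allV k < g allV j := by
  intro j k hjk
  induction k, hjk using Nat.le_induction with
  | base =>
    intro h
    exact lex_spec _ _ lex_ok j (by rw [Nat.testBit_two_pow_sub_one]; simp; omega)
  | succ k hk ih =>
    intro h
    exact lt_trans (lex_spec _ _ lex_ok k (by rw [Nat.testBit_two_pow_sub_one]; simp; omega))
      (ih (by omega))

lemma g_congr : ∀ (vs : List ℕ) (j k : ℕ), (∀ v ∈ vs, v.testBit j = v.testBit k) →
    g vs j = g vs k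
  | [], _, _, _ => rfl
  | v :: vs, j, k, h => by
    simp only [g]
    rw [h v (by simp), g_congr vs j k fun w hw => h w (by simp [hw])]

lemma bits_inj {j k : ℕ} (hj : j < 15444) (hk : k < 15444)
    (h : ∀ a < 14, ∀ b < 14, (V a b).testBit j = (V a b).testBit k) : j = k := by
  have e : g allV j = g allV k := by
    apply g_congr
    intro v hv
    simp only [allV, List.mem_flatMap, List.mem_range, List.mem_map] at hv
    obtain ⟨a, ha, b, hb, rfl⟩ := hv
    exact h a ha b hb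
  rcases lt_trichotomy j k with l | l | l
  · have := g_anti j k l hk; omega
  · exact l
  · have := g_anti k j l hj; omega

lemma or_bit : ∀ (l : List ℕ) (j : ℕ), (l.foldr (· ||| ·) 0).testBit j = true →
    ∃ v ∈ l, v.testBit j = true
  | [], j, h => by simp at h
  | v :: l, j, h => by
    simp only [List.foldr_cons, Nat.testBit_or, Bool.or_eq_true] at h
    rcases h with h | h
    · exact ⟨v, by simp, h⟩
    · obtain ⟨w, hw, h⟩ := or_bit l j h
      exact ⟨w, by simp [hw], h⟩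

/-- the relation: matching number `j` contains the edge `ab` -/
def E (j : ℕ) (a b : Fin 14) : Prop := (V a b).testBit j = true

instance (j : ℕ) (a b : Fin 14) : Decidable (E j a b) := by unfold E; infer_instance

lemma E_symm {j : ℕ} {a b : Fin 14} (h : E j a b) : E j b a := by
  unfold E at *; rwa [V_symm b b.2 a a.2]

lemma E_ne {j : ℕ} {a b : Fin 14} (h : E j a b) : a ≠ b := by
  rintro rfl
  unfold E at h; rw [V_self a a.2] at h; simp at h

lemma E_uniq {j : ℕ} {a b c : Fin 14} (h : E j a b) (h' : E j a c) : b = c := by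
  by_contra hne
  have := V_disj a a.2 b b.2 c c.2 (fun e => hne (Fin.ext e))
  have h2 := congrArg (fun t => Nat.testBit t j) this
  unfold E at h h'
  simp [Nat.testBit_and, h, h'] at h2

lemma E_ex {j : ℕ} (hj : j < 15444) (a : Fin 14) : ∃ b, E j a b := by
  have h := V_cover a a.2
  have h2 : (((List.range 14).map (V a)).foldr (· ||| ·) 0).testBit j = true := by
    rw [h, Nat.testBit_two_pow_sub_one]; simpa using hj
  obtain ⟨v, hv, h3⟩ := or_bit _ _ h2
  simp only [List.mem_map, List.mem_range] at hv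
  obtain ⟨b, hb, rfl⟩ := hv
  exact ⟨⟨b, hb⟩, h3⟩

def mt (j : ℕ) : Finset (Finset (Fin 14)) :=
  univ.filter fun e => ∃ a b, e = {a, b} ∧ E j a b

lemma mem_mt {j : ℕ} {e : Finset (Fin 14)} : e ∈ mt j ↔ ∃ a b, e = {a, b} ∧ E j a b := by
  simp [mt]

lemma pair_mem {j : ℕ} {a b : Fin 14} (hab : a ≠ b) : ({a, b} : Finset (Fin 14)) ∈ mt j ↔ E j a b := by
  rw [mem_mt]
  constructor
  · rintro ⟨c, d, h, hE⟩
    have ha : a ∈ ({c, d} : Finset (Fin 14)) := h ▸ (by simp)
    have hb : b ∈ ({c, d} : Finset (Fin 14)) := h ▸ (by simp)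
    simp only [mem_insert, mem_singleton] at ha hb
    rcases ha with rfl | rfl <;> rcases hb with rfl | rfl
    · exact absurd rfl hab
    · exact hE
    · exact E_symm hE
    · exact absurd rfl hab
  · intro h; exact ⟨a, b, rfl, h⟩

lemma mt_card {j : ℕ} : ∀ e ∈ mt j, e.card = 2 := by
  intro e he
  obtain ⟨a, b, rfl, h⟩ := mem_mt.1 he
  exact card_pair (E_ne h)

lemma mt_uniq {j : ℕ} (hj : j < 15444) (v : Fin 14) : ∃! e, e ∈ mt j ∧ v ∈ e := by
  obtain ⟨b, hb⟩ := E_ex hj v
  refine ⟨{v, b}, ⟨mem_mt.2 ⟨v, b, rfl, hb⟩, by simp⟩, ?_⟩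
  rintro e ⟨he, hv⟩
  obtain ⟨c, d, rfl, h⟩ := mem_mt.1 he
  simp only [mem_insert, mem_singleton] at hv
  rcases hv with rfl | rfl
  · rw [E_uniq h hb]
  · rw [E_uniq (E_symm h) hb, pair_comm]

lemma mt_inj : Set.InjOn mt (range 15444 : Finset ℕ) := by
  intro j hj k hk h
  simp only [coe_range, Set.mem_Iio] at hj hk
  apply bits_inj hj hk
  intro a ha b hb
  by_cases hab : a = b
  · subst hab; rw [V_self a ha]; simp
  · have hne : (⟨a, ha⟩ : Fin 14) ≠ ⟨b, hb⟩ := fun e => hab (congrArg Fin.val e)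
    have e1 := pair_mem (j := j) hne
    have e2 := pair_mem (j := k) hne
    rw [h, e2] at e1
    unfold E at e1
    exact Bool.eq_iff_iff.2 e1.symm

lemma cnt_sorted (a1 b1 a2 b2 a3 b3 : Fin 14) (l1 : a1 < b1) (l2 : a2 < b2) (l3 : a3 < b3)
    (m1 : a1 < a2) (m2 : a2 < a3) (n1 : a2 ≠ b1) (n2 : b2 ≠ b1) (n3 : a3 ≠ b1) (n4 : a3 ≠ b2)
    (n5 : b3 ≠ b1) (n6 : b3 ≠ b2) :
    ((range 15444).filter fun j => E j a1 b1 ∧ E j a2 b2 ∧ E j a3 b3).card = 12 := by
  have h := tri_all a1 b1 a2 b2 a3 b3 b1.2 b2.2 b3.2 l1 l2 l3 m1 m2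
    (Fin.val_ne_of_ne n1) (Fin.val_ne_of_ne n2) (Fin.val_ne_of_ne n3) (Fin.val_ne_of_ne n4)
    (Fin.val_ne_of_ne n5) (Fin.val_ne_of_ne n6)
  have hlt : V a1 b1 &&& V a2 b2 &&& V a3 b3 < 2 ^ 15444 :=
    lt_of_le_of_lt Nat.and_le_right (V_lt a3 a3.2 b3 b3.2)
  rw [← ok_card hlt h]
  unfold bits
  refine congrArg card (filter_congr ?_)
  intro j _
  simp [E, Nat.testBit_and, and_assoc]

lemma pair_sorted {e : Finset (Fin 14)} (h : e.card = 2) : ∃ a b, a < b ∧ e = {a, b} := by
  obtain ⟨a, b, hab, rfl⟩ := card_eq_two.1 h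
  rcases lt_or_gt_of_ne hab with l | l
  · exact ⟨a, b, l, rfl⟩
  · exact ⟨b, a, l, pair_comm _ _⟩

lemma cnt (e1 e2 e3 : Finset (Fin 14)) (h1 : e1.card = 2) (h2 : e2.card = 2) (h3 : e3.card = 2)
    (d12 : Disjoint e1 e2) (d13 : Disjoint e1 e3) (d23 : Disjoint e2 e3) :
    ((range 15444).filter fun j => e1 ∈ mt j ∧ e2 ∈ mt j ∧ e3 ∈ mt j).card = 12 := by
  obtain ⟨a1, b1, l1, rfl⟩ := pair_sorted h1
  obtain ⟨a2, b2, l2, rfl⟩ := pair_sorted h2
  obtain ⟨a3, b3, l3, rfl⟩ := pair_sorted h3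
  simp only [pair_mem l1.ne, pair_mem l2.ne, pair_mem l3.ne]
  simp only [disjoint_insert_left, disjoint_singleton_left, mem_insert, mem_singleton, not_or]
    at d12 d13 d23
  obtain ⟨⟨p1, p2⟩, p3, p4⟩ := d12
  obtain ⟨⟨q1, q2⟩, q3, q4⟩ := d13
  obtain ⟨⟨r1, r2⟩, r3, r4⟩ := d23
  rcases lt_or_gt_of_ne p1 with u | u <;> rcases lt_or_gt_of_ne q1 with v | v <;>
    rcases lt_or_gt_of_ne r1 with w | w
  · exact cnt_sorted a1 b1 a2 b2 a3 b3 l1 l2 l3 u w (Ne.symm p3) (Ne.symm p4) (Ne.symm q3)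
      (Ne.symm r3) (Ne.symm q4) (Ne.symm r4)
  · rw [← cnt_sorted a1 b1 a3 b3 a2 b2 l1 l3 l2 v w (Ne.symm q3) (Ne.symm q4) (Ne.symm p3)
      r2 (Ne.symm p4) r4]
    exact congrArg card (filter_congr fun j _ => ⟨fun ⟨a, b, c⟩ => ⟨by assumption, by assumption, by assumption⟩,
      fun ⟨a, b, c⟩ => ⟨by assumption, by assumption, by assumption⟩⟩)
  · exact absurd (u.trans w) (not_lt.2 (le_of_lt v))
  · rw [← cnt_sorted a3 b3 a1 b1 a2 b2 l3 l1 l2 v u q2 q4 r2 (Ne.symm p3) r4 (Ne.symm p4)]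
    exact congrArg card (filter_congr fun j _ => ⟨fun ⟨a, b, c⟩ => ⟨by assumption, by assumption, by assumption⟩,
      fun ⟨a, b, c⟩ => ⟨by assumption, by assumption, by assumption⟩⟩)
  · rw [← cnt_sorted a2 b2 a1 b1 a3 b3 l2 l1 l3 u v p2 p4 (Ne.symm r3) (Ne.symm q3)
      (Ne.symm r4) (Ne.symm q4)]
    exact congrArg card (filter_congr fun j _ => ⟨fun ⟨a, b, c⟩ => ⟨by assumption, by assumption, by assumption⟩,
      fun ⟨a, b, c⟩ => ⟨by assumption, by assumption, by assumption⟩⟩)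
  · exact absurd (lt_trans v w) (not_lt.2 (le_of_lt u))
  · rw [← cnt_sorted a2 b2 a3 b3 a1 b1 l2 l3 l1 w v (Ne.symm r3) (Ne.symm r4) p2 q2 p4 q4]
    exact congrArg card (filter_congr fun j _ => ⟨fun ⟨a, b, c⟩ => ⟨by assumption, by assumption, by assumption⟩,
      fun ⟨a, b, c⟩ => ⟨by assumption, by assumption, by assumption⟩⟩)
  · rw [← cnt_sorted a3 b3 a2 b2 a1 b1 l3 l2 l1 w u r2 r4 q2 p2 q4 p4]
    exact congrArg card (filter_congr fun j _ => ⟨fun ⟨a, b, c⟩ => ⟨by assumption, by assumption, by assumption⟩,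
      fun ⟨a, b, c⟩ => ⟨by assumption, by assumption, by assumption⟩⟩)

def m0 : Finset (Finset (Fin 14)) :=
  {{0, 1}, {2, 3}, {4, 5}, {6, 7}, {8, 9}, {10, 12}, {11, 13}}

lemma m0_ne (j : ℕ) : mt j ≠ m0 := by
  intro h
  have k1 : E j 0 1 := (pair_mem (by decide)).1 (h ▸ (by decide))
  have k2 : E j 2 3 := (pair_mem (by decide)).1 (h ▸ (by decide))
  have k3 : E j 4 5 := (pair_mem (by decide)).1 (h ▸ (by decide))
  have k4 : E j 6 7 := (pair_mem (by decide)).1 (h ▸ (by decide))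
  have k5 : E j 8 9 := (pair_mem (by decide)).1 (h ▸ (by decide))
  have k6 : E j 10 12 := (pair_mem (by decide)).1 (h ▸ (by decide))
  have h2 := congrArg (fun t => Nat.testBit t j) V_out
  have j1 : (V 0 1).testBit j = true := k1
  have j2 : (V 2 3).testBit j = true := k2
  have j3 : (V 4 5).testBit j = true := k3
  have j4 : (V 6 7).testBit j = true := k4
  have j5 : (V 8 9).testBit j = true := k5
  have j6 : (V 10 12).testBit j = true := k6
  simp [Nat.testBit_and, j1, j2, j3, j4, j5, j6] at h2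

lemma mem_m0 {e : Finset (Fin 14)} : e ∈ m0 ↔ e = {0, 1} ∨ e = {2, 3} ∨ e = {4, 5} ∨ e = {6, 7} ∨
    e = {8, 9} ∨ e = {10, 12} ∨ e = {11, 13} := by
  simp only [m0, mem_insert, mem_singleton]

lemma m0_card : ∀ e ∈ m0, e.card = 2 := by
  intro e he
  rcases mem_m0.1 he with rfl | rfl | rfl | rfl | rfl | rfl | rfl <;> exact card_pair (by decide)

lemma m0_uniq (v : Fin 14) : ∃! e, e ∈ m0 ∧ v ∈ e := by
  have h1 : ∃ e, e ∈ m0 ∧ v ∈ e := by
    simp only [mem_m0, or_and_right, exists_or, exists_eq_left, mem_insert, mem_singleton]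
    revert v; decide
  obtain ⟨e, he, hv⟩ := h1
  refine ⟨e, ⟨he, hv⟩, ?_⟩
  rintro f ⟨hf, hw⟩
  rcases mem_m0.1 he with rfl | rfl | rfl | rfl | rfl | rfl | rfl <;>
    rcases mem_m0.1 hf with rfl | rfl | rfl | rfl | rfl | rfl | rfl <;>
    first
    | rfl
    | (exfalso; simp only [mem_insert, mem_singleton] at hv hw; omega)

end Pool.Agent.H32.PM14
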