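import Mathlib.Data.List.Basic
import Mathlib.Data.List.Nodup
import Mathlib.Data.List.Chain
import Mathlib.Order.Nat

namespace Pool.Agent.H32.Phylo

def D : List (List Nat × List (Nat × Nat × Nat)) :=
  [([0, 0, 0, 0, 0, 0, 0], []),
   ([0, 0, 0, 0, 0, 0, 6], []),
   ([0, 0, 0, 0, 0, 5, 0], []),
   ([0, 0, 0, 0, 0, 5, 5], [(0, 1, 5), (0, 1, 6), (0, 2, 5), (0, 2, 6), (0, 3, 5), (0, 3, 6), (0, 4, 5), (0, 4, 6), (1, 0, 5), (1, 0, 6), (1, 2, 5), (1, 2, 6), (1, 3, 5), (1, 3, 6), (1, 4, 5), (1, 4, 6), (2, 0, 5), (2, 0, 6), (2, 1, 5), (2, 1, 6), (2, 3, 5), (2, 3, 6), (2, 4, 5), (2, 4, 6), (3, 0, 5), (3, 0, 6), (3, 1, 5), (3, 1, 6), (3, 2, 5), (3, 2, 6), (3, 4, 5), (3, 4, 6), (4, 0, 5), (4, 0, 6), (4, 1, 5), (4, 1, 6), (4, 2, 5), (4, 2, 6), (4, 3, 5), (4, 3,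 6), (5, 6, 0), (5, 6, 1), (5, 6, 2), (5, 6, 3), (5, 6, 4), (6, 5, 0), (6, 5, 1), (6, 5, 2), (6, 5, 3), (6, 5, 4)]),
   ([0, 0, 0, 0, 0, 5, 6], []),
   ([0, 0, 0, 0, 4, 0, 0], []),
   ([0, 0, 0, 0, 4, 0, 6], []),
   ([0, 0, 0, 0, 4, 4, 4], [(0, 1, 4), (0, 1, 5), (0, 1, 6), (0, 2, 4), (0, 2, 5), (0, 2, 6), (0, 3, 4), (0, 3, 5), (0, 3, 6), (1, 0, 4), (1, 0, 5), (1, 0, 6), (1, 2, 4), (1, 2, 5), (1, 2, 6), (1, 3, 4), (1, 3, 5), (1, 3, 6), (2, 0, 4), (2, 0, 5), (2, 0, 6), (2, 1, 4), (2, 1, 5), (2, 1, 6), (2, 3, 4), (2, 3, 5), (2, 3, 6), (3, 0, 4), (3, 0, 5), (3, 0, 6), (3, 1, 4), (3, 1, 5), (3, 1, 6), (3, 2, 4), (3, 2, 5), (3, 2, 6), (4, 5, 0), (4, 5, 1), (4, 5, 2), (4, 5, 3), (4, 6, 0), (4, 6, 1), (4, 6, 2), (4, 6, 3), (5, 4, 0), (5, 4, 1), (5, 4, 2), (5, 4,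 3), (5, 6, 0), (5, 6, 1), (5, 6, 2), (5, 6, 3), (6, 4, 0), (6, 4, 1), (6, 4, 2), (6, 4, 3), (6, 5, 0), (6, 5, 1), (6, 5, 2), (6, 5, 3)]),
   ([0, 0, 0, 0, 4, 4, 6], [(0, 1, 4), (0, 1, 5), (0, 2, 4), (0, 2, 5), (0, 3, 4), (0, 3, 5), (1, 0, 4), (1, 0, 5), (1, 2, 4), (1, 2, 5), (1, 3, 4), (1, 3, 5), (2, 0, 4), (2, 0, 5), (2, 1, 4), (2, 1, 5), (2, 3, 4), (2, 3, 5), (3, 0, 4), (3, 0, 5), (3, 1, 4), (3, 1, 5), (3, 2, 4), (3, 2, 5), (4, 5, 0), (4, 5, 1), (4, 5, 2), (4, 5, 3), (5, 4, 0), (5, 4, 1), (5, 4, 2), (5, 4, 3)]),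
   ([0, 0, 0, 0, 4, 5, 0], []),
   ([0, 0, 0, 0, 4, 5, 4], [(0, 1, 4), (0, 1, 6), (0, 2, 4), (0, 2, 6), (0, 3, 4), (0, 3, 6), (1, 0, 4), (1, 0, 6), (1, 2, 4), (1, 2, 6), (1, 3, 4), (1, 3, 6), (2, 0, 4), (2, 0, 6), (2, 1, 4), (2, 1, 6), (2, 3, 4), (2, 3, 6), (3, 0, 4), (3, 0, 6), (3, 1, 4), (3, 1, 6), (3, 2, 4), (3, 2, 6), (4, 6, 0), (4, 6, 1), (4, 6, 2), (4, 6, 3), (6, 4, 0), (6, 4, 1), (6, 4, 2), (6, 4, 3)]),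
   ([0, 0, 0, 0, 4, 5, 5], [(0, 1, 5), (0, 1, 6), (0, 2, 5), (0, 2, 6), (0, 3, 5), (0, 3, 6), (1, 0, 5), (1, 0, 6), (1, 2, 5), (1, 2, 6), (1, 3, 5), (1, 3, 6), (2, 0, 5), (2, 0, 6), (2, 1, 5), (2, 1, 6), (2, 3, 5), (2, 3, 6), (3, 0, 5), (3, 0, 6), (3, 1, 5), (3, 1, 6), (3, 2, 5), (3, 2, 6), (5, 6, 0), (5, 6, 1), (5, 6, 2), (5, 6, 3), (6, 5, 0), (6, 5, 1), (6, 5, 2), (6, 5, 3)]),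
   ([0, 0, 0, 0, 4, 5, 6], []),
   ([0, 0, 0, 3, 0, 0, 0], []),
   ([0, 0, 0, 3, 0, 0, 6], []),
   ([0, 0, 0, 3, 0, 5, 0], []),
   ([0, 0, 0, 3, 0, 5, 5], [(0, 1, 5), (0, 1, 6), (0, 2, 5), (0, 2, 6), (0, 4, 5), (0, 4, 6), (1, 0, 5), (1, 0, 6), (1, 2, 5), (1, 2, 6), (1, 4, 5), (1, 4, 6), (2, 0, 5), (2, 0, 6), (2, 1, 5), (2, 1, 6), (2, 4, 5), (2, 4, 6), (4, 0, 5), (4, 0, 6), (4, 1, 5), (4, 1, 6), (4, 2, 5), (4, 2, 6), (5, 6, 0), (5, 6, 1), (5, 6, 2), (5, 6, 4), (6, 5, 0), (6, 5, 1), (6, 5, 2), (6, 5, 4)]),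
   ([0, 0, 0, 3, 0, 5, 6], []),
   ([0, 0, 0, 3, 3, 3, 3], [(0, 1, 3), (0, 1, 4), (0, 1, 5), (0, 1, 6), (0, 2, 3), (0, 2, 4), (0, 2, 5), (0, 2, 6), (1, 0, 3), (1, 0, 4), (1, 0, 5), (1, 0, 6), (1, 2, 3), (1, 2, 4), (1, 2, 5), (1, 2, 6), (2, 0, 3), (2, 0, 4), (2, 0, 5), (2, 0, 6), (2, 1, 3), (2, 1, 4), (2, 1, 5), (2, 1, 6), (3, 4, 0), (3, 4, 1), (3, 4, 2), (3, 5, 0), (3, 5, 1), (3, 5, 2), (3, 6, 0), (3, 6, 1), (3, 6, 2), (4, 3, 0), (4, 3, 1), (4, 3, 2), (4, 5, 0), (4, 5, 1), (4, 5, 2), (4, 6, 0), (4, 6, 1), (4, 6, 2), (5, 3, 0), (5, 3, 1), (5, 3, 2), (5, 4, 0), (5, 4, 1), (5, 4, 2), (5, 6, 0), (5, 6, 1), (5, 6, 2), (6, 3, 0), (6, 3, 1), (6, 3, 2), (6, 4, 0), (6, 4, 1), (6, 4, 2), (6, 5, 0), (6, 5, 1), (6, 5, 2)]),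
   ([0, 0, 0, 3, 3, 3, 6], [(0, 1, 3), (0, 1, 4), (0, 1, 5), (0, 2, 3), (0, 2, 4), (0, 2, 5), (1, 0, 3), (1, 0, 4), (1, 0, 5), (1, 2, 3), (1, 2, 4), (1, 2, 5), (2, 0, 3), (2, 0, 4), (2, 0, 5), (2, 1, 3), (2, 1, 4), (2, 1, 5), (3, 4, 0), (3, 4, 1), (3, 4, 2), (3, 5, 0), (3, 5, 1), (3, 5, 2), (4, 3, 0), (4, 3, 1), (4, 3, 2), (4, 5, 0), (4, 5, 1), (4, 5, 2), (5, 3, 0), (5, 3, 1), (5, 3, 2), (5, 4, 0), (5, 4, 1), (5, 4, 2)]),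
   ([0, 0, 0, 3, 3, 5, 3], [(0, 1, 3), (0, 1, 4), (0, 1, 6), (0, 2, 3), (0, 2, 4), (0, 2, 6), (1, 0, 3), (1, 0, 4), (1, 0, 6), (1, 2, 3), (1, 2, 4), (1, 2, 6), (2, 0, 3), (2, 0, 4), (2, 0, 6), (2, 1, 3), (2, 1, 4), (2, 1, 6), (3, 4, 0), (3, 4, 1), (3, 4, 2), (3, 6, 0), (3, 6, 1), (3, 6, 2), (4, 3, 0), (4, 3, 1), (4, 3, 2), (4, 6, 0), (4, 6, 1), (4, 6, 2), (6, 3, 0), (6, 3, 1), (6, 3, 2), (6, 4, 0), (6, 4, 1), (6, 4, 2)]),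
   ([0, 0, 0, 3, 3, 5, 5], [(0, 1, 3), (0, 1, 4), (0, 1, 5), (0, 1, 6), (0, 2, 3), (0, 2, 4), (0, 2, 5), (0, 2, 6), (1, 0, 3), (1, 0, 4), (1, 0, 5), (1, 0, 6), (1, 2, 3), (1, 2, 4), (1, 2, 5), (1, 2, 6), (2, 0, 3), (2, 0, 4), (2, 0, 5), (2, 0, 6), (2, 1, 3), (2, 1, 4), (2, 1, 5), (2, 1, 6), (3, 4, 0), (3, 4, 1), (3, 4, 2), (3, 4, 5), (3, 4, 6), (4, 3, 0), (4, 3, 1), (4, 3, 2), (4, 3, 5), (4, 3, 6), (5, 6, 0), (5, 6, 1), (5, 6, 2), (5, 6, 3), (5, 6, 4), (6, 5, 0), (6, 5, 1), (6, 5, 2), (6, 5, 3), (6, 5, 4)]),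
   ([0, 0, 0, 3, 3, 5, 6], [(0, 1, 3), (0, 1, 4), (0, 2, 3), (0, 2, 4), (1, 0, 3), (1, 0, 4), (1, 2, 3), (1, 2, 4), (2, 0, 3), (2, 0, 4), (2, 1, 3), (2, 1, 4), (3, 4, 0), (3, 4, 1), (3, 4, 2), (4, 3, 0), (4, 3, 1), (4, 3, 2)]),
   ([0, 0, 0, 3, 4, 0, 0], []),
   ([0, 0, 0, 3, 4, 0, 6], []),
   ([0, 0, 0, 3, 4, 3, 3], [(0, 1, 3), (0, 1, 5), (0, 1, 6), (0, 2, 3), (0, 2, 5), (0, 2, 6), (1, 0, 3), (1, 0, 5), (1, 0, 6), (1, 2, 3), (1, 2, 5), (1, 2, 6), (2, 0, 3), (2, 0, 5), (2, 0, 6), (2, 1, 3), (2, 1, 5), (2, 1, 6), (3, 5, 0), (3, 5, 1), (3, 5, 2), (3, 6, 0), (3, 6, 1), (3, 6, 2), (5, 3, 0), (5, 3, 1), (5, 3, 2), (5, 6, 0), (5, 6, 1), (5, 6, 2), (6, 3, 0), (6, 3, 1), (6, 3, 2), (6, 5, 0), (6, 5, 1), (6, 5, 2)]),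
   ([0, 0, 0, 3, 4, 3, 6], [(0, 1, 3), (0, 1, 5), (0, 2, 3), (0, 2, 5), (1, 0, 3), (1, 0, 5), (1, 2, 3), (1, 2, 5), (2, 0, 3), (2, 0, 5), (2, 1, 3), (2, 1, 5), (3, 5, 0), (3, 5, 1), (3, 5, 2), (5, 3, 0), (5, 3, 1), (5, 3, 2)]),
   ([0, 0, 0, 3, 4, 4, 4], [(0, 1, 4), (0, 1, 5), (0, 1, 6), (0, 2, 4), (0, 2, 5), (0, 2, 6), (1, 0, 4), (1, 0, 5), (1, 0, 6), (1, 2, 4), (1, 2, 5), (1, 2, 6), (2, 0, 4), (2, 0, 5), (2, 0, 6), (2, 1, 4), (2, 1, 5), (2, 1, 6), (4, 5, 0), (4, 5, 1), (4, 5, 2), (4, 6, 0), (4, 6, 1), (4, 6, 2), (5, 4, 0), (5, 4, 1), (5, 4, 2), (5, 6, 0), (5, 6, 1), (5, 6, 2), (6, 4, 0), (6, 4, 1), (6, 4, 2), (6, 5, 0), (6, 5, 1), (6, 5, 2)]),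
   ([0, 0, 0, 3, 4, 4, 6], [(0, 1, 4), (0, 1, 5), (0, 2, 4), (0, 2, 5), (1, 0, 4), (1, 0, 5), (1, 2, 4), (1, 2, 5), (2, 0, 4), (2, 0, 5), (2, 1, 4), (2, 1, 5), (4, 5, 0), (4, 5, 1), (4, 5, 2), (5, 4, 0), (5, 4, 1), (5, 4, 2)]),
   ([0, 0, 0, 3, 4, 5, 0], []),
   ([0, 0, 0, 3, 4, 5, 3], [(0, 1, 3), (0, 1, 6), (0, 2, 3), (0, 2, 6), (1, 0, 3), (1, 0, 6), (1, 2, 3), (1, 2, 6), (2, 0, 3), (2, 0, 6), (2, 1, 3), (2, 1, 6), (3, 6, 0), (3, 6, 1), (3, 6, 2), (6, 3, 0), (6, 3, 1), (6, 3, 2)]),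
   ([0, 0, 0, 3, 4, 5, 4], [(0, 1, 4), (0, 1, 6), (0, 2, 4), (0, 2, 6), (1, 0, 4), (1, 0, 6), (1, 2, 4), (1, 2, 6), (2, 0, 4), (2, 0, 6), (2, 1, 4), (2, 1, 6), (4, 6, 0), (4, 6, 1), (4, 6, 2), (6, 4, 0), (6, 4, 1), (6, 4, 2)]),
   ([0, 0, 0, 3, 4, 5, 5], [(0, 1, 5), (0, 1, 6), (0, 2, 5), (0, 2, 6), (1, 0, 5), (1, 0, 6), (1, 2, 5), (1, 2, 6), (2, 0, 5), (2, 0, 6), (2, 1, 5), (2, 1, 6), (5, 6, 0), (5, 6, 1), (5, 6, 2), (6, 5, 0), (6, 5, 1), (6, 5, 2)]),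
   ([0, 0, 0, 3, 4, 5, 6], []),
   ([0, 0, 2, 0, 0, 0, 0], []),
   ([0, 0, 2, 0, 0, 0, 6], []),
   ([0, 0, 2, 0, 0, 5, 0], []),
   ([0, 0, 2, 0, 0, 5, 5], [(0, 1, 5), (0, 1, 6), (0, 3, 5), (0, 3, 6), (0, 4, 5), (0, 4, 6), (1, 0, 5), (1, 0, 6), (1, 3, 5), (1, 3, 6), (1, 4, 5), (1, 4, 6), (3, 0, 5), (3, 0, 6), (3, 1, 5), (3, 1, 6), (3, 4, 5), (3, 4, 6), (4, 0, 5), (4, 0, 6), (4, 1, 5), (4, 1, 6), (4, 3, 5), (4, 3, 6), (5, 6, 0), (5, 6, 1), (5, 6, 3), (5, 6, 4), (6, 5, 0), (6, 5, 1), (6, 5, 3), (6, 5, 4)]),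
   ([0, 0, 2, 0, 0, 5, 6], []),
   ([0, 0, 2, 0, 4, 0, 0], []),
   ([0, 0, 2, 0, 4, 0, 6], []),
   ([0, 0, 2, 0, 4, 4, 4], [(0, 1, 4), (0, 1, 5), (0, 1, 6), (0, 3, 4), (0, 3, 5), (0, 3, 6), (1, 0, 4), (1, 0, 5), (1, 0, 6), (1, 3, 4), (1, 3, 5), (1, 3, 6), (3, 0, 4), (3, 0, 5), (3, 0, 6), (3, 1, 4), (3, 1, 5), (3, 1, 6), (4, 5, 0), (4, 5, 1), (4, 5, 3), (4, 6, 0), (4, 6, 1), (4, 6, 3), (5, 4, 0), (5, 4, 1), (5, 4, 3), (5, 6, 0), (5, 6, 1), (5, 6, 3), (6, 4, 0), (6, 4, 1), (6, 4, 3), (6, 5, 0), (6, 5, 1), (6, 5, 3)]),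
   ([0, 0, 2, 0, 4, 4, 6], [(0, 1, 4), (0, 1, 5), (0, 3, 4), (0, 3, 5), (1, 0, 4), (1, 0, 5), (1, 3, 4), (1, 3, 5), (3, 0, 4), (3, 0, 5), (3, 1, 4), (3, 1, 5), (4, 5, 0), (4, 5, 1), (4, 5, 3), (5, 4, 0), (5, 4, 1), (5, 4, 3)]),
   ([0, 0, 2, 0, 4, 5, 0], []),
   ([0, 0, 2, 0, 4, 5, 4], [(0, 1, 4), (0, 1, 6), (0, 3, 4), (0, 3, 6), (1, 0, 4), (1, 0, 6), (1, 3, 4), (1, 3, 6), (3, 0, 4), (3, 0, 6), (3, 1, 4), (3, 1, 6), (4, 6, 0), (4, 6, 1), (4, 6, 3), (6, 4, 0), (6, 4, 1), (6, 4, 3)]),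
   ([0, 0, 2, 0, 4, 5, 5], [(0, 1, 5), (0, 1, 6), (0, 3, 5), (0, 3, 6), (1, 0, 5), (1, 0, 6), (1, 3, 5), (1, 3, 6), (3, 0, 5), (3, 0, 6), (3, 1, 5), (3, 1, 6), (5, 6, 0), (5, 6, 1), (5, 6, 3), (6, 5, 0), (6, 5, 1), (6, 5, 3)]),
   ([0, 0, 2, 0, 4, 5, 6], []),
   ([0, 0, 2, 2, 2, 2, 2], [(0, 1, 2), (0, 1, 3), (0, 1, 4), (0, 1, 5), (0, 1, 6), (1, 0, 2), (1, 0, 3), (1, 0, 4), (1, 0, 5), (1, 0, 6), (2, 3, 0), (2, 3, 1), (2, 4, 0), (2, 4, 1), (2, 5, 0), (2, 5, 1), (2, 6, 0), (2, 6, 1), (3, 2, 0), (3, 2, 1), (3, 4, 0), (3, 4, 1), (3, 5, 0), (3, 5, 1), (3, 6, 0), (3, 6, 1), (4, 2, 0), (4, 2, 1), (4, 3, 0), (4, 3, 1), (4, 5, 0), (4, 5, 1), (4, 6, 0), (4, 6, 1), (5, 2, 0), (5, 2, 1), (5, 3, 0), (5, 3, 1), (5, 4, 0), (5, 4, 1), (5, 6, 0), (5, 6, 1), (6, 2, 0), (6,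 2, 1), (6, 3, 0), (6, 3, 1), (6, 4, 0), (6, 4, 1), (6, 5, 0), (6, 5, 1)]),
   ([0, 0, 2, 2, 2, 2, 6], [(0, 1, 2), (0, 1, 3), (0, 1, 4), (0, 1, 5), (1, 0, 2), (1, 0, 3), (1, 0, 4), (1, 0, 5), (2, 3, 0), (2, 3, 1), (2, 4, 0), (2, 4, 1), (2, 5, 0), (2, 5, 1), (3, 2, 0), (3, 2, 1), (3, 4, 0), (3, 4, 1), (3, 5, 0), (3, 5, 1), (4, 2, 0), (4, 2, 1), (4, 3, 0), (4, 3, 1), (4, 5, 0), (4, 5, 1), (5, 2, 0), (5, 2, 1), (5, 3, 0), (5, 3, 1), (5, 4, 0), (5, 4, 1)]),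
   ([0, 0, 2, 2, 2, 5, 2], [(0, 1, 2), (0, 1, 3), (0, 1, 4), (0, 1, 6), (1, 0, 2), (1, 0, 3), (1, 0, 4), (1, 0, 6), (2, 3, 0), (2, 3, 1), (2, 4, 0), (2, 4, 1), (2, 6, 0), (2, 6, 1), (3, 2, 0), (3, 2, 1), (3, 4, 0), (3, 4, 1), (3, 6, 0), (3, 6, 1), (4, 2, 0), (4, 2, 1), (4, 3, 0), (4, 3, 1), (4, 6, 0), (4, 6, 1), (6, 2, 0), (6, 2, 1), (6, 3, 0), (6, 3, 1), (6, 4, 0), (6, 4, 1)]),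
   ([0, 0, 2, 2, 2, 5, 5], [(0, 1, 2), (0, 1, 3), (0, 1, 4), (0, 1, 5), (0, 1, 6), (1, 0, 2), (1, 0, 3), (1, 0, 4), (1, 0, 5), (1, 0, 6), (2, 3, 0), (2, 3, 1), (2, 3, 5), (2, 3, 6), (2, 4, 0), (2, 4, 1), (2, 4, 5), (2, 4, 6), (3, 2, 0), (3, 2, 1), (3, 2, 5), (3, 2, 6), (3, 4, 0), (3, 4, 1), (3, 4, 5), (3, 4, 6), (4, 2, 0), (4, 2, 1), (4, 2, 5), (4, 2, 6), (4, 3, 0), (4, 3, 1), (4, 3, 5), (4, 3, 6), (5, 6, 0), (5, 6, 1), (5, 6, 2), (5, 6, 3), (5, 6, 4), (6, 5, 0), (6, 5, 1), (6, 5, 2), (6, 5, 3), (6, 5, 4)]),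
   ([0, 0, 2, 2, 2, 5, 6], [(0, 1, 2), (0, 1, 3), (0, 1, 4), (1, 0, 2), (1, 0, 3), (1, 0, 4), (2, 3, 0), (2, 3, 1), (2, 4, 0), (2, 4, 1), (3, 2, 0), (3, 2, 1), (3, 4, 0), (3, 4, 1), (4, 2, 0), (4, 2, 1), (4, 3, 0), (4, 3, 1)]),
   ([0, 0, 2, 2, 4, 2, 2], [(0, 1, 2), (0, 1, 3), (0, 1, 5), (0, 1, 6), (1, 0, 2), (1, 0, 3), (1, 0, 5), (1, 0, 6), (2, 3, 0), (2, 3, 1), (2, 5, 0), (2, 5, 1), (2, 6, 0), (2, 6, 1), (3, 2, 0), (3, 2, 1), (3, 5, 0), (3, 5, 1), (3, 6, 0), (3, 6, 1), (5, 2, 0), (5, 2, 1), (5, 3, 0), (5, 3, 1), (5, 6, 0), (5, 6, 1), (6, 2, 0), (6, 2, 1), (6, 3, 0), (6, 3, 1), (6, 5, 0), (6, 5, 1)]),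
   ([0, 0, 2, 2, 4, 2, 6], [(0, 1, 2), (0, 1, 3), (0, 1, 5), (1, 0, 2), (1, 0, 3), (1, 0, 5), (2, 3, 0), (2, 3, 1), (2, 5, 0), (2, 5, 1), (3, 2, 0), (3, 2, 1), (3, 5, 0), (3, 5, 1), (5, 2, 0), (5, 2, 1), (5, 3, 0), (5, 3, 1)]),
   ([0, 0, 2, 2, 4, 4, 4], [(0, 1, 2), (0, 1, 3), (0, 1, 4), (0, 1, 5), (0, 1, 6), (1, 0, 2), (1, 0, 3), (1, 0, 4), (1, 0, 5), (1, 0, 6), (2, 3, 0), (2, 3, 1), (2, 3, 4), (2, 3, 5), (2, 3, 6), (3, 2, 0), (3, 2, 1), (3, 2, 4), (3, 2, 5), (3, 2, 6), (4, 5, 0), (4, 5, 1), (4, 5, 2), (4, 5, 3), (4, 6, 0), (4, 6, 1), (4, 6, 2), (4, 6, 3), (5, 4, 0), (5, 4, 1), (5, 4, 2), (5, 4, 3), (5, 6, 0), (5, 6, 1), (5, 6, 2), (5, 6, 3), (6, 4, 0), (6, 4, 1), (6, 4, 2), (6, 4, 3), (6, 5, 0), (6, 5, 1), (6, 5, 2), (6, 5, 3)]),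
   ([0, 0, 2, 2, 4, 4, 6], [(0, 1, 2), (0, 1, 3), (0, 1, 4), (0, 1, 5), (1, 0, 2), (1, 0, 3), (1, 0, 4), (1, 0, 5), (2, 3, 0), (2, 3, 1), (2, 3, 4), (2, 3, 5), (3, 2, 0), (3, 2, 1), (3, 2, 4), (3, 2, 5), (4, 5, 0), (4, 5, 1), (4, 5, 2), (4, 5, 3), (5, 4, 0), (5, 4, 1), (5, 4, 2), (5, 4, 3)]),
   ([0, 0, 2, 2, 4, 5, 2], [(0, 1, 2), (0, 1, 3), (0, 1, 6), (1, 0, 2), (1, 0, 3), (1, 0, 6), (2, 3, 0), (2, 3, 1), (2, 6, 0), (2, 6, 1), (3, 2, 0), (3, 2, 1), (3, 6, 0), (3, 6, 1), (6, 2, 0), (6, 2, 1), (6, 3, 0), (6, 3, 1)]),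
   ([0, 0, 2, 2, 4, 5, 4], [(0, 1, 2), (0, 1, 3), (0, 1, 4), (0, 1, 6), (1, 0, 2), (1, 0, 3), (1, 0, 4), (1, 0, 6), (2, 3, 0), (2, 3, 1), (2, 3, 4), (2, 3, 6), (3, 2, 0), (3, 2, 1), (3, 2, 4), (3, 2, 6), (4, 6, 0), (4, 6, 1), (4, 6, 2), (4, 6, 3), (6, 4, 0), (6, 4, 1), (6, 4, 2), (6, 4, 3)]),
   ([0, 0, 2, 2, 4, 5, 5], [(0, 1, 2), (0, 1, 3), (0, 1, 5), (0, 1, 6), (1, 0, 2), (1, 0, 3), (1, 0, 5), (1, 0, 6), (2, 3, 0), (2, 3, 1), (2, 3, 5), (2, 3, 6), (3, 2, 0), (3, 2, 1), (3, 2, 5), (3, 2, 6), (5, 6, 0), (5, 6, 1), (5, 6, 2), (5, 6, 3), (6, 5, 0), (6, 5, 1), (6, 5, 2), (6, 5, 3)]),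
   ([0, 0, 2, 2, 4, 5, 6], [(0, 1, 2), (0, 1, 3), (1, 0, 2), (1, 0, 3), (2, 3, 0), (2, 3, 1), (3, 2, 0), (3, 2, 1)]),
   ([0, 0, 2, 3, 0, 0, 0], []),
   ([0, 0, 2, 3, 0, 0, 6], []),
   ([0, 0, 2, 3, 0, 5, 0], []),
   ([0, 0, 2, 3, 0, 5, 5], [(0, 1, 5), (0, 1, 6), (0, 4, 5), (0, 4, 6), (1, 0, 5), (1, 0, 6), (1, 4, 5), (1, 4, 6), (4, 0, 5), (4, 0, 6), (4, 1, 5), (4, 1, 6), (5, 6, 0), (5, 6, 1), (5, 6, 4), (6, 5, 0), (6, 5, 1), (6, 5, 4)]),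
   ([0, 0, 2, 3, 0, 5, 6], []),
   ([0, 0, 2, 3, 2, 2, 2], [(0, 1, 2), (0, 1, 4), (0, 1, 5), (0, 1, 6), (1, 0, 2), (1, 0, 4), (1, 0, 5), (1, 0, 6), (2, 4, 0), (2, 4, 1), (2, 5, 0), (2, 5, 1), (2, 6, 0), (2, 6, 1), (4, 2, 0), (4, 2, 1), (4, 5, 0), (4, 5, 1), (4, 6, 0), (4, 6, 1), (5, 2, 0), (5, 2, 1), (5, 4, 0), (5, 4, 1), (5, 6, 0), (5, 6, 1), (6, 2, 0), (6, 2, 1), (6, 4, 0), (6, 4, 1), (6, 5, 0), (6, 5, 1)]),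
   ([0, 0, 2, 3, 2, 2, 6], [(0, 1, 2), (0, 1, 4), (0, 1, 5), (1, 0, 2), (1, 0, 4), (1, 0, 5), (2, 4, 0), (2, 4, 1), (2, 5, 0), (2, 5, 1), (4, 2, 0), (4, 2, 1), (4, 5, 0), (4, 5, 1), (5, 2, 0), (5, 2, 1), (5, 4, 0), (5, 4, 1)]),
   ([0, 0, 2, 3, 2, 5, 2], [(0, 1, 2), (0, 1, 4), (0, 1, 6), (1, 0, 2), (1, 0, 4), (1, 0, 6), (2, 4, 0), (2, 4, 1), (2, 6, 0), (2, 6, 1), (4, 2, 0), (4, 2, 1), (4, 6, 0), (4, 6, 1), (6, 2, 0), (6, 2, 1), (6, 4, 0), (6, 4, 1)]),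
   ([0, 0, 2, 3, 2, 5, 5], [(0, 1, 2), (0, 1, 4), (0, 1, 5), (0, 1, 6), (1, 0, 2), (1, 0, 4), (1, 0, 5), (1, 0, 6), (2, 4, 0), (2, 4, 1), (2, 4, 5), (2, 4, 6), (4, 2, 0), (4, 2, 1), (4, 2, 5), (4, 2, 6), (5, 6, 0), (5, 6, 1), (5, 6, 2), (5, 6, 4), (6, 5, 0), (6, 5, 1), (6, 5, 2), (6, 5, 4)]),
   ([0, 0, 2, 3, 2, 5, 6], [(0, 1, 2), (0, 1, 4), (1, 0, 2), (1, 0, 4), (2, 4, 0), (2, 4, 1), (4, 2, 0), (4, 2, 1)]),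
   ([0, 0, 2, 3, 3, 3, 3], [(0, 1, 3), (0, 1, 4), (0, 1, 5), (0, 1, 6), (1, 0, 3), (1, 0, 4), (1, 0, 5), (1, 0, 6), (3, 4, 0), (3, 4, 1), (3, 5, 0), (3, 5, 1), (3, 6, 0), (3, 6, 1), (4, 3, 0), (4, 3, 1), (4, 5, 0), (4, 5, 1), (4, 6, 0), (4, 6, 1), (5, 3, 0), (5, 3, 1), (5, 4, 0), (5, 4, 1), (5, 6, 0), (5, 6, 1), (6, 3, 0), (6, 3, 1), (6, 4, 0), (6, 4, 1), (6, 5, 0), (6, 5, 1)]),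
   ([0, 0, 2, 3, 3, 3, 6], [(0, 1, 3), (0, 1, 4), (0, 1, 5), (1, 0, 3), (1, 0, 4), (1, 0, 5), (3, 4, 0), (3, 4, 1), (3, 5, 0), (3, 5, 1), (4, 3, 0), (4, 3, 1), (4, 5, 0), (4, 5, 1), (5, 3, 0), (5, 3, 1), (5, 4, 0), (5, 4, 1)]),
   ([0, 0, 2, 3, 3, 5, 3], [(0, 1, 3), (0, 1, 4), (0, 1, 6), (1, 0, 3), (1, 0, 4), (1, 0, 6), (3, 4, 0), (3, 4, 1), (3, 6, 0), (3, 6, 1), (4, 3, 0), (4, 3, 1), (4, 6, 0), (4, 6, 1), (6, 3, 0), (6, 3, 1), (6, 4, 0), (6, 4, 1)]),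
   ([0, 0, 2, 3, 3, 5, 5], [(0, 1, 3), (0, 1, 4), (0, 1, 5), (0, 1, 6), (1, 0, 3), (1, 0, 4), (1, 0, 5), (1, 0, 6), (3, 4, 0), (3, 4, 1), (3, 4, 5), (3, 4, 6), (4, 3, 0), (4, 3, 1), (4, 3, 5), (4, 3, 6), (5, 6, 0), (5, 6, 1), (5, 6, 3), (5, 6, 4), (6, 5, 0), (6, 5, 1), (6, 5, 3), (6, 5, 4)]),
   ([0, 0, 2, 3, 3, 5, 6], [(0, 1, 3), (0, 1, 4), (1, 0, 3), (1, 0, 4), (3, 4, 0), (3, 4, 1), (4, 3, 0), (4, 3, 1)]),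
   ([0, 0, 2, 3, 4, 0, 0], []),
   ([0, 0, 2, 3, 4, 0, 6], []),
   ([0, 0, 2, 3, 4, 2, 2], [(0, 1, 2), (0, 1, 5), (0, 1, 6), (1, 0, 2), (1, 0, 5), (1, 0, 6), (2, 5, 0), (2, 5, 1), (2, 6, 0), (2, 6, 1), (5, 2, 0), (5, 2, 1), (5, 6, 0), (5, 6, 1), (6, 2, 0), (6, 2, 1), (6, 5, 0), (6, 5, 1)]),
   ([0, 0, 2, 3, 4, 2, 6], [(0, 1, 2), (0, 1, 5), (1, 0, 2), (1, 0, 5), (2, 5, 0), (2, 5, 1), (5, 2, 0), (5, 2, 1)]),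
   ([0, 0, 2, 3, 4, 3, 3], [(0, 1, 3), (0, 1, 5), (0, 1, 6), (1, 0, 3), (1, 0, 5), (1, 0, 6), (3, 5, 0), (3, 5, 1), (3, 6, 0), (3, 6, 1), (5, 3, 0), (5, 3, 1), (5, 6, 0), (5, 6, 1), (6, 3, 0), (6, 3, 1), (6, 5, 0), (6, 5, 1)]),
   ([0, 0, 2, 3, 4, 3, 6], [(0, 1, 3), (0, 1, 5), (1, 0, 3), (1, 0, 5), (3, 5, 0), (3, 5, 1), (5, 3, 0), (5, 3, 1)]),
   ([0, 0, 2, 3, 4, 4, 4], [(0, 1, 4), (0, 1, 5), (0, 1, 6), (1, 0, 4), (1, 0, 5), (1, 0, 6), (4, 5, 0), (4, 5, 1), (4, 6, 0), (4, 6, 1), (5, 4, 0), (5, 4, 1), (5, 6, 0), (5, 6, 1), (6, 4, 0), (6, 4, 1), (6, 5, 0), (6, 5, 1)]),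
   ([0, 0, 2, 3, 4, 4, 6], [(0, 1, 4), (0, 1, 5), (1, 0, 4), (1, 0, 5), (4, 5, 0), (4, 5, 1), (5, 4, 0), (5, 4, 1)]),
   ([0, 0, 2, 3, 4, 5, 0], []),
   ([0, 0, 2, 3, 4, 5, 2], [(0, 1, 2), (0, 1, 6), (1, 0, 2), (1, 0, 6), (2, 6, 0), (2, 6, 1), (6, 2, 0), (6, 2, 1)]),
   ([0, 0, 2, 3, 4, 5, 3], [(0, 1, 3), (0, 1, 6), (1, 0, 3), (1, 0, 6), (3, 6, 0), (3, 6, 1), (6, 3, 0), (6, 3, 1)]),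
   ([0, 0, 2, 3, 4, 5, 4], [(0, 1, 4), (0, 1, 6), (1, 0, 4), (1, 0, 6), (4, 6, 0), (4, 6, 1), (6, 4, 0), (6, 4, 1)]),
   ([0, 0, 2, 3, 4, 5, 5], [(0, 1, 5), (0, 1, 6), (1, 0, 5), (1, 0, 6), (5, 6, 0), (5, 6, 1), (6, 5, 0), (6, 5, 1)]),
   ([0, 0, 2, 3, 4, 5, 6], []),
   ([0, 1, 0, 0, 0, 0, 0], []),
   ([0, 1, 0, 0, 0, 0, 6], []),
   ([0, 1, 0, 0, 0, 5, 0], []),
   ([0, 1, 0, 0, 0, 5, 5], [(0, 2, 5), (0, 2, 6), (0, 3, 5), (0, 3, 6), (0, 4, 5), (0, 4, 6), (2, 0, 5), (2, 0, 6), (2, 3, 5), (2, 3, 6), (2, 4, 5), (2, 4, 6), (3, 0, 5), (3, 0, 6), (3, 2, 5), (3, 2, 6), (3, 4, 5), (3, 4, 6), (4, 0, 5), (4, 0, 6), (4, 2, 5), (4, 2, 6), (4, 3, 5), (4, 3, 6), (5, 6, 0), (5, 6, 2), (5, 6, 3), (5, 6, 4), (6, 5, 0), (6, 5, 2), (6, 5, 3), (6, 5, 4)]),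
   ([0, 1, 0, 0, 0, 5, 6], []),
   ([0, 1, 0, 0, 4, 0, 0], []),
   ([0, 1, 0, 0, 4, 0, 6], []),
   ([0, 1, 0, 0, 4, 4, 4], [(0, 2, 4), (0, 2, 5), (0, 2, 6), (0, 3, 4), (0, 3, 5), (0, 3, 6), (2, 0, 4), (2, 0, 5), (2, 0, 6), (2, 3, 4), (2, 3, 5), (2, 3, 6), (3, 0, 4), (3, 0, 5), (3, 0, 6), (3, 2, 4), (3, 2, 5), (3, 2, 6), (4, 5, 0), (4, 5, 2), (4, 5, 3), (4, 6, 0), (4, 6, 2), (4, 6, 3), (5, 4, 0), (5, 4, 2), (5, 4, 3), (5, 6, 0), (5, 6, 2), (5, 6, 3), (6, 4, 0), (6, 4, 2), (6, 4, 3), (6, 5, 0), (6, 5, 2), (6, 5, 3)]),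
   ([0, 1, 0, 0, 4, 4, 6], [(0, 2, 4), (0, 2, 5), (0, 3, 4), (0, 3, 5), (2, 0, 4), (2, 0, 5), (2, 3, 4), (2, 3, 5), (3, 0, 4), (3, 0, 5), (3, 2, 4), (3, 2, 5), (4, 5, 0), (4, 5, 2), (4, 5, 3), (5, 4, 0), (5, 4, 2), (5, 4, 3)]),
   ([0, 1, 0, 0, 4, 5, 0], []),
   ([0, 1, 0, 0, 4, 5, 4], [(0, 2, 4), (0, 2, 6), (0, 3, 4), (0, 3, 6), (2, 0, 4), (2, 0, 6), (2, 3, 4), (2, 3, 6), (3, 0, 4), (3, 0, 6), (3, 2, 4), (3, 2, 6), (4, 6, 0), (4, 6, 2), (4, 6, 3), (6, 4, 0), (6, 4, 2), (6, 4, 3)]),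
   ([0, 1, 0, 0, 4, 5, 5], [(0, 2, 5), (0, 2, 6), (0, 3, 5), (0, 3, 6), (2, 0, 5), (2, 0, 6), (2, 3, 5), (2, 3, 6), (3, 0, 5), (3, 0, 6), (3, 2, 5), (3, 2, 6), (5, 6, 0), (5, 6, 2), (5, 6, 3), (6, 5, 0), (6, 5, 2), (6, 5, 3)]),
   ([0, 1, 0, 0, 4, 5, 6], []),
   ([0, 1, 0, 3, 0, 0, 0], []),
   ([0, 1, 0, 3, 0, 0, 6], []),
   ([0, 1, 0, 3, 0, 5, 0], []),
   ([0, 1, 0, 3, 0, 5, 5], [(0, 2, 5), (0, 2, 6), (0, 4, 5), (0, 4, 6), (2, 0, 5), (2, 0, 6), (2, 4, 5), (2, 4, 6), (4, 0, 5), (4, 0, 6), (4, 2, 5), (4, 2, 6), (5, 6, 0), (5, 6, 2), (5, 6, 4), (6, 5, 0), (6, 5, 2), (6, 5, 4)]),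
   ([0, 1, 0, 3, 0, 5, 6], []),
   ([0, 1, 0, 3, 3, 3, 3], [(0, 2, 3), (0, 2, 4), (0, 2, 5), (0, 2, 6), (2, 0, 3), (2, 0, 4), (2, 0, 5), (2, 0, 6), (3, 4, 0), (3, 4, 2), (3, 5, 0), (3, 5, 2), (3, 6, 0), (3, 6, 2), (4, 3, 0), (4, 3, 2), (4, 5, 0), (4, 5, 2), (4, 6, 0), (4, 6, 2), (5, 3, 0), (5, 3, 2), (5, 4, 0), (5, 4, 2), (5, 6, 0), (5, 6, 2), (6, 3, 0), (6, 3, 2), (6, 4, 0), (6, 4, 2), (6, 5, 0), (6, 5, 2)]),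
   ([0, 1, 0, 3, 3, 3, 6], [(0, 2, 3), (0, 2, 4), (0, 2, 5), (2, 0, 3), (2, 0, 4), (2, 0, 5), (3, 4, 0), (3, 4, 2), (3, 5, 0), (3, 5, 2), (4, 3, 0), (4, 3, 2), (4, 5, 0), (4, 5, 2), (5, 3, 0), (5, 3, 2), (5, 4, 0), (5, 4, 2)]),
   ([0, 1, 0, 3, 3, 5, 3], [(0, 2, 3), (0, 2, 4), (0, 2, 6), (2, 0, 3), (2, 0, 4), (2, 0, 6), (3, 4, 0), (3, 4, 2), (3, 6, 0), (3, 6, 2), (4, 3, 0), (4, 3, 2), (4, 6, 0), (4, 6, 2), (6, 3, 0), (6, 3, 2), (6, 4, 0), (6, 4, 2)]),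
   ([0, 1, 0, 3, 3, 5, 5], [(0, 2, 3), (0, 2, 4), (0, 2, 5), (0, 2, 6), (2, 0, 3), (2, 0, 4), (2, 0, 5), (2, 0, 6), (3, 4, 0), (3, 4, 2), (3, 4, 5), (3, 4, 6), (4, 3, 0), (4, 3, 2), (4, 3, 5), (4, 3, 6), (5, 6, 0), (5, 6, 2), (5, 6, 3), (5, 6, 4), (6, 5, 0), (6, 5, 2), (6, 5, 3), (6, 5, 4)]),
   ([0, 1, 0, 3, 3, 5, 6], [(0, 2, 3), (0, 2, 4), (2, 0, 3), (2, 0, 4), (3, 4, 0), (3, 4, 2), (4, 3, 0), (4, 3, 2)]),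
   ([0, 1, 0, 3, 4, 0, 0], []),
   ([0, 1, 0, 3, 4, 0, 6], []),
   ([0, 1, 0, 3, 4, 3, 3], [(0, 2, 3), (0, 2, 5), (0, 2, 6), (2, 0, 3), (2, 0, 5), (2, 0, 6), (3, 5, 0), (3, 5, 2), (3, 6, 0), (3, 6, 2), (5, 3, 0), (5, 3, 2), (5, 6, 0), (5, 6, 2), (6, 3, 0), (6, 3, 2), (6, 5, 0), (6, 5, 2)]),
   ([0, 1, 0, 3, 4, 3, 6], [(0, 2, 3), (0, 2, 5), (2, 0, 3), (2, 0, 5), (3, 5, 0), (3, 5, 2), (5, 3, 0), (5, 3, 2)]),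
   ([0, 1, 0, 3, 4, 4, 4], [(0, 2, 4), (0, 2, 5), (0, 2, 6), (2, 0, 4), (2, 0, 5), (2, 0, 6), (4, 5, 0), (4, 5, 2), (4, 6, 0), (4, 6, 2), (5, 4, 0), (5, 4, 2), (5, 6, 0), (5, 6, 2), (6, 4, 0), (6, 4, 2), (6, 5, 0), (6, 5, 2)]),
   ([0, 1, 0, 3, 4, 4, 6], [(0, 2, 4), (0, 2, 5), (2, 0, 4), (2, 0, 5), (4, 5, 0), (4, 5, 2), (5, 4, 0), (5, 4, 2)]),
   ([0, 1, 0, 3, 4, 5, 0], []),
   ([0, 1, 0, 3, 4, 5, 3], [(0, 2, 3), (0, 2, 6), (2, 0, 3), (2, 0, 6), (3, 6, 0), (3, 6, 2), (6, 3, 0), (6, 3, 2)]),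
   ([0, 1, 0, 3, 4, 5, 4], [(0, 2, 4), (0, 2, 6), (2, 0, 4), (2, 0, 6), (4, 6, 0), (4, 6, 2), (6, 4, 0), (6, 4, 2)]),
   ([0, 1, 0, 3, 4, 5, 5], [(0, 2, 5), (0, 2, 6), (2, 0, 5), (2, 0, 6), (5, 6, 0), (5, 6, 2), (6, 5, 0), (6, 5, 2)]),
   ([0, 1, 0, 3, 4, 5, 6], []),
   ([0, 1, 1, 1, 1, 1, 1], []),
   ([0, 1, 1, 1, 1, 1, 6], []),
   ([0, 1, 1, 1, 1, 5, 1], []),
   ([0, 1, 1, 1, 1, 5, 5], [(1, 2, 5), (1, 2, 6), (1, 3, 5), (1, 3, 6), (1, 4, 5), (1, 4, 6), (2, 1, 5), (2, 1, 6), (2, 3, 5), (2, 3, 6), (2, 4, 5), (2, 4, 6), (3, 1, 5), (3, 1, 6), (3, 2, 5), (3, 2, 6), (3, 4, 5), (3, 4, 6), (4, 1, 5), (4, 1, 6), (4, 2, 5), (4, 2, 6), (4, 3, 5), (4, 3, 6), (5, 6, 1), (5, 6, 2), (5, 6, 3), (5, 6, 4), (6, 5, 1), (6, 5, 2), (6, 5, 3), (6, 5, 4)]),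
   ([0, 1, 1, 1, 1, 5, 6], []),
   ([0, 1, 1, 1, 4, 1, 1], []),
   ([0, 1, 1, 1, 4, 1, 6], []),
   ([0, 1, 1, 1, 4, 4, 4], [(1, 2, 4), (1, 2, 5), (1, 2, 6), (1, 3, 4), (1, 3, 5), (1, 3, 6), (2, 1, 4), (2, 1, 5), (2, 1, 6), (2, 3, 4), (2, 3, 5), (2, 3, 6), (3, 1, 4), (3, 1, 5), (3, 1, 6), (3, 2, 4), (3, 2, 5), (3, 2, 6), (4, 5, 1), (4, 5, 2), (4, 5, 3), (4, 6, 1), (4, 6, 2), (4, 6, 3), (5, 4, 1), (5, 4, 2), (5, 4, 3), (5, 6, 1), (5, 6, 2), (5, 6, 3), (6, 4, 1), (6, 4, 2), (6, 4, 3), (6, 5, 1), (6, 5, 2), (6, 5, 3)]),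
   ([0, 1, 1, 1, 4, 4, 6], [(1, 2, 4), (1, 2, 5), (1, 3, 4), (1, 3, 5), (2, 1, 4), (2, 1, 5), (2, 3, 4), (2, 3, 5), (3, 1, 4), (3, 1, 5), (3, 2, 4), (3, 2, 5), (4, 5, 1), (4, 5, 2), (4, 5, 3), (5, 4, 1), (5, 4, 2), (5, 4, 3)]),
   ([0, 1, 1, 1, 4, 5, 1], []),
   ([0, 1, 1, 1, 4, 5, 4], [(1, 2, 4), (1, 2, 6), (1, 3, 4), (1, 3, 6), (2, 1, 4), (2, 1, 6), (2, 3, 4), (2, 3, 6), (3, 1, 4), (3, 1, 6), (3, 2, 4), (3, 2, 6), (4, 6, 1), (4, 6, 2), (4, 6, 3), (6, 4, 1), (6, 4, 2), (6, 4, 3)]),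
   ([0, 1, 1, 1, 4, 5, 5], [(1, 2, 5), (1, 2, 6), (1, 3, 5), (1, 3, 6), (2, 1, 5), (2, 1, 6), (2, 3, 5), (2, 3, 6), (3, 1, 5), (3, 1, 6), (3, 2, 5), (3, 2, 6), (5, 6, 1), (5, 6, 2), (5, 6, 3), (6, 5, 1), (6, 5, 2), (6, 5, 3)]),
   ([0, 1, 1, 1, 4, 5, 6], []),
   ([0, 1, 1, 3, 1, 1, 1], []),
   ([0, 1, 1, 3, 1, 1, 6], []),
   ([0, 1, 1, 3, 1, 5, 1], []),
   ([0, 1, 1, 3, 1, 5, 5], [(1, 2, 5), (1, 2, 6), (1, 4, 5), (1, 4, 6), (2, 1, 5), (2, 1, 6), (2, 4, 5), (2, 4, 6), (4, 1, 5), (4, 1, 6), (4, 2, 5), (4, 2, 6), (5, 6, 1), (5, 6, 2), (5, 6, 4), (6, 5, 1), (6, 5, 2), (6, 5, 4)]),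
   ([0, 1, 1, 3, 1, 5, 6], []),
   ([0, 1, 1, 3, 3, 3, 3], [(1, 2, 3), (1, 2, 4), (1, 2, 5), (1, 2, 6), (2, 1, 3), (2, 1, 4), (2, 1, 5), (2, 1, 6), (3, 4, 1), (3, 4, 2), (3, 5, 1), (3, 5, 2), (3, 6, 1), (3, 6, 2), (4, 3, 1), (4, 3, 2), (4, 5, 1), (4, 5, 2), (4, 6, 1), (4, 6, 2), (5, 3, 1), (5, 3, 2), (5, 4, 1), (5, 4, 2), (5, 6, 1), (5, 6, 2), (6, 3, 1), (6, 3, 2), (6, 4, 1), (6, 4, 2), (6, 5, 1), (6, 5, 2)]),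
   ([0, 1, 1, 3, 3, 3, 6], [(1, 2, 3), (1, 2, 4), (1, 2, 5), (2, 1, 3), (2, 1, 4), (2, 1, 5), (3, 4, 1), (3, 4, 2), (3, 5, 1), (3, 5, 2), (4, 3, 1), (4, 3, 2), (4, 5, 1), (4, 5, 2), (5, 3, 1), (5, 3, 2), (5, 4, 1), (5, 4, 2)]),
   ([0, 1, 1, 3, 3, 5, 3], [(1, 2, 3), (1, 2, 4), (1, 2, 6), (2, 1, 3), (2, 1, 4), (2, 1, 6), (3, 4, 1), (3, 4, 2), (3, 6, 1), (3, 6, 2), (4, 3, 1), (4, 3, 2), (4, 6, 1), (4, 6, 2), (6, 3, 1), (6, 3, 2), (6, 4, 1), (6, 4, 2)]),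
   ([0, 1, 1, 3, 3, 5, 5], [(1, 2, 3), (1, 2, 4), (1, 2, 5), (1, 2, 6), (2, 1, 3), (2, 1, 4), (2, 1, 5), (2, 1, 6), (3, 4, 1), (3, 4, 2), (3, 4, 5), (3, 4, 6), (4, 3, 1), (4, 3, 2), (4, 3, 5), (4, 3, 6), (5, 6, 1), (5, 6, 2), (5, 6, 3), (5, 6, 4), (6, 5, 1), (6, 5, 2), (6, 5, 3), (6, 5, 4)]),
   ([0, 1, 1, 3, 3, 5, 6], [(1, 2, 3), (1, 2, 4), (2, 1, 3), (2, 1, 4), (3, 4, 1), (3, 4, 2), (4, 3, 1), (4, 3, 2)]),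
   ([0, 1, 1, 3, 4, 1, 1], []),
   ([0, 1, 1, 3, 4, 1, 6], []),
   ([0, 1, 1, 3, 4, 3, 3], [(1, 2, 3), (1, 2, 5), (1, 2, 6), (2, 1, 3), (2, 1, 5), (2, 1, 6), (3, 5, 1), (3, 5, 2), (3, 6, 1), (3, 6, 2), (5, 3, 1), (5, 3, 2), (5, 6, 1), (5, 6, 2), (6, 3, 1), (6, 3, 2), (6, 5, 1), (6, 5, 2)]),
   ([0, 1, 1, 3, 4, 3, 6], [(1, 2, 3), (1, 2, 5), (2, 1, 3), (2, 1, 5), (3, 5, 1), (3, 5, 2), (5, 3, 1), (5, 3, 2)]),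
   ([0, 1, 1, 3, 4, 4, 4], [(1, 2, 4), (1, 2, 5), (1, 2, 6), (2, 1, 4), (2, 1, 5), (2, 1, 6), (4, 5, 1), (4, 5, 2), (4, 6, 1), (4, 6, 2), (5, 4, 1), (5, 4, 2), (5, 6, 1), (5, 6, 2), (6, 4, 1), (6, 4, 2), (6, 5, 1), (6, 5, 2)]),
   ([0, 1, 1, 3, 4, 4, 6], [(1, 2, 4), (1, 2, 5), (2, 1, 4), (2, 1, 5), (4, 5, 1), (4, 5, 2), (5, 4, 1), (5, 4, 2)]),
   ([0, 1, 1, 3, 4, 5, 1], []),
   ([0, 1, 1, 3, 4, 5, 3], [(1, 2, 3), (1, 2, 6), (2, 1, 3), (2, 1, 6), (3, 6, 1), (3, 6, 2), (6, 3, 1), (6, 3, 2)]),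
   ([0, 1, 1, 3, 4, 5, 4], [(1, 2, 4), (1, 2, 6), (2, 1, 4), (2, 1, 6), (4, 6, 1), (4, 6, 2), (6, 4, 1), (6, 4, 2)]),
   ([0, 1, 1, 3, 4, 5, 5], [(1, 2, 5), (1, 2, 6), (2, 1, 5), (2, 1, 6), (5, 6, 1), (5, 6, 2), (6, 5, 1), (6, 5, 2)]),
   ([0, 1, 1, 3, 4, 5, 6], []),
   ([0, 1, 2, 0, 0, 0, 0], []),
   ([0, 1, 2, 0, 0, 0, 6], []),
   ([0, 1, 2, 0, 0, 5, 0], []),
   ([0, 1, 2, 0, 0, 5, 5], [(0, 3, 5), (0, 3, 6), (0, 4, 5), (0, 4, 6), (3, 0, 5), (3, 0, 6), (3, 4, 5), (3, 4, 6), (4, 0, 5), (4, 0, 6), (4, 3, 5), (4, 3, 6), (5, 6, 0), (5, 6, 3), (5, 6, 4), (6, 5, 0), (6, 5, 3), (6, 5, 4)]),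
   ([0, 1, 2, 0, 0, 5, 6], []),
   ([0, 1, 2, 0, 4, 0, 0], []),
   ([0, 1, 2, 0, 4, 0, 6], []),
   ([0, 1, 2, 0, 4, 4, 4], [(0, 3, 4), (0, 3, 5), (0, 3, 6), (3, 0, 4), (3, 0, 5), (3, 0, 6), (4, 5, 0), (4, 5, 3), (4, 6, 0), (4, 6, 3), (5, 4, 0), (5, 4, 3), (5, 6, 0), (5, 6, 3), (6, 4, 0), (6, 4, 3), (6, 5, 0), (6, 5, 3)]),
   ([0, 1, 2, 0, 4, 4, 6], [(0, 3, 4), (0, 3, 5), (3, 0, 4), (3, 0, 5), (4, 5, 0), (4, 5, 3), (5, 4, 0), (5, 4, 3)]),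
   ([0, 1, 2, 0, 4, 5, 0], []),
   ([0, 1, 2, 0, 4, 5, 4], [(0, 3, 4), (0, 3, 6), (3, 0, 4), (3, 0, 6), (4, 6, 0), (4, 6, 3), (6, 4, 0), (6, 4, 3)]),
   ([0, 1, 2, 0, 4, 5, 5], [(0, 3, 5), (0, 3, 6), (3, 0, 5), (3, 0, 6), (5, 6, 0), (5, 6, 3), (6, 5, 0), (6, 5, 3)]),
   ([0, 1, 2, 0, 4, 5, 6], []),
   ([0, 1, 2, 1, 1, 1, 1], []),
   ([0, 1, 2, 1, 1, 1, 6], []),
   ([0, 1, 2, 1, 1, 5, 1], []),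
   ([0, 1, 2, 1, 1, 5, 5], [(1, 3, 5), (1, 3, 6), (1, 4, 5), (1, 4, 6), (3, 1, 5), (3, 1, 6), (3, 4, 5), (3, 4, 6), (4, 1, 5), (4, 1, 6), (4, 3, 5), (4, 3, 6), (5, 6, 1), (5, 6, 3), (5, 6, 4), (6, 5, 1), (6, 5, 3), (6, 5, 4)]),
   ([0, 1, 2, 1, 1, 5, 6], []),
   ([0, 1, 2, 1, 4, 1, 1], []),
   ([0, 1, 2, 1, 4, 1, 6], []),
   ([0, 1, 2, 1, 4, 4, 4], [(1, 3, 4), (1, 3, 5), (1, 3, 6), (3, 1, 4), (3, 1, 5), (3, 1, 6), (4, 5, 1), (4, 5, 3), (4, 6, 1), (4, 6, 3), (5, 4, 1), (5, 4, 3), (5, 6, 1), (5, 6, 3), (6, 4, 1), (6, 4, 3), (6, 5, 1), (6, 5, 3)]),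
   ([0, 1, 2, 1, 4, 4, 6], [(1, 3, 4), (1, 3, 5), (3, 1, 4), (3, 1, 5), (4, 5, 1), (4, 5, 3), (5, 4, 1), (5, 4, 3)]),
   ([0, 1, 2, 1, 4, 5, 1], []),
   ([0, 1, 2, 1, 4, 5, 4], [(1, 3, 4), (1, 3, 6), (3, 1, 4), (3, 1, 6), (4, 6, 1), (4, 6, 3), (6, 4, 1), (6, 4, 3)]),
   ([0, 1, 2, 1, 4, 5, 5], [(1, 3, 5), (1, 3, 6), (3, 1, 5), (3, 1, 6), (5, 6, 1), (5, 6, 3), (6, 5, 1), (6, 5, 3)]),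
   ([0, 1, 2, 1, 4, 5, 6], []),
   ([0, 1, 2, 2, 2, 2, 2], []),
   ([0, 1, 2, 2, 2, 2, 6], []),
   ([0, 1, 2, 2, 2, 5, 2], []),
   ([0, 1, 2, 2, 2, 5, 5], [(2, 3, 5), (2, 3, 6), (2, 4, 5), (2, 4, 6), (3, 2, 5), (3, 2, 6), (3, 4, 5), (3, 4, 6), (4, 2, 5), (4, 2, 6), (4, 3, 5), (4, 3, 6), (5, 6, 2), (5, 6, 3), (5, 6, 4), (6, 5, 2), (6, 5, 3), (6, 5, 4)]),
   ([0, 1, 2, 2, 2, 5, 6], []),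
   ([0, 1, 2, 2, 4, 2, 2], []),
   ([0, 1, 2, 2, 4, 2, 6], []),
   ([0, 1, 2, 2, 4, 4, 4], [(2, 3, 4), (2, 3, 5), (2, 3, 6), (3, 2, 4), (3, 2, 5), (3, 2, 6), (4, 5, 2), (4, 5, 3), (4, 6, 2), (4, 6, 3), (5, 4, 2), (5, 4, 3), (5, 6, 2), (5, 6, 3), (6, 4, 2), (6, 4, 3), (6, 5, 2), (6, 5, 3)]),
   ([0, 1, 2, 2, 4, 4, 6], [(2, 3, 4), (2, 3, 5), (3, 2, 4), (3, 2, 5), (4, 5, 2), (4, 5, 3), (5, 4, 2), (5, 4, 3)]),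
   ([0, 1, 2, 2, 4, 5, 2], []),
   ([0, 1, 2, 2, 4, 5, 4], [(2, 3, 4), (2, 3, 6), (3, 2, 4), (3, 2, 6), (4, 6, 2), (4, 6, 3), (6, 4, 2), (6, 4, 3)]),
   ([0, 1, 2, 2, 4, 5, 5], [(2, 3, 5), (2, 3, 6), (3, 2, 5), (3, 2, 6), (5, 6, 2), (5, 6, 3), (6, 5, 2), (6, 5, 3)]),
   ([0, 1, 2, 2, 4, 5, 6], []),
   ([0, 1, 2, 3, 0, 0, 0], []),
   ([0, 1, 2, 3, 0, 0, 6], []),
   ([0, 1, 2, 3, 0, 5, 0], []),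
   ([0, 1, 2, 3, 0, 5, 5], [(0, 4, 5), (0, 4, 6), (4, 0, 5), (4, 0, 6), (5, 6, 0), (5, 6, 4), (6, 5, 0), (6, 5, 4)]),
   ([0, 1, 2, 3, 0, 5, 6], []),
   ([0, 1, 2, 3, 1, 1, 1], []),
   ([0, 1, 2, 3, 1, 1, 6], []),
   ([0, 1, 2, 3, 1, 5, 1], []),
   ([0, 1, 2, 3, 1, 5, 5], [(1, 4, 5), (1, 4, 6), (4, 1, 5), (4, 1, 6), (5, 6, 1), (5, 6, 4), (6, 5, 1), (6, 5, 4)]),
   ([0, 1, 2, 3, 1, 5, 6], []),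
   ([0, 1, 2, 3, 2, 2, 2], []),
   ([0, 1, 2, 3, 2, 2, 6], []),
   ([0, 1, 2, 3, 2, 5, 2], []),
   ([0, 1, 2, 3, 2, 5, 5], [(2, 4, 5), (2, 4, 6), (4, 2, 5), (4, 2, 6), (5, 6, 2), (5, 6, 4), (6, 5, 2), (6, 5, 4)]),
   ([0, 1, 2, 3, 2, 5, 6], []),
   ([0, 1, 2, 3, 3, 3, 3], []),
   ([0, 1, 2, 3, 3, 3, 6], []),
   ([0, 1, 2, 3, 3, 5, 3], []),
   ([0, 1, 2, 3, 3, 5, 5], [(3, 4, 5), (3, 4, 6), (4, 3, 5), (4, 3, 6), (5, 6, 3), (5, 6, 4), (6, 5, 3), (6, 5, 4)]),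
   ([0, 1, 2, 3, 3, 5, 6], []),
   ([0, 1, 2, 3, 4, 0, 0], []),
   ([0, 1, 2, 3, 4, 0, 6], []),
   ([0, 1, 2, 3, 4, 1, 1], []),
   ([0, 1, 2, 3, 4, 1, 6], []),
   ([0, 1, 2, 3, 4, 2, 2], []),
   ([0, 1, 2, 3, 4, 2, 6], []),
   ([0, 1, 2, 3, 4, 3, 3], []),
   ([0, 1, 2, 3, 4, 3, 6], []),
   ([0, 1, 2, 3, 4, 4, 4], []),
   ([0, 1, 2, 3, 4, 4, 6], []),
   ([0, 1, 2, 3, 4, 5, 0], []),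
   ([0, 1, 2, 3, 4, 5, 1], []),
   ([0, 1, 2, 3, 4, 5, 2], []),
   ([0, 1, 2, 3, 4, 5, 3], []),
   ([0, 1, 2, 3, 4, 5, 4], []),
   ([0, 1, 2, 3, 4, 5, 5], []),
   ([0, 1, 2, 3, 4, 5, 6], [])]

def U : List Nat :=
  [0, 1572864, 163840, 1736704, 16384, 1589248, 180224, 1753088, 1536, 1574400, 165376, 1738240, 17920, 1590784, 181760, 1754624, 128, 1572992, 163968, 1736832, 16512, 1589376, 180352, 1753216, 1664, 1574528, 165504, 1738368, 18048, 1590912, 181888, 1754752, 8, 1572872, 163848, 1736712, 16392, 1589256, 180232, 1753096, 1544, 1574408, 165384, 1738248, 17928, 1590792, 181768, 1492488, 1754632, 299592, 1610312, 430664, 1741384, 311880, 1622600, 442952, 1753672, 300616, 1611336, 431688, 1742408, 312904, 1623624, 443976, 968264, 1754696, 136, 1573000,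 163976, 1736840, 16520, 1589384, 180360, 1753224, 299656, 1610376, 430728, 1741448, 311944, 1622664, 443016, 1753736, 599176, 1647752, 697480, 1746056, 607368, 1655944, 1721480, 705672, 1754248, 1672, 1574536, 165512, 1738376, 300680, 1611400, 169608, 431752, 1742472, 599688, 1648264, 697992, 1746568, 898696, 1685128, 964232, 1750664, 18056, 1590920, 312968, 1623688, 607880, 1656456, 902792, 1689224, 1197704, 1721992, 181896, 444040, 706184, 968328, 1230472, 1492616, 1754760]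

def R7 : List Nat := [0, 1, 2, 3, 4, 5, 6]
def R5 : List Nat := [0, 1, 2, 3, 4]

def dg (w i : Nat) : Nat := Nat.mod (Nat.div w (Nat.pow 8 i)) 8

def tst (w : Nat) (e : List Nat × List (Nat × Nat × Nat)) : Bool :=
  e.2.all fun t => !(Nat.ble (dg w t.1) (dg w t.2.2) && Nat.ble (dg w t.2.2) (dg w t.2.1))

def enc (a b c d e f g : Nat) : Nat :=
  a + 8 * b + 64 * c + 512 * d + 4096 * e + 32768 * f + 262144 * g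

def good (e : List Nat × List (Nat × Nat × Nat)) : Bool :=
  (R7.all fun a => Nat.ble (e.1.getD a 0) a && Nat.beq (e.1.getD (e.1.getD a 0) 0) (e.1.getD a 0)) &&
  Nat.beq e.1.length 7 && tst (enc 0 0 1 2 3 4 4) e &&
  R7.all fun a => R7.all fun b => Nat.beq a b || !(Nat.beq (e.1.getD a 0) (e.1.getD b 0)) ||
    R7.all fun c => Nat.beq (e.1.getD a 0) (e.1.getD c 0) ||
      (R7.all fun d => Nat.beq c d || !(Nat.beq (e.1.getD c 0) (e.1.getD d 0))) ||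
      decide ((a, b, c) ∈ e.2)

theorem D_good : D.all good = true := by decide +kernel

def cd (l : List Nat) : Nat := l.foldl (fun a x => 8 * a + x) 0

theorem D_chain : ((D.map Prod.fst).map cd).IsChain (· < ·) := by decide +kernel

theorem D_nodup : (D.map Prod.fst).Nodup :=
  List.Nodup.of_map cd ((List.isChain_iff_pairwise.1 D_chain).imp fun h => Nat.ne_of_lt h)

def low (a b : Nat) : Bool :=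
  R5.all fun c => R5.all fun d => R5.all fun e => R5.all fun f => R5.all fun g =>
    !(Nat.beq (8 ^ a + 8 ^ b + 8 ^ c + 8 ^ d + 8 ^ e + 8 ^ f + 8 ^ g) 8778) ||
    Nat.ble 126 (D.filter (tst (enc a b c d e f g))).length

theorem low00 : low 0 0 = true := by decide +kernel
theorem low01 : low 0 1 = true := by decide +kernel
theorem low02 : low 0 2 = true := by decide +kernel
theorem low03 : low 0 3 = true := by decide +kernel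
theorem low04 : low 0 4 = true := by decide +kernel
theorem low10 : low 1 0 = true := by decide +kernel
theorem low11 : low 1 1 = true := by decide +kernel
theorem low12 : low 1 2 = true := by decide +kernel
theorem low13 : low 1 3 = true := by decide +kernel
theorem low14 : low 1 4 = true := by decide +kernel
theorem low20 : low 2 0 = true := by decide +kernel
theorem low21 : low 2 1 = true := by decide +kernel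
theorem low22 : low 2 2 = true := by decide +kernel
theorem low23 : low 2 3 = true := by decide +kernel
theorem low24 : low 2 4 = true := by decide +kernel
theorem low30 : low 3 0 = true := by decide +kernel
theorem low31 : low 3 1 = true := by decide +kernel
theorem low32 : low 3 2 = true := by decide +kernel
theorem low33 : low 3 3 = true := by decide +kernel
theorem low34 : low 3 4 = true := by decide +kernel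
theorem low40 : low 4 0 = true := by decide +kernel
theorem low41 : low 4 1 = true := by decide +kernel
theorem low42 : low 4 2 = true := by decide +kernel
theorem low43 : low 4 3 = true := by decide +kernel
theorem low44 : low 4 4 = true := by decide +kernel

def SP : List Nat := [122, 50, 34, 72, 6, 14, 30, 96]

def spl (r : Nat) : Bool :=
  SP.all fun X => R7.all fun a => !(X.testBit a) || R7.all fun b => X.testBit b ||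
    !(Nat.beq (dg r a) (dg r b)) || R7.all fun c => !(X.testBit c) ||
      Nat.beq (dg r a) (dg r c) || R7.all fun d => X.testBit d || !(Nat.beq (dg r c) (dg r d))

def idem (r : Nat) : Bool := R7.all fun a => Nat.beq (dg r (dg r a)) (dg r a)

def upB (b c : Nat) : Bool :=
  (List.range 4).all fun d =>
    (List.range 5).all fun e => (List.range 6).all fun f => (List.range 7).all fun g =>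
      !(idem (enc 0 b c d e f g)) || !(spl (enc 0 b c d e f g)) ||
        U.any fun x => Nat.beq x (enc 0 b c d e f g)

theorem up00 : upB 0 0 = true := by decide +kernel
theorem up01 : upB 0 1 = true := by decide +kernel
theorem up02 : upB 0 2 = true := by decide +kernel
theorem up10 : upB 1 0 = true := by decide +kernel
theorem up11 : upB 1 1 = true := by decide +kernel
theorem up12 : upB 1 2 = true := by decide +kernel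

theorem U_len : U.length = 125 := by decide +kernel

end Pool.Agent.H32.Phylo
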