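import Mathlib

namespace Pool.Agent.H32.PolySieve

def PN (m x : ℕ) : ℕ := (m - 2) * (x * (x - 1) / 2) + x

def QN (m x : ℕ) : ℕ := (m - 2) * (x * (x - 1) / 2) + (m - 3) * x

noncomputable def sumMask (s : ℕ) (f : ℕ → ℕ) (n : ℕ) : ℕ :=
  Nat.rec (motive := fun _ => ℕ) 0 (fun x acc => acc ||| (s <<< (min (f x) 1800))) n

noncomputable def mask2 (g j : ℕ) : ℕ :=
  sumMask (sumMask 1 (PN g) 61 ||| sumMask 1 (QN g) 61) (PN j) 61

noncomputable def miss (g j k N : ℕ) : Bool :=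
  !(Nat.beq (sumMask (mask2 g j) (PN k) 61 % 2 ^ N) (2 ^ N - 1))

theorem sumMask_bit (s : ℕ) (f : ℕ → ℕ) (n x a : ℕ) (hx : x < n) (hf : f x ≤ 1800)
    (ha : s.testBit a = true) : (sumMask s f n).testBit (a + f x) = true := by
  induction n with
  | zero => omega
  | succ n ih =>
    have e : sumMask s f (n + 1) = sumMask s f n ||| (s <<< (min (f n) 1800)) := rfl
    rw [e, Nat.testBit_or, Bool.or_eq_true]
    rcases Nat.lt_succ_iff_lt_or_eq.mp hx with h | h
    · exact Or.inl (ih h)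
    · right
      subst h
      rw [min_eq_left hf, Nat.testBit_shiftLeft]
      simp [ha]

theorem tri (x : ℕ) : 2 * (x * (x - 1) / 2) = x * (x - 1) :=
  Nat.mul_div_cancel' (even_iff_two_dvd.mp (Nat.even_mul_pred_self x))

theorem tri_big (x : ℕ) (hx : 61 ≤ x) : 1800 < x * (x - 1) / 2 := by
  have h := tri x
  obtain ⟨y, rfl⟩ : ∃ y, x = y + 1 := ⟨x - 1, by omega⟩
  simp only [Nat.add_sub_cancel] at h ⊢
  nlinarith

theorem lt_of_small (m x r : ℕ) (hm : 3 ≤ m) (h : (m - 2) * (x * (x - 1) / 2) + r ≤ 1800) :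
    x < 61 := by
  by_contra hc
  have h1 := tri_big x (by omega)
  have h2 : 1 * (x * (x - 1) / 2) ≤ (m - 2) * (x * (x - 1) / 2) :=
    Nat.mul_le_mul_right _ (by omega)
  omega

theorem not_miss (g j k N : ℕ) (hg : 3 ≤ g) (hj : 3 ≤ j) (hk : 3 ≤ k) (hN : N ≤ 1800)
    (h : ∀ n < N, ∃ z x y, n = PN g z + PN j x + PN k y ∨ n = QN g z + PN j x + PN k y) :
    miss g j k N = false := by
  unfold miss
  have : sumMask (mask2 g j) (PN k) 61 % 2 ^ N = 2 ^ N - 1 := by
    apply Nat.eq_of_testBit_eq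
    intro n
    rw [Nat.testBit_mod_two_pow, Nat.testBit_two_pow_sub_one]
    by_cases hn : n < N
    · obtain ⟨z, x, y, h1⟩ := h n hn
      have hx : PN j x ≤ 1800 := by omega
      have hy : PN k y ≤ 1800 := by omega
      have one : (1 : ℕ).testBit 0 = true := by decide
      simp only [hn, decide_true, Bool.true_and]
      rcases h1 with h1 | h1
      · have hz : PN g z ≤ 1800 := by omega
        rw [h1]
        apply sumMask_bit _ _ _ _ _ (lt_of_small k y _ hk hy) hy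
        apply sumMask_bit _ _ _ _ _ (lt_of_small j x _ hj hx) hx
        rw [Nat.testBit_or, Bool.or_eq_true]
        left
        simpa using sumMask_bit 1 (PN g) 61 z 0 (lt_of_small g z _ hg hz) hz one
      · have hz : QN g z ≤ 1800 := by omega
        rw [h1]
        apply sumMask_bit _ _ _ _ _ (lt_of_small k y _ hk hy) hy
        apply sumMask_bit _ _ _ _ _ (lt_of_small j x _ hj hx) hx
        rw [Nat.testBit_or, Bool.or_eq_true]
        right
        simpa using sumMask_bit 1 (QN g) 61 z 0 (lt_of_small g z _ hg hz) hz one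
    · simp [hn]
  rw [this]
  simp

theorem PN_cap (m x : ℕ) (h : PN m x < 70) : PN (min m 70) x = PN m x := by
  rcases le_total m 70 with h1 | h1
  · rw [min_eq_left h1]
  · rw [min_eq_right h1]
    unfold PN at *
    rcases Nat.lt_or_ge x 2 with h2 | h2
    · interval_cases x <;> simp
    · exfalso
      have h3 : 1 ≤ x * (x - 1) / 2 := by
        have := tri x
        have : 2 * 1 ≤ x * (x - 1) := Nat.mul_le_mul h2 (by omega)
        omega
      have h4 : 68 * 1 ≤ (m - 2) * (x * (x - 1) / 2) := Nat.mul_le_mul (by omega) h3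
      omega

theorem cast_tri (x : ℕ) : 2 * ((x * (x - 1) / 2 : ℕ) : ℤ) = (x : ℤ) ^ 2 - x := by
  have h := tri x
  rcases Nat.eq_zero_or_pos x with h0 | h0
  · subst h0; simp
  · have h1 : ((2 * (x * (x - 1) / 2) : ℕ) : ℤ) = ((x * (x - 1) : ℕ) : ℤ) := by rw [h]
    rw [Nat.cast_mul, Nat.cast_mul x, Nat.cast_sub h0] at h1
    push_cast at h1 ⊢
    linarith

theorem PN_cast (m x : ℕ) (hm : 3 ≤ m) :
    (((m : ℤ) - 2) * (x : ℤ) ^ 2 - ((m : ℤ) - 4) * x) / 2 = PN m x := by
  have h := cast_tri x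
  unfold PN
  rw [Nat.cast_add, Nat.cast_mul, Nat.cast_sub (by omega : 2 ≤ m)]
  generalize ((x * (x - 1) / 2 : ℕ) : ℤ) = t at *
  have : ((m : ℤ) - 2) * (x : ℤ) ^ 2 - ((m : ℤ) - 4) * x = 2 * (((m : ℤ) - (2 : ℕ)) * t + x) := by
    push_cast; linear_combination (-((m : ℤ) - 2)) * h
  rw [this]; omega

theorem QN_cast (m x : ℕ) (hm : 3 ≤ m) :
    (((m : ℤ) - 2) * (-(x : ℤ)) ^ 2 - ((m : ℤ) - 4) * (-(x : ℤ))) / 2 = QN m x := by
  have h := cast_tri x
  unfold QN
  rw [Nat.cast_add, Nat.cast_mul, Nat.cast_mul (m - 3), Nat.cast_sub (by omega : 2 ≤ m),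
    Nat.cast_sub hm]
  generalize ((x * (x - 1) / 2 : ℕ) : ℤ) = t at *
  have : ((m : ℤ) - 2) * (-(x : ℤ)) ^ 2 - ((m : ℤ) - 4) * (-(x : ℤ)) =
      2 * (((m : ℤ) - (2 : ℕ)) * t + ((m : ℤ) - (3 : ℕ)) * x) := by
    push_cast; linear_combination (-((m : ℤ) - 2)) * h
  rw [this]; omega

noncomputable def check (g : ℕ) (al : ℕ → ℕ → Bool) : Bool :=
  (List.range 71).all fun j => (List.range 71).all fun k =>
    Nat.ble j 2 || Nat.blt k j || al j k || miss g j k (bif Nat.beq k 70 then 70 else 1800)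

theorem main (g : ℕ) (hg : 3 ≤ g) (al : ℕ → ℕ → Bool) (hc : check g al = true) (j k : ℕ)
    (hj : 3 ≤ j) (hjk : j ≤ k)
    (h : ∀ n : ℕ, ∃ (z : ℤ) (x y : ℕ), (n : ℤ) = (((g : ℤ) - 2) * z ^ 2 - ((g : ℤ) - 4) * z) / 2 +
      (((j : ℤ) - 2) * (x : ℤ) ^ 2 - ((j : ℤ) - 4) * x) / 2 +
      (((k : ℤ) - 2) * (y : ℤ) ^ 2 - ((k : ℤ) - 4) * y) / 2) :
    al (min j 70) (min k 70) = true := by
  have h' : ∀ n : ℕ, ∃ z x y, n = PN g z + PN j x + PN k y ∨ n = QN g z + PN j x + PN k y := by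
    intro n
    obtain ⟨z, x, y, e⟩ := h n
    rw [PN_cast j x hj, PN_cast k y (by omega)] at e
    obtain ⟨w, rfl | rfl⟩ := Int.eq_nat_or_neg z
    · rw [PN_cast g w hg] at e
      exact ⟨w, x, y, Or.inl (by exact_mod_cast e)⟩
    · rw [QN_cast g w hg] at e
      exact ⟨w, x, y, Or.inr (by exact_mod_cast e)⟩
  unfold check at hc
  simp only [List.all_eq_true, List.mem_range] at hc
  have h1 := hc (min j 70) (by omega) (min k 70) (by omega)
  have h2 : miss g (min j 70) (min k 70) (bif Nat.beq (min k 70) 70 then 70 else 1800) = false := by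
    rcases Nat.lt_or_ge k 70 with hk | hk
    · have e : Nat.beq (min k 70) 70 = false := by
        rw [Bool.eq_false_iff, ne_eq, Nat.beq_eq]; omega
      rw [e, min_eq_left (by omega : j ≤ 70), min_eq_left (by omega : k ≤ 70)]
      exact not_miss g j k 1800 hg hj (by omega) le_rfl fun n _ => h' n
    · have e : Nat.beq (min k 70) 70 = true := by
        rw [Nat.beq_eq]; omega
      rw [e]
      refine not_miss g _ _ 70 hg (by omega) (by omega) (by norm_num) fun n hn => ?_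
      obtain ⟨z, x, y, e⟩ := h' n
      refine ⟨z, x, y, ?_⟩
      rw [PN_cap j x (by omega), PN_cap k y (by omega)]
      exact e
  rw [h2] at h1
  simp only [Bool.or_false, Bool.or_eq_true, Nat.ble_eq, Nat.blt_eq] at h1
  rcases h1 with (h1 | h1) | h1
  · omega
  · omega
  · exact h1

end Pool.Agent.H32.PolySieve
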