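import Mathlib

namespace Pool.Agent.H32.PopFS

open Finset

theorem sum_range_zmod {n : ℕ} [NeZero n] (f : ZMod n → ℝ) :
    ∑ x ∈ range n, f (x : ZMod n) = ∑ a : ZMod n, f a := by
  refine sum_bij (fun x _ => (x : ZMod n)) (fun _ _ => mem_univ _) ?_ ?_ (fun _ _ => rfl)
  · intro x hx y hy h
    have := (ZMod.natCast_eq_natCast_iff' x y n).1 h
    rwa [Nat.mod_eq_of_lt (mem_range.1 hx), Nat.mod_eq_of_lt (mem_range.1 hy)] at this
  · intro a _
    exact ⟨a.val, mem_range.2 (ZMod.val_lt a), ZMod.natCast_zmod_val a⟩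

theorem char_corr {p : ℕ} [Fact p.Prime] (hp : p % 4 = 1) {h : ZMod p} (hh : h ≠ 0) :
    ∑ x : ZMod p, quadraticChar (ZMod p) x * quadraticChar (ZMod p) (x + h) = -1 := by
  have hp2 : ringChar (ZMod p) ≠ 2 := by
    rw [ZMod.ringChar_zmod_n]; omega
  have hχ := quadraticChar_ne_one hp2
  have h1 := jacobiSum_nontrivial_inv hχ
  rw [(quadraticChar_isQuadratic (ZMod p)).inv, jacobiSum] at h1
  have hm1 : quadraticChar (ZMod p) (-1) = 1 := by
    rw [quadraticChar_one_iff_isSquare (by simp)]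
    exact ZMod.exists_sq_eq_neg_one_iff.2 (by omega)
  rw [hm1] at h1
  rw [← h1]
  symm
  refine Fintype.sum_equiv (Equiv.mulLeft₀ (-h) (neg_ne_zero.2 hh)) _ _ fun x => ?_
  simp only [Equiv.mulLeft₀_apply]
  have e1 : -h * x + h = h * (1 - x) := by ring
  have e2 : -h * x = (-1) * h * x := by ring
  have e3 := quadraticChar_sq_one hh
  rw [e1, e2]
  simp only [map_mul, hm1]
  linear_combination (-(quadraticChar (ZMod p) x * quadraticChar (ZMod p) (1 - x))) * e3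

theorem char_sq {p : ℕ} [Fact p.Prime] :
    ∑ x : ZMod p, quadraticChar (ZMod p) x * quadraticChar (ZMod p) x ≤ p := by
  calc ∑ x : ZMod p, quadraticChar (ZMod p) x * quadraticChar (ZMod p) x ≤ ∑ _x : ZMod p, (1 : ℤ) := by
        refine sum_le_sum fun x _ => ?_
        rcases quadraticChar_isQuadratic (ZMod p) x with h | h | h <;> rw [h] <;> norm_num
    _ = p := by simp [ZMod.card]

structure Wave (p : ℕ) (g : ℕ → ℝ) : Prop where
  factor : ∃ G : ZMod p → ℝ, ∀ x : ℕ, g x = G x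
  bound : ∀ x, |g x| ≤ 3
  mean : ∑ x ∈ range p, g x = 0
  corr : ∀ y, ¬ p ∣ y → ∑ x ∈ range p, g x * g (x + y ^ 2) ≤ -2 / √p
  diag : ∀ y, p ∣ y → ∑ x ∈ range p, g x * g (x + y ^ 2) ≤ 2

theorem exists_wave {p : ℕ} (hp : p.Prime) (hp4 : p % 4 = 1) : ∃ g, Wave p g := by
  haveI := Fact.mk hp
  have hp2 : ringChar (ZMod p) ≠ 2 := by
    rw [ZMod.ringChar_zmod_n]; omega
  let χ : ZMod p → ℝ := fun x => (quadraticChar (ZMod p) x : ℝ)
  let δ : ZMod p → ℝ := fun x => if x = 0 then 1 else 0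
  let G : ZMod p → ℝ := fun x => δ x - χ x / √p - 1 / p
  have hp1 : (1 : ℝ) ≤ p := by exact_mod_cast hp.one_le
  have hr1 : 1 ≤ √(p : ℝ) := Real.one_le_sqrt.2 hp1
  have hrr : √(p : ℝ) * √(p : ℝ) = p := Real.mul_self_sqrt (by linarith)
  have sχ : ∑ x, χ x = 0 := by
    have := quadraticChar_sum_zero hp2
    simp only [χ]
    exact_mod_cast this
  have sδ : ∀ f : ZMod p → ℝ, ∑ x, δ x * f x = f 0 := by
    intro f; simp [δ]
  have sδ' : ∀ (f : ZMod p → ℝ) (h : ZMod p), ∑ x, f x * δ (x + h) = f (-h) := by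
    intro f h
    simp [δ, add_eq_zero_iff_eq_neg]
  have sδ1 : ∑ x, δ x = 1 := by simp [δ]
  have sG : ∑ x, G x = 0 := by
    simp only [G, sum_sub_distrib, ← sum_div, sχ, sδ1]
    simp [ZMod.card]
  have sGG : ∀ h : ZMod p, ∑ x, G x * G (x + h)
      = δ h - χ h / √p - χ (-h) / √p + (∑ x, χ x * χ (x + h)) / p - 1 / p := by
    intro h
    have e : ∀ x, G x * G (x + h) = δ x * (δ (x + h) - χ (x + h) / √p) - (χ x / √p) * δ (x + h)
        + χ x * χ (x + h) / p - (1 / p) * G (x + h) - (1 / p) * (δ x - χ x / √p) := by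
      intro x
      simp only [G]
      rw [show χ x * χ (x + h) / p = (χ x / √p) * (χ (x + h) / √p) by
        rw [div_mul_div_comm, hrr]]
      ring
    have s1 : ∑ x, G (x + h) = 0 := by
      rw [← sG]; exact Fintype.sum_equiv (Equiv.addRight h) _ _ fun x => rfl
    simp only [e, sum_sub_distrib, sum_add_distrib, sδ, sδ' (fun x => χ x / √p), ← mul_sum,
      ← sum_div, s1, sχ, sδ1, zero_add]
    ring
  refine ⟨fun x => G x, ⟨G, fun _ => rfl⟩, ?_, ?_, ?_, ?_⟩
  · intro x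
    have h1 : |δ x| ≤ 1 := by simp only [δ]; split_ifs <;> simp
    have h2 : |χ x / √p| ≤ 1 := by
      rw [abs_div, abs_of_pos (by linarith : (0 : ℝ) < √p), div_le_one (by linarith)]
      refine le_trans ?_ hr1
      simp only [χ]
      rcases quadraticChar_isQuadratic (ZMod p) x with h | h | h <;> rw [h] <;> norm_num
    have h3 : |1 / (p : ℝ)| ≤ 1 := by
      rw [abs_of_pos (by positivity), div_le_one (by linarith)]; exact hp1
    simp only [G]
    rw [abs_le] at *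
    constructor <;> linarith [h1.1, h1.2, h2.1, h2.2, h3.1, h3.2]
  · rw [sum_range_zmod G, sG]
  · intro y hy
    have hy0 : (y : ZMod p) ≠ 0 := by rwa [Ne, ZMod.natCast_eq_zero_iff]
    have hh : (y : ZMod p) ^ 2 ≠ 0 := pow_ne_zero _ hy0
    push_cast
    rw [sum_range_zmod (fun x => G x * G (x + (y : ZMod p) ^ 2)), sGG]
    have c1 : χ ((y : ZMod p) ^ 2) = 1 := by
      simp only [χ]; rw [quadraticChar_sq_one' hy0]; simp
    have hm1 : quadraticChar (ZMod p) (-1) = 1 := by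
      rw [quadraticChar_one_iff_isSquare (by simp)]
      exact ZMod.exists_sq_eq_neg_one_iff.2 (by omega)
    have c2 : χ (-(y : ZMod p) ^ 2) = 1 := by
      simp only [χ]
      rw [← neg_one_mul, map_mul, hm1, quadraticChar_sq_one' hy0]; simp
    have c3 : ∑ x, χ x * χ (x + (y : ZMod p) ^ 2) = -1 := by
      have := char_corr hp4 hh
      simp only [χ]
      exact_mod_cast this
    have c4 : δ ((y : ZMod p) ^ 2) = 0 := by simp only [δ]; rw [if_neg hh]
    rw [c1, c2, c3, c4]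
    have : 0 < 1 / (p : ℝ) := by positivity
    have e : -2 / √(p : ℝ) = -(1 / √p) - 1 / √p := by ring
    have e' : -1 / (p : ℝ) = -(1 / p) := by ring
    rw [e, e']
    linarith
  · intro y hy
    have hy0 : (y : ZMod p) = 0 := by rwa [ZMod.natCast_eq_zero_iff]
    push_cast
    rw [sum_range_zmod (fun x => G x * G (x + (y : ZMod p) ^ 2)), sGG, hy0]
    have c3 : ∑ x, χ x * χ x ≤ p := by
      have := char_sq (p := p)
      simp only [χ]
      exact_mod_cast this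
    have c4 : (∑ x, χ x * χ x) / p ≤ 1 := by rwa [div_le_one (by linarith)]
    have : 0 < 1 / (p : ℝ) := by positivity
    have c5 : χ 0 = 0 := by simp [χ]
    have c6 : δ 0 = 1 := by simp [δ]
    simp only [ne_eq, OfNat.ofNat_ne_zero, not_false_eq_true, zero_pow, add_zero, neg_zero, c5, c6,
      zero_div, sub_zero]
    linarith

theorem cross {p q : ℕ} (hp : 0 < p) (hq : 0 < q) (hpq : p.Coprime q) {g g' : ℕ → ℝ}
    (hg : Wave p g) (hg' : Wave q g') (h : ℕ) : ∑ x ∈ range (p * q), g x * g' (x + h) = 0 := by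
  haveI : NeZero p := ⟨hp.ne'⟩
  haveI : NeZero q := ⟨hq.ne'⟩
  haveI : NeZero (p * q) := ⟨by positivity⟩
  obtain ⟨G, hG⟩ := hg.factor
  obtain ⟨G', hG'⟩ := hg'.factor
  have e := ZMod.chineseRemainder hpq
  have h1 : ∀ x : ℕ, g x * g' (x + h) = G (e (x : ZMod (p * q))).1 *
      G' ((e (x : ZMod (p * q))).2 + h) := by
    intro x
    rw [hG, hG', map_natCast]
    simp
  simp only [h1]
  rw [sum_range_zmod (fun a => G (e a).1 * G' ((e a).2 + h)),
    Fintype.sum_equiv e.toEquiv (fun a => G (e a).1 * G' ((e a).2 + h)) (fun b => G b.1 * G' (b.2 + h)) (fun _ => rfl),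
    Fintype.sum_prod_type, ← sum_mul_sum univ univ G (fun b => G' (b + h))]
  have : ∑ a, G a = 0 := by
    rw [← sum_range_zmod G, ← hg.mean]; exact sum_congr rfl fun x _ => (hG x).symm
  rw [this, zero_mul]

theorem Wave.per {p : ℕ} {g : ℕ → ℝ} (hg : Wave p g) (x k : ℕ) : g (x + p * k) = g x := by
  obtain ⟨G, hG⟩ := hg.factor
  rw [hG, hG]; simp

theorem shift_sum {m : ℕ} {v : ℕ → ℝ} (hv : ∀ x, v (x + m) = v x) (k : ℕ) :
    ∑ x ∈ range m, v (k + x) = ∑ x ∈ range m, v x := by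
  induction k with
  | zero => simp
  | succ k ih =>
    have h1 := sum_range_succ (fun x => v (k + x)) m
    have h2 := sum_range_succ' (fun x => v (k + x)) m
    rw [hv k] at h1
    simp only [add_zero] at h2
    rw [← ih]
    have : ∑ x ∈ range m, v (k + 1 + x) = ∑ x ∈ range m, v (k + (x + 1)) :=
      sum_congr rfl fun x _ => by congr 1; ring
    linarith

theorem periodic_sum {m : ℕ} (hm : 0 < m) {v : ℕ → ℝ} (hv : ∀ x, v (x + m) = v x) {B μ : ℝ}
    (hB : ∀ x, v x ≤ B) (hμ : ∑ x ∈ range m, v x ≤ m * μ) (hBμ : 0 ≤ B - μ) (k N : ℕ) :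
    ∑ x ∈ range N, v (k + x) ≤ N * μ + m * (B - μ) := by
  induction N using Nat.strong_induction_on with
  | _ N ih =>
    by_cases hN : N < m
    · calc ∑ x ∈ range N, v (k + x) ≤ ∑ _x ∈ range N, B := sum_le_sum fun x _ => hB _
        _ = N * μ + N * (B - μ) := by simp; ring
        _ ≤ _ := by
          have : (N : ℝ) ≤ m := by exact_mod_cast hN.le
          nlinarith
    · obtain ⟨N', rfl⟩ : ∃ N', N = N' + m := ⟨N - m, by omega⟩
      rw [sum_range_add]
      have h1 := ih N' (by omega)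
      have h2 := shift_sum hv (k + N')
      simp only [add_assoc] at h2
      rw [h2]
      push_cast
      nlinarith

section rounding

variable {α : Type} [DecidableEq α]

noncomputable def wt (U : Finset α) (F : α → ℝ) (A : Finset α) : ℝ :=
  (∏ x ∈ A, F x) * ∏ x ∈ U \ A, (1 - F x)

def inc (S A : Finset α) : ℝ := if S ⊆ A then 1 else 0

theorem wt_inc (U : Finset α) (F : α → ℝ) {S : Finset α} (hS : S ⊆ U) :
    ∑ A ∈ U.powerset, wt U F A * inc S A = ∏ x ∈ S, F x := by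
  have h1 := prod_add F (fun x => if x ∈ S then 0 else 1 - F x) U
  have h2 : ∏ x ∈ U, (F x + if x ∈ S then 0 else 1 - F x) = ∏ x ∈ S, F x := by
    rw [← prod_subset hS (f := fun x => F x + if x ∈ S then 0 else 1 - F x)
      (fun x _ hx => by simp [hx])]
    exact prod_congr rfl fun x hx => by simp [hx]
  rw [← h2, h1]
  refine sum_congr rfl fun A hA => ?_
  unfold wt inc
  split_ifs with h
  · rw [mul_one]
    congr 1
    refine prod_congr rfl fun x hx => ?_
    rw [if_neg fun hx' => (mem_sdiff.1 hx).2 (h hx')]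
  · obtain ⟨x, hx, hxA⟩ := not_subset.1 h
    rw [mul_zero, prod_eq_zero (s := U \ A) (mem_sdiff.2 ⟨hS hx, hxA⟩) (by simp [hx]), mul_zero]

theorem wt_sum (U : Finset α) (F : α → ℝ) : ∑ A ∈ U.powerset, wt U F A = 1 := by
  have := wt_inc U F (empty_subset U)
  simpa [inc] using this

theorem inc_mul (S T A : Finset α) : inc S A * inc T A = inc (S ∪ T) A := by
  unfold inc
  by_cases h1 : S ⊆ A <;> by_cases h2 : T ⊆ A <;> simp [h1, h2, union_subset_iff]

theorem variance {ι : Type} (U : Finset α) (F : α → ℝ) (hF0 : ∀ x, 0 ≤ F x) (hF1 : ∀ x, F x ≤ 1)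
    (I : Finset ι) (S : ι → Finset α) (hS : ∀ i ∈ I, S i ⊆ U) (d : ℕ)
    (hd : ∀ i ∈ I, (I.filter fun j => ¬ Disjoint (S i) (S j)).card ≤ d) :
    ∑ A ∈ U.powerset, wt U F A * (∑ i ∈ I, (inc (S i) A - ∏ x ∈ S i, F x)) ^ 2
      ≤ I.card * d := by
  have e : ∀ A, wt U F A * (∑ i ∈ I, (inc (S i) A - ∏ x ∈ S i, F x)) ^ 2
      = ∑ i ∈ I, ∑ j ∈ I, (wt U F A * inc (S i ∪ S j) A
        - (∏ x ∈ S j, F x) * (wt U F A * inc (S i) A)
        - (∏ x ∈ S i, F x) * (wt U F A * inc (S j) A)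
        + (∏ x ∈ S i, F x) * (∏ x ∈ S j, F x) * wt U F A) := by
    intro A
    rw [sq, sum_mul_sum, mul_sum]
    refine sum_congr rfl fun i _ => ?_
    rw [mul_sum]
    refine sum_congr rfl fun j _ => ?_
    rw [← inc_mul]; ring
  simp only [e]
  rw [sum_comm]
  calc _ ≤ ∑ _i ∈ I, (d : ℝ) := ?_
    _ = _ := by simp
  refine sum_le_sum fun i hi => ?_
  rw [sum_comm]
  calc _ ≤ ∑ j ∈ I, (if ¬ Disjoint (S i) (S j) then (1 : ℝ) else 0) := ?_
    _ = ((I.filter fun j => ¬ Disjoint (S i) (S j)).card : ℝ) := by rw [sum_boole]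
    _ ≤ d := by exact_mod_cast hd i hi
  refine sum_le_sum fun j hj => ?_
  rw [sum_add_distrib, sum_sub_distrib, sum_sub_distrib, ← mul_sum, ← mul_sum, ← mul_sum,
    wt_inc U F (union_subset (hS i hi) (hS j hj)), wt_inc U F (hS i hi), wt_inc U F (hS j hj),
    wt_sum]
  by_cases h : Disjoint (S i) (S j)
  · rw [prod_union h, if_neg (not_not.2 h)]
    exact le_of_eq (by ring)
  · rw [if_pos h]
    have h1 : ∏ x ∈ S i ∪ S j, F x ≤ 1 := prod_le_one (fun x _ => hF0 x) fun x _ => hF1 x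
    have h2 : 0 ≤ (∏ x ∈ S i, F x) * ∏ x ∈ S j, F x :=
      mul_nonneg (prod_nonneg fun x _ => hF0 x) (prod_nonneg fun x _ => hF0 x)
    nlinarith

theorem exists_le_of_wt (U : Finset α) (F : α → ℝ) (hF0 : ∀ x, 0 ≤ F x) (hF1 : ∀ x, F x ≤ 1)
    (Φ : Finset α → ℝ) (B : ℝ) (h : ∑ A ∈ U.powerset, wt U F A * Φ A ≤ B) :
    ∃ A ⊆ U, Φ A ≤ B := by
  by_contra hc
  push Not at hc
  have hw : ∀ A, 0 ≤ wt U F A := fun A =>
    mul_nonneg (prod_nonneg fun x _ => hF0 x) (prod_nonneg fun x _ => by linarith [hF1 x])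
  obtain ⟨A, hA, hA0⟩ : ∃ A ∈ U.powerset, wt U F A ≠ 0 :=
    exists_ne_zero_of_sum_ne_zero (by rw [wt_sum]; norm_num)
  have : ∑ A ∈ U.powerset, wt U F A * B < ∑ A ∈ U.powerset, wt U F A * Φ A := by
    refine sum_lt_sum (fun A hA => mul_le_mul_of_nonneg_left (hc A (mem_powerset.1 hA)).le (hw A))
      ⟨A, hA, mul_lt_mul_of_pos_left (hc A (mem_powerset.1 hA)) (lt_of_le_of_ne (hw A) hA0.symm)⟩
  rw [← sum_mul, wt_sum, one_mul] at this
  linarith

end rounding

theorem rounding (F : ℕ → ℝ) (hF0 : ∀ x, 0 ≤ F x) (hF1 : ∀ x, F x ≤ 1) (M : ℕ) (hM : 1 ≤ M) :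
    ∃ A ⊆ range (M ^ 4), ∑ x ∈ range (M ^ 4), F x - 2 * (M : ℝ) ^ 3 ≤ A.card ∧
      ∀ y, 1 ≤ y → y < M ^ 2 → ((A.filter fun x => x + y ^ 2 ∈ A).card : ℝ) ≤
        ∑ x ∈ range (M ^ 4), F x * F (x + y ^ 2) + 2 * (M : ℝ) ^ 3 := by
  set U := range (M ^ 4) with hU
  let Y0 : Finset ℕ → ℝ := fun A => ∑ i ∈ U, (inc {i} A - ∏ x ∈ ({i} : Finset ℕ), F x)
  let I : ℕ → Finset ℕ := fun y => U.filter fun x => x + y ^ 2 ∈ U
  let Y : ℕ → Finset ℕ → ℝ := fun y A =>
    ∑ i ∈ I y, (inc {i, i + y ^ 2} A - ∏ x ∈ ({i, i + y ^ 2} : Finset ℕ), F x)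
  have hM1 : (1 : ℝ) ≤ M := by exact_mod_cast hM
  have v0 : ∑ A ∈ U.powerset, wt U F A * Y0 A ^ 2 ≤ (M : ℝ) ^ 4 := by
    have := variance U F hF0 hF1 U (fun i => {i}) (fun i hi => by simpa using hi) 1 (by
      intro i _
      refine le_trans (card_le_card (t := {i}) ?_) (by simp)
      intro j hj
      simp only [mem_filter, disjoint_singleton, not_not] at hj
      simp [hj.2])
    refine this.trans (le_of_eq ?_)
    simp [hU]
  have v1 : ∀ y, ∑ A ∈ U.powerset, wt U F A * Y y A ^ 2 ≤ 3 * (M : ℝ) ^ 4 := by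
    intro y
    have := variance U F hF0 hF1 (I y) (fun i => {i, i + y ^ 2}) (by
      intro i hi
      simp only [I, mem_filter] at hi
      simp [insert_subset_iff, hi.1, hi.2]) 3 (by
      intro i _
      refine le_trans (card_le_card (t := {i, i + y ^ 2, i - y ^ 2}) ?_) card_le_three
      intro j hj
      simp only [mem_filter, disjoint_insert_left, disjoint_singleton_left, mem_insert,
        mem_singleton] at hj ⊢
      omega)
    refine this.trans ?_
    have h2 : ((I y).card : ℝ) ≤ (M : ℝ) ^ 4 := by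
      have : (I y).card ≤ M ^ 4 := (card_filter_le _ _).trans (by simp [hU])
      exact_mod_cast this
    push_cast
    linarith
  obtain ⟨A, hAU, hA⟩ := exists_le_of_wt U F hF0 hF1
    (fun A => Y0 A ^ 2 + ∑ y ∈ range (M ^ 2), Y y A ^ 2) ((2 * (M : ℝ) ^ 3) ^ 2) (by
      simp only [mul_add, mul_sum, sum_add_distrib]
      rw [sum_comm]
      have h1 : ∑ y ∈ range (M ^ 2), ∑ A ∈ U.powerset, wt U F A * Y y A ^ 2
          ≤ ∑ _y ∈ range (M ^ 2), 3 * (M : ℝ) ^ 4 := sum_le_sum fun y _ => v1 y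
      simp only [sum_const, card_range, nsmul_eq_mul] at h1
      push_cast at h1
      have h2 : (M : ℝ) ^ 4 ≤ (M : ℝ) ^ 6 := pow_le_pow_right₀ hM1 (by norm_num)
      nlinarith)
  have hs : 0 ≤ ∑ y ∈ range (M ^ 2), Y y A ^ 2 := sum_nonneg fun y _ => sq_nonneg _
  refine ⟨A, hAU, ?_, ?_⟩
  · have h1 : |Y0 A| ≤ 2 * (M : ℝ) ^ 3 := abs_le_of_sq_le_sq' (by linarith) (by positivity) |> abs_le.2
    have h2 : Y0 A = A.card - ∑ x ∈ U, F x := by
      simp only [Y0, sum_sub_distrib, prod_singleton, inc, singleton_subset_iff]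
      rw [sum_boole, filter_mem_eq_inter, inter_eq_right.2 hAU]
    linarith [(abs_le.1 h1).1]
  · intro y hy1 hy2
    have h0 : Y y A ^ 2 ≤ ∑ y ∈ range (M ^ 2), Y y A ^ 2 :=
      single_le_sum (f := fun y => Y y A ^ 2) (fun y _ => sq_nonneg _) (mem_range.2 hy2)
    have h1 : |Y y A| ≤ 2 * (M : ℝ) ^ 3 :=
      abs_le_of_sq_le_sq' (by nlinarith [sq_nonneg (Y0 A)]) (by positivity) |> abs_le.2
    have hy3 : 0 < y ^ 2 := by positivity
    have h2 : Y y A = (A.filter fun x => x + y ^ 2 ∈ A).card - ∑ x ∈ I y, F x * F (x + y ^ 2) := by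
      simp only [Y, sum_sub_distrib, inc]
      rw [sum_boole]
      congr 1
      · congr 2
        ext x
        simp only [I, mem_filter, insert_subset_iff, singleton_subset_iff]
        exact ⟨fun h => h.2, fun h => ⟨⟨hAU h.1, hAU h.2⟩, h⟩⟩
      · exact sum_congr rfl fun x _ => prod_pair (by omega)
    have h3 : ∑ x ∈ I y, F x * F (x + y ^ 2) ≤ ∑ x ∈ U, F x * F (x + y ^ 2) :=
      sum_le_sum_of_subset_of_nonneg (filter_subset _ _) fun x _ _ => mul_nonneg (hF0 _) (hF0 _)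
    linarith [(abs_le.1 h1).2]

theorem log_prod_le (P : Finset ℕ) (hP : ∀ p ∈ P, p.Prime) {y : ℕ} (hy : 1 ≤ y) :
    ∑ p ∈ P.filter (· ∣ y), Real.log p ≤ Real.log y := by
  rw [← Real.log_prod (fun p hp => by exact_mod_cast (hP p (mem_filter.1 hp).1).ne_zero)]
  refine Real.log_le_log (prod_pos fun p hp => by exact_mod_cast (hP p (mem_filter.1 hp).1).pos) ?_
  have : ∏ p ∈ P.filter (· ∣ y), p ∣ y :=
    Finset.prod_primes_dvd y (fun p hp => (hP p (mem_filter.1 hp).1).prime)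
      fun p hp => (mem_filter.1 hp).2
  rw [← Nat.cast_prod]
  exact_mod_cast Nat.le_of_dvd hy this

theorem exists_F (X : ℕ) (hX : 1 ≤ X) (P : Finset ℕ) (hP : ∀ p ∈ P, p.Prime ∧ p % 4 = 1 ∧ p ≤ X)
    (N : ℕ) : ∃ F : ℕ → ℝ, (∀ x, 0 ≤ F x) ∧ (∀ x, F x ≤ 1) ∧
      (N : ℝ) / 2 - X ≤ ∑ x ∈ range N, F x ∧ ∀ y, 1 ≤ y →
      ∑ x ∈ range N, F x * F (x + y ^ 2) ≤ N / 4 + 2 * (X : ℝ) ^ 2 +
        N * ((4 * Real.log y - 2 * ∑ p ∈ P, Real.log p / √p) / (36 * (X : ℝ) ^ 4)) := by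
  have hw : ∀ p, p ∈ P → ∃ g, Wave p g := fun p hp => exists_wave (hP p hp).1 (hP p hp).2.1
  choose! g hg using hw
  have hX1 : (1 : ℝ) ≤ X := by exact_mod_cast hX
  let c : ℕ → ℝ := fun p => √(p * Real.log p) / (6 * (X : ℝ) ^ 2)
  have hc0 : ∀ p, 0 ≤ c p := fun p => by positivity
  have hpX : ∀ p ∈ P, (p : ℝ) ≤ X := fun p hp => by exact_mod_cast (hP p hp).2.2
  have hp0 : ∀ p ∈ P, 0 < p := fun p hp => (hP p hp).1.pos
  have hp1 : ∀ p ∈ P, (1 : ℝ) ≤ p := fun p hp => by exact_mod_cast hp0 p hp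
  have hcs : ∑ p ∈ P, c p ≤ 1 / 6 := by
    have h1 : P.card ≤ X := by
      have : P ⊆ Icc 1 X := fun p hp => mem_Icc.2 ⟨hp0 p hp, (hP p hp).2.2⟩
      simpa using card_le_card this
    have h2 : (P.card : ℝ) ≤ X := by exact_mod_cast h1
    calc ∑ p ∈ P, c p ≤ ∑ _p ∈ P, X / (6 * (X : ℝ) ^ 2) := by
          refine sum_le_sum fun p hp => div_le_div_of_nonneg_right ?_ (by positivity)
          refine Real.sqrt_le_iff.2 ⟨by positivity, ?_⟩
          have h3 : Real.log p ≤ p := (Real.log_le_sub_one_of_pos (by linarith [hp1 p hp])).trans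
            (by linarith)
          have h4 := hpX p hp
          have h5 := hp1 p hp
          nlinarith
      _ = P.card * (X / (6 * (X : ℝ) ^ 2)) := by simp
      _ ≤ X * (X / (6 * (X : ℝ) ^ 2)) := mul_le_mul_of_nonneg_right h2 (by positivity)
      _ = 1 / 6 := by field_simp
  have hcs0 : 0 ≤ ∑ p ∈ P, c p := sum_nonneg fun p _ => hc0 p
  let G : ℕ → ℝ := fun x => ∑ p ∈ P, c p * g p x
  have hG : ∀ x, |G x| ≤ 1 / 2 := by
    intro x
    calc |G x| ≤ ∑ p ∈ P, |c p * g p x| := abs_sum_le_sum_abs _ _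
      _ ≤ ∑ p ∈ P, c p * 3 := sum_le_sum fun p hp => by
          rw [abs_mul, abs_of_nonneg (hc0 p)]
          exact mul_le_mul_of_nonneg_left ((hg p hp).bound x) (hc0 p)
      _ ≤ 1 / 2 := by rw [← sum_mul]; linarith
  have hper : ∀ p ∈ P, ∀ x, g p (x + p) = g p x := fun p hp x => by
    simpa using (hg p hp).per x 1
  have hlin : ∀ k, |∑ x ∈ range N, G (k + x)| ≤ X / 2 := by
    intro k
    have e : ∑ x ∈ range N, G (k + x) = ∑ p ∈ P, c p * ∑ x ∈ range N, g p (k + x) := by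
      simp only [G, mul_sum]; rw [sum_comm]
    rw [e]
    calc _ ≤ ∑ p ∈ P, |c p * ∑ x ∈ range N, g p (k + x)| := abs_sum_le_sum_abs _ _
      _ ≤ ∑ p ∈ P, c p * (3 * X) := sum_le_sum fun p hp => by
          rw [abs_mul, abs_of_nonneg (hc0 p)]
          refine mul_le_mul_of_nonneg_left ?_ (hc0 p)
          have h1 := periodic_sum (hp0 p hp) (hper p hp) (B := 3) (μ := 0)
            (fun x => (abs_le.1 ((hg p hp).bound x)).2) (by simp [(hg p hp).mean]) (by norm_num) k N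
          have h2 := periodic_sum (v := fun x => - g p x) (hp0 p hp) (fun x => by rw [hper p hp])
            (B := 3) (μ := 0) (fun x => by linarith [(abs_le.1 ((hg p hp).bound x)).1])
            (by simp [(hg p hp).mean]) (by norm_num) k N
          rw [sum_neg_distrib] at h2
          have := hpX p hp
          rw [abs_le]
          constructor <;> linarith
      _ ≤ X / 2 := by rw [← sum_mul]; nlinarith
  refine ⟨fun x => 1 / 2 + G x, fun x => by linarith [(abs_le.1 (hG x)).1],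
    fun x => by linarith [(abs_le.1 (hG x)).2], ?_, ?_⟩
  · have := (abs_le.1 (hlin 0)).1
    simp only [zero_add] at this
    rw [sum_add_distrib, sum_const, card_range, nsmul_eq_mul]
    linarith
  intro y hy
  let μ : ℕ → ℝ := fun p => if p ∣ y then 2 / p else -2 / √p / p
  have hprod : ∀ p ∈ P, ∀ q ∈ P, ∀ x z, g p x * g q z ≤ 9 := by
    intro p hp q hq x z
    refine (le_abs_self _).trans ?_
    rw [abs_mul]
    have := mul_le_mul ((hg p hp).bound x) ((hg q hq).bound z) (abs_nonneg _) (by norm_num)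
    linarith
  have hquad : ∀ p ∈ P, ∀ q ∈ P, ∑ x ∈ range N, g p x * g q (x + y ^ 2)
      ≤ (if q = p then N * μ p else 0) + 11 * (X : ℝ) ^ 2 := by
    intro p hp q hq
    have a1 := hpX p hp
    have a2 := hpX q hq
    have a3 := hp1 p hp
    have a4 := hp1 q hq
    split_ifs with hqp
    · subst hqp
      have hs1 : 1 ≤ √(q : ℝ) := Real.one_le_sqrt.2 a3
      have hμ : -2 ≤ q * μ q ∧ q * μ q ≤ 2 ∧
          ∑ x ∈ range q, g q x * g q (x + y ^ 2) ≤ q * μ q := by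
        simp only [μ]
        split_ifs with hd
        · rw [mul_div_cancel₀ _ (by linarith)]
          exact ⟨by norm_num, le_rfl, (hg q hq).diag y hd⟩
        · rw [mul_div_cancel₀ _ (by linarith)]
          refine ⟨?_, ?_, (hg q hq).corr y hd⟩
          · rw [le_div_iff₀ (by linarith)]; linarith
          · rw [div_le_iff₀ (by linarith)]; linarith
      have h1 := periodic_sum (v := fun x => g q x * g q (x + y ^ 2)) (hp0 q hq)
        (fun x => by rw [hper q hq, add_right_comm, hper q hq]) (B := 9) (μ := μ q)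
        (fun x => hprod q hq q hq _ _) hμ.2.2 (by nlinarith [hμ.2.1]) 0 N
      simp only [zero_add] at h1
      nlinarith [hμ.1]
    · have hcop : p.Coprime q := (Nat.coprime_primes (hP p hp).1 (hP q hq).1).2 (Ne.symm hqp)
      have h1 := periodic_sum (m := p * q) (v := fun x => g p x * g q (x + y ^ 2))
        (Nat.mul_pos (hp0 p hp) (hp0 q hq))
        (fun x => by rw [(hg p hp).per, add_right_comm, mul_comm p q, (hg q hq).per])
        (B := 9) (μ := 0) (fun x => hprod p hp q hq _ _)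
        (by rw [cross (hp0 p hp) (hp0 q hq) hcop (hg p hp) (hg q hq)]; simp) (by norm_num) 0 N
      simp only [zero_add] at h1
      push_cast at h1
      have : (p : ℝ) * q ≤ X * X := mul_le_mul a1 a2 (by linarith) (by linarith)
      nlinarith
  have hGG : ∑ x ∈ range N, G x * G (x + y ^ 2) ≤ N * ∑ p ∈ P, c p ^ 2 * μ p + (X : ℝ) ^ 2 := by
    have e : ∑ x ∈ range N, G x * G (x + y ^ 2)
        = ∑ p ∈ P, ∑ q ∈ P, c p * c q * ∑ x ∈ range N, g p x * g q (x + y ^ 2) := by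
      have e1 : ∀ x, G x * G (x + y ^ 2)
          = ∑ p ∈ P, ∑ q ∈ P, c p * c q * (g p x * g q (x + y ^ 2)) := by
        intro x
        simp only [G]
        rw [sum_mul_sum]
        exact sum_congr rfl fun p _ => sum_congr rfl fun q _ => by ring
      simp only [e1, mul_sum]
      rw [sum_comm]
      refine sum_congr rfl fun p _ => ?_
      rw [sum_comm]
    rw [e]
    calc _ ≤ ∑ p ∈ P, ∑ q ∈ P, c p * c q * ((if q = p then N * μ p else 0) + 11 * (X : ℝ) ^ 2) :=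
          sum_le_sum fun p hp => sum_le_sum fun q hq =>
            mul_le_mul_of_nonneg_left (hquad p hp q hq) (mul_nonneg (hc0 p) (hc0 q))
      _ = N * ∑ p ∈ P, c p ^ 2 * μ p + (∑ p ∈ P, c p) * (∑ p ∈ P, c p) * (11 * (X : ℝ) ^ 2) := by
          rw [sum_mul_sum, sum_mul, mul_sum, ← sum_add_distrib]
          refine sum_congr rfl fun p hp => ?_
          simp only [mul_add, sum_add_distrib, mul_ite, mul_zero, sum_ite_eq', if_pos hp, sum_mul]
          ring
      _ ≤ _ := by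
          have : (∑ p ∈ P, c p) * (∑ p ∈ P, c p) ≤ 1 / 6 * (1 / 6) :=
            mul_le_mul hcs hcs hcs0 (by norm_num)
          nlinarith [sq_nonneg (X : ℝ)]
  have hdiag : ∑ p ∈ P, c p ^ 2 * μ p
      ≤ (4 * Real.log y - 2 * ∑ p ∈ P, Real.log p / √p) / (36 * (X : ℝ) ^ 4) := by
    have h1 := log_prod_le P (fun p hp => (hP p hp).1) hy
    rw [sum_filter] at h1
    rw [le_div_iff₀ (by positivity), sum_mul]
    calc _ ≤ ∑ p ∈ P, (4 * (if p ∣ y then Real.log p else 0) - 2 * (Real.log p / √p)) := ?_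
      _ ≤ _ := by rw [sum_sub_distrib, ← mul_sum, ← mul_sum]; linarith
    refine sum_le_sum fun p hp => ?_
    have a3 := hp1 p hp
    have hl : 0 ≤ Real.log p := Real.log_nonneg a3
    have hs1 : 1 ≤ √(p : ℝ) := Real.one_le_sqrt.2 a3
    have e : c p ^ 2 * μ p * (36 * (X : ℝ) ^ 4) = Real.log p * (p * μ p) := by
      simp only [c]
      rw [div_pow, Real.sq_sqrt (by positivity)]
      field_simp
      ring
    rw [e]
    simp only [μ]
    split_ifs with hd
    · rw [mul_div_cancel₀ _ (by linarith)]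
      have : Real.log p / √p ≤ Real.log p := div_le_self hl hs1
      linarith
    · rw [mul_div_cancel₀ _ (by linarith)]
      exact le_of_eq (by ring)
  have e : ∑ x ∈ range N, (1 / 2 + G x) * (1 / 2 + G (x + y ^ 2)) = N / 4 +
      (1 / 2) * ∑ x ∈ range N, G (0 + x) + (1 / 2) * ∑ x ∈ range N, G (y ^ 2 + x) +
        ∑ x ∈ range N, G x * G (x + y ^ 2) := by
    rw [mul_sum, mul_sum, show (N : ℝ) / 4 = ∑ _x ∈ range N, (1 / 4 : ℝ) by simp; ring,
      ← sum_add_distrib, ← sum_add_distrib, ← sum_add_distrib]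
    refine sum_congr rfl fun x _ => ?_
    rw [zero_add, add_comm (y ^ 2) x]
    ring
  rw [e]
  have b1 := (abs_le.1 (hlin 0)).2
  have b2 := (abs_le.1 (hlin (y ^ 2))).2
  have b3 := mul_le_mul_of_nonneg_left hdiag (Nat.cast_nonneg (α := ℝ) N)
  nlinarith

theorem core (X M : ℕ) (hX : 1 ≤ X) (P : Finset ℕ) (hP : ∀ p ∈ P, p.Prime ∧ p % 4 = 1 ∧ p ≤ X)
    (hS : 8 * Real.log M ≤ ∑ p ∈ P, Real.log p / √p) (hM : 504 * X ^ 4 < M) (ε : ℝ)
    (hε : ε ≤ 1 / (72 * (X : ℝ) ^ 4)) :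
    ∃ A ⊆ range (M ^ 4), A.Nonempty ∧ ∀ y, 1 ≤ y → ((A.filter fun x => x + y ^ 2 ∈ A).card : ℝ) <
      (((A.card : ℝ) / (M ^ 4 : ℕ)) ^ 2 - ε) * (M ^ 4 : ℕ) := by
  obtain ⟨F, hF0, hF1, hF2, hF3⟩ := exists_F X hX P hP (M ^ 4)
  obtain ⟨A, hA1, hA2, hA3⟩ := rounding F hF0 hF1 M (by omega)
  have hX1 : (1 : ℝ) ≤ X := by exact_mod_cast hX
  have hM' : 504 * (X : ℝ) ^ 4 < M := by exact_mod_cast hM
  have hX4 : (1 : ℝ) ≤ (X : ℝ) ^ 4 := one_le_pow₀ hX1
  have hX2 : (X : ℝ) ^ 2 ≤ (X : ℝ) ^ 4 := pow_le_pow_right₀ hX1 (by norm_num)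
  have hX2' : (X : ℝ) ≤ (X : ℝ) ^ 2 := by nlinarith
  have hM1 : (504 : ℝ) ≤ M := by linarith
  have hM3 : (M : ℝ) ≤ (M : ℝ) ^ 3 := by
    have := pow_le_pow_right₀ (show (1 : ℝ) ≤ M by linarith) (show 1 ≤ 3 by norm_num)
    simpa using this
  push_cast at hF2 hF3 ⊢
  set T : ℝ := (M : ℝ) ^ 4 / (72 * (X : ℝ) ^ 4) with hT
  have hT1 : 7 * (M : ℝ) ^ 3 < T := by
    rw [hT, lt_div_iff₀ (by positivity)]
    have : 0 < (M : ℝ) ^ 3 := by positivity
    nlinarith
  have hT2 : T ≤ (M : ℝ) ^ 4 / 72 :=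
    div_le_div_of_nonneg_left (by positivity) (by norm_num) (by linarith)
  have hN : (0 : ℝ) < (M : ℝ) ^ 4 := by positivity
  have hR : (M : ℝ) ^ 4 / 4 - X - 2 * (M : ℝ) ^ 3 - T
      ≤ (((A.card : ℝ) / (M : ℝ) ^ 4) ^ 2 - ε) * (M : ℝ) ^ 4 := by
    have h1 : ε * (M : ℝ) ^ 4 ≤ T := by
      calc ε * (M : ℝ) ^ 4 ≤ 1 / (72 * (X : ℝ) ^ 4) * (M : ℝ) ^ 4 :=
            mul_le_mul_of_nonneg_right hε hN.le
        _ = T := by rw [hT]; ring
    have h2 : (A.card : ℝ) - (M : ℝ) ^ 4 / 4 ≤ ((A.card : ℝ) / (M : ℝ) ^ 4) ^ 2 * (M : ℝ) ^ 4 := by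
      have h3 : ((A.card : ℝ) / (M : ℝ) ^ 4) * (M : ℝ) ^ 4 = A.card := div_mul_cancel₀ _ hN.ne'
      nlinarith [mul_nonneg (sq_nonneg ((A.card : ℝ) / (M : ℝ) ^ 4 - 1 / 2)) hN.le]
    linarith
  refine ⟨A, hA1, ?_, ?_⟩
  · rw [← card_pos]
    have : (0 : ℝ) < A.card := by linarith
    exact_mod_cast this
  intro y hy
  by_cases hyM : y < M ^ 2
  · have h1 := hA3 y hy hyM
    have h2 := hF3 y hy
    have h3 : Real.log y ≤ 2 * Real.log M := by
      have : (y : ℝ) ≤ (M : ℝ) ^ 2 := by exact_mod_cast hyM.le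
      have h4 := Real.log_le_log (by exact_mod_cast hy) this
      rw [Real.log_pow] at h4
      exact_mod_cast h4
    have h4 : 1 ≤ Real.log M := by
      rw [Real.le_log_iff_exp_le (by linarith)]
      have := Real.exp_one_lt_d9
      linarith
    have h5 : (M : ℝ) ^ 4 * ((4 * Real.log y - 2 * ∑ p ∈ P, Real.log p / √p) / (36 * (X : ℝ) ^ 4))
        ≤ (M : ℝ) ^ 4 * (-1 / (36 * (X : ℝ) ^ 4)) :=
      mul_le_mul_of_nonneg_left (div_le_div_of_nonneg_right (by linarith) (by positivity)) hN.le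
    have h6 : (M : ℝ) ^ 4 * (-1 / (36 * (X : ℝ) ^ 4)) = -2 * T := by rw [hT]; ring
    linarith
  · have : (A.filter fun x => x + y ^ 2 ∈ A) = ∅ := by
      refine filter_eq_empty_iff.2 fun x _ hx => ?_
      have h1 := mem_range.1 (hA1 hx)
      have h2 : (M ^ 2) ^ 2 ≤ y ^ 2 := Nat.pow_le_pow_left (not_lt.1 hyM) 2
      rw [show (M ^ 2) ^ 2 = M ^ 4 by ring] at h2
      omega
    rw [this, card_empty, Nat.cast_zero]
    linarith

end Pool.Agent.H32.PopFS
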