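import Mathlib

set_option autoImplicit false

namespace Pool.Agent.H32.Pr

open Filter Topology Asymptotics
open scoped Nat ContDiff

def Flat (d : ℝ → ℝ) (x₀ : ℝ) : Prop := ∀ N : ℕ, d =O[𝓝[≠] x₀] fun x => (x - x₀) ^ N

def Tame (g : ℝ → ℝ) (x₀ : ℝ) : Prop := ∃ G, AnalyticAt ℝ G x₀ ∧ Flat (fun x => g x - G x) x₀

def Expn (g : ℝ → ℝ) (a : ℕ → ℝ) (x₀ : ℝ) : Prop :=
  ∀ N : ℕ, (fun x => g x - ∑ n ∈ Finset.range N, a n * (x - x₀) ^ n) =O[𝓝[≠] x₀] fun x => (x - x₀) ^ N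

theorem tz (x₀ : ℝ) : Tendsto (fun x => x - x₀) (𝓝[≠] x₀) (𝓝 0) := by
  have : Tendsto (fun x => x - x₀) (𝓝 x₀) (𝓝 (x₀ - x₀)) := (continuous_id.sub continuous_const).tendsto x₀
  rw [sub_self] at this
  exact this.mono_left nhdsWithin_le_nhds

theorem ne_ev (x₀ : ℝ) : ∀ᶠ x in 𝓝[≠] x₀, x - x₀ ≠ 0 := by
  filter_upwards [self_mem_nhdsWithin] with x hx
  exact sub_ne_zero.mpr hx

theorem div_O {d : ℝ → ℝ} {x₀ : ℝ} {N m : ℕ} (h : d =O[𝓝[≠] x₀] fun x => (x - x₀) ^ (N + m)) :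
    (fun x => d x / (x - x₀) ^ m) =O[𝓝[≠] x₀] fun x => (x - x₀) ^ N := by
  have := h.mul (isBigO_refl (fun x => ((x - x₀) ^ m)⁻¹) (𝓝[≠] x₀))
  refine this.congr' (Eventually.of_forall fun x => (div_eq_mul_inv _ _).symm) ?_
  filter_upwards [ne_ev x₀] with x hx
  rw [pow_add, mul_assoc, mul_inv_cancel₀ (pow_ne_zero _ hx), mul_one]

theorem tend_of_O {d : ℝ → ℝ} {x₀ : ℝ} {m : ℕ} (h : d =O[𝓝[≠] x₀] fun x => (x - x₀) ^ (m + 1)) :
    Tendsto (fun x => d x / (x - x₀) ^ m) (𝓝[≠] x₀) (𝓝 0) := by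
  rw [add_comm] at h
  refine (div_O h).trans_tendsto ?_
  simpa using tz x₀

theorem Flat.div {d : ℝ → ℝ} {x₀ : ℝ} (h : Flat d x₀) (m : ℕ) :
    Flat (fun x => d x / (x - x₀) ^ m) x₀ := fun N => div_O (h (N + m))

theorem Flat.tendsto {d : ℝ → ℝ} {x₀ : ℝ} (h : Flat d x₀) : Tendsto d (𝓝[≠] x₀) (𝓝 0) := by
  simpa using tend_of_O (h (0 + 1))

theorem Flat.of_O {d e : ℝ → ℝ} {x₀ : ℝ} (h : Flat d x₀) (he : e =O[𝓝[≠] x₀] d) : Flat e x₀ :=
  fun N => he.trans (h N)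

theorem coeff_zero {x₀ c : ℝ} {n : ℕ}
    (h : (fun x => c * (x - x₀) ^ n) =O[𝓝[≠] x₀] fun x => (x - x₀) ^ (n + 1)) : c = 0 := by
  have h1 := tend_of_O h
  have h2 : Tendsto (fun x => c * (x - x₀) ^ n / (x - x₀) ^ n) (𝓝[≠] x₀) (𝓝 c) := by
    refine tendsto_const_nhds.congr' ?_
    filter_upwards [ne_ev x₀] with x hx
    rw [mul_div_assoc, div_self (pow_ne_zero _ hx), mul_one]
  exact tendsto_nhds_unique h2 h1

theorem Expn.unique {g : ℝ → ℝ} {a b : ℕ → ℝ} {x₀ : ℝ} (ha : Expn g a x₀) (hb : Expn g b x₀) :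
    a = b := by
  funext n
  induction n using Nat.strong_induction_on with
  | _ n ih =>
    have h := (hb (n + 1)).sub (ha (n + 1))
    rw [← sub_eq_zero]
    apply coeff_zero (x₀ := x₀) (n := n)
    refine h.congr_left fun x => ?_
    have e : ∑ m ∈ Finset.range n, a m * (x - x₀) ^ m = ∑ m ∈ Finset.range n, b m * (x - x₀) ^ m :=
      Finset.sum_congr rfl fun m hm => by rw [ih m (Finset.mem_range.mp hm)]
    rw [Finset.sum_range_succ, Finset.sum_range_succ, e]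
    ring

theorem expn_smooth {g : ℝ → ℝ} {x₀ : ℝ} (hg : ContDiffAt ℝ ∞ g x₀) :
    Expn g (fun n => iteratedDeriv n g x₀ / n !) x₀ := by
  intro N
  have h1 : ContDiffAt ℝ N g x₀ := hg.of_le (by exact_mod_cast le_top)
  obtain ⟨u, hu, hgu⟩ := h1.contDiffOn le_rfl (by simp)
  obtain ⟨r, hr, hsub⟩ := Metric.mem_nhds_iff.mp hu
  have h2 := taylor_isLittleO (convex_ball x₀ r) (Metric.mem_ball_self hr) (hgu.mono hsub)
  rw [Metric.isOpen_ball.nhdsWithin_eq (Metric.mem_ball_self hr)] at h2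
  have h3 := h2.isBigO.mono (nhdsWithin_le_nhds (s := {x₀}ᶜ))
  have h4 := h3.add ((isBigO_refl (fun x => (x - x₀) ^ N) (𝓝[≠] x₀)).const_mul_left
    (iteratedDeriv N g x₀ / N !))
  refine h4.congr_left fun x => ?_
  rw [taylor_within_apply, Finset.sum_range_succ]
  have e : ∀ k, iteratedDerivWithin k g (Metric.ball x₀ r) x₀ = iteratedDeriv k g x₀ := fun k =>
    iteratedDerivWithin_of_isOpen Metric.isOpen_ball (Metric.mem_ball_self hr)
  simp only [e, smul_eq_mul]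
  rw [Finset.sum_congr rfl (g := fun n => iteratedDeriv n g x₀ / n ! * (x - x₀) ^ n)
    fun k _ => by ring]
  ring

theorem expn_series {G : ℝ → ℝ} {p : FormalMultilinearSeries ℝ ℝ ℝ} {x₀ : ℝ}
    (h : HasFPowerSeriesAt G p x₀) : Expn G p.coeff x₀ := by
  intro N
  have h1 := (h.isBigO_sub_partialSum_pow N).comp_tendsto (tz x₀)
  refine (h1.congr_left fun x => ?_).trans ?_
  · simp [FormalMultilinearSeries.partialSum, mul_comm]
  · refine IsBigO.of_bound 1 (Eventually.of_forall fun x => ?_)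
    simp

theorem Expn.of_flat {g G : ℝ → ℝ} {a : ℕ → ℝ} {x₀ : ℝ} (h : Expn G a x₀)
    (hf : Flat (fun x => g x - G x) x₀) : Expn g a x₀ := by
  intro N
  refine ((hf N).add (h N)).congr_left fun x => ?_
  ring

/-- positive radius of convergence of the Taylor series -/
def Bdd (a : ℕ → ℝ) : Prop := ∃ b : ℝ, 0 < b ∧ ∀ᶠ n in atTop, |a n| ≤ b ^ n

theorem tame_of_bdd {g : ℝ → ℝ} {a : ℕ → ℝ} {x₀ : ℝ} (h : Expn g a x₀) (hb : Bdd a) : Tame g x₀ := by
  obtain ⟨b, hb0, hb⟩ := hb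
  let p : FormalMultilinearSeries ℝ ℝ ℝ := FormalMultilinearSeries.ofScalars ℝ a
  have hr : 0 < p.radius := by
    refine lt_of_lt_of_le ?_ (p.le_radius_of_eventually_le (r := ⟨b⁻¹, by positivity⟩) 1 ?_)
    · exact ENNReal.coe_pos.mpr (show 0 < b⁻¹ by positivity)
    · filter_upwards [hb] with n hn
      have : ‖p n‖ = |a n| := by
        simp [p]
      rw [this]
      show |a n| * b⁻¹ ^ n ≤ 1
      rw [inv_pow, mul_inv_le_iff₀ (by positivity), one_mul]
      exact hn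
  have h1 : HasFPowerSeriesAt (fun x => p.sum (x - x₀)) p x₀ := by
    have := (p.hasFPowerSeriesOnBall hr).comp_sub x₀
    rw [zero_add] at this
    exact ⟨_, this⟩
  refine ⟨_, h1.analyticAt, fun N => ?_⟩
  have h2 := expn_series h1 N
  have e : p.coeff = a := by
    funext n
    simp [p]
  rw [e] at h2
  refine ((h N).sub h2).congr_left fun x => ?_
  ring

theorem bdd_of_tame {g : ℝ → ℝ} {a : ℕ → ℝ} {x₀ : ℝ} (h : Expn g a x₀) (ht : Tame g x₀) : Bdd a := by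
  obtain ⟨G, ⟨p, hp⟩, hf⟩ := ht
  rw [h.unique ((expn_series hp).of_flat hf)]
  obtain ⟨C, r, hC, hr, hb⟩ := p.le_mul_pow_of_radius_pos hp.radius_pos
  refine ⟨(C + 1) * r, by positivity, ?_⟩
  filter_upwards [eventually_ge_atTop 1] with n hn
  have h1 := hb n
  rw [FormalMultilinearSeries.norm_apply_eq_norm_coef, Real.norm_eq_abs] at h1
  refine h1.trans ?_
  rw [mul_pow]
  refine mul_le_mul_of_nonneg_right ?_ (by positivity)
  exact (by linarith : C ≤ C + 1).trans (le_self_pow₀ (by linarith) (by omega))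

theorem tame_comp {ψ h : ℝ → ℝ} {x₀ y₀ : ℝ} (hψ : AnalyticAt ℝ ψ y₀)
    (hc : Tendsto h (𝓝[≠] x₀) (𝓝 y₀)) (ht : Tame h x₀) : Tame (fun x => ψ (h x)) x₀ := by
  obtain ⟨G, hG, hf⟩ := ht
  have h1 : Tendsto G (𝓝[≠] x₀) (𝓝 y₀) := by
    have := hc.sub hf.tendsto
    simpa using this
  have h2 : G x₀ = y₀ :=
    tendsto_nhds_unique (hG.continuousAt.tendsto.mono_left nhdsWithin_le_nhds) h1
  refine ⟨fun x => ψ (G x), (h2 ▸ hψ).comp hG, hf.of_O ?_⟩
  have h3 := hψ.hasStrictFDerivAt.isBigO_sub.comp_tendsto (hc.prodMk_nhds h1)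
  exact h3

theorem tame_root {h : ℝ → ℝ} {a : ℕ → ℝ} {x₀ : ℝ} {j : ℕ} (hj : j ≠ 0) (he : Expn h a x₀)
    (ht : Tame (fun x => h x ^ j) x₀) : Tame h x₀ := by
  classical
  by_cases h0 : ∀ n, a n = 0
  · refine ⟨fun _ => 0, analyticAt_const, fun N => ?_⟩
    simpa [h0] using he N
  push Not at h0
  set p := Nat.find h0 with hp
  have hap : a p ≠ 0 := Nat.find_spec h0
  have hlt : ∀ n < p, a n = 0 := fun n hn => by simpa using Nat.find_min h0 hn
  let w : ℝ → ℝ := fun x => h x / (x - x₀) ^ p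
  have hw : Tendsto w (𝓝[≠] x₀) (𝓝 (a p)) := by
    have h1 := (tend_of_O (he (p + 1))).add_const (a p)
    rw [zero_add] at h1
    refine h1.congr' ?_
    filter_upwards [ne_ev x₀] with x hx
    rw [Finset.sum_range_succ, Finset.sum_eq_zero fun n hn => by
      rw [hlt n (Finset.mem_range.mp hn), zero_mul]]
    have := pow_ne_zero p hx
    simp only [w]
    field_simp
    ring
  obtain ⟨G, hG, hf⟩ := ht
  have hf2 : Flat (fun x => w x ^ j - G x / (x - x₀) ^ (p * j)) x₀ := by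
    refine (hf.div (p * j)).of_O (IsBigO.of_bound 1 (Eventually.of_forall fun x => ?_))
    simp only [w, div_pow, ← pow_mul, ← sub_div, one_mul, le_refl]
  have hG2 : Tendsto (fun x => G x / (x - x₀) ^ (p * j)) (𝓝[≠] x₀) (𝓝 (a p ^ j)) := by
    have := (hw.pow j).sub hf2.tendsto
    simpa using this
  have haj : a p ^ j ≠ 0 := pow_ne_zero _ hap
  have hne : ¬ ∀ᶠ x in 𝓝 x₀, G x = 0 := by
    intro h1
    apply haj
    refine tendsto_nhds_unique hG2 (tendsto_const_nhds.congr' ?_)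
    filter_upwards [nhdsWithin_le_nhds h1] with x hx
    rw [show G x = 0 from hx, zero_div]
  obtain ⟨m, v, hv, hv0, hGv⟩ := hG.exists_eventuallyEq_pow_smul_nonzero_iff.mpr hne
  have hvt : Tendsto v (𝓝[≠] x₀) (𝓝 (v x₀)) := hv.continuousAt.tendsto.mono_left nhdsWithin_le_nhds
  have hm : m = p * j := by
    rcases lt_trichotomy m (p * j) with hm | hm | hm
    · exfalso
      obtain ⟨k, hk⟩ := Nat.exists_eq_add_of_lt hm
      have h1 := hG2.mul ((tz x₀).pow (k + 1))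
      rw [zero_pow (by omega), mul_zero] at h1
      apply hv0
      refine tendsto_nhds_unique hvt (h1.congr' ?_)
      filter_upwards [nhdsWithin_le_nhds hGv, ne_ev x₀] with x hx hx0
      rw [show G x = _ from hx, hk, smul_eq_mul]
      field_simp
      ring
    · exact hm
    · exfalso
      obtain ⟨k, hk⟩ := Nat.exists_eq_add_of_lt hm
      have h1 := hvt.mul ((tz x₀).pow (k + 1))
      rw [zero_pow (by omega), mul_zero] at h1
      apply haj
      refine tendsto_nhds_unique hG2 (h1.congr' ?_)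
      filter_upwards [nhdsWithin_le_nhds hGv, ne_ev x₀] with x hx hx0
      rw [show G x = _ from hx, hk, smul_eq_mul]
      field_simp
      ring
  have hGv2 : ∀ᶠ x in 𝓝[≠] x₀, G x / (x - x₀) ^ (p * j) = v x := by
    filter_upwards [nhdsWithin_le_nhds hGv, ne_ev x₀] with x hx hx0
    rw [show G x = _ from hx, hm, smul_eq_mul]
    field_simp
  have htw : Tame (fun x => w x ^ j) x₀ := by
    refine ⟨v, hv, hf2.of_O (IsBigO.of_bound 1 ?_)⟩
    filter_upwards [hGv2] with x hx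
    rw [hx, one_mul]
  have hpa : AnalyticAt ℝ (fun y : ℝ => y ^ j) (a p) := analyticAt_id.pow j
  have hpd : deriv (fun y : ℝ => y ^ j) (a p) ≠ 0 := by
    simp [hap, hj]
  have h5 := tame_comp (hpa.analyticAt_localInverse hpd) (hw.pow j) htw
  have h6 := hw.eventually (hpa.hasStrictDerivAt.eventually_left_inverse hpd)
  obtain ⟨r, hr, hrf⟩ := h5
  refine ⟨fun x => (x - x₀) ^ p * r x, ((analyticAt_id.sub analyticAt_const).pow p).mul hr, ?_⟩
  refine hrf.of_O ?_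
  have h7 : (fun x => (x - x₀) ^ p) =O[𝓝[≠] x₀] fun _ => (1 : ℝ) := ((tz x₀).pow p).isBigO_one ℝ
  have h8 := h7.mul (isBigO_refl (fun x => w x - r x) (𝓝[≠] x₀))
  refine h8.congr' ?_ ?_
  · filter_upwards [ne_ev x₀] with x hx
    have := pow_ne_zero p hx
    simp only [w]
    field_simp
  · filter_upwards [h6] with x hx
    rw [hx, one_mul]

theorem tame_of_comp {E f : ℝ → ℝ} {x₀ : ℝ} (hf : ContDiffAt ℝ ∞ f x₀) (hE : AnalyticAt ℝ E (f x₀))
    (hne : ¬ ∀ᶠ y in 𝓝 (f x₀), E y - E (f x₀) = 0) (ht : Tame (fun x => E (f x)) x₀) :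
    Tame f x₀ := by
  set y₀ := f x₀ with hy
  obtain ⟨j, u, hu, hu0, hEu⟩ :=
    (hE.sub analyticAt_const).exists_eventuallyEq_pow_smul_nonzero_iff.mpr hne
  have hj : j ≠ 0 := by
    rintro rfl
    have := hEu.self_of_nhds
    simp at this
    exact hu0 this.symm
  let θ : ℝ → ℝ := fun y => (y - y₀) * Real.exp (Real.log (u y / u y₀) / j)
  have hq : AnalyticAt ℝ (fun y => Real.exp (Real.log (u y / u y₀) / j)) y₀ := by
    refine AnalyticAt.rexp (AnalyticAt.div_const ?_)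
    exact AnalyticAt.log (f := fun y => u y / u y₀) hu.div_const (by simp [hu0])
  have hθ : AnalyticAt ℝ θ y₀ := (analyticAt_id.sub analyticAt_const).mul hq
  have hθd : deriv θ y₀ ≠ 0 := by
    have := ((hasDerivAt_id y₀).sub_const y₀).mul hq.differentiableAt.hasDerivAt
    have e : deriv θ y₀ = _ := this.deriv
    rw [e]
    simp
  have hft : Tendsto f (𝓝[≠] x₀) (𝓝 y₀) := hf.continuousAt.tendsto.mono_left nhdsWithin_le_nhds
  have hpow : ∀ᶠ y in 𝓝 y₀, θ y ^ j = (E y - E y₀) / u y₀ := by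
    have hpos : ∀ᶠ y in 𝓝 y₀, 0 < u y / u y₀ := by
      have : Tendsto (fun y => u y / u y₀) (𝓝 y₀) (𝓝 (u y₀ / u y₀)) :=
        hu.continuousAt.tendsto.div_const _
      exact this.eventually (lt_mem_nhds (by simp [hu0]))
    filter_upwards [hEu, hpos] with y h1 h2
    have h1' : E y - E y₀ = (y - y₀) ^ j * u y := h1
    have hj' : (j : ℝ) ≠ 0 := by exact_mod_cast hj
    simp only [θ]
    rw [mul_pow, ← Real.exp_nat_mul, mul_div_cancel₀ _ hj', Real.exp_log h2, h1', mul_div_assoc]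
  have h1 : Tame (fun x => θ (f x) ^ j) x₀ := by
    obtain ⟨G, hG, hfl⟩ := ht
    refine ⟨fun x => (G x - E y₀) / u y₀, (hG.sub analyticAt_const).div_const, hfl.of_O ?_⟩
    refine ((isBigO_refl _ _).const_mul_left (u y₀)⁻¹).congr' ?_ EventuallyEq.rfl
    filter_upwards [hft.eventually hpow] with x hx
    rw [hx]
    ring
  have h2 : ContDiffAt ℝ ∞ (fun x => θ (f x)) x₀ :=
    (hθ.contDiffAt (n := ∞)).comp x₀ hf
  have h3 := tame_root hj (expn_smooth h2) h1
  have h4 := tame_comp (hθ.analyticAt_localInverse hθd) (hθ.continuousAt.tendsto.comp hft) h3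
  obtain ⟨r, hr, hrf⟩ := h4
  refine ⟨r, hr, hrf.of_O (IsBigO.of_bound 1 ?_)⟩
  filter_upwards [hft.eventually (hθ.hasStrictDerivAt.eventually_left_inverse hθd)] with x hx
  simp only [Function.comp]
  rw [hx, one_mul]

end Pool.Agent.H32.Pr
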