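import Mathlib
import Pool.Agent.H32.PrA

set_option autoImplicit false

namespace Pool.Agent.H32.Pr

open Filter Topology Asymptotics
open scoped Nat ContDiff

def bb : ℕ → ℕ
  | k => 2 * (∑ i : Fin k, bb i ^ (2 * k + 3) + 3 + k ^ (2 * k + 3) * (2 * k + 3)!)
  decreasing_by exact i.2

theorem bb_eq (k : ℕ) : bb k = 2 * (∑ i ∈ Finset.range k, bb i ^ (2 * k + 3) + 3
    + k ^ (2 * k + 3) * (2 * k + 3)!) := by
  rw [bb, Finset.sum_range (fun i => bb i ^ (2 * k + 3))]

theorem bb_ge (k : ℕ) : (2 : ℝ) ≤ bb k := by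
  have : 2 ≤ bb k := by rw [bb_eq]; omega
  exact_mod_cast this

noncomputable def tm (i : ℕ) (x : ℝ) : ℝ := ((bb i : ℝ) ^ (2 * i + 1))⁻¹ * Real.cos (bb i * x)

theorem tm_smooth (i : ℕ) : ContDiff ℝ ∞ (tm i) := by
  unfold tm
  fun_prop

theorem tm_deriv (i n : ℕ) (x : ℝ) : iteratedDeriv n (tm i) x =
    (bb i : ℝ) ^ n / (bb i : ℝ) ^ (2 * i + 1) * iteratedDeriv n Real.cos (bb i * x) := by
  unfold tm
  rw [iteratedDeriv_const_mul_field, iteratedDeriv_comp_const_mul Real.contDiff_cos]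
  ring

noncomputable def vv (n i : ℕ) : ℝ := (bb i : ℝ) ^ n / (bb i : ℝ) ^ (2 * i + 1)

theorem vv_nonneg (n i : ℕ) : 0 ≤ vv n i := by unfold vv; positivity

theorem tm_le (i n : ℕ) (x : ℝ) : |iteratedDeriv n (tm i) x| ≤ vv n i := by
  rw [tm_deriv, abs_mul, abs_of_nonneg (by positivity)]
  exact mul_le_of_le_one_right (vv_nonneg n i) (Real.abs_iteratedDeriv_cos_le_one n _)

theorem vv_le {n i j : ℕ} (h : n + j ≤ 2 * i + 1) : vv n i ≤ (1 / 2) ^ j := by
  have h2 := bb_ge i
  obtain ⟨d, hd⟩ := Nat.exists_eq_add_of_le h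
  unfold vv
  rw [hd, one_div, inv_pow, add_assoc, pow_add, div_mul_cancel_left₀ (by positivity)]
  refine inv_anti₀ (by positivity) ?_
  exact (pow_le_pow_left₀ (by norm_num) h2 j).trans (pow_le_pow_right₀ (by linarith) (by omega))

theorem vv_summable (n : ℕ) : Summable (vv n) := by
  rw [← summable_nat_add_iff n]
  refine Summable.of_nonneg_of_le (fun _ => vv_nonneg _ _) (fun i => vv_le (j := i) (by omega))
    summable_geometric_two

noncomputable def ff (x : ℝ) : ℝ := ∑' i, tm i x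

theorem ff_smooth : ContDiff ℝ ∞ ff :=
  contDiff_tsum (N := ⊤) (v := vv) tm_smooth (fun k _ => vv_summable k) fun k i x _ => by
    rw [norm_iteratedFDeriv_eq_norm_iteratedDeriv]
    exact tm_le i k x

theorem ff_deriv (n : ℕ) (x : ℝ) : iteratedDeriv n ff x = ∑' i, iteratedDeriv n (tm i) x := by
  have hb : ∀ (k i : ℕ) (x : ℝ), (k : ℕ∞) ≤ ⊤ → ‖iteratedFDeriv ℝ k (tm i) x‖ ≤ vv k i := by
    intro k i x _
    rw [norm_iteratedFDeriv_eq_norm_iteratedDeriv]
    exact tm_le i k x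
  have h := iteratedFDeriv_tsum_apply (N := ⊤) (v := vv) tm_smooth (fun k _ => vv_summable k) hb
    (k := n) le_top x
  have hs : Summable fun i => iteratedFDeriv ℝ n (tm i) x :=
    Summable.of_norm_bounded (vv_summable n) fun i => hb n i x le_top
  simp only [iteratedDeriv]
  unfold ff
  rw [h]
  exact (ContinuousMultilinearMap.apply ℝ (fun _ : Fin n => ℝ) ℝ (fun _ => 1)).map_tsum hs

theorem ff_lower (k n : ℕ) (hn : n ≤ 2 * k + 3) (x : ℝ) :
    |iteratedDeriv n (tm k) x| - ∑ i ∈ Finset.range k, (bb i : ℝ) ^ (2 * k + 3) - 2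
      ≤ |iteratedDeriv n ff x| := by
  have hs : Summable fun i => iteratedDeriv n (tm i) x :=
    Summable.of_norm_bounded (vv_summable n) fun i => tm_le i n x
  rw [ff_deriv, ← hs.sum_add_tsum_nat_add (k + 1), Finset.sum_range_succ]
  have h1 : |∑ i ∈ Finset.range k, iteratedDeriv n (tm i) x| ≤
      ∑ i ∈ Finset.range k, (bb i : ℝ) ^ (2 * k + 3) := by
    refine (Finset.abs_sum_le_sum_abs _ _).trans (Finset.sum_le_sum fun i _ => (tm_le i n x).trans ?_)
    have h2 := bb_ge i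
    unfold vv
    refine (div_le_self (by positivity) (one_le_pow₀ (by linarith))).trans ?_
    exact pow_le_pow_right₀ (by linarith) hn
  have h2 : |∑' i, iteratedDeriv n (tm (i + (k + 1))) x| ≤ 2 := by
    rw [← Real.norm_eq_abs]
    refine tsum_of_norm_bounded hasSum_geometric_two fun i => ?_
    exact (tm_le _ n x).trans (vv_le (by omega))
  set A := ∑ i ∈ Finset.range k, iteratedDeriv n (tm i) x
  set B := ∑' i, iteratedDeriv n (tm (i + (k + 1))) x
  set C := iteratedDeriv n (tm k) x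
  have : |C| ≤ |A + C + B| + |A| + |B| := by
    have e : C = (A + C + B) - A - B := by ring
    calc |C| = |(A + C + B) - A - B| := by rw [← e]
      _ ≤ |(A + C + B) - A| + |B| := abs_sub _ _
      _ ≤ _ := by linarith [abs_sub (A + C + B) A]
  linarith

theorem ff_big (k : ℕ) (x : ℝ) : ∃ n, k ≤ n ∧ n ≤ 2 * k + 3 ∧
    (k : ℝ) ^ (2 * k + 3) * (2 * k + 3)! < |iteratedDeriv n ff x| := by
  have hb : (bb k : ℝ) = 2 * (∑ i ∈ Finset.range k, (bb i : ℝ) ^ (2 * k + 3) + 3
      + (k : ℝ) ^ (2 * k + 3) * (2 * k + 3)!) := by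
    rw [bb_eq k]
    push_cast
    ring
  have h2 := bb_ge k
  by_cases h : 1 / 2 ≤ |Real.cos (bb k * x)|
  · refine ⟨2 * (k + 1), by omega, by omega, ?_⟩
    have h1 := ff_lower k (2 * (k + 1)) (by omega) x
    rw [tm_deriv, Real.iteratedDeriv_even_cos] at h1
    have e : (bb k : ℝ) ^ (2 * (k + 1)) / (bb k : ℝ) ^ (2 * k + 1) = bb k := by
      field_simp
      ring
    rw [e] at h1
    simp only [Pi.mul_apply, Pi.pow_apply, Pi.neg_apply, Pi.one_apply, abs_mul, abs_pow, abs_neg,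
      abs_one, one_pow, one_mul, Nat.abs_cast] at h1
    nlinarith
  · have h' : 1 / 2 ≤ |Real.sin (bb k * x)| := by
      by_contra h3
      push Not at h h3
      have := Real.sin_sq_add_cos_sq (bb k * x)
      rw [← sq_abs, ← sq_abs (Real.cos _)] at this
      nlinarith [abs_nonneg (Real.sin (bb k * x)), abs_nonneg (Real.cos (bb k * x))]
    refine ⟨2 * (k + 1) + 1, by omega, by omega, ?_⟩
    have h1 := ff_lower k (2 * (k + 1) + 1) (by omega) x
    rw [tm_deriv, Real.iteratedDeriv_odd_cos] at h1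
    have e : (bb k : ℝ) ^ (2 * (k + 1) + 1) / (bb k : ℝ) ^ (2 * k + 1) = bb k * bb k := by
      field_simp
      ring
    rw [e] at h1
    simp only [Pi.mul_apply, Pi.pow_apply, Pi.neg_apply, Pi.one_apply, abs_mul, abs_pow, abs_neg,
      abs_one, one_pow, one_mul, Nat.abs_cast] at h1
    have : (bb k : ℝ) * (1 / 2) ≤ bb k * bb k * |Real.sin (bb k * x)| :=
      mul_le_mul (by nlinarith) h' (by norm_num) (by positivity)
    linarith

theorem ff_not_tame (x : ℝ) : ¬ Tame ff x := by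
  intro ht
  obtain ⟨b, hb, h⟩ := bdd_of_tame (expn_smooth ff_smooth.contDiffAt) ht
  obtain ⟨N, hN⟩ := eventually_atTop.mp h
  obtain ⟨k, hk⟩ := exists_nat_ge (max b (N + 1))
  have hk1 : b ≤ k := (le_max_left _ _).trans hk
  have hk2 : N + 1 ≤ k := by exact_mod_cast (le_max_right _ _).trans hk
  obtain ⟨n, h1, h2, h3⟩ := ff_big k x
  have h4 := hN n (by omega)
  rw [abs_div, Nat.abs_cast, div_le_iff₀ (by positivity)] at h4
  have h5 : b ^ n ≤ (k : ℝ) ^ (2 * k + 3) :=
    (pow_le_pow_left₀ hb.le hk1 n).trans (pow_le_pow_right₀ (by exact_mod_cast (by omega : 1 ≤ k)) h2)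
  have h6 : (n ! : ℝ) ≤ (2 * k + 3)! := by exact_mod_cast Nat.factorial_le h2
  have := mul_le_mul h5 h6 (by positivity) (by positivity)
  linarith

/-- exponential sums with distinct nonzero frequencies are not locally constant -/
theorem expsum_ne {ι : Type} (s : Finset ι) (c l : ι → ℝ) (hl : Set.InjOn l s) (hl0 : ∀ i ∈ s, l i ≠ 0)
    {i₀ : ι} (hi : i₀ ∈ s) (hc : c i₀ ≠ 0) (y₀ : ℝ) :
    ¬ ∀ᶠ y in 𝓝 y₀, (∑ i ∈ s, c i * Real.exp (l i * y)) - (∑ i ∈ s, c i * Real.exp (l i * y₀)) = 0 := by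
  classical
  intro h
  have han : AnalyticOnNhd ℝ (fun y => (∑ i ∈ s, c i * Real.exp (l i * y)) -
      (∑ i ∈ s, c i * Real.exp (l i * y₀))) Set.univ := by
    intro y _
    fun_prop
  have h0 := han.eqOn_zero_of_preconnected_of_eventuallyEq_zero isPreconnected_univ
    (Set.mem_univ y₀) h
  let χ : ℝ → (Multiplicative ℝ →* ℝ) := fun t =>
    { toFun := fun y => Real.exp (t * y.toAdd)
      map_one' := by simp
      map_mul' := by intro a b; simp [mul_add, Real.exp_add] }
  have hχ : Function.Injective χ := by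
    intro t u e
    have := DFunLike.congr_fun e (Multiplicative.ofAdd 1)
    simpa [χ] using this
  have hli := (linearIndependent_monoidHom (Multiplicative ℝ) ℝ).comp χ hχ
  rw [linearIndependent_iff] at hli
  have key := hli (∑ i ∈ s, Finsupp.single (l i) (c i) -
    Finsupp.single 0 (∑ i ∈ s, c i * Real.exp (l i * y₀))) (by
      funext y
      have := h0 (Set.mem_univ y.toAdd)
      simp only [map_sub, map_sum, Finsupp.linearCombination_single]
      simpa [χ] using this)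
  have := DFunLike.congr_fun key (l i₀)
  simp only [Finsupp.coe_sub, Finsupp.coe_finsetSum, Pi.sub_apply, Finset.sum_apply,
    Finsupp.coe_zero, Pi.zero_apply] at this
  rw [Finsupp.single_eq_of_ne (hl0 i₀ hi), sub_zero, Finset.sum_eq_single i₀] at this
  · simp at this
    exact hc this
  · intro j hj hne
    exact Finsupp.single_eq_of_ne fun e => hne (hl hi hj e).symm
  · intro h
    exact absurd hi h

theorem expsum_not_bdd {ι : Type} (s : Finset ι) (c l : ι → ℝ) (hl : Set.InjOn l s)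
    (hl0 : ∀ i ∈ s, l i ≠ 0) {i₀ : ι} (hi : i₀ ∈ s) (hc : c i₀ ≠ 0) (x : ℝ) :
    ¬ Bdd fun n => iteratedDeriv n (fun x => ∑ i ∈ s, c i * Real.exp (l i * ff x)) x / n ! := by
  intro hb
  have hf := ff_smooth
  have hs : ContDiff ℝ ∞ fun x => ∑ i ∈ s, c i * Real.exp (l i * ff x) := by fun_prop
  refine ff_not_tame x (tame_of_comp (E := fun y => ∑ i ∈ s, c i * Real.exp (l i * y))
    hf.contDiffAt (by fun_prop) (expsum_ne s c l hl hl0 hi hc _)
    (tame_of_bdd (expn_smooth hs.contDiffAt) hb))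

end Pool.Agent.H32.Pr
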