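import Mathlib

namespace Pool.Agent.H32.PrimeSum

open ArithmeticFunction ArithmeticFunction.vonMangoldt Complex LSeries Finset

theorem two_sided : ∃ C : ℝ, 0 ≤ C ∧ ∀ x : ℝ, 1 < x → x ≤ 2 →
    |∑' n, residueClass (1 : ZMod 4) n / (n : ℝ) ^ x - (1 / 2) / (x - 1)| ≤ C := by
  have ha : IsUnit (1 : ZMod 4) := isUnit_one
  have H {x : ℝ} (hx : 1 < x) :
      ∑' n, residueClass (1 : ZMod 4) n / (n : ℝ) ^ x =
        (LFunctionResidueClassAux (1 : ZMod 4) x).re + ((Nat.totient 4 : ℕ) : ℝ)⁻¹ / (x - 1) := by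
    refine ofReal_injective ?_
    simp only [ofReal_tsum, ofReal_div, ofReal_cpow (Nat.cast_nonneg _), ofReal_natCast,
      ofReal_add, ofReal_inv, ofReal_sub, ofReal_one]
    simp_rw [← LFunctionResidueClassAux_real ha hx,
      eqOn_LFunctionResidueClassAux ha <| Set.mem_ofPred.mpr (ofReal_re x ▸ hx), sub_add_cancel,
      LSeries, term]
    refine tsum_congr fun n ↦ ?_
    split_ifs with hn
    · simp only [hn, residueClass_apply_zero, ofReal_zero, zero_div]
    · rfl
  have : ContinuousOn (fun x : ℝ ↦ (LFunctionResidueClassAux (1 : ZMod 4) x).re) (Set.Icc 1 2) :=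
    continuous_re.continuousOn.comp (t := Set.univ) (continuousOn_LFunctionResidueClassAux _)
      (fun ⦃x⦄ a ↦ trivial) |>.comp continuous_ofReal.continuousOn fun x hx ↦ by
        simpa only [Set.mem_ofPred_eq, ofReal_re] using hx.1
  obtain ⟨C, hC⟩ := isCompact_Icc.exists_bound_of_continuousOn this
  refine ⟨max C 0, le_max_right _ _, fun x h1 h2 => ?_⟩
  have h4 : ((Nat.totient 4 : ℕ) : ℝ)⁻¹ = 1 / 2 := by
    have : Nat.totient 4 = 2 := by decide
    rw [this]; norm_num
  rw [H h1, h4, add_sub_cancel_right]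
  exact (hC x ⟨h1.le, h2⟩).trans (le_max_left _ _)

theorem summ {x : ℝ} (hx : 1 < x) :
    Summable fun n : ℕ => residueClass (1 : ZMod 4) n / (n : ℝ) ^ x :=
  summable_real_of_abscissaOfAbsConv_lt <|
    (abscissaOfAbsConv_residueClass_le_one _).trans_lt <| mod_cast hx

section abstract

variable {a : ℕ → ℝ} {C : ℝ}

theorem lower (ha : ∀ n, 0 ≤ a n) (hs : ∀ x : ℝ, 1 < x → Summable fun n : ℕ => a n / (n : ℝ) ^ x)
    (hC0 : 0 ≤ C)
    (hC : ∀ x : ℝ, 1 < x → x ≤ 2 → |∑' n, a n / (n : ℝ) ^ x - (1 / 2) / (x - 1)| ≤ C)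
    (X : ℕ) (hX : 4 ≤ Real.log X) :
    Real.log X / 16 - 2 * C ≤ ∑ n ∈ range (X + 1), a n / n := by
  set L := Real.log X with hL
  have hL0 : 0 < L := by linarith
  have hX0 : (0 : ℝ) < X := by
    rcases Nat.eq_zero_or_pos X with rfl | h
    · simp at hL; linarith
    · exact_mod_cast h
  have h1 : 1 < 1 + 4 / L := by have : 0 < 4 / L := by positivity
                                linarith
  have h2 : 1 < 1 + 2 / L := by have : 0 < 2 / L := by positivity
                                linarith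
  have h3 : 4 / L ≤ 1 := by rw [div_le_one hL0]; exact hX
  have h4 : 2 / L ≤ 1 := by rw [div_le_one hL0]; linarith
  have b1 := (abs_le.1 (hC _ h1 (by linarith))).1
  have b2 := (abs_le.1 (hC _ h2 (by linarith))).2
  have e1 : (1 / 2) / (1 + 4 / L - 1) = L / 8 := by field_simp; ring
  have e2 : (1 / 2) / (1 + 2 / L - 1) = L / 4 := by field_simp; ring
  rw [e1] at b1
  rw [e2] at b2
  have hfin : HasSum (fun n : ℕ => if n ∈ range (X + 1) then a n / n else 0)
      (∑ n ∈ range (X + 1), a n / n) := by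
    have := hasSum_sum_of_ne_finset_zero (L := SummationFilter.unconditional ℕ)
      (f := fun n : ℕ => if n ∈ range (X + 1) then a n / n else 0)
      (s := range (X + 1)) (fun n hn => if_neg hn)
    rwa [sum_congr rfl fun n hn => if_pos hn] at this
  have key : ∑' n, a n / (n : ℝ) ^ (1 + 4 / L) ≤ ∑ n ∈ range (X + 1), a n / n +
      (1 / 4) * ∑' n, a n / (n : ℝ) ^ (1 + 2 / L) := by
    refine hasSum_le ?_ (hs _ h1).hasSum (hfin.add ((hs _ h2).hasSum.mul_left (1 / 4)))
    intro n
    have han := ha n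
    rcases Nat.eq_zero_or_pos n with rfl | hn
    · simp [Real.zero_rpow (show (1 + 4 / L) ≠ 0 by linarith),
        Real.zero_rpow (show (1 + 2 / L) ≠ 0 by linarith)]
    have hn1 : (1 : ℝ) ≤ n := by exact_mod_cast hn
    split_ifs with h
    · have : a n / (n : ℝ) ^ (1 + 4 / L) ≤ a n / n := by
        refine div_le_div_of_nonneg_left han (by linarith) ?_
        conv_lhs => rw [← Real.rpow_one n]
        exact Real.rpow_le_rpow_of_exponent_le hn1 h1.le
      have : 0 ≤ a n / (n : ℝ) ^ (1 + 2 / L) := by positivity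
      linarith
    · have hXn : (X : ℝ) ≤ n := by
        rw [mem_range] at h
        exact_mod_cast (by omega : X ≤ n)
      have h5 : (4 : ℝ) ≤ (n : ℝ) ^ (2 / L) := by
        calc (4 : ℝ) ≤ Real.exp 2 := by
              have := Real.add_one_le_exp 1
              have h6 : Real.exp 2 = Real.exp 1 * Real.exp 1 := by rw [← Real.exp_add]; norm_num
              nlinarith
          _ = (X : ℝ) ^ (2 / L) := by
              rw [Real.rpow_def_of_pos hX0, ← hL]; congr 1; field_simp
          _ ≤ _ := Real.rpow_le_rpow hX0.le hXn (by positivity)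
      have h6 : (n : ℝ) ^ (1 + 4 / L) = (n : ℝ) ^ (1 + 2 / L) * (n : ℝ) ^ (2 / L) := by
        rw [← Real.rpow_add (by linarith)]; congr 1; ring
      have h7 : 0 < (n : ℝ) ^ (1 + 2 / L) := by positivity
      rw [zero_add, h6, div_le_iff₀ (by positivity)]
      have : 1 / 4 * (a n / (n : ℝ) ^ (1 + 2 / L)) * ((n : ℝ) ^ (1 + 2 / L) * (n : ℝ) ^ (2 / L))
          = a n * ((n : ℝ) ^ (2 / L) / 4) := by field_simp
      rw [this]
      nlinarith
  linarith

theorem upper (ha : ∀ n, 0 ≤ a n) (hs : ∀ x : ℝ, 1 < x → Summable fun n : ℕ => a n / (n : ℝ) ^ x)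
    (hC0 : 0 ≤ C)
    (hC : ∀ x : ℝ, 1 < x → x ≤ 2 → |∑' n, a n / (n : ℝ) ^ x - (1 / 2) / (x - 1)| ≤ C)
    (X : ℕ) (hX : 1 ≤ Real.log X) :
    ∑ n ∈ range (X + 1), a n / n ≤ 3 * (Real.log X / 2 + C) := by
  set L := Real.log X with hL
  have hL0 : 0 < L := by linarith
  have hX0 : (0 : ℝ) < X := by
    rcases Nat.eq_zero_or_pos X with rfl | h
    · simp at hL; linarith
    · exact_mod_cast h
  have h1 : 1 < 1 + 1 / L := by have : 0 < 1 / L := by positivity
                                linarith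
  have h3 : 1 / L ≤ 1 := by rw [div_le_one hL0]; exact hX
  have b2 := (abs_le.1 (hC _ h1 (by linarith))).2
  have e1 : (1 / 2) / (1 + 1 / L - 1) = L / 2 := by field_simp; ring
  rw [e1] at b2
  have key : ∑ n ∈ range (X + 1), a n / n ≤ ∑ n ∈ range (X + 1), 3 * (a n / (n : ℝ) ^ (1 + 1 / L)) := by
    refine sum_le_sum fun n hn => ?_
    have han := ha n
    rcases Nat.eq_zero_or_pos n with rfl | hn0
    · simp [Real.zero_rpow (show (1 + L⁻¹) ≠ 0 by positivity)]
    have hn1 : (1 : ℝ) ≤ n := by exact_mod_cast hn0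
    have hXn : (n : ℝ) ≤ X := by
      rw [mem_range] at hn
      exact_mod_cast (by omega : n ≤ X)
    have h5 : (n : ℝ) ^ (1 / L) ≤ 3 := by
      calc (n : ℝ) ^ (1 / L) ≤ (X : ℝ) ^ (1 / L) := Real.rpow_le_rpow (by linarith) hXn (by positivity)
        _ = Real.exp 1 := by rw [Real.rpow_def_of_pos hX0, ← hL]; congr 1; field_simp
        _ ≤ 3 := by have := Real.exp_one_lt_d9; linarith
    have h7 : 0 < (n : ℝ) ^ (1 / L) := by positivity
    rw [Real.rpow_add (by linarith), Real.rpow_one, ← mul_div_assoc,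
      div_le_div_iff₀ (by linarith) (by positivity)]
    have : 0 ≤ a n * n := by positivity
    nlinarith
  rw [← mul_sum] at key
  have h2 : ∑ n ∈ range (X + 1), a n / (n : ℝ) ^ (1 + 1 / L) ≤ ∑' n, a n / (n : ℝ) ^ (1 + 1 / L) :=
    (hs _ h1).sum_le_tsum _ fun n _ => by have := ha n; positivity
  linarith

end abstract

theorem prime_sum : ∀ᶠ u : ℕ in Filter.atTop, (u : ℝ) ^ 2 ≤
    ∑ p ∈ (range (u ^ 112 + 1)).filter (fun p => p.Prime ∧ p % 4 = 1), Real.log p / √p := by
  obtain ⟨C, hC0, hC⟩ := two_sided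
  set a : ℕ → ℝ := residueClass (1 : ZMod 4) with ha
  have ha0 : ∀ n, 0 ≤ a n := residueClass_nonneg _
  have hnp := summable_residueClass_non_primes_div (1 : ZMod 4)
  set C2 := ∑' n : ℕ, (if n.Prime then 0 else a n) / n with hC2
  have hlog : Filter.Tendsto (fun u : ℕ => Real.log u) Filter.atTop Filter.atTop :=
    Real.tendsto_log_atTop.comp tendsto_natCast_atTop_atTop
  have hC20 : 0 ≤ C2 := tsum_nonneg fun n => by
    have := ha0 n
    split_ifs <;> positivity
  filter_upwards [hlog.eventually_ge_atTop (1 + 5 * C + C2), Filter.eventually_ge_atTop 1]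
    with u hu hu1
  have l1 := lower ha0 (fun x hx => summ hx) hC0 hC (u ^ 112) (by push_cast; rw [Real.log_pow]; push_cast; linarith)
  have l2 := upper ha0 (fun x hx => summ hx) hC0 hC (u ^ 4) (by push_cast; rw [Real.log_pow]; push_cast; linarith)
  push_cast at l1 l2
  rw [Real.log_pow] at l1 l2
  push_cast at l1 l2
  have hsub : range (u ^ 4 + 1) ⊆ range (u ^ 112 + 1) :=
    range_subset_range.2 (Nat.succ_le_succ (Nat.pow_le_pow_right hu1 (by norm_num)))
  have l3 : ∑ n ∈ range (u ^ 112 + 1), (if n.Prime then 0 else a n) / n ≤ C2 :=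
    hnp.sum_le_tsum _ fun n _ => by
      have := ha0 n
      split_ifs <;> positivity
  have l4 : ∑ n ∈ range (u ^ 112 + 1), (if n ∈ range (u ^ 4 + 1) then a n / n else 0)
      = ∑ n ∈ range (u ^ 4 + 1), a n / n := by
    rw [← sum_filter, filter_mem_eq_inter, inter_eq_right.2 hsub]
  have hu2 : (0 : ℝ) ≤ (u : ℝ) ^ 2 := by positivity
  have key : ∑ n ∈ range (u ^ 112 + 1), (u : ℝ) ^ 2 * (a n / n -
      (if n ∈ range (u ^ 4 + 1) then a n / n else 0) - (if n.Prime then 0 else a n) / n)
      ≤ ∑ n ∈ range (u ^ 112 + 1), if n.Prime ∧ n % 4 = 1 then Real.log n / √n else 0 := by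
    refine sum_le_sum fun n _ => ?_
    have han := ha0 n
    have hr : (0 : ℝ) ≤ if n.Prime ∧ n % 4 = 1 then Real.log n / √n else 0 := by
      split_ifs
      · have := Real.log_natCast_nonneg n
        positivity
      · exact le_rfl
    by_cases h1 : n ∈ range (u ^ 4 + 1)
    · refine le_trans (mul_nonpos_of_nonneg_of_nonpos hu2 ?_) hr
      rw [if_pos h1]
      have : 0 ≤ (if n.Prime then 0 else a n) / n := by split_ifs <;> positivity
      linarith
    rw [if_neg h1]
    by_cases h2 : n.Prime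
    swap
    · rw [if_neg h2]; simpa using hr
    rw [if_pos h2]
    by_cases h3 : n % 4 = 1
    · rw [if_pos ⟨h2, h3⟩]
      have h4 : a n ≤ Real.log n := by
        rw [← vonMangoldt_apply_prime h2]; exact residueClass_le _ _
      have hn0 : (0 : ℝ) < n := by exact_mod_cast h2.pos
      have h5 : (u : ℝ) ^ 2 ≤ √n := by
        refine Real.le_sqrt_of_sq_le ?_
        rw [mem_range] at h1
        have : u ^ 4 ≤ n := by omega
        calc ((u : ℝ) ^ 2) ^ 2 = ((u ^ 4 : ℕ) : ℝ) := by push_cast; ring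
          _ ≤ n := by exact_mod_cast this
      have h6 : 0 < √(n : ℝ) := Real.sqrt_pos.2 hn0
      have h7 : √(n : ℝ) * √(n : ℝ) = n := Real.mul_self_sqrt hn0.le
      simp only [sub_zero, zero_div]
      calc (u : ℝ) ^ 2 * (a n / n) ≤ √n * (Real.log n / n) := by gcongr
        _ = Real.log n / √n := by
          rw [eq_div_iff h6.ne']
          calc √(n : ℝ) * (Real.log n / n) * √n = (√n * √n) * (Real.log n / n) := by ring
            _ = _ := by rw [h7]; field_simp
    · have : a n = 0 := by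
        rw [ha, residueClass, Set.indicator_of_notMem]
        intro h
        apply h3
        have h' : (n : ZMod 4) = ((1 : ℕ) : ZMod 4) := by simpa using h
        exact (ZMod.natCast_eq_natCast_iff' n 1 4).1 h'
      rw [this]; simpa using hr
  rw [← mul_sum, sum_sub_distrib, sum_sub_distrib, l4] at key
  rw [sum_filter]
  refine le_trans ?_ key
  have : 1 ≤ ∑ n ∈ range (u ^ 112 + 1), a n / n - ∑ n ∈ range (u ^ 4 + 1), a n / n -
      ∑ n ∈ range (u ^ 112 + 1), (if n.Prime then 0 else a n) / n := by linarith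
  nlinarith

end Pool.Agent.H32.PrimeSum
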