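import Mathlib

namespace Pool.Agent.H32.Prom
open Finset Classical

section I1
variable {P β : Type} [Fintype P] [Fintype β] [LinearOrder β]

/-- `f` depends only on the relative order of the labels on `S`. -/
def Inv (S : Finset P) (f : (P ≃ β) → ℕ) : Prop :=
  ∀ M M' : P ≃ β, (∀ y ∈ S, ∀ y' ∈ S, (M y < M y' ↔ M' y < M' y')) → f M = f M'

noncomputable def rk (S : Finset P) (x : P) (M : P ≃ β) : ℕ := (S.filter (fun y => M y < M x)).card

lemma step (S : Finset P) (x : P) (hx : x ∉ S) (f : (P ≃ β) → ℕ) (hf : Inv S f) (r : ℕ)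
    (hr : r < S.card) :
    ∑ M ∈ univ.filter (fun M => rk S x M = r), f M ≤
      ∑ M ∈ univ.filter (fun M => rk S x M = r + 1), f M := by
  have hex : ∀ M : P ≃ β, rk S x M = r → ∃ s ∈ S, M x < M s ∧ ∀ y ∈ S, M x < M y → M s ≤ M y := by
    intro M hM
    have hne : (S.filter (fun y => M x < M y)).Nonempty := by
      by_contra h
      rw [not_nonempty_iff_eq_empty, filter_eq_empty_iff] at h
      have : S.filter (fun y => M y < M x) = S := by
        refine filter_true_of_mem fun y hy => ?_
        refine lt_of_le_of_ne (not_lt.1 (h hy)) fun e => hx ?_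
        rw [← M.injective e]; exact hy
      unfold rk at hM
      rw [this] at hM
      omega
    obtain ⟨s, hs, hmin⟩ := exists_min_image _ (fun y => M y) hne
    rw [mem_filter] at hs
    exact ⟨s, hs.1, hs.2, fun y hy h => hmin y (mem_filter.2 ⟨hy, h⟩)⟩
  haveI : Nonempty P := ⟨x⟩
  choose! s hs1 hs2 hs3 using hex
  set Φ : (P ≃ β) → (P ≃ β) := fun M => (Equiv.swap x (s M)).trans M with hΦ
  have e1 : ∀ M, Φ M x = M (s M) := fun M => by simp [hΦ]
  have e2 : ∀ M, Φ M (s M) = M x := fun M => by simp [hΦ]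
  have e3 : ∀ M, ∀ y ∈ S, y ≠ s M → Φ M y = M y := fun M y hy h => by
    have : y ≠ x := fun e => hx (e ▸ hy)
    simp [hΦ, Equiv.swap_apply_of_ne_of_ne this h]
  have k1 : ∀ M, rk S x M = r → ∀ y ∈ S, y ≠ s M → (M y < M (s M) ↔ M y < M x) := by
    intro M hM y hy h
    constructor
    · intro h1
      by_contra h2
      have h3 : M x < M y := lt_of_le_of_ne (not_lt.1 h2) fun e => hx (by
        rw [M.injective e]; exact hy)
      exact absurd (hs3 M hM y hy h3) (not_le.2 h1)
    · exact fun h1 => h1.trans (hs2 M hM)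
  have k2 : ∀ M, rk S x M = r → ∀ y ∈ S, y ≠ s M → (M (s M) < M y ↔ M x < M y) := by
    intro M hM y hy h
    constructor
    · exact fun h1 => (hs2 M hM).trans h1
    · exact fun h1 => lt_of_le_of_ne (hs3 M hM y hy h1) fun e => h (M.injective e).symm
  have hfΦ : ∀ M, rk S x M = r → f M = f (Φ M) := by
    intro M hM
    refine hf _ _ fun y hy y' hy' => ?_
    by_cases a : y = s M <;> by_cases b : y' = s M
    · rw [a, b]; simp
    · rw [a, e2, e3 M y' hy' b]; exact k2 M hM y' hy' b
    · rw [b, e2, e3 M y hy a]; exact k1 M hM y hy a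
    · rw [e3 M y hy a, e3 M y' hy' b]
  have hrk : ∀ M, rk S x M = r → rk S x (Φ M) = r + 1 := by
    intro M hM
    have : S.filter (fun y => Φ M y < Φ M x) = insert (s M) (S.filter (fun y => M y < M x)) := by
      ext y
      simp only [mem_filter, mem_insert]
      by_cases a : y = s M
      · rw [a, e1, e2]
        simp [hs1 M hM, hs2 M hM]
      · constructor
        · rintro ⟨hy, h⟩
          rw [e1, e3 M y hy a] at h
          exact Or.inr ⟨hy, (k1 M hM y hy a).1 h⟩
        · rintro (h | ⟨hy, h⟩)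
          · exact absurd h a
          · rw [e1, e3 M y hy a]
            exact ⟨hy, (k1 M hM y hy a).2 h⟩
    unfold rk
    rw [this, card_insert_of_notMem]
    · exact congrArg (· + 1) hM
    · rw [mem_filter]
      exact fun h => absurd h.2 (not_lt.2 (hs2 M hM).le)
  have hmx : ∀ M, rk S x M = r → ∀ y ∈ S, Φ M y < Φ M x → Φ M y ≤ Φ M (s M) := by
    intro M hM y hy h
    by_cases a : y = s M
    · rw [a]
    · rw [e1, e3 M y hy a] at h
      rw [e2, e3 M y hy a]
      exact ((k1 M hM y hy a).1 h).le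
  have hinj : Set.InjOn Φ (univ.filter (fun M => rk S x M = r) : Finset (P ≃ β)) := by
    intro M1 h1 M2 h2 e
    have h1' : rk S x M1 = r := (mem_filter.1 h1).2
    have h2' : rk S x M2 = r := (mem_filter.1 h2).2
    have a1 : Φ M1 (s M1) < Φ M1 x := by rw [e1, e2]; exact hs2 M1 h1'
    have a2 : Φ M2 (s M2) < Φ M2 x := by rw [e1, e2]; exact hs2 M2 h2'
    have b1 := hmx M1 h1' (s M2) (hs1 M2 h2') (e ▸ a2)
    have b2 := hmx M2 h2' (s M1) (hs1 M1 h1') (e ▸ a1)
    rw [← e] at b2
    have c : s M1 = s M2 := (Φ M1).injective (le_antisymm b2 b1)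
    simp only [hΦ] at e
    rw [c] at e
    ext y
    have := congrArg (fun N : P ≃ β => N (Equiv.swap x (s M2) y)) e
    simpa using this
  calc ∑ M ∈ univ.filter (fun M => rk S x M = r), f M
      = ∑ M ∈ univ.filter (fun M => rk S x M = r), f (Φ M) :=
        sum_congr rfl fun M hM => hfΦ M (mem_filter.1 hM).2
    _ = ∑ M ∈ (univ.filter (fun M => rk S x M = r)).image Φ, f M := (sum_image hinj).symm
    _ ≤ _ := by
        refine sum_le_sum_of_subset fun M hM => ?_
        obtain ⟨N, hN, rfl⟩ := mem_image.1 hM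
        exact mem_filter.2 ⟨mem_univ _, hrk N (mem_filter.1 hN).2⟩

theorem I1 (S : Finset P) (x : P) (hx : x ∉ S) (f : (P ≃ β) → ℕ) (hf : Inv S f) :
    (S.card + 1) * ∑ M : P ≃ β, (if ∀ y ∈ S, M x < M y then f M else 0) ≤ ∑ M : P ≃ β, f M := by
  set g : ℕ → ℕ := fun r => ∑ M ∈ univ.filter (fun M : P ≃ β => rk S x M = r), f M with hg
  have h0 : ∀ r, r ≤ S.card → g 0 ≤ g r := by
    intro r
    induction r with
    | zero => exact fun _ => le_rfl
    | succ r ih => exact fun h => (ih (by omega)).trans (step S x hx f hf r (by omega))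
  have h1 : ∑ M : P ≃ β, (if ∀ y ∈ S, M x < M y then f M else 0) ≤ g 0 := by
    rw [← sum_filter]
    refine sum_le_sum_of_subset fun M hM => ?_
    rw [mem_filter] at hM ⊢
    refine ⟨mem_univ _, ?_⟩
    unfold rk
    rw [card_eq_zero, filter_eq_empty_iff]
    exact fun y hy => not_lt.2 (hM.2 y hy).le
  have h2 : ∑ M : P ≃ β, f M = ∑ r ∈ range (S.card + 1), g r := by
    refine (sum_fiberwise_of_maps_to (fun M _ => ?_) _).symm
    exact mem_range.2 (Nat.lt_succ_of_le (card_filter_le _ _))
  rw [h2]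
  have h3 := card_nsmul_le_sum (range (S.card + 1)) g (g 0)
    (fun r hr => h0 r (Nat.lt_succ_iff.1 (mem_range.1 hr)))
  rw [card_range, smul_eq_mul] at h3
  exact le_trans (Nat.mul_le_mul_left _ h1) h3

end I1

section main
variable {P β : Type} [Fintype P] [PartialOrder P] [Fintype β] [LinearOrder β]

def good (t : P) (M : P ≃ β) (x : P) : Prop := ∀ y, x < y → y ≠ t → M x < M y

noncomputable def ch (t : P) (A : Finset P) (M : P ≃ β) : Finset (Finset P) :=
  A.powerset.filter (fun C => IsChain (· ≤ ·) (C : Set P) ∧ ∀ z ∈ C, z < t ∧ good t M z)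

noncomputable def c (t : P) (A : Finset P) (M : P ≃ β) : ℕ :=
  if t ∈ A ∧ IsMax t then (ch t A M).card else 0

noncomputable def U (x : P) : Finset P := univ.filter (fun y => x < y)

noncomputable def a (t x : P) (M : P ≃ β) : ℕ := if good t M x then c t (U x) M else 0

def Up (A : Finset P) : Prop := ∀ x ∈ A, ∀ y, x < y → y ∈ A

lemma mem_U {x y : P} : y ∈ U x ↔ x < y := by simp [U]

lemma up_U (x : P) : Up (U x) := fun _ h _ h' => mem_U.2 ((mem_U.1 h).trans h')

lemma c_mono (t : P) {A B : Finset P} (h : A ⊆ B) (M : P ≃ β) : c t A M ≤ c t B M := by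
  unfold c
  split_ifs with h1 h2
  · exact card_le_card (filter_subset_filter _ (powerset_mono.2 h))
  · exact absurd ⟨h h1.1, h1.2⟩ h2
  · exact Nat.zero_le _
  · exact le_rfl

lemma c_inv (t : P) {A S : Finset P} (hA : Up A) (hS : A.erase t ⊆ S) :
    Inv S (fun M : P ≃ β => c t A M) := by
  intro M M' h
  have : ch t A M = ch t A M' := by
    unfold ch
    refine filter_congr fun C hC => and_congr_right fun _ => forall₂_congr fun z hz =>
      and_congr_right fun hzt => forall₃_congr fun y hy hyt => ?_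
    have hzA := mem_powerset.1 hC hz
    exact h z (hS (mem_erase.2 ⟨hzt.ne, hzA⟩)) y (hS (mem_erase.2 ⟨hyt, hA z hzA y hy⟩))
  simp only [c, this]

lemma a_inv (t x : P) {S : Finset P} (hS : (U x).erase t ⊆ S) (hx : x ∈ S) :
    Inv S (fun M : P ≃ β => a t x M) := by
  intro M M' h
  have e1 := c_inv t (up_U x) hS M M' h
  have e2 : good t M x ↔ good t M' x := forall₃_congr fun y hy hyt =>
    h x hx y (hS (mem_erase.2 ⟨hyt, mem_U.2 hy⟩))
  simp only at e1
  simp only [a, e1, e2]

lemma Inv.mul {S : Finset P} {f g : (P ≃ β) → ℕ} (hf : Inv S f) (hg : Inv S g) :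
    Inv S (fun M => f M * g M) := fun M M' h => by
  simp only [hf M M' h, hg M M' h]

lemma c_insert (t x : P) (A : Finset P) (hx : x ∉ A) (hmin : ∀ y ∈ A, ¬ y < x) (ht : t ≠ x)
    (M : P ≃ β) : c t (insert x A) M ≤ c t A M + a t x M := by
  unfold c
  by_cases h : t ∈ insert x A ∧ IsMax t
  swap
  · rw [if_neg h]; exact Nat.zero_le _
  have htA : t ∈ A := (mem_insert.1 h.1).resolve_left ht
  rw [if_pos h, if_pos ⟨htA, h.2⟩]
  have hsub : ch t (insert x A) M ⊆ ch t A M ∪
      (if good t M x ∧ x < t then (ch t (U x) M).image (insert x) else ∅) := by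
    intro C hC
    simp only [ch, mem_filter, mem_powerset] at hC
    obtain ⟨h1, h2, h3⟩ := hC
    by_cases hxC : x ∈ C
    · refine mem_union_right _ ?_
      rw [if_pos ⟨(h3 x hxC).2, (h3 x hxC).1⟩]
      refine mem_image.2 ⟨C.erase x, ?_, insert_erase hxC⟩
      simp only [ch, mem_filter, mem_powerset]
      refine ⟨fun y hy => ?_, h2.mono (coe_subset.2 (erase_subset _ _)),
        fun z hz => h3 z (mem_of_mem_erase hz)⟩
      rw [mem_erase] at hy
      rcases h2 hxC hy.2 (Ne.symm hy.1) with k | k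
      · exact mem_U.2 (lt_of_le_of_ne k (Ne.symm hy.1))
      · exact absurd (lt_of_le_of_ne k hy.1) (hmin y ((mem_insert.1 (h1 hy.2)).resolve_left hy.1))
    · refine mem_union_left _ ?_
      simp only [ch, mem_filter, mem_powerset]
      exact ⟨fun y hy => (mem_insert.1 (h1 hy)).resolve_left (fun e => hxC (e ▸ hy)), h2, h3⟩
  refine le_trans (card_le_card hsub) (le_trans (card_union_le _ _) (Nat.add_le_add_left ?_ _))
  split_ifs with k
  · simp only [a, c, if_pos k.1, if_pos (And.intro (mem_U.2 k.2) h.2)]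
    exact card_image_le
  · simp

lemma c_self (x : P) (A : Finset P) (hmin : ∀ y ∈ A, ¬ y < x) (M : P ≃ β) :
    c x (insert x A) M ≤ if IsMax x then 1 else 0 := by
  unfold c
  by_cases h : IsMax x
  · rw [if_pos ⟨mem_insert_self _ _, h⟩, if_pos h, card_le_one]
    have : ∀ C ∈ ch x (insert x A) M, C = ∅ := by
      intro C hC
      simp only [ch, mem_filter, mem_powerset] at hC
      refine eq_empty_of_forall_notMem fun z hz => ?_
      rcases mem_insert.1 (hC.1 hz) with e | e
      · exact (hC.2.2 z hz).1.ne e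
      · exact hmin z e (hC.2.2 z hz).1
    intro C hC C' hC'
    rw [this C hC, this C' hC']
  · rw [if_neg (fun k => h k.2), if_neg h]

lemma c_zero {t : P} {A : Finset P} (h : t ∉ A) (M : P ≃ β) : c t A M = 0 :=
  if_neg fun k => h k.1

lemma a_zero {t x : P} (h : ¬ x < t) (M : P ≃ β) : a t x M = 0 := by
  unfold a
  rw [c_zero (fun k => h (mem_U.1 k))]
  simp

variable (β) in
noncomputable def FF (A : Finset P) : ℕ := ∑ t : P, ∑ M : P ≃ β, c t A M * c t A M
variable (β) in
noncomputable def XX (y : P) (A : Finset P) : ℕ := ∑ t : P, ∑ M : P ≃ β, a t y M * c t A M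
variable (β) in
noncomputable def GG (x y : P) : ℕ := ∑ t : P, ∑ M : P ≃ β, a t x M * a t y M

lemma base (y : P) : (U y).card * XX β y (U y) ≤ FF β (U y) := by
  unfold XX FF
  rw [mul_sum]
  refine sum_le_sum fun t _ => ?_
  by_cases ht : y < t
  · have h := I1 (β := β) ((U y).erase t) y (fun h => lt_irrefl _ (mem_U.1 (mem_of_mem_erase h)))
      _ ((c_inv t (up_U y) subset_rfl).mul (c_inv t (up_U y) subset_rfl))
    rw [card_erase_add_one (mem_U.2 ht)] at h
    refine le_trans (Nat.mul_le_mul_left _ (sum_le_sum fun M _ => ?_)) h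
    unfold a
    split_ifs with h1 h2
    · exact le_rfl
    · exact absurd (fun z hz => h1 z (mem_U.1 (mem_of_mem_erase hz)) (ne_of_mem_erase hz)) h2
    · simp
    · simp
  · simp [a_zero ht]

lemma up_union {A B : Finset P} (hA : Up A) (hB : Up B) : Up (A ∪ B) := fun x hx y h =>
  (mem_union.1 hx).elim (fun k => mem_union_left _ (hA x k y h))
    (fun k => mem_union_right _ (hB x k y h))

lemma half (x y : P) (hxy : ¬ y < x) (hyx : ¬ x < y) (hne : x ≠ y) (t : P) :
    ((U x ∪ U y).card + 1) * ∑ M : P ≃ β, (if M x < M y then a t x M * a t y M else 0) ≤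
      ∑ M : P ≃ β, a t y M * c t (U x ∪ U y) M := by
  by_cases ht : y < t
  swap
  · simp [a_zero ht]
  have hyW : y ∉ (U x ∪ U y).erase t := fun h => by
    rcases mem_union.1 (mem_of_mem_erase h) with k | k
    · exact hyx (mem_U.1 k)
    · exact lt_irrefl _ (mem_U.1 k)
  have hx : x ∉ insert y ((U x ∪ U y).erase t) := fun h => by
    rcases mem_insert.1 h with k | k
    · exact hne k
    rcases mem_union.1 (mem_of_mem_erase k) with k | k
    · exact lt_irrefl _ (mem_U.1 k)
    · exact hxy (mem_U.1 k)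
  have h := I1 (β := β) _ x hx _
    ((a_inv t y ((erase_subset_erase _ subset_union_right).trans (subset_insert _ _))
      (mem_insert_self _ _)).mul (c_inv t (up_union (up_U x) (up_U y)) (subset_insert _ _)))
  rw [card_insert_of_notMem hyW, card_erase_add_one (mem_union_right _ (mem_U.2 ht))] at h
  refine le_trans (Nat.mul_le_mul_left _ (sum_le_sum fun M _ => ?_)) h
  by_cases h1 : M x < M y
  swap
  · rw [if_neg h1]; exact Nat.zero_le _
  rw [if_pos h1]
  by_cases g1 : good t M x
  swap
  · simp [a, g1]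
  by_cases g2 : good t M y
  swap
  · simp [a, g2]
  rw [if_pos, mul_comm]
  · refine Nat.mul_le_mul_left _ ?_
    simp only [a, if_pos g1]
    exact c_mono t subset_union_left M
  · intro z hz
    rcases mem_insert.1 hz with k | k
    · rw [k]; exact h1
    rw [mem_erase] at k
    rcases mem_union.1 k.2 with k' | k'
    · exact g1 z (mem_U.1 k') k.1
    · exact h1.trans (g2 z (mem_U.1 k') k.1)

lemma GG_le (x y : P) (hxy : ¬ y < x) (hyx : ¬ x < y) (hne : x ≠ y) :
    ((U x ∪ U y).card + 1) * GG β x y ≤ XX β y (U x ∪ U y) + XX β x (U x ∪ U y) := by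
  unfold GG XX
  rw [mul_sum, ← sum_add_distrib]
  refine sum_le_sum fun t _ => ?_
  have h1 := half (β := β) x y hxy hyx hne t
  have h2 := half (β := β) y x hyx hxy hne.symm t
  rw [union_comm (U y)] at h2
  refine le_trans ?_ (add_le_add h1 h2)
  rw [← mul_add, ← sum_add_distrib]
  refine Nat.mul_le_mul_left _ (sum_le_sum fun M _ => ?_)
  rcases lt_or_gt_of_ne (fun e => hne (M.injective e)) with k | k
  · rw [if_pos k]; exact Nat.le_add_right _ _
  · rw [if_pos k, mul_comm]; exact Nat.le_add_left _ _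

lemma a_le (t x : P) (M : P ≃ β) : a t x M ≤ c t (U x) M := by
  unfold a
  split_ifs
  · exact le_rfl
  · exact Nat.zero_le _

lemma FF_insert (x : P) (A : Finset P) (hx : x ∉ A) (hmin : ∀ y ∈ A, ¬ y < x) :
    FF β (insert x A) ≤ FF β A + 2 * XX β x A + XX β x (U x) +
      (if IsMax x then Fintype.card (P ≃ β) else 0) := by
  have e : (if IsMax x then Fintype.card (P ≃ β) else 0) =
      ∑ t : P, ∑ _M : P ≃ β, if t = x then (if IsMax x then 1 else 0) else 0 := by
    rw [sum_comm]
    simp
  rw [e]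
  unfold FF XX
  rw [mul_sum, ← sum_add_distrib, ← sum_add_distrib, ← sum_add_distrib]
  refine sum_le_sum fun t _ => ?_
  rw [mul_sum, ← sum_add_distrib, ← sum_add_distrib, ← sum_add_distrib]
  refine sum_le_sum fun M _ => ?_
  by_cases ht : t = x
  · subst ht
    rw [if_pos rfl]
    have := c_self t A hmin M
    refine le_trans ?_ (Nat.le_add_left _ _)
    split_ifs at this ⊢
    · exact Nat.mul_le_mul this this
    · exact Nat.mul_le_mul this this
  · have h1 := c_insert t x A hx hmin ht M
    have h2 := a_le t x M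
    rw [if_neg ht]
    nlinarith [Nat.mul_le_mul h1 h1, Nat.mul_le_mul_left (a t x M) h2]

lemma XX_insert (y z : P) (A : Finset P) (hz : z ∉ A) (hmin : ∀ w ∈ A, ¬ w < z) (hyz : ¬ y < z) :
    XX β y (insert z A) ≤ XX β y A + GG β y z := by
  unfold XX GG
  rw [← sum_add_distrib]
  refine sum_le_sum fun t _ => ?_
  rw [← sum_add_distrib]
  refine sum_le_sum fun M _ => ?_
  by_cases ht : t = z
  · subst ht
    simp [a_zero hyz]
  · rw [← mul_add]
    exact Nat.mul_le_mul_left _ (c_insert t z A hz hmin ht M)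

theorem bound (k : ℕ) :
    (∀ A : Finset P, Up A → A.card = k →
      6 * FF β A ≤ k * (k + 1) * (k + 2) * Fintype.card (P ≃ β)) ∧
    (∀ (y : P) (A : Finset P), Up A → y ∉ A → U y ⊆ A → A.card = k →
      6 * XX β y A ≤ (k + 1) * (k + 2) * Fintype.card (P ≃ β)) := by
  induction k using Nat.strong_induction_on with
  | _ k ih =>
  set N := Fintype.card (P ≃ β) with hN
  have hF : ∀ A : Finset P, Up A → A.card = k → 6 * FF β A ≤ k * (k + 1) * (k + 2) * N := by
    intro A hA hk
    rcases A.eq_empty_or_nonempty with rfl | hne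
    · simp [FF, c_zero]
    obtain ⟨x, hx⟩ := A.exists_minimal hne
    have hmin : ∀ y ∈ A.erase x, ¬ y < x := fun y hy h =>
      h.not_ge (hx.2 (mem_of_mem_erase hy) h.le)
    have hup : Up (A.erase x) := fun w hw v h => mem_erase.2
      ⟨fun e => hmin w hw (e ▸ h), hA w (mem_of_mem_erase hw) v h⟩
    have hU : U x ⊆ A.erase x := fun v hv =>
      mem_erase.2 ⟨(mem_U.1 hv).ne', hA x hx.1 v (mem_U.1 hv)⟩
    have hc := card_erase_add_one hx.1
    obtain ⟨j, rfl⟩ : ∃ j, k = j + 1 := ⟨(A.erase x).card, by omega⟩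
    have hj : (A.erase x).card = j := by omega
    have h1 := FF_insert (β := β) x (A.erase x) (notMem_erase _ _) hmin
    rw [insert_erase hx.1] at h1
    have h2 := (ih j (by omega)).1 _ hup hj
    by_cases hm : IsMax x
    · have z1 : ∀ B, XX β x B = 0 := fun B => by
        simp [XX, a_zero (fun h => hm.not_lt h)]
      rw [if_pos hm, z1, z1] at h1
      have : 6 * N ≤ 3 * ((j + 1) * (j + 2)) * N := Nat.mul_le_mul_right _ (by nlinarith)
      nlinarith
    · rw [if_neg hm] at h1
      have h3 := (ih j (by omega)).2 x _ hup (notMem_erase _ _) hU hj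
      have hu : (U x).card ≤ j := hj ▸ card_le_card hU
      have h4 := (ih _ (Nat.lt_succ_of_le hu)).2 x _ (up_U x)
        (fun h => lt_irrefl _ (mem_U.1 h)) subset_rfl rfl
      have h5 : ((U x).card + 1) * ((U x).card + 2) * N ≤ (j + 1) * (j + 2) * N :=
        Nat.mul_le_mul_right _ (Nat.mul_le_mul (by omega) (by omega))
      nlinarith
  refine ⟨hF, fun y A hA hy hU hk => ?_⟩
  rcases (A \ U y).eq_empty_or_nonempty with he | hne
  · have e : A = U y := subset_antisymm (sdiff_eq_empty_iff_subset.1 he) hU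
    subst e
    rcases Nat.eq_zero_or_pos k with rfl | hpos
    · rw [card_eq_zero] at hk
      simp [XX, hk, c_zero]
    · have h1 := base (β := β) y
      have h2 := hF _ hA hk
      rw [hk] at h1
      refine Nat.le_of_mul_le_mul_left ?_ hpos
      nlinarith
  · obtain ⟨z, hz⟩ := (A \ U y).exists_minimal hne
    have hzA := (mem_sdiff.1 hz.1).1
    have hyz : ¬ y < z := fun h => (mem_sdiff.1 hz.1).2 (mem_U.2 h)
    have hmin : ∀ w ∈ A.erase z, ¬ w < z := fun w hw h => h.not_ge (hz.2 (mem_sdiff.2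
      ⟨mem_of_mem_erase hw, fun k => hyz ((mem_U.1 k).trans h)⟩) h.le)
    have hup : Up (A.erase z) := fun w hw v h => mem_erase.2
      ⟨fun e => hmin w hw (e ▸ h), hA w (mem_of_mem_erase hw) v h⟩
    have hU' : U y ⊆ A.erase z := fun v hv =>
      mem_erase.2 ⟨fun e => hyz (e ▸ mem_U.1 hv), hU hv⟩
    have hUz : U z ⊆ A.erase z := fun v hv =>
      mem_erase.2 ⟨(mem_U.1 hv).ne', hA z hzA v (mem_U.1 hv)⟩
    have hzy : ¬ z < y := fun h => hy (hA z hzA y h)
    have hc := card_erase_add_one hzA
    obtain ⟨j, rfl⟩ : ∃ j, k = j + 1 := ⟨(A.erase z).card, by omega⟩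
    have hj : (A.erase z).card = j := by omega
    have h1 := XX_insert (β := β) y z (A.erase z) (notMem_erase _ _) hmin hyz
    rw [insert_erase hzA] at h1
    have h2 := (ih j (by omega)).2 y _ hup (fun h => hy (mem_of_mem_erase h)) hU' hj
    have h3 := GG_le (β := β) y z hzy hyz (fun e => hy (e ▸ hzA))
    have hm : (U y ∪ U z).card ≤ j := hj ▸ card_le_card (union_subset hU' hUz)
    have hW := up_union (up_U y) (up_U z)
    have h4 := (ih _ (Nat.lt_succ_of_le hm)).2 y _ hW (fun h => by
      rcases mem_union.1 h with k | k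
      · exact lt_irrefl _ (mem_U.1 k)
      · exact hzy (mem_U.1 k)) subset_union_left rfl
    have h5 := (ih _ (Nat.lt_succ_of_le hm)).2 z _ hW (fun h => by
      rcases mem_union.1 h with k | k
      · exact hyz (mem_U.1 k)
      · exact lt_irrefl _ (mem_U.1 k)) subset_union_right rfl
    set m := (U y ∪ U z).card with hm'
    have h6 : 6 * GG β y z ≤ 2 * (m + 2) * N := by
      refine Nat.le_of_mul_le_mul_left ?_ (Nat.succ_pos m)
      show (m + 1) * _ ≤ (m + 1) * _
      nlinarith
    have h7 : 2 * (m + 2) * N ≤ 2 * (j + 2) * N := Nat.mul_le_mul_right _ (by omega)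
    nlinarith

/-- Final form: labelings with the top label at `t`. -/
theorem final : 6 * ∑ t : P, ∑ M : P ≃ β, (if ∀ y ∈ (univ : Finset P).erase t, M y < M t then
      c t univ M * c t univ M else 0) ≤
    (Fintype.card P + 1) * (Fintype.card P + 2) * Fintype.card (P ≃ β) := by
  rcases Nat.eq_zero_or_pos (Fintype.card P) with h0 | hpos
  · haveI := Fintype.card_eq_zero_iff.1 h0
    simp
  have hup : Up (univ : Finset P) := fun _ _ _ _ => mem_univ _
  have h1 := (bound (β := β) (Fintype.card P)).1 univ hup rfl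
  have h2 : Fintype.card P * ∑ t : P, ∑ M : P ≃ β, (if ∀ y ∈ (univ : Finset P).erase t, M y < M t then
      c t univ M * c t univ M else 0) ≤ FF β (univ : Finset P) := by
    unfold FF
    rw [mul_sum]
    refine sum_le_sum fun t _ => ?_
    have hi : Inv (β := β) (univ.erase t) (fun M => c t univ M * c t univ M) :=
      (c_inv t hup subset_rfl).mul (c_inv t hup subset_rfl)
    have h := I1 (P := P) (β := βᵒᵈ) (univ.erase t) t (notMem_erase t univ)
      (fun M : P ≃ β => c t univ M * c t univ M)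
      (fun M M' h => hi M M' fun y hy y' hy' => h y' hy' y hy)
    rw [card_erase_add_one (mem_univ t), card_univ] at h
    exact h
  refine Nat.le_of_mul_le_mul_left ?_ hpos
  nlinarith

end main

end Pool.Agent.H32.Prom
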