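import Mathlib

namespace Pool.Agent.H32.QRatio

open Finset PowerSeries

variable {K : Type*} [Field K]

def po (x q : K) (n : ℕ) : K := ∏ j ∈ range n, (1 - x * q ^ j)

theorem po_succ (x q : K) (n : ℕ) : po x q (n + 1) = po x q n * (1 - x * q ^ n) :=
  prod_range_succ _ _

theorem po_succ' (x q : K) (n : ℕ) : po x q (n + 1) = po (x * q) q n * (1 - x) := by
  unfold po
  rw [prod_range_succ']
  simp only [pow_zero, mul_one, pow_succ', mul_assoc]

def Dn (c q : K) (N m : ℕ) : K := ∏ k ∈ range N, (1 - c * q ^ k) ^ (m / (k + 1))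

theorem Dn_ext (c q : K) {m N : ℕ} (h : m ≤ N) : Dn c q N m = Dn c q m m := by
  induction N, h using Nat.le_induction with
  | base => rfl
  | succ N h ih => rw [Dn, prod_range_succ, Nat.div_eq_of_lt (by omega), pow_zero, mul_one, ← ih, Dn]

section
variable (L : Subring K) {c q : K} (hc : c ∈ L) (hq : q ∈ L)
include hc hq

theorem mem_mul {m1 m2 N m : ℕ} {x y : K} (h1 : Dn c q m1 m1 * x ∈ L) (h2 : Dn c q m2 m2 * y ∈ L)
    (a1 : m1 ≤ N) (a2 : m2 ≤ N) (a3 : m1 + m2 ≤ m) : Dn c q N m * (x * y) ∈ L := by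
  rw [← Dn_ext c q a1] at h1
  rw [← Dn_ext c q a2] at h2
  have e : Dn c q N m = (∏ k ∈ range N, (1 - c * q ^ k) ^ (m / (k + 1) - (m1 / (k + 1) + m2 / (k + 1))))
      * (Dn c q N m1 * Dn c q N m2) := by
    unfold Dn
    rw [← prod_mul_distrib, ← prod_mul_distrib]
    refine prod_congr rfl fun k _ => ?_
    rw [← pow_add, ← pow_add, Nat.sub_add_cancel]
    exact (Nat.div_add_div_le_add_div).trans (Nat.div_le_div_right a3)
  rw [e, mul_assoc, mul_mul_mul_comm]
  exact L.mul_mem (L.prod_mem fun k _ => L.pow_mem (L.sub_mem L.one_mem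
    (L.mul_mem hc (L.pow_mem hq _))) _) (L.mul_mem h1 h2)

theorem mem_conv (F G : K⟦X⟧) (n : ℕ) (hF : ∀ i ≤ n, Dn c q (i + 1) (i + 1) * coeff i F ∈ L)
    (hG : ∀ i ≤ n, Dn c q (i + 1) (i + 1) * coeff i G ∈ L) :
    Dn c q (n + 1) (n + 2) * coeff n (F * G) ∈ L := by
  rw [coeff_mul, mul_sum]
  refine L.sum_mem fun x hx => ?_
  have := mem_antidiagonal.1 hx
  exact mem_mul L hc hq (hF _ (by omega)) (hG _ (by omega)) (by omega) (by omega) (by omega)

theorem good_one (i : ℕ) : Dn c q (i + 1) (i + 1) * coeff i (1 : K⟦X⟧) ∈ L := by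
  have h : Dn c q 0 0 * 1 ∈ L := by simp [Dn]
  have := mem_mul L hc hq (N := i + 1) (m := i + 1) h h (by omega) (by omega) (by omega)
  rw [coeff_one]
  split_ifs
  · simpa using this
  · simp

theorem good_X (F : K⟦X⟧) (n : ℕ) (hF : ∀ i ≤ n, Dn c q (i + 1) (i + 1) * coeff i F ∈ L) :
    ∀ i ≤ n, Dn c q (i + 1) (i + 1) * coeff i (X * F) ∈ L := by
  intro i hi
  rcases i with _ | i
  · simp
  · rw [coeff_succ_X_mul]
    have h : Dn c q 0 0 * 1 ∈ L := by simp [Dn]
    simpa using mem_mul L hc hq (N := i + 1 + 1) (m := i + 1 + 1) (hF i (by omega)) h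
      (by omega) (by omega) (by omega)

omit hc in
theorem good_T (F : K⟦X⟧) (n : ℕ) (hF : ∀ i ≤ n, Dn c q (i + 1) (i + 1) * coeff i F ∈ L) :
    ∀ i ≤ n, Dn c q (i + 1) (i + 1) * coeff i (rescale q F) ∈ L := by
  intro i hi
  rw [coeff_rescale, mul_left_comm]
  exact L.mul_mem (L.pow_mem hq _) (hF i hi)

omit hc hq in
theorem step (F W : K⟦X⟧) (h : F - C c * rescale q F = 1 + X * W)
    (hW : ∀ n, (∀ i ≤ n, Dn c q (i + 1) (i + 1) * coeff i F ∈ L) →
      Dn c q (n + 1) (n + 2) * coeff n W ∈ L) (n : ℕ) :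
    Dn c q (n + 1) (n + 1) * coeff n F ∈ L := by
  induction n using Nat.strong_induction_on with
  | _ n ih =>
    have e := congrArg (coeff n) h
    rw [map_sub, coeff_C_mul, coeff_rescale, map_add] at e
    have e2 : Dn c q (n + 1) (n + 1) * coeff n F =
        Dn c q n (n + 1) * (coeff n F - c * (q ^ n * coeff n F)) := by
      rw [Dn, prod_range_succ, Nat.div_self (by omega), Dn]; ring
    rw [e2, e]
    rcases n with _ | n
    · simp [Dn]
    · rw [coeff_succ_X_mul, coeff_one, if_neg (by omega), zero_add]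
      exact hW n fun i hi => ih i (by omega)

end

noncomputable def ph (a b c q : K) : K⟦X⟧ :=
  PowerSeries.mk fun n => po a q n * po b q n / (po q q n * po c q n)

theorem main (L : Subring K) {a b c q : K} (ha : a ∈ L) (hb : b ∈ L) (hc : c ∈ L) (hq : q ∈ L)
    (h1 : ∀ n, 1 - q * q ^ n ≠ 0) (h2 : ∀ n, 1 - c * q ^ n ≠ 0) (n : ℕ) :
    Dn c q (n + 1) (n + 1) * (coeff n (ph (a * q) (b * q) (c * q) q * (ph a b c q)⁻¹) / (1 - c)) ∈ L ∧
    Dn c q (n + 1) (n + 1) * (coeff n (ph (a * q) b (c * q) q * (ph a b c q)⁻¹) / (1 - c)) ∈ L := by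
  have pq : ∀ n, po q q n ≠ 0 := fun n => prod_ne_zero_iff.2 fun j _ => h1 j
  have h3 : ∀ n, 1 - c * q * q ^ n ≠ 0 := fun n => by
    have := h2 (n + 1); rwa [pow_succ', ← mul_assoc] at this
  have pc : ∀ n, po (c * q) q n ≠ 0 := fun n => prod_ne_zero_iff.2 fun j _ => h3 j
  have c0 : 1 - c ≠ 0 := by simpa using h2 0
  set f := ph a b c q with hf
  have f0 : constantCoeff f ≠ 0 := by
    rw [← coeff_zero_eq_constantCoeff_apply, hf, ph, coeff_mk]; simp [po]
  have fi : f⁻¹ * f = 1 := PowerSeries.inv_mul_cancel f f0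
  have fne : f ≠ 0 := fun h => f0 (by rw [h]; simp)
  set g := C (1 - c)⁻¹ * ph (a * q) (b * q) (c * q) q with hg
  set u := C (1 - c)⁻¹ * ph (a * q) b (c * q) q with hu
  have hA : rescale q f = f - C ((1 - a) * (1 - b)) * (X * g) := by
    ext n
    rw [map_sub, coeff_rescale, coeff_C_mul]
    rcases n with _ | n
    · simp
    · rw [coeff_succ_X_mul, hg, coeff_C_mul, hf, ph, ph, coeff_mk, coeff_mk, po_succ' a, po_succ' b,
        po_succ' c, po_succ q]
      have := pq n; have := pc n; have := h1 n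
      field_simp
      ring
  have hB : g - C c * rescale q g =
      f + C (a + b - a * b) * (X * g) - C (a * b * q) * (X * rescale q g) := by
    ext n
    simp only [map_sub (coeff n), map_add (coeff n), coeff_C_mul, coeff_rescale]
    rcases n with _ | n
    · simp [hg, hf, ph, po]; field_simp
    · rw [coeff_succ_X_mul, coeff_succ_X_mul, coeff_rescale, hg, coeff_C_mul, coeff_C_mul, hf, ph,
        ph, coeff_mk, coeff_mk, coeff_mk, po_succ' a, po_succ' b, po_succ' c, po_succ q,
        po_succ (a * q), po_succ (b * q), po_succ (c * q)]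
      have := pq n; have := pc n; have := h1 n; have := h3 n
      field_simp
      ring
  have hC : u - C c * rescale q u = f + C (a * (1 - b)) * (X * g) := by
    ext n
    simp only [map_sub (coeff n), map_add (coeff n), coeff_C_mul, coeff_rescale]
    rcases n with _ | n
    · simp [hu, hf, ph, po]; field_simp
    · rw [coeff_succ_X_mul, hg, hu, coeff_C_mul, coeff_C_mul, hf, ph, ph,
        ph, coeff_mk, coeff_mk, coeff_mk, po_succ' a, po_succ' b, po_succ' c, po_succ q,
        po_succ (a * q), po_succ (c * q)]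
      have := pq n; have := pc n; have := h1 n; have := h3 n
      field_simp
      ring
  set S := g * f⁻¹ with hS
  set U := u * f⁻¹ with hU
  have gS : g = S * f := by rw [hS, mul_assoc, fi, mul_one]
  have uU : u = U * f := by rw [hU, mul_assoc, fi, mul_one]
  have Tg : rescale q g = rescale q S * (f - C ((1 - a) * (1 - b)) * (X * (S * f))) := by
    rw [← gS, ← hA, ← map_mul, ← gS]
  have Tu : rescale q u = rescale q U * (f - C ((1 - a) * (1 - b)) * (X * (S * f))) := by
    rw [← gS, ← hA, ← map_mul, ← uU]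
  have eS : S - C c * rescale q S = 1 + X * (C (a + b - a * b) * (S * 1)
      - C (c * ((1 - a) * (1 - b))) * (S * rescale q S) - C (a * b * q) * (rescale q S * 1)
      + C (a * b * q * ((1 - a) * (1 - b))) * ((X * S) * rescale q S)) := by
    apply mul_right_cancel₀ fne
    rw [Tg] at hB
    simp only [map_mul] at hB ⊢
    linear_combination hB - gS + C (a + b - a * b) * X * gS
  have eU : U - C c * rescale q U = 1 + X * (C (a * (1 - b)) * (S * 1)
      - C (c * ((1 - a) * (1 - b))) * (S * rescale q U)) := by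
    apply mul_right_cancel₀ fne
    rw [Tu] at hC
    simp only [map_mul] at hC ⊢
    linear_combination hC - uU + C a * C (1 - b) * X * gS
  have E : (1 - a) * (1 - b) ∈ L := L.mul_mem (L.sub_mem L.one_mem ha) (L.sub_mem L.one_mem hb)
  have o : ∀ n, ∀ i ≤ n, Dn c q (i + 1) (i + 1) * coeff i (1 : K⟦X⟧) ∈ L :=
    fun n i _ => good_one L hc hq i
  have gS' : ∀ n, Dn c q (n + 1) (n + 1) * coeff n S ∈ L := by
    refine step L S _ eS fun n hn => ?_
    simp only [map_sub (coeff n), map_add (coeff n), coeff_C_mul, mul_add, mul_sub,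
      mul_left_comm (Dn c q (n + 1) (n + 2))]
    have hT := good_T L hq S n hn
    refine L.add_mem (L.sub_mem (L.sub_mem (L.mul_mem ?_ (mem_conv L hc hq _ _ n hn (o n)))
      (L.mul_mem ?_ (mem_conv L hc hq _ _ n hn hT))) (L.mul_mem ?_ (mem_conv L hc hq _ _ n hT (o n))))
      (L.mul_mem ?_ (mem_conv L hc hq _ _ n (good_X L hc hq S n hn) hT))
    · exact L.sub_mem (L.add_mem ha hb) (L.mul_mem ha hb)
    · simpa [mul_sub] using L.mul_mem hc E
    · exact L.mul_mem (L.mul_mem ha hb) hq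
    · simpa [mul_sub] using L.mul_mem (L.mul_mem (L.mul_mem ha hb) hq) E
  have gU' : ∀ n, Dn c q (n + 1) (n + 1) * coeff n U ∈ L := by
    refine step L U _ eU fun n hn => ?_
    simp only [map_sub (coeff n), coeff_C_mul, mul_sub,
      mul_left_comm (Dn c q (n + 1) (n + 2))]
    refine L.sub_mem (L.mul_mem ?_ (mem_conv L hc hq _ _ n (fun i _ => gS' i) (o n)))
      (L.mul_mem ?_ (mem_conv L hc hq _ _ n (fun i _ => gS' i) (good_T L hq U n hn)))
    · simpa [mul_sub] using L.mul_mem ha (L.sub_mem L.one_mem hb)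
    · simpa [mul_sub] using L.mul_mem hc E
  constructor
  · have := gS' n
    rwa [hS, hg, mul_assoc, coeff_C_mul, mul_comm (1 - c)⁻¹, ← div_eq_mul_inv] at this
  · have := gU' n
    rwa [hU, hu, mul_assoc, coeff_C_mul, mul_comm (1 - c)⁻¹, ← div_eq_mul_inv] at this

theorem ne_one (i j : Fin 4) (m : ℕ) :
    1 - algebraMap (MvPolynomial (Fin 4) ℚ) (FractionRing (MvPolynomial (Fin 4) ℚ))
        (MvPolynomial.X i) *
      algebraMap (MvPolynomial (Fin 4) ℚ) (FractionRing (MvPolynomial (Fin 4) ℚ))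
        (MvPolynomial.X j) ^ m ≠ 0 := by
  rw [← map_pow, ← map_mul, ← map_one (algebraMap (MvPolynomial (Fin 4) ℚ)
    (FractionRing (MvPolynomial (Fin 4) ℚ))), ← map_sub]
  intro h
  have := congrArg MvPolynomial.constantCoeff
    ((IsFractionRing.injective (MvPolynomial (Fin 4) ℚ) _) (h.trans (map_zero _).symm))
  simp at this

end Pool.Agent.H32.QRatio
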