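import Mathlib

namespace Pool.Agent.H32.RMin

open Pointwise

theorem mem_add_nsmul {C : Set ℕ} {i j a b : ℕ} (ha : a ∈ i • C) (hb : b ∈ j • C) :
    a + b ∈ (i + j) • C := by
  rw [add_nsmul]; exact Set.add_mem_add ha hb

theorem mem_one {C : Set ℕ} {a : ℕ} (ha : a ∈ C) : a ∈ 1 • C := by rwa [one_nsmul]

theorem mul_mem {C : Set ℕ} {a : ℕ} (ha : a ∈ C) (j : ℕ) : j * a ∈ j • C := by
  induction j with
  | zero => simp
  | succ j ih => rw [Nat.succ_mul]; exact mem_add_nsmul ih (mem_one ha)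

theorem icc_mem {C : Set ℕ} {a b : ℕ} (hab : a ≤ b) (h : ∀ x, a ≤ x → x ≤ b → x ∈ C) (j : ℕ) :
    ∀ m, j * a ≤ m → m ≤ j * b → m ∈ j • C := by
  induction j with
  | zero => intro m _ h2; have : m = 0 := by omega
            subst this; simp
  | succ j ih =>
    intro m h1 h2
    rw [Nat.succ_mul] at h1 h2
    have hj : j * a ≤ j * b := Nat.mul_le_mul_left _ hab
    by_cases hm : m ≤ j * b + a
    · have := mem_add_nsmul (ih (m - a) (by omega) (by omega)) (mem_one (h a le_rfl hab))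
      rwa [Nat.sub_add_cancel (by omega)] at this
    · have := mem_add_nsmul (ih (j * b) hj le_rfl) (mem_one (h (m - j * b) (by omega) (by omega)))
      rwa [Nat.add_sub_cancel' (by omega)] at this

theorem ycover {C : Set ℕ} {a b y : ℕ} (hab : 3 * a ≤ b) (h : ∀ x, a ≤ x → x ≤ b → x ∈ C)
    (hy : y ∈ C) (hyb : y ≤ 3 * b) (t : ℕ) :
    ∀ m, (t + 3) * a ≤ m → m ≤ t * y + 3 * b → m ∈ (t + 3) • C := by
  induction t with
  | zero => intro m h1 h2; exact icc_mem (by omega) h _ m h1 (by simpa using h2)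
  | succ t ih =>
    intro m h1 h2
    by_cases hm : y + (t + 3) * a ≤ m
    · have := mem_add_nsmul (ih (m - y) (by omega) (by rw [Nat.succ_mul] at h2; omega)) (mem_one hy)
      rw [Nat.sub_add_cancel (by omega)] at this
      exact this
    · refine icc_mem (by omega) h _ m h1 ?_
      have : (t + 3) * a ≤ (t + 1) * b := by nlinarith
      nlinarith

theorem split_y {C : Set ℕ} {y : ℕ} (h : ℕ) :
    ∀ m ∈ h • (insert y C), ∃ i j x, i + j = h ∧ x ∈ j • C ∧ m = i * y + x := by
  induction h with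
  | zero => intro m hm; exact ⟨0, 0, 0, rfl, by simp, by simpa using hm⟩
  | succ h ih =>
    intro m hm
    rw [succ_nsmul] at hm
    obtain ⟨a, ha, b, hb, rfl⟩ := hm
    obtain ⟨i, j, x, h1, h2, rfl⟩ := ih a ha
    rcases hb with rfl | hb
    · exact ⟨i + 1, j, x, by omega, h2, by simp only; ring⟩
    · exact ⟨i, j + 1, x + b, by omega, mem_add_nsmul h2 (mem_one hb), by simp only; ring⟩

theorem le_of_mem {C : Set ℕ} {b : ℕ} (hb : ∀ x ∈ C, x ≤ b) (j : ℕ) : ∀ m ∈ j • C, m ≤ j * b := by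
  induction j with
  | zero => intro m hm; simpa using hm
  | succ j ih =>
    intro m hm
    rw [succ_nsmul] at hm
    obtain ⟨a, ha, c, hc, rfl⟩ := hm
    have := ih a ha
    have := hb c hc
    simp only [Nat.succ_mul]; omega

theorem restrict {C : Set ℕ} (n : ℕ) (j : ℕ) :
    ∀ m ∈ j • C, m ≤ n → m ∈ j • {x ∈ C | x ≤ n} := by
  induction j with
  | zero => intro m hm _; simpa using hm
  | succ j ih =>
    intro m hm hn
    rw [succ_nsmul] at hm ⊢
    obtain ⟨a, ha, c, hc, rfl⟩ := hm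
    simp only at hn
    exact Set.add_mem_add (ih a ha (by omega)) ⟨hc, by omega⟩

section constr

variable (g r : ℕ)

def P (k : ℕ) : ℕ := ((g + 3) * r + 1) * (12 * (g + 3) ^ 3) ^ k

def y (k : ℕ) : ℕ := (12 * g + 34) * P g r k

def M (k : ℕ) : ℕ := (g + 1) * y g r k + 2 * P g r k + 2

theorem P_succ (k : ℕ) : P g r (k + 1) = 12 * (g + 3) ^ 3 * P g r k := by
  unfold P; ring

theorem P_ge (k : ℕ) : (g + 3) * r + 1 ≤ P g r k := by
  unfold P
  exact Nat.le_mul_of_pos_right _ (by positivity)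

theorem P_gt (k : ℕ) : k < P g r k := by
  induction k with
  | zero => have := P_ge g r 0; omega
  | succ k ih =>
    rw [P_succ]
    have : 2 ≤ 12 * (g + 3) ^ 3 := by
      have : 0 < (g + 3) ^ 3 := by positivity
      omega
    nlinarith

theorem hM_le (k : ℕ) : (g + 3) * M g r k ≤ P g r (k + 1) := by
  rw [P_succ]
  have h1 : 1 ≤ P g r k := by have := P_ge g r k; omega
  have : M g r k ≤ 12 * (g + 3) ^ 2 * P g r k := by
    unfold M y
    nlinarith [Nat.zero_le (g * P g r k), Nat.zero_le (g * g * P g r k)]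
  calc (g + 3) * M g r k ≤ (g + 3) * (12 * (g + 3) ^ 2 * P g r k) := Nat.mul_le_mul_left _ this
    _ = _ := by ring

theorem M_le (k : ℕ) : 3 * M g r k ≤ P g r (k + 1) := by
  have := hM_le g r k
  nlinarith [Nat.zero_le (g * M g r k)]

theorem gap (k : ℕ) : y g r k + 2 * P g r k + 2 ≤ M g r k := by
  unfold M
  nlinarith [Nat.zero_le (g * y g r k)]

theorem y_eq (k : ℕ) : y g r k + 2 * P g r k = 3 * (4 * (g + 3) * P g r k) := by
  unfold y; ring

theorem y_ge (k : ℕ) : 34 * P g r k ≤ y g r k := by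
  unfold y; nlinarith [Nat.zero_le (g * P g r k)]

theorem N_ge (k : ℕ) : 12 * P g r k ≤ 4 * (g + 3) * P g r k := by
  nlinarith [Nat.zero_le (g * P g r k)]

theorem step (k : ℕ) : y g r k ≤ y g r (k + 1) ∧ M g r k ≤ M g r (k + 1) := by
  have h1 := gap g r k
  have h2 := M_le g r k
  have h3 := y_ge g r (k + 1)
  have h4 := gap g r (k + 1)
  omega

theorem y_mono : Monotone (y g r) := monotone_nat_of_le_succ fun k => (step g r k).1

theorem M_mono : Monotone (M g r) := monotone_nat_of_le_succ fun k => (step g r k).2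

/-- membership in the k-th block with target S -/
def InBlock (k : ℕ) (S : Finset ℕ) (a : ℕ) : Prop :=
  (M g r k ≤ a ∧ a ≤ P g r (k + 1)) ∨ (∃ s ∈ S, a + s = 2 * P g r (k + 1) + 1) ∨
    (2 * P g r (k + 1) + 2 ≤ a + M g r k ∧ a + M g r k ≤ 2 * P g r (k + 1) + 1 + P g r k) ∨
    (2 * P g r (k + 1) + 2 ≤ a ∧ a ≤ 4 * (g + 3) * P g r (k + 1)) ∨ a = y g r (k + 1)

theorem block_bounds {k : ℕ} {S : Finset ℕ} (hS : ∀ s ∈ S, s ≤ y g r k) {a : ℕ}
    (ha : InBlock g r k S a) : M g r k ≤ a ∧ a ≤ y g r (k + 1) := by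
  have h1 := gap g r k
  have h2 := M_le g r k
  have h3 := y_ge g r (k + 1)
  have h4 := y_eq g r (k + 1)
  have h5 := N_ge g r (k + 1)
  rcases ha with h | ⟨s, hs, h⟩ | h | h | h
  · omega
  · have := hS s hs; omega
  · omega
  · omega
  · omega

structure Good (A : Set ℕ) (S : ℕ → Finset ℕ) : Prop where
  mem : ∀ a, a ∈ A ↔ a < r ∨ ∃ k, InBlock g r k (S k) a
  sub : ∀ k, ∀ s ∈ S k, s ∈ A
  card : ∀ k, (S k).card = r
  le : ∀ k, ∀ s ∈ S k, s ≤ y g r k
  often : ∀ S0 : Finset ℕ, (∀ s ∈ S0, s ∈ A) → S0.card = r → ∀ K, ∃ k, K ≤ k ∧ S k = S0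

variable {g r}

theorem r_le (k : ℕ) : r ≤ y g r k := by
  have h1 := P_ge g r k
  have h2 := y_ge g r k
  nlinarith [Nat.zero_le (g * r)]

theorem Good.small {A : Set ℕ} {S : ℕ → Finset ℕ} (H : Good g r A S) {k a : ℕ} (ha : a ∈ A)
    (h : a < M g r k) : a ≤ y g r k := by
  rcases (H.mem a).1 ha with h1 | ⟨j, hj⟩
  · have := r_le (g := g) (r := r) k; omega
  · have hb := block_bounds g r (H.le j) hj
    have hjk : j < k := by
      by_contra hc
      have := M_mono g r (not_lt.1 hc)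
      omega
    exact hb.2.trans (y_mono g r hjk)

theorem Good.classify {A : Set ℕ} {S : ℕ → Finset ℕ} (H : Good g r A S) {k a : ℕ} (ha : a ∈ A)
    (h1 : M g r k ≤ a) (h2 : a < M g r (k + 1)) : InBlock g r k (S k) a := by
  have hg := gap g r k
  rcases (H.mem a).1 ha with h | ⟨j, hj⟩
  · have := r_le (g := g) (r := r) k; omega
  · have hb := block_bounds g r (H.le j) hj
    rcases lt_trichotomy j k with hjk | rfl | hjk
    · have := y_mono g r (show j + 1 ≤ k from hjk); omega
    · exact hj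
    · have := M_mono g r (show k + 1 ≤ j from hjk); omega

theorem Good.not_two {A : Set ℕ} {S : ℕ → Finset ℕ} (H : Good g r A S) (k : ℕ) {a b : ℕ}
    (ha : a ∈ A \ ↑(S k)) (hb : b ∈ A \ ↑(S k)) (hab : b ≤ a) :
    a + b ≠ 2 * P g r (k + 1) + 1 := by
  intro h
  have h1 := gap g r k
  have h2 := M_le g r k
  have h3 := y_ge g r (k + 1)
  have h4 := gap g r (k + 1)
  have h5 := P_gt g r (k + 1)
  rcases H.classify (k := k) ha.1 (by omega) (by omega) with h' | ⟨s, hs, h'⟩ | h' | h' | h'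
  · omega
  · have : b = s := by omega
    exact hb.2 (by rw [this]; exact_mod_cast hs)
  · have := H.small (k := k) hb.1 (by omega)
    omega
  · omega
  · omega

theorem Good.not_mem {A : Set ℕ} {S : ℕ → Finset ℕ} (H : Good g r A S) (k : ℕ) :
    M g r (k + 1) - 1 ∉ (g + 3) • (A \ ↑(S k)) := by
  intro hm
  have h1 := gap g r k
  have h2 := M_le g r k
  have h3 := y_ge g r (k + 1)
  have h4 := gap g r (k + 1)
  have h5 := P_gt g r (k + 1)
  have h6 := y_eq g r (k + 1)
  have h7 := N_ge g r (k + 1)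
  have hm1 := restrict _ _ _ hm le_rfl
  set C : Set ℕ := {x ∈ A \ ↑(S k) | x ≤ 4 * (g + 3) * P g r (k + 1)} with hC
  have hsub : {x ∈ A \ ↑(S k) | x ≤ M g r (k + 1) - 1} ⊆ insert (y g r (k + 1)) C := by
    rintro x ⟨hx, hx2⟩
    by_cases hx3 : x ≤ 4 * (g + 3) * P g r (k + 1)
    · exact Or.inr ⟨hx, hx3⟩
    · left
      rcases H.classify (k := k) hx.1 (by omega) (by omega) with h' | ⟨s, hs, h'⟩ | h' | h' | h'
      all_goals omega
  have hm2 := Set.nsmul_subset_nsmul_left (n := g + 3) hsub hm1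
  obtain ⟨i, j, x, hij, hx, he⟩ := split_y _ _ hm2
  have hx2 := le_of_mem (C := C) (fun x hx => hx.2) j x hx
  have hM : M g r (k + 1) = (g + 1) * y g r (k + 1) + 2 * P g r (k + 1) + 2 := rfl
  generalize 4 * (g + 3) * P g r (k + 1) = N at *
  rcases lt_trichotomy j 2 with hj | rfl | hj
  · have : (g + 2) * y g r (k + 1) ≤ i * y g r (k + 1) := Nat.mul_le_mul_right _ (by omega)
    have e : (g + 2) * y g r (k + 1) = (g + 1) * y g r (k + 1) + y g r (k + 1) := by ring
    omega
  · have hi : i = g + 1 := by omega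
    subst hi
    rw [two_nsmul] at hx
    obtain ⟨a, ha, b, hb, rfl⟩ := hx
    simp only at he
    rcases le_total a b with hab | hab
    · exact H.not_two k hb.1 ha.1 hab (by omega)
    · exact H.not_two k ha.1 hb.1 hab (by omega)
  · obtain ⟨t, rfl⟩ : ∃ t, j = t + 3 := ⟨j - 3, by omega⟩
    have hg : g = i + t := by omega
    subst hg
    have : t * N ≤ t * y (i + t) r (k + 1) := Nat.mul_le_mul_left _ (by omega)
    have e : (i + t + 1) * y (i + t) r (k + 1)
        = i * y (i + t) r (k + 1) + t * y (i + t) r (k + 1) + y (i + t) r (k + 1) := by ring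
    have e2 : (t + 3) * N = t * N + 3 * N := by ring
    omega

theorem Good.cover {A : Set ℕ} {S : ℕ → Finset ℕ} (H : Good g r A S) (T : Finset ℕ)
    (hT : T.card < r) {c : ℕ} (hc : c < r) (hcT : c ∉ T) (k : ℕ) (hk : ∀ t ∈ T, t < M g r k) :
    ∀ m, M g r k + (g + 2) * c ≤ m → m < M g r (k + 1) + (g + 2) * c →
      m ∈ (g + 3) • (A \ ↑T) := by
  intro m hm1 hm2
  have h1 := gap g r k
  have h2 := hM_le g r k
  have h2' := M_le g r k
  have h3 := y_ge g r (k + 1)
  have h4 := gap g r (k + 1)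
  have h5 := P_ge g r k
  have h6 := y_eq g r (k + 1)
  have h7 := N_ge g r (k + 1)
  have h8 : (g + 2) * c ≤ (g + 3) * r := Nat.mul_le_mul (by omega) hc.le
  have hb : ∀ a, InBlock g r k (S k) a → a ∈ A \ ↑T := by
    intro a ha
    refine ⟨(H.mem a).2 (Or.inr ⟨k, ha⟩), fun h => ?_⟩
    have := hk a (by exact_mod_cast h)
    have := block_bounds g r (H.le k) ha
    omega
  have hcC : c ∈ A \ ↑T := ⟨(H.mem c).2 (Or.inl hc), by exact_mod_cast hcT⟩
  have hshift : ∀ a, a ∈ A \ ↑T → a + (g + 2) * c ∈ (g + 3) • (A \ ↑T) := by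
    intro a ha
    have := mem_add_nsmul (mem_one ha) (mul_mem hcC (g + 2))
    rwa [show 1 + (g + 2) = g + 3 by ring] at this
  have hy := hb _ (Or.inr (Or.inr (Or.inr (Or.inr rfl))))
  have htwo : ∀ a b, a ∈ A \ ↑T → b ∈ A \ ↑T →
      (g + 1) * y g r (k + 1) + (a + b) ∈ (g + 3) • (A \ ↑T) := by
    intro a b ha hb
    exact mem_add_nsmul (i := g + 1) (j := 1 + 1) (mul_mem hy (g + 1))
      (mem_add_nsmul (mem_one ha) (mem_one hb))
  have hM : M g r (k + 1) = (g + 1) * y g r (k + 1) + 2 * P g r (k + 1) + 2 := rfl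
  by_cases c1 : m ≤ P g r (k + 1) + (g + 2) * c
  · have := hshift (m - (g + 2) * c) (hb _ (Or.inl ⟨by omega, by omega⟩))
    rwa [Nat.sub_add_cancel (by omega)] at this
  by_cases c2 : m ≤ (g + 3) * P g r (k + 1)
  · exact icc_mem (a := M g r k) (by omega) (fun x h1 h2 => hb x (Or.inl ⟨h1, h2⟩)) _ m
      (by omega) c2
  have e1 : (g + 3) * P g r (k + 1) = g * P g r (k + 1) + 3 * P g r (k + 1) := by ring
  by_cases c3 : m ≤ 4 * (g + 3) * P g r (k + 1) + (g + 2) * c
  · have := hshift (m - (g + 2) * c)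
      (hb _ (Or.inr (Or.inr (Or.inr (Or.inl ⟨by omega, by omega⟩)))))
    rwa [Nat.sub_add_cancel (by omega)] at this
  by_cases c4 : m ≤ g * y g r (k + 1) + 3 * (4 * (g + 3) * P g r (k + 1))
  · refine ycover (a := 2 * P g r (k + 1) + 2) (by omega)
      (fun x h1 h2 => hb x (Or.inr (Or.inr (Or.inr (Or.inl ⟨h1, h2⟩))))) hy (by omega) g m ?_ c4
    have : (g + 3) * (2 * P g r (k + 1) + 2) ≤ 4 * (g + 3) * P g r (k + 1) := by
      have : 1 ≤ P g r (k + 1) := by omega
      nlinarith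
    omega
  have e2 : (g + 1) * y g r (k + 1) = g * y g r (k + 1) + y g r (k + 1) := by ring
  by_cases c5 : m = (g + 1) * y g r (k + 1) + 2 * P g r (k + 1) + 1
  · obtain ⟨s, hs, hsT⟩ : ∃ s ∈ S k, s ∉ T := by
      by_contra hcon
      push Not at hcon
      have := Finset.card_le_card (show S k ⊆ T from hcon)
      rw [H.card] at this
      omega
    have hsle := H.le k s hs
    have := htwo (2 * P g r (k + 1) + 1 - s) s
      (hb _ (Or.inr (Or.inl ⟨s, hs, by omega⟩))) ⟨H.sub k s hs, by exact_mod_cast hsT⟩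
    rwa [show (g + 1) * y g r (k + 1) + (2 * P g r (k + 1) + 1 - s + s) = m by omega] at this
  · have := htwo (m - (g + 1) * y g r (k + 1) - M g r k) (M g r k)
      (hb _ (Or.inr (Or.inr (Or.inl ⟨by omega, by omega⟩)))) (hb _ (Or.inl ⟨le_rfl, by omega⟩))
    rwa [show (g + 1) * y g r (k + 1) + (m - (g + 1) * y g r (k + 1) - M g r k + M g r k) = m by
      omega] at this

theorem Good.finite {A : Set ℕ} {S : ℕ → Finset ℕ} (H : Good g r A S) (T : Finset ℕ)
    (hT : T.card < r) : {m | m ∉ (g + 3) • (A \ ↑T)}.Finite := by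
  obtain ⟨c, hc, hcT⟩ : ∃ c ∈ Finset.range r, c ∉ T := by
    by_contra hcon
    push Not at hcon
    have := Finset.card_le_card (show Finset.range r ⊆ T from hcon)
    rw [Finset.card_range] at this
    omega
  rw [Finset.mem_range] at hc
  have hPM : ∀ k, k < M g r k := fun k => by
    have := P_gt g r k
    have := gap g r k
    omega
  set K := T.sup id with hK
  have hk : ∀ k, K ≤ k → ∀ t ∈ T, t < M g r k := by
    intro k hk t ht
    have : t ≤ K := Finset.le_sup (f := id) ht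
    have := hPM k
    omega
  have main : ∀ k, K ≤ k → ∀ m, M g r K + (g + 2) * c ≤ m → m < M g r k + (g + 2) * c →
      m ∈ (g + 3) • (A \ ↑T) := by
    intro k hKk
    induction k, hKk using Nat.le_induction with
    | base => intro m h1 h2; omega
    | succ k hKk ih =>
      intro m h1 h2
      by_cases h3 : m < M g r k + (g + 2) * c
      · exact ih m h1 h3
      · exact H.cover T hT hc hcT k (hk k hKk) m (by omega) h2
  refine (Set.finite_lt_nat (M g r K + (g + 2) * c)).subset ?_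
  intro m hm
  by_contra hlt
  simp only [Set.mem_ofPred_eq, not_lt] at hlt hm
  refine hm (main (K + m) (by omega) m hlt ?_)
  have := hPM (K + m)
  omega

theorem Good.infinite {A : Set ℕ} {S : ℕ → Finset ℕ} (H : Good g r A S) (T : Finset ℕ)
    (hTA : ∀ t ∈ T, t ∈ A) (hT : T.card = r) : {m | m ∉ (g + 3) • (A \ ↑T)}.Infinite := by
  refine Set.infinite_of_forall_exists_gt fun K => ?_
  obtain ⟨k, hk, hS⟩ := H.often T hTA hT K
  refine ⟨M g r (k + 1) - 1, ?_, ?_⟩
  · rw [← hS]; exact H.not_mem k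
  · have := P_gt g r (k + 1)
    have := gap g r (k + 1)
    omega

variable (g r)

def dec (k : ℕ) : Finset ℕ := (Denumerable.eqv (Finset ℕ)).symm (Nat.unpair k).1

open Classical in
noncomputable def tgt (k : ℕ) (F : Set ℕ) : Finset ℕ :=
  if (∀ s ∈ dec k, s ∈ F) ∧ (dec k).card = r then dec k else Finset.range r

noncomputable def F : ℕ → Set ℕ
  | 0 => {a | a < r}
  | k + 1 => F k ∪ {a | InBlock g r k (tgt r k (F k)) a}

theorem F_mono : Monotone (F g r) := monotone_nat_of_le_succ fun _ => Set.subset_union_left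

theorem tgt_sub (k : ℕ) : ∀ s ∈ tgt r k (F g r k), s ∈ F g r k := by
  intro s hs
  unfold tgt at hs
  split_ifs at hs with h
  · exact h.1 s hs
  · exact F_mono g r (Nat.zero_le k) (Finset.mem_range.1 hs)

theorem F_le (k : ℕ) : ∀ a ∈ F g r k, a ≤ y g r k := by
  induction k with
  | zero => intro a ha; exact (le_of_lt ha).trans (r_le 0)
  | succ k ih =>
    rintro a (ha | ha)
    · exact (ih a ha).trans (step g r k).1
    · exact (block_bounds g r (fun s hs => ih s (tgt_sub g r k s hs)) ha).2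

theorem good : Good g r (⋃ k, F g r k) (fun k => tgt r k (F g r k)) where
  mem := by
    intro a
    simp only [Set.mem_iUnion]
    constructor
    · rintro ⟨k, hk⟩
      induction k with
      | zero => exact Or.inl hk
      | succ k ih =>
        rcases hk with hk | hk
        · exact ih hk
        · exact Or.inr ⟨k, hk⟩
    · rintro (h | ⟨k, hk⟩)
      · exact ⟨0, h⟩
      · exact ⟨k + 1, Or.inr hk⟩
  sub := fun k s hs => Set.mem_iUnion.2 ⟨k, tgt_sub g r k s hs⟩
  card := by
    intro k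
    unfold tgt
    split_ifs with h
    · exact h.2
    · exact Finset.card_range r
  le := fun k s hs => F_le g r k s (tgt_sub g r k s hs)
  often := by
    intro S0 h1 h2 K
    have h3 : ∀ s, ∃ k, s ∈ S0 → s ∈ F g r k := by
      intro s
      by_cases hs : s ∈ S0
      · obtain ⟨k, hk⟩ := Set.mem_iUnion.1 (h1 s hs)
        exact ⟨k, fun _ => hk⟩
      · exact ⟨0, fun h => absurd h hs⟩
    choose κ hκ using h3
    let k := Nat.pair (Denumerable.eqv (Finset ℕ) S0) (K + S0.sup κ)
    have hk : K + S0.sup κ ≤ k := Nat.right_le_pair _ _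
    have hd : dec k = S0 := by
      simp only [dec, k, Nat.unpair_pair, Equiv.symm_apply_apply]
    refine ⟨k, by omega, ?_⟩
    unfold tgt
    rw [hd, if_pos]
    refine ⟨fun s hs => F_mono g r ?_ (hκ s hs), h2⟩
    have := Finset.le_sup (f := κ) hs
    omega

end constr

end Pool.Agent.H32.RMin
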