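import Mathlib

/-! Uniqueness lemmas on an interval and a boundary identity for `((1+z)/(1-z))^(is)`. -/

set_option autoImplicit false

namespace Pool.Agent.H32.Re

open MeasureTheory Set Filter Topology Complex
open scoped Real ENNReal ComplexConjugate

theorem int_mul {μ : Measure ℝ} {h : ℝ → ℂ} (hi : Integrable h μ) {w : ℝ → ℂ} (hw : Measurable w) {C : ℝ}
    (hb : ∀ t, ‖w t‖ ≤ C) : Integrable (fun t => h t * w t) μ :=
  hi.mul_bdd hw.aestronglyMeasurable (ae_of_all _ hb)

theorem nexp (s y : ℝ) : ‖cexp (s * y * I)‖ = 1 := by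
  rw [← ofReal_mul, norm_exp_ofReal_mul_I]

theorem uniq_le {S : Set ℝ} (hS : MeasurableSet S) {r x : ℝ → ℝ} (hr : Measurable r)
    (hi : Integrable r (volume.restrict S)) (hx : Measurable x) (hinj : InjOn x S)
    (h : ∀ s : ℝ, ∫ t in S, (r t : ℂ) * cexp (s * x t * I) = 0) : ∀ᵐ t ∂volume.restrict S, r t ≤ 0 := by
  set μ := volume.restrict S
  haveI := isFiniteMeasure_withDensity_ofReal hi.2
  haveI := isFiniteMeasure_withDensity_ofReal hi.neg.2
  have key : ∀ q : ℝ → ℝ, Measurable q → ∀ s : ℝ,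
      charFun ((μ.withDensity fun t => ENNReal.ofReal (q t)).map x) s =
        ∫ t, ((max (q t) 0 : ℝ) : ℂ) * cexp (s * x t * I) ∂μ := by
    intro q hq s
    rw [charFun_apply_real, integral_map hx.aemeasurable (by fun_prop),
      integral_withDensity_eq_integral_toReal_smul hq.ennreal_ofReal (by simp)]
    simp only [ENNReal.toReal_ofReal', real_smul]
  have e : (μ.withDensity fun t => ENNReal.ofReal (r t)).map x =
      (μ.withDensity fun t => ENNReal.ofReal ((-r) t)).map x := by
    refine Measure.ext_of_charFun (funext fun s => ?_)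
    rw [key r hr, key _ hr.neg, ← sub_eq_zero, ← integral_sub
      (int_mul (h := fun t => ((max (r t) 0 : ℝ) : ℂ)) hi.pos_part.ofReal (by fun_prop)
        fun t => (nexp s (x t)).le)
      (int_mul (h := fun t => ((max ((-r) t) 0 : ℝ) : ℂ)) hi.neg.pos_part.ofReal (by fun_prop)
        fun t => (nexp s (x t)).le), ← h s]
    refine integral_congr_ae (ae_of_all _ fun t => ?_)
    simp only [Pi.neg_apply]
    rw [← sub_mul, ← ofReal_sub, max_zero_sub_max_neg_zero_eq_self]
  have hA : MeasurableSet (S ∩ {t | 0 < r t}) := hS.inter (measurableSet_lt measurable_const hr)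
  have hB := hA.image_of_measurable_injOn hx (hinj.mono inter_subset_left)
  have h1 := congrArg (fun ν : Measure ℝ => ν (x '' (S ∩ {t | 0 < r t}))) e
  simp only [Measure.map_apply hx hB, withDensity_apply _ (hx hB)] at h1
  have h2 : ∫⁻ t in x ⁻¹' (x '' (S ∩ {t | 0 < r t})), ENNReal.ofReal ((-r) t) ∂μ = 0 := by
    rw [lintegral_eq_zero_iff hr.neg.ennreal_ofReal, EventuallyEq, ae_restrict_iff' (hx hB)]
    filter_upwards [ae_restrict_mem hS] with t ht ⟨u, hu, hu2⟩
    rw [← hinj hu.1 ht hu2]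
    exact ENNReal.ofReal_eq_zero.2 (neg_nonpos.2 (le_of_lt hu.2))
  rw [h2, lintegral_eq_zero_iff hr.ennreal_ofReal, EventuallyEq, ae_restrict_iff' (hx hB)] at h1
  filter_upwards [h1, ae_restrict_mem hS] with t h3 ht
  by_contra h4
  exact h4 (ENNReal.ofReal_eq_zero.1 (h3 ⟨t, ⟨ht, not_le.1 h4⟩, rfl⟩))

theorem uniq_real {S : Set ℝ} (hS : MeasurableSet S) {r x : ℝ → ℝ} (hr : Measurable r)
    (hi : Integrable r (volume.restrict S)) (hx : Measurable x) (hinj : InjOn x S)
    (h : ∀ s : ℝ, ∫ t in S, (r t : ℂ) * cexp (s * x t * I) = 0) : ∀ᵐ t ∂volume.restrict S, r t = 0 := by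
  filter_upwards [uniq_le hS hr hi hx hinj h, uniq_le hS hr.neg hi.neg hx hinj fun s => by
    simp only [Pi.neg_apply, ofReal_neg, neg_mul, integral_neg, h s, neg_zero]] with t h1 h2
  exact le_antisymm h1 (neg_nonpos.1 h2)

theorem uniq {S : Set ℝ} (hS : MeasurableSet S) {h : ℝ → ℂ} {x : ℝ → ℝ} (hr : Measurable h)
    (hi : Integrable h (volume.restrict S)) (hx : Measurable x) (hinj : InjOn x S)
    (H : ∀ s : ℝ, ∫ t in S, h t * cexp (s * x t * I) = 0) : ∀ᵐ t ∂volume.restrict S, h t = 0 := by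
  have H2 : ∀ s : ℝ, ∫ t in S, conj (h t) * cexp (s * x t * I) = 0 := fun s => by
    have := congrArg conj (H (-s))
    rw [← integral_conj, map_zero] at this
    simpa [← exp_conj] using this
  have i1 := fun s : ℝ => int_mul hi (w := fun t => cexp (s * x t * I)) (by fun_prop) fun t => (nexp _ _).le
  have i2 := fun s : ℝ => int_mul (conjCLE.integrable_comp_iff.2 hi) (w := fun t => cexp (s * x t * I))
    (by fun_prop) fun t => (nexp _ _).le
  refine ((uniq_real hS (r := fun t => (h t).re) (measurable_re.comp hr) hi.re hx hinj fun s => ?_).and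
    (uniq_real hS (r := fun t => (h t).im) (measurable_im.comp hr) hi.im hx hinj fun s => ?_)).mono
    fun t ht => Complex.ext ht.1 ht.2
  · have := integral_add (i1 s) (i2 s)
    simp only [conjCLE_apply, H, H2, add_zero, ← add_mul, add_conj, ofReal_mul, mul_assoc (((2 : ℝ) : ℂ)),
      integral_const_mul] at this
    simpa using this
  · have := integral_sub (i1 s) (i2 s)
    simp only [conjCLE_apply, H, H2, sub_zero] at this
    refine mul_left_cancel₀ (a := 2 * I) (by simp) ?_
    rw [mul_zero, ← this, ← integral_const_mul]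
    refine integral_congr_ae (ae_of_all _ fun t => ?_)
    simp only [← sub_mul, sub_conj]
    push_cast
    ring

theorem cos_complete {h : ℝ → ℂ} (hr : Measurable h) (hi : Integrable h (volume.restrict (Ioo 0 π)))
    (H : ∀ n : ℕ, ∫ t in Ioo 0 π, h t * Real.cos (n * t) = 0) :
    ∀ᵐ t ∂volume.restrict (Ioo 0 π), h t = 0 := by
  have b : ∀ (k : ℕ) (n : ℤ) (t : ℝ), ‖((Real.cos t ^ k * Real.cos (n * t) : ℝ) : ℂ)‖ ≤ 1 := fun k n t => by
    rw [norm_real, norm_mul, norm_pow]
    exact mul_le_one₀ (pow_le_one₀ (norm_nonneg _) (Real.abs_cos_le_one _)) (norm_nonneg _)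
      (Real.abs_cos_le_one _)
  have H2 : ∀ (k : ℕ) (n : ℤ), ∫ t in Ioo 0 π, h t * ((Real.cos t ^ k * Real.cos (n * t) : ℝ) : ℂ) = 0 := by
    intro k
    induction k with
    | zero =>
      intro n
      obtain ⟨m, rfl | rfl⟩ := n.eq_nat_or_neg <;> simpa using H m
    | succ k ih =>
      intro n
      have := integral_add (int_mul hi (by fun_prop) (b k (n + 1))) (int_mul hi (by fun_prop) (b k (n - 1)))
      rw [ih, ih, add_zero] at this
      refine mul_left_cancel₀ (two_ne_zero (α := ℂ)) ?_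
      rw [mul_zero, ← this, ← integral_const_mul]
      refine integral_congr_ae (ae_of_all _ fun t => ?_)
      simp only [Int.cast_add, Int.cast_sub, Int.cast_one, add_mul, sub_mul, one_mul, Real.cos_add,
        Real.cos_sub]
      push_cast
      ring
  refine uniq measurableSet_Ioo hr hi Real.measurable_cos (Real.injOn_cos.mono Ioo_subset_Icc_self)
    fun s => ?_
  have h1 := hasSum_integral_of_summable_integral_norm (μ := volume.restrict (Ioo 0 π))
    (F := fun (k : ℕ) t => (s * I) ^ k / k.factorial * (h t * ((Real.cos t ^ k * Real.cos ((0 : ℤ) * t) : ℝ) : ℂ)))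
    (fun k => (int_mul hi (by fun_prop) (b k 0)).const_mul _) (by
      refine Summable.of_nonneg_of_le (fun _ => integral_nonneg fun _ => norm_nonneg _) (fun k => ?_)
        ((Real.summable_pow_div_factorial |s|).mul_right (∫ t in Ioo 0 π, ‖h t‖))
      simp only [norm_mul _ (h _ * _), integral_const_mul]
      refine mul_le_mul (by simp) (integral_mono (int_mul hi (by fun_prop) (b k 0)).norm hi.norm fun t => ?_)
        (integral_nonneg fun _ => norm_nonneg _) (by positivity)
      exact (norm_mul_le _ _).trans (mul_le_of_le_one_right (norm_nonneg _) (b k 0 t)))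
  simp only [integral_const_mul, H2, mul_zero] at h1
  rw [hasSum_zero.unique h1]
  refine integral_congr_ae (ae_of_all _ fun t => ?_)
  have h2 := (NormedSpace.expSeries_div_hasSum_exp (s * Real.cos t * I : ℂ)).mul_left (h t)
  rw [← Complex.exp_eq_exp_ℂ] at h2
  refine (h2.tsum_eq.symm.trans (tsum_congr fun k => ?_))
  simp only [Int.cast_zero, zero_mul, Real.cos_zero, mul_one]
  push_cast
  ring

noncomputable def gg (s : ℝ) (z : ℂ) : ℂ := cexp (s * (log (1 + z) - log (1 - z)) * I)

noncomputable def xx (t : ℝ) : ℝ := Real.log (2 * Real.cos (t / 2)) - Real.log (2 * Real.sin (t / 2))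

theorem gg_meas (s : ℝ) : Measurable (gg s) := by
  have := Complex.measurable_log
  unfold gg
  fun_prop

theorem gg_le (s : ℝ) (z : ℂ) : ‖gg s z‖ ≤ Real.exp (|s| * (2 * π)) := by
  rw [gg, norm_exp]
  refine Real.exp_le_exp.2 ?_
  simp only [mul_I_re, im_ofReal_mul, sub_im, log_im]
  refine (neg_le_abs _).trans ?_
  rw [abs_mul]
  gcongr
  linarith [abs_sub (arg (1 + z)) (arg (1 - z)), abs_arg_le_pi (1 + z), abs_arg_le_pi (1 - z)]

theorem gg_diff (s : ℝ) {z : ℂ} (h : |z.re| < 1) : DifferentiableAt ℂ (gg s) z := by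
  obtain ⟨h1, h2⟩ := abs_lt.1 h
  have k1 : DifferentiableAt ℂ (fun z : ℂ => log (1 + z)) z :=
    DifferentiableAt.clog (by fun_prop) (Or.inl (by simp; linarith))
  have k2 : DifferentiableAt ℂ (fun z : ℂ => log (1 - z)) z :=
    DifferentiableAt.clog (by fun_prop) (Or.inl (by simp; linarith))
  unfold gg
  fun_prop

theorem lg {r y : ℝ} (hr : 0 < r) (hy : |y| < π) : log (r * cexp (y * I)) = Real.log r + y * I := by
  rw [log_ofReal_mul hr (exp_ne_zero _), log_exp (by simpa using (abs_lt.1 hy).1)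
    (by simpa using (abs_lt.1 hy).2.le)]

theorem gg_bd (s : ℝ) {t : ℝ} (ht : t ∈ Ioo 0 π) (e : ℝ) (he : e = 1 ∨ e = -1) :
    gg s (cexp ((e * t : ℝ) * I)) = cexp (-(e * s * π / 2 : ℝ)) * cexp (s * xx t * I) := by
  have c0 : 0 < 2 * Real.cos (t / 2) := by
    have := Real.cos_pos_of_mem_Ioo (x := t / 2) ⟨by linarith [ht.1, Real.pi_pos], by linarith [ht.2]⟩
    linarith
  have s0 : 0 < 2 * Real.sin (t / 2) := by
    have := Real.sin_pos_of_pos_of_lt_pi (x := t / 2) (by linarith [ht.1]) (by linarith [ht.2, Real.pi_pos])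
    linarith
  have e1 : 1 + cexp ((e * t : ℝ) * I) = (2 * Real.cos (t / 2) : ℝ) * cexp ((e * (t / 2) : ℝ) * I) := by
    rw [show ((e * t : ℝ) : ℂ) * I = (e * (t / 2) : ℝ) * I + (e * (t / 2) : ℝ) * I by push_cast; ring, exp_add,
      exp_mul_I]
    have := Complex.sin_sq_add_cos_sq (t / 2)
    rcases he with rfl | rfl <;> simp <;> linear_combination (exp := 1) -this + sin (t / 2) ^ 2 * I_sq
  have e2 : 1 - cexp ((e * t : ℝ) * I) =
      (2 * Real.sin (t / 2) : ℝ) * cexp ((e * (t / 2 - π / 2) : ℝ) * I) := by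
    rw [show ((e * t : ℝ) : ℂ) * I = (e * (t / 2) : ℝ) * I + (e * (t / 2) : ℝ) * I by push_cast; ring, exp_add,
      exp_mul_I, exp_mul_I]
    have := Complex.sin_sq_add_cos_sq (t / 2)
    rcases he with rfl | rfl <;> simp [Complex.cos_sub, Complex.sin_sub] <;>
      linear_combination (exp := 1) -this - sin (t / 2) ^ 2 * I_sq
  have he' : |e| = 1 := by rcases he with rfl | rfl <;> simp
  rw [gg, e1, e2, lg c0, lg s0, ← exp_add, xx]
  · congr 1
    push_cast
    linear_combination (e * s * π / 2) * I_sq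
  · rw [abs_mul, he', one_mul, abs_lt]; constructor <;> linarith [ht.1, ht.2]
  · rw [abs_mul, he', one_mul, abs_lt]; constructor <;> linarith [ht.1, ht.2]

theorem circ (s : ℝ) (n : ℕ) {r : ℝ} (h0 : 0 < r) (h1 : r < 1) :
    ∫ t in Ioo 0 π, (cexp ((1 * t : ℝ) * I) ^ (n + 1) * gg s (r * cexp ((1 * t : ℝ) * I)) +
      cexp ((-1 * t : ℝ) * I) ^ (n + 1) * gg s (r * cexp ((-1 * t : ℝ) * I))) = 0 := by
  have hd : ∀ z : ℂ, ‖z‖ ≤ r → DifferentiableAt ℂ (gg s) z := fun z hz =>
    gg_diff s (((abs_re_le_norm z).trans hz).trans_lt h1)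
  have h2 := circleIntegral_eq_zero_of_differentiable_on_off_countable (c := 0) h0.le
    (f := fun z => z ^ n * gg s z) countable_empty
    (fun z hz => (((differentiableAt_id.pow n).mul (hd z (by simpa using hz))).continuousAt.continuousWithinAt))
    fun z hz => (differentiableAt_id.pow n).mul (hd z (by simpa using (mem_ball_zero_iff.1 hz.1).le))
  let φ : ℝ → ℂ := fun t => cexp (t * I) ^ (n + 1) * gg s (r * cexp (t * I))
  have hφ : Continuous φ := by
    refine Continuous.mul (by fun_prop) (continuous_iff_continuousAt.2 fun t => ?_)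
    exact ContinuousAt.comp (f := fun t : ℝ => (r : ℂ) * cexp (t * I))
      (hd _ (by simp [abs_of_pos h0])).continuousAt (by fun_prop)
  have h3 : ∫ t in (0 : ℝ)..2 * π, φ t = 0 := by
    refine mul_left_cancel₀ (a := (r : ℂ) ^ (n + 1) * I) (by simp [h0.ne']) ?_
    rw [mul_zero, ← h2, ← intervalIntegral.integral_const_mul, circleIntegral]
    refine intervalIntegral.integral_congr fun t _ => ?_
    simp only [φ, deriv_circleMap, circleMap, zero_add, smul_eq_mul]
    ring
  have h4 := intervalIntegral.integral_comp_sub_left (a := 0) (b := π) φ (2 * π)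
  rw [← intervalIntegral.integral_add_adjacent_intervals (b := π) (hφ.intervalIntegrable _ _)
    (hφ.intervalIntegrable _ _)] at h3
  rw [show 2 * π - π = π by ring, sub_zero] at h4
  rw [← h4, ← intervalIntegral.integral_add (hφ.intervalIntegrable _ _)
    (Continuous.intervalIntegrable (u := fun x => φ (2 * π - x)) (by fun_prop) _ _), intervalIntegral.integral_of_le Real.pi_pos.le,
    integral_Ioc_eq_integral_Ioo] at h3
  rw [← h3]
  refine integral_congr_ae (ae_of_all _ fun t => ?_)
  have : cexp (((2 * π - t : ℝ) : ℂ) * I) = cexp ((-1 * t : ℝ) * I) := by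
    rw [show ((2 * π - t : ℝ) : ℂ) * I = (-1 * t : ℝ) * I + 2 * π * I by push_cast; ring, exp_add,
      exp_two_pi_mul_I, mul_one]
  simp only [φ, one_mul, this]

theorem bdry (s : ℝ) (n : ℕ) :
    ∫ t in Ioo 0 π, (cexp ((1 * t : ℝ) * I) ^ (n + 1) * cexp (-(1 * s * π / 2 : ℝ)) +
      cexp ((-1 * t : ℝ) * I) ^ (n + 1) * cexp (-(-1 * s * π / 2 : ℝ))) * cexp (s * xx t * I) = 0 := by
  have hm := gg_meas s
  have h1 := tendsto_integral_filter_of_dominated_convergence (μ := volume.restrict (Ioo 0 π))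
    (l := 𝓝[<] (1 : ℝ)) (F := fun (r : ℝ) t =>
      cexp ((1 * t : ℝ) * I) ^ (n + 1) * gg s (r * cexp ((1 * t : ℝ) * I)) +
      cexp ((-1 * t : ℝ) * I) ^ (n + 1) * gg s (r * cexp ((-1 * t : ℝ) * I)))
    (f := fun t => cexp ((1 * t : ℝ) * I) ^ (n + 1) * gg s (cexp ((1 * t : ℝ) * I)) +
      cexp ((-1 * t : ℝ) * I) ^ (n + 1) * gg s (cexp ((-1 * t : ℝ) * I)))
    (fun _ => Real.exp (|s| * (2 * π)) + Real.exp (|s| * (2 * π)))
    (Eventually.of_forall fun r => Measurable.aestronglyMeasurable (by fun_prop))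
    (Eventually.of_forall fun r => ae_of_all _ fun t => (norm_add_le _ _).trans (by
      simp only [norm_mul, norm_pow, norm_exp_ofReal_mul_I, one_pow, one_mul]
      exact add_le_add (gg_le _ _) (gg_le _ _))) (integrable_const _) (by
      filter_upwards [ae_restrict_mem measurableSet_Ioo] with t ht
      have k : ∀ e : ℝ, e = 1 ∨ e = -1 → Tendsto (fun r : ℝ => gg s (r * cexp ((e * t : ℝ) * I))) (𝓝[<] 1)
          (𝓝 (gg s (cexp ((e * t : ℝ) * I)))) := by
        intro e he
        refine (gg_diff s ?_).continuousAt.tendsto.comp (tendsto_nhdsWithin_of_tendsto_nhds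
          (Continuous.tendsto' (by fun_prop) _ _ (by simp)))
        have h2 := Real.sin_pos_of_pos_of_lt_pi ht.1 ht.2
        rw [exp_ofReal_mul_I_re, ← sq_lt_one_iff_abs_lt_one]
        rcases he with rfl | rfl <;> simp only [one_mul, neg_mul, Real.cos_neg] <;>
          nlinarith [Real.sin_sq_add_cos_sq t]
      exact ((k 1 (Or.inl rfl)).const_mul _).add ((k (-1) (Or.inr rfl)).const_mul _))
  have h2 := tendsto_nhds_unique h1 (tendsto_const_nhds.congr' (by
    filter_upwards [Ioo_mem_nhdsLT (zero_lt_one (α := ℝ))] with r hr using (circ s n hr.1 hr.2).symm))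
  rw [← h2]
  refine setIntegral_congr_fun measurableSet_Ioo fun t ht => ?_
  simp only [gg_bd s ht 1 (Or.inl rfl), gg_bd s ht (-1) (Or.inr rfl)]
  ring

theorem xx_inj : InjOn xx (Ioo 0 π) := by
  refine StrictAntiOn.injOn fun a ha b hb hab => ?_
  have := Real.pi_pos
  have c0 := Real.cos_pos_of_mem_Ioo (x := b / 2) ⟨by linarith [hb.1], by linarith [hb.2]⟩
  have s0 := Real.sin_pos_of_pos_of_lt_pi (x := a / 2) (by linarith [ha.1]) (by linarith [ha.2])
  have h1 := Real.cos_lt_cos_of_nonneg_of_le_pi (x := a / 2) (y := b / 2) (by linarith [ha.1])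
    (by linarith [hb.2]) (by linarith)
  have h2 := Real.sin_lt_sin_of_lt_of_le_pi_div_two (x := a / 2) (y := b / 2) (by linarith [ha.1])
    (by linarith [hb.2]) (by linarith)
  have h3 := Real.log_lt_log (x := 2 * Real.cos (b / 2)) (y := 2 * Real.cos (a / 2)) (by linarith) (by linarith)
  have h4 := Real.log_lt_log (x := 2 * Real.sin (a / 2)) (y := 2 * Real.sin (b / 2)) (by linarith) (by linarith)
  unfold xx
  linarith

end Pool.Agent.H32.Re
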