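import Mathlib

set_option autoImplicit false

namespace Pool.Agent.H32.Sat4

open Filter Topology Complex Pointwise

noncomputable def om : Fin 4 → ℂ := ![1, I, 1 - I, 1 + I]

noncomputable def ph (j : Fin 4) (z : ℂ) : ℝ := |(om j * z).re|

theorem om_norm (j : Fin 4) : ‖om j‖ ≤ 2 := by
  have h1 : ‖(1 : ℂ) - I‖ ≤ 2 := (norm_sub_le _ _).trans (by simp; norm_num)
  have h2 : ‖(1 : ℂ) + I‖ ≤ 2 := (norm_add_le _ _).trans (by simp; norm_num)
  fin_cases j <;> simp [om, h1, h2]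

theorem ph_lip (j : Fin 4) (z w : ℂ) : ph j w ≤ ph j z + 2 * ‖w - z‖ := by
  have h1 : (om j * w).re = (om j * z).re + (om j * (w - z)).re := by
    rw [← add_re]; congr 1; ring
  have h2 : |(om j * (w - z)).re| ≤ 2 * ‖w - z‖ := by
    refine (abs_re_le_norm _).trans ?_
    rw [norm_mul]
    exact mul_le_mul_of_nonneg_right (om_norm j) (norm_nonneg _)
  unfold ph
  rw [h1]
  linarith [abs_add_le (om j * z).re (om j * (w - z)).re]

/-- weight -/
noncomputable def W (δ : ℝ) (z : ℂ) (j : Fin 4) : ℝ := Real.exp (ph j z + δ * ‖z‖)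

theorem W_pos (δ : ℝ) (z : ℂ) (j : Fin 4) : 0 < W δ z j := Real.exp_pos _

theorem W_mono {δ ε : ℝ} (h : δ ≤ ε) (z : ℂ) (j : Fin 4) : W δ z j ≤ W ε z j := by
  unfold W
  have := mul_le_mul_of_nonneg_right h (norm_nonneg z)
  exact Real.exp_le_exp.mpr (by linarith)

theorem W_add (δ ε : ℝ) (z : ℂ) (j : Fin 4) : W (δ + ε) z j = Real.exp (ε * ‖z‖) * W δ z j := by
  unfold W
  rw [← Real.exp_add]
  congr 1
  ring

noncomputable def P : Submodule ℂ (ℂ → Fin 4 → ℂ) where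
  carrier := {x | Differentiable ℂ x ∧ ∀ δ : ℝ, 0 < δ → ∃ C : ℝ, 0 < C ∧ ∀ z j, ‖x z j‖ ≤ C * W δ z j}
  add_mem' := by
    rintro x y ⟨h1, h2⟩ ⟨h3, h4⟩
    refine ⟨h1.add h3, fun δ hδ => ?_⟩
    obtain ⟨C, hC, h⟩ := h2 δ hδ
    obtain ⟨D, hD, h'⟩ := h4 δ hδ
    refine ⟨C + D, by positivity, fun z j => ?_⟩
    have := norm_add_le (x z j) (y z j)
    have := h z j
    have := h' z j
    simp only [Pi.add_apply]
    linarith
  zero_mem' := ⟨differentiable_const _, fun δ _ => ⟨1, one_pos, fun z j => by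
    simpa using (W_pos δ z j).le⟩⟩
  smul_mem' := by
    rintro c x ⟨h1, h2⟩
    refine ⟨h1.const_smul c, fun δ hδ => ?_⟩
    obtain ⟨C, hC, h⟩ := h2 δ hδ
    refine ⟨(‖c‖ + 1) * C, by positivity, fun z j => ?_⟩
    simp only [Pi.smul_apply, norm_smul]
    have := h z j
    have := W_pos δ z j
    have := norm_nonneg c
    have := norm_nonneg (x z j)
    nlinarith

theorem poly_bound (p : Polynomial ℂ) {δ : ℝ} (hδ : 0 < δ) :
    ∃ C : ℝ, 0 < C ∧ ∀ z : ℂ, ‖p.eval z‖ ≤ C * Real.exp (δ * ‖z‖) := by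
  induction p using Polynomial.induction_on' with
  | add p q hp hq =>
    obtain ⟨C, hC, h⟩ := hp
    obtain ⟨D, hD, h'⟩ := hq
    refine ⟨C + D, by positivity, fun z => ?_⟩
    rw [Polynomial.eval_add]
    have := norm_add_le (p.eval z) (q.eval z)
    have := h z
    have := h' z
    linarith
  | monomial n a =>
    refine ⟨(‖a‖ + 1) * (n.factorial / δ ^ n), by positivity, fun z => ?_⟩
    rw [Polynomial.eval_monomial, norm_mul, norm_pow, mul_assoc]
    have h1 := Real.pow_div_factorial_le_exp (δ * ‖z‖) (by positivity) n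
    have h2 : ‖z‖ ^ n ≤ n.factorial / δ ^ n * Real.exp (δ * ‖z‖) := by
      rw [div_le_iff₀ (by positivity), mul_pow] at h1
      rw [div_mul_eq_mul_div, le_div_iff₀ (by positivity)]
      linarith
    exact mul_le_mul (by linarith) h2 (by positivity) (by positivity)

theorem poly_mem (p : Polynomial ℂ) (f : ℂ → Fin 4 → ℂ) (hf : f ∈ P) :
    (fun w => p.eval w • f w) ∈ P := by
  refine ⟨p.differentiable.smul hf.1, fun δ hδ => ?_⟩
  obtain ⟨C, hC, h⟩ := hf.2 (δ / 2) (by positivity)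
  obtain ⟨D, hD, h'⟩ := poly_bound p (show 0 < δ / 2 by positivity)
  refine ⟨D * C, by positivity, fun z j => ?_⟩
  have e : W δ z j = Real.exp (δ / 2 * ‖z‖) * W (δ / 2) z j := by rw [← W_add]; ring_nf
  simp only [Pi.smul_apply, norm_smul]
  rw [e]
  calc _ ≤ (D * Real.exp (δ / 2 * ‖z‖)) * (C * W (δ / 2) z j) :=
        mul_le_mul (h' z) (h z j) (norm_nonneg _) (by positivity)
    _ = _ := by ring

def B (δ : ℝ) : Set P := {x | ∀ z j, ‖(x : ℂ → Fin 4 → ℂ) z j‖ ≤ δ * W δ z j}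

theorem B_mono {δ ε : ℝ} (h0 : 0 < δ) (h : δ ≤ ε) : B δ ⊆ B ε := fun _ hx z j =>
  (hx z j).trans (mul_le_mul h (W_mono h z j) (W_pos _ _ _).le (h0.le.trans h))

noncomputable def FB : ModuleFilterBasis ℂ P where
  toAddGroupFilterBasis := addGroupFilterBasisOfComm {U | ∃ δ, 0 < δ ∧ U = B δ}
    ⟨B 1, 1, one_pos, rfl⟩
    (by
      rintro _ _ ⟨δ, hδ, rfl⟩ ⟨ε, hε, rfl⟩
      exact ⟨B (min δ ε), ⟨_, lt_min hδ hε, rfl⟩, Set.subset_inter
        (B_mono (lt_min hδ hε) (min_le_left _ _)) (B_mono (lt_min hδ hε) (min_le_right _ _))⟩)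
    (by
      rintro _ ⟨δ, hδ, rfl⟩ z j
      have := W_pos δ z j
      simp only [Submodule.coe_zero, Pi.zero_apply, norm_zero]
      positivity)
    (by
      rintro _ ⟨δ, hδ, rfl⟩
      refine ⟨B (δ / 2), ⟨_, by positivity, rfl⟩, ?_⟩
      rintro _ ⟨x, hx, y, hy, rfl⟩ z j
      have h1 := hx z j
      have h2 := hy z j
      have h3 := W_mono (show δ / 2 ≤ δ by linarith) z j
      have h4 := norm_add_le ((x : ℂ → Fin 4 → ℂ) z j) ((y : ℂ → Fin 4 → ℂ) z j)
      simp only [Submodule.coe_add, Pi.add_apply]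
      nlinarith)
    (by
      rintro _ ⟨δ, hδ, rfl⟩
      refine ⟨B δ, ⟨_, hδ, rfl⟩, fun x hx z j => ?_⟩
      simpa using hx z j)
  smul' := by
    rintro _ ⟨δ, hδ, rfl⟩
    refine ⟨Metric.closedBall 0 1, Metric.closedBall_mem_nhds _ one_pos, B δ, ⟨δ, hδ, rfl⟩, ?_⟩
    rintro _ ⟨c, hc, x, hx, rfl⟩ z j
    have h1 := hx z j
    have h2 : ‖c‖ ≤ 1 := by simpa using hc
    simp only [Submodule.coe_smul, Pi.smul_apply, norm_smul]
    exact (mul_le_of_le_one_left (norm_nonneg _) h2).trans h1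
  smul_left' := by
    rintro c _ ⟨δ, hδ, rfl⟩
    have hc := norm_nonneg c
    refine ⟨B (δ / (‖c‖ + 1)), ⟨_, by positivity, rfl⟩, fun x hx z j => ?_⟩
    have h1 := hx z j
    have h0 : δ / (‖c‖ + 1) ≤ δ := div_le_self hδ.le (by linarith)
    have h3 := W_mono h0 z j
    have h4 := W_pos (δ / (‖c‖ + 1)) z j
    simp only [Submodule.coe_smul, Pi.smul_apply, norm_smul]
    calc _ ≤ (‖c‖ + 1) * (δ / (‖c‖ + 1) * W (δ / (‖c‖ + 1)) z j) :=
          mul_le_mul (by linarith) h1 (norm_nonneg _) (by positivity)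
      _ = δ * W (δ / (‖c‖ + 1)) z j := by field_simp
      _ ≤ _ := mul_le_mul_of_nonneg_left h3 hδ.le
  smul_right' := by
    rintro x _ ⟨δ, hδ, rfl⟩
    obtain ⟨C, hC, h⟩ := x.2.2 δ hδ
    filter_upwards [Metric.closedBall_mem_nhds (0 : ℂ) (show 0 < δ / C by positivity)] with c hc z j
    have h2 : ‖c‖ ≤ δ / C := by simpa using hc
    simp only [Submodule.coe_smul, Pi.smul_apply, norm_smul]
    calc _ ≤ δ / C * (C * W δ z j) := mul_le_mul h2 (h z j) (norm_nonneg _) (by positivity)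
      _ = _ := by field_simp

noncomputable abbrev tau : TopologicalSpace P := FB.topology

theorem mem_nhds (V : Set P) : V ∈ @nhds P tau 0 ↔ ∃ δ, 0 < δ ∧ B δ ⊆ V := by
  rw [FB.toAddGroupFilterBasis.nhds_zero_hasBasis.mem_iff]
  constructor
  · rintro ⟨_, ⟨δ, hδ, rfl⟩, h⟩
    exact ⟨δ, hδ, h⟩
  · rintro ⟨δ, hδ, h⟩
    exact ⟨B δ, ⟨δ, hδ, rfl⟩, h⟩

theorem B_mem {δ : ℝ} (hδ : 0 < δ) : B δ ∈ @nhds P tau 0 := (mem_nhds _).mpr ⟨δ, hδ, subset_rfl⟩

theorem t2 : @T2Space P tau := by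
  rw [@AddGroupFilterBasis.t2Space_iff_sInter_subset P _ tau FB.toAddGroupFilterBasis rfl]
  intro x hx
  apply Subtype.ext
  funext z j
  have : ‖(x : ℂ → Fin 4 → ℂ) z j‖ ≤ 0 := by
    apply le_of_forall_pos_le_add
    intro ε hε
    have hW := W_pos 1 z j
    have h1 := hx (B (min 1 (ε / W 1 z j))) ⟨_, by positivity, rfl⟩ z j
    have h2 := W_mono (min_le_left 1 (ε / W 1 z j)) z j
    calc _ ≤ _ := h1
      _ ≤ ε / W 1 z j * W 1 z j :=
          mul_le_mul (min_le_right _ _) h2 (W_pos _ _ _).le (by positivity)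
      _ = 0 + ε := by field_simp; ring
  simpa using this

theorem lconv : ∀ V ∈ @nhds P tau 0, ∃ U ∈ @nhds P tau 0, U ⊆ V ∧
   ∀ x ∈ U, ∀ y ∈ U, ∀ t : ℝ, 0 ≤ t → t ≤ 1 → (t : ℂ) • x + ((1 - t : ℝ) : ℂ) • y ∈ U := by
  intro V hV
  obtain ⟨δ, hδ, h⟩ := (mem_nhds V).mp hV
  refine ⟨B δ, B_mem hδ, h, fun x hx y hy t h0 h1 z j => ?_⟩
  simp only [Submodule.coe_add, Submodule.coe_smul, Pi.add_apply, Pi.smul_apply]
  refine (norm_add_le _ _).trans ?_
  rw [norm_smul, norm_smul, norm_real, norm_real, Real.norm_of_nonneg h0,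
    Real.norm_of_nonneg (by linarith)]
  have := hx z j
  have := hy z j
  nlinarith

theorem poly_cont (p : Polynomial ℂ) (g : P → P)
    (hg : ∀ x : P, ((g x : P) : ℂ → Fin 4 → ℂ) = fun w => p.eval w • (x : ℂ → Fin 4 → ℂ) w) :
    @Continuous P P tau tau g := by
  letI := tau
  haveI : IsTopologicalAddGroup P := FB.toAddGroupFilterBasis.isTopologicalAddGroup
  let g' : P →+ P := AddMonoidHom.mk' g (by
    intro x y
    apply Subtype.ext
    simp only [Submodule.coe_add, hg]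
    funext w
    simp)
  refine continuous_of_continuousAt_zero g' ?_
  rw [ContinuousAt, map_zero]
  intro V hV
  obtain ⟨δ, hδ, h⟩ := (mem_nhds V).mp hV
  obtain ⟨D, hD, h'⟩ := poly_bound p (show 0 < δ / 2 by positivity)
  refine (mem_nhds _).mpr ⟨min (δ / 2) (δ / D), by positivity, fun x hx => h fun z j => ?_⟩
  show ‖((g x : P) : ℂ → Fin 4 → ℂ) z j‖ ≤ _
  rw [hg]
  have e : W δ z j = Real.exp (δ / 2 * ‖z‖) * W (δ / 2) z j := by rw [← W_add]; ring_nf
  simp only [Pi.smul_apply, norm_smul]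
  rw [e]
  have h1 : ‖(x : ℂ → Fin 4 → ℂ) z j‖ ≤ δ / D * W (δ / 2) z j :=
    (hx z j).trans (mul_le_mul (min_le_right _ _) (W_mono (min_le_left _ _) z j) (W_pos _ _ _).le
      (by positivity))
  calc _ ≤ (D * Real.exp (δ / 2 * ‖z‖)) * (δ / D * W (δ / 2) z j) :=
        mul_le_mul (h' z) h1 (norm_nonneg _) (by positivity)
    _ = _ := by field_simp

theorem divide {x g : ℂ → Fin 4 → ℂ} (hg : Differentiable ℂ g) {c : ℂ}
    (h : ∀ w, x w = (w - c) • g w) {A δ : ℝ} (hA : 0 ≤ A) (hδ : 0 < δ)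
    (hx : ∀ z j, ‖x z j‖ ≤ A * W δ z j) (z : ℂ) (j : Fin 4) :
    ‖g z j‖ ≤ A * Real.exp (2 * (2 + δ)) * W δ z j := by
  have key : ∀ w, 1 ≤ ‖w - c‖ → ‖g w j‖ ≤ A * W δ w j := by
    intro w hw
    have := hx w j
    rw [h, Pi.smul_apply, norm_smul] at this
    exact (le_mul_of_one_le_left (norm_nonneg _) hw).trans this
  have hE : 1 ≤ Real.exp (2 * (2 + δ)) := Real.one_le_exp (by positivity)
  have hW := W_pos δ z j
  by_cases hz : 1 ≤ ‖z - c‖
  · refine (key z hz).trans ?_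
    exact mul_le_mul_of_nonneg_right (le_mul_of_one_le_right hA hE) hW.le
  · push Not at hz
    have hd : Differentiable ℂ fun w => g w j := differentiable_pi.mp hg j
    refine Complex.norm_le_of_forall_mem_frontier_norm_le (U := Metric.ball c 1)
      Metric.isBounded_ball hd.diffContOnCl (fun w hw => ?_)
      (subset_closure (by simpa [dist_eq_norm] using hz))
    rw [frontier_ball c one_ne_zero, mem_sphere_iff_norm] at hw
    refine (key w hw.ge).trans ?_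
    rw [mul_assoc]
    refine mul_le_mul_of_nonneg_left ?_ hA
    have h1 : ‖w - z‖ ≤ 2 := by
      have := norm_sub_le (w - c) (z - c)
      rw [sub_sub_sub_cancel_right] at this
      linarith
    have h2 := ph_lip j z w
    have h3 : ‖w‖ ≤ ‖z‖ + 2 := by
      have := norm_add_le z (w - z)
      rw [add_sub_cancel] at this
      linarith
    unfold W
    rw [← Real.exp_add]
    refine Real.exp_le_exp.mpr ?_
    nlinarith

theorem stable : ∀ V ∈ @nhds P tau 0, ∃ U ∈ @nhds P tau 0, ∀ (c : ℂ), ∀ x ∈ U, ∀ g : ℂ → Fin 4 → ℂ,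
   DifferentiableOn ℂ g Set.univ → (∀ w ∉ (Set.univ : Set ℂ), g w = 0) →
   (∀ w ∈ (Set.univ : Set ℂ), (x : ℂ → Fin 4 → ℂ) w = (w - c) • g w) →
   ∃ y ∈ V, (y : ℂ → Fin 4 → ℂ) = g := by
  intro V hV
  obtain ⟨δ, hδ, h⟩ := (mem_nhds V).mp hV
  have hE : 1 ≤ Real.exp (2 * (2 + δ)) := Real.one_le_exp (by positivity)
  refine ⟨B (δ / Real.exp (2 * (2 + δ))), B_mem (by positivity), fun c x hx g hg _ hxg => ?_⟩
  have hg' : Differentiable ℂ g := differentiableOn_univ.mp hg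
  have hxg' : ∀ w, (x : ℂ → Fin 4 → ℂ) w = (w - c) • g w := fun w => hxg w trivial
  have hP : g ∈ P := by
    refine ⟨hg', fun ε hε => ?_⟩
    obtain ⟨C, hC, h'⟩ := x.2.2 ε hε
    exact ⟨C * Real.exp (2 * (2 + ε)), by positivity, divide hg' hxg' hC.le hε h'⟩
  refine ⟨⟨g, hP⟩, h fun z j => ?_, rfl⟩
  have := divide hg' hxg' (A := δ / Real.exp (2 * (2 + δ))) (by positivity) hδ (fun z j =>
    (hx z j).trans (mul_le_mul_of_nonneg_left (W_mono (div_le_self hδ.le hE) z j) (by positivity))) z j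
  rwa [div_mul_cancel₀ _ (by positivity)] at this

theorem sum_bound (n : ℕ) (F : Fin n → P) {δ : ℝ} (hδ : 0 < δ) : ∃ C : ℝ, 0 < C ∧
    ∀ w i, ∑ m, ‖(F m : ℂ → Fin 4 → ℂ) w i‖ ≤ C * W δ w i := by
  choose C hC h using fun m => (F m).2.2 δ hδ
  have h0 : 0 ≤ ∑ m, C m := Finset.sum_nonneg fun m _ => (hC m).le
  refine ⟨∑ m, C m + 1, by positivity, fun w i => ?_⟩
  have := W_pos δ w i
  rw [add_mul, Finset.sum_mul]
  have := Finset.sum_le_sum (s := Finset.univ) fun m _ => h m w i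
  linarith

theorem cond3 (n : ℕ) (F : Fin n → P) :
   (∀ g : ℂ → Fin 4 → ℂ, DifferentiableOn ℂ g Set.univ → (∀ w ∉ (Set.univ : Set ℂ), g w = 0) →
     (∀ w ∈ (Set.univ : Set ℂ), ∀ i, ‖g w i‖ ≤ ∑ m, ‖(F m : ℂ → Fin 4 → ℂ) w i‖) → g ∈ P) ∧
   (∀ V ∈ @nhds P tau 0, ∃ r : ℝ, 0 < r ∧ ∀ a : ℂ, r ≤ ‖a‖ → ∀ x : P,
     (∀ w ∈ (Set.univ : Set ℂ), ∀ i, ‖(x : ℂ → Fin 4 → ℂ) w i‖ ≤ ∑ m, ‖(F m : ℂ → Fin 4 → ℂ) w i‖) →
     ∃ y ∈ V, x = a • y) := by
  constructor
  · intro g hg _ h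
    refine ⟨differentiableOn_univ.mp hg, fun δ hδ => ?_⟩
    obtain ⟨C, hC, h'⟩ := sum_bound n F hδ
    exact ⟨C, hC, fun z j => (h z trivial j).trans (h' z j)⟩
  · intro V hV
    obtain ⟨δ, hδ, h⟩ := (mem_nhds V).mp hV
    obtain ⟨C, hC, h'⟩ := sum_bound n F hδ
    refine ⟨C / δ, by positivity, fun a ha x hx => ?_⟩
    have ha0 : 0 < ‖a‖ := lt_of_lt_of_le (by positivity) ha
    refine ⟨a⁻¹ • x, h fun z j => ?_, by rw [smul_inv_smul₀ (norm_pos_iff.mp ha0)]⟩
    simp only [Submodule.coe_smul, Pi.smul_apply, norm_smul, norm_inv]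
    rw [inv_mul_le_iff₀ ha0]
    refine ((hx z trivial j).trans (h' z j)).trans ?_
    rw [div_le_iff₀ hδ] at ha
    have := W_pos δ z j
    nlinarith

noncomputable def II : Submodule ℂ (ℂ → Fin 4 → ℂ) where
  carrier := {x | x ∈ P ∧ ∀ z, x z 0 = x z 1 ∧ x z 2 = x z 3}
  add_mem' := by
    rintro x y ⟨h1, h2⟩ ⟨h3, h4⟩
    refine ⟨P.add_mem h1 h3, fun z => ?_⟩
    simp [h2 z, h4 z]
  zero_mem' := ⟨P.zero_mem, fun _ => ⟨rfl, rfl⟩⟩
  smul_mem' := by
    rintro c x ⟨h1, h2⟩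
    refine ⟨P.smul_mem c h1, fun z => ?_⟩
    simp [h2 z]

theorem II_eq {x : ℂ → Fin 4 → ℂ} (hx : x ∈ II) (z : ℂ) {i j : Fin 4} (h : i.val / 2 = j.val / 2) :
    x z i = x z j := by
  obtain ⟨h1, h2⟩ := hx.2 z
  fin_cases i <;> fin_cases j <;> simp_all

theorem const_mem (v : Fin 4 → ℂ) (hv : ∀ j, ‖v j‖ ≤ 1) : (fun _ => v) ∈ P := by
  refine ⟨differentiable_const _, fun δ hδ => ⟨1, one_pos, fun z j => (hv j).trans ?_⟩⟩
  rw [one_mul]
  exact Real.one_le_exp (add_nonneg (abs_nonneg _) (by positivity))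

theorem rank_ge : ∃ c ∈ (Set.univ : Set ℂ), ∃ (u : Fin 2 → ℂ → Fin 4 → ℂ) (J : Fin 2 → Fin 4),
    (∀ s, u s ∈ II) ∧ StrictMono J ∧
   ¬ (∀ᶠ w in nhds c, (Matrix.of fun r s => u s w (J r)).det = 0) := by
  refine ⟨0, trivial, ![fun _ => ![1, 1, 0, 0], fun _ => ![0, 0, 1, 1]], ![0, 2], ?_, by decide, ?_⟩
  · intro s
    fin_cases s
    · exact ⟨const_mem ![1, 1, 0, 0] (fun j => by fin_cases j <;> simp), fun z => by simp⟩
    · exact ⟨const_mem ![0, 0, 1, 1] (fun j => by fin_cases j <;> simp), fun z => by simp⟩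
  · intro h
    have := h.self_of_nhds
    simp [Matrix.det_fin_two] at this

theorem det_zero {r : ℕ} (u : Fin r → ℂ → Fin 4 → ℂ) (J : Fin r → Fin 4) (hu : ∀ s, u s ∈ II)
    {a b : Fin r} (hab : a ≠ b) (h : (J a).val / 2 = (J b).val / 2) (w : ℂ) :
    (Matrix.of fun a s => u s w (J a)).det = 0 := by
  refine Matrix.det_zero_of_row_eq hab ?_
  funext s
  exact II_eq (hu s) w h

theorem rank_le (c : ℂ) (r : ℕ) (u : Fin r → ℂ → Fin 4 → ℂ) (J : Fin r → Fin 4) (hu : ∀ s, u s ∈ II)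
    (h : ¬ (∀ᶠ w in nhds c, (Matrix.of fun a s => u s w (J a)).det = 0)) : r ≤ 2 := by
  by_contra hr
  apply h
  obtain ⟨a, b, hab, he⟩ := Fintype.exists_ne_map_eq_of_card_lt
    (fun a : Fin r => (⟨(J a).val / 2, by have := (J a).2; omega⟩ : Fin 2)) (by simp; omega)
  exact Eventually.of_forall (det_zero u J hu hab (by simpa using he))

theorem pl1 {a : ℂ → ℂ} (ha : Differentiable ℂ a) {δ : ℝ} (hδ : 0 < δ)
    (h1 : ∀ z, ‖a z‖ ≤ δ * Real.exp (|z.re| + δ * ‖z‖))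
    (h2 : ∀ z, ‖a z‖ ≤ δ * Real.exp (|z.im| + δ * ‖z‖)) {z : ℂ} (hre : 0 ≤ z.re) (him : 0 ≤ z.im) :
    ‖a z‖ ≤ δ * Real.exp (2 * δ * ‖z‖) := by
  have hn : ∀ w : ℂ, ‖a w * exp (-(δ : ℂ) * (1 - I) * w)‖ = ‖a w‖ * Real.exp (-(δ * (w.re + w.im))) := by
    intro w
    rw [norm_mul, norm_exp]
    congr 2
    simp
    ring
  have key : ‖a z * exp (-(δ : ℂ) * (1 - I) * z)‖ ≤ δ := by
    refine PhragmenLindelof.quadrant_I (f := fun w => a w * exp (-(δ : ℂ) * (1 - I) * w))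
      (Differentiable.diffContOnCl (by fun_prop)) ⟨1, by norm_num, 1 + δ, ?_⟩ ?_ ?_ hre him
    · refine Asymptotics.IsBigO.of_bound δ ?_
      rw [eventually_inf_principal]
      refine Eventually.of_forall fun w hw => ?_
      have a1 : 0 < w.re := hw.1
      have a2 : 0 < w.im := hw.2
      rw [hn, Real.norm_of_nonneg (Real.exp_pos _).le, Real.rpow_one]
      have a3 : Real.exp (-(δ * (w.re + w.im))) ≤ 1 := Real.exp_le_one_iff.mpr (by
        have : 0 ≤ δ * (w.re + w.im) := by positivity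
        linarith)
      refine (mul_le_of_le_one_right (norm_nonneg _) a3).trans ((h1 w).trans ?_)
      refine mul_le_mul_of_nonneg_left (Real.exp_le_exp.mpr ?_) hδ.le
      have := abs_re_le_norm w
      linarith
    · intro x hx
      rw [hn]
      have := h2 x
      simp only [ofReal_im, abs_zero, zero_add, norm_real, Real.norm_of_nonneg hx, ofReal_re,
        add_zero] at this ⊢
      rw [Real.exp_neg, mul_inv_le_iff₀ (Real.exp_pos _)]
      exact this
    · intro x hx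
      rw [hn]
      have := h1 (x * I)
      simp only [mul_re, ofReal_re, I_re, mul_zero, ofReal_im, I_im, mul_one, sub_self, abs_zero,
        zero_add, norm_mul, norm_real, Real.norm_of_nonneg hx, norm_I, mul_im, add_zero] at this ⊢
      rw [Real.exp_neg, mul_inv_le_iff₀ (Real.exp_pos _)]
      exact this
  rw [hn, Real.exp_neg, mul_inv_le_iff₀ (Real.exp_pos _)] at key
  refine key.trans (mul_le_mul_of_nonneg_left (Real.exp_le_exp.mpr ?_) hδ.le)
  have b1 := (le_abs_self _).trans (abs_re_le_norm z)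
  have b2 := (le_abs_self _).trans (abs_im_le_norm z)
  nlinarith

theorem pl {a : ℂ → ℂ} (ha : Differentiable ℂ a) {δ : ℝ} (hδ : 0 < δ)
    (h1 : ∀ z, ‖a z‖ ≤ δ * Real.exp (|z.re| + δ * ‖z‖))
    (h2 : ∀ z, ‖a z‖ ≤ δ * Real.exp (|z.im| + δ * ‖z‖)) (z : ℂ) :
    ‖a z‖ ≤ δ * Real.exp (2 * δ * ‖z‖) := by
  rcases le_total 0 z.re with hre | hre <;> rcases le_total 0 z.im with him | him
  · exact pl1 ha hδ h1 h2 hre him
  · have := pl1 (a := fun w => a (-I * w)) (by fun_prop) hδ (fun w => by simpa using h2 (-I * w))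
      (fun w => by simpa using h1 (-I * w)) (z := I * z) (by simpa using him) (by simpa using hre)
    have e : -I * (I * z) = z := by rw [← mul_assoc]; simp
    simpa [e] using this
  · have := pl1 (a := fun w => a (I * w)) (by fun_prop) hδ (fun w => by simpa using h2 (I * w))
      (fun w => by simpa using h1 (I * w)) (z := -I * z) (by simpa using him) (by simpa using hre)
    have e : I * (-I * z) = z := by rw [← mul_assoc]; simp
    rw [e] at this
    simpa using this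
  · have := pl1 (a := fun w => a (-w)) (by fun_prop) hδ (fun w => by simpa using h1 (-w))
      (fun w => by simpa using h2 (-w)) (z := -z) (by simpa using hre) (by simpa using him)
    simpa using this

theorem small {x : P} {δ : ℝ} (hδ : 0 < δ) (hx : x ∈ B δ) (hI : (x : ℂ → Fin 4 → ℂ) ∈ II) (z : ℂ)
    (j : Fin 4) : ‖(x : ℂ → Fin 4 → ℂ) z j‖ ≤ δ * Real.exp (4 * δ * ‖z‖) := by
  have hd : ∀ j, Differentiable ℂ fun w => (x : ℂ → Fin 4 → ℂ) w j := differentiable_pi.mp x.2.1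
  have hz := norm_nonneg z
  by_cases hj : j.val / 2 = 0
  · rw [II_eq hI z (j := 0) hj]
    refine (pl (hd 0) hδ (fun w => ?_) (fun w => ?_) z).trans ?_
    · simpa [W, ph, om] using hx w 0
    · rw [(hI.2 w).1]
      simpa [W, ph, om] using hx w 1
    · exact mul_le_mul_of_nonneg_left (Real.exp_le_exp.mpr (by nlinarith)) hδ.le
  · have hj' : j.val / 2 = (2 : Fin 4).val / 2 := by
      have := j.2
      simp
      omega
    rw [II_eq hI z hj']
    have hn : ∀ w : ℂ, ‖(1 + I) / 2 * w‖ ≤ ‖w‖ := by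
      intro w
      rw [norm_mul, norm_div]
      have h2 : ‖(1 : ℂ) + I‖ ≤ 2 := (norm_add_le _ _).trans (by simp; norm_num)
      refine mul_le_of_le_one_left (norm_nonneg _) ?_
      rw [div_le_one (by simp)]
      simpa using h2
    have e1 : ∀ w : ℂ, (1 - I) * ((1 + I) / 2 * w) = w := by
      intro w
      linear_combination (-(w / 2)) * I_mul_I
    have e2 : ∀ w : ℂ, (1 + I) * ((1 + I) / 2 * w) = I * w := by
      intro w
      linear_combination (w / 2) * I_mul_I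
    have := pl (a := fun w => (x : ℂ → Fin 4 → ℂ) ((1 + I) / 2 * w) 2)
      ((hd 2).comp (by fun_prop)) hδ (fun w => ?_) (fun w => ?_) ((1 - I) * z)
    · have e3 : (1 + I) / 2 * ((1 - I) * z) = z := by
        linear_combination (-(z / 2)) * I_mul_I
      simp only [e3] at this
      refine this.trans (mul_le_mul_of_nonneg_left (Real.exp_le_exp.mpr ?_) hδ.le)
      have h1 : ‖(1 : ℂ) - I‖ ≤ 2 := (norm_sub_le _ _).trans (by simp; norm_num)
      rw [norm_mul]
      have := mul_le_mul_of_nonneg_right h1 hz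
      nlinarith
    · refine (hx _ 2).trans (mul_le_mul_of_nonneg_left (Real.exp_le_exp.mpr ?_) hδ.le)
      have : ph 2 ((1 + I) / 2 * w) = |w.re| := by
        show |((1 - I) * _).re| = _
        rw [e1]
      rw [this]
      have := mul_le_mul_of_nonneg_left (hn w) hδ.le
      linarith
    · show ‖(x : ℂ → Fin 4 → ℂ) ((1 + I) / 2 * w) 2‖ ≤ _
      rw [(hI.2 _).2]
      refine (hx _ 3).trans (mul_le_mul_of_nonneg_left (Real.exp_le_exp.mpr ?_) hδ.le)
      have : ph 3 ((1 + I) / 2 * w) = |w.im| := by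
        show |((1 + I) * _).re| = _
        rw [e2]
        simp
      rw [this]
      have := mul_le_mul_of_nonneg_left (hn w) hδ.le
      linarith

noncomputable def ff (z : ℂ) (j : Fin 4) : ℂ := cosh (om j * z)

theorem cosh_le (u : ℂ) : ‖cosh u‖ ≤ Real.exp |u.re| := by
  rw [Complex.cosh, norm_div]
  have h1 := norm_add_le (exp u) (exp (-u))
  rw [norm_exp, norm_exp, neg_re] at h1
  have h2 := Real.exp_le_exp.mpr (le_abs_self u.re)
  have h3 := Real.exp_le_exp.mpr (neg_le_abs u.re)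
  rw [div_le_iff₀ (by simp)]
  simp only [Complex.norm_ofNat]
  linarith

theorem cosh_ge (u : ℂ) {t : ℝ} (ht : 0 ≤ t) (h : t ≤ |u.re|) :
    t / 4 * Real.exp (t / 2) ≤ ‖cosh u‖ := by
  have h0 : Real.exp |u.re| - Real.exp (-|u.re|) ≤ ‖exp u + exp (-u)‖ := by
    rcases le_total 0 u.re with h' | h'
    · have := norm_sub_norm_le (exp u) (-exp (-u))
      rw [norm_neg, norm_exp, norm_exp, neg_re, sub_neg_eq_add] at this
      rwa [abs_of_nonneg h']
    · have := norm_sub_norm_le (exp (-u)) (-exp u)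
      rw [norm_neg, norm_exp, norm_exp, neg_re, sub_neg_eq_add, add_comm] at this
      rwa [abs_of_nonpos h', neg_neg]
  rw [Complex.cosh, norm_div, le_div_iff₀ (by simp)]
  simp only [Complex.norm_ofNat]
  have h1 := Real.exp_le_exp.mpr h
  have h2 : Real.exp (-|u.re|) ≤ 1 := Real.exp_le_one_iff.mpr (by simp)
  have h3 : Real.exp t = Real.exp (t / 2) * Real.exp (t / 2) := by rw [← Real.exp_add]; ring_nf
  have h4 := Real.add_one_le_exp (t / 2)
  nlinarith

theorem ff_mem : ff ∈ P := by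
  refine ⟨differentiable_pi.mpr fun j => by unfold ff; fun_prop, fun δ hδ => ⟨1, one_pos, fun z j => ?_⟩⟩
  rw [one_mul]
  refine (cosh_le _).trans (Real.exp_le_exp.mpr ?_)
  have : 0 ≤ δ * ‖z‖ := by positivity
  unfold ph
  linarith

theorem ph_sum (z : ℂ) {i j : Fin 4} (hi : i.val / 2 = 0) (hj : j.val / 2 = 1) :
    ‖z‖ / 2 ≤ ph i z + ph j z := by
  have h := norm_le_abs_re_add_abs_im z
  have e0 : ph 0 z = |z.re| := by simp [ph, om]
  have e1 : ph 1 z = |z.im| := by simp [ph, om]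
  have e2 : ph 2 z = |z.re + z.im| := by simp [ph, om]
  have e3 : ph 3 z = |z.re - z.im| := by simp [ph, om]
  have i1 : i = 0 ∨ i = 1 := by fin_cases i <;> simp_all
  have j1 : j = 2 ∨ j = 3 := by fin_cases j <;> simp_all
  rcases i1 with rfl | rfl <;> rcases j1 with rfl | rfl <;> simp only [e0, e1, e2, e3] <;>
  cases abs_cases z.re <;> cases abs_cases z.im <;> cases abs_cases (z.re + z.im) <;>
  cases abs_cases (z.re - z.im) <;> linarith

theorem main (z : ℂ) (u : Fin 2 → P) (J : Fin 2 → Fin 4) (hV : ∀ s, u s ∈ B (1 / 32))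
    (hI : ∀ s, (u s : ℂ → Fin 4 → ℂ) ∈ II) (hJ : StrictMono J)
    (hdet : (Matrix.of fun r s => (u s : ℂ → Fin 4 → ℂ) z (J r)).det ≠ 0) :
    ‖z‖ ≤ 1 + ∑ s, ‖((Matrix.of fun r s' => (u s' : ℂ → Fin 4 → ℂ) z (J r)).updateCol s
       (fun r => ff z (J r))).det / (Matrix.of fun r s' => (u s' : ℂ → Fin 4 → ℂ) z (J r)).det‖ := by
  have hne : (J 0).val / 2 ≠ (J 1).val / 2 := fun h =>
    hdet (det_zero (fun s => (u s : ℂ → Fin 4 → ℂ)) J hI (a := 0) (b := 1) (by decide) h z)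
  have hlt : (J 0).val < (J 1).val := hJ (show (0 : Fin 2) < 1 by decide)
  have h3 := (J 1).2
  have hs := ph_sum z (i := J 0) (j := J 1) (by omega) (by omega)
  obtain ⟨r, hr⟩ : ∃ r, ‖z‖ / 4 ≤ ph (J r) z := by
    by_contra hc
    push Not at hc
    linarith [hc 0, hc 1]
  set A : Matrix (Fin 2) (Fin 2) ℂ := Matrix.of fun r s => (u s : ℂ → Fin 4 → ℂ) z (J r) with hA
  set S := ∑ s, ‖(A.updateCol s (fun r => ff z (J r))).det / A.det‖ with hS
  have hc := congrFun (Matrix.mulVec_cramer A (fun r => ff z (J r))) r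
  have h1 : ff z (J r) = ∑ s, A r s * ((A.updateCol s (fun r => ff z (J r))).det / A.det) := by
    simp only [← mul_div_assoc, ← Finset.sum_div]
    rw [eq_div_iff hdet]
    simp only [Matrix.mulVec, dotProduct, Matrix.cramer_apply, Pi.smul_apply, smul_eq_mul] at hc
    rw [hc, mul_comm]
  have h2 : ‖ff z (J r)‖ ≤ 1 / 32 * Real.exp (4 * (1 / 32) * ‖z‖) * S := by
    rw [h1, hS, Finset.mul_sum]
    refine (norm_sum_le _ _).trans (Finset.sum_le_sum fun s _ => ?_)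
    rw [norm_mul]
    exact mul_le_mul_of_nonneg_right (small (by norm_num) (hV s) (hI s) z _) (norm_nonneg _)
  have h4 := cosh_ge (om (J r) * z) (t := ‖z‖ / 4) (by positivity) hr
  have e : 4 * (1 / 32) * ‖z‖ = ‖z‖ / 4 / 2 := by ring
  rw [e] at h2
  have h5 := Real.exp_pos (‖z‖ / 4 / 2)
  have h6 : ‖z‖ / 4 / 4 ≤ 1 / 32 * S := by
    have : ‖z‖ / 4 / 4 * Real.exp (‖z‖ / 4 / 2) ≤ 1 / 32 * S * Real.exp (‖z‖ / 4 / 2) := by
      have := h4.trans h2
      linarith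
    exact le_of_mul_le_mul_right this h5
  have := norm_nonneg z
  linarith

end Pool.Agent.H32.Sat4
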