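import Mathlib

namespace Pool.Agent.H32.Shift

theorem rams (r : ℕ) : ∀ (α : Type) [Finite α], ∃ n : ℕ, ∀ c : List (Fin n) → α,
    ∃ w : List (Fin n), w.length = r + 2 ∧ w.Pairwise (· < ·) ∧ c w.dropLast = c w.tail := by
  induction r with
  | zero =>
    intro α _
    haveI := Fintype.ofFinite α
    refine ⟨Fintype.card α + 1, fun c => ?_⟩
    obtain ⟨a, b, hab, e⟩ := Fintype.exists_ne_map_eq_of_card_lt (fun a => c [a]) (by simp)
    rcases lt_or_gt_of_ne hab with h | h
    · exact ⟨[a, b], rfl, by simp [h], by simpa using e⟩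
    · exact ⟨[b, a], rfl, by simp [h], by simpa using e.symm⟩
  | succ r ih =>
    intro α _
    obtain ⟨n, hn⟩ := ih (Set α)
    refine ⟨n, fun c => ?_⟩
    obtain ⟨w, h1, h2, h3⟩ := hn fun y => {a | ∃ z, (y ++ [z]).Pairwise (· < ·) ∧ c (y ++ [z]) = a}
    have hw : w ≠ [] := by intro e; simp [e] at h1
    have m : c w ∈ {a | ∃ z, (w.dropLast ++ [z]).Pairwise (· < ·) ∧ c (w.dropLast ++ [z]) = a} :=
      ⟨w.getLast hw, by rwa [List.dropLast_append_getLast], by rw [List.dropLast_append_getLast]⟩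
    rw [h3] at m
    obtain ⟨z, hz1, hz2⟩ := m
    match w, h1, h2, hz1, hz2 with
    | a :: b :: t, h1, h2, hz1, hz2 =>
      refine ⟨a :: b :: t ++ [z], by simpa using h1, ?_, ?_⟩
      · simp only [List.tail_cons] at hz1
        rw [List.cons_append, List.pairwise_cons]
        refine ⟨fun x hx => ?_, hz1⟩
        rw [List.pairwise_cons] at h2
        rcases List.mem_append.1 hx with hx | hx
        · exact h2.1 x hx
        · rw [List.mem_singleton.1 hx]
          have : b < z := (List.pairwise_append.1 hz1).2.2 b (by simp) z (by simp)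
          exact (h2.1 b (by simp)).trans this
      · rw [List.dropLast_concat]
        exact hz2.symm

variable {n : ℕ}

def Arc (u v : List (Fin n)) : Prop := ∃ w : List (Fin n), w.Pairwise (· < ·) ∧ u = w.dropLast ∧ v = w.tail

def R (r L : ℕ) (u v : List (Fin n)) (d : ℤ) : Prop :=
  -(L : ℤ) ≤ d ∧ d ≤ L ∧ ∀ i j : ℕ, L ≤ i → i + L ≤ r → (j : ℤ) = i - d → u[i]? = v[j]?

theorem R_refl (r : ℕ) (u : List (Fin n)) : R r 0 u u 0 :=
  ⟨by simp, by simp, fun i j _ _ h => by rw [show j = i by omega]⟩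

theorem R_mono {r L L' : ℕ} {u v : List (Fin n)} {d : ℤ} (h : R r L u v d) (hL : L ≤ L') :
    R r L' u v d :=
  ⟨by have := h.1; omega, by have := h.2.1; omega, fun i j a b c => h.2.2 i j (by omega) (by omega) c⟩

theorem R_trans {r L L' : ℕ} {u v w : List (Fin n)} {d d' : ℤ} (h : R r L u v d)
    (h' : R r L' v w d') : R r (L + L') u w (d + d') := by
  obtain ⟨a1, a2, a3⟩ := h
  obtain ⟨b1, b2, b3⟩ := h'
  refine ⟨by push_cast; omega, by push_cast; omega, fun i j c1 c2 c3 => ?_⟩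
  rw [a3 i (i - d).toNat (by omega) (by omega) (by omega)]
  exact b3 _ j (by omega) (by omega) (by omega)

theorem R_arc {r : ℕ} {u v : List (Fin n)} (hu : u.length = r + 1) (h : Arc u v) :
    R r 1 u v 1 ∧ R r 1 v u (-1) := by
  obtain ⟨w, _, rfl, rfl⟩ := h
  rw [List.length_dropLast] at hu
  refine ⟨⟨by simp, by simp, fun i j c1 c2 c3 => ?_⟩, ⟨by simp, by simp, fun i j c1 c2 c3 => ?_⟩⟩
  · rw [List.getElem?_dropLast, List.getElem?_tail, if_pos (by omega), show j + 1 = i by omega]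
  · rw [List.getElem?_dropLast, List.getElem?_tail, if_pos (by omega), show i + 1 = j by omega]

theorem R_uniq {r L : ℕ} {u v : List (Fin n)} {d d' : ℤ} (hv : v.length = r + 1) (hn : v.Nodup)
    (hL : 2 * L ≤ r) (h : R r L u v d) (h' : R r L u v d') : d = d' := by
  obtain ⟨a1, a2, a3⟩ := h
  obtain ⟨b1, b2, b3⟩ := h'
  have e1 := a3 L (L - d).toNat le_rfl (by omega) (by omega)
  have e2 := b3 L (L - d').toNat le_rfl (by omega) (by omega)
  have := (List.getElem?_inj (by omega) hn).1 (e1.symm.trans e2)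
  omega

theorem local_col {V : Type} (r k : ℕ) (hk : 2 * (k + 1) ≤ r) (e : V → List (Fin n))
    (he : ∀ a, (e a).length = r + 1) (X : Finset V) (hX : X.card ≤ k) :
    ∃ col : V → Bool, ∀ a ∈ X, ∀ b ∈ X, Arc (e a) (e b) → col a ≠ col b := by
  classical
  let H : SimpleGraph X := SimpleGraph.fromRel fun a b => Arc (e a) (e b)
  have walk : ∀ (a b : X) (p : H.Walk a b), ∃ d, R r p.length (e a) (e b) d := by
    intro a b p
    induction p with
    | nil => exact ⟨0, R_refl _ _⟩
    | cons h p ih =>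
      obtain ⟨d, hd⟩ := ih
      rw [SimpleGraph.Walk.length_cons, add_comm]
      rcases h.2 with h | h
      · exact ⟨_, R_trans (R_arc (he _) h).1 hd⟩
      · exact ⟨_, R_trans (R_arc (he _) h).2 hd⟩
  have : ∀ v : X, ∃ d, R r k (e (H.connectedComponentMk v).out) (e v) d := by
    intro v
    have hr : H.Reachable (H.connectedComponentMk v).out v :=
      SimpleGraph.ConnectedComponent.exact (H.connectedComponentMk v).out_eq
    obtain ⟨p, hp, _⟩ := hr.exists_path_of_dist
    obtain ⟨d, hd⟩ := walk _ _ p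
    have := hp.length_lt
    rw [Fintype.card_coe] at this
    exact ⟨d, R_mono hd (by omega)⟩
  choose d hd using this
  refine ⟨fun v => if h : v ∈ X then decide (d ⟨v, h⟩ % 2 = 0) else false, fun a ha b hb hab => ?_⟩
  have hc : H.connectedComponentMk ⟨a, ha⟩ = H.connectedComponentMk ⟨b, hb⟩ := by
    by_cases h : (⟨a, ha⟩ : X) = ⟨b, hb⟩
    · rw [h]
    · exact SimpleGraph.ConnectedComponent.connectedComponentMk_eq_of_adj ⟨h, Or.inl hab⟩
  have h1 := R_trans (hd ⟨a, ha⟩) (R_arc (he _) hab).1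
  have h2 := R_mono (hd ⟨b, hb⟩) (Nat.le_succ k)
  rw [hc] at h1
  have hn : (e b).Nodup := by
    obtain ⟨w, hw, _, e2⟩ := hab
    rw [e2]
    exact (hw.imp fun h => ne_of_lt h).tail
  have := R_uniq (he b) hn hk h1 h2
  simp only [ha, hb, dite_true, ne_eq, decide_eq_decide]
  omega

theorem exists_graph (k : ℕ) (α : Type) [Finite α] : ∃ (m : ℕ) (G : Fin m → Fin m → Prop),
    (∀ a b, G a b → G b a) ∧
    (∀ X : Finset (Fin m), X.card ≤ k → ∃ col : Fin m → Bool, ∀ a ∈ X, ∀ b ∈ X, G a b → col a ≠ col b) ∧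
    ∀ c : Fin m → α, ∃ a b, G a b ∧ c a = c b := by
  classical
  obtain ⟨n, hn⟩ := rams (2 * (k + 1)) (Option α)
  let f := Fintype.equivFin (List.Vector (Fin n) (2 * (k + 1) + 1))
  let e : Fin _ → List (Fin n) := fun a => (f.symm a).1
  refine ⟨_, fun a b => Arc (e a) (e b) ∨ Arc (e b) (e a), fun a b h => h.symm, fun X hX => ?_,
    fun c => ?_⟩
  · obtain ⟨col, h⟩ := local_col _ k le_rfl e (fun a => (f.symm a).2) X hX
    refine ⟨col, fun a ha b hb hab => ?_⟩
    rcases hab with hab | hab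
    · exact h a ha b hb hab
    · exact (h b hb a ha hab).symm
  · obtain ⟨w, h1, h2, h3⟩ := hn fun l =>
      if h : l.length = 2 * (k + 1) + 1 then some (c (f ⟨l, h⟩)) else none
    have l1 : w.dropLast.length = 2 * (k + 1) + 1 := by simp [h1]
    have l2 : w.tail.length = 2 * (k + 1) + 1 := by simp [h1]
    simp only [l1, l2, dite_true, Option.some.injEq] at h3
    exact ⟨f ⟨_, l1⟩, f ⟨_, l2⟩, Or.inl ⟨w, h2, by simp [e], by simp [e]⟩, h3⟩

end Pool.Agent.H32.Shift
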