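import Mathlib

namespace Pool.Agent.H32.Sid

open Finset
open scoped BigOperators

section nice

variable {W V : Type} [Fintype W] [DecidableEq W] [Fintype V]

def Dep (g : (W → V) → ℝ) (J : Finset W) : Prop :=
  ∀ φ ψ : W → V, (∀ w ∈ J, φ w = ψ w) → g φ = g ψ

structure Nice (Λ : ((W → V) → ℝ) →ₗ[ℝ] ℝ) (S : Set (W → V)) (K c : ℝ) : Prop where
  mono : ∀ g h : (W → V) → ℝ, (∀ φ ∈ S, g φ ≤ h φ) → Λ g ≤ Λ h
  mass : c ≤ Λ 1
  spread : ∀ (J : Finset W) (g : (W → V) → ℝ), (∀ φ, 0 ≤ g φ) → Dep g J →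
    Λ g ≤ K ^ J.card * 𝔼 φ, g φ

theorem Nice.weaken {Λ : ((W → V) → ℝ) →ₗ[ℝ] ℝ} {S S' : Set (W → V)} {K K' c c' : ℝ}
    (H : Nice Λ S K c) (hS : S ⊆ S') (hK0 : 0 ≤ K) (hK : K ≤ K') (hc : c' ≤ c) :
    Nice Λ S' K' c' where
  mono := fun g h hgh => H.mono g h fun φ hφ => hgh φ (hS hφ)
  mass := hc.trans H.mass
  spread := fun J g hg hJ => (H.spread J g hg hJ).trans
    (mul_le_mul_of_nonneg_right (pow_le_pow_left₀ hK0 hK _) (expect_nonneg fun φ _ => hg φ))

theorem Nice.restrict {Λ : ((W → V) → ℝ) →ₗ[ℝ] ℝ} {S : Set (W → V)} {K c c' : ℝ}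
    (H : Nice Λ S K c) (G : Set (W → V)) (b : (W → V) → ℝ) (hb0 : ∀ φ, 0 ≤ b φ)
    (hb : ∀ φ ∈ S, φ ∉ G → 1 ≤ b φ) (hΛ : Λ b ≤ c - c') :
    ∃ Λ' : ((W → V) → ℝ) →ₗ[ℝ] ℝ, Nice Λ' (S ∩ G) K c' := by
  classical
  let χ : (W → V) → ℝ := fun φ => if φ ∈ G then 1 else 0
  refine ⟨Λ ∘ₗ LinearMap.mulLeft ℝ χ, ?_, ?_, ?_⟩
  · intro g h hgh
    refine H.mono _ _ fun φ hφ => ?_
    simp only [LinearMap.mulLeft_apply, Pi.mul_apply, χ]
    split_ifs with hG
    · simpa using hgh φ ⟨hφ, hG⟩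
    · simp
  · have h1 : Λ (1 - b) ≤ Λ (LinearMap.mulLeft ℝ χ 1) := by
      refine H.mono _ _ fun φ hφ => ?_
      simp only [LinearMap.mulLeft_apply, Pi.mul_apply, χ, Pi.sub_apply, Pi.one_apply]
      split_ifs with hG
      · have := hb0 φ; linarith
      · have := hb φ hφ hG; linarith
    rw [map_sub] at h1
    have := H.mass
    simp only [LinearMap.comp_apply]
    linarith
  · intro J g hg hJ
    refine le_trans ?_ (H.spread J g hg hJ)
    refine H.mono _ _ fun φ hφ => ?_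
    simp only [LinearMap.mulLeft_apply, Pi.mul_apply, χ]
    split_ifs with hG
    · simp
    · simpa using hg φ

def swapEquiv (w : W) : (W → V) × V ≃ (W → V) × V where
  toFun := fun x => (Function.update x.1 w x.2, x.1 w)
  invFun := fun x => (Function.update x.1 w x.2, x.1 w)
  left_inv := fun x => by simp
  right_inv := fun x => by simp

theorem expect_update [Nonempty V] (w : W) (g : (W → V) → ℝ) :
    𝔼 φ : W → V, 𝔼 v : V, g (Function.update φ w v) = 𝔼 φ, g φ := by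
  have h1 : 𝔼 φ : W → V, 𝔼 v : V, g (Function.update φ w v)
      = 𝔼 x : (W → V) × V, g (Function.update x.1 w x.2) := by
    rw [← Finset.univ_product_univ, Finset.expect_product]
  have h2 : 𝔼 x : (W → V) × V, g (Function.update x.1 w x.2) = 𝔼 x : (W → V) × V, g x.1 :=
    Fintype.expect_equiv (swapEquiv w) _ _ fun x => rfl
  rw [h1, h2, ← Finset.univ_product_univ, Finset.expect_product]
  simp

noncomputable def resampleMap (w : W) (N : (W → V) → Finset V) :
    ((W → V) → ℝ) →ₗ[ℝ] ((W → V) → ℝ) where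
  toFun := fun g φ => 𝔼 v ∈ N φ, g (Function.update φ w v)
  map_add' := fun g h => by
    funext φ
    simp [expect_add_distrib]
  map_smul' := fun a g => by
    funext φ
    simp [mul_expect]

theorem Nice.resample [Nonempty V] {Λ : ((W → V) → ℝ) →ₗ[ℝ] ℝ} {S S' : Set (W → V)}
    {K c : ℝ} (H : Nice Λ S K c) (hK : 0 ≤ K) (w : W) (N : (W → V) → Finset V)
    (hN : ∀ φ ∈ S, (Fintype.card V : ℝ) ≤ K * (N φ).card)
    (hS : ∀ φ ∈ S, ∀ v ∈ N φ, Function.update φ w v ∈ S') :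
    ∃ Λ' : ((W → V) → ℝ) →ₗ[ℝ] ℝ, Nice Λ' S' K c := by
  have hV : (0 : ℝ) < Fintype.card V := by exact_mod_cast Fintype.card_pos
  have hne : ∀ φ ∈ S, (N φ).Nonempty := by
    intro φ hφ
    rw [← Finset.card_pos]
    by_contra h0
    have h1 : (N φ).card = 0 := by omega
    have := hN φ hφ
    rw [h1] at this
    simp at this
  refine ⟨Λ ∘ₗ resampleMap w N, ?_, ?_, ?_⟩
  · intro g h hgh
    refine H.mono _ _ fun φ hφ => ?_
    exact expect_le_expect fun v hv => hgh _ (hS φ hφ v hv)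
  · refine H.mass.trans (H.mono _ _ fun φ hφ => ?_)
    exact le_expect (hne φ hφ) fun v _ => le_rfl
  · intro J g hg hJ
    by_cases hw : w ∈ J
    · let g' : (W → V) → ℝ := fun φ => 𝔼 v : V, g (Function.update φ w v)
      have h1 : Λ (resampleMap w N g) ≤ Λ (K • g') := by
        refine H.mono _ _ fun φ hφ => ?_
        show 𝔼 v ∈ N φ, g (Function.update φ w v) ≤ K * 𝔼 v : V, g (Function.update φ w v)
        have hc : (0 : ℝ) < (N φ).card := by exact_mod_cast (hne φ hφ).card_pos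
        rw [expect_eq_sum_div_card, Fintype.expect_eq_sum_div_card, ← mul_div_assoc,
          div_le_div_iff₀ hc hV]
        have h2 : ∑ v ∈ N φ, g (Function.update φ w v) ≤ ∑ v, g (Function.update φ w v) :=
          sum_le_sum_of_subset_of_nonneg (subset_univ _) fun v _ _ => hg _
        have h3 : 0 ≤ ∑ v ∈ N φ, g (Function.update φ w v) := sum_nonneg fun v _ => hg _
        calc (∑ v ∈ N φ, g (Function.update φ w v)) * (Fintype.card V : ℝ)
            ≤ (∑ v, g (Function.update φ w v)) * (K * (N φ).card) :=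
              mul_le_mul h2 (hN φ hφ) hV.le (h3.trans h2)
          _ = _ := by ring
      have h2 : Λ g' ≤ K ^ (J.erase w).card * 𝔼 φ, g' φ := by
        refine H.spread _ _ (fun φ => expect_nonneg fun v _ => hg _) ?_
        intro φ ψ hφψ
        refine expect_congr rfl fun v _ => hJ _ _ fun u hu => ?_
        by_cases huw : u = w
        · subst huw; simp
        · rw [Function.update_of_ne huw, Function.update_of_ne huw]
          exact hφψ u (mem_erase.2 ⟨huw, hu⟩)
      have h3 : 𝔼 φ, g' φ = 𝔼 φ, g φ := expect_update w g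
      rw [map_smul, smul_eq_mul] at h1
      rw [h3] at h2
      rw [← card_erase_add_one hw, pow_succ]
      calc Λ (resampleMap w N g) ≤ K * Λ g' := h1
        _ ≤ K * (K ^ (J.erase w).card * 𝔼 φ, g φ) := mul_le_mul_of_nonneg_left h2 hK
        _ = _ := by ring
    · refine le_trans ?_ (H.spread J g hg hJ)
      refine H.mono _ _ fun φ hφ => ?_
      refine expect_le (hne φ hφ) fun v _ => le_of_eq (hJ _ _ fun u hu => ?_)
      have : u ≠ w := fun h => hw (h ▸ hu)
      rw [Function.update_of_ne this]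

theorem Nice.resample_all [Nonempty V] {Λ : ((W → V) → ℝ) →ₗ[ℝ] ℝ} {S : Set (W → V)}
    {K c : ℝ} (H : Nice Λ S K c) (hK : 0 ≤ K) (L : Finset W) (N : W → (W → V) → Finset V)
    (hN : ∀ w ∈ L, ∀ φ ∈ S, (Fintype.card V : ℝ) ≤ K * (N w φ).card)
    (hS : ∀ w ∈ L, ∀ φ ∈ S, ∀ v, Function.update φ w v ∈ S)
    (hinv : ∀ w ∈ L, ∀ w' ∈ L, ∀ φ v, N w' (Function.update φ w v) = N w' φ) :
    ∀ L' ⊆ L, ∃ Λ' : ((W → V) → ℝ) →ₗ[ℝ] ℝ,
      Nice Λ' {φ | φ ∈ S ∧ ∀ w ∈ L', φ w ∈ N w φ} K c := by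
  intro L'
  induction L' using Finset.induction_on with
  | empty => intro _; exact ⟨Λ, by simpa using H⟩
  | insert w L' hw ih =>
    intro hL
    have hwL : w ∈ L := hL (mem_insert_self _ _)
    have hL' : L' ⊆ L := (subset_insert _ _).trans hL
    obtain ⟨Λ', H'⟩ := ih hL'
    refine H'.resample hK w (N w) (fun φ hφ => hN w hwL φ hφ.1) ?_
    intro φ hφ v hv
    refine ⟨hS w hwL φ hφ.1 v, ?_⟩
    intro u hu
    rcases mem_insert.1 hu with rfl | hu
    · rw [hinv _ hwL _ hwL]; simpa using hv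
    · have : u ≠ w := fun h => hw (h ▸ hu)
      rw [hinv _ hwL _ (hL' hu), Function.update_of_ne this]
      exact hφ.2 u hu

end nice

open Classical in
noncomputable def ind (p : Prop) : ℝ := if p then 1 else 0

theorem ind_nonneg (p : Prop) : 0 ≤ ind p := by unfold ind; split_ifs <;> norm_num

theorem ind_le_one (p : Prop) : ind p ≤ 1 := by unfold ind; split_ifs <;> norm_num

theorem ind_of {p : Prop} (h : p) : ind p = 1 := by unfold ind; rw [if_pos h]

theorem ind_of_not {p : Prop} (h : ¬ p) : ind p = 0 := by unfold ind; rw [if_neg h]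

theorem expect_cons {V : Type} [Fintype V] {r : ℕ} (f : (Fin (r + 1) → V) → ℝ) :
    𝔼 x, f x = 𝔼 z : V, 𝔼 y : Fin r → V, f (Fin.cons z y) := by
  rw [← Finset.expect_product', Finset.univ_product_univ]
  exact (Fintype.expect_equiv (Fin.consEquiv fun _ => V) _ _ fun x => rfl).symm

def Claim (r Δ a : ℕ) : Prop :=
  ∀ (W ι : Type) [Fintype W] [DecidableEq W] [Fintype ι] (e : ι → Fin r → W),
    (∀ i j s t, e i s = e j t → s = t) → (∀ w s, (univ.filter fun i => e i s = w).card ≤ Δ) →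
    ∃ γ : ℝ, 0 < γ ∧ γ ≤ 1 ∧ ∀ (V : Type) [Fintype V] [Nonempty V] (R : (Fin r → V) → Prop)
      (p : ℝ), 0 < p → p ≤ 𝔼 x, ind (R x) →
      ∃ Λ : ((W → V) → ℝ) →ₗ[ℝ] ℝ, Nice Λ {φ | ∀ i, R (φ ∘ e i)} (1 / (γ * p ^ a)) γ

noncomputable def expectMap (α : Type) [Fintype α] : (α → ℝ) →ₗ[ℝ] ℝ where
  toFun := fun g => 𝔼 x, g x
  map_add' := fun g h => by simp [expect_add_distrib]
  map_smul' := fun a g => by simp [mul_expect]

theorem claim_zero (Δ : ℕ) : Claim 0 Δ 0 := by
  intro W ι _ _ _ e _ _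
  refine ⟨1, one_pos, le_rfl, ?_⟩
  intro V _ _ R p hp hR
  have hall : ∀ x, R x := by
    intro x
    by_contra hx
    have : 𝔼 x, ind (R x) = 0 := by
      refine expect_eq_zero fun y _ => ind_of_not ?_
      rwa [Subsingleton.elim y x]
    linarith
  refine ⟨expectMap _, ?_, ?_, ?_⟩
  · intro g h hgh
    exact expect_le_expect fun φ _ => hgh φ fun i => hall _
  · exact le_expect univ_nonempty fun _ _ => le_rfl
  · intro J g _ _
    simp [expectMap]

theorem claim_succ (r Δ a : ℕ) (ih : Claim r Δ a) : Claim (r + 1) Δ (1 + a * (r * Δ + 1)) := by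
  classical
  intro W ι _ _ _ e hpart hdeg
  obtain ⟨γ, hγ0, hγ1, hγ⟩ := ih W ι (fun i => Fin.tail (e i))
    (fun i j s t h => Fin.succ_injective _ (hpart i j _ _ h)) (fun w s => hdeg w s.succ)
  set D := r * Δ + 1 with hD
  set n : ℝ := Fintype.card W + 1 with hn
  have hn1 : 1 ≤ n := by
    have : (0 : ℝ) ≤ Fintype.card W := Nat.cast_nonneg _
    linarith
  have hq1 : γ * (1 / 2) ^ a ≤ 1 :=
    mul_le_one₀ hγ1 (by positivity) (pow_le_one₀ (by norm_num) (by norm_num))
  have hγ' : γ * (γ * (1 / 2) ^ a) ^ D / (4 * n) ≤ γ / 2 := by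
    rw [div_le_div_iff₀ (by positivity) (by norm_num)]
    have : (γ * (1 / 2) ^ a) ^ D ≤ 1 := pow_le_one₀ (by positivity) hq1
    nlinarith
  refine ⟨γ * (γ * (1 / 2) ^ a) ^ D / (4 * n), by positivity, by linarith, ?_⟩
  intro V _ _ R p hp hR
  have hp1 : p ≤ 1 := hR.trans (expect_le univ_nonempty fun x _ => ind_le_one _)
  have hV : (0 : ℝ) < Fintype.card V := by exact_mod_cast Fintype.card_pos
  set q : ℝ := γ * (p / 2) ^ a with hq
  have hq0 : 0 < q := by positivity
  have hq1' : q ≤ 1 :=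
    mul_le_one₀ hγ1 (by positivity) (pow_le_one₀ (by positivity) (by linarith))
  set β : ℝ := γ * p * q ^ D / (4 * n) with hβ
  have hβ0 : 0 < β := by positivity
  have hβeq : γ * (γ * (1 / 2) ^ a) ^ D / (4 * n) * p ^ (1 + a * D) = β := by
    have e1 : q = γ * (1 / 2) ^ a * p ^ a := by rw [hq, mul_assoc, ← mul_pow]; congr 2; ring
    rw [hβ, e1, pow_add p 1, pow_mul p a D, mul_pow (γ * (1 / 2) ^ a) (p ^ a) D]
    ring
  have hβq : β ≤ q := by
    rw [hβ, div_le_iff₀ (by positivity), hD, pow_succ]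
    have h1 : q ^ (r * Δ) ≤ 1 := pow_le_one₀ hq0.le hq1'
    have h2 : γ * p ≤ 1 := mul_le_one₀ hγ1 hp.le hp1
    have h3 : γ * p * q ^ (r * Δ) ≤ 1 := mul_le_one₀ h2 (by positivity) h1
    nlinarith
  rw [hβeq]
  let N : W → (W → V) → Finset V := fun w φ =>
    univ.filter fun v => ∀ i, e i 0 = w → R (Fin.cons v (φ ∘ Fin.tail (e i)))
  let bad : W → V → (W → V) → ℝ := fun w z φ =>
    ind (z ∈ N w φ ∧ ((N w φ).card : ℝ) < β * Fintype.card V)
  have hbad : ∀ w, 𝔼 z, 𝔼 φ, bad w z φ ≤ β := by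
    intro w
    rw [expect_comm]
    refine expect_le univ_nonempty fun φ _ => ?_
    rw [Fintype.expect_eq_sum_div_card, div_le_iff₀ hV]
    by_cases h : ((N w φ).card : ℝ) < β * Fintype.card V
    · refine le_trans (le_of_eq ?_) h.le
      simp only [bad, h, and_true, ind]
      simp
    · have : ∀ z, bad w z φ = 0 := fun z => ind_of_not fun h' => h h'.2
      simp only [this, sum_const_zero]
      positivity
  obtain ⟨z, -, hz⟩ : ∃ z ∈ (univ : Finset V), p / 2 ≤
      𝔼 y : Fin r → V, ind (R (Fin.cons z y)) - p / (2 * n * β) * ∑ w, 𝔼 φ, bad w z φ := by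
    refine exists_le_of_le_expect univ_nonempty ?_
    rw [expect_sub_distrib, ← expect_cons (fun x => ind (R x)), ← mul_expect, expect_sum_comm]
    have h1 : ∑ w, 𝔼 z, 𝔼 φ, bad w z φ ≤ n * β := by
      calc ∑ w, 𝔼 z, 𝔼 φ, bad w z φ ≤ ∑ _w : W, β := sum_le_sum fun w _ => hbad w
        _ = Fintype.card W * β := by simp
        _ ≤ n * β := by nlinarith
    have h2 : p / (2 * n * β) * ∑ w, 𝔼 z, 𝔼 φ, bad w z φ ≤ p / (2 * n * β) * (n * β) :=
      mul_le_mul_of_nonneg_left h1 (by positivity)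
    have h3 : p / (2 * n * β) * (n * β) = p / 2 := by field_simp
    linarith
  have hs0 : 0 ≤ ∑ w, 𝔼 φ, bad w z φ :=
    sum_nonneg fun w _ => expect_nonneg fun φ _ => ind_nonneg _
  have hz1 : p / 2 ≤ 𝔼 y : Fin r → V, ind (R (Fin.cons z y)) := by
    have : 0 ≤ p / (2 * n * β) * ∑ w, 𝔼 φ, bad w z φ := by positivity
    linarith
  have hz2 : ∑ w, 𝔼 φ, bad w z φ ≤ 2 * n * β / p := by
    have h1 : 𝔼 y : Fin r → V, ind (R (Fin.cons z y)) ≤ 1 :=
      expect_le univ_nonempty fun x _ => ind_le_one _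
    have h2 : p / (2 * n * β) * ∑ w, 𝔼 φ, bad w z φ ≤ 1 := by linarith
    rw [div_mul_eq_mul_div, div_le_one (by positivity)] at h2
    rw [le_div_iff₀ hp]
    linarith
  obtain ⟨Λ, H⟩ := hγ V (fun y => R (Fin.cons z y)) (p / 2) (by positivity) hz1
  rw [← hq] at H
  have hK1 : 1 ≤ 1 / q := by rw [le_div_iff₀ hq0]; linarith
  have hdep : ∀ w, Λ (bad w z) ≤ (1 / q) ^ D * 𝔼 φ, bad w z φ := by
    intro w
    let J : Finset W := (univ.filter fun i => e i 0 = w).biUnion fun i => univ.image (Fin.tail (e i))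
    have hJ : J.card ≤ D := by
      calc J.card ≤ ∑ i ∈ univ.filter fun i => e i 0 = w, (univ.image (Fin.tail (e i))).card :=
            card_biUnion_le
        _ ≤ ∑ _i ∈ univ.filter fun i => e i 0 = w, r :=
            sum_le_sum fun i _ => card_image_le.trans (by simp)
        _ ≤ D := by
            rw [sum_const, smul_eq_mul, hD]
            have := hdeg w 0
            nlinarith
    have hN : ∀ φ ψ : W → V, (∀ u ∈ J, φ u = ψ u) → N w φ = N w ψ := by
      intro φ ψ h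
      refine filter_congr fun v _ => forall_congr' fun i => forall_congr' fun hi => ?_
      have : φ ∘ Fin.tail (e i) = ψ ∘ Fin.tail (e i) := by
        funext s
        refine h _ (mem_biUnion.2 ⟨i, by simpa using hi, mem_image_of_mem _ (mem_univ s)⟩)
      rw [this]
    refine (H.spread J _ (fun φ => ind_nonneg _) ?_).trans ?_
    · intro φ ψ h
      simp only [bad, hN φ ψ h]
    · exact mul_le_mul_of_nonneg_right (pow_le_pow_right₀ hK1 hJ)
        (expect_nonneg fun φ _ => ind_nonneg _)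
  obtain ⟨Λ1, H1⟩ := H.restrict (c' := γ / 2)
    {φ | ∀ w, β * Fintype.card V ≤ (N w φ).card} (∑ w, bad w z)
    (fun φ => by rw [Finset.sum_apply]; exact sum_nonneg fun w _ => ind_nonneg _)
    (by
      intro φ hφ hG
      simp only [Set.mem_ofPred_eq, not_forall, not_le] at hG
      obtain ⟨w, hw⟩ := hG
      rw [Finset.sum_apply]
      refine le_trans (le_of_eq ?_)
        (single_le_sum (f := fun w => bad w z φ) (fun w _ => ind_nonneg _) (mem_univ w))
      refine (ind_of ⟨?_, hw⟩).symm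
      simp only [N, mem_filter, mem_univ, true_and]
      exact fun i _ => hφ i)
    (by
      rw [map_sum]
      calc ∑ w, Λ (bad w z) ≤ ∑ w, (1 / q) ^ D * 𝔼 φ, bad w z φ := sum_le_sum fun w _ => hdep w
        _ = (1 / q) ^ D * ∑ w, 𝔼 φ, bad w z φ := by rw [mul_sum]
        _ ≤ (1 / q) ^ D * (2 * n * β / p) := mul_le_mul_of_nonneg_left hz2 (by positivity)
        _ = γ - γ / 2 := by
          rw [hβ, one_div, inv_pow]
          field_simp
          ring)
  have H2 := H1.weaken (K' := 1 / β) (c' := γ * (γ * (1 / 2) ^ a) ^ D / (4 * n)) subset_rfl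
    (by positivity) (one_div_le_one_div_of_le hβ0 hβq) hγ'
  let L : Finset W := univ.image fun i => e i 0
  have htail : ∀ w ∈ L, ∀ (φ : W → V) v i,
      Function.update φ w v ∘ Fin.tail (e i) = φ ∘ Fin.tail (e i) := by
    intro w hw φ v i
    obtain ⟨j, -, rfl⟩ := mem_image.1 hw
    funext s
    have : Fin.tail (e i) s ≠ e j 0 := fun h => Fin.succ_ne_zero s (hpart _ _ _ _ h)
    simp only [Function.comp_apply]
    rw [Function.update_of_ne this]
  have hinv : ∀ w ∈ L, ∀ w' φ v, N w' (Function.update φ w v) = N w' φ := by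
    intro w hw w' φ v
    simp only [N, htail w hw]
  obtain ⟨Λ3, H3⟩ := H2.resample_all (by positivity) L N
    (by
      intro w _ φ hφ
      have := hφ.2 w
      rw [one_div, ← div_eq_inv_mul, le_div_iff₀ hβ0]
      linarith)
    (by
      intro w hw φ hφ v
      refine ⟨fun i => ?_, fun w' => ?_⟩
      · have := hφ.1 i
        simp only [htail w hw]
        exact this
      · rw [hinv w hw]; exact hφ.2 w')
    (fun w hw w' _ => hinv w hw w') L subset_rfl
  refine ⟨Λ3, H3.weaken ?_ (by positivity) le_rfl le_rfl⟩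
  intro φ hφ i
  have h1 := hφ.2 (e i 0) (mem_image_of_mem _ (mem_univ i))
  simp only [N, mem_filter, mem_univ, true_and] at h1
  have h2 := h1 i rfl
  have : φ ∘ e i = Fin.cons (φ (e i 0)) (φ ∘ Fin.tail (e i)) := by
    funext s
    refine Fin.cases ?_ (fun s => ?_) s <;> simp [Fin.tail]
  rw [this]
  exact h2

def expo (Δ : ℕ) : ℕ → ℕ
  | 0 => 0
  | r + 1 => 1 + expo Δ r * (r * Δ + 1)

theorem claim (r Δ : ℕ) : Claim r Δ (expo Δ r) := by
  induction r with
  | zero => exact claim_zero Δ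
  | succ r ih => exact claim_succ r Δ _ ih

theorem weak_bound (r Δ : ℕ) (W ι : Type) [Fintype W] [DecidableEq W] [Fintype ι]
    (e : ι → Fin r → W) (hpart : ∀ i j s t, e i s = e j t → s = t)
    (hdeg : ∀ w s, (univ.filter fun i => e i s = w).card ≤ Δ) :
    ∃ γ : ℝ, 0 < γ ∧ ∀ (V : Type) [Fintype V] [Nonempty V] (R : (Fin r → V) → Prop)
      (p : ℝ), 0 < p → p ≤ 𝔼 x, ind (R x) →
      γ * p ^ (expo Δ r * (r * Fintype.card ι)) ≤ 𝔼 φ : W → V, ind (∀ i, R (φ ∘ e i)) := by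
  obtain ⟨γ, hγ0, hγ1, hγ⟩ := claim r Δ W ι e hpart hdeg
  refine ⟨γ * γ ^ (r * Fintype.card ι), by positivity, ?_⟩
  intro V _ _ R p hp hR
  have hp1 : p ≤ 1 := hR.trans (expect_le univ_nonempty fun x _ => ind_le_one _)
  obtain ⟨Λ, H⟩ := hγ V R p hp hR
  let J : Finset W := (univ : Finset ι).biUnion fun i => univ.image (e i)
  have hJ : J.card ≤ r * Fintype.card ι := by
    calc J.card ≤ ∑ i, (univ.image (e i)).card := card_biUnion_le
      _ ≤ ∑ _i : ι, r := sum_le_sum fun i _ => card_image_le.trans (by simp)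
      _ = _ := by simp [mul_comm]
  have hq0 : 0 < γ * p ^ expo Δ r := by positivity
  have hq1 : γ * p ^ expo Δ r ≤ 1 := mul_le_one₀ hγ1 (by positivity) (pow_le_one₀ hp.le hp1)
  have h1 : Λ 1 ≤ Λ fun φ => ind (∀ i, R (φ ∘ e i)) :=
    H.mono _ _ fun φ hφ => le_of_eq (ind_of hφ).symm
  have h2 := H.spread J (fun φ => ind (∀ i, R (φ ∘ e i))) (fun φ => ind_nonneg _) (by
    intro φ ψ h
    have : ∀ i, φ ∘ e i = ψ ∘ e i := fun i => funext fun s =>
      h _ (mem_biUnion.2 ⟨i, mem_univ _, mem_image_of_mem _ (mem_univ s)⟩)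
    simp only [this])
  have h3 : (1 / (γ * p ^ expo Δ r)) ^ J.card ≤ (1 / (γ * p ^ expo Δ r)) ^ (r * Fintype.card ι) :=
    pow_le_pow_right₀ (by rw [le_div_iff₀ hq0]; linarith) hJ
  have h4 : 0 ≤ 𝔼 φ : W → V, ind (∀ i, R (φ ∘ e i)) := expect_nonneg fun φ _ => ind_nonneg _
  have h5 : γ ≤ (1 / (γ * p ^ expo Δ r)) ^ (r * Fintype.card ι) *
      𝔼 φ : W → V, ind (∀ i, R (φ ∘ e i)) :=
    H.mass.trans (h1.trans (h2.trans (mul_le_mul_of_nonneg_right h3 h4)))
  rw [one_div, inv_pow, ← div_eq_inv_mul, le_div_iff₀ (by positivity)] at h5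
  calc γ * γ ^ (r * Fintype.card ι) * p ^ (expo Δ r * (r * Fintype.card ι))
      = γ * (γ * p ^ expo Δ r) ^ (r * Fintype.card ι) := by rw [mul_pow, ← pow_mul]; ring
    _ ≤ _ := h5

theorem expect_tensor {α V : Type} [Fintype α] [DecidableEq α] [Fintype V] (m : ℕ)
    (Q : (α → V) → Prop) :
    𝔼 φ : α → Fin m → V, ind (∀ k, Q fun w => φ w k) = (𝔼 φ : α → V, ind (Q φ)) ^ m := by
  rw [Finset.expect_pow, Fintype.piFinset_univ]
  refine Fintype.expect_equiv (Equiv.piComm fun _ _ => V) _ _ fun φ => ?_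
  by_cases h : ∀ k, Q fun w => φ w k
  · rw [ind_of h]
    exact (prod_eq_one fun k _ => ind_of (h k)).symm
  · rw [ind_of_not h]
    push Not at h
    obtain ⟨k, hk⟩ := h
    exact (prod_eq_zero (mem_univ k) (ind_of_not hk)).symm

theorem strong_bound (r Δ : ℕ) (W ι : Type) [Fintype W] [DecidableEq W] [Fintype ι]
    (e : ι → Fin r → W) (hpart : ∀ i j s t, e i s = e j t → s = t)
    (hdeg : ∀ w s, (univ.filter fun i => e i s = w).card ≤ Δ)
    (V : Type) [Fintype V] [Nonempty V] (R : (Fin r → V) → Prop) (hp : 0 < 𝔼 x, ind (R x)) :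
    (𝔼 x, ind (R x)) ^ (expo Δ r * (r * Fintype.card ι))
      ≤ 𝔼 φ : W → V, ind (∀ i, R (φ ∘ e i)) := by
  obtain ⟨γ, hγ0, hγ⟩ := weak_bound r Δ W ι e hpart hdeg
  set p := 𝔼 x, ind (R x) with hpdef
  set t := 𝔼 φ : W → V, ind (∀ i, R (φ ∘ e i)) with ht
  set E := expo Δ r * (r * Fintype.card ι)
  have key : ∀ m : ℕ, γ * (p ^ E) ^ m ≤ t ^ m := by
    intro m
    have h1 := hγ (Fin m → V) (fun x => ∀ k, R fun s => x s k) (p ^ m) (by positivity)
      (le_of_eq (expect_tensor m R).symm)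
    rw [← pow_mul, mul_comm m, pow_mul] at h1
    refine h1.trans (le_of_eq ?_)
    rw [ht, ← expect_tensor m (fun φ : W → V => ∀ i, R (φ ∘ e i))]
    refine expect_congr rfl fun φ _ => ?_
    congr 1
    exact propext forall_comm
  by_contra hlt
  push Not at hlt
  have hpE : 0 < p ^ E := by positivity
  have ht0 : 0 ≤ t := expect_nonneg fun φ _ => ind_nonneg _
  obtain ⟨m, hm⟩ := exists_pow_lt_of_lt_one hγ0 ((div_lt_one hpE).2 hlt)
  rw [div_pow, div_lt_iff₀ (by positivity)] at hm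
  exact absurd (key m) (not_le.2 hm)

end Pool.Agent.H32.Sid
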