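import Mathlib

namespace Pool.Agent.H32.Side
open SimpleGraph

variable {V : Type*} {T : SimpleGraph V}

/-- The vertices ahead of the arc `(u, v)`. -/
def side (T : SimpleGraph V) (u v : V) : Set V := {z | (T.deleteEdges {s(u, v)}).Reachable v z}

lemma self_mem (u v : V) : v ∈ side T u v := Reachable.refl _

lemma tail_not_mem (hT : T.IsTree) {u v : V} (h : T.Adj u v) : u ∉ side T u v := by
  intro hu
  have := isAcyclic_iff_forall_adj_isBridge.1 hT.isAcyclic h
  exact (isBridge_iff.1 this) (Reachable.symm hu)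

lemma step_mem {u v x y : V} (hx : x ∈ side T u v) (h : T.Adj x y) (hne : s(x, y) ≠ s(u, v)) :
    y ∈ side T u v := by
  refine Reachable.trans hx (Adj.reachable ?_)
  rw [deleteEdges_adj]
  exact ⟨h, by simpa using hne⟩

lemma mem_or (hT : T.IsTree) (u v z : V) : z ∈ side T u v ∨ z ∈ side T v u := by
  obtain ⟨w⟩ := hT.connected.preconnected v z
  have : ∀ (a b : V) (w : T.Walk a b), (a ∈ side T u v ∨ a ∈ side T v u) →
      (b ∈ side T u v ∨ b ∈ side T v u) := by
    intro a b w
    induction w with
    | nil => exact id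
    | @cons a c b h w ih =>
      intro ha
      apply ih
      by_cases hne : s(a, c) = s(u, v)
      · rcases Sym2.eq_iff.1 hne with ⟨_, rfl⟩ | ⟨_, rfl⟩
        · exact Or.inl (self_mem _ _)
        · exact Or.inr (self_mem _ _)
      · rcases ha with ha | ha
        · exact Or.inl (step_mem ha h hne)
        · exact Or.inr (step_mem ha h (by rwa [Sym2.eq_swap (a := v)]))
  exact this v z w (Or.inl (self_mem _ _))

lemma compl_side (hT : T.IsTree) {u v : V} (h : T.Adj u v) : (side T u v)ᶜ = side T v u := by
  ext z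
  constructor
  · intro hz
    exact (mem_or hT u v z).resolve_left hz
  · intro hz hz'
    apply tail_not_mem hT h
    have h1 : (T.deleteEdges {s(u, v)}).Reachable u z := by
      have : (T.deleteEdges {s(v, u)}).Reachable u z := hz
      rwa [Sym2.eq_swap] at this
    exact Reachable.trans hz' h1.symm

lemma sub_of {u v x y : V} (hy : y ∈ side T u v) (hu : u ∉ side T x y) :
    side T x y ⊆ side T u v := by
  intro z hz
  obtain ⟨w⟩ := (hz : (T.deleteEdges {s(x, y)}).Reachable y z)
  have : ∀ (a b : V) (w : (T.deleteEdges {s(x, y)}).Walk a b), a ∈ side T x y → a ∈ side T u v →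
      b ∈ side T u v := by
    intro a b w
    induction w with
    | nil => exact fun _ h => h
    | @cons a c b h w ih =>
      intro ha ha'
      have hc : c ∈ side T x y := Reachable.trans ha h.reachable
      refine ih hc (step_mem ha' (deleteEdges_adj.1 h).1 ?_)
      intro he
      rcases Sym2.eq_iff.1 he with ⟨rfl, _⟩ | ⟨_, rfl⟩
      · exact hu ha
      · exact hu hc
  exact this y z w (self_mem _ _) hy

lemma cross1 (hT : T.IsTree) {u v x y : V} (h : T.Adj u v) (h' : T.Adj x y)
    (hy : y ∈ side T u v) : side T x y ⊆ side T u v ∨ (side T x y)ᶜ ⊆ side T u v := by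
  by_cases hu : u ∈ side T x y
  · right
    rw [compl_side hT h']
    have hx : x ∈ side T u v := by
      refine step_mem hy h'.symm fun he => ?_
      rcases Sym2.eq_iff.1 he with ⟨rfl, rfl⟩ | ⟨rfl, rfl⟩
      · exact tail_not_mem hT h hy
      · exact tail_not_mem hT h hu
    refine sub_of hx ?_
    rw [← compl_side hT h']
    exact fun hc => hc hu
  · exact Or.inl (sub_of hy hu)

lemma cross (hT : T.IsTree) {u v x y : V} (h : T.Adj u v) (h' : T.Adj x y) :
    side T x y ⊆ side T u v ∨ (side T x y)ᶜ ⊆ side T u v ∨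
    side T x y ⊆ (side T u v)ᶜ ∨ (side T x y)ᶜ ⊆ (side T u v)ᶜ := by
  rcases mem_or hT u v y with hy | hy
  · rcases cross1 hT h h' hy with h1 | h1
    · exact Or.inl h1
    · exact Or.inr (Or.inl h1)
  · rw [compl_side hT h]
    rcases cross1 hT h.symm h' hy with h1 | h1
    · exact Or.inr (Or.inr (Or.inl h1))
    · exact Or.inr (Or.inr (Or.inr h1))

lemma end_mem {s t : V} (p : T.Walk s t) (hp : p.IsPath) (hn : ¬ p.Nil) : t ∈ side T s p.snd := by
  cases p with
  | nil => simp at hn
  | @cons _ c _ h w =>
    rw [Walk.snd_cons]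
    rw [Walk.cons_isPath_iff] at hp
    refine ⟨w.toDeleteEdges _ fun e he hm => ?_⟩
    rw [Set.mem_singleton_iff] at hm
    subst hm
    exact hp.2 (w.fst_mem_support_of_mem_edges he)

lemma start_mem {s t : V} (p : T.Walk s t) (hp : p.IsPath) (hn : ¬ p.Nil) :
    s ∈ side T t p.penultimate := by
  have := end_mem p.reverse hp.reverse (by simpa using hn)
  rwa [Walk.snd_reverse] at this

lemma uniq (hT : T.IsTree) {s a b t : V} (ha : T.Adj s a) (hb : T.Adj s b)
    (h1 : t ∈ side T s a) (h2 : t ∈ side T s b) : a = b := by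
  by_contra hne
  have e1 : b ∈ side T a s := by
    refine step_mem (self_mem _ _) hb fun he => ?_
    rcases Sym2.eq_iff.1 he with ⟨rfl, _⟩ | ⟨_, rfl⟩
    · exact ha.ne rfl
    · exact hne rfl
  have e2 : a ∉ side T s b := by
    have : a ∈ side T b s := by
      refine step_mem (self_mem _ _) ha fun he => ?_
      rcases Sym2.eq_iff.1 he with ⟨rfl, _⟩ | ⟨_, rfl⟩
      · exact hb.ne rfl
      · exact hne rfl
    rw [← compl_side hT hb] at this
    exact this
  have := sub_of e1 e2 h2
  rw [← compl_side hT ha] at this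
  exact this h1

theorem path_iff (hT : T.IsTree) {s a b t : V} (ha : T.Adj s a) (hb : T.Adj b t) :
    (∃ q : T.Walk s t, q.IsPath ∧ ¬ q.Nil ∧ q.snd = a ∧ q.penultimate = b) ↔
      side T b t ⊆ side T s a := by
  constructor
  · rintro ⟨q, hq, hn, rfl, rfl⟩
    refine sub_of (end_mem q hq hn) ?_
    have := start_mem q hq hn
    rw [← compl_side hT hb] at this
    exact this
  · intro h
    classical
    have ht : t ∈ side T s a := h (self_mem _ _)
    have hs : s ∈ side T t b := by
      rw [← compl_side hT hb]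
      exact fun hc => tail_not_mem hT ha (h hc)
    have hst : s ≠ t := fun e => tail_not_mem hT ha (e ▸ ht)
    obtain ⟨w⟩ := hT.connected.preconnected s t
    have hn : ¬ w.bypass.Nil := Walk.not_nil_of_ne hst
    refine ⟨w.bypass, w.bypass_isPath, hn, ?_, ?_⟩
    · exact uniq hT (w.bypass.adj_snd hn) ha (end_mem _ w.bypass_isPath hn) ht
    · exact uniq hT (w.bypass.adj_penultimate hn).symm hb.symm (start_mem _ w.bypass_isPath hn) hs

end Pool.Agent.H32.Side
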