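import Mathlib

namespace Pool.Agent.H32.Sieve

open Finset

/-- evaluate `x` first, then continue -/
def force {α : Type} (x : ℕ) (f : ℕ → α) : α :=
  match x with
  | 0 => f 0
  | y + 1 => f (Nat.succ y)

theorem force_eq {α : Type} (x : ℕ) (f : ℕ → α) : force x f = f x := by
  cases x <;> rfl

/-- doubling a periodic bit pattern -/
def pat : ℕ → ℕ → ℕ → ℕ
  | 0, _, x => x
  | f + 1, len, x => force (x ||| (x <<< len)) fun y => force (2 * len) fun l => pat f l y

theorem pat_spec (d : ℕ) : ∀ (f len x : ℕ), d ∣ len →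
    (∀ i, x.testBit i = true ↔ d ∣ i ∧ i < len) →
    ∀ i, (pat f len x).testBit i = true ↔ d ∣ i ∧ i < len * 2 ^ f := by
  intro f
  induction f with
  | zero => intro len x _ h i; simpa [pat] using h i
  | succ f ih =>
    intro len x hd h i
    simp only [pat, force_eq]
    rw [ih (2 * len) _ (Dvd.dvd.mul_left hd 2) ?_ i]
    · have : 2 * len * 2 ^ f = len * 2 ^ (f + 1) := by ring
      rw [this]
    · intro j
      rw [Nat.testBit_or, Nat.testBit_shiftLeft, Bool.or_eq_true, Bool.and_eq_true, h, h,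
        decide_eq_true_iff]
      constructor
      · rintro (⟨h1, h2⟩ | ⟨h1, h2, h3⟩)
        · exact ⟨h1, by omega⟩
        · refine ⟨?_, by omega⟩
          have : j = (j - len) + len := by omega
          rw [this]; exact Dvd.dvd.add h2 hd
      · rintro ⟨h1, h2⟩
        by_cases hj : j < len
        · exact Or.inl ⟨h1, hj⟩
        · exact Or.inr ⟨by omega, Nat.dvd_sub h1 hd, by omega⟩

/-- all multiples `i ≥ 2d` of `d` (at least up to `N`) -/
def mult (N d : ℕ) : ℕ := pat (Nat.log2 (N / d) + 1) d 1 <<< (2 * d)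

theorem one_spec (d : ℕ) (hd : 0 < d) (i : ℕ) :
    (1 : ℕ).testBit i = true ↔ d ∣ i ∧ i < d := by
  rw [Nat.testBit_one_eq_true_iff_self_eq_zero]
  constructor
  · rintro rfl; exact ⟨dvd_zero _, hd⟩
  · rintro ⟨h1, h2⟩; exact Nat.eq_zero_of_dvd_of_lt h1 h2

theorem mult_comp {N d i : ℕ} (hd : 2 ≤ d) (h : (mult N d).testBit i = true) : ¬ i.Prime := by
  unfold mult at h
  rw [Nat.testBit_shiftLeft, Bool.and_eq_true, decide_eq_true_iff,
    pat_spec d _ d 1 dvd_rfl (one_spec d (by omega))] at h
  obtain ⟨h1, h2, _⟩ := h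
  intro hp
  have h3 : d ∣ i := by
    have : i = (i - 2 * d) + 2 * d := by omega
    rw [this]; exact Dvd.dvd.add h2 (Dvd.intro_left 2 rfl)
  rcases (Nat.dvd_prime hp).1 h3 with h | h <;> omega

theorem mult_all {N d i : ℕ} (hd : 2 ≤ d) (h1 : d ∣ i) (h2 : 2 * d ≤ i) (h3 : i ≤ N) :
    (mult N d).testBit i = true := by
  unfold mult
  rw [Nat.testBit_shiftLeft, Bool.and_eq_true, decide_eq_true_iff,
    pat_spec d _ d 1 dvd_rfl (one_spec d (by omega))]
  refine ⟨h2, Nat.dvd_sub h1 (Dvd.intro_left 2 rfl), ?_⟩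
  have h4 : N / d < 2 ^ (Nat.log2 (N / d) + 1) := Nat.lt_log2_self
  have h5 : N < d * (N / d + 1) := Nat.lt_mul_div_succ N (by omega)
  have h6 : d * (N / d + 1) ≤ d * 2 ^ (Nat.log2 (N / d) + 1) := Nat.mul_le_mul_left _ h4
  omega

/-- the sieve loop -/
def sv (N : ℕ) : ℕ → ℕ → ℕ → ℕ
  | 0, _, a => a
  | f + 1, d, a =>
    force (if a.testBit d = true then a else a ||| mult N d) fun b =>
      force (d + 1) fun e => sv N f e b

def Good (N d a : ℕ) : Prop :=
  (∀ i, a.testBit i = true → ¬ i.Prime) ∧
  (∀ i, i ≤ N → (i < 2 ∨ ∃ p, p.Prime ∧ p < d ∧ p ∣ i ∧ 2 * p ≤ i) → a.testBit i = true)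

theorem sv_good (N : ℕ) : ∀ (f d a : ℕ), 2 ≤ d → Good N d a → Good N (d + f) (sv N f d a) := by
  intro f
  induction f with
  | zero => intro d a _ h; simpa [sv] using h
  | succ f ih =>
    intro d a hd h
    simp only [sv, force_eq]
    have e : d + (f + 1) = d + 1 + f := by ring
    rw [e]
    apply ih _ _ (by omega)
    split_ifs with hb
    · refine ⟨h.1, fun i hi hh => h.2 i hi ?_⟩
      rcases hh with hh | ⟨p, hp, h1, h2, h3⟩
      · exact Or.inl hh
      · have : p ≠ d := fun e => h.1 d hb (e ▸ hp)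
        exact Or.inr ⟨p, hp, by omega, h2, h3⟩
    · constructor
      · intro i hi
        rw [Nat.testBit_or, Bool.or_eq_true] at hi
        rcases hi with hi | hi
        · exact h.1 i hi
        · exact mult_comp hd hi
      · intro i hi hh
        rw [Nat.testBit_or, Bool.or_eq_true]
        rcases hh with hh | ⟨p, hp, h1, h2, h3⟩
        · exact Or.inl (h.2 i hi (Or.inl hh))
        · by_cases e : p = d
          · subst e; exact Or.inr (mult_all hd h2 h3 hi)
          · exact Or.inl (h.2 i hi (Or.inr ⟨p, hp, by omega, h2, h3⟩))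

theorem good_init (N : ℕ) : Good N 2 3 := by
  constructor
  · intro i hi hp
    have h2 := hp.two_le
    have : (3 : ℕ) < 2 ^ i := by
      calc (3 : ℕ) < 2 ^ 2 := by norm_num
        _ ≤ 2 ^ i := Nat.pow_le_pow_right (by norm_num) h2
    rw [Nat.testBit_lt_two_pow this] at hi
    exact absurd hi (by simp)
  · intro i _ hh
    rcases hh with hh | ⟨p, hp, h1, _, _⟩
    · interval_cases i <;> decide
    · have := hp.two_le; omega

/-- the non-primes up to `N` -/
def sieve (N B : ℕ) : ℕ := sv N B 2 3

theorem sieve_spec {N B : ℕ} (h : N < (B + 2) * (B + 2)) {i : ℕ} (hi : i ≤ N) :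
    (sieve N B).testBit i = true ↔ ¬ i.Prime := by
  have g := sv_good N B 2 3 le_rfl (good_init N)
  refine ⟨g.1 i, fun hp => g.2 i hi ?_⟩
  by_cases h2 : i < 2
  · exact Or.inl h2
  · right
    have h1 : i ≠ 1 := by omega
    have hm := Nat.minFac_prime h1
    have hs := Nat.minFac_sq_le_self (by omega : 0 < i) hp
    have h3 := hm.two_le
    refine ⟨i.minFac, hm, ?_, Nat.minFac_dvd i, by nlinarith⟩
    by_contra hc
    push Not at hc
    nlinarith

/-- number of one bits, by clearing the lowest one bit -/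
def pc : ℕ → ℕ → ℕ → ℕ
  | 0, _, c => c
  | _ + 1, 0, c => c
  | f + 1, y + 1, c => force (c + 1) fun e => pc f (Nat.succ y &&& y) e

def ones : ℕ → ℕ → ℕ
  | 0, _ => 0
  | f + 1, x => x % 2 + ones f (x / 2)

theorem ones_le : ∀ f x, ones f x ≤ f := by
  intro f
  induction f with
  | zero => intro x; simp [ones]
  | succ f ih => intro x; have := ih (x / 2); simp only [ones]; omega

theorem ones_zero : ∀ f, ones f 0 = 0 := by
  intro f
  induction f with
  | zero => rfl
  | succ f ih => simp [ones, ih]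

theorem ones_card : ∀ f x, ones f x = ((range f).filter fun i => x.testBit i = true).card := by
  intro f
  induction f with
  | zero => intro x; simp [ones]
  | succ f ih =>
    intro x
    rw [ones, ih, card_filter, card_filter, sum_range_succ', add_comm]
    congr 1
    · apply sum_congr rfl
      intro i _
      rw [Nat.testBit_succ]
    · rw [Nat.testBit_zero]
      rcases Nat.mod_two_eq_zero_or_one x with h | h <;> simp [h]

theorem ones_clear : ∀ f y, y + 1 < 2 ^ f → ones f (y + 1) = 1 + ones f ((y + 1) &&& y) := by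
  intro f
  induction f with
  | zero => intro y h; simp at h
  | succ f ih =>
    intro y h
    have h0 : ((y + 1) &&& y) % 2 = 0 := by
      rcases Nat.mod_two_eq_zero_or_one ((y + 1) &&& y) with a | a
      · exact a
      · rw [Nat.and_mod_two_eq_one] at a; omega
    simp only [ones, h0, Nat.and_div_two]
    rcases Nat.mod_two_eq_zero_or_one y with a | a
    · have e : (y + 1) / 2 = y / 2 := by omega
      have e2 : (y + 1) % 2 = 1 := by omega
      rw [e, e2, Nat.and_self]; omega
    · have e : (y + 1) / 2 = y / 2 + 1 := by omega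
      have e2 : (y + 1) % 2 = 0 := by omega
      rw [e, e2, ih (y / 2) (by rw [pow_succ] at h; omega)]; omega

theorem pc_ones (f : ℕ) : ∀ (g x c : ℕ), x < 2 ^ f → ones f x ≤ g → pc g x c = c + ones f x := by
  intro g
  induction g with
  | zero => intro x c _ h; simp only [pc]; omega
  | succ g ih =>
    intro x c hx h
    rcases x with _ | y
    · simp [pc, ones_zero]
    · simp only [pc, force_eq, Nat.succ_eq_add_one]
      have e := ones_clear f y hx
      rw [ih _ _ (lt_of_le_of_lt Nat.and_le_left hx) (by omega)]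
      omega

theorem ones_add : ∀ a b x, ones (a + b) x = ones a (x % 2 ^ a) + ones b (x / 2 ^ a) := by
  intro a
  induction a with
  | zero => intro b x; simp [ones]
  | succ a ih =>
    intro b x
    have e : a + 1 + b = (a + b) + 1 := by ring
    rw [e, ones, ones, ih, pow_succ', Nat.mod_mul_right_div_self, Nat.div_div_eq_div_mul,
      Nat.mod_mul_right_mod]
    ring

/-- number of one bits, sixty at a time -/
def pcw : ℕ → ℕ → ℕ → ℕ
  | 0, _, c => c
  | f + 1, x, c => force (pc 60 (x % 1152921504606846976) c) fun e =>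
      force (x / 1152921504606846976) fun q => pcw f q e

theorem pcw_ones : ∀ g x c, pcw g x c = c + ones (60 * g) x := by
  intro g
  induction g with
  | zero => intro x c; simp [pcw, ones]
  | succ g ih =>
    intro x c
    have e : 60 * (g + 1) = 60 + 60 * g := by ring
    have w : (1152921504606846976 : ℕ) = 2 ^ 60 := by norm_num
    simp only [pcw, force_eq]
    rw [ih, e, ones_add, w, pc_ones 60 60 _ _ (Nat.mod_lt _ (by positivity)) (ones_le _ _)]
    ring

theorem pc_spec (f x c : ℕ) (hx : x < 2 ^ f) :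
    pcw (f / 60 + 1) x c = c + ((range f).filter fun i => x.testBit i = true).card := by
  obtain ⟨b, hb⟩ : ∃ b, 60 * (f / 60 + 1) = f + b := ⟨60 * (f / 60 + 1) - f, by omega⟩
  rw [pcw_ones, hb, ones_add, Nat.mod_eq_of_lt hx, Nat.div_eq_of_lt hx, ones_zero, ones_card,
    add_zero]

/-- `r` marks exactly the non-primes among `s, ..., s + L - 1` -/
def Rep (r s L : ℕ) : Prop := ∀ i, i < L → (r.testBit i = true ↔ ¬ (s + i).Prime)

theorem rep_sieve {N B : ℕ} (h : N < (B + 2) * (B + 2)) : Rep (sieve N B) 0 (N + 1) := by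
  intro i hi
  rw [zero_add]; exact sieve_spec h (by omega)

theorem Rep.shift {r s L n : ℕ} (h : Rep r s (n + L)) : Rep (r >>> n) (s + n) L := by
  intro i hi
  rw [Nat.testBit_shiftRight, h (n + i) (by omega), add_assoc]

theorem Rep.mono {r s L M : ℕ} (h : Rep r s L) (hm : M ≤ L) : Rep r s M :=
  fun i hi => h i (by omega)

/-- segmented sieve; `S` marks the small non-primes -/
def sg (S s L : ℕ) : ℕ → ℕ → ℕ → ℕ
  | 0, _, a => a
  | f + 1, d, a =>
    force (if S.testBit d = true then a
      else a ||| (pat (Nat.log2 (L / d) + 1) d 1 <<< ((d - s % d) % d))) fun b =>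
      force (d + 1) fun e => sg S s L f e b

theorem off_spec {s d L i : ℕ} (hd : 2 ≤ d) (hi : i < L) :
    (pat (Nat.log2 (L / d) + 1) d 1 <<< ((d - s % d) % d)).testBit i = true ↔ d ∣ s + i := by
  rw [Nat.testBit_shiftLeft, Bool.and_eq_true, decide_eq_true_iff,
    pat_spec d _ d 1 dvd_rfl (one_spec d (by omega))]
  set o := (d - s % d) % d with ho
  have h1 : o < d := Nat.mod_lt _ (by omega)
  have h0 : s % d < d := Nat.mod_lt _ (by omega)
  have h2 : d ∣ s + o := by
    apply Nat.dvd_of_mod_eq_zero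
    rw [Nat.add_mod, ho, Nat.mod_mod, Nat.add_mod_mod]
    have : s % d + (d - s % d) = d := by omega
    rw [this, Nat.mod_self]
  have h4 : L / d < 2 ^ (Nat.log2 (L / d) + 1) := Nat.lt_log2_self
  have h5 : L < d * (L / d + 1) := Nat.lt_mul_div_succ L (by omega)
  have h6 : d * (L / d + 1) ≤ d * 2 ^ (Nat.log2 (L / d) + 1) := Nat.mul_le_mul_left _ h4
  constructor
  · rintro ⟨a, b, _⟩
    have : s + i = (s + o) + (i - o) := by omega
    rw [this]; exact Dvd.dvd.add h2 b
  · intro h
    have a : o ≤ i := by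
      by_contra hc
      have h7 : d ∣ (s + o) - (s + i) := Nat.dvd_sub h2 h
      have := Nat.le_of_dvd (by omega) h7
      omega
    refine ⟨a, ?_, by omega⟩
    have : i - o = (s + i) - (s + o) := by omega
    rw [this]; exact Nat.dvd_sub h h2

theorem sg_spec {S s L M : ℕ} (hS : Rep S 0 M) : ∀ (f d a : ℕ), 2 ≤ d → d + f ≤ M →
    (∀ i, i < L → (a.testBit i = true ↔ ∃ p, p.Prime ∧ p < d ∧ p ∣ s + i)) →
    ∀ i, i < L → ((sg S s L f d a).testBit i = true ↔ ∃ p, p.Prime ∧ p < d + f ∧ p ∣ s + i) := by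
  intro f
  induction f with
  | zero => intro d a _ _ h; simpa [sg] using h
  | succ f ih =>
    intro d a hd hM h
    simp only [sg, force_eq]
    have e : d + (f + 1) = d + 1 + f := by ring
    rw [e]
    apply ih _ _ (by omega) (by omega)
    intro i hi
    have hs := hS d (by omega)
    rw [zero_add] at hs
    split_ifs with hb
    · rw [h i hi]
      constructor
      · rintro ⟨p, a1, a2, a3⟩; exact ⟨p, a1, by omega, a3⟩
      · rintro ⟨p, a1, a2, a3⟩
        have : p ≠ d := fun e => hs.1 hb (e ▸ a1)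
        exact ⟨p, a1, by omega, a3⟩
    · have hp : d.Prime := by
        by_contra hc; exact hb (hs.2 hc)
      rw [Nat.testBit_or, Bool.or_eq_true, h i hi, off_spec hd hi]
      constructor
      · rintro (⟨p, a1, a2, a3⟩ | a)
        · exact ⟨p, a1, by omega, a3⟩
        · exact ⟨d, hp, by omega, a⟩
      · rintro ⟨p, a1, a2, a3⟩
        by_cases e : p = d
        · exact Or.inr (e ▸ a3)
        · exact Or.inl ⟨p, a1, by omega, a3⟩

/-- non-primes in `[s, s+L)`, sieving by the primes below `B + 2` -/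
def seg (B C s L : ℕ) : ℕ := force (sieve (B + 1) C) fun S => sg S s L B 2 0

theorem rep_seg {B C s L : ℕ} (hC : B + 1 < (C + 2) * (C + 2)) (h1 : B + 2 ≤ s)
    (h2 : s + L ≤ (B + 2) * (B + 2)) : Rep (seg B C s L) s L := by
  intro i hi
  unfold seg
  rw [force_eq, sg_spec (rep_sieve hC) B 2 0 le_rfl (by omega) ?_ i hi]
  · constructor
    · rintro ⟨p, a1, a2, a3⟩ hp
      have := (Nat.prime_dvd_prime_iff_eq a1 hp).1 a3
      omega
    · intro hp
      have hm := Nat.minFac_prime (by omega : s + i ≠ 1)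
      have hs := Nat.minFac_sq_le_self (by omega : 0 < s + i) hp
      refine ⟨_, hm, ?_, Nat.minFac_dvd _⟩
      by_contra hc
      push Not at hc
      nlinarith
  · intro j _
    simp only [Nat.zero_testBit, Bool.false_eq_true, false_iff]
    rintro ⟨p, a1, a2, _⟩
    have := a1.two_le
    omega

/-- `c` plus the number of zero bits of `r` among the lowest `n` -/
def blk (n r c : ℕ) : ℕ := force (2 ^ n - 1) fun m => pcw (n / 60 + 1) (m ^^^ (r &&& m)) c

theorem blk_spec {r s n : ℕ} (h : Rep r s n) :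
    blk n r (Nat.count Nat.Prime s) = Nat.count Nat.Prime (s + n) := by
  unfold blk
  rw [force_eq, Nat.and_two_pow_sub_one_eq_mod,
    pc_spec _ _ _ (Nat.xor_lt_two_pow (by have : 0 < 2 ^ n := by positivity
                                          omega) (Nat.mod_lt _ (by positivity))),
    Nat.count_add, Nat.count_eq_card_filter_range _ n]
  congr 2
  ext i
  simp only [mem_filter, mem_range, Nat.testBit_xor, Nat.testBit_two_pow_sub_one,
    Nat.testBit_mod_two_pow]
  constructor
  · rintro ⟨a, b⟩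
    refine ⟨a, ?_⟩
    by_contra hp
    have := (h i a).2 hp
    simp [a, this] at b
  · rintro ⟨a, b⟩
    refine ⟨a, ?_⟩
    have : r.testBit i = false := by
      by_contra hc
      exact (h i a).1 (by simpa using hc) b
    simp [a, this]

theorem count_eq {N B : ℕ} (h : N < (B + 2) * (B + 2)) :
    Nat.count Nat.Prime (N + 1) = blk (N + 1) (sieve N B) 0 := by
  have := blk_spec (rep_sieve h)
  simpa using this.symm

/-- run through consecutive blocks of length `n`, testing the running count; `z` is the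
final count -/
def run (n : ℕ) (t : ℕ → Bool) (z : ℕ) : ℕ → ℕ → ℕ → Bool
  | 0, _, c => decide (c = z)
  | f + 1, r, c => force (blk n r c) fun e => t e && force (r >>> n) fun q => run n t z f q e

theorem run_spec (n : ℕ) (t : ℕ → Bool) (z : ℕ) :
    ∀ (f r s : ℕ), Rep r s (f * n) →
      run n t z f r (Nat.count Nat.Prime s) = true →
      (∀ k, 1 ≤ k → k ≤ f → t (Nat.count Nat.Prime (s + k * n)) = true) ∧
        Nat.count Nat.Prime (s + f * n) = z := by
  intro f
  induction f with
  | zero =>
    intro r s _ h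
    exact ⟨fun k h1 h2 => by omega, by simpa [run] using h⟩
  | succ f ih =>
    intro r s hs hr
    have e : (f + 1) * n = n + f * n := by ring
    rw [e] at hs
    simp only [run, force_eq, Bool.and_eq_true] at hr
    rw [blk_spec (hs.mono (by omega))] at hr
    obtain ⟨i1, i2⟩ := ih _ (s + n) hs.shift hr.2
    refine ⟨fun k h1 h2 => ?_, by rw [e, ← add_assoc]; exact i2⟩
    obtain ⟨j, rfl⟩ : ∃ j, k = j + 1 := ⟨k - 1, by omega⟩
    rcases Nat.eq_zero_or_pos j with rfl | hj
    · simpa using hr.1
    · have e2 : s + (j + 1) * n = s + n + j * n := by ring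
      rw [e2]; exact i1 j hj (by omega)

/-- the test holds at `1 + k n` for `1 ≤ k ≤ K`, and the count at `1 + K n` is `z` -/
def Upto (n : ℕ) (t : ℕ → Bool) (K z : ℕ) : Prop :=
  (∀ k, 1 ≤ k → k ≤ K → t (Nat.count Nat.Prime (1 + k * n)) = true) ∧
    Nat.count Nat.Prime (1 + K * n) = z

theorem upto_init {n K z B : ℕ} {t : ℕ → Bool} (h : K * n < (B + 2) * (B + 2))
    (hr : run n t z K (sieve (K * n) B >>> 1) 0 = true) : Upto n t K z := by
  have h1 : Nat.count Nat.Prime 1 = 0 := by
    simp [Nat.count_succ, Nat.not_prime_zero]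
  have hb : run n t z K (sieve (K * n) B >>> 1) (Nat.count Nat.Prime 1) = true := by
    rw [h1]; exact hr
  have hs := rep_sieve h
  rw [add_comm] at hs
  exact run_spec n t z K _ 1 (by simpa using hs.shift) hb

theorem Upto.step {n K z : ℕ} {t : ℕ → Bool} (hu : Upto n t K z) (B C f w : ℕ)
    (hC : B + 1 < (C + 2) * (C + 2)) (h1 : B + 2 ≤ 1 + K * n)
    (h2 : 1 + K * n + f * n ≤ (B + 2) * (B + 2))
    (hr : run n t w f (seg B C (1 + K * n) (f * n)) z = true) : Upto n t (K + f) w := by
  rw [← hu.2] at hr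
  obtain ⟨i1, i2⟩ := run_spec n t w f _ _ (rep_seg hC h1 h2) hr
  refine ⟨fun k a b => ?_, by rw [← i2]; congr 1; ring⟩
  by_cases c : k ≤ K
  · exact hu.1 k a c
  · have := i1 (k - K) (by omega) (by omega)
    have e : 1 + K * n + (k - K) * n = 1 + k * n := by
      obtain ⟨j, rfl⟩ : ∃ j, k = K + j := ⟨k - K, by omega⟩
      rw [Nat.add_sub_cancel_left]; ring
    rwa [e] at this

end Pool.Agent.H32.Sieve
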