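import Mathlib
import Pool.Agent.H32.Sieve

namespace Pool.Agent.H32.Sieve

open Finset

/-- bits at the multiples of `d` below `d q` -/
def geo (d q : ℕ) : ℕ := (2 ^ (d * q) - 1) / (2 ^ d - 1)

theorem geo_sum (d : ℕ) (hd : 1 ≤ d) (q : ℕ) : geo d q = ∑ i ∈ range q, (2 ^ d) ^ i := by
  have h : 2 ≤ 2 ^ d := by
    calc 2 = 2 ^ 1 := by norm_num
      _ ≤ 2 ^ d := Nat.pow_le_pow_right (by norm_num) hd
  rw [Nat.geomSum_eq h, geo, pow_mul]

theorem geo_spec (d : ℕ) (hd : 1 ≤ d) : ∀ q i, (geo d q).testBit i = true ↔ d ∣ i ∧ i < d * q := by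
  intro q
  induction q with
  | zero => intro i; simp [geo]
  | succ q ih =>
    intro i
    have h1 : 1 < 2 ^ d := Nat.one_lt_two_pow (by omega)
    rw [geo_sum d hd, geom_sum_succ, ← geo_sum d hd, Nat.testBit_two_pow_mul_add _ h1]
    have e : d * (q + 1) = d * q + d := by ring
    split_ifs with h
    · rw [one_spec d (by omega)]
      constructor
      · rintro ⟨a, _⟩; exact ⟨a, by omega⟩
      · rintro ⟨a, _⟩; exact ⟨a, h⟩
    · rw [ih]
      constructor
      · rintro ⟨a, b⟩
        refine ⟨?_, by omega⟩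
        have : i = (i - d) + d := by omega
        rw [this]; exact Dvd.dvd.add a dvd_rfl
      · rintro ⟨a, b⟩
        exact ⟨Nat.dvd_sub a dvd_rfl, by omega⟩

theorem off_spec2 {s d L i : ℕ} (hd : 2 ≤ d) (hi : i < L) :
    (geo d (L / d + 1) <<< ((d - s % d) % d)).testBit i = true ↔ d ∣ s + i := by
  rw [Nat.testBit_shiftLeft, Bool.and_eq_true, decide_eq_true_iff, geo_spec d (by omega)]
  set o := (d - s % d) % d with ho
  have h1 : o < d := Nat.mod_lt _ (by omega)
  have h0 : s % d < d := Nat.mod_lt _ (by omega)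
  have h2 : d ∣ s + o := by
    apply Nat.dvd_of_mod_eq_zero
    rw [Nat.add_mod, ho, Nat.mod_mod, Nat.add_mod_mod]
    have : s % d + (d - s % d) = d := by omega
    rw [this, Nat.mod_self]
  have h5 : L < d * (L / d + 1) := Nat.lt_mul_div_succ L (by omega)
  constructor
  · rintro ⟨a, b, _⟩
    have : s + i = (s + o) + (i - o) := by omega
    rw [this]; exact Dvd.dvd.add h2 b
  · intro h
    have a : o ≤ i := by
      by_contra hc
      have h7 : d ∣ (s + o) - (s + i) := Nat.dvd_sub h2 h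
      have := Nat.le_of_dvd (by omega) h7
      omega
    refine ⟨a, ?_, by omega⟩
    have : i - o = (s + i) - (s + o) := by omega
    rw [this]; exact Nat.dvd_sub h h2

/-- segmented sieve; `S` marks the small non-primes -/
def sg2 (S s L : ℕ) : ℕ → ℕ → ℕ → ℕ
  | 0, _, a => a
  | f + 1, d, a =>
    force (d + 1) fun e =>
      if S.testBit d = true then sg2 S s L f e a
      else force (a ||| (geo d (L / d + 1) <<< ((d - s % d) % d))) fun b => sg2 S s L f e b

theorem sg2_spec {S s L M : ℕ} (hS : Rep S 0 M) : ∀ (f d a : ℕ), 2 ≤ d → d + f ≤ M →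
    (∀ i, i < L → (a.testBit i = true ↔ ∃ p, p.Prime ∧ p < d ∧ p ∣ s + i)) →
    ∀ i, i < L → ((sg2 S s L f d a).testBit i = true ↔ ∃ p, p.Prime ∧ p < d + f ∧ p ∣ s + i) := by
  intro f
  induction f with
  | zero => intro d a _ _ h; simpa [sg2] using h
  | succ f ih =>
    intro d a hd hM h
    simp only [sg2, force_eq]
    have e : d + (f + 1) = d + 1 + f := by ring
    rw [e]
    have hs := hS d (by omega)
    rw [zero_add] at hs
    split_ifs with hb
    · apply ih _ _ (by omega) (by omega)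
      intro i hi
      rw [h i hi]
      constructor
      · rintro ⟨p, a1, a2, a3⟩; exact ⟨p, a1, by omega, a3⟩
      · rintro ⟨p, a1, a2, a3⟩
        have : p ≠ d := fun e => hs.1 hb (e ▸ a1)
        exact ⟨p, a1, by omega, a3⟩
    · apply ih _ _ (by omega) (by omega)
      intro i hi
      have hp : d.Prime := by
        by_contra hc; exact hb (hs.2 hc)
      rw [Nat.testBit_or, Bool.or_eq_true, h i hi, off_spec2 hd hi]
      constructor
      · rintro (⟨p, a1, a2, a3⟩ | a)
        · exact ⟨p, a1, by omega, a3⟩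
        · exact ⟨d, hp, by omega, a⟩
      · rintro ⟨p, a1, a2, a3⟩
        by_cases e : p = d
        · exact Or.inr (e ▸ a3)
        · exact Or.inl ⟨p, a1, by omega, a3⟩

/-- non-primes in `[s, s+L)`, sieving by the primes below `B + 2` -/
def seg2 (B C s L : ℕ) : ℕ := force (sieve (B + 1) C) fun S => sg2 S s L B 2 0

theorem rep_seg2 {B C s L : ℕ} (hC : B + 1 < (C + 2) * (C + 2)) (h1 : B + 2 ≤ s)
    (h2 : s + L ≤ (B + 2) * (B + 2)) : Rep (seg2 B C s L) s L := by
  intro i hi
  unfold seg2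
  rw [force_eq, sg2_spec (rep_sieve hC) B 2 0 le_rfl (by omega) ?_ i hi]
  · constructor
    · rintro ⟨p, a1, a2, a3⟩ hp
      have := (Nat.prime_dvd_prime_iff_eq a1 hp).1 a3
      omega
    · intro hp
      have hm := Nat.minFac_prime (by omega : s + i ≠ 1)
      have hs := Nat.minFac_sq_le_self (by omega : 0 < s + i) hp
      refine ⟨_, hm, ?_, Nat.minFac_dvd _⟩
      by_contra hc
      push Not at hc
      nlinarith
  · intro j _
    simp only [Nat.zero_testBit, Bool.false_eq_true, false_iff]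
    rintro ⟨p, a1, a2, _⟩
    have := a1.two_le
    omega

theorem Upto.step2 {n K z : ℕ} {t : ℕ → Bool} (hu : Upto n t K z) (B C f w : ℕ)
    (hC : B + 1 < (C + 2) * (C + 2)) (h1 : B + 2 ≤ 1 + K * n)
    (h2 : 1 + K * n + f * n ≤ (B + 2) * (B + 2))
    (hr : run n t w f (seg2 B C (1 + K * n) (f * n)) z = true) : Upto n t (K + f) w := by
  rw [← hu.2] at hr
  obtain ⟨i1, i2⟩ := run_spec n t w f _ _ (rep_seg2 hC h1 h2) hr
  refine ⟨fun k a b => ?_, by rw [← i2]; congr 1; ring⟩
  by_cases c : k ≤ K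
  · exact hu.1 k a c
  · have := i1 (k - K) (by omega) (by omega)
    have e : 1 + K * n + (k - K) * n = 1 + k * n := by
      obtain ⟨j, rfl⟩ : ∃ j, k = K + j := ⟨k - K, by omega⟩
      rw [Nat.add_sub_cancel_left]; ring
    rwa [e] at this

end Pool.Agent.H32.Sieve
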