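import Mathlib.Algebra.BigOperators.Fin
import Mathlib.Data.Nat.Bitwise
import Mathlib.Data.Fin.VecNotation
import Mathlib.Algebra.Order.Ring.Int
import Mathlib.Tactic.IntervalCases

namespace Pool.Agent.H32.Spec

def chi (c x : ℕ) : ℤ := bif Nat.testBit 0x6996966996696996 (Nat.land c x) then -1 else 1

def adjB (x y : ℕ) : Bool := Nat.testBit 0xffffbbbbafaf01be (Nat.xor x y)

def lamL : List ℤ := [47, -9, 5, 5, 5, 5, -1, -1, 5, -3, -1, -1, -1, -1, -3, -3, -9, -1, 5, 5, -3, -3,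
  -1, -1, 5, -3, -1, -1, -1, -1, -3, -3, -9, -1, -3, -3, 5, 5, -1, -1, 5, -3, -1, -1, -1, -1, -3, -3,
  -1, 7, -3, -3, -3, -3, -1, -1, 5, -3, -1, -1, -1, -1, -3, -3]

def lam (c : ℕ) : ℤ := lamL.getD c 0

def cs : Fin 12 → Fin 64 := ![2, 3, 4, 5, 8, 18, 19, 24, 36, 37, 40, 56]

def csL : List ℕ := [2, 3, 4, 5, 8, 18, 19, 24, 36, 37, 40, 56]

def sumTo (f : ℕ → ℤ) : ℕ → ℤ
  | 0 => 0
  | n + 1 => sumTo f n + f n

lemma sumTo_eq (f : ℕ → ℤ) (n : ℕ) : sumTo f n = ∑ i ∈ Finset.range n, f i := by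
  induction n with
  | zero => rfl
  | succ n ih => rw [sumTo, ih, Finset.sum_range_succ]

def R64 : List ℕ := List.range 64

def c1 (x : ℕ) : Bool := R64.all fun c =>
  sumTo (fun y => bif adjB x y then chi c y else 0) 64 == lam c * chi c x

def c2 (x : ℕ) : Bool := R64.all fun y =>
  sumTo (fun c => chi c x * chi c y) 64 == (bif Nat.beq x y then 64 else 0)

/-- weight of the codeword `t` -/
def wt (t : ℕ) : ℕ := Nat.mod (Nat.div 0x6666666666666666686468646864686468686464686864648c88888448444440 (Nat.pow 16 t)) 16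

def c3 (x : ℕ) : Bool := R64.all fun y => !(adjB x y) || R64.all fun z =>
  Nat.beq z x || Nat.beq z y ||
    Nat.blt (wt (Nat.xor x y)) (wt (Nat.xor x z) + wt (Nat.xor y z))

def c4 (x : ℕ) : Bool := R64.all fun y =>
  (csL.map fun c => chi c x * chi c y).sum == 12 - 2 * (wt (Nat.xor x y) : ℤ)

def tL : List ℕ := [0, 0, 0, 0, 0, 0, 1, 0, 0, 1, 2, 3, 4, 5, 1, 7, 0, 0, 0, 0, 4, 0, 4, 0, 0, 0, 0, 0,
  4, 0, 4, 0, 0, 0, 2, 0, 0, 0, 2, 0, 0, 0, 2, 0, 0, 0, 2, 0]

def zz (x y : ℕ) : ℕ := Nat.xor x (tL.getD (Nat.xor x y) 0)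
def zw (x y : ℕ) : ℕ := Nat.xor y (tL.getD (Nat.xor x y) 0)

def c5 (x : ℕ) : Bool := R64.all fun y => Nat.beq x y || adjB x y ||
  (Nat.blt (zz x y) 64 && Nat.blt (zw x y) 64 && !(Nat.beq (zz x y) x) && !(Nat.beq (zz x y) y) &&
    csL.all fun c => chi c (zz x y) + chi c (zw x y) == chi c x + chi c y)

theorem c1_0 : ∀ x < 8, c1 (0 + x) = true := by decide +kernel
theorem c1_1 : ∀ x < 8, c1 (8 + x) = true := by decide +kernel
theorem c1_2 : ∀ x < 8, c1 (16 + x) = true := by decide +kernel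
theorem c1_3 : ∀ x < 8, c1 (24 + x) = true := by decide +kernel
theorem c1_4 : ∀ x < 8, c1 (32 + x) = true := by decide +kernel
theorem c1_5 : ∀ x < 8, c1 (40 + x) = true := by decide +kernel
theorem c1_6 : ∀ x < 8, c1 (48 + x) = true := by decide +kernel
theorem c1_7 : ∀ x < 8, c1 (56 + x) = true := by decide +kernel

theorem c1_ok (x : ℕ) (h : x < 64) : c1 x = true := by
  have e : x = 8 * (x / 8) + x % 8 := by omega
  have h1 : x / 8 < 8 := by omega
  have h2 : x % 8 < 8 := by omega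
  rw [e]
  generalize x / 8 = q at h1
  interval_cases q
  exacts [c1_0 _ h2, c1_1 _ h2, c1_2 _ h2, c1_3 _ h2, c1_4 _ h2, c1_5 _ h2, c1_6 _ h2, c1_7 _ h2]

theorem c2_0 : ∀ x < 8, c2 (0 + x) = true := by decide +kernel
theorem c2_1 : ∀ x < 8, c2 (8 + x) = true := by decide +kernel
theorem c2_2 : ∀ x < 8, c2 (16 + x) = true := by decide +kernel
theorem c2_3 : ∀ x < 8, c2 (24 + x) = true := by decide +kernel
theorem c2_4 : ∀ x < 8, c2 (32 + x) = true := by decide +kernel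
theorem c2_5 : ∀ x < 8, c2 (40 + x) = true := by decide +kernel
theorem c2_6 : ∀ x < 8, c2 (48 + x) = true := by decide +kernel
theorem c2_7 : ∀ x < 8, c2 (56 + x) = true := by decide +kernel

theorem c2_ok (x : ℕ) (h : x < 64) : c2 x = true := by
  have e : x = 8 * (x / 8) + x % 8 := by omega
  have h1 : x / 8 < 8 := by omega
  have h2 : x % 8 < 8 := by omega
  rw [e]
  generalize x / 8 = q at h1
  interval_cases q
  exacts [c2_0 _ h2, c2_1 _ h2, c2_2 _ h2, c2_3 _ h2, c2_4 _ h2, c2_5 _ h2, c2_6 _ h2, c2_7 _ h2]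

theorem c3_0 : ∀ x < 8, c3 (0 + x) = true := by decide +kernel
theorem c3_1 : ∀ x < 8, c3 (8 + x) = true := by decide +kernel
theorem c3_2 : ∀ x < 8, c3 (16 + x) = true := by decide +kernel
theorem c3_3 : ∀ x < 8, c3 (24 + x) = true := by decide +kernel
theorem c3_4 : ∀ x < 8, c3 (32 + x) = true := by decide +kernel
theorem c3_5 : ∀ x < 8, c3 (40 + x) = true := by decide +kernel
theorem c3_6 : ∀ x < 8, c3 (48 + x) = true := by decide +kernel
theorem c3_7 : ∀ x < 8, c3 (56 + x) = true := by decide +kernel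

theorem c3_ok (x : ℕ) (h : x < 64) : c3 x = true := by
  have e : x = 8 * (x / 8) + x % 8 := by omega
  have h1 : x / 8 < 8 := by omega
  have h2 : x % 8 < 8 := by omega
  rw [e]
  generalize x / 8 = q at h1
  interval_cases q
  exacts [c3_0 _ h2, c3_1 _ h2, c3_2 _ h2, c3_3 _ h2, c3_4 _ h2, c3_5 _ h2, c3_6 _ h2, c3_7 _ h2]


theorem c4_ok : R64.all c4 = true := by decide +kernel
theorem c5_ok : R64.all c5 = true := by decide +kernel
theorem wt_pos : ∀ x < 64, ∀ y < 64, x ≠ y → 0 < wt (Nat.xor x y) := by decide +kernel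
theorem wt_self : ∀ x < 64, wt (Nat.xor x x) = 0 := by decide +kernel
theorem chi_symm : ∀ x < 64, ∀ y < 64, chi x y = chi y x := by decide +kernel
theorem adj_symm : ∀ x < 64, ∀ y < 64, adjB x y = adjB y x := by decide +kernel
theorem adj_self : ∀ x < 64, adjB x x = false := by decide +kernel
theorem lam_five : ∀ c : Fin 64, lam c = 5 ↔ ∃ j, cs j = c := by decide +kernel
theorem cs_inj : ∀ i j, cs i = cs j → i = j := by decide +kernel

end Pool.Agent.H32.Spec
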