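import Mathlib

/-! Pointwise limits of homeomorphisms of one-point compactifications of Euclidean spaces. -/

namespace Pool.Agent.H32.SphLim

open Set Filter Topology OnePoint

def G (Z : Type) [TopologicalSpace Z] (z0 : Z) : Prop :=
  ∀ C : Set Z, IsClosed C → z0 ∈ C → (∃ f : (ℕ → Bool) → Z, Continuous f ∧ range f = C) →
    ∃ H : ℕ → Z ≃ₜ Z, (∀ p, ∃ q ∈ C, Tendsto (fun k => H k p) atTop (𝓝 q)) ∧
      ∀ q ∈ C, ∃ p, Tendsto (fun k => H k p) atTop (𝓝 q)

theorem G.transfer {Z Z' : Type} [TopologicalSpace Z] [TopologicalSpace Z'] {z0 : Z}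
    (h : G Z z0) (e : Z ≃ₜ Z') : G Z' (e z0) := by
  rintro C hC h0 ⟨f, hf, hr⟩
  obtain ⟨H, h1, h2⟩ := h (e ⁻¹' C) (hC.preimage e.continuous) h0 ⟨e.symm ∘ f,
    e.symm.continuous.comp hf, by rw [range_comp, hr, e.image_symm]⟩
  refine ⟨fun k => (e.symm.trans (H k)).trans e, fun p => ?_, fun q hq => ?_⟩
  · obtain ⟨q, hq, h3⟩ := h1 (e.symm p)
    exact ⟨e q, hq, (e.continuous.tendsto q).comp h3⟩
  · obtain ⟨p, h3⟩ := h2 (e.symm q) (by simpa using hq)
    refine ⟨e p, ?_⟩
    simpa [Function.comp_def] using (e.continuous.tendsto _).comp h3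

theorem G_of {V : Type} [TopologicalSpace V]
    (h : ∀ C : Set (OnePoint V), IsClosed C → ∞ ∈ C →
      (∃ f : (ℕ → Bool) → OnePoint V, Continuous f ∧ range f = C) →
      ∃ H : ℕ → V ≃ₜ V, (∀ p, ∃ q ∈ C, Tendsto (fun k => (H k p : OnePoint V)) atTop (𝓝 q)) ∧
      ∀ q : V, ↑q ∈ C → ∃ p, Tendsto (fun k => (H k p : OnePoint V)) atTop (𝓝 q)) :
    G (OnePoint V) ∞ := by
  intro C hC h0 hf
  obtain ⟨H, h1, h2⟩ := h C hC h0 hf
  refine ⟨fun k => (H k).onePointCongr, fun p => ?_, fun q hq => ?_⟩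
  · induction p with
    | infty => exact ⟨∞, h0, tendsto_const_nhds⟩
    | coe p => exact h1 p
  · induction q with
    | infty => exact ⟨∞, tendsto_const_nhds⟩
    | coe q =>
      obtain ⟨p, hp⟩ := h2 q hq
      exact ⟨p, hp⟩

theorem tendsto_infty {V : Type} [NormedAddCommGroup V] [ProperSpace V] {a : ℕ → V}
    (h : Tendsto (fun k => ‖a k‖) atTop atTop) :
    Tendsto (fun k => (a k : OnePoint V)) atTop (𝓝 ∞) := by
  refine tendsto_coe_infty.comp ?_
  rw [coclosedCompact_eq_cocompact, ← Metric.cobounded_eq_cocompact]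
  exact tendsto_norm_atTop_iff_cobounded.1 h

theorem G_real : G (OnePoint ℝ) ∞ := by
  refine G_of fun C hC h0 _ => ?_
  have hC' : IsClosed ((↑) ⁻¹' C : Set ℝ) := hC.preimage continuous_coe
  set D : Set ℝ := (↑) ⁻¹' C with hD
  rcases D.eq_empty_or_nonempty with hE | hne
  · refine ⟨fun k => Homeomorph.addRight (k : ℝ), fun p => ⟨∞, h0, tendsto_infty ?_⟩,
      fun q hq => absurd (show q ∈ D from hq) (by simp [hE])⟩
    exact tendsto_norm_atTop_atTop.comp (tendsto_atTop_add_const_left _ _ tendsto_natCast_atTop_atTop)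
  haveI : Nonempty D := hne.to_subtype
  let F : ℕ → ℝ → ℝ := fun k x => ⨆ c : D, min c.1 ((k + 1) * x - k * c.1)
  have hle : ∀ (k : ℕ) (x c : ℝ), min c ((k + 1) * x - k * c) ≤ x := by
    intro k x c
    rcases le_total c x with h | h
    · exact (min_le_left _ _).trans h
    · refine (min_le_right _ _).trans ?_
      have : (0 : ℝ) ≤ k := by positivity
      nlinarith
  have hbdd : ∀ (k : ℕ) (x : ℝ), BddAbove (range fun c : D => min c.1 ((k + 1) * x - k * c.1)) :=
    fun k x => ⟨x, by rintro _ ⟨c, rfl⟩; exact hle k x c⟩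
  have hFle : ∀ k x, F k x ≤ x := fun k x => ciSup_le fun c => hle k x c
  have hmono : ∀ k, Monotone (F k) := fun k x y h => ciSup_mono (hbdd k y) fun c =>
    min_le_min_left _ (by have : (0 : ℝ) ≤ k := by positivity
                          nlinarith)
  have hlip : ∀ k : ℕ, Continuous (F k) := by
    intro k
    refine (LipschitzWith.of_le_add_mul (k + 1) fun x y => ciSup_le fun c => ?_).continuous
    refine le_trans ?_ (add_le_add_left (le_ciSup (hbdd k y) c) _)
    have h1 : x - y ≤ dist x y := le_abs_self _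
    have h2 : (0 : ℝ) ≤ dist x y := dist_nonneg
    have h3 : (0 : ℝ) ≤ k := by positivity
    rw [← min_add_add_right]
    push_cast
    exact min_le_min (by nlinarith) (by nlinarith)
  have hsm : ∀ k : ℕ, StrictMono fun x => F k x + x / (k + 1) := fun k x y h =>
    add_lt_add_of_le_of_lt (hmono k h.le) (div_lt_div_of_pos_right h (by positivity))
  have hsurj : ∀ k : ℕ, Function.Surjective fun x => F k x + x / (k + 1) := by
    intro k
    refine ((hlip k).add (continuous_id.div_const _)).surjective ?_ ?_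
    · refine tendsto_atTop_mono' _ ?_ (tendsto_atTop_add_const_left _ (F k 0)
        (tendsto_id.atTop_div_const (r := (k : ℝ) + 1) (by positivity)))
      filter_upwards [eventually_ge_atTop 0] with x hx
      exact add_le_add_left (hmono k hx) _
    · refine tendsto_atBot_mono' _ ?_ (tendsto_atBot_add_const_left _ (F k 0)
        (tendsto_id.atBot_div_const (r := (k : ℝ) + 1) (by positivity)))
      filter_upwards [eventually_le_atBot 0] with x hx
      exact add_le_add_left (hmono k hx) _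
  have hz : ∀ x : ℝ, Tendsto (fun k : ℕ => x / (k + 1)) atTop (𝓝 0) := fun x =>
    tendsto_const_nhds.div_atTop (tendsto_atTop_add_const_right _ _ tendsto_natCast_atTop_atTop)
  have hlim : ∀ x g : ℝ, (∀ᶠ k in atTop, F k x = g) →
      Tendsto (fun k : ℕ => ((F k x + x / (k + 1) : ℝ) : OnePoint ℝ)) atTop (𝓝 (g : OnePoint ℝ)) := by
    intro x g h
    refine (continuous_coe.tendsto g).comp ?_
    simpa using (tendsto_const_nhds.congr' (h.mono fun k hk => hk.symm)).add (hz x)
  have hge : ∀ (k : ℕ) (x : ℝ), ∀ c ∈ D, c ≤ x → c ≤ F k x := by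
    intro k x c hc hcx
    refine le_trans (le_min le_rfl ?_) (le_ciSup (hbdd k x) ⟨c, hc⟩)
    have : (0 : ℝ) ≤ k := by positivity
    simp only
    nlinarith
  have hD1 : ∀ x ∈ D, Tendsto (fun k : ℕ => ((F k x + x / (k + 1) : ℝ) : OnePoint ℝ)) atTop
      (𝓝 (x : OnePoint ℝ)) := fun x hx =>
    hlim x x (Eventually.of_forall fun k => le_antisymm (hFle k x) (hge k x x hx le_rfl))
  refine ⟨fun k => ((hsm k).orderIsoOfSurjective _ (hsurj k)).toHomeomorph, fun x => ?_,
    fun q hq => ⟨q, hD1 q hq⟩⟩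
  show ∃ q ∈ C, Tendsto (fun k : ℕ => ((F k x + x / (k + 1) : ℝ) : OnePoint ℝ)) atTop (𝓝 q)
  by_cases hx : x ∈ D
  · exact ⟨x, hx, hD1 x hx⟩
  obtain ⟨δ, hδ, hball⟩ := Metric.isOpen_iff.1 hC'.isOpen_compl x hx
  have hfar : ∀ (k : ℕ), ∀ c ∈ D, x ≤ c → min c ((k + 1) * x - k * c) ≤ x - k * δ := by
    intro k c hc hxc
    have h1 : δ ≤ c - x := by
      by_contra h
      exact hball (by rw [Metric.mem_ball, Real.dist_eq, abs_of_nonneg (by linarith)]; linarith) hc
    have : (0 : ℝ) ≤ k := by positivity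
    exact (min_le_right _ _).trans (by nlinarith)
  have hinf : Tendsto (fun k : ℕ => x - k * δ) atTop atBot :=
    tendsto_atBot_add_const_left _ _ (tendsto_neg_atTop_atBot.comp
      (tendsto_natCast_atTop_atTop.atTop_mul_const hδ))
  rcases (D ∩ Iic x).eq_empty_or_nonempty with hE | hne'
  · refine ⟨∞, h0, tendsto_infty (tendsto_abs_atBot_atTop.comp ?_)⟩
    refine Tendsto.atBot_add (tendsto_atBot_mono (fun k => ciSup_le fun c => hfar k c c.2 ?_) hinf)
      (hz x)
    by_contra h
    exact (eq_empty_iff_forall_notMem.1 hE) c ⟨c.2, (not_le.1 h).le⟩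
  · have hb : BddAbove (D ∩ Iic x) := ⟨x, fun c hc => hc.2⟩
    have hg := (hC'.inter isClosed_Iic).csSup_mem hne' hb
    refine ⟨_, hg.1, hlim x _ ?_⟩
    filter_upwards [hinf.eventually_le_atBot (sSup (D ∩ Iic x))] with k hk
    refine le_antisymm (ciSup_le fun c => ?_) (hge k x _ hg.1 hg.2)
    rcases le_total c.1 x with h | h
    · exact (min_le_left _ _).trans (le_csSup hb ⟨c.2, h⟩)
    · exact (hfar k c c.2 h).trans hk

theorem urysohn {X W E : Type} [TopologicalSpace X] [NormalSpace X] [Finite W]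
    [NormedAddCommGroup E] [NormedSpace ℝ E] (F : W → Set X) (hF : ∀ w, IsClosed (F w))
    (hd : ∀ w w' x, x ∈ F w → x ∈ F w' → w = w') (c : W → E) :
    ∃ φ : X → E, Continuous φ ∧ (∃ B, 0 ≤ B ∧ ∀ x, ‖φ x‖ ≤ B) ∧ ∀ w, ∀ x ∈ F w, φ x = c w := by
  classical
  haveI := Fintype.ofFinite W
  have : ∀ w, ∃ g : C(X, ℝ), EqOn g 0 (⋃ w' ∈ {w' | w' ≠ w}, F w') ∧ EqOn g 1 (F w) ∧
      ∀ x, g x ∈ Icc (0 : ℝ) 1 := fun w =>
    exists_continuous_zero_one_of_isClosed ((toFinite _).isClosed_biUnion fun w' _ => hF w') (hF w)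
      (by
        rw [Set.disjoint_left]
        intro x hx hx'
        obtain ⟨w', h1, h2⟩ := mem_iUnion₂.1 hx
        exact h1 (hd _ _ x h2 hx'))
  choose g h0 h1 h2 using this
  refine ⟨fun x => ∑ w, g w x • c w, by fun_prop, ⟨∑ w, ‖c w‖, by positivity, fun x => ?_⟩,
    fun w x hx => ?_⟩
  · refine (norm_sum_le _ _).trans (Finset.sum_le_sum fun w _ => ?_)
    rw [norm_smul, Real.norm_eq_abs, abs_of_nonneg (h2 w x).1]
    exact mul_le_of_le_one_left (norm_nonneg _) (h2 w x).2
  · show ∑ w, g w x • c w = c w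
    rw [Finset.sum_eq_single w]
    · rw [h1 w hx]; simp
    · intro w' _ hw
      rw [h0 w' (mem_biUnion (show w ∈ {w'' | w'' ≠ w'} from hw.symm) hx)]
      simp
    · simp

theorem perturb {W E : Type} [Finite W] [NormedAddCommGroup E] [NormedSpace ℝ E] [Nontrivial E]
    (y : W → E) {η : ℝ} (hη : 0 < η) :
    ∃ d : W → E, (∀ w, ‖d w‖ ≤ η) ∧ Function.Injective fun w => y w + d w := by
  obtain ⟨e, he⟩ := exists_norm_eq E zero_le_one
  have he0 : e ≠ 0 := by rintro rfl; simp at he
  obtain ⟨N, ⟨i⟩⟩ := Finite.exists_equiv_fin W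
  have hfin : (⋃ p : W × W, {s : ℝ | p.1 ≠ p.2 ∧
      y p.1 + (s * (i p.1 : ℕ)) • e = y p.2 + (s * (i p.2 : ℕ)) • e}).Finite := by
    refine finite_iUnion fun p => Set.Subsingleton.finite ?_
    rintro s ⟨hp, hs⟩ t ⟨-, ht⟩
    have h1 : ((s - t) * ((i p.1 : ℕ) - (i p.2 : ℕ) : ℝ)) • e = 0 := by
      linear_combination (norm := module) hs - ht
    rw [smul_eq_zero, mul_eq_zero, sub_eq_zero, sub_eq_zero] at h1
    rcases h1 with (h1 | h1) | h1
    · exact h1
    · exact absurd (i.injective (Fin.ext (by exact_mod_cast h1))) hp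
    · exact absurd h1 he0
  obtain ⟨s, hs, hs'⟩ := (Ioo_infinite (show 0 < η / (N + 1) by positivity)).exists_notMem_finite hfin
  refine ⟨fun w => (s * (i w : ℕ)) • e, fun w => ?_, fun w w' h => ?_⟩
  · rw [norm_smul, he, mul_one, Real.norm_eq_abs, abs_of_nonneg (mul_nonneg hs.1.le (by positivity))]
    have h1 : ((i w : ℕ) : ℝ) ≤ N + 1 := by
      have := (i w).2
      exact_mod_cast (by omega : (i w : ℕ) ≤ N + 1)
    have h2 := hs.2
    rw [lt_div_iff₀ (by positivity)] at h2
    nlinarith [hs.1]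
  · by_contra hne
    exact hs' (mem_iUnion.2 ⟨(w, w'), hne, h⟩)

noncomputable def tau (b : Bool) (x : ℝ) : ℝ := if b then 3 * x - 2 else min (3 * x) 1

noncomputable def O (u : ℕ → Bool) : ℕ → ℝ → ℝ
  | 0, x => x
  | n + 1, x => tau (u n) (O u n x)

noncomputable def T (x : ℝ) : ℕ → ℝ
  | 0 => x
  | n + 1 => tau (decide (2 / 3 ≤ T x n)) (T x n)

noncomputable def code (x : ℝ) (n : ℕ) : Bool := decide (2 / 3 ≤ T x n)

theorem cont_O (u : ℕ → Bool) (n : ℕ) : Continuous (O u n) := by
  induction n with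
  | zero => exact continuous_id
  | succ n ih =>
    show Continuous fun x => tau (u n) (O u n x)
    unfold tau
    cases u n
    · simp only [Bool.false_eq_true, if_false]; fun_prop
    · simp only [if_true]; fun_prop

theorem O_eq {u : ℕ → Bool} {x : ℝ} {n : ℕ} (h : ∀ m < n, u m = code x m) : O u n x = T x n := by
  induction n with
  | zero => rfl
  | succ n ih =>
    show tau (u n) (O u n x) = tau (code x n) (T x n)
    rw [ih fun m hm => h m (by omega), h n (by omega)]

def I (δ : ℝ) (k : ℕ) (u : ℕ → Bool) : Set ℝ :=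
  {x | ∀ n < k, (u n = false → O u n x ≤ 2 / 3 - δ) ∧ (u n = true → 2 / 3 ≤ O u n x)}

theorem closed_I (δ : ℝ) (k : ℕ) (u : ℕ → Bool) : IsClosed (I δ k u) := by
  simp only [I, ofPred_forall, ofPred_and]
  exact isClosed_iInter fun n => isClosed_iInter fun _ =>
    (isClosed_iInter fun _ => isClosed_le (cont_O u n) continuous_const).inter
      (isClosed_iInter fun _ => isClosed_le continuous_const (cont_O u n))

theorem eq_code {δ : ℝ} (hδ : 0 < δ) {k : ℕ} {u : ℕ → Bool} {x : ℝ} (hx : x ∈ I δ k u) :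
    ∀ n < k, u n = code x n := by
  intro n
  induction n using Nat.strong_induction_on with
  | _ n ih =>
    intro hn
    have h1 := O_eq (u := u) (x := x) (n := n) fun m hm => ih m hm (hm.trans hn)
    have h2 := hx n hn
    rw [h1] at h2
    unfold code
    cases h : u n
    · have := h2.1 h
      exact (decide_eq_false (by linarith)).symm
    · exact (decide_eq_true (h2.2 h)).symm

theorem gap (x : ℝ) : ∃ δ > 0, ∀ n, T x n < 2 / 3 → T x n ≤ 2 / 3 - δ := by
  by_cases h : ∃ n, 1 / 3 < T x n ∧ T x n < 2 / 3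
  · classical
    have h1 := Nat.find_spec h
    set n0 := Nat.find h with hn0
    have h2 : ∀ j, T x (n0 + 1 + j) = 1 := by
      intro j
      induction j with
      | zero =>
        show tau _ _ = 1
        rw [decide_eq_false (not_le.2 h1.2)]
        simp only [tau, Bool.false_eq_true, if_false]
        exact min_eq_right (by linarith [h1.1])
      | succ j ih =>
        show tau (decide (2 / 3 ≤ T x (n0 + 1 + j))) (T x (n0 + 1 + j)) = 1
        rw [ih, decide_eq_true (by norm_num)]
        norm_num [tau]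
    refine ⟨2 / 3 - T x n0, by linarith [h1.2], fun n hn => ?_⟩
    rcases lt_trichotomy n n0 with h3 | h3 | h3
    · have := Nat.find_min h h3
      push Not at this
      by_contra h4
      have := this (by linarith [h1.1])
      linarith
    · rw [h3]; linarith
    · obtain ⟨j, rfl⟩ := Nat.exists_eq_add_of_le (show n0 + 1 ≤ n from h3)
      rw [h2] at hn
      norm_num at hn
  · push Not at h
    refine ⟨1 / 3, by norm_num, fun n hn => ?_⟩
    by_contra h1
    have := h n (by linarith)
    linarith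

noncomputable def sm (u : ℕ → Bool) : ℝ := ∑' n, (if u n then 2 / 3 else 0) * (1 / 3 : ℝ) ^ n

theorem summ (u : ℕ → Bool) : Summable fun n => (if u n then 2 / 3 else 0) * (1 / 3 : ℝ) ^ n := by
  refine Summable.of_nonneg_of_le (fun n => by split_ifs <;> positivity) (fun n => ?_)
    ((summable_geometric_of_lt_one (r := 1 / 3) (by norm_num) (by norm_num)).mul_left (2 / 3))
  split_ifs
  · exact le_rfl
  · rw [zero_mul]; positivity

theorem sm_mem (u : ℕ → Bool) : 0 ≤ sm u ∧ sm u ≤ 1 := by
  refine ⟨tsum_nonneg fun n => by split_ifs <;> positivity, ?_⟩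
  have hs := (summable_geometric_of_lt_one (r := 1 / 3) (by norm_num) (by norm_num)).mul_left (2 / 3)
  refine ((summ u).tsum_le_tsum (fun n => ?_) hs).trans ?_
  · split_ifs
    · exact le_rfl
    · rw [zero_mul]; positivity
  · rw [tsum_mul_left, tsum_geometric_of_lt_one (by norm_num) (by norm_num)]
    norm_num

theorem sm_eq (u : ℕ → Bool) :
    sm u = (if u 0 then 2 / 3 else 0) + sm (fun n => u (n + 1)) / 3 := by
  unfold sm
  rw [(summ u).tsum_eq_zero_add, pow_zero, mul_one, ← tsum_div_const]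
  congr 2
  ext n
  ring

theorem code_sm (u : ℕ → Bool) : code (sm u) = u := by
  have h1 : ∀ v : ℕ → Bool, decide (2 / 3 ≤ sm v) = v 0 := by
    intro v
    have := sm_mem fun n => v (n + 1)
    rw [sm_eq]
    cases v 0
    · exact decide_eq_false (by simp only [Bool.false_eq_true, if_false]; linarith)
    · exact decide_eq_true (by simp only [if_true]; linarith)
  have h2 : ∀ n, T (sm u) n = sm fun m => u (m + n) := by
    intro n
    induction n with
    | zero => rfl
    | succ n ih =>
      show tau _ _ = _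
      rw [ih, h1, sm_eq]
      have e : (fun m => u (m + 1 + n)) = fun m => u (m + (n + 1)) := by
        ext m; congr 1; omega
      have := sm_mem fun m => u (m + (n + 1))
      simp only [e]
      cases u (0 + n)
      · simp only [tau, Bool.false_eq_true, if_false]
        rw [min_eq_left (by linarith)]
        ring
      · simp only [tau, if_true]
        ring
  ext n
  unfold code
  rw [h2, h1, zero_add]

def ext {k : ℕ} (w : Fin k → Bool) (n : ℕ) : Bool := if h : n < k then w ⟨n, h⟩ else false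

variable {E : Type} [NormedAddCommGroup E] [NormedSpace ℝ E]

noncomputable def shear (ε M : ℝ) (hε : ε ≠ 0) (hM : M ≠ 0) (φ : ℝ → E) (ψ : E → ℝ)
    (hφ : Continuous φ) (hψ : Continuous ψ) : ℝ × E ≃ₜ ℝ × E where
  toFun p := (ε * p.1 + ψ (M • p.2 + φ p.1), M • p.2 + φ p.1)
  invFun q := (ε⁻¹ * (q.1 - ψ q.2), M⁻¹ • (q.2 - φ (ε⁻¹ * (q.1 - ψ q.2))))
  left_inv p := by simp [hε, hM, smul_smul]
  right_inv q := by simp [hε, hM, smul_smul]
  continuous_toFun := by fun_prop
  continuous_invFun := by fun_prop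

def base (k : ℕ) (z : OnePoint (ℝ × E)) : ℝ × E := OnePoint.rec (((k : ℝ), (0 : E))) id z

theorem base_infty (k : ℕ) : base k (∞ : OnePoint (ℝ × E)) = ((k : ℝ), (0 : E)) := rfl

theorem base_coe (k : ℕ) (v : ℝ × E) : base k (v : OnePoint (ℝ × E)) = v := rfl

theorem tendsto_base [FiniteDimensional ℝ E] {a : ℕ → OnePoint (ℝ × E)} {z : OnePoint (ℝ × E)}
    (ha : Tendsto a atTop (𝓝 z)) {d : ℕ → ℝ × E} (hd : Tendsto d atTop (𝓝 0)) :
    Tendsto (fun k => ((base k (a k) + d k : ℝ × E) : OnePoint (ℝ × E))) atTop (𝓝 z) := by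
  induction z with
  | infty =>
    refine tendsto_infty ?_
    have h1 : Tendsto (fun k => ‖base k (a k)‖) atTop atTop := by
      refine tendsto_atTop.2 fun R => ?_
      have hU : (((↑) : ℝ × E → OnePoint (ℝ × E)) '' Metric.closedBall 0 R)ᶜ ∈ 𝓝 ∞ :=
        ((isCompact_closedBall _ _).image continuous_coe).isClosed.isOpen_compl.mem_nhds (by simp)
      filter_upwards [ha.eventually hU, tendsto_natCast_atTop_atTop.eventually_ge_atTop R]
        with k h1 h2
      generalize a k = z at h1
      induction z with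
      | infty => simpa [base_infty] using h2
      | coe v =>
        by_contra h3
        exact h1 ⟨v, by simpa [base_coe] using (not_le.1 h3).le, rfl⟩
    refine tendsto_atTop_mono (fun k => ?_) (h1.atTop_add hd.norm.neg)
    have := norm_sub_le (base k (a k) + d k) (d k)
    rw [add_sub_cancel_right] at this
    linarith
  | coe v =>
    refine (continuous_coe.tendsto v).comp ?_
    have h1 : Tendsto (fun k => base k (a k)) atTop (𝓝 v) := by
      intro s hs
      have hU : (((↑) : ℝ × E → OnePoint (ℝ × E)) '' s) ∈ 𝓝 (v : OnePoint (ℝ × E)) :=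
        isOpenMap_coe.image_mem_nhds hs
      rw [mem_map]
      filter_upwards [ha.eventually hU] with k ⟨w, hw, h2⟩
      show base k (a k) ∈ s
      rw [← h2]
      exact hw
    simpa using h1.add hd

theorem G_prod [FiniteDimensional ℝ E] [Nontrivial E] : G (OnePoint (ℝ × E)) ∞ := by
  refine G_of fun C _ h0 ⟨f, hf, hr⟩ => ?_
  have hpos : ∀ k : ℕ, (0 : ℝ) < 1 / (k + 1) := fun k => by positivity
  choose d hd1 hd2 using fun k : ℕ =>
    perturb (fun w : Fin k → Bool => (base k (f (ext w))).2) (hpos k)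
  choose φ hφ1 hφ2 hφ3 using fun k : ℕ => urysohn (fun w : Fin k → Bool => I (1 / (k + 1)) k (ext w))
    (fun w => closed_I _ _ _) (fun w w' x h h' => by
      ext n
      have := (eq_code (hpos k) h n n.2).trans (eq_code (hpos k) h' n n.2).symm
      simpa [ext] using this) (fun w => (base k (f (ext w))).2 + d k w)
  choose B hB1 hB2 using hφ2
  choose ψ hψ1 _ hψ3 using fun k : ℕ => urysohn
    (fun w : Fin k → Bool => {(base k (f (ext w))).2 + d k w}) (fun w => isClosed_singleton)
    (fun w w' x h h' => hd2 k (h.symm.trans h')) (fun w => (base k (f (ext w))).1)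
  let H : ℕ → ℝ × E ≃ₜ ℝ × E := fun k => shear (1 / (k + 1)) ((k + 1) * (B k + 1)) (hpos k).ne'
    (by have := hB1 k; positivity) (φ k) (ψ k) (hφ1 k) (hψ1 k)
  have hz : Tendsto (fun k : ℕ => (1 : ℝ) / (k + 1)) atTop (𝓝 0) :=
    tendsto_one_div_add_atTop_nhds_zero_nat
  have key : ∀ x : ℝ, Tendsto (fun k => (H k (x, 0) : OnePoint (ℝ × E))) atTop (𝓝 (f (code x))) := by
    intro x
    let w : ∀ k, Fin k → Bool := fun k n => code x n
    have h1 : Tendsto (fun k => ext (w k)) atTop (𝓝 (code x)) := by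
      refine tendsto_pi_nhds.2 fun n => tendsto_const_nhds.congr' ?_
      filter_upwards [eventually_gt_atTop n] with k hk
      simp [ext, hk, w]
    have h2 : Tendsto (fun k : ℕ => ((1 / (k + 1) * x, d k (w k)) : ℝ × E)) atTop (𝓝 0) := by
      refine Tendsto.prodMk_nhds (by simpa using hz.mul_const x) ?_
      exact squeeze_zero_norm (fun k => hd1 k _) hz
    refine (tendsto_base ((hf.tendsto _).comp h1) h2).congr' ?_
    obtain ⟨δ, hδ, hg⟩ := gap x
    filter_upwards [hz.eventually_le_const hδ] with k hk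
    have hx : x ∈ I (1 / (k + 1)) k (ext (w k)) := by
      intro n hn
      rw [O_eq fun m hm => by simp [ext, hm.trans hn, w]]
      simp only [ext, dif_pos hn, w, code, decide_eq_false_iff_not, not_le, decide_eq_true_eq]
      exact ⟨fun h => (hg n h).trans (by linarith), id⟩
    congr 1
    have e1 := hφ3 k _ x hx
    have e2 := hψ3 k (w k) _ rfl
    simp only [H, shear, Homeomorph.homeomorph_mk_coe, Equiv.coe_fn_mk, smul_zero, zero_add, e1, e2]
    ext
    · simp [add_comm]
    · simp
  refine ⟨H, fun p => ?_, fun q hq => ?_⟩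
  · obtain ⟨x, y⟩ := p
    by_cases hy : y = 0
    · exact ⟨_, hr ▸ mem_range_self _, hy ▸ key x⟩
    · refine ⟨∞, h0, tendsto_infty ?_⟩
      have hy' : 0 < ‖y‖ := norm_pos_iff.2 hy
      have h1 : Tendsto (fun k : ℕ => ((k : ℝ) + 1) * ‖y‖ + -1) atTop atTop :=
        tendsto_atTop_add_const_right _ _ ((tendsto_atTop_add_const_right _ _
          tendsto_natCast_atTop_atTop).atTop_mul_const hy')
      refine tendsto_atTop_mono' _ ?_ h1
      filter_upwards [h1.eventually_ge_atTop 0] with k hk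
      refine le_trans ?_ (norm_snd_le _)
      show _ ≤ ‖(((k : ℝ) + 1) * (B k + 1)) • y + φ k x‖
      have e1 := norm_sub_le ((((k : ℝ) + 1) * (B k + 1)) • y + φ k x) (φ k x)
      have := hB1 k
      rw [add_sub_cancel_right, norm_smul, Real.norm_eq_abs, abs_of_nonneg (by positivity)] at e1
      have := hB2 k x
      nlinarith
  · obtain ⟨u, hu⟩ : (q : OnePoint (ℝ × E)) ∈ range f := hr.symm ▸ hq
    refine ⟨(sm u, 0), ?_⟩
    have := key (sm u)
    rwa [code_sm, hu] at this

end Pool.Agent.H32.SphLim
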