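import Mathlib

set_option autoImplicit false

namespace Pool.Agent.H32.Stech

open Metric Set Filter Topology

/-- General principle: if all points of `E` outside the kernel of a continuous linear map `π` onto a
space without compact neighbourhoods are rotund, uniqueness sets of compact sets are residual. -/
theorem residual_of_rotund {E H : Type} [NormedAddCommGroup E] [NormedSpace ℝ E]
    [NormedAddCommGroup H] [NormedSpace ℝ H] (π : E →L[ℝ] H) (hπ : IsOpenMap π)
    (hH : ¬ FiniteDimensional ℝ H)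
    (rot : ∀ u v : E, π u ≠ 0 → ‖u + v‖ = ‖u‖ + ‖v‖ → SameRay ℝ u v)
    (G : Set E) (hG : IsCompact G) :
    {x : E | {g ∈ G | ‖x - g‖ = infDist x G}.Subsingleton} ∈ residual E := by
  set U := {x : E | {g ∈ G | ‖x - g‖ = infDist x G}.Subsingleton} with hU
  rcases G.eq_empty_or_nonempty with rfl | hne
  · have : U = univ := by
      ext x
      simp [hU]
    rw [this]
    exact univ_mem
  have hdense : Dense U := by
    have h1 : Dense (π ⁻¹' (π '' G)ᶜ) := by
      refine Dense.preimage ?_ hπ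
      rw [← interior_eq_empty_iff_dense_compl]
      by_contra h
      obtain ⟨y, hy⟩ := nonempty_iff_ne_empty.mpr h
      have hc : IsCompact (π '' G) := hG.image π.continuous
      obtain ⟨r, hr, hsub⟩ := Metric.nhds_basis_closedBall.mem_iff.mp (mem_interior_iff_mem_nhds.mp hy)
      exact hH (FiniteDimensional.of_isCompact_closedBall ℝ hr (hc.of_isClosed_subset isClosed_closedBall hsub))
    rw [Metric.dense_iff] at h1 ⊢
    intro x r hr
    obtain ⟨z, hz1, hz2⟩ := h1 x (r / 2) (by positivity)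
    obtain ⟨g1, hg1, hd⟩ := hG.exists_infDist_eq_dist hne z
    rw [dist_eq_norm] at hd
    have hπ1 : π (z - g1) ≠ 0 := by
      intro h
      rw [map_sub, sub_eq_zero] at h
      exact hz2 ⟨g1, hg1, h.symm⟩
    have hρ : 0 < ‖z - g1‖ := norm_pos_iff.mpr fun h => hπ1 (by rw [h, map_zero])
    obtain ⟨t, ht0, ht1, ht⟩ : ∃ t : ℝ, 0 < t ∧ t < 1 ∧ t * ‖z - g1‖ < r / 2 := by
      refine ⟨min (1 / 2) (r / 4 / ‖z - g1‖), by positivity, ?_, ?_⟩
      · exact (min_le_left _ _).trans_lt (by norm_num)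
      · refine (mul_le_mul_of_nonneg_right (min_le_right _ _) hρ.le).trans_lt ?_
        rw [div_mul_cancel₀ _ hρ.ne']
        linarith
    set w := z - t • (z - g1) with hw
    have hzw : ‖z - w‖ = t * ‖z - g1‖ := by
      rw [hw, sub_sub_cancel, norm_smul, Real.norm_of_nonneg ht0.le]
    have hwg : ‖w - g1‖ = (1 - t) * ‖z - g1‖ := by
      have : w - g1 = (1 - t) • (z - g1) := by rw [hw]; module
      rw [this, norm_smul, Real.norm_of_nonneg (by linarith)]
    refine ⟨w, ?_, ?_⟩
    · rw [mem_ball] at hz1 ⊢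
      have := dist_triangle w z x
      rw [dist_comm w z, dist_eq_norm z w, hzw] at this
      linarith
    · have key : ∀ g ∈ G, ‖w - g‖ = infDist w G → g = g1 := by
        intro g hg h
        have h2 : ‖w - g‖ ≤ ‖w - g1‖ := by
          rw [h, ← dist_eq_norm]
          exact infDist_le_dist_of_mem hg1
        have h3 : ‖z - g1‖ ≤ ‖z - g‖ := by
          rw [← hd, ← dist_eq_norm]
          exact infDist_le_dist_of_mem hg
        have h4 := norm_add_le (z - w) (w - g)
        have e : z - w + (w - g) = z - g := by abel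
        rw [e] at h4
        have h5 : ‖w - g‖ = (1 - t) * ‖z - g1‖ := by linarith
        have h6 : SameRay ℝ (z - w) (w - g) := by
          apply rot
          · rw [hw, sub_sub_cancel, map_smul]
            exact smul_ne_zero ht0.ne' hπ1
          · rw [e]
            linarith
        have h7 := h6.norm_smul_eq
        rw [hzw, h5, hw, sub_sub_cancel, smul_smul] at h7
        have h8 : (t * ‖z - g1‖) • (g1 - g) = 0 := by
          linear_combination (norm := module) h7
        rcases smul_eq_zero.mp h8 with h9 | h9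
        · exact absurd h9 (by positivity)
        · exact (sub_eq_zero.mp h9).symm
      intro a ha b hb
      rw [key a ha.1 ha.2, key b hb.1 hb.2]
  have hopen : ∀ ε : ℝ, IsOpen {x : E | ∀ a ∈ G, ∀ b ∈ G, ‖x - a‖ = infDist x G →
      ‖x - b‖ = infDist x G → ‖a - b‖ < ε} := by
    intro ε
    rw [← isClosed_compl_iff]
    haveI : CompactSpace G := isCompact_iff_compactSpace.mp hG
    have hcl : IsClosed {p : E × (G × G) | ‖p.1 - p.2.1‖ = infDist p.1 G ∧
        ‖p.1 - p.2.2‖ = infDist p.1 G ∧ ε ≤ ‖(p.2.1 : E) - p.2.2‖} := by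
      have hc : Continuous fun p : E × (G × G) => infDist p.1 G :=
        (continuous_infDist_pt G).comp continuous_fst
      have c1 : Continuous fun p : E × (G × G) => ‖p.1 - (p.2.1 : E)‖ := by fun_prop
      have c2 : Continuous fun p : E × (G × G) => ‖p.1 - (p.2.2 : E)‖ := by fun_prop
      have c3 : Continuous fun p : E × (G × G) => ‖(p.2.1 : E) - (p.2.2 : E)‖ := by fun_prop
      exact (isClosed_eq c1 hc).inter ((isClosed_eq c2 hc).inter
        (isClosed_le continuous_const c3))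
    have := isClosedMap_fst_of_compactSpace _ hcl
    have e : {x : E | ∀ a ∈ G, ∀ b ∈ G, ‖x - a‖ = infDist x G →
      ‖x - b‖ = infDist x G → ‖a - b‖ < ε}ᶜ = Prod.fst '' {p : E × (G × G) |
        ‖p.1 - p.2.1‖ = infDist p.1 G ∧
        ‖p.1 - p.2.2‖ = infDist p.1 G ∧ ε ≤ ‖(p.2.1 : E) - p.2.2‖} := by
      ext x
      simp only [mem_compl_iff, mem_ofPred_eq, mem_image]
      push Not
      constructor
      · rintro ⟨a, ha, b, hb, h1, h2, h3⟩
        exact ⟨(x, ⟨a, ha⟩, ⟨b, hb⟩), ⟨h1, h2, h3⟩, rfl⟩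
      · rintro ⟨⟨x', a, b⟩, ⟨h1, h2, h3⟩, rfl⟩
        exact ⟨a, a.2, b, b.2, h1, h2, h3⟩
    rw [e]
    exact this
  have hres : ∀ n : ℕ, {x : E | ∀ a ∈ G, ∀ b ∈ G, ‖x - a‖ = infDist x G →
      ‖x - b‖ = infDist x G → ‖a - b‖ < 1 / ((n : ℝ) + 1)} ∈ residual E := by
    intro n
    refine residual_of_dense_open (hopen _) (hdense.mono fun x hx a ha b hb h1 h2 => ?_)
    rw [hx ⟨ha, h1⟩ ⟨hb, h2⟩, sub_self, norm_zero]
    positivity
  filter_upwards [countable_iInter_mem.mpr hres] with x hx a ha b hb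
  rw [mem_iInter] at hx
  by_contra hab
  obtain ⟨n, hn⟩ := exists_nat_one_div_lt (norm_pos_iff.mpr (sub_ne_zero.mpr hab))
  exact absurd (hx n a ha.1 b hb.1 ha.2 hb.2) (not_lt.mpr hn.le)

abbrev H : Type := lp (fun _ : ℕ => ℝ) 2
abbrev K : Type := WithLp 2 (ℝ × H)

/-- the subspace of the `ℓ¹`-sum of two copies of `ℝ ⊕₂ ℓ²` with equal `ℓ²` components -/
noncomputable def D : Submodule ℝ (WithLp 1 (K × K)) :=
  LinearMap.ker (((WithLp.sndL 2 ℝ ℝ H).comp (WithLp.fstL 1 ℝ K K) -
    (WithLp.sndL 2 ℝ ℝ H).comp (WithLp.sndL 1 ℝ K K) : WithLp 1 (K × K) →L[ℝ] H) :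
      WithLp 1 (K × K) →ₗ[ℝ] H)

theorem mem_D (x : WithLp 1 (K × K)) : x ∈ D ↔ x.fst.snd = x.snd.snd := by
  simp [D, sub_eq_zero]

instance : CompleteSpace D := (ContinuousLinearMap.isClosed_ker _).completeSpace_coe

noncomputable def pr : D →L[ℝ] H :=
  ((WithLp.sndL 2 ℝ ℝ H).comp (WithLp.fstL 1 ℝ K K)).comp D.subtypeL

theorem pr_apply (x : D) : pr x = (x : WithLp 1 (K × K)).fst.snd := rfl

noncomputable def mk (s t : ℝ) (h : H) : D :=
  ⟨WithLp.toLp 1 (WithLp.toLp 2 (s, h), WithLp.toLp 2 (t, h)), (mem_D _).mpr rfl⟩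

theorem pr_open : IsOpenMap pr := pr.isOpenMap fun h => ⟨mk 0 0 h, rfl⟩

theorem norm_D (x : D) : ‖x‖ = ‖(x : WithLp 1 (K × K)).fst‖ + ‖(x : WithLp 1 (K × K)).snd‖ :=
  WithLp.prod_norm_eq_of_L1 _

theorem norm_mk (s t : ℝ) : ‖mk s t 0‖ = |s| + |t| := by
  rw [norm_D]
  simp [mk, WithLp.prod_norm_eq_of_L2, Real.sqrt_sq_eq_abs]

theorem H_inf : ¬ FiniteDimensional ℝ H := by
  intro h
  have := (HilbertBasis.ofRepr (ι := ℕ) (𝕜 := ℝ) (E := H)
    (LinearIsometryEquiv.refl ℝ H)).orthonormal.linearIndependent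
  exact Module.Finite.not_linearIndependent_of_infinite _ this

theorem rot (u v : D) (hu : pr u ≠ 0) (h : ‖u + v‖ = ‖u‖ + ‖v‖) : SameRay ℝ u v := by
  rw [norm_D, norm_D, norm_D] at h
  simp only [Submodule.coe_add, WithLp.add_fst, WithLp.add_snd] at h
  have h1 := norm_add_le (u : WithLp 1 (K × K)).fst (v : WithLp 1 (K × K)).fst
  have h2 := norm_add_le (u : WithLp 1 (K × K)).snd (v : WithLp 1 (K × K)).snd
  have s1 : SameRay ℝ (u : WithLp 1 (K × K)).fst (v : WithLp 1 (K × K)).fst :=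
    sameRay_iff_norm_add.mpr (by linarith)
  have s2 : SameRay ℝ (u : WithLp 1 (K × K)).snd (v : WithLp 1 (K × K)).snd :=
    sameRay_iff_norm_add.mpr (by linarith)
  have eu := (mem_D _).mp u.2
  have ev := (mem_D _).mp v.2
  rw [pr_apply] at hu
  obtain ⟨a, ha, e1⟩ := s1.exists_nonneg_left (fun h0 => hu (by rw [h0]; rfl))
  obtain ⟨b, hb, e2⟩ := s2.exists_nonneg_left (fun h0 => hu (by rw [eu, h0]; rfl))
  have hab : a = b := by
    have f1 : a • (u : WithLp 1 (K × K)).fst.snd = (v : WithLp 1 (K × K)).fst.snd := by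
      rw [← e1]; rfl
    have f2 : b • (u : WithLp 1 (K × K)).snd.snd = (v : WithLp 1 (K × K)).snd.snd := by
      rw [← e2]; rfl
    rw [← eu, ← ev, ← f1] at f2
    exact (smul_left_injective ℝ hu f2).symm
  subst hab
  have : v = a • u := by
    apply Subtype.ext
    apply (WithLp.equiv 1 (K × K)).injective
    exact Prod.ext e1.symm e2.symm
  rw [this]
  exact SameRay.sameRay_nonneg_smul_right u ha

end Pool.Agent.H32.Stech
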