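import Mathlib

namespace Pool.Agent.H32.Sun123

noncomputable def T (v : ℕ) : Bool :=
  Bool.rec (motive := fun _ => Bool) false (Nat.ble 64 (Nat.mod v 960) || Nat.ble v 959)
    (Nat.beq (Nat.land (Nat.shiftRight 115792089237316195423570985008687907853269984665640564039476030751986839257106 (Nat.mod v 960)) 1) 1)

noncomputable def t3 (a b c : ℕ) : Bool := (Bool.rec (motive := fun _ => Bool) (Bool.rec (motive := fun _ => Bool) (Bool.rec (motive := fun _ => Bool) (Bool.rec (motive := fun _ => Bool) (Bool.rec (motive := fun _ => Bool) (Bool.rec (motive := fun _ => Bool) (Bool.rec (motive := fun _ => Bool) (Bool.rec (motive := fun _ => Bool) (Bool.rec (motive := fun _ => Bool) (Bool.rec (motive := fun _ => Bool) (Bool.rec (motive := fun _ => Bool) (Bool.rec (motive := fun _ => Bool) (Bool.rec (motive := fun _ => Bool) (Bool.rec (motive := fun _ => Bool) (Bool.rec (motive := fun _ => Bool) (Bool.rec (motive := fun _ => Bool) false true (T (Nat.mul a 3))) true (T (Nat.add (Nat.add (Nat.mul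 a 2) (Nat.mul b 2)) c))) true (T (Nat.add (Nat.mul a 2) (Nat.mul b 2)))) true (T (Nat.add (Nat.add (Nat.mul a 2) b) (Nat.mul c 2)))) true (T (Nat.add (Nat.mul a 2) b))) true (T (Nat.add (Nat.mul a 2) (Nat.mul c 2)))) true (T (Nat.add (Nat.mul a 2) c))) true (T (Nat.add (Nat.add a (Nat.mul b 2)) (Nat.mul c 2)))) true (T (Nat.add a (Nat.mul b 2)))) true (T (Nat.add a (Nat.mul c 2)))) true (T (Nat.mul b 3))) true (T (Nat.add (Nat.mul b 2) (Nat.mul c 2)))) true (T (Nat.add (Nat.mul b 2) c))) true (T (Nat.add b (Nat.mul c 2)))) true (T (Nat.mul c 3))) true (T 0))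

noncomputable def t6 (a b c : ℕ) : Bool := (Bool.rec (motive := fun _ => Bool) (Bool.rec (motive := fun _ => Bool) (Bool.rec (motive := fun _ => Bool) (Bool.rec (motive := fun _ => Bool) (Bool.rec (motive := fun _ => Bool) (Bool.rec (motive := fun _ => Bool) (Bool.rec (motive := fun _ => Bool) (Bool.rec (motive := fun _ => Bool) (Bool.rec (motive := fun _ => Bool) (Bool.rec (motive := fun _ => Bool) (Bool.rec (motive := fun _ => Bool) (Bool.rec (motive := fun _ => Bool) (Bool.rec (motive := fun _ => Bool) (Bool.rec (motive := fun _ => Bool) (Bool.rec (motive := fun _ => Bool) (Bool.rec (motive := fun _ => Bool) (Bool.rec (motive := fun _ => Bool) (Bool.rec (motive := fun _ => Bool) (Bool.rec (motive := fun _ => Bool) (Bool.rec (motive := fun _ => Bool) (Bool.rec (motive := fun _ => Bool) (Bool.rec (motive := fun _ => Bool) (Bool.rec (motive := fun _ => Bool) (Bool.rec (motive := fun _ => Bool) (Bool.rec (motive := fun _ => Bool) (Bool.rec (motive := fun _ => Bool) (Bool.rec (motive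 := fun _ => Bool) (Bool.rec (motive := fun _ => Bool) (Bool.rec (motive := fun _ => Bool) false true (T (Nat.mul a 6))) true (T (Nat.add (Nat.add (Nat.mul a 5) (Nat.mul b 3)) c))) true (T (Nat.add (Nat.add (Nat.mul a 5) b) (Nat.mul c 3)))) true (T (Nat.add (Nat.add (Nat.mul a 5) b) c))) true (T (Nat.add (Nat.add (Nat.mul a 4) (Nat.mul b 4)) (Nat.mul c 2)))) true (T (Nat.add (Nat.mul a 4) (Nat.mul b 4)))) true (T (Nat.add (Nat.add (Nat.mul a 4) (Nat.mul b 2)) (Nat.mul c 4)))) true (T (Nat.add (Nat.mul a 4) (Nat.mul b 2)))) true (T (Nat.add (Nat.mul a 4) (Nat.mul c 4)))) true (T (Nat.add (Nat.mul a 4) (Nat.mul c 2)))) true (T (Nat.add (Nat.add (Nat.mul a 3) (Nat.mul b 5)) c))) true (T (Nat.add (Nat.add (Nat.mul a 3) (Nat.mul b 3)) (Nat.mul c 3)))) true (T (Nat.add (Nat.add (Nat.mul a 3) b) (Nat.mul c 5)))) true (T (Nat.add (Nat.add (Nat.mul a 3) b) c))) true (T (Nat.add (Nat.add (Nat.mul a 2) (Nat.mul b 4)) (Nat.mul c 4)))) true (T (Nat.add (Nat.mul a 2) (Nat.mul b 4)))) true (T (Nat.add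 (Nat.mul a 2) (Nat.mul c 4)))) true (T (Nat.add (Nat.add a (Nat.mul b 5)) (Nat.mul c 3)))) true (T (Nat.add (Nat.add a (Nat.mul b 5)) c))) true (T (Nat.add (Nat.add a (Nat.mul b 3)) (Nat.mul c 5)))) true (T (Nat.add (Nat.add a (Nat.mul b 3)) c))) true (T (Nat.add (Nat.add a b) (Nat.mul c 5)))) true (T (Nat.add (Nat.add a b) (Nat.mul c 3)))) true (T (Nat.mul b 6))) true (T (Nat.add (Nat.mul b 4) (Nat.mul c 4)))) true (T (Nat.add (Nat.mul b 4) (Nat.mul c 2)))) true (T (Nat.add (Nat.mul b 2) (Nat.mul c 4)))) true (T (Nat.mul c 6))) true (T 0))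

noncomputable def anyN (n a b c : ℕ) : Bool :=
  (List.range (n + 1)).any fun x => (List.range (n + 1)).any fun y => (List.range (n + 1)).any fun z =>
    T (a * x + b * y + c * z) && (List.range (n + 1)).any fun w => Nat.beq (x * x + y * y + z * z + w * w) (n * n)

noncomputable def rest (a b c : ℕ) : Bool :=
  Nat.beq c 0 || (Nat.beq (a % 4) 0 && Nat.beq (b % 4) 0 && Nat.beq (c % 4) 0) ||
    (Nat.beq a 1 && Nat.beq b 2 && Nat.beq c 3) ||
    !([7, 11, 14, 15, 22, 9, 26, 18, 23, 29].all fun n => anyN n a b c)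

noncomputable def good (a b c : ℕ) : Bool :=
  Bool.rec (motive := fun _ => Bool) true
    (Bool.rec (motive := fun _ => Bool) true (rest a b c) (t6 a b c)) (t3 a b c)

noncomputable def allTo (f : ℕ → Bool) (n : ℕ) : Bool :=
  Nat.rec (motive := fun _ => Bool) true (fun c ih => Bool.rec (motive := fun _ => Bool) false ih (f c)) n

noncomputable def force (e : ℕ) (f : ℕ → Bool) : Bool :=
  Nat.rec (motive := fun _ => Bool) (f 0) (fun k _ => f (Nat.succ k)) e

noncomputable def allBig (f : ℕ → Bool) : Bool :=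
  allTo (fun i => allTo (fun j => force (Nat.add (Nat.mul 48 i) j) f) 48) 40

noncomputable def check1 (a b : ℕ) : Bool := allBig (fun c => good a b c)

noncomputable def g2 (a b c : ℕ) : Bool :=
  Bool.rec (motive := fun _ => Bool) true (good a b c) (T (Nat.add (Nat.add a b) c))

noncomputable def check2 (a p : ℕ) : Bool :=
  allBig (fun b => Nat.beq b 0 ||
    (force ((p + 3840 - a - b) % 960) (g2 a b) && force ((p + 3840 - a - b) % 960 + 960) (g2 a b)))

end Pool.Agent.H32.Sun123
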