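import Pool.Agent.H32.Sun123

namespace Pool.Agent.H32.Sun123

theorem c1_1216_2 : check1 1216 2 = true := by decide +kernel
theorem c1_1216_8 : check1 1216 8 = true := by decide +kernel
theorem c1_1216_32 : check1 1216 32 = true := by decide +kernel
theorem c1_1216_128 : check1 1216 128 = true := by decide +kernel
theorem c1_1216_512 : check1 1216 512 = true := by decide +kernel
theorem c1_1216_1088 : check1 1216 1088 = true := by decide +kernel
theorem c1_1216_1472 : check1 1216 1472 = true := by decide +kernel
theorem c2_1216_1 : check2 1216 1 = true := by decide +kernel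
theorem c2_1216_4 : check2 1216 4 = true := by decide +kernel
theorem c2_1216_16 : check2 1216 16 = true := by decide +kernel
theorem c2_1216_64 : check2 1216 64 = true := by decide +kernel
theorem c2_1216_256 : check2 1216 256 = true := by decide +kernel

theorem all1_1216 (b : ℕ) (h : b = 2 ∨ b = 8 ∨ b = 32 ∨ b = 128 ∨ b = 512 ∨ b = 1088 ∨ b = 1472) :
    check1 1216 b = true := by
  rcases h with h | h | h | h | h | h | h <;> subst h
  exacts [c1_1216_2, c1_1216_8, c1_1216_32, c1_1216_128, c1_1216_512, c1_1216_1088, c1_1216_1472]

theorem all2_1216 (p : ℕ) (h : p = 1 ∨ p = 4 ∨ p = 16 ∨ p = 64 ∨ p = 256) :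
    check2 1216 p = true := by
  rcases h with h | h | h | h | h <;> subst h
  exacts [c2_1216_1, c2_1216_4, c2_1216_16, c2_1216_64, c2_1216_256]

end Pool.Agent.H32.Sun123
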