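import Mathlib

namespace Pool.Agent.H32.TMFib

/-- The Prouhet–Thue–Morse sequence `(-1)^{s_2(n)}`. -/
def t (n : ℕ) : ℤ := (-1) ^ (Nat.digits 2 n).sum

/-- The twisted Fibonacci sequence. -/
def h : ℕ → ℤ
  | 0 => 0
  | 1 => 1
  | n + 2 => t (n + 2) * h (n + 1) + h n

theorem t_even (n : ℕ) : t (2 * n) = t n := by
  rcases Nat.eq_zero_or_pos n with rfl | hn
  · rfl
  · unfold t
    rw [Nat.digits_def' (by norm_num) (by omega)]
    simp

theorem t_odd (n : ℕ) : t (2 * n + 1) = - t n := by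
  unfold t
  rw [Nat.digits_def' (by norm_num) (by omega), show (2 * n + 1) % 2 = 1 by omega,
    show (2 * n + 1) / 2 = n by omega, List.sum_cons, pow_add]
  simp

theorem t_sq (n : ℕ) : t n = 1 ∨ t n = -1 := neg_one_pow_eq_or ℤ _

theorem no_cube (m : ℕ) (h1 : t m = t (m + 1)) : t (m + 2) = - t (m + 1) := by
  rcases Nat.even_or_odd' m with ⟨k, rfl | rfl⟩
  · rw [t_even, t_odd] at h1
    rcases t_sq k with e | e <;> omega
  · rw [show 2 * k + 1 + 2 = 2 * (k + 1) + 1 by ring, show 2 * k + 1 + 1 = 2 * (k + 1) by ring,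
      t_odd, t_even]

theorem block (m : ℕ) : h (4 * m + 4) = t (m + 1) * h (4 * m + 3) + h (4 * m + 2) ∧
    h (4 * m + 5) = - t (m + 1) * h (4 * m + 2) ∧
    h (4 * m + 6) = t (m + 1) * h (4 * m + 3) + 2 * h (4 * m + 2) ∧
    h (4 * m + 7) = h (4 * m + 3) + t (m + 1) * h (4 * m + 2) := by
  have a0 : t (4 * m + 4) = t (m + 1) := by
    rw [show 4 * m + 4 = 2 * (2 * (m + 1)) by ring, t_even, t_even]
  have a1 : t (4 * m + 5) = - t (m + 1) := by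
    rw [show 4 * m + 5 = 2 * (2 * (m + 1)) + 1 by ring, t_odd, t_even]
  have a2 : t (4 * m + 6) = - t (m + 1) := by
    rw [show 4 * m + 6 = 2 * (2 * (m + 1) + 1) by ring, t_even, t_odd]
  have a3 : t (4 * m + 7) = t (m + 1) := by
    rw [show 4 * m + 7 = 2 * (2 * (m + 1) + 1) + 1 by ring, t_odd, t_odd, neg_neg]
  have b0 : h (4 * m + 4) = t (4 * m + 4) * h (4 * m + 3) + h (4 * m + 2) := rfl
  have b1 : h (4 * m + 5) = t (4 * m + 5) * h (4 * m + 4) + h (4 * m + 3) := rfl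
  have b2 : h (4 * m + 6) = t (4 * m + 6) * h (4 * m + 5) + h (4 * m + 4) := rfl
  have b3 : h (4 * m + 7) = t (4 * m + 7) * h (4 * m + 6) + h (4 * m + 5) := rfl
  rw [a0] at b0
  rw [a1] at b1
  rw [a2] at b2
  rw [a3] at b3
  rcases t_sq (m + 1) with e | e <;> rw [e] at b0 b1 b2 b3 ⊢ <;> omega

theorem v1 : t 1 = -1 := by decide
theorem v2 : t 2 = -1 := by decide
theorem h2 : h 2 = -1 := by decide
theorem h3 : h 3 = 0 := by decide

/-- invariant with numerators: `y = t m * h(4m+3) / h(4m+2)` lies in `[p/q, r/s]`. -/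
def Inv (m : ℕ) (p q r s : ℤ) : Prop :=
  (0 < h (4 * m + 2) ∧ p * h (4 * m + 2) ≤ q * (t m * h (4 * m + 3)) ∧
    s * (t m * h (4 * m + 3)) ≤ r * h (4 * m + 2)) ∨
  (h (4 * m + 2) < 0 ∧ q * (t m * h (4 * m + 3)) ≤ p * h (4 * m + 2) ∧
    r * h (4 * m + 2) ≤ s * (t m * h (4 * m + 3)))

theorem inv (m : ℕ) : Inv (m + 1) 2 7 3 5 ∧ (t (m + 1) = - t m → Inv (m + 1) 2 7 1 2) := by
  induction m with
  | zero =>
    have := block 0
    have e0 : t 0 = 1 := by decide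
    simp only [Inv, v1, h2, h3, zero_add, mul_zero, mul_one, Nat.reduceAdd] at this ⊢
    omega
  | succ m ih =>
    obtain ⟨_, _, b2, b3⟩ := block (m + 1)
    have c := no_cube m
    unfold Inv at ih ⊢
    rw [show 4 * (m + 1 + 1) + 2 = 4 * (m + 1) + 6 by ring, show 4 * (m + 1 + 1) + 3 = 4 * (m + 1) + 7 by ring,
      b2, b3]
    rcases t_sq m with e0 | e0 <;> rcases t_sq (m + 1) with e1 | e1 <;>
      rcases t_sq (m + 1 + 1) with e2 | e2 <;>
      simp only [e0, e1, e2, neg_neg, forall_const] at c ih ⊢ <;> omega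

theorem inv2 (m : ℕ) : Inv (m + 4) 12 41 3 5 := by
  have i := (inv m).1
  have i2 : Inv (m + 2) 2 7 3 5 := (inv (m + 1)).1
  have i3 : Inv (m + 3) 2 7 3 5 := (inv (m + 2)).1
  have i4 : Inv (m + 4) 2 7 3 5 := (inv (m + 3)).1
  obtain ⟨_, _, b2, b3⟩ := block (m + 1)
  obtain ⟨_, _, c2, c3⟩ := block (m + 2)
  obtain ⟨_, _, d2, d3⟩ := block (m + 3)
  have c := no_cube (m + 1)
  have c' := no_cube (m + 2)
  unfold Inv at i i2 i3 i4 ⊢
  rw [show 4 * (m + 2) + 2 = 4 * (m + 1) + 6 by ring, show 4 * (m + 2) + 3 = 4 * (m + 1) + 7 by ring] at c2 c3 i2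
  rw [show 4 * (m + 3) + 2 = 4 * (m + 2) + 6 by ring, show 4 * (m + 3) + 3 = 4 * (m + 2) + 7 by ring] at d2 d3 i3
  rw [show 4 * (m + 4) + 2 = 4 * (m + 3) + 6 by ring, show 4 * (m + 4) + 3 = 4 * (m + 3) + 7 by ring] at i4 ⊢
  rw [show m + 1 + 1 = m + 2 by ring] at b2 b3 c
  rw [show m + 1 + 2 = m + 3 by ring] at c
  rw [show m + 2 + 1 = m + 3 by ring] at c2 c3 c'
  rw [show m + 2 + 2 = m + 4 by ring] at c'
  rw [show m + 3 + 1 = m + 4 by ring] at d2 d3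
  rcases t_sq (m + 1) with e0 | e0 <;> rcases t_sq (m + 2) with e1 | e1 <;>
    rcases t_sq (m + 3) with e2 | e2 <;> rcases t_sq (m + 4) with e3 | e3 <;>
    simp only [e0, e1, e2, e3, neg_neg, forall_const] at c c' i i2 i3 i4 b2 b3 c2 c3 d2 d3 ⊢ <;> omega

theorem q1 (n : ℕ) (hn : 4 ≤ n) : 2 * |h (n - 1)| ≤ 7 * |h n| := by
  obtain ⟨m, hm⟩ : ∃ m, n = 4 * m + 4 ∨ n = 4 * m + 5 ∨ n = 4 * m + 6 ∨ n = 4 * m + 7 :=
    ⟨n / 4 - 1, by omega⟩
  obtain ⟨b0, b1, b2, b3⟩ := block m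
  have j := (inv m).1
  unfold Inv at j
  rw [show 4 * (m + 1) + 2 = 4 * m + 6 by ring, show 4 * (m + 1) + 3 = 4 * m + 7 by ring] at j
  cases m with
  | zero =>
    simp only [v1, h2, h3, zero_add, mul_zero] at b0 b1 b2 b3 hm
    rcases hm with rfl | rfl | rfl | rfl <;> simp [b0, b1, b2, b3, h3]
  | succ m =>
    have i := (inv m).1
    unfold Inv at i
    rcases hm with rfl | rfl | rfl | rfl <;> simp only [Nat.add_succ_sub_one] <;>
      rcases t_sq (m + 1) with e1 | e1 <;> rcases t_sq (m + 1 + 1) with e2 | e2 <;>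
      simp only [e1, e2, abs_eq_max_neg] at i j b0 b1 b2 b3 ⊢ <;> omega

theorem q2 (n : ℕ) (hn : 10 ≤ n) : h (2 * n) ≠ 0 ∧ 12 * |h (2 * n)| ≤ 41 * |h (2 * n + 1)| ∧
    |h (2 * n + 1)| ≤ 5 * |h (2 * n)| := by
  obtain ⟨m, hm⟩ : ∃ m, 2 * n = 4 * (m + 4) + 4 ∨ 2 * n = 4 * (m + 4) + 6 := ⟨n / 2 - 5, by omega⟩
  obtain ⟨b0, b1, b2, b3⟩ := block (m + 4)
  have i := inv2 m
  have j := inv2 (m + 1)
  unfold Inv at i j
  rw [show 4 * (m + 1 + 4) + 2 = 4 * (m + 4) + 6 by ring, show 4 * (m + 1 + 4) + 3 = 4 * (m + 4) + 7 by ring,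
    show m + 1 + 4 = m + 4 + 1 by ring] at j
  rcases hm with e | e <;> rw [e] <;>
    rcases t_sq (m + 4) with e1 | e1 <;> rcases t_sq (m + 4 + 1) with e2 | e2 <;>
    simp only [e1, e2, abs_eq_max_neg, add_assoc, Nat.reduceAdd] at i j b0 b1 b2 b3 ⊢ <;> omega

end Pool.Agent.H32.TMFib
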