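import Mathlib

namespace Pool.Agent.H32.Tower
open Filter Set Cardinal

lemma chain_filter {W : Type} [LinearOrder W] (S : Set W) (F : W → Set ℕ)
    (h1 : ∀ i ∈ S, (F i).Infinite) (h2 : ∀ i ∈ S, ∀ j ∈ S, j < i → (F i \ F j).Finite) :
    NeBot (⨅ o : Option S, (o.elim atTop (fun j => atTop ⊓ 𝓟 (F j)) : Filter ℕ)) := by
  have key : ∀ i ∈ S, ∀ j ∈ S, j ≤ i → (atTop ⊓ 𝓟 (F i) : Filter ℕ) ≤ atTop ⊓ 𝓟 (F j) := by
    intro i hi j hj hji
    rcases hji.eq_or_lt with rfl | hlt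
    · exact le_rfl
    refine le_inf inf_le_left ?_
    rw [le_principal_iff, mem_inf_principal, ← Nat.cofinite_eq_atTop, mem_cofinite]
    refine (h2 i hi j hj hlt).subset fun x hx => ?_
    simp only [mem_compl_iff, mem_ofPred_eq, Classical.not_imp] at hx
    exact hx
  refine iInf_neBot_of_directed ?_ ?_
  · rintro (_ | i) (_ | j)
    · exact ⟨none, le_rfl, le_rfl⟩
    · exact ⟨some j, inf_le_left, le_rfl⟩
    · exact ⟨some i, le_rfl, inf_le_left⟩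
    · rcases le_total i.1 j.1 with h | h
      · exact ⟨some j, key _ j.2 _ i.2 h, le_rfl⟩
      · exact ⟨some i, le_rfl, key _ i.2 _ j.2 h⟩
  · rintro (_ | i)
    · exact atTop_neBot
    · show NeBot (atTop ⊓ 𝓟 (F i))
      rw [← Nat.cofinite_eq_atTop]
      exact (h1 i i.2).cofinite_inf_principal_neBot

lemma pseudo {W : Type} [LinearOrder W] (S : Set W) (hS : S.Countable) (F : W → Set ℕ)
    (h1 : ∀ i ∈ S, (F i).Infinite) (h2 : ∀ i ∈ S, ∀ j ∈ S, j < i → (F i \ F j).Finite) :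
    ∃ B : Set ℕ, B.Infinite ∧ ∀ j ∈ S, (B \ F j).Finite := by
  haveI := chain_filter S F h1 h2
  haveI : Countable S := hS.to_subtype
  haveI : ∀ o : Option S,
      IsCountablyGenerated (o.elim atTop (fun j => atTop ⊓ 𝓟 (F j)) : Filter ℕ) := by
    rintro (_ | i)
    · show IsCountablyGenerated (atTop : Filter ℕ); infer_instance
    · show IsCountablyGenerated (atTop ⊓ 𝓟 (F i) : Filter ℕ); infer_instance
  obtain ⟨x, hx⟩ := exists_seq_tendsto
    (⨅ o : Option S, (o.elim atTop (fun j => atTop ⊓ 𝓟 (F j)) : Filter ℕ))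
  rw [tendsto_iInf] at hx
  refine ⟨range x, ?_, fun j hj => ?_⟩
  · have h0 : Tendsto x atTop atTop := hx none
    refine Set.infinite_of_not_bddAbove ?_
    exact not_bddAbove_of_tendsto_atTop h0
  · have h0 : Tendsto x atTop (atTop ⊓ 𝓟 (F j)) := hx (some ⟨j, hj⟩)
    have h3 := (tendsto_principal.1 (h0.mono_right inf_le_right))
    rw [← Nat.cofinite_eq_atTop, eventually_cofinite] at h3
    refine (h3.image x).subset ?_
    rintro _ ⟨⟨n, rfl⟩, hn⟩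
    exact ⟨n, hn, rfl⟩

/-- Under CH-type cardinality bound: an ultrafilter meeting `ℵ₁` many dense families. -/
theorem tower {ι : Type} [Nonempty ι] (hι : #ι ≤ ℵ₁) (D : ι → Set ℕ → Prop)
    (hD : ∀ i (A : Set ℕ), A.Infinite → ∃ B ⊆ A, B.Infinite ∧ D i B) :
    ∃ v : Ultrafilter ℕ, (v : Filter ℕ) ≤ atTop ∧ ∀ i, ∃ B ∈ v, D i B := by
  classical
  let W := (ℵ₁ : Cardinal.{0}).ord.ToType
  have hW : #W = ℵ₁ := by simp [W]
  obtain ⟨e, he⟩ : ∃ e : W → ι, Function.Surjective e := by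
    obtain ⟨f⟩ := (Cardinal.le_def ι W).1 (hW ▸ hι)
    exact ⟨Function.invFun f, Function.invFun_surjective f.injective⟩
  have hcount : ∀ i : W, (Iio i).Countable := by
    intro i
    rw [← Cardinal.le_aleph0_iff_set_countable, ← Cardinal.lt_aleph_one_iff]
    simpa [W] using Cardinal.mk_Iio_lt i
  let step : (i : W) → ((j : W) → j < i → Set ℕ) → Set ℕ := fun i r =>
    if h : ∃ B : Set ℕ, B.Infinite ∧ D (e i) B ∧ ∀ j (hj : j < i), (B \ r j hj).Finite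
    then h.choose else univ
  let F : W → Set ℕ := (wellFounded_lt (α := W)).fix step
  have hF : ∀ i, F i = step i (fun j _ => F j) := fun i => WellFounded.fix_eq _ _ _
  have P : ∀ i, (F i).Infinite ∧ D (e i) (F i) ∧ ∀ j, j < i → (F i \ F j).Finite := by
    intro i
    induction i using WellFoundedLT.induction with
    | _ i ih =>
    obtain ⟨A, hA, hA'⟩ := pseudo (Iio i) (hcount i) F (fun j hj => (ih j hj).1)
      (fun j hj k _ hk => (ih j hj).2.2 k hk)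
    obtain ⟨B, hB1, hB2, hB3⟩ := hD (e i) A hA
    have h : ∃ B : Set ℕ, B.Infinite ∧ D (e i) B ∧ ∀ j (_ : j < i), (B \ F j).Finite :=
      ⟨B, hB2, hB3, fun j hj => (hA' j hj).subset (sdiff_subset_sdiff_left hB1)⟩
    have e1 : F i = h.choose := by
      rw [hF i]
      exact dif_pos h
    rw [e1]
    exact h.choose_spec
  haveI := chain_filter (univ : Set W) F (fun i _ => (P i).1) (fun i _ j _ h => (P i).2.2 j h)
  refine ⟨Ultrafilter.of (⨅ o : Option (univ : Set W),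
    (o.elim atTop (fun j => atTop ⊓ 𝓟 (F j)) : Filter ℕ)), ?_, fun i => ?_⟩
  · exact le_trans (Ultrafilter.of_le _) (iInf_le _ none)
  · obtain ⟨j, rfl⟩ := he i
    refine ⟨F j, ?_, (P j).2.1⟩
    have := le_trans (Ultrafilter.of_le _) (iInf_le (fun o : Option (univ : Set W) =>
      (o.elim atTop (fun j => atTop ⊓ 𝓟 (F j)) : Filter ℕ)) (some ⟨j, mem_univ j⟩))
    exact le_principal_iff.1 (le_trans this inf_le_right)

lemma mem_bind_iff {α β : Type} (v : Ultrafilter α) (t : α → Ultrafilter β) (C : Set β) :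
    C ∈ v.bind t ↔ {n | C ∈ t n} ∈ v := Filter.mem_bind'

lemma exists_diff {α : Type} {a b : Ultrafilter α} (h : a ≠ b) : ∃ C, C ∈ a ∧ C ∉ b := by
  by_contra hc
  push Not at hc
  exact h (Ultrafilter.eq_of_le (fun C hC => hc C hC)).symm

lemma layer (c d : ℕ → Ultrafilter ℕ) (s γ : Ultrafilter ℕ) (hs : (s : Filter ℕ) ≤ atTop)
    (hc : ∀ R ∈ γ, {n | R ∈ c n} ∈ s) (hd : ∀ R ∈ γ, {n | R ∈ d n} ∈ s) (A : Set ℕ) (hA : A ∈ s)
    (hne : ∀ n ∈ A, c n ≠ γ ∧ d n ≠ γ) :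
    ∃ (φ : ℕ → ℕ) (L : ℕ → Set ℕ), StrictMono φ ∧ (∀ k, φ k ∈ A) ∧
      Pairwise (Function.onFun Disjoint L) ∧ ∀ k, L k ∈ c (φ k) ∧ L k ∈ d (φ k) := by
  have st : ∀ p : ℕ × {R // R ∈ γ}, ∃ q : ℕ × {R // R ∈ γ}, p.1 < q.1 ∧ q.1 ∈ A ∧
      q.2.1 ⊆ p.2.1 ∧ p.2.1 \ q.2.1 ∈ c q.1 ∧ p.2.1 \ q.2.1 ∈ d q.1 := by
    rintro ⟨n, R, hR⟩
    obtain ⟨m, ⟨⟨h1, h2⟩, h3⟩, h4⟩ := s.nonempty_of_mem
      (inter_mem (inter_mem (inter_mem (hs (Ioi_mem_atTop n)) hA) (hc R hR)) (hd R hR))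
    obtain ⟨C1, p1, q1⟩ := exists_diff (hne m h2).1.symm
    obtain ⟨C2, p2, q2⟩ := exists_diff (hne m h2).2.symm
    refine ⟨⟨m, R ∩ (C1 ∩ C2), inter_mem hR (inter_mem p1 p2)⟩, h1, h2, inter_subset_left, ?_, ?_⟩
    · refine mem_of_superset (inter_mem h3 (Ultrafilter.compl_mem_iff_notMem.2 q1)) ?_
      exact fun x hx => ⟨hx.1, fun h => hx.2 h.2.1⟩
    · refine mem_of_superset (inter_mem h4 (Ultrafilter.compl_mem_iff_notMem.2 q2)) ?_
      exact fun x hx => ⟨hx.1, fun h => hx.2 h.2.2⟩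
  choose g hg using st
  let x : ℕ → ℕ × {R // R ∈ γ} := fun k => g^[k] ⟨0, univ, univ_mem⟩
  have hx : ∀ k, x (k + 1) = g (x k) := fun k => Function.iterate_succ_apply' _ _ _
  have hanti : Antitone (fun k => (x k).2.1) :=
    antitone_nat_of_succ_le fun k => by rw [hx]; exact (hg _).2.2.1
  refine ⟨fun k => (x (k + 1)).1, fun k => (x k).2.1 \ (x (k + 1)).2.1, ?_, ?_, ?_, ?_⟩
  · exact strictMono_nat_of_lt_succ fun k => by rw [hx (k + 1)]; exact (hg _).1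
  · intro k; simp only [hx k]; exact (hg _).2.1
  · have : ∀ j k, j < k → Disjoint ((x j).2.1 \ (x (j + 1)).2.1) ((x k).2.1 \ (x (k + 1)).2.1) :=
      fun j k h => Set.disjoint_left.2 fun z h1 h2 => h1.2 (hanti (Nat.succ_le_of_lt h) h2.1)
    intro j k hjk
    rcases lt_or_gt_of_ne hjk with h | h
    · exact this j k h
    · exact (this k j h).symm
  · intro k; simp only [hx k]; exact (hg _).2.2.2

lemma sep_aux (b : ℕ → Ultrafilter ℕ) (s γ : Ultrafilter ℕ) (hs : (s : Filter ℕ) ≤ atTop)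
    (hb : ∀ R ∈ γ, {n | R ∈ b n} ∈ s) (A : Set ℕ) (hA : A ∈ s) (hne : ∀ n ∈ A, b n ≠ γ) :
    ∃ B ⊆ A, B.Infinite ∧ ∃ C, C ∉ γ ∧ ∀ n ∈ B, C ∈ b n := by
  obtain ⟨φ, L, h1, h2, h3, h4⟩ := layer b b s γ hs hb hb A hA (fun n hn => ⟨hne n hn, hne n hn⟩)
  have : ∃ i, (⋃ k, L (2 * k + i)) ∉ γ := by
    by_contra hc
    push Not at hc
    obtain ⟨z, z0, z1⟩ := γ.nonempty_of_mem (inter_mem (hc 0) (hc 1))
    obtain ⟨k, hk⟩ := mem_iUnion.1 z0
    obtain ⟨l, hl⟩ := mem_iUnion.1 z1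
    exact Set.disjoint_left.1 (h3 (show 2 * k + 0 ≠ 2 * l + 1 by omega)) hk hl
  obtain ⟨i, hi⟩ := this
  refine ⟨range (fun k => φ (2 * k + i)), ?_, ?_, _, hi, ?_⟩
  · rintro _ ⟨k, rfl⟩; exact h2 _
  · refine infinite_range_of_injective fun k l h => ?_
    have := h1.injective h
    omega
  · rintro _ ⟨k, rfl⟩
    exact mem_of_superset (h4 _).1 (subset_iUnion (fun k => L (2 * k + i)) k)

theorem sep (a b : ℕ → Ultrafilter ℕ) (A : Set ℕ) (hA : A.Infinite) (hne : ∀ n ∈ A, a n ≠ b n) :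
    ∃ B ⊆ A, B.Infinite ∧ ∃ C, ∀ n ∈ B, C ∈ a n ∧ C ∉ b n := by
  haveI := hA.cofinite_inf_principal_neBot
  set s := Ultrafilter.of (cofinite ⊓ 𝓟 A : Filter ℕ) with hs
  have hs1 : (s : Filter ℕ) ≤ atTop :=
    Nat.cofinite_eq_atTop ▸ le_trans (Ultrafilter.of_le _) inf_le_left
  have hs2 : A ∈ s := le_principal_iff.1 (le_trans (Ultrafilter.of_le _) inf_le_right)
  have hinf : ∀ B ∈ s, B.Infinite := by
    intro B hB hf
    have : Bᶜ ∈ s := hs1 (Nat.cofinite_eq_atTop ▸ hf.compl_mem_cofinite)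
    exact Ultrafilter.compl_mem_iff_notMem.1 this hB
  by_cases hab : s.bind a = s.bind b
  swap
  · obtain ⟨C, h1, h2⟩ := exists_diff hab
    rw [mem_bind_iff] at h1 h2
    have h3 := inter_mem hs2 (inter_mem h1 (Ultrafilter.compl_mem_iff_notMem.2 h2))
    exact ⟨_, inter_subset_left, hinf _ h3, C, fun n hn => hn.2⟩
  set γ := s.bind a with hγ
  have ha : ∀ R ∈ γ, {n | R ∈ a n} ∈ s := fun R hR => (mem_bind_iff _ _ _).1 hR
  have hb : ∀ R ∈ γ, {n | R ∈ b n} ∈ s := fun R hR => (mem_bind_iff _ _ _).1 (hab ▸ hR)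
  by_cases h1 : {n | a n = γ} ∈ s
  · obtain ⟨B, p1, p2, C, p3, p4⟩ := sep_aux b s γ hs1 hb _ (inter_mem hs2 h1)
      (fun n hn h => hne n hn.1 (hn.2.trans h.symm))
    refine ⟨B, p1.trans inter_subset_left, p2, Cᶜ, fun n hn => ⟨?_, ?_⟩⟩
    · have : a n = γ := (p1 hn).2
      rw [this]
      exact Ultrafilter.compl_mem_iff_notMem.2 p3
    · exact Ultrafilter.compl_notMem_iff.2 (p4 n hn)
  by_cases h2 : {n | b n = γ} ∈ s
  · obtain ⟨B, p1, p2, C, p3, p4⟩ := sep_aux a s γ hs1 ha _ (inter_mem hs2 h2)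
      (fun n hn h => hne n hn.1 (h.trans (Eq.symm hn.2)))
    refine ⟨B, p1.trans inter_subset_left, p2, C, fun n hn => ⟨p4 n hn, ?_⟩⟩
    have : b n = γ := (p1 hn).2
    rw [this]
    exact p3
  obtain ⟨φ, L, q1, q2, q3, q4⟩ := layer a b s γ hs1 ha hb _
    (inter_mem hs2 (inter_mem (Ultrafilter.compl_mem_iff_notMem.2 h1)
      (Ultrafilter.compl_mem_iff_notMem.2 h2))) (fun n hn => hn.2)
  have hD : ∀ k, ∃ C, C ∈ a (φ k) ∧ C ∉ b (φ k) := fun k => exists_diff (hne _ (q2 k).1)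
  choose D hD1 hD2 using hD
  refine ⟨range φ, ?_, infinite_range_of_injective q1.injective, ⋃ k, L k ∩ D k, ?_⟩
  · rintro _ ⟨k, rfl⟩; exact (q2 k).1
  · rintro _ ⟨k, rfl⟩
    refine ⟨mem_of_superset (inter_mem (q4 k).1 (hD1 k)) (subset_iUnion (fun k => L k ∩ D k) k),
      fun h => hD2 k ?_⟩
    refine mem_of_superset (inter_mem h (q4 k).2) ?_
    rintro z ⟨hz, hz'⟩
    obtain ⟨j, hj⟩ := mem_iUnion.1 hz
    by_cases e : j = k
    · subst e; exact hj.2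
    · exact absurd hz' (Set.disjoint_left.1 (q3 e) hj.1)

end Pool.Agent.H32.Tower
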