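import Mathlib
import Pool.Agent.H32.Sieve2

namespace Pool.Agent.H32.Tri

open Pool.Agent.H32.Sieve

def bs : ℕ → ℕ → ℕ → ℕ
  | 0, _, s => s
  | b + 1, y, s => force (if (s + 2 ^ b) * (s + 2 ^ b) ≤ y then s + 2 ^ b else s) fun u => bs b y u

def nt (c : ℕ) : Bool :=
  force (8 * c + 1) fun y => force (bs 12 y 0) fun s =>
    decide (s * s < y) && decide (y < (s + 1) * (s + 1))

theorem c0 : run 1471 nt 1720 10 (sieve (10 * 1471) 121 >>> 1) 0 = true := by decide +kernel

theorem u0 : Upto 1471 nt 10 1720 := upto_init (by norm_num) c0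

theorem c1 : run 1471 nt 38939 307 (seg2 682 26 (1 + 10 * 1471) (307 * 1471)) 1720 = true := by
  decide +kernel

theorem u1 : Upto 1471 nt 317 38939 :=
  u0.step2 682 26 307 38939 (by norm_num) (by norm_num) (by norm_num) c1

theorem c2 : run 1471 nt 72583 307 (seg2 958 30 (1 + 317 * 1471) (307 * 1471)) 38939 = true := by
  decide +kernel

theorem u2 : Upto 1471 nt 624 72583 :=
  u1.step2 958 30 307 72583 (by norm_num) (by norm_num) (by norm_num) c2

end Pool.Agent.H32.Tri
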