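import Mathlib
import Pool.Agent.H32.Tri0

namespace Pool.Agent.H32.Tri

open Pool.Agent.H32.Sieve

theorem c3 : run 1471 nt 104935 307 (seg2 1170 34 (1 + 624 * 1471) (307 * 1471)) 72583 = true := by
  decide +kernel

theorem u3 : Upto 1471 nt 931 104935 :=
  u2.step2 1170 34 307 104935 (by norm_num) (by norm_num) (by norm_num) c3

theorem c4 : run 1471 nt 136530 307 (seg2 1349 36 (1 + 931 * 1471) (307 * 1471)) 104935 = true := by
  decide +kernel

theorem u4 : Upto 1471 nt 1238 136530 :=
  u3.step2 1349 36 307 136530 (by norm_num) (by norm_num) (by norm_num) c4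

theorem c5 : run 1471 nt 167673 307 (seg2 1507 38 (1 + 1238 * 1471) (307 * 1471)) 136530 = true := by
  decide +kernel

theorem u5 : Upto 1471 nt 1545 167673 :=
  u4.step2 1507 38 307 167673 (by norm_num) (by norm_num) (by norm_num) c5

end Pool.Agent.H32.Tri
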