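import Mathlib
import Pool.Agent.H32.Tri1

namespace Pool.Agent.H32.Tri

open Pool.Agent.H32.Sieve

theorem c6 : run 1471 nt 198301 307 (seg2 1650 40 (1 + 1545 * 1471) (307 * 1471)) 167673 = true := by
  decide +kernel

theorem u6 : Upto 1471 nt 1852 198301 :=
  u5.step2 1650 40 307 198301 (by norm_num) (by norm_num) (by norm_num) c6

theorem c7 : run 1471 nt 228579 307 (seg2 1782 42 (1 + 1852 * 1471) (307 * 1471)) 198301 = true := by
  decide +kernel

theorem u7 : Upto 1471 nt 2159 228579 :=
  u6.step2 1782 42 307 228579 (by norm_num) (by norm_num) (by norm_num) c7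

theorem c8 : run 1471 nt 258605 307 (seg2 1904 43 (1 + 2159 * 1471) (307 * 1471)) 228579 = true := by
  decide +kernel

theorem u8 : Upto 1471 nt 2466 258605 :=
  u7.step2 1904 43 307 258605 (by norm_num) (by norm_num) (by norm_num) c8

end Pool.Agent.H32.Tri
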