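import Mathlib
import Pool.Agent.H32.Tri2

namespace Pool.Agent.H32.Tri

open Pool.Agent.H32.Sieve

theorem c9 : run 1471 nt 288401 307 (seg2 2019 44 (1 + 2466 * 1471) (307 * 1471)) 258605 = true := by
  decide +kernel

theorem u9 : Upto 1471 nt 2773 288401 :=
  u8.step2 2019 44 307 288401 (by norm_num) (by norm_num) (by norm_num) c9

theorem c10 : run 1471 nt 317928 307 (seg2 2128 46 (1 + 2773 * 1471) (307 * 1471)) 288401 = true := by
  decide +kernel

theorem u10 : Upto 1471 nt 3080 317928 :=
  u9.step2 2128 46 307 317928 (by norm_num) (by norm_num) (by norm_num) c10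

theorem c11 : run 1471 nt 347355 307 (seg2 2232 47 (1 + 3080 * 1471) (307 * 1471)) 317928 = true := by
  decide +kernel

theorem u11 : Upto 1471 nt 3387 347355 :=
  u10.step2 2232 47 307 347355 (by norm_num) (by norm_num) (by norm_num) c11

end Pool.Agent.H32.Tri
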