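import Mathlib
import Pool.Agent.H32.Tri3

namespace Pool.Agent.H32.Tri

open Pool.Agent.H32.Sieve

theorem c12 : run 1471 nt 376541 307 (seg2 2331 48 (1 + 3387 * 1471) (307 * 1471)) 347355 = true := by
  decide +kernel

theorem u12 : Upto 1471 nt 3694 376541 :=
  u11.step2 2331 48 307 376541 (by norm_num) (by norm_num) (by norm_num) c12

theorem c13 : run 1471 nt 405492 307 (seg2 2425 49 (1 + 3694 * 1471) (307 * 1471)) 376541 = true := by
  decide +kernel

theorem u13 : Upto 1471 nt 4001 405492 :=
  u12.step2 2425 49 307 405492 (by norm_num) (by norm_num) (by norm_num) c13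

theorem c14 : run 1471 nt 434453 307 (seg2 2517 50 (1 + 4001 * 1471) (307 * 1471)) 405492 = true := by
  decide +kernel

theorem u14 : Upto 1471 nt 4308 434453 :=
  u13.step2 2517 50 307 434453 (by norm_num) (by norm_num) (by norm_num) c14

end Pool.Agent.H32.Tri
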