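import Mathlib
import Pool.Agent.H32.Tri4

namespace Pool.Agent.H32.Tri

open Pool.Agent.H32.Sieve

theorem c15 : run 1471 nt 463163 307 (seg2 2605 51 (1 + 4308 * 1471) (307 * 1471)) 434453 = true := by
  decide +kernel

theorem u15 : Upto 1471 nt 4615 463163 :=
  u14.step2 2605 51 307 463163 (by norm_num) (by norm_num) (by norm_num) c15

theorem c16 : run 1471 nt 491861 307 (seg2 2690 51 (1 + 4615 * 1471) (307 * 1471)) 463163 = true := by
  decide +kernel

theorem u16 : Upto 1471 nt 4922 491861 :=
  u15.step2 2690 51 307 491861 (by norm_num) (by norm_num) (by norm_num) c16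

theorem c17 : run 1471 nt 520383 307 (seg2 2773 52 (1 + 4922 * 1471) (307 * 1471)) 491861 = true := by
  decide +kernel

theorem u17 : Upto 1471 nt 5229 520383 :=
  u16.step2 2773 52 307 520383 (by norm_num) (by norm_num) (by norm_num) c17

end Pool.Agent.H32.Tri
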