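import Mathlib
import Pool.Agent.H32.Tri5

namespace Pool.Agent.H32.Tri

open Pool.Agent.H32.Sieve

theorem c18 : run 1471 nt 548745 307 (seg2 2853 53 (1 + 5229 * 1471) (307 * 1471)) 520383 = true := by
  decide +kernel

theorem u18 : Upto 1471 nt 5536 548745 :=
  u17.step2 2853 53 307 548745 (by norm_num) (by norm_num) (by norm_num) c18

theorem c19 : run 1471 nt 577129 307 (seg2 2931 54 (1 + 5536 * 1471) (307 * 1471)) 548745 = true := by
  decide +kernel

theorem u19 : Upto 1471 nt 5843 577129 :=
  u18.step2 2931 54 307 577129 (by norm_num) (by norm_num) (by norm_num) c19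

theorem c20 : run 1471 nt 605350 307 (seg2 3007 54 (1 + 5843 * 1471) (307 * 1471)) 577129 = true := by
  decide +kernel

theorem u20 : Upto 1471 nt 6150 605350 :=
  u19.step2 3007 54 307 605350 (by norm_num) (by norm_num) (by norm_num) c20

end Pool.Agent.H32.Tri
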