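import Mathlib

namespace Pool.Agent.H32.UDec

open Finset

variable {V : Type} [Fintype V] [DecidableEq V]

inductive Dec : ℕ → Finset (Sym2 V) → Finset (Sym2 V) → Prop
  | nil (r : ℕ) : Dec r ∅ ∅
  | cons (σ : Equiv.Perm V) {r : ℕ} {F A B : Finset (Sym2 V)} : Disjoint F A →
      Disjoint (F.image (Sym2.map σ)) B → Dec r A B →
      Dec (r + 1) (F ∪ A) (F.image (Sym2.map σ) ∪ B)

theorem map_inj (σ : Equiv.Perm V) : Function.Injective (Sym2.map σ) :=
  Sym2.map.injective σ.injective

theorem Dec.card_eq {r : ℕ} {A B : Finset (Sym2 V)} (h : Dec r A B) : A.card = B.card := by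
  induction h with
  | nil => rfl
  | cons σ h1 h2 _ ih =>
    rw [card_union_of_disjoint h1, card_union_of_disjoint h2, ih,
      card_image_of_injective _ (map_inj σ)]

theorem Dec.succ {r : ℕ} {A B : Finset (Sym2 V)} (h : Dec r A B) : Dec (r + 1) A B := by
  have := Dec.cons (F := ∅) 1 (disjoint_empty_left _) (by simp) h
  simpa using this

theorem Dec.mono {r r' : ℕ} {A B : Finset (Sym2 V)} (h : Dec r A B) (hr : r ≤ r') : Dec r' A B := by
  induction r', hr using Nat.le_induction with
  | base => exact h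
  | succ _ _ ih => exact ih.succ

theorem Dec.symm {r : ℕ} {A B : Finset (Sym2 V)} (h : Dec r A B) : Dec r B A := by
  induction h with
  | nil => exact Dec.nil _
  | @cons σ r F A B h1 h2 _ ih =>
    have e : (F.image (Sym2.map σ)).image (Sym2.map (σ⁻¹ : Equiv.Perm V)) = F := by
      rw [image_image]
      conv_rhs => rw [← image_id (s := F)]
      refine image_congr fun x _ => ?_
      simp [Sym2.map_map]
    have := Dec.cons (σ⁻¹) h2 (by rw [e]; exact h1) ih
    rwa [e] at this

theorem Dec.union {r r' : ℕ} {A B A' B' : Finset (Sym2 V)} (h : Dec r A B) (h' : Dec r' A' B')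
    (hA : Disjoint A A') (hB : Disjoint B B') : Dec (r' + r) (A ∪ A') (B ∪ B') := by
  induction h with
  | nil r => simpa using h'.mono (Nat.le_add_right _ _)
  | @cons σ r F A B h1 h2 _ ih =>
    rw [disjoint_union_left] at hA hB
    have := Dec.cons σ (disjoint_union_right.2 ⟨h1, hA.1⟩) (disjoint_union_right.2 ⟨h2, hB.1⟩)
      (ih hA.2 hB.2)
    rwa [← union_assoc, ← union_assoc] at this

theorem Dec.coloring {r : ℕ} {A B : Finset (Sym2 V)} (h : Dec r A B) :
    ∃ c c' : Sym2 V → ℕ, (∀ e ∈ A, c e < r) ∧ (∀ e ∈ B, c' e < r) ∧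
      ∀ i, ∃ σ : Equiv.Perm V,
        Sym2.map σ '' {e | e ∈ A ∧ c e = i} = {e | e ∈ B ∧ c' e = i} := by
  induction h with
  | nil r => exact ⟨fun _ => 0, fun _ => 0, by simp, by simp, fun i => ⟨1, by simp⟩⟩
  | @cons σ r F A B h1 h2 _ ih =>
    obtain ⟨c, c', hc, hc', hi⟩ := ih
    have key : ∀ (F A : Finset (Sym2 V)) (c : Sym2 V → ℕ), Disjoint F A → (∀ e ∈ A, c e < r) →
        (∀ e ∈ F ∪ A, (if e ∈ F then r else c e) < r + 1) ∧
        {e | e ∈ F ∪ A ∧ (if e ∈ F then r else c e) = r} = ↑F ∧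
        ∀ i, i ≠ r → {e | e ∈ F ∪ A ∧ (if e ∈ F then r else c e) = i} = {e | e ∈ A ∧ c e = i} := by
      intro F A c hd hc
      refine ⟨?_, ?_, ?_⟩
      · intro e he
        split_ifs with h
        · omega
        · have := hc e ((mem_union.1 he).resolve_left h); omega
      · ext e
        by_cases h : e ∈ F
        · simp [h]
        · simp only [mem_union, h, false_or, if_false, Set.mem_ofPred_eq, mem_coe, iff_false,
            not_and]
          intro he
          exact (hc e he).ne
      · intro i hi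
        ext e
        by_cases h : e ∈ F
        · have := disjoint_left.1 hd h
          simp [h, this, hi.symm]
        · simp [h]
    obtain ⟨a1, a2, a3⟩ := key F A c h1 hc
    obtain ⟨b1, b2, b3⟩ := key _ B c' h2 hc'
    refine ⟨_, _, a1, b1, fun i => ?_⟩
    by_cases hir : i = r
    · subst hir
      exact ⟨σ, by rw [a2, b2, coe_image]⟩
    · rw [a3 i hir, b3 i hir]; exact hi i

def In (T : Finset V) (A : Finset (Sym2 V)) : Prop := ∀ e ∈ A, ¬ e.IsDiag ∧ ∀ x ∈ e, x ∈ T

theorem In.mono {T : Finset V} {A A' : Finset (Sym2 V)} (h : In T A) (h' : A' ⊆ A) : In T A' :=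
  fun e he => h e (h' he)

theorem exists_perm (T : Finset V) {a b : Sym2 V} (ha : ¬ a.IsDiag) (ha' : ∀ x ∈ a, x ∈ T)
    (hb : ¬ b.IsDiag) (hb' : ∀ x ∈ b, x ∈ T) :
    ∃ τ : Equiv.Perm V, (∀ x ∈ T, τ x ∈ T) ∧ Sym2.map τ a = b := by
  induction a using Sym2.ind with
  | _ x y =>
  induction b using Sym2.ind with
  | _ u v =>
  rw [Sym2.mk_isDiag_iff] at ha hb
  have hx := ha' x (by simp)
  have hy := ha' y (by simp)
  have hu := hb' u (by simp)
  have hv := hb' v (by simp)
  have hsw : ∀ p q, p ∈ T → q ∈ T → ∀ z ∈ T, Equiv.swap p q z ∈ T := by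
    intro p q hp hq z hz
    rw [Equiv.swap_apply_def]
    split_ifs <;> assumption
  refine ⟨Equiv.swap (Equiv.swap x u y) v * Equiv.swap x u, ?_, ?_⟩
  · intro z hz
    exact hsw _ _ (hsw _ _ hx hu _ hy) hv _ (hsw _ _ hx hu _ hz)
  · have h1 : u ≠ Equiv.swap x u y := by
      intro h
      have : Equiv.swap x u x = Equiv.swap x u y := by rw [Equiv.swap_apply_left]; exact h
      exact ha ((Equiv.swap x u).injective this)
    simp only [Sym2.map_mk, Equiv.Perm.coe_mul, Function.comp_apply, Equiv.swap_apply_left]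
    rw [Equiv.swap_apply_of_ne_of_ne h1 hb]

theorem avg {T T' : Finset V} (hT : T.card = T'.card) {A B : Finset (Sym2 V)} (hA : In T A)
    (hB : In T' B) : ∃ σ : Equiv.Perm V,
      A.card * B.card ≤ T'.card ^ 2 * (A.filter fun a => Sym2.map σ a ∈ B).card := by
  let Γ : Finset (Equiv.Perm V) := univ.filter fun σ => ∀ x ∈ T, σ x ∈ T'
  have hne : Γ.Nonempty := by
    let e : {x // x ∈ T} ≃ {x // x ∈ T'} := Finset.equivOfCardEq hT
    refine ⟨e.extendSubtype, ?_⟩
    simp only [Γ, mem_filter, mem_univ, true_and]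
    exact fun x hx => e.extendSubtype_mem x hx
  have h1 : ∀ a ∈ A, ∀ b ∈ B, Γ.card ≤ T'.card ^ 2 * (Γ.filter fun σ : Equiv.Perm V => Sym2.map σ a = b).card := by
    intro a ha b hb
    have h2 : Γ.card ≤ (Γ.filter fun σ : Equiv.Perm V => Sym2.map σ a = b).card * ((T' ×ˢ T').image Sym2.mk.uncurry).card := by
      refine card_le_mul_card_image_of_maps_to (f := fun σ : Equiv.Perm V => Sym2.map σ a) ?_ _ ?_
      · intro σ hσ
        have h3 := (mem_filter.1 hσ).2
        have h4 := (hA a ha).2
        induction a using Sym2.ind with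
        | _ x y =>
        exact mem_image.2 ⟨(σ x, σ y), mem_product.2 ⟨h3 x (h4 x (by simp)), h3 y (h4 y (by simp))⟩,
          rfl⟩
      · intro b' _
        rcases (Γ.filter fun σ : Equiv.Perm V => Sym2.map σ a = b').eq_empty_or_nonempty with h | ⟨σ, hσ⟩
        · rw [h]; simp
        have h3 := (mem_filter.1 hσ).2
        have h4 := (mem_filter.1 (mem_filter.1 hσ).1).2
        obtain ⟨τ, hτ1, hτ2⟩ := exists_perm T' (a := b') (b := b)
          (by rw [← h3, Sym2.isDiag_map σ.injective]; exact (hA a ha).1)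
          (by
            intro x hx
            rw [← h3, Sym2.mem_map] at hx
            obtain ⟨y, hy, rfl⟩ := hx
            exact h4 y ((hA a ha).2 y hy)) (hB b hb).1 (hB b hb).2
        refine card_le_card_of_injOn (fun σ => τ * σ) ?_ (fun _ _ _ _ h => mul_left_cancel h)
        intro ρ hρ
        simp only [coe_filter, Γ, mem_filter, mem_univ, true_and, Set.mem_ofPred_eq] at hρ ⊢
        refine ⟨fun x hx => hτ1 _ (hρ.1 x hx), ?_⟩
        rw [Equiv.Perm.coe_mul, ← Sym2.map_map, hρ.2, hτ2]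
    have h5 : ((T' ×ˢ T').image Sym2.mk.uncurry).card ≤ T'.card ^ 2 :=
      card_image_le.trans (by rw [card_product, sq])
    rw [mul_comm]
    exact h2.trans (Nat.mul_le_mul_left _ h5)
  have h2 : ∑ _σ ∈ Γ, A.card * B.card
      ≤ ∑ σ ∈ Γ, T'.card ^ 2 * (A.filter fun a => Sym2.map σ a ∈ B).card := by
    calc ∑ _σ ∈ Γ, A.card * B.card = ∑ _a ∈ A, ∑ _b ∈ B, Γ.card := by simp; ring
      _ ≤ ∑ a ∈ A, ∑ b ∈ B, T'.card ^ 2 * (Γ.filter fun σ : Equiv.Perm V => Sym2.map σ a = b).card :=
          sum_le_sum fun a ha => sum_le_sum fun b hb => h1 a ha b hb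
      _ = _ := by
          simp only [← mul_sum]
          congr 1
          simp only [card_filter]
          rw [sum_comm (s := Γ)]
          refine sum_congr rfl fun a _ => ?_
          rw [sum_comm]
          refine sum_congr rfl fun σ _ => ?_
          rw [sum_ite_eq]
  obtain ⟨σ, _, hσ⟩ := exists_le_of_sum_le hne h2
  exact ⟨σ, hσ⟩

theorem reduce {T T' : Finset V} (hT : T.card = T'.card) {A B : Finset (Sym2 V)} (hA : In T A)
    (hB : In T' B) (hAB : A.card = B.card) (j : ℕ) :
    ∃ A' ⊆ A, ∃ B' ⊆ B, A'.card = B'.card ∧ A'.card * j ≤ T'.card ^ 2 ∧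
      Dec j (A \ A') (B \ B') := by
  induction j with
  | zero => exact ⟨A, subset_rfl, B, subset_rfl, hAB, by simp, by simpa using Dec.nil 0⟩
  | succ j ih =>
    obtain ⟨A', hA', B', hB', h1, h2, h3⟩ := ih
    obtain ⟨σ, hσ⟩ := avg hT (hA.mono hA') (hB.mono hB')
    set F := A'.filter fun a => Sym2.map σ a ∈ B' with hF
    have hFA : F ⊆ A' := filter_subset _ _
    have hFB : F.image (Sym2.map σ) ⊆ B' := by
      intro b hb
      obtain ⟨a, ha, rfl⟩ := mem_image.1 hb
      exact (mem_filter.1 ha).2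
    have hc := card_image_of_injective F (map_inj σ)
    refine ⟨A' \ F, sdiff_subset.trans hA', B' \ F.image (Sym2.map σ), sdiff_subset.trans hB',
      ?_, ?_, ?_⟩
    · rw [card_sdiff_of_subset hFA, card_sdiff_of_subset hFB, hc, h1]
    · rw [card_sdiff_of_subset hFA]
      rw [← h1] at hσ
      obtain ⟨a', ha'⟩ := Nat.exists_eq_add_of_le (card_le_card hFA)
      rw [ha'] at h2 hσ ⊢
      rw [Nat.add_sub_cancel_left]
      generalize T'.card ^ 2 = S at *
      generalize F.card = f at *
      by_contra hc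
      push Not at hc
      have hf : a' * (j + 1) * f > S * f ∨ f = 0 := by
        rcases Nat.eq_zero_or_pos f with h | h
        · exact Or.inr h
        · exact Or.inl (Nat.mul_lt_mul_of_pos_right hc h)
      rcases hf with hf | rfl
      · have h4 : f * j < a' := by nlinarith
        nlinarith
      · have : a' = 0 := by nlinarith
        subst this
        omega
    · have e1 : A \ (A' \ F) = F ∪ (A \ A') := by
        ext x
        have := @hFA x
        have := @hA' x
        simp only [mem_sdiff, mem_union]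
        tauto
      have e2 : B \ (B' \ F.image (Sym2.map σ)) = F.image (Sym2.map σ) ∪ (B \ B') := by
        ext x
        have := @hFB x
        have := @hB' x
        simp only [mem_sdiff, mem_union]
        tauto
      rw [e1, e2]
      exact Dec.cons σ (disjoint_sdiff.mono_left hFA) (disjoint_sdiff.mono_left hFB) h3

theorem singles (m : ℕ) : ∀ {A B : Finset (Sym2 V)}, In univ A → In univ B → A.card = m →
    B.card = m → Dec m A B := by
  induction m with
  | zero =>
    intro A B _ _ h1 h2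
    rw [card_eq_zero.1 h1, card_eq_zero.1 h2]
    exact Dec.nil 0
  | succ m ih =>
    intro A B hA hB h1 h2
    obtain ⟨a, A', ha, rfl, h3⟩ := card_eq_succ.1 h1
    obtain ⟨b, B', hb, rfl, h4⟩ := card_eq_succ.1 h2
    obtain ⟨τ, -, hτ⟩ := exists_perm univ (hA a (mem_insert_self _ _)).1 (fun _ _ => mem_univ _)
      (hB b (mem_insert_self _ _)).1 (fun _ _ => mem_univ _)
    have := Dec.cons τ (F := {a}) (by simpa using ha) (by simpa [hτ] using hb)
      (ih (hA.mono (subset_insert _ _)) (hB.mono (subset_insert _ _)) h3 h4)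
    simpa [hτ] using this

theorem In.univ {T : Finset V} {A : Finset (Sym2 V)} (h : In T A) : In univ A :=
  fun e he => ⟨(h e he).1, fun _ _ => mem_univ _⟩

theorem full {T T' : Finset V} (hT : T.card = T'.card) (hpos : 0 < T'.card)
    {A B : Finset (Sym2 V)} (hA : In T A) (hB : In T' B) (hAB : A.card = B.card) :
    Dec (2 * T'.card) A B := by
  obtain ⟨A', hA', B', hB', h1, h2, h3⟩ := reduce hT hA hB hAB T'.card
  have h4 : A'.card ≤ T'.card := by
    rw [sq] at h2
    exact Nat.le_of_mul_le_mul_right h2 hpos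
  have h5 := singles A'.card (hA.mono hA').univ (hB.mono hB').univ rfl h1.symm
  have := h3.union h5 sdiff_disjoint sdiff_disjoint
  rw [sdiff_union_of_subset hA', sdiff_union_of_subset hB'] at this
  exact this.mono (by omega)

theorem absorb0 {T T' : Finset V} (hT : T.card = T'.card) {L R : Finset (Sym2 V)} (hL : In T L)
    (hR : In T' R) {q D : ℕ} (hq : 0 < q) (hD : T'.card ^ 2 ≤ q * D) (hLR : L.card + q ≤ R.card)
    (j : ℕ) : ∃ L' ⊆ L, ∃ R1 ⊆ R, j * L'.card ≤ D * (L \ L').card ∧ Dec j (L \ L') R1 := by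
  induction j with
  | zero => exact ⟨L, subset_rfl, ∅, empty_subset _, by simp, by simpa using Dec.nil 0⟩
  | succ j ih =>
    obtain ⟨L', hL', R1, hR1, h1, h2⟩ := ih
    obtain ⟨σ, hσ⟩ := avg hT (hL.mono hL') (hR.mono (sdiff_subset (t := R1)))
    set F := L'.filter fun a => Sym2.map σ a ∈ R \ R1 with hF
    have hFA : F ⊆ L' := filter_subset _ _
    have hFB : F.image (Sym2.map σ) ⊆ R \ R1 := by
      intro b hb
      obtain ⟨a, ha, rfl⟩ := mem_image.1 hb
      exact (mem_filter.1 ha).2
    have e1 : L \ (L' \ F) = F ∪ (L \ L') := by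
      ext x
      have := @hFA x
      have := @hL' x
      simp only [mem_sdiff, mem_union]
      tauto
    have hd : Disjoint F (L \ L') := disjoint_sdiff.mono_left hFA
    refine ⟨L' \ F, sdiff_subset.trans hL', F.image (Sym2.map σ) ∪ R1,
      union_subset (hFB.trans sdiff_subset) hR1, ?_, ?_⟩
    · rw [e1, card_union_of_disjoint hd]
      have h3 : q ≤ (R \ R1).card := by
        rw [card_sdiff_of_subset hR1, ← h2.card_eq]
        have := card_le_card (sdiff_subset (s := L) (t := L'))
        omega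
      have h4 : q * L'.card ≤ q * (D * F.card) := by
        calc q * L'.card ≤ (R \ R1).card * L'.card := Nat.mul_le_mul_right _ h3
          _ ≤ T'.card ^ 2 * F.card := by rw [mul_comm]; exact hσ
          _ ≤ q * D * F.card := Nat.mul_le_mul_right _ hD
          _ = _ := by ring
      have h5 := Nat.le_of_mul_le_mul_left h4 hq
      have h6 := card_le_card (sdiff_subset (s := L') (t := F))
      nlinarith
    · rw [e1]
      exact Dec.cons σ hd (sdiff_disjoint.mono_left hFB) h2

theorem absorb1 {T T' : Finset V} (hT : T.card = T'.card) {L R : Finset (Sym2 V)} (hL : In T L)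
    (hR : In T' R) {q D M j : ℕ} (hq : 0 < q) (hD : T'.card ^ 2 ≤ q * D)
    (hLR : L.card + q ≤ R.card) (hM : L.card ≤ M) (hj : 0 < j) :
    ∃ R1 ⊆ R, Dec (D * M / j + j) L R1 := by
  obtain ⟨L', hL', R1, hR1, h1, h2⟩ := absorb0 hT hL hR hq hD hLR j
  have h3 : L'.card ≤ D * M / j := by
    rw [Nat.le_div_iff_mul_le hj, mul_comm]
    exact h1.trans (Nat.mul_le_mul_left _ ((card_le_card sdiff_subset).trans hM))
  have h4 : L'.card ≤ (R \ R1).card := by
    rw [card_sdiff_of_subset hR1, ← h2.card_eq, card_sdiff_of_subset hL']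
    have := card_le_card hL'
    omega
  obtain ⟨R2, hR2, h5⟩ := exists_subset_card_eq h4
  have h6 := singles L'.card (hL.mono hL').univ (hR.mono (hR2.trans sdiff_subset)).univ rfl h5
  have := h2.union h6 sdiff_disjoint (disjoint_sdiff.mono_right hR2)
  rw [sdiff_union_of_subset hL'] at this
  exact ⟨_, union_subset hR1 (hR2.trans sdiff_subset), this.mono (by omega)⟩

theorem absorb {ι : Type} [DecidableEq ι] (T : ι → Finset V) {T' : Finset V}
    (hT : ∀ i, (T i).card = T'.card) {q D M j : ℕ} (hq : 0 < q) (hD : T'.card ^ 2 ≤ q * D)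
    (hj : 0 < j) (I : Finset ι) : ∀ L R : Finset (Sym2 V), In univ L →
      (∀ e ∈ L, ∃ i ∈ I, ∀ x ∈ e, x ∈ T i) → In T' R → L.card + q ≤ R.card → L.card ≤ M →
      ∃ R1 ⊆ R, Dec (I.card * (D * M / j + j)) L R1 := by
  induction I using Finset.induction_on with
  | empty =>
    intro L R _ h _ _ _
    have : L = ∅ := eq_empty_of_forall_notMem fun e he => by simpa using h e he
    exact ⟨∅, empty_subset _, by rw [this]; exact Dec.nil _⟩
  | insert i I hi ih =>
    intro L R hL hcov hR hLR hM
    classical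
    set L1 := L.filter fun e => ∀ x ∈ e, x ∈ T i with hL1
    have hs : L1 ⊆ L := filter_subset _ _
    have hc := card_le_card hs
    obtain ⟨R1, hR1, h1⟩ := absorb1 (hT i) (L := L1) (M := M)
      (fun e he => ⟨(hL e (hs he)).1, (mem_filter.1 he).2⟩) hR hq hD (by omega) (by omega) hj
    obtain ⟨R2, hR2, h2⟩ := ih (L \ L1) (R \ R1) (hL.mono sdiff_subset)
      (by
        intro e he
        obtain ⟨he1, he2⟩ := mem_sdiff.1 he
        obtain ⟨i', hi', h⟩ := hcov e he1
        rcases mem_insert.1 hi' with rfl | hi'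
        · exact absurd (mem_filter.2 ⟨he1, h⟩) he2
        · exact ⟨i', hi', h⟩)
      (hR.mono sdiff_subset)
      (by rw [card_sdiff_of_subset hs, card_sdiff_of_subset hR1, ← h1.card_eq]; omega)
      ((card_le_card sdiff_subset).trans hM)
    have := h1.union h2 disjoint_sdiff (disjoint_sdiff.mono_right hR2)
    rw [union_sdiff_of_subset hs] at this
    refine ⟨_, union_subset hR1 (hR2.trans sdiff_subset), this.mono (le_of_eq ?_)⟩
    rw [card_insert_of_notMem hi]; ring

theorem exists_cover (n k : ℕ) (hk : 0 < k) (hs : 2 * (n / k + 1) ≤ n) :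
    ∃ T : Fin k × Fin k → Finset (Fin n), (∀ i, (T i).card = 2 * (n / k + 1)) ∧
      ∀ e : Sym2 (Fin n), ∃ i, ∀ x ∈ e, x ∈ T i := by
  set b := n / k + 1 with hb
  have hb0 : 0 < b := Nat.succ_pos _
  have hkb : n < b * k := by
    have := Nat.lt_div_mul_add (a := n) hk
    rw [hb]; nlinarith
  have h1 : ∀ i : ℕ, (univ.filter fun x : Fin n => x.val / b = i).card ≤ b := by
    intro i
    refine le_trans (card_le_card_of_injOn (t := range b) (fun x => x.val % b) ?_ ?_) (by simp)
    · intro x _; simpa using Nat.mod_lt _ hb0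
    · intro x hx y hy h
      simp only [coe_filter, mem_univ, true_and, Set.mem_ofPred_eq] at hx hy h
      apply Fin.ext
      rw [← Nat.div_add_mod x.val b, ← Nat.div_add_mod y.val b, hx, hy, h]
  have h2 : ∀ i : Fin k × Fin k, ∃ T : Finset (Fin n),
      (univ.filter fun x : Fin n => x.val / b = i.1.val) ∪
        (univ.filter fun x : Fin n => x.val / b = i.2.val) ⊆ T ∧ T.card = 2 * b := by
    intro i
    refine exists_superset_card_eq ?_ (by simpa using hs)
    have := h1 i.1.val
    have := h1 i.2.val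
    refine (card_union_le _ _).trans (by omega)
  choose T hT1 hT2 using h2
  refine ⟨T, hT2, fun e => ?_⟩
  induction e using Sym2.ind with
  | _ x y =>
  have h3 : ∀ z : Fin n, z.val / b < k := fun z => by
    rw [Nat.div_lt_iff_lt_mul hb0, mul_comm]
    exact z.2.trans hkb
  refine ⟨(⟨_, h3 x⟩, ⟨_, h3 y⟩), fun z hz => hT1 _ ?_⟩
  rcases Sym2.mem_iff.1 hz with rfl | rfl <;> simp

theorem exists_reserve {ι : Type} [Fintype ι] [Nonempty ι] (T : ι → Finset V)
    (hT : ∀ e : Sym2 V, ∃ i, ∀ x ∈ e, x ∈ T i) {E : Finset (Sym2 V)} (hE : In univ E) :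
    ∃ i, ∃ R ⊆ E, In (T i) R ∧ R.card = E.card / Fintype.card ι := by
  classical
  choose f hf using hT
  obtain ⟨i, -, hi⟩ := exists_le_card_fiber_of_mul_le_card_of_maps_to (s := E) (t := univ) (f := f)
    (n := E.card / Fintype.card ι) (fun _ _ => mem_univ _) univ_nonempty
    (by simpa using Nat.mul_div_le _ _)
  obtain ⟨R, hR, h⟩ := exists_subset_card_eq hi
  refine ⟨i, R, hR.trans (filter_subset _ _), fun e he => ?_, h⟩
  have := mem_filter.1 (hR he)
  exact ⟨(hE e this.1).1, this.2 ▸ hf e⟩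

theorem main_nat (k D n : ℕ) (hk : 4 ≤ k) (hD : 1 ≤ D) (hn : D * k ^ 3 ≤ n)
    {E E' : Finset (Sym2 (Fin n))} (hE : In univ E) (hE' : In univ E') (hc : E.card = E'.card)
    (hm : 32 * n ^ 2 ≤ D * E.card) :
    ∃ r, k * r ≤ 6 * n + (5 * k + 4 * k ^ 7 * D) ∧ Dec r E E' := by
  have hk0 : 0 < k := by omega
  have hk3 : k ≤ k ^ 3 := Nat.le_self_pow (by norm_num) _
  have hkn : k ≤ n := by nlinarith
  set b := n / k + 1 with hb
  have hb1 : k * b ≤ n + k := by
    have := Nat.mul_div_le n k
    rw [hb]; nlinarith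
  have hb2 : n < k * b := by
    have := Nat.lt_div_mul_add (a := n) hk0
    rw [hb]; nlinarith
  have hb0 : 0 < b := Nat.succ_pos _
  have hs : 2 * b ≤ n := by
    have : k * (2 * b) ≤ k * n := by nlinarith
    exact Nat.le_of_mul_le_mul_left this hk0
  obtain ⟨T, hT1, hT2⟩ := exists_cover n k hk0 hs
  rw [← hb] at hT1
  haveI : Nonempty (Fin k × Fin k) := ⟨(⟨0, hk0⟩, ⟨0, hk0⟩)⟩
  obtain ⟨i, R, hR1, hR2, hR3⟩ := exists_reserve T hT2 hE
  obtain ⟨i', R', hR1', hR2', hR3'⟩ := exists_reserve T hT2 hE'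
  rw [← hc] at hR3'
  simp only [Fintype.card_prod, Fintype.card_fin] at hR3 hR3'
  obtain ⟨L, hL, L', hL', h1, h2, h3⟩ := reduce (T := univ) (T' := univ) rfl
    (hE.mono (sdiff_subset (t := R))) (hE'.mono (sdiff_subset (t := R')))
    (by rw [card_sdiff_of_subset hR1, card_sdiff_of_subset hR1', hc, hR3, hR3']) b
  simp only [card_univ, Fintype.card_fin] at h2
  have hM : L.card ≤ k * n := by
    have : L.card * b ≤ k * n * b := by nlinarith
    exact Nat.le_of_mul_le_mul_right this hb0
  set ρ := E.card / (k * k) with hρ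
  have hρ1 : E.card < ρ * (k * k) + k * k := Nat.lt_div_mul_add (by positivity)
  have hρ2 : 16 * n ^ 2 + k * k * (D * (k * n)) ≤ k * k * (D * ρ) := by
    have a1 : D * E.card ≤ D * (ρ * (k * k) + k * k) := Nat.mul_le_mul_left _ hρ1.le
    have a2 : D * k ^ 3 * n ≤ n * n := Nat.mul_le_mul_right _ hn
    have a3 : D * (k * k) ≤ n * n := by
      have : k * k ≤ k ^ 3 := by nlinarith
      have : D * (k * k) ≤ n := le_trans (Nat.mul_le_mul_left _ this) hn
      nlinarith
    nlinarith
  have hρ3 : k * n < ρ := by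
    by_contra hcon
    have : k * k * (D * ρ) ≤ k * k * (D * (k * n)) := by gcongr; omega
    have : 0 < n ^ 2 := by have : 0 < n := by omega
                           positivity
    omega
  obtain ⟨q, hq⟩ := Nat.exists_eq_add_of_le hρ3.le
  have hq0 : 0 < q := by omega
  have hqD : (2 * b) ^ 2 ≤ q * D := by
    have : k * k * (2 * b) ^ 2 ≤ k * k * (q * D) := by
      rw [hq] at hρ2
      have a1 : (k * b) ^ 2 ≤ (2 * n) ^ 2 := Nat.pow_le_pow_left (by omega) 2
      nlinarith
    exact Nat.le_of_mul_le_mul_left this (by positivity)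
  have hj : 0 < 2 * k ^ 4 * D := by positivity
  obtain ⟨R1', hR1s', d1⟩ := absorb T (T' := T i') (fun a => by rw [hT1, hT1]) hq0
    (by rw [hT1]; exact hqD) (M := k * n) hj univ L R' (hE.mono (hL.trans sdiff_subset))
    (fun e _ => by simpa using hT2 e) hR2' (by omega) hM
  obtain ⟨R1, hR1s, d2⟩ := absorb T (T' := T i) (fun a => by rw [hT1, hT1]) hq0
    (by rw [hT1]; exact hqD) (M := k * n) hj univ L' R (hE'.mono (hL'.trans sdiff_subset))
    (fun e _ => by simpa using hT2 e) hR2 (by omega) (by omega)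
  have d3 := full (T := T i) (T' := T i') (by rw [hT1, hT1]) (by rw [hT1]; omega)
    (hR2.mono (sdiff_subset (t := R1))) (hR2'.mono (sdiff_subset (t := R1')))
    (by rw [card_sdiff_of_subset hR1s, card_sdiff_of_subset hR1s', ← d1.card_eq, ← d2.card_eq,
      hR3, hR3', h1])
  rw [hT1] at d3
  simp only [card_univ, Fintype.card_prod, Fintype.card_fin] at d1 d2
  have hLR : Disjoint L R := sdiff_disjoint.mono_left hL
  have hLR' : Disjoint L' R' := sdiff_disjoint.mono_left hL'
  have d4 := d1.union d2.symm (hLR.mono_right hR1s) (hLR'.mono_right hR1s').symm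
  have d5 := d4.union d3
    (disjoint_union_left.2 ⟨hLR.mono_right sdiff_subset, disjoint_sdiff⟩)
    (disjoint_union_left.2 ⟨disjoint_sdiff, hLR'.mono_right sdiff_subset⟩)
  have e1 : L ∪ R1 ∪ R \ R1 = L ∪ R := by rw [union_assoc, union_sdiff_of_subset hR1s]
  have e2 : R1' ∪ L' ∪ R' \ R1' = L' ∪ R' := by
    rw [union_comm R1', union_assoc, union_sdiff_of_subset hR1s']
  rw [e1, e2] at d5
  have d6 := h3.union d5
    (disjoint_union_right.2 ⟨sdiff_disjoint, sdiff_disjoint.mono_left sdiff_subset⟩)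
    (disjoint_union_right.2 ⟨sdiff_disjoint, sdiff_disjoint.mono_left sdiff_subset⟩)
  rw [← union_assoc, ← union_assoc, sdiff_union_of_subset hL, sdiff_union_of_subset hL',
    sdiff_union_of_subset hR1, sdiff_union_of_subset hR1'] at d6
  refine ⟨_, ?_, d6⟩
  have a1 := Nat.mul_div_le (D * (k * n)) (2 * k ^ 4 * D)
  generalize D * (k * n) / (2 * k ^ 4 * D) = w at *
  have a2 : 2 * k ^ 3 * w ≤ n := by
    have : (k * D) * (2 * k ^ 3 * w) ≤ (k * D) * n := by nlinarith
    exact Nat.le_of_mul_le_mul_left this (by positivity)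
  nlinarith

end Pool.Agent.H32.UDec
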