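import Mathlib

set_option autoImplicit false

namespace Pool.Agent.H32.UncB

open Filter Topology BoundedContinuousFunction

variable {X : Type} [NormedAddCommGroup X] [NormedSpace ℝ X]

theorem bdd_sums [CompleteSpace X] {f : ℕ → X} {x : X} (h : HasSum f x) : ∃ C : ℝ, ∀ A : Finset ℕ, ‖∑ n ∈ A, f n‖ ≤ C := by
  classical
  obtain ⟨A₀, hA₀⟩ := summable_iff_vanishing_norm.mp h.summable 1 one_pos
  refine ⟨∑ n ∈ A₀, ‖f n‖ + 1, fun A => ?_⟩
  rw [← Finset.sum_inter_add_sum_sdiff A A₀]
  refine (norm_add_le _ _).trans (add_le_add ?_ (hA₀ _ Finset.sdiff_disjoint).le)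
  refine (norm_sum_le _ _).trans ?_
  exact Finset.sum_le_sum_of_subset_of_nonneg Finset.inter_subset_right (fun _ _ _ => norm_nonneg _)

/-- index type with the discrete topology -/
def I : Type := Finset ℕ
instance : TopologicalSpace I := ⊥
instance : DiscreteTopology I := ⟨rfl⟩

/-- Banach's theorem: coordinate functionals of an unconditional basis are continuous and the
finite projections are uniformly bounded. -/
theorem coords [CompleteSpace X] (e : ℕ → X)
    (he : ∀ x : X, ∃! a : ℕ → ℝ, HasSum (fun n => a n • e n) x) :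
    ∃ (c : ℕ → X →L[ℝ] ℝ) (K : ℝ), (∀ x, HasSum (fun n => c n x • e n) x) ∧
      (∀ n, e n ≠ 0) ∧ ∀ (A : Finset ℕ) (x : X), ‖∑ n ∈ A, c n x • e n‖ ≤ K * ‖x‖ := by
  classical
  choose a ha hu using he
  have hne : ∀ n, e n ≠ 0 := by
    intro n h0
    have h1 : HasSum (fun m => (Pi.single n (1 : ℝ) : ℕ → ℝ) m • e m) 0 := by
      have : (fun m => (Pi.single n (1 : ℝ) : ℕ → ℝ) m • e m) = fun _ => 0 := by
        funext m
        by_cases hm : m = n
        · rw [hm, h0, smul_zero]
        · rw [Pi.single_eq_of_ne hm, zero_smul]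
      rw [this]
      exact hasSum_zero
    have h2 : HasSum (fun m => (0 : ℕ → ℝ) m • e m) 0 := by
      simpa using (hasSum_zero : HasSum (fun _ : ℕ => (0 : X)) 0)
    have h3 := (hu 0 _ h1).trans (hu 0 _ h2).symm
    have := congrFun h3 n
    simp at this
  have hadd : ∀ x y, a (x + y) = a x + a y := by
    intro x y
    refine (hu (x + y) _ ?_).symm
    simpa [add_smul] using (ha x).add (ha y)
  have hsmul : ∀ (t : ℝ) x, a (t • x) = t • a x := by
    intro t x
    refine (hu (t • x) _ ?_).symm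
    simpa [mul_smul] using (ha x).const_smul t
  have hb : ∀ x, ∃ C : ℝ, ∀ A B : I, dist (∑ n ∈ (show Finset ℕ from A), a x n • e n)
      (∑ n ∈ (show Finset ℕ from B), a x n • e n) ≤ C := by
    intro x
    obtain ⟨C, hC⟩ := bdd_sums (ha x)
    refine ⟨C + C, fun A B => ?_⟩
    rw [dist_eq_norm]
    exact (norm_sub_le _ _).trans (add_le_add (hC _) (hC _))
  let S : X →ₗ[ℝ] (I →ᵇ X) :=
    { toFun := fun x => ⟨⟨fun A => ∑ n ∈ (show Finset ℕ from A), a x n • e n,
        continuous_of_discreteTopology⟩, hb x⟩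
      map_add' := by
        intro x y
        ext A
        simp [hadd, add_smul, Finset.sum_add_distrib]
      map_smul' := by
        intro t x
        ext A
        simp [hsmul, mul_smul, Finset.smul_sum] }
  have hS : ∀ x (A : Finset ℕ), S x (show I from A) = ∑ n ∈ A, a x n • e n := fun _ _ => rfl
  have hcont : Continuous S := by
    apply LinearMap.continuous_of_seq_closed_graph
    intro u x F hx hF
    have hpt : ∀ A : Finset ℕ, Tendsto (fun k => ∑ n ∈ A, a (u k) n • e n) atTop
        (𝓝 (F (show I from A))) := by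
      intro A
      exact ((continuous_eval_const (show I from A)).tendsto F).comp hF
    have h1 : ∀ n, ∃ t : ℝ, t • e n = F (show I from ({n} : Finset ℕ)) := by
      intro n
      rw [← Submodule.mem_span_singleton]
      have hcl : IsClosed ((Submodule.span ℝ {e n} : Submodule ℝ X) : Set X) :=
        Submodule.closed_of_finiteDimensional _
      refine hcl.mem_of_tendsto (hpt {n}) (Eventually.of_forall fun k => ?_)
      rw [Finset.sum_singleton]
      exact Submodule.smul_mem _ _ (Submodule.mem_span_singleton_self _)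
    choose t ht using h1
    have h2 : ∀ A : Finset ℕ, F (show I from A) = ∑ n ∈ A, t n • e n := by
      intro A
      refine tendsto_nhds_unique (hpt A) (tendsto_finset_sum _ fun n _ => ?_)
      rw [ht]
      simpa using hpt {n}
    have h3 : HasSum (fun n => t n • e n) x := by
      rw [HasSum, Metric.tendsto_nhds]
      intro ε hε
      have e1 := (Metric.tendsto_nhds.mp hx) (ε / 3) (by positivity)
      have e2 := (Metric.tendsto_nhds.mp hF) (ε / 3) (by positivity)
      obtain ⟨k, hk1, hk2⟩ := (e1.and e2).exists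
      have e3 := (Metric.tendsto_nhds.mp (ha (u k))) (ε / 3) (by positivity)
      filter_upwards [e3] with A hA
      have e4 : dist (S (u k) (show I from A)) (F (show I from A)) ≤ dist (S (u k)) F :=
        BoundedContinuousFunction.dist_coe_le_dist _
      rw [hS, h2] at e4
      have e5 := dist_triangle4 (∑ n ∈ A, t n • e n) (∑ n ∈ A, a (u k) n • e n) (u k) x
      rw [dist_comm] at e4
      simp only [Function.comp] at hk2
      linarith
    have h4 := hu x t h3
    ext A
    rw [h4] at h2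
    exact h2 A
  let S' : X →L[ℝ] (I →ᵇ X) := ⟨S, hcont⟩
  have hK : ∀ (A : Finset ℕ) (x : X), ‖∑ n ∈ A, a x n • e n‖ ≤ ‖S'‖ * ‖x‖ := by
    intro A x
    rw [← hS]
    exact ((S x).norm_coe_le_norm _).trans (S'.le_opNorm x)
  let c : ℕ → X →L[ℝ] ℝ := fun n => LinearMap.mkContinuous
    { toFun := fun x => a x n
      map_add' := by intro x y; simp [hadd]
      map_smul' := by intro t x; simp [hsmul] } (‖S'‖ / ‖e n‖) (by
      intro x
      have := hK {n} x
      rw [Finset.sum_singleton, norm_smul] at this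
      have hp : 0 < ‖e n‖ := norm_pos_iff.mpr (hne n)
      show ‖a x n‖ ≤ _
      rw [div_mul_eq_mul_div, le_div_iff₀ hp]
      exact this)
  exact ⟨c, ‖S'‖, ha, hne, hK⟩

theorem zero_scd [CompleteSpace X] (e : ℕ → X)
    (he : ∀ x : X, ∃! a : ℕ → ℝ, HasSum (fun n => a n • e n) x) :
    ∃ (f : ℕ → (X →L[ℝ] ℝ)) (α : ℕ → ℝ),
            (∀ n, f n ≠ 0 ∧ 0 < α n) ∧
            ∀ y : ℕ → X,
              (∀ n, y n ∈ Metric.closedBall (0 : X) 1 ∧ ‖f n‖ - α n < f n (y n)) →
              (0 : X) ∈ closure (convexHull ℝ (Set.range y)) := by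
  classical
  obtain ⟨c, K, hc, hne, hK⟩ := coords e he
  obtain ⟨f0, hf0⟩ := SeparatingDual.exists_ne_zero (R := ℝ) (hne 0)
  have hf0' : f0 ≠ 0 := by
    intro h
    rw [h] at hf0
    exact hf0 rfl
  have hsep : TopologicalSpace.IsSeparable (Submodule.span ℝ (Set.range c) : Set (X →L[ℝ] ℝ)) :=
    (Set.countable_range c).isSeparable.span
  obtain ⟨D, hD, hDc⟩ := hsep
  obtain ⟨u, hu⟩ := (hD.insert 0).exists_eq_range (Set.insert_nonempty _ _)
  refine ⟨fun n => if u (Nat.unpair n).1 = 0 then f0 else u (Nat.unpair n).1,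
    fun n => 1 / (((Nat.unpair n).2 : ℝ) + 1), fun n => ⟨?_, by positivity⟩, ?_⟩
  · dsimp only
    split_ifs with h
    · exact hf0'
    · exact h
  intro y hy
  by_contra h0
  obtain ⟨g, δ, hg1, hg2⟩ := geometric_hahn_banach_point_closed
    (convex_convexHull ℝ (Set.range y)).closure isClosed_closure h0
  rw [map_zero] at hg1
  have hgy : ∀ n, δ < g (y n) := fun n =>
    hg2 _ (subset_closure (subset_convexHull ℝ _ ⟨n, rfl⟩))
  have hy1 : ∀ n, ‖y n‖ ≤ 1 := fun n => by simpa using (hy n).1
  let G : Finset ℕ → X →L[ℝ] ℝ := fun A => ∑ n ∈ A, g (e n) • c n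
  have hG : ∀ A x, G A x = g (∑ n ∈ A, c n x • e n) := by
    intro A x
    simp [G, mul_comm]
  have hGb : ∀ A, ‖G A‖ ≤ ‖g‖ * |K| := by
    intro A
    refine ContinuousLinearMap.opNorm_le_bound _ (by positivity) fun x => ?_
    rw [hG]
    refine (g.le_opNorm _).trans ?_
    rw [mul_assoc]
    refine mul_le_mul_of_nonneg_left ((hK A x).trans ?_) (norm_nonneg _)
    exact mul_le_mul_of_nonneg_right (le_abs_self K) (norm_nonneg _)
  have step : ∀ B : Finset ℕ, ∃ A : Finset ℕ, ‖G B‖ + δ / 2 ≤ ‖G A‖ := by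
    intro B
    have hmem : -G B ∈ closure D := by
      apply hDc
      refine Submodule.neg_mem _ (Submodule.sum_mem _ fun n _ => Submodule.smul_mem _ _ ?_)
      exact Submodule.subset_span ⟨n, rfl⟩
    obtain ⟨v, hv, hvd⟩ := Metric.mem_closure_iff.mp hmem (δ / 6) (by positivity)
    have hv' : v ∈ Set.range u := hu ▸ Set.mem_insert_of_mem _ hv
    obtain ⟨i, rfl⟩ := hv'
    obtain ⟨j, hj⟩ := exists_nat_one_div_lt (show 0 < δ / 6 by positivity)
    have hyy := (hy (Nat.pair i j)).2
    simp only [Nat.unpair_pair] at hyy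
    set z := y (Nat.pair i j) with hz
    have hz1 : ‖z‖ ≤ 1 := hy1 _
    have hz2 : δ < g z := hgy _
    have hz3 : ‖u i‖ - δ / 6 < u i z := by
      by_cases h : u i = 0
      · rw [h]
        simp only [norm_zero, ContinuousLinearMap.zero_apply]
        linarith
      · rw [if_neg h] at hyy
        linarith
    rw [dist_eq_norm] at hvd
    have h1 : ‖G B‖ ≤ ‖u i‖ + δ / 6 := by
      have := norm_add_le (-G B - u i) (u i)
      rw [sub_add_cancel, norm_neg] at this
      linarith
    have h2 : u i z - δ / 6 ≤ - G B z := by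
      have e1 : ‖(-G B - u i) z‖ ≤ ‖-G B - u i‖ * ‖z‖ := (-G B - u i).le_opNorm z
      have e2 : ‖-G B - u i‖ * ‖z‖ ≤ ‖-G B - u i‖ := mul_le_of_le_one_right (norm_nonneg _) hz1
      have e3 := neg_abs_le ((-G B - u i) z)
      rw [Real.norm_eq_abs] at e1
      simp only [ContinuousLinearMap.sub_apply, ContinuousLinearMap.neg_apply] at e1 e3
      linarith
    have h3 : Tendsto (fun A => G A z) atTop (𝓝 (g z)) := by
      simp only [hG]
      exact (g.continuous.tendsto z).comp (hc z)
    obtain ⟨A, hA1, hA2⟩ := ((h3.eventually (lt_mem_nhds hz2)).and (eventually_ge_atTop B)).exists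
    refine ⟨A \ B, ?_⟩
    have h4 : G (A \ B) z = G A z - G B z := by
      simp only [G, ContinuousLinearMap.sum_apply]
      rw [Finset.sum_sdiff_eq_sub hA2]
    have h5 : G (A \ B) z ≤ ‖G (A \ B)‖ := by
      have e1 := (G (A \ B)).le_opNorm z
      have e2 : ‖G (A \ B)‖ * ‖z‖ ≤ ‖G (A \ B)‖ := mul_le_of_le_one_right (norm_nonneg _) hz1
      have e3 := le_abs_self (G (A \ B) z)
      rw [Real.norm_eq_abs] at e1
      linarith
    linarith
  have grow : ∀ k : ℕ, ∃ A, k * (δ / 2) ≤ ‖G A‖ := by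
    intro k
    induction k with
    | zero => exact ⟨∅, by simp⟩
    | succ k ih =>
      obtain ⟨B, hB⟩ := ih
      obtain ⟨A, hA⟩ := step B
      refine ⟨A, ?_⟩
      push_cast
      linarith
  obtain ⟨k, hk⟩ := exists_nat_gt (‖g‖ * |K| / (δ / 2))
  obtain ⟨A, hA⟩ := grow k
  rw [div_lt_iff₀ (by positivity)] at hk
  linarith [hGb A]

end Pool.Agent.H32.UncB
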