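import Mathlib

namespace Pool.Agent.H32.VC

open Finset

theorem shatter_le {α κ : Type} [Fintype α] [DecidableEq α] [Fintype κ] (u : α → κ → ℝ)
    (𝒜 : Finset (Finset α)) (h𝒜 : ∀ X ∈ 𝒜, ∃ w : κ → ℝ, ∀ a, a ∈ X ↔ ∑ k, u a k * w k ≤ 0)
    (s : Finset α) (hs : 𝒜.Shatters s) : s.card ≤ Fintype.card κ := by
  classical
  by_contra hc
  have hn : ¬ LinearIndependent ℝ (fun a : s => u a) := by
    intro h
    have := h.fintype_card_le_finrank
    simp at this
    exact hc this
  have key : ∀ g : s → ℝ, ∑ i, g i • u i = 0 → ∀ i, ¬ 0 < g i := by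
    intro g hg i hi
    obtain ⟨X, hX, e⟩ := hs (t := s.filter fun a => ∀ h : a ∈ s, g ⟨a, h⟩ ≤ 0) (filter_subset _ _)
    obtain ⟨w, hw⟩ := h𝒜 X hX
    have mem : ∀ j : s, (∑ k, u j k * w k ≤ 0) ↔ g j ≤ 0 := by
      intro j
      rw [← hw]
      have := congrArg (fun t => (j : α) ∈ t) e
      simp only [mem_inter, mem_filter, j.2, true_and, forall_true_left, eq_iff_iff] at this
      exact this
    have h0 : ∑ j : s, g j * ∑ k, u j k * w k = 0 := by
      simp only [mul_sum]
      rw [sum_comm]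
      refine sum_eq_zero fun k _ => ?_
      have := congrFun hg k
      simp only [Finset.sum_apply, Pi.smul_apply, smul_eq_mul, Pi.zero_apply] at this
      calc ∑ j : s, g j * (u j k * w k) = (∑ j : s, g j * u j k) * w k := by
            rw [sum_mul]; exact sum_congr rfl fun j _ => by ring
        _ = 0 := by rw [this, zero_mul]
    have h1 : 0 < ∑ j : s, g j * ∑ k, u j k * w k := by
      refine sum_pos' (fun j _ => ?_) ⟨i, mem_univ _, ?_⟩
      · by_cases hj : g j ≤ 0
        · exact mul_nonneg_of_nonpos_of_nonpos hj ((mem j).2 hj)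
        · have := mt (mem j).1 hj
          exact mul_nonneg (by linarith) (by linarith)
      · have := mt (mem i).1 (by linarith)
        exact mul_pos hi (by linarith)
    linarith
  obtain ⟨g, hg, i, hi⟩ := Fintype.not_linearIndependent_iff.1 hn
  rcases lt_or_gt_of_ne hi with h | h
  · refine key (fun j => - g j) ?_ i (by simpa using h)
    simp only [neg_smul, sum_neg_distrib, hg, neg_zero]
  · exact key g hg i h

theorem card_le {κ : Type} [Fintype κ] (n D : ℕ) (hD : Fintype.card κ ≤ D) (u : Fin n → κ → ℝ)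
    (𝒜 : Finset (Finset (Fin n)))
    (h𝒜 : ∀ X ∈ 𝒜, ∃ w : κ → ℝ, ∀ a, a ∈ X ↔ ∑ k, u a k * w k ≤ 0) :
    𝒜.card ≤ (D + 1) * (n + 1) ^ D := by
  have h1 := card_le_card_shatterer 𝒜
  have h2 := card_shatterer_le_sum_vcDim (𝒜 := 𝒜)
  have h3 : 𝒜.vcDim ≤ D := by
    unfold vcDim
    exact Finset.sup_le fun s hs => (shatter_le u 𝒜 h𝒜 s (mem_shatterer.1 hs)).trans hD
  have h4 : ∑ k ∈ Iic 𝒜.vcDim, (Fintype.card (Fin n)).choose k ≤ ∑ k ∈ Iic 𝒜.vcDim, (n + 1) ^ D := by
    refine sum_le_sum fun k hk => ?_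
    rw [Fintype.card_fin]
    calc n.choose k ≤ n ^ k := Nat.choose_le_pow n k
      _ ≤ (n + 1) ^ k := Nat.pow_le_pow_left (by omega) k
      _ ≤ (n + 1) ^ D := Nat.pow_le_pow_right (by omega) ((mem_Iic.1 hk).trans h3)
  rw [sum_const, Nat.card_Iic, smul_eq_mul] at h4
  calc _ ≤ _ := h1
    _ ≤ _ := h2
    _ ≤ _ := h4
    _ ≤ _ := Nat.mul_le_mul_right _ (by omega)

theorem exists_n (D : ℕ) : ∃ n : ℕ, ((D + 1) * (n + 1) ^ D) ^ 2 < 2 ^ n := by
  have h := tendsto_pow_const_div_const_pow_of_one_lt (2 * D) (r := 2) (by norm_num)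
  have h2 := (h.eventually (gt_mem_nhds (show (0 : ℝ) < 1 / (2 * ((D : ℝ) + 1) ^ 2) by positivity))).and
    (Filter.eventually_ge_atTop 1)
  obtain ⟨m, hm, hm1⟩ := h2.exists
  obtain ⟨n, rfl⟩ : ∃ n, m = n + 1 := ⟨m - 1, by omega⟩
  refine ⟨n, ?_⟩
  rw [div_lt_div_iff₀ (by positivity) (by positivity)] at hm
  have : ((((D + 1) * (n + 1) ^ D) ^ 2 : ℕ) : ℝ) < ((2 ^ n : ℕ) : ℝ) := by
    push_cast at hm ⊢
    rw [mul_pow, ← pow_mul, mul_comm D 2]
    rw [pow_succ (2 : ℝ) n] at hm
    nlinarith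
  exact_mod_cast this

theorem two_half (D : ℕ) : ∃ n : ℕ, ∀ (κ : Type) [Fintype κ], Fintype.card κ ≤ D →
    ∀ u : Fin n → κ → ℝ, ¬ ∀ X : Finset (Fin n), ∃ w w' : κ → ℝ,
      ∀ a, a ∈ X ↔ (∑ k, u a k * w k ≤ 0 ∧ ∑ k, u a k * w' k ≤ 0) := by
  classical
  obtain ⟨n, hn⟩ := exists_n D
  refine ⟨n, fun κ _ hD u h => ?_⟩
  let 𝒜 : Finset (Finset (Fin n)) :=
    univ.filter fun X => ∃ w : κ → ℝ, ∀ a, a ∈ X ↔ ∑ k, u a k * w k ≤ 0
  have h1 := card_le n D hD u 𝒜 (fun X hX => (mem_filter.1 hX).2)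
  have h2 : (univ : Finset (Finset (Fin n))) ⊆ (𝒜 ×ˢ 𝒜).image fun p => p.1 ∩ p.2 := by
    intro X _
    obtain ⟨w, w', hw⟩ := h X
    refine mem_image.2 ⟨(univ.filter fun a => ∑ k, u a k * w k ≤ 0,
      univ.filter fun a => ∑ k, u a k * w' k ≤ 0), mem_product.2 ⟨?_, ?_⟩, ?_⟩
    · exact mem_filter.2 ⟨mem_univ _, w, fun a => by simp⟩
    · exact mem_filter.2 ⟨mem_univ _, w', fun a => by simp⟩
    · ext a
      simp [hw a]
  have h3 := (card_le_card h2).trans card_image_le
  rw [card_product, card_univ, Fintype.card_finset, Fintype.card_fin] at h3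
  have h4 := Nat.mul_le_mul h1 h1
  rw [sq] at hn
  omega

theorem sphere_inter {E : Type} [NormedAddCommGroup E] [InnerProductSpace ℝ E]
    (hE : 1 < Module.rank ℝ E) (c c' : E) (r r' : ℝ) (hr : 0 < r) (hr' : 0 < r') :
    (Metric.sphere c r ∩ Metric.sphere c' r').Nonempty ↔
      (‖c - c'‖ ^ 2 ≤ (r + r') ^ 2 ∧ (r - r') ^ 2 ≤ ‖c - c'‖ ^ 2) := by
  have hD := norm_nonneg (c - c')
  constructor
  · rintro ⟨x, h1, h2⟩
    rw [Metric.mem_sphere] at h1 h2
    have t1 := dist_triangle_left c c' x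
    have t2 := dist_triangle x c c'
    have t3 := dist_triangle x c' c
    rw [dist_comm c' c] at t3
    rw [dist_eq_norm c c'] at t1 t2 t3
    constructor <;> nlinarith
  · rintro ⟨h1, h2⟩
    have k1 : ‖c - c'‖ ≤ r + r' := by nlinarith
    have k2 : r - r' ≤ ‖c - c'‖ := by nlinarith
    have k3 : r' - r ≤ ‖c - c'‖ := by nlinarith
    obtain ⟨v, hv1, hv2⟩ : ∃ v : E, ‖v‖ = 1 ∧ c - c' = ‖c - c'‖ • v := by
      by_cases h : c - c' = 0
      · haveI : Nontrivial E := rank_pos_iff_nontrivial.1 (lt_trans zero_lt_one hE)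
        obtain ⟨v, hv⟩ := exists_norm_eq E (zero_le_one)
        exact ⟨v, hv, by simp [h]⟩
      · refine ⟨‖c - c'‖⁻¹ • (c - c'), norm_smul_inv_norm h, ?_⟩
        rw [smul_smul, mul_inv_cancel₀ (norm_ne_zero_iff.2 h), one_smul]
    have hp := isPreconnected_sphere hE c r
    have m1 : c - r • v ∈ Metric.sphere c r := by
      simp [norm_smul, hv1, abs_of_pos hr]
    have m2 : c + r • v ∈ Metric.sphere c r := by
      simp [norm_smul, hv1, abs_of_pos hr]
    have iv := hp.intermediate_value m1 m2 (f := fun x => ‖x - c'‖) (by fun_prop)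
    have e1 : ‖c - r • v - c'‖ = |‖c - c'‖ - r| := by
      have : c - r • v - c' = (‖c - c'‖ - r) • v := by
        rw [sub_smul, ← hv2]; abel
      rw [this, norm_smul, hv1, mul_one, Real.norm_eq_abs]
    have e2 : ‖c + r • v - c'‖ = |‖c - c'‖ + r| := by
      have : c + r • v - c' = (‖c - c'‖ + r) • v := by
        rw [add_smul, ← hv2]; abel
      rw [this, norm_smul, hv1, mul_one, Real.norm_eq_abs]
    obtain ⟨x, hx1, hx2⟩ := iv (a := r') ⟨by
      show ‖c - r • v - c'‖ ≤ r'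
      rw [e1, abs_le]; constructor <;> linarith, by
      show r' ≤ ‖c + r • v - c'‖
      rw [e2, abs_of_nonneg (by linarith)]; linarith⟩
    exact ⟨x, hx1, by rw [mem_sphere_iff_norm]; exact hx2⟩

def ell (c d p : ℂ) : ℝ := (d.re - c.re) * (p.im - c.im) - (d.im - c.im) * (p.re - c.re)

theorem chord (a b c d : ℂ) (ha : ‖a‖ = 1) (hb : ‖b‖ = 1) (hc : ‖c‖ = 1) (hd : ‖d‖ = 1)
    (hcd : c ≠ d) :
    (segment ℝ a b ∩ segment ℝ c d).Nonempty ↔ ell c d a * ell c d b ≤ 0 := by
  have lin : ∀ s t : ℝ, s + t = 1 → ell c d (s • a + t • b) = s * ell c d a + t * ell c d b := by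
    intro s t h
    have : t = 1 - s := by linarith
    subst this
    simp [ell]
    ring
  constructor
  · rintro ⟨p, ⟨s, t, hs, ht, hst, e1⟩, ⟨s', t', hs', ht', hst', e2⟩⟩
    have h0 : ell c d p = 0 := by
      have : s' = 1 - t' := by linarith
      subst this
      rw [← e2]
      simp [ell]
      ring
    rw [← e1, lin s t hst] at h0
    by_contra hc
    push Not at hc
    rcases pos_and_pos_or_neg_and_neg_of_mul_pos hc with ⟨h1, h2⟩ | ⟨h1, h2⟩
    · nlinarith [mul_nonneg hs h1.le, mul_nonneg ht h2.le]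
    · nlinarith [mul_nonneg hs (neg_pos.2 h1).le, mul_nonneg ht (neg_pos.2 h2).le]
  · intro h
    obtain ⟨s, t, hs, ht, hst, h0⟩ : ∃ s t : ℝ, 0 ≤ s ∧ 0 ≤ t ∧ s + t = 1 ∧
        s * ell c d a + t * ell c d b = 0 := by
      generalize ell c d a = x at h
      generalize ell c d b = y at h
      rcases lt_trichotomy x y with hxy | hxy | hxy
      · have hx : x ≤ 0 := by nlinarith
        have hy : 0 ≤ y := by nlinarith
        have : 0 < y - x := by linarith
        exact ⟨y / (y - x), -x / (y - x), by positivity, div_nonneg (by linarith) this.le,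
          by field_simp; ring, by field_simp; ring⟩
      · subst hxy
        exact ⟨1, 0, by norm_num, by norm_num, by norm_num, by nlinarith⟩
      · have hx : 0 ≤ x := by nlinarith
        have hy : y ≤ 0 := by nlinarith
        have : 0 < x - y := by linarith
        exact ⟨-y / (x - y), x / (x - y), div_nonneg (by linarith) this.le, by positivity,
          by field_simp; ring, by field_simp; ring⟩
    rw [← lin s t hst] at h0
    have hp : ‖s • a + t • b‖ ≤ 1 := by
      calc _ ≤ ‖s • a‖ + ‖t • b‖ := norm_add_le _ _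
        _ = 1 := by rw [norm_smul, norm_smul, ha, hb, Real.norm_of_nonneg hs, Real.norm_of_nonneg ht]; linarith
    refine ⟨s • a + t • b, ⟨s, t, hs, ht, hst, rfl⟩, ?_⟩
    generalize s • a + t • b = p at h0 hp
    have nc : c.re ^ 2 + c.im ^ 2 = 1 := by
      have := Complex.sq_norm c
      rw [hc, Complex.normSq_apply] at this
      nlinarith
    have nd : d.re ^ 2 + d.im ^ 2 = 1 := by
      have := Complex.sq_norm d
      rw [hd, Complex.normSq_apply] at this
      nlinarith
    have np : p.re ^ 2 + p.im ^ 2 ≤ 1 := by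
      have := Complex.sq_norm p
      rw [Complex.normSq_apply] at this
      nlinarith [norm_nonneg p]
    have hN : 0 < (d.re - c.re) ^ 2 + (d.im - c.im) ^ 2 := by
      by_contra hh
      apply hcd
      apply Complex.ext <;> nlinarith [sq_nonneg (d.re - c.re), sq_nonneg (d.im - c.im)]
    obtain ⟨l, hl1, hl2⟩ : ∃ l : ℝ, p.re = c.re + l * (d.re - c.re) ∧ p.im = c.im + l * (d.im - c.im) := by
      refine ⟨((p.re - c.re) * (d.re - c.re) + (p.im - c.im) * (d.im - c.im)) /
        ((d.re - c.re) ^ 2 + (d.im - c.im) ^ 2), ?_, ?_⟩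
      · unfold ell at h0
        field_simp
        linear_combination (-(d.im - c.im)) * h0
      · unfold ell at h0
        field_simp
        linear_combination (d.re - c.re) * h0
    have hq : l * (l - 1) * ((d.re - c.re) ^ 2 + (d.im - c.im) ^ 2) ≤ 0 := by
      rw [hl1, hl2] at np
      have : (c.re + l * (d.re - c.re)) ^ 2 + (c.im + l * (d.im - c.im)) ^ 2 =
          1 + l * (l - 1) * ((d.re - c.re) ^ 2 + (d.im - c.im) ^ 2) := by
        linear_combination (1 - l) * nc + l * nd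
      linarith
    have hq2 : l * (l - 1) ≤ 0 := by
      by_contra hh
      push Not at hh
      have := mul_pos hh hN
      linarith
    refine ⟨1 - l, l, by nlinarith, by nlinarith, by ring, ?_⟩
    apply Complex.ext
    · simp [hl1]; ring
    · simp [hl2]; ring

end Pool.Agent.H32.VC
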