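import Mathlib

namespace Pool.Agent.H32.WordRep

open List

variable {V : Type*} [DecidableEq V]

def R {τ : Type*} (f g : τ → ℕ) : Prop := ∀ t, g t ≤ f t ∧ f t ≤ g t + 1

def P (x y : V) (w : List V) : Prop :=
  ∀ p, p <+: w → p.count y ≤ p.count x ∧ p.count x ≤ p.count y + 1

theorem P_cons (x y a : V) (w : List V) : P x y (a :: w) ↔
    ∀ p, p <+: w → (a :: p).count y ≤ (a :: p).count x ∧ (a :: p).count x ≤ (a :: p).count y + 1 := by
  constructor
  · intro h p hp
    exact h _ ((List.prefix_cons_inj a).2 hp)
  · intro h p hp
    rcases List.prefix_cons_iff.1 hp with rfl | ⟨t, rfl, ht⟩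
    · simp
    · exact h t ht

theorem chain_iff (q : V → Bool) (w : List V) : ∀ x y : V, x ≠ y → (∀ z, q z = true ↔ z = x ∨ z = y) →
    ((y :: w.filter q).IsChain (· ≠ ·) ↔ P x y w) := by
  induction w with
  | nil =>
    intro x y _ _
    simp [P]
  | cons a w ih =>
    intro x y hxy hq
    rw [P_cons]
    by_cases h1 : a = x
    · subst h1
      rw [List.filter_cons_of_pos ((hq a).2 (Or.inl rfl)), List.isChain_cons_cons,
        ih y a hxy.symm (fun z => by rw [hq, or_comm])]
      simp only [List.count_cons_self, List.count_cons_of_ne hxy]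
      constructor
      · intro h p hp
        have := h.2 p hp
        omega
      · intro h
        refine ⟨hxy.symm, fun p hp => ?_⟩
        have := h p hp
        omega
    by_cases h2 : a = y
    · subst h2
      rw [List.filter_cons_of_pos ((hq a).2 (Or.inr rfl)), List.isChain_cons_cons]
      constructor
      · intro h; exact absurd rfl h.1
      · intro h
        have := h [] List.nil_prefix
        simp [List.count_cons_of_ne hxy.symm] at this
    · rw [List.filter_cons_of_neg (by rw [hq]; tauto), ih x y hxy hq]
      simp only [List.count_cons_of_ne h1, List.count_cons_of_ne h2]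
      rfl

theorem alt_iff (w : List V) (x y : V) (hxy : x ≠ y) :
    (w.filter fun z => z = x ∨ z = y).IsChain (· ≠ ·) ↔ P x y w ∨ P y x w := by
  rw [← chain_iff (fun z => z = x ∨ z = y) w x y hxy (by simp),
    ← chain_iff (fun z => z = x ∨ z = y) w y x hxy.symm (by simp [or_comm])]
  have hm : ∀ z ∈ w.filter fun z => z = x ∨ z = y, z = x ∨ z = y := by
    intro z hz
    simpa using (List.mem_filter.1 hz).2
  generalize (w.filter fun z => z = x ∨ z = y) = f at hm
  cases f with
  | nil => simp
  | cons a f =>
    rw [List.isChain_cons_cons, List.isChain_cons_cons]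
    rcases hm a (by simp) with rfl | rfl
    · simp [hxy.symm]
    · simp [hxy]

theorem not_both (w : List V) (x y : V) (hxy : x ≠ y) (hx : x ∈ w) :
    ¬ ∀ p, p <+: w → p.count x = p.count y := by
  induction w with
  | nil => simp at hx
  | cons a w ih =>
    intro h
    have h1 := h [a] (by simp)
    have ha : a ≠ x := by
      rintro rfl
      simp [List.count_cons_of_ne hxy] at h1
    have hb : a ≠ y := by
      rintro rfl
      simp [List.count_cons_of_ne hxy.symm] at h1
    refine ih (by simpa [ha.symm] using hx) fun p hp => ?_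
    have := h (a :: p) ((List.prefix_cons_inj a).2 hp)
    simpa [List.count_cons_of_ne ha, List.count_cons_of_ne hb] using this

theorem prefix_fm (g : ℕ → Option V) (T : ℕ) (p : List V) :
    p <+: (List.range T).filterMap g ↔ ∃ t ≤ T, p = (List.range t).filterMap g := by
  constructor
  · induction T with
    | zero => intro h; exact ⟨0, le_rfl, by simpa using h⟩
    | succ T ih =>
      intro h
      rw [List.range_succ, List.filterMap_append] at h
      cases hg : g T with
      | none =>
        simp only [List.filterMap_cons, hg, List.filterMap_nil, List.append_nil] at h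
        obtain ⟨t, ht, e⟩ := ih h
        exact ⟨t, by omega, e⟩
      | some v =>
        simp only [List.filterMap_cons, hg, List.filterMap_nil] at h
        rcases List.prefix_concat_iff.1 h with h | h
        · exact ⟨T + 1, le_rfl, by simp [List.range_succ, hg, h]⟩
        · obtain ⟨t, ht, e⟩ := ih h
          exact ⟨t, by omega, e⟩
  · rintro ⟨t, ht, rfl⟩
    obtain ⟨m, rfl⟩ := Nat.exists_eq_add_of_le ht
    rw [List.range_add, List.filterMap_append]
    exact List.prefix_append _ _

def cn (a b t : ℕ) : ℕ := (if a < t then 1 else 0) + (if b < t then 1 else 0)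

theorem count_fm (g : ℕ → Option V) (x : V) (a b T : ℕ) (hab : a ≠ b)
    (h : ∀ s < T, g s = some x ↔ s = a ∨ s = b) :
    ∀ t ≤ T, ((List.range t).filterMap g).count x = cn a b t := by
  intro t
  induction t with
  | zero => intro _; simp [cn]
  | succ t ih =>
    intro ht
    rw [List.range_succ, List.filterMap_append, List.count_append, ih (by omega)]
    have h1 := h t (by omega)
    cases hg : g t with
    | none =>
      simp only [hg, reduceCtorEq, false_iff, not_or] at h1
      simp only [List.filterMap_cons, hg, List.filterMap_nil, List.count_nil, cn]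
      split_ifs <;> omega
    | some v =>
      simp only [hg, Option.some.injEq] at h1
      simp only [List.filterMap_cons, hg, List.filterMap_nil, List.count_cons, List.count_nil, cn,
        beq_iff_eq, h1]
      split_ifs <;> omega

theorem word_of_times (a b : V → ℕ) (T : ℕ) (ha : ∀ x, a x < T) (hab : ∀ x, a x ≠ b x)
    (inj : ∀ x y s, s < T → (s = a x ∨ s = b x) → (s = a y ∨ s = b y) → x = y) :
    ∃ w : List V, (∀ v, v ∈ w) ∧ ∀ x y, P x y w ↔
      ∀ t ≤ T, cn (a y) (b y) t ≤ cn (a x) (b x) t ∧ cn (a x) (b x) t ≤ cn (a y) (b y) t + 1 := by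
  classical
  let g : ℕ → Option V := fun s => if h : ∃ x, s = a x ∨ s = b x then some h.choose else none
  have hg : ∀ x, ∀ s < T, g s = some x ↔ s = a x ∨ s = b x := by
    intro x s hs
    simp only [g]
    split_ifs with h
    · rw [Option.some.injEq]
      exact ⟨fun e => e ▸ h.choose_spec, fun e => inj _ _ s hs h.choose_spec e⟩
    · simp only [false_iff]
      exact fun e => h ⟨x, e⟩
  refine ⟨(List.range T).filterMap g, fun v => ?_, fun x y => ?_⟩
  · exact List.mem_filterMap.2 ⟨a v, List.mem_range.2 (ha v), (hg v _ (ha v)).2 (Or.inl rfl)⟩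
  · unfold P
    constructor
    · intro h t ht
      have := h _ ((prefix_fm g T _).2 ⟨t, ht, rfl⟩)
      rwa [count_fm g x _ _ T (hab x) (hg x) t ht, count_fm g y _ _ T (hab y) (hg y) t ht] at this
    · intro h p hp
      obtain ⟨t, ht, rfl⟩ := (prefix_fm g T _).1 hp
      rw [count_fm g x _ _ T (hab x) (hg x) t ht, count_fm g y _ _ T (hab y) (hg y) t ht]
      exact h t ht

end Pool.Agent.H32.WordRep
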