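import Pool.Agent.H32.WordRep1

namespace Pool.Agent.H32.WordRep

variable {τ : Type*}

def Alt (f g : τ → ℕ) : Prop := R f g ∨ R g f
def Df (f g : τ → ℕ) : Prop := ¬ ∀ t, f t = g t
def TB (x y e : τ → ℕ) : Prop := R e x ∧ R x y ∧ R e y
def TA (x y e : τ → ℕ) : Prop := R x y ∧ R y e ∧ R x e
def TM (x y e : τ → ℕ) : Prop := R y e ∧ R e x ∧ R y x
def Pos (x y e : τ → ℕ) : Prop := TB x y e ∨ TA x y e ∨ TM x y e

theorem Alt.symm {f g : τ → ℕ} (h : Alt f g) : Alt g f := Or.symm h
theorem Df.symm {f g : τ → ℕ} (h : Df f g) : Df g f := fun k => h fun t => (k t).symm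

theorem tri {x y e : τ → ℕ} (h1 : Alt x y) (h2 : Alt e x) (h3 : Alt e y) (d : Df x y) :
    Pos x y e ∨ Pos y x e := by
  unfold Pos TB TA TM
  rcases h1 with h1 | h1 <;> rcases h2 with h2 | h2 <;> rcases h3 with h3 | h3 <;>
  first
  | tauto
  | exact absurd (fun t => by have := h1 t; have := h2 t; have := h3 t; omega) d

theorem loc1 {x y z e f : τ → ℕ} (h1 : Pos x y e) (h2 : Pos z y f) (h3 : Alt x z)
    (n1 : ¬ Alt e z) (n2 : ¬ Alt f x) (d1 : Df x y) (d2 : Df y z) : False := by
  rcases h1 with ⟨a1, a2, a3⟩ | ⟨a1, a2, a3⟩ | ⟨a1, a2, a3⟩ <;>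
  rcases h2 with ⟨b1, b2, b3⟩ | ⟨b1, b2, b3⟩ | ⟨b1, b2, b3⟩ <;> rcases h3 with h3 | h3 <;>
  first
  | (refine n1 (Or.inl fun t => ?_); have := a1 t; have := a2 t; have := a3 t; have := b1 t
     have := b2 t; have := b3 t; have := h3 t; omega)
  | (refine n1 (Or.inr fun t => ?_); have := a1 t; have := a2 t; have := a3 t; have := b1 t
     have := b2 t; have := b3 t; have := h3 t; omega)
  | (refine n2 (Or.inl fun t => ?_); have := a1 t; have := a2 t; have := a3 t; have := b1 t
     have := b2 t; have := b3 t; have := h3 t; omega)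
  | (refine n2 (Or.inr fun t => ?_); have := a1 t; have := a2 t; have := a3 t; have := b1 t
     have := b2 t; have := b3 t; have := h3 t; omega)
  | (refine d1 fun t => ?_; have := a1 t; have := a2 t; have := a3 t; have := b1 t
     have := b2 t; have := b3 t; have := h3 t; omega)
  | (refine d2 fun t => ?_; have := a1 t; have := a2 t; have := a3 t; have := b1 t
     have := b2 t; have := b3 t; have := h3 t; omega)

theorem loc2 {x y z e f : τ → ℕ} {u v : ℕ}
    (h1 : (TB x y e ∧ u = 1) ∨ (TA x y e ∧ u = 0) ∨ (TM x y e ∧ u = 0))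
    (h2 : (TB y z f ∧ v = 1) ∨ (TA y z f ∧ v = 0) ∨ (TM y z f ∧ v = 1)) (h3 : Alt e f)
    (n1 : ¬ Alt e z) (n2 : ¬ Alt f x) : ∀ t, f t + u ≤ e t + v := by
  rcases h1 with ⟨⟨a1, a2, a3⟩, rfl⟩ | ⟨⟨a1, a2, a3⟩, rfl⟩ | ⟨⟨a1, a2, a3⟩, rfl⟩ <;>
  rcases h2 with ⟨⟨b1, b2, b3⟩, rfl⟩ | ⟨⟨b1, b2, b3⟩, rfl⟩ | ⟨⟨b1, b2, b3⟩, rfl⟩ <;>
  rcases h3 with h3 | h3 <;>
  first
  | (intro t; have := a1 t; have := a2 t; have := a3 t; have := b1 t
     have := b2 t; have := b3 t; have := h3 t; omega)
  | (refine absurd (Or.inl fun t => ?_) n1; have := a1 t; have := a2 t; have := a3 t; have := b1 t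
     have := b2 t; have := b3 t; have := h3 t; omega)
  | (refine absurd (Or.inr fun t => ?_) n1; have := a1 t; have := a2 t; have := a3 t; have := b1 t
     have := b2 t; have := b3 t; have := h3 t; omega)
  | (refine absurd (Or.inl fun t => ?_) n2; have := a1 t; have := a2 t; have := a3 t; have := b1 t
     have := b2 t; have := b3 t; have := h3 t; omega)
  | (refine absurd (Or.inr fun t => ?_) n2; have := a1 t; have := a2 t; have := a3 t; have := b1 t
     have := b2 t; have := b3 t; have := h3 t; omega)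

structure Wh (n : ℕ) (S E : ZMod n → τ → ℕ) : Prop where
  hS : ∀ i j, i ≠ j → Alt (S i) (S j) ∧ Df (S i) (S j)
  h1 : ∀ i, Alt (E i) (S i)
  h2 : ∀ i, Alt (E i) (S (i + 1))
  h3 : ∀ i, Alt (E i) (E (i + 1))
  h4 : ∀ i j, j ≠ i → j ≠ i + 1 → ¬ Alt (E i) (S j)
  h5 : ∀ i, ¬ Alt (E i) (E (i + 2))

theorem cast_ne {n : ℕ} (k : ℕ) (h0 : 0 < k) (h1 : k < n) : (k : ZMod n) ≠ 0 := by
  rw [Ne, ZMod.natCast_eq_zero_iff]
  exact fun h => absurd (Nat.le_of_dvd h0 h) (by omega)

theorem Wh.uniq1 {n : ℕ} {S E : ZMod n → τ → ℕ} (W : Wh n S E) (i j : ZMod n) (hij : i ≠ j)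
    (a : TM (S i) (S (i + 1)) (E i)) (h : R (S i) (S j)) : False := by
  obtain ⟨a1, a2, a3⟩ := a
  by_cases q : j = i + 1
  · subst q
    exact (W.hS _ _ hij).2 fun t => by have := h t; have := a3 t; omega
  · refine W.h4 i j hij.symm q (Or.inl fun t => ?_)
    have := a1 t; have := a2 t; have := h t
    rcases (W.hS _ _ q).1 with k | k <;> have := k t <;> omega

theorem Wh.false_of_pos {n : ℕ} {S E : ZMod n → τ → ℕ} (W : Wh n S E) (hn : 4 ≤ n)
    (i0 : ZMod n) (h0 : Pos (S i0) (S (i0 + 1)) (E i0)) : False := by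
  classical
  haveI : NeZero n := ⟨by omega⟩
  have e1 : (1 : ZMod n) ≠ 0 := by simpa using cast_ne (n := n) 1 (by omega) (by omega)
  have e2 : (2 : ZMod n) ≠ 0 := by simpa using cast_ne (n := n) 2 (by omega) (by omega)
  have f1 : ∀ i : ZMod n, i ≠ i + 1 := fun i h => e1 (by linear_combination -h)
  have f2 : ∀ i : ZMod n, i ≠ i + 1 + 1 := fun i h => e2 (by linear_combination -h)
  have n1 : ∀ i, ¬ Alt (E i) (S (i + 1 + 1)) := fun i => W.h4 _ _ (f2 i).symm (f1 _).symm
  have n2 : ∀ i, ¬ Alt (E (i + 1)) (S i) := fun i => W.h4 _ _ (f1 i) (f2 i)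
  have st : ∀ i, Pos (S i) (S (i + 1)) (E i) → Pos (S (i + 1)) (S (i + 1 + 1)) (E (i + 1)) := by
    intro i h
    refine (tri (W.hS _ _ (f1 _)).1 (W.h1 _) (W.h2 _) (W.hS _ _ (f1 _)).2).resolve_right fun k => ?_
    exact loc1 h k (W.hS _ _ (f2 i)).1 (n1 i) (n2 i) (W.hS _ _ (f1 _)).2 (W.hS _ _ (f1 _)).2
  have all : ∀ i, Pos (S i) (S (i + 1)) (E i) := by
    have : ∀ k : ℕ, Pos (S (i0 + k)) (S (i0 + k + 1)) (E (i0 + k)) := by
      intro k
      induction k with
      | zero => simpa using h0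
      | succ k ih => simpa [add_assoc] using st _ ih
    intro i
    simpa using this (i - i0).val
  have exM : ∃ i, TM (S i) (S (i + 1)) (E i) := by
    by_contra hn'
    have d : ∀ i t, S (i + 1) t ≤ S i t := by
      intro i t
      rcases all i with h | h | h
      · exact (h.2.1 t).1
      · exact (h.1 t).1
      · exact absurd ⟨i, h⟩ hn'
    have d2 : ∀ (k : ℕ) t, S (1 + k) t ≤ S 1 t := by
      intro k t
      induction k with
      | zero => simp
      | succ k ih =>
        have := d (1 + k) t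
        push_cast
        rw [← add_assoc]
        omega
    refine (W.hS 0 1 e1.symm).2 fun t => ?_
    have k1 := d 0 t
    have k2 := d2 (-1 : ZMod n).val t
    simp only [zero_add, ZMod.natCast_val, ZMod.cast_id', id_eq, add_neg_cancel] at k1 k2
    omega
  obtain ⟨i, hi⟩ := exM
  have un : ∀ k : ℕ, 0 < k → k < n → ¬ TM (S (i + k)) (S (i + k + 1)) (E (i + k)) := by
    intro k k0 k1 h
    have hne : i ≠ i + k := fun q => cast_ne k k0 k1 (by linear_combination -q)
    rcases (W.hS _ _ hne).1 with r | r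
    · exact W.uniq1 _ _ hne hi r
    · exact W.uniq1 _ _ hne.symm h r
  let u : ℕ → ℕ := fun k => if k = 0 then 0 else if k = n then 1 else
    if TB (S (i + k)) (S (i + k + 1)) (E (i + k)) then 1 else 0
  have mid : ∀ k : ℕ, 0 < k → k < n → (TB (S (i + k)) (S (i + k + 1)) (E (i + k)) ∧ u k = 1) ∨
      (TA (S (i + k)) (S (i + k + 1)) (E (i + k)) ∧ u k = 0) := by
    intro k k0 k1
    simp only [u, if_neg k0.ne', if_neg k1.ne]
    split_ifs with q
    · exact Or.inl ⟨q, rfl⟩
    · exact Or.inr ⟨((all _).resolve_left q).resolve_right (un k k0 k1), rfl⟩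
  have stp : ∀ k : ℕ, k < n → ∀ t, E (i + (k + 1 : ℕ)) t + u k ≤ E (i + k) t + u (k + 1) := by
    intro k hk
    have c : i + (k + 1 : ℕ) = i + k + 1 := by push_cast; ring
    rw [c]
    refine loc2 (x := S (i + k)) (y := S (i + k + 1)) (z := S (i + k + 1 + 1)) ?_ ?_ (W.h3 _)
      (n1 _) (n2 _)
    · rcases Nat.eq_zero_or_pos k with rfl | k0
      · right; right
        exact ⟨by simpa using hi, by simp [u]⟩
      · rcases mid k k0 hk with h | h
        · exact Or.inl h
        · exact Or.inr (Or.inl h)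
    · rw [← c]
      by_cases q : k + 1 = n
      · right; right
        refine ⟨by simpa [q] using hi, ?_⟩
        simp only [u, q]
        rw [if_neg (by omega)]; simp
      · rcases mid (k + 1) (by omega) (by omega) with h | h
        · exact Or.inl h
        · exact Or.inr (Or.inl h)
  have ch : ∀ a b : ℕ, a + b ≤ n → ∀ t, E (i + (a + b : ℕ)) t + u a ≤ E (i + a) t + u (a + b) := by
    intro a b
    induction b with
    | zero => intro _ t; simp
    | succ b ih =>
      intro h t
      have k1 := ih (by omega) t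
      have k2 := stp (a + b) (by omega) t
      rw [← add_assoc a b 1]
      omega
  have c1 := ch 0 2 (by omega)
  have c2 := ch 2 (n - 2) (by omega)
  rw [show 2 + (n - 2) = n by omega] at c2
  have u0 : u 0 = 0 := by simp [u]
  have un' : u n = 1 := by
    simp only [u]
    rw [if_neg (by omega)]; simp
  simp only [zero_add, Nat.cast_ofNat, Nat.cast_zero, add_zero, ZMod.natCast_self, u0, un'] at c1 c2
  refine W.h5 i ?_
  rcases mid 2 (by omega) (by omega) with h | h
  · right; intro t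
    have := c1 t; have := c2 t; have := h.2; omega
  · left; intro t
    have := c1 t; have := c2 t; have := h.2; omega

theorem Wh.false {n : ℕ} {S E : ZMod n → τ → ℕ} (W : Wh n S E) (hn : 4 ≤ n) : False := by
  have e1 : (0 : ZMod n) ≠ 0 + 1 := by
    simpa using (cast_ne (n := n) 1 (by omega) (by omega)).symm
  rcases tri (W.hS _ _ e1).1 (W.h1 _) (W.h2 _) (W.hS _ _ e1).2 with h | h
  · exact W.false_of_pos hn 0 h
  · have W' : Wh n (fun i => S (-i)) (fun i => E (-i - 1)) := by
      refine ⟨fun i j hij => W.hS _ _ (by simpa using hij), fun i => ?_, fun i => ?_, fun i => ?_,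
        fun i j q1 q2 => W.h4 _ _ (fun k => q2 (by linear_combination -k))
          (fun k => q1 (by linear_combination -k)), fun i k => ?_⟩
      · simpa using W.h2 (-i - 1)
      · have := W.h1 (-i - 1)
        rwa [show -(i + 1) = -i - 1 by ring]
      · have := (W.h3 (-(i + 1) - 1)).symm
        rwa [show -(i + 1) - 1 + 1 = -i - 1 by ring] at this
      · refine W.h5 (-(i + 2) - 1) ?_
        rw [show -(i + 2) - 1 + 2 = -i - 1 by ring]
        exact k.symm
    refine W'.false_of_pos hn (-1) ?_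
    simpa using h

def cnt {V : Type*} [DecidableEq V] (w : List V) (x : V) : {p : List V // p <+: w} → ℕ :=
  fun p => p.1.count x

theorem P_alt {V : Type*} [DecidableEq V] (w : List V) (x y : V) :
    (P x y w ∨ P y x w) ↔ Alt (cnt w x) (cnt w y) := by
  unfold Alt R P cnt
  simp only [Subtype.forall]

theorem df_cnt {V : Type*} [DecidableEq V] (w : List V) (x y : V) (hxy : x ≠ y) (hx : x ∈ w) :
    Df (cnt w x) (cnt w y) := fun k => not_both w x y hxy hx fun p hp => k ⟨p, hp⟩

theorem alt_iff' {V : Type*} [DecidableEq V] (w : List V) (x y : V) (hxy : x ≠ y) (q : V → Bool)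
    (hq : ∀ z, q z = true ↔ z = x ∨ z = y) :
    (w.filter q).IsChain (· ≠ ·) ↔ P x y w ∨ P y x w := by
  rw [← alt_iff w x y hxy, List.filter_congr (q := fun z => decide (z = x ∨ z = y))]
  intro z _
  rw [Bool.eq_iff_iff, hq, decide_eq_true_iff]

end Pool.Agent.H32.WordRep
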